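import Mathlib

/-!
MP_29f955_co, part 1: bounded functions, invariant means on the group `F_5^(ω)`.
-/

namespace Pool.Agent.R294.BB

open Filter Topology

/-- The group `F_5^(ω)`. -/
abbrev G : Type := ℕ →₀ ZMod 5

/-- Bounded real function. -/
def Bd {α : Type*} (f : α → ℝ) : Prop := ∃ C : ℝ, ∀ x, |f x| ≤ C

section Bd

variable {α : Type*} {f g : α → ℝ}

theorem Bd.of_abs_le (C : ℝ) (h : ∀ x, |f x| ≤ C) : Bd f := ⟨C, h⟩

theorem Bd.of_mem (h : ∀ x, 0 ≤ f x ∧ f x ≤ 1) : Bd f :=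
  ⟨1, fun x => abs_le.2 ⟨by linarith [(h x).1], (h x).2⟩⟩

@[simp] theorem Bd.const (c : ℝ) : Bd (fun _ : α => c) := ⟨|c|, fun _ => le_refl _⟩

@[simp] theorem Bd.add (hf : Bd f) (hg : Bd g) : Bd (fun x => f x + g x) := by
  obtain ⟨C, hC⟩ := hf
  obtain ⟨D, hD⟩ := hg
  exact ⟨C + D, fun x => (abs_add_le _ _).trans (add_le_add (hC x) (hD x))⟩

@[simp] theorem Bd.neg (hf : Bd f) : Bd (fun x => - f x) := by
  obtain ⟨C, hC⟩ := hf
  exact ⟨C, fun x => by rw [abs_neg]; exact hC x⟩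

@[simp] theorem Bd.sub (hf : Bd f) (hg : Bd g) : Bd (fun x => f x - g x) := by
  obtain ⟨C, hC⟩ := hf
  obtain ⟨D, hD⟩ := hg
  exact ⟨C + D, fun x => (abs_sub _ _).trans (add_le_add (hC x) (hD x))⟩

@[simp] theorem Bd.mul (hf : Bd f) (hg : Bd g) : Bd (fun x => f x * g x) := by
  obtain ⟨C, hC⟩ := hf
  obtain ⟨D, hD⟩ := hg
  refine ⟨C * D, fun x => ?_⟩
  rw [abs_mul]
  exact mul_le_mul (hC x) (hD x) (abs_nonneg _) ((abs_nonneg _).trans (hC x))

@[simp] theorem Bd.abs (hf : Bd f) : Bd (fun x => |f x|) := by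
  obtain ⟨C, hC⟩ := hf
  exact ⟨C, fun x => by rw [abs_abs]; exact hC x⟩

@[simp] theorem Bd.pow (hf : Bd f) (n : ℕ) : Bd (fun x => f x ^ n) := by
  obtain ⟨C, hC⟩ := hf
  refine ⟨C ^ n, fun x => ?_⟩
  rw [abs_pow]
  exact pow_le_pow_left₀ (abs_nonneg _) (hC x) n

@[simp] theorem Bd.sum {ι : Type*} (s : Finset ι) {F : ι → α → ℝ} (h : ∀ i ∈ s, Bd (F i)) :
    Bd (fun x => ∑ i ∈ s, F i x) := by
  classical
  induction s using Finset.induction_on with
  | empty => simp
  | insert i s hi ih =>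
    have h1 := ih (fun j hj => h j (Finset.mem_insert_of_mem hj))
    have h2 := h i (Finset.mem_insert_self _ _)
    have : (fun x => ∑ j ∈ insert i s, F j x) = fun x => F i x + ∑ j ∈ s, F j x := by
      funext x; rw [Finset.sum_insert hi]
    rw [this]
    exact Bd.add h2 h1

theorem Bd.comp {β : Type*} {f : β → ℝ} (hf : Bd f) (g : α → β) : Bd (fun x => f (g x)) := by
  obtain ⟨C, hC⟩ := hf
  exact ⟨C, fun x => hC _⟩

end Bd

@[simp] theorem Bd.shift {f : G → ℝ} (hf : Bd f) (b : G) : Bd (fun x => f (x + b)) :=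
  hf.comp _

@[simp] theorem Bd.shift' {f : G → ℝ} (hf : Bd f) (b : G) : Bd (fun x => f (b + x)) :=
  hf.comp _

/-- Invariant means on `G`, as functionals on all functions (value zero on unbounded ones). -/
structure IsMean (m : (G → ℝ) → ℝ) : Prop where
  add' : ∀ f g, Bd f → Bd g → m (fun x => f x + g x) = m f + m g
  smul' : ∀ (c : ℝ) f, Bd f → m (fun x => c * f x) = c * m f
  nonneg' : ∀ f, Bd f → (∀ x, 0 ≤ f x) → 0 ≤ m f
  one' : m (fun _ => 1) = 1
  inv' : ∀ f (b : G), Bd f → m (fun x => f (x + b)) = m f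
  junk' : ∀ f, ¬ Bd f → m f = 0

namespace IsMean

variable {m : (G → ℝ) → ℝ} (hm : IsMean m)

include hm

theorem add {f g : G → ℝ} (hf : Bd f) (hg : Bd g) : m (fun x => f x + g x) = m f + m g :=
  hm.add' f g hf hg

theorem smul (c : ℝ) {f : G → ℝ} (hf : Bd f) : m (fun x => c * f x) = c * m f :=
  hm.smul' c f hf

theorem smul_right (c : ℝ) {f : G → ℝ} (hf : Bd f) : m (fun x => f x * c) = m f * c := by
  rw [mul_comm, ← hm.smul c hf]
  congr 1; funext x; ring

theorem neg {f : G → ℝ} (hf : Bd f) : m (fun x => - f x) = - m f := by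
  have := hm.smul (-1) hf
  rw [neg_one_mul] at this
  rw [← this]
  congr 1; funext x; ring

theorem sub {f g : G → ℝ} (hf : Bd f) (hg : Bd g) : m (fun x => f x - g x) = m f - m g := by
  have h1 := hm.add hf hg.neg
  rw [hm.neg hg] at h1
  rw [sub_eq_add_neg, ← h1]
  congr 1

theorem const (c : ℝ) : m (fun _ => c) = c := by
  have := hm.smul c (f := fun _ => 1) (by simp)
  rw [hm.one'] at this
  simpa using this

theorem nonneg {f : G → ℝ} (h : ∀ x, 0 ≤ f x) : 0 ≤ m f := by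
  by_cases hf : Bd f
  · exact hm.nonneg' f hf h
  · rw [hm.junk' f hf]

theorem mono {f g : G → ℝ} (hf : Bd f) (hg : Bd g) (h : ∀ x, f x ≤ g x) : m f ≤ m g := by
  have h1 : 0 ≤ m (fun x => g x - f x) := hm.nonneg (fun x => sub_nonneg.2 (h x))
  rw [hm.sub hg hf] at h1
  linarith

theorem shift {f : G → ℝ} (hf : Bd f) (b : G) : m (fun x => f (x + b)) = m f :=
  hm.inv' f b hf

theorem abs_le {f : G → ℝ} (hf : Bd f) : |m f| ≤ m (fun x => |f x|) := by
  rw [_root_.abs_le]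
  constructor
  · have h1 := hm.mono (hf.abs.neg) hf (fun x => neg_abs_le (f x))
    rw [hm.neg hf.abs] at h1
    exact h1
  · exact hm.mono hf hf.abs (fun x => le_abs_self _)

theorem le_of_le {f : G → ℝ} {C : ℝ} (hf : Bd f) (h : ∀ x, f x ≤ C) : m f ≤ C := by
  have := hm.mono hf (Bd.const C) h
  rwa [hm.const] at this

theorem abs_le_of_le {f : G → ℝ} {C : ℝ} (h : ∀ x, |f x| ≤ C) : |m f| ≤ C := by
  have hf : Bd f := ⟨C, h⟩
  exact (hm.abs_le hf).trans (hm.le_of_le hf.abs h)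

theorem sum {ι : Type*} (s : Finset ι) {F : ι → G → ℝ} (h : ∀ i ∈ s, Bd (F i)) :
    m (fun x => ∑ i ∈ s, F i x) = ∑ i ∈ s, m (F i) := by
  classical
  induction s using Finset.induction_on with
  | empty => simp [hm.const]
  | insert i s hi ih =>
    have h1 := ih (fun j hj => h j (Finset.mem_insert_of_mem hj))
    have h2 := h i (Finset.mem_insert_self _ _)
    have h3 : Bd (fun x => ∑ j ∈ s, F j x) :=
      Bd.sum s (fun j hj => h j (Finset.mem_insert_of_mem hj))
    have : (fun x => ∑ j ∈ insert i s, F j x) = fun x => F i x + ∑ j ∈ s, F j x := by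
      funext x; rw [Finset.sum_insert hi]
    rw [this, hm.add h2 h3, h1, Finset.sum_insert hi]

theorem sq_le {f g : G → ℝ} (hf : Bd f) (hg : Bd g) :
    (m (fun x => f x * g x)) ^ 2 ≤ m (fun x => f x ^ 2) * m (fun x => g x ^ 2) := by
  have key : ∀ t : ℝ, 0 ≤ m (fun x => g x ^ 2) * (t * t)
      + (2 * m (fun x => f x * g x)) * t + m (fun x => f x ^ 2) := by
    intro t
    have h1 : 0 ≤ m (fun x => (t * t) * g x ^ 2 + ((2 * t) * (f x * g x) + f x ^ 2)) :=
      hm.nonneg (fun x => by nlinarith [sq_nonneg (f x + t * g x)])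
    have b1 : Bd (fun x => (t * t) * g x ^ 2) := by simp [hg]
    have b2 : Bd (fun x => (2 * t) * (f x * g x)) := by simp [hf, hg]
    have b3 : Bd (fun x => f x ^ 2) := by simp [hf]
    rw [hm.add b1 (b2.add b3), hm.add b2 b3, hm.smul _ (hg.pow 2), hm.smul _ (hf.mul hg)] at h1
    linarith
  have := discrim_le_zero key
  unfold discrim at this
  nlinarith

theorem abs_sq_le {f : G → ℝ} (hf : Bd f) : (m (fun x => |f x|)) ^ 2 ≤ m (fun x => f x ^ 2) := by
  have := hm.sq_le hf.abs (Bd.const 1)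
  simpa [hm.const] using this

theorem sq_le' {f : G → ℝ} (hf : Bd f) : (m f) ^ 2 ≤ m (fun x => f x ^ 2) := by
  have := hm.sq_le hf (Bd.const 1)
  simpa [hm.const] using this

end IsMean

end Pool.Agent.R294.BB
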