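import Pool.Agent.R294.BB1

/-!
MP_29f955_co, part 2: the finite subgroups `V_M`, averages over them, characters and the
Parseval identity.
-/

namespace Pool.Agent.R294.BB

open Filter Topology

/-- the vector of `V_M` with coordinates `a` -/
noncomputable def io (M : ℕ) (a : Fin M → ZMod 5) : G := ∑ i : Fin M, Finsupp.single (i : ℕ) (a i)

theorem io_apply (M : ℕ) (a : Fin M → ZMod 5) (i : ℕ) :
    io M a i = if h : i < M then a ⟨i, h⟩ else 0 := by
  unfold io
  rw [Finsupp.finsetSum_apply]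
  split_ifs with h
  · rw [Finset.sum_eq_single (⟨i, h⟩ : Fin M)]
    · simp
    · intro j _ hj
      rw [Finsupp.single_apply, if_neg]
      intro h2
      exact hj (Fin.ext h2)
    · simp
  · apply Finset.sum_eq_zero
    intro j _
    rw [Finsupp.single_apply, if_neg]
    intro h2
    exact h (h2 ▸ j.2)

theorem io_add (M : ℕ) (a b : Fin M → ZMod 5) : io M (a + b) = io M a + io M b := by
  ext i
  rw [Finsupp.add_apply, io_apply, io_apply, io_apply]
  split_ifs <;> simp

theorem io_sub (M : ℕ) (a b : Fin M → ZMod 5) : io M (a - b) = io M a - io M b := by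
  have := io_add M (a - b) b
  rw [sub_add_cancel] at this
  rw [this]; abel

theorem io_zero (M : ℕ) : io M 0 = 0 := by
  ext i
  rw [io_apply]
  split_ifs <;> simp

theorem io_inj (M : ℕ) : Function.Injective (io M) := by
  intro a b h
  funext i
  have h1 := DFunLike.congr_fun h (i : ℕ)
  rw [io_apply, io_apply] at h1
  simpa using h1

theorem exists_io {M : ℕ} {g : G} (hg : ∀ i, M ≤ i → g i = 0) : ∃ a, io M a = g := by
  refine ⟨fun i => g i, ?_⟩
  ext i
  rw [io_apply]
  split_ifs with h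
  · rfl
  · exact (hg i (not_lt.1 h)).symm

theorem exists_bound (g : G) : ∃ M : ℕ, ∀ i, M ≤ i → g i = 0 := by
  refine ⟨g.support.sup id + 1, fun i hi => ?_⟩
  by_contra h
  have h1 : i ∈ g.support := Finsupp.mem_support_iff.2 h
  have h2 : id i ≤ g.support.sup id := Finset.le_sup (f := id) h1
  simp only [id] at h2
  omega

theorem sum_shift {E : Type*} [AddCommMonoid E] {M : ℕ} {g : G} (hg : ∀ i, M ≤ i → g i = 0)
    (F : G → E) : ∑ a : Fin M → ZMod 5, F (g + io M a) = ∑ a : Fin M → ZMod 5, F (io M a) := by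
  obtain ⟨c, rfl⟩ := exists_io hg
  rw [← Equiv.sum_comp (Equiv.addLeft c) (fun a => F (io M a))]
  apply Finset.sum_congr rfl
  intro a _
  rw [Equiv.coe_addLeft, io_add]

theorem card_V (M : ℕ) : (Finset.univ : Finset (Fin M → ZMod 5)).card = 5 ^ M := by
  simp [ZMod.card]

/-- average over `x + V_M` -/
noncomputable def av (M : ℕ) (f : G → ℝ) (x : G) : ℝ :=
  ((5 : ℝ) ^ M)⁻¹ * ∑ a : Fin M → ZMod 5, f (x + io M a)

theorem av_abs_le {M : ℕ} {f : G → ℝ} {C : ℝ} (h : ∀ x, |f x| ≤ C) (x : G) : |av M f x| ≤ C := by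
  unfold av
  have h5 : (0 : ℝ) < 5 ^ M := by positivity
  rw [abs_mul, abs_of_pos (inv_pos.2 h5), inv_mul_le_iff₀ h5]
  calc |∑ a : Fin M → ZMod 5, f (x + io M a)| ≤ ∑ a : Fin M → ZMod 5, |f (x + io M a)| :=
        Finset.abs_sum_le_sum_abs _ _
    _ ≤ ∑ a : Fin M → ZMod 5, C := Finset.sum_le_sum (fun a _ => h _)
    _ = 5 ^ M * C := by rw [Finset.sum_const, card_V]; simp

@[simp] theorem Bd.av {M : ℕ} {f : G → ℝ} (hf : Bd f) : Bd (fun x => av M f x) := by
  obtain ⟨C, hC⟩ := hf
  exact ⟨C, fun x => av_abs_le hC x⟩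

theorem av_shift {M : ℕ} {b : G} (hb : ∀ i, M ≤ i → b i = 0) (f : G → ℝ) (x : G) :
    av M f (x + b) = av M f x := by
  unfold BB.av
  congr 1
  have := sum_shift hb (fun v => f (x + v))
  rw [← this]
  apply Finset.sum_congr rfl
  intro a _
  rw [add_assoc]

theorem io_supp (M : ℕ) (a : Fin M → ZMod 5) : ∀ i, M ≤ i → io M a i = 0 := by
  intro i hi
  rw [io_apply, dif_neg (not_lt.2 hi)]

theorem IsMean.av {m : (G → ℝ) → ℝ} (hm : IsMean m) (M : ℕ) {f : G → ℝ} (hf : Bd f) :
    m (av M f) = m f := by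
  unfold BB.av
  have h1 : Bd (fun x => ∑ a : Fin M → ZMod 5, f (x + io M a)) :=
    Bd.sum _ (fun a _ => hf.shift _)
  rw [hm.smul _ h1, hm.sum _ (fun a _ => hf.shift _), Finset.sum_congr rfl
    (fun a _ => hm.shift hf _), Finset.sum_const, card_V]
  simp

/-- For `V_M`-invariant `g`, `m (av M f * g) = m (f * g)`. -/
theorem IsMean.av_mul {m : (G → ℝ) → ℝ} (hm : IsMean m) (M : ℕ) {f g : G → ℝ} (hf : Bd f)
    (hg : Bd g) (hg2 : ∀ (b : G), (∀ i, M ≤ i → b i = 0) → ∀ x, g (x + b) = g x) :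
    m (fun x => BB.av M f x * g x) = m (fun x => f x * g x) := by
  rw [← hm.av M (hf.mul hg)]
  congr 1
  funext x
  unfold BB.av
  rw [mul_assoc, Finset.sum_mul]
  congr 1
  apply Finset.sum_congr rfl
  intro a _
  change f (x + io M a) * g x = f (x + io M a) * g (x + io M a)
  rw [hg2 _ (io_supp M a)]

/-- `m ((av M f)^2) = m (f * av M f)`. -/
theorem IsMean.av_sq {m : (G → ℝ) → ℝ} (hm : IsMean m) (M : ℕ) {f : G → ℝ} (hf : Bd f) :
    m (fun x => BB.av M f x ^ 2) = m (fun x => f x * BB.av M f x) := by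
  rw [← hm.av_mul M hf hf.av (fun b hb x => av_shift hb f x)]
  congr 1; funext x; ring

theorem av_av {M N : ℕ} (h : M ≤ N) (f : G → ℝ) (x : G) : av N (av M f) x = av N f x := by
  have h5 : ((5 : ℝ) ^ M) ≠ 0 := by positivity
  unfold BB.av
  congr 1
  rw [← Finset.mul_sum, Finset.sum_comm]
  have : ∀ b : Fin M → ZMod 5, ∑ a : Fin N → ZMod 5, f (x + io N a + io M b)
      = ∑ a : Fin N → ZMod 5, f (x + io N a) := by
    intro b
    have := sum_shift (M := N) (g := io M b) (fun i hi => io_supp M b i (h.trans hi))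
      (fun v => f (x + v))
    rw [← this]
    apply Finset.sum_congr rfl
    intro a _
    congr 1; abel
  rw [Finset.sum_congr rfl (fun b _ => this b), Finset.sum_const, card_V]
  field_simp
  simp

/-- energy of averages is at most the energy -/
theorem IsMean.av_sq_le {m : (G → ℝ) → ℝ} (hm : IsMean m) (M : ℕ) {f : G → ℝ} (hf : Bd f) :
    m (fun x => BB.av M f x ^ 2) ≤ m (fun x => f x ^ 2) := by
  have h1 := hm.av_sq M hf
  have h2 : 0 ≤ m (fun x => (f x - BB.av M f x) ^ 2) := hm.nonneg (fun x => sq_nonneg _)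
  have h3 : m (fun x => (f x - BB.av M f x) ^ 2) = m (fun x => f x ^ 2)
      - 2 * m (fun x => f x * BB.av M f x) + m (fun x => BB.av M f x ^ 2) := by
    have e : (fun x => (f x - BB.av M f x) ^ 2)
        = fun x => (f x ^ 2 - 2 * (f x * BB.av M f x)) + BB.av M f x ^ 2 := by
      funext x; ring
    have b1 : Bd (fun x => f x ^ 2) := hf.pow 2
    have b2 : Bd (fun x => f x * BB.av M f x) := hf.mul hf.av
    have b3 : Bd (fun x => BB.av M f x ^ 2) := hf.av.pow 2
    have b4 : Bd (fun x => 2 * (f x * BB.av M f x)) := (Bd.const 2).mul b2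
    rw [e, hm.add (b1.sub b4) b3, hm.sub b1 b4, hm.smul 2 b2]
  rw [h3, ← h1] at h2
  linarith

theorem IsMean.av_anti {m : (G → ℝ) → ℝ} (hm : IsMean m) {M N : ℕ} (h : M ≤ N) {f : G → ℝ}
    (hf : Bd f) : m (fun x => BB.av N f x ^ 2) ≤ m (fun x => BB.av M f x ^ 2) := by
  have := hm.av_sq_le N (f := fun x => BB.av M f x) hf.av
  have e : (fun x => BB.av N (fun x => BB.av M f x) x ^ 2) = fun x => BB.av N f x ^ 2 := by
    funext x
    rw [show (fun x => BB.av M f x) = BB.av M f from rfl, av_av h]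
  rwa [e] at this

/-! ### characters -/

/-- the pairing -/
noncomputable def pr (y : ℕ → ZMod 5) : G →+ ZMod 5 :=
  (Finsupp.linearCombination (ZMod 5) y).toAddMonoidHom

theorem pr_io (y : ℕ → ZMod 5) (M : ℕ) (a : Fin M → ZMod 5) :
    pr y (io M a) = ∑ i : Fin M, a i * y i := by
  unfold pr io
  simp [Finsupp.linearCombination_single]

/-- the character -/
noncomputable def ch (y : ℕ → ZMod 5) (g : G) : ℂ := ZMod.stdAddChar (pr y g)

theorem ch_add (y : ℕ → ZMod 5) (g g' : G) : ch y (g + g') = ch y g * ch y g' := by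
  unfold ch
  rw [map_add, AddChar.map_add_eq_mul]

theorem ch_norm (y : ℕ → ZMod 5) (g : G) : ‖ch y g‖ = 1 := by
  unfold ch
  rw [ZMod.stdAddChar_apply]
  exact Circle.norm_coe _

/-- cosine part -/
noncomputable def cs (y : ℕ → ZMod 5) (g : G) : ℝ := (ch y g).re
/-- sine part -/
noncomputable def sn (y : ℕ → ZMod 5) (g : G) : ℝ := (ch y g).im

theorem cs_add (y : ℕ → ZMod 5) (g g' : G) :
    cs y (g + g') = cs y g * cs y g' - sn y g * sn y g' := by
  unfold cs sn
  rw [ch_add, Complex.mul_re]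

theorem sn_add (y : ℕ → ZMod 5) (g g' : G) :
    sn y (g + g') = cs y g * sn y g' + sn y g * cs y g' := by
  unfold cs sn
  rw [ch_add, Complex.mul_im]

theorem cs_sq_add (y : ℕ → ZMod 5) (g : G) : cs y g ^ 2 + sn y g ^ 2 = 1 := by
  have h := ch_norm y g
  have h2 : Complex.normSq (ch y g) = 1 := by
    rw [Complex.normSq_eq_norm_sq, h]; norm_num
  rw [Complex.normSq_apply] at h2
  unfold cs sn
  linarith

theorem cs_abs (y : ℕ → ZMod 5) (g : G) : |cs y g| ≤ 1 :=
  (Complex.abs_re_le_norm _).trans_eq (ch_norm y g)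

theorem sn_abs (y : ℕ → ZMod 5) (g : G) : |sn y g| ≤ 1 :=
  (Complex.abs_im_le_norm _).trans_eq (ch_norm y g)

@[simp] theorem Bd.cs (y : ℕ → ZMod 5) : Bd (fun g => cs y g) := ⟨1, cs_abs y⟩
@[simp] theorem Bd.sn (y : ℕ → ZMod 5) : Bd (fun g => sn y g) := ⟨1, sn_abs y⟩

theorem cs_mul_add (y : ℕ → ZMod 5) (g g' : G) :
    cs y g * cs y g' + sn y g * sn y g' = cs y (g - g') := by
  have h1 := cs_add y (g - g') g'
  have h2 := sn_add y (g - g') g'
  rw [sub_add_cancel] at h1 h2
  rw [h1, h2]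
  have h3 := cs_sq_add y g'
  linear_combination cs y (g - g') * h3

theorem sn_mul_sub (y : ℕ → ZMod 5) (g g' : G) :
    sn y g * cs y g' - cs y g * sn y g' = sn y (g - g') := by
  have h1 := cs_add y (g - g') g'
  have h2 := sn_add y (g - g') g'
  rw [sub_add_cancel] at h1 h2
  rw [h1, h2]
  have h3 := cs_sq_add y g'
  linear_combination sn y (g - g') * h3

/-- extension by zero -/
def ext (M : ℕ) (y : Fin M → ZMod 5) (i : ℕ) : ZMod 5 := if h : i < M then y ⟨i, h⟩ else 0

theorem pr_ext (M : ℕ) (y a : Fin M → ZMod 5) : pr (ext M y) (io M a) = ∑ i : Fin M, a i * y i := by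
  rw [pr_io]
  apply Finset.sum_congr rfl
  intro i _
  unfold ext
  rw [dif_pos i.2]

/-- dot product as a homomorphism -/
noncomputable def dot (M : ℕ) (c : Fin M → ZMod 5) : (Fin M → ZMod 5) →+ ZMod 5 where
  toFun y := ∑ i : Fin M, c i * y i
  map_zero' := by simp
  map_add' y z := by simp [mul_add, Finset.sum_add_distrib]

theorem sum_char (M : ℕ) (c : Fin M → ZMod 5) :
    ∑ y : Fin M → ZMod 5, (ZMod.stdAddChar (∑ i : Fin M, c i * y i) : ℂ)
      = if c = 0 then (5 : ℂ) ^ M else 0 := by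
  classical
  have h := AddChar.sum_eq_ite ((ZMod.stdAddChar (N := 5)).compAddMonoidHom (dot M c))
  have h0 : ((ZMod.stdAddChar (N := 5)).compAddMonoidHom (dot M c) = 0) ↔ c = 0 := by
    constructor
    · intro h1
      funext i
      have h2 := DFunLike.congr_fun h1 (Pi.single i 1)
      rw [AddChar.compAddMonoidHom_apply] at h2
      have h3 : dot M c (Pi.single i 1) = c i := by
        change ∑ j : Fin M, c j * (Pi.single i (1 : ZMod 5) : Fin M → ZMod 5) j = c i
        rw [Finset.sum_eq_single i]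
        · simp
        · intro j _ hj
          rw [Pi.single_eq_of_ne hj, mul_zero]
        · simp
      rw [h3, AddChar.zero_apply, ← AddChar.map_zero_eq_one (ZMod.stdAddChar (N := 5))] at h2
      exact ZMod.injective_stdAddChar h2
    · rintro rfl
      ext y
      rw [AddChar.compAddMonoidHom_apply]
      have : dot M 0 y = 0 := by
        change ∑ j : Fin M, (0 : Fin M → ZMod 5) j * y j = 0
        simp
      rw [this]
      simp
  rw [if_congr h0 rfl rfl] at h
  have h4 : (∑ y : Fin M → ZMod 5, (ZMod.stdAddChar (∑ i : Fin M, c i * y i) : ℂ))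
      = ∑ a, ((ZMod.stdAddChar (N := 5)).compAddMonoidHom (dot M c)) a := by
    apply Finset.sum_congr rfl
    intro y _
    rw [AddChar.compAddMonoidHom_apply]
    rfl
  rw [h4, h]
  simp [ZMod.card]

theorem sum_cs (M : ℕ) (c : Fin M → ZMod 5) :
    ∑ y : Fin M → ZMod 5, cs (ext M y) (io M c) = if c = 0 then (5 : ℝ) ^ M else 0 := by
  have h := congrArg Complex.re (sum_char M c)
  rw [Complex.re_sum] at h
  unfold cs ch
  simp_rw [pr_ext]
  rw [h]
  split_ifs
  · rw [← Complex.ofReal_ofNat, ← Complex.ofReal_pow, Complex.ofReal_re]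
  · rfl

/-- Parseval -/
theorem parseval (M : ℕ) (φ : (Fin M → ZMod 5) → ℝ) :
    ∑ y : Fin M → ZMod 5, ((∑ a, φ a * cs (ext M y) (io M a)) ^ 2
      + (∑ a, φ a * sn (ext M y) (io M a)) ^ 2) = 5 ^ M * ∑ a, φ a ^ 2 := by
  have h1 : ∀ y : Fin M → ZMod 5, ((∑ a, φ a * cs (ext M y) (io M a)) ^ 2
      + (∑ a, φ a * sn (ext M y) (io M a)) ^ 2)
      = ∑ a, ∑ b, φ a * φ b * cs (ext M y) (io M (a - b)) := by
    intro y
    rw [pow_two, pow_two, Finset.sum_mul_sum, Finset.sum_mul_sum, ← Finset.sum_add_distrib]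
    apply Finset.sum_congr rfl
    intro a _
    rw [← Finset.sum_add_distrib]
    apply Finset.sum_congr rfl
    intro b _
    rw [io_sub, ← cs_mul_add]
    ring
  rw [Finset.sum_congr rfl (fun y _ => h1 y), Finset.sum_comm]
  have h2 : ∀ a : Fin M → ZMod 5, ∑ y : Fin M → ZMod 5, ∑ b, φ a * φ b * cs (ext M y) (io M (a - b))
      = 5 ^ M * φ a ^ 2 := by
    intro a
    rw [Finset.sum_comm]
    have h3 : ∀ b : Fin M → ZMod 5, ∑ y : Fin M → ZMod 5, φ a * φ b * cs (ext M y) (io M (a - b))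
        = if a = b then 5 ^ M * φ a ^ 2 else 0 := by
      intro b
      rw [← Finset.mul_sum, sum_cs]
      by_cases h : a = b
      · subst h
        simp; ring
      · rw [if_neg h, if_neg (sub_ne_zero.2 h), mul_zero]
    rw [Finset.sum_congr rfl (fun b _ => h3 b)]
    simp
  rw [Finset.sum_congr rfl (fun a _ => h2 a), Finset.mul_sum]

end Pool.Agent.R294.BB
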