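import Pool.Agent.R294.BB2

/-!
MP_29f955_co, part 3: functions without large characters are uniform.
-/

namespace Pool.Agent.R294.BB

open Filter Topology

/-- cosine average -/
noncomputable def Cf (M : ℕ) (y : ℕ → ZMod 5) (f : G → ℝ) (x : G) : ℝ :=
  ((5 : ℝ) ^ M)⁻¹ * ∑ a : Fin M → ZMod 5, f (x + io M a) * cs y (io M a)

/-- sine average -/
noncomputable def Sf (M : ℕ) (y : ℕ → ZMod 5) (f : G → ℝ) (x : G) : ℝ :=
  ((5 : ℝ) ^ M)⁻¹ * ∑ a : Fin M → ZMod 5, f (x + io M a) * sn y (io M a)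

@[simp] theorem Bd.Cf {M : ℕ} {y : ℕ → ZMod 5} {f : G → ℝ} (hf : Bd f) :
    Bd (fun x => Cf M y f x) := by
  unfold BB.Cf
  exact (Bd.const _).mul (Bd.sum _ (fun a _ => (hf.shift _).mul (Bd.const _)))

@[simp] theorem Bd.Sf {M : ℕ} {y : ℕ → ZMod 5} {f : G → ℝ} (hf : Bd f) :
    Bd (fun x => Sf M y f x) := by
  unfold BB.Sf
  exact (Bd.const _).mul (Bd.sum _ (fun a _ => (hf.shift _).mul (Bd.const _)))

theorem av_cs (M : ℕ) (y : ℕ → ZMod 5) (f : G → ℝ) (x : G) :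
    av M (fun g => cs y g * f g) x = cs y x * Cf M y f x - sn y x * Sf M y f x := by
  unfold av Cf Sf
  have e : ∀ a, (fun g => cs y g * f g) (x + io M a) = cs y x * (f (x + io M a) * cs y (io M a))
      - sn y x * (f (x + io M a) * sn y (io M a)) := by
    intro a
    simp only [cs_add]
    ring
  rw [Finset.sum_congr rfl (fun a _ => e a), Finset.sum_sub_distrib, ← Finset.mul_sum,
    ← Finset.mul_sum]
  ring

theorem av_sn (M : ℕ) (y : ℕ → ZMod 5) (f : G → ℝ) (x : G) :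
    av M (fun g => sn y g * f g) x = cs y x * Sf M y f x + sn y x * Cf M y f x := by
  unfold av Cf Sf
  have e : ∀ a, (fun g => sn y g * f g) (x + io M a) = cs y x * (f (x + io M a) * sn y (io M a))
      + sn y x * (f (x + io M a) * cs y (io M a)) := by
    intro a
    simp only [sn_add]
    ring
  rw [Finset.sum_congr rfl (fun a _ => e a), Finset.sum_add_distrib, ← Finset.mul_sum,
    ← Finset.mul_sum]
  ring

/-- energy of `f` at the character `y` of `V_M` -/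
noncomputable def EN (m : (G → ℝ) → ℝ) (M : ℕ) (y : ℕ → ZMod 5) (f : G → ℝ) : ℝ :=
  m (fun x => Cf M y f x ^ 2 + Sf M y f x ^ 2)

theorem EN_eq {m : (G → ℝ) → ℝ} (hm : IsMean m) (M : ℕ) (y : ℕ → ZMod 5) {f : G → ℝ}
    (hf : Bd f) : EN m M y f = m (fun x => av M (fun g => cs y g * f g) x ^ 2)
      + m (fun x => av M (fun g => sn y g * f g) x ^ 2) := by
  have b1 : Bd (fun g => cs y g * f g) := (Bd.cs y).mul hf
  have b2 : Bd (fun g => sn y g * f g) := (Bd.sn y).mul hf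
  rw [← hm.add (b1.av.pow 2) (b2.av.pow 2)]
  unfold EN
  congr 1
  funext x
  rw [av_cs, av_sn]
  have h3 := cs_sq_add y x
  linear_combination (-(Cf M y f x ^ 2 + Sf M y f x ^ 2)) * h3

theorem EN_ext (m : (G → ℝ) → ℝ) (M : ℕ) (y : ℕ → ZMod 5) (f : G → ℝ) :
    EN m M y f = EN m M (ext M (fun i => y i)) f := by
  have h : ∀ a, ch y (io M a) = ch (ext M (fun i => y i)) (io M a) := by
    intro a
    unfold ch
    rw [pr_io, pr_ext]
  unfold EN Cf Sf cs sn
  simp_rw [h]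

theorem EN_anti {m : (G → ℝ) → ℝ} (hm : IsMean m) {M N : ℕ} (h : M ≤ N) (y : ℕ → ZMod 5)
    {f : G → ℝ} (hf : Bd f) : EN m N y f ≤ EN m M y f := by
  rw [EN_eq hm N y hf, EN_eq hm M y hf]
  exact add_le_add (hm.av_anti h ((Bd.cs y).mul hf)) (hm.av_anti h ((Bd.sn y).mul hf))

/-- Ergodicity of a mean. -/
def Erg (m : (G → ℝ) → ℝ) : Prop :=
  ∀ f g : G → ℝ, Bd f → Bd g → ∀ δ : ℝ, 0 < δ → ∃ M : ℕ,
    m (fun x => av M f x ^ 2) + m (fun x => av M g x ^ 2) ≤ (m f) ^ 2 + (m g) ^ 2 + δ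

theorem koenig {m : (G → ℝ) → ℝ} (hm : IsMean m) (he : Erg m) {h : G → ℝ} (hh : Bd h)
    {κ δ : ℝ} (hδ : 0 < δ)
    (hκ : ∀ y, (m (fun x => cs y x * h x)) ^ 2 + (m (fun x => sn y x * h x)) ^ 2 ≤ κ) :
    ∃ M, ∀ y, EN m M y h ≤ κ + δ := by
  by_contra hcon
  push Not at hcon
  let _ : TopologicalSpace (ZMod 5) := ⊥
  have _ : DiscreteTopology (ZMod 5) := ⟨rfl⟩
  let t : ℕ → Set (ℕ → ZMod 5) := fun M => {y | κ + δ ≤ EN m M y h}
  have hclosed : ∀ M, IsClosed (t M) := by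
    intro M
    have hc : Continuous (fun (y : ℕ → ZMod 5) (i : Fin M) => y i) :=
      continuous_pi (fun i => continuous_apply _)
    have : t M = (fun (y : ℕ → ZMod 5) (i : Fin M) => y i) ⁻¹'
        {z | κ + δ ≤ EN m M (ext M z) h} := by
      ext y
      change κ + δ ≤ EN m M y h ↔ κ + δ ≤ EN m M (ext M (fun i => y i)) h
      rw [← EN_ext]
    rw [this]
    exact (isClosed_discrete _).preimage hc
  have hne := IsCompact.nonempty_iInter_of_sequence_nonempty_isCompact_isClosed t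
    (fun M y hy => (show κ + δ ≤ EN m (M + 1) y h from hy).trans (EN_anti hm (Nat.le_succ M) y hh))
    (fun M => by
      obtain ⟨y, hy⟩ := hcon M
      exact ⟨y, hy.le⟩)
    (hclosed 0).isCompact hclosed
  obtain ⟨y, hy⟩ := hne
  rw [Set.mem_iInter] at hy
  obtain ⟨M, hM⟩ := he (fun x => cs y x * h x) (fun x => sn y x * h x) ((Bd.cs y).mul hh)
    ((Bd.sn y).mul hh) (δ / 2) (half_pos hδ)
  have h1 : κ + δ ≤ EN m M y h := hy M
  rw [EN_eq hm M y hh] at h1
  have h2 := hκ y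
  linarith

theorem kern {m : (G → ℝ) → ℝ} (hm : IsMean m) (M : ℕ) (k : G → ℝ) {u h : G → ℝ} (hu : Bd u)
    (hh : Bd h) :
    m (fun x => ((5 : ℝ) ^ M)⁻¹ * ((5 : ℝ) ^ M)⁻¹ * ∑ a : Fin M → ZMod 5, ∑ b : Fin M → ZMod 5,
      k (io M (b - a)) * (u (x + io M a) * h (x + io M b)))
    = ((5 : ℝ) ^ M)⁻¹ * ∑ c : Fin M → ZMod 5, k (io M c) * m (fun x => u x * h (x + io M c)) := by
  have b1 : ∀ a b : Fin M → ZMod 5, Bd (fun x => u (x + io M a) * h (x + io M b)) :=
    fun a b => (hu.shift _).mul (hh.shift _)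
  have b2 : ∀ a b : Fin M → ZMod 5,
      Bd (fun x => k (io M (b - a)) * (u (x + io M a) * h (x + io M b))) :=
    fun a b => (Bd.const _).mul (b1 a b)
  have b3 : ∀ a : Fin M → ZMod 5, Bd (fun x => ∑ b : Fin M → ZMod 5,
      k (io M (b - a)) * (u (x + io M a) * h (x + io M b))) :=
    fun a => Bd.sum _ (fun b _ => b2 a b)
  have h5 : ((5 : ℝ) ^ M) ≠ 0 := by positivity
  rw [hm.smul _ (Bd.sum _ (fun a _ => b3 a)), hm.sum _ (fun a _ => b3 a)]
  have e1 : ∀ a : Fin M → ZMod 5, m (fun x => ∑ b : Fin M → ZMod 5,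
      k (io M (b - a)) * (u (x + io M a) * h (x + io M b)))
      = ∑ c : Fin M → ZMod 5, k (io M c) * m (fun x => u x * h (x + io M c)) := by
    intro a
    rw [hm.sum _ (fun b _ => b2 a b)]
    rw [← Equiv.sum_comp (Equiv.subRight a)
      (fun c => k (io M c) * m (fun x => u x * h (x + io M c)))]
    apply Finset.sum_congr rfl
    intro b _
    rw [hm.smul _ (b1 a b), Equiv.subRight_apply]
    congr 1
    have bb : Bd (fun x => u x * h (x + io M (b - a))) := hu.mul (hh.shift _)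
    rw [← hm.shift bb (io M a)]
    congr 1
    funext x
    rw [add_assoc x, ← io_add, add_sub_cancel]
  rw [Finset.sum_congr rfl (fun a _ => e1 a), Finset.sum_const, card_V]
  simp only [nsmul_eq_mul, Nat.cast_pow, Nat.cast_ofNat]
  field_simp

theorem pair_cs {m : (G → ℝ) → ℝ} (hm : IsMean m) {f₁ f₂ g₁ g₂ : G → ℝ} (h1 : Bd f₁) (h2 : Bd f₂)
    (h3 : Bd g₁) (h4 : Bd g₂) :
    (m (fun x => f₁ x * g₁ x + f₂ x * g₂ x)) ^ 2
      ≤ m (fun x => f₁ x ^ 2 + f₂ x ^ 2) * m (fun x => g₁ x ^ 2 + g₂ x ^ 2) := by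
  have bf : Bd (fun x => f₁ x ^ 2 + f₂ x ^ 2) := (h1.pow 2).add (h2.pow 2)
  have bg : Bd (fun x => g₁ x ^ 2 + g₂ x ^ 2) := (h3.pow 2).add (h4.pow 2)
  have bb : Bd (fun x => f₁ x * g₁ x + f₂ x * g₂ x) := (h1.mul h3).add (h2.mul h4)
  have key : ∀ t : ℝ, 0 ≤ m (fun x => g₁ x ^ 2 + g₂ x ^ 2) * (t * t)
      + (2 * m (fun x => f₁ x * g₁ x + f₂ x * g₂ x)) * t + m (fun x => f₁ x ^ 2 + f₂ x ^ 2) := by
    intro t
    have h1 : 0 ≤ m (fun x => (t * t) * (g₁ x ^ 2 + g₂ x ^ 2)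
        + ((2 * t) * (f₁ x * g₁ x + f₂ x * g₂ x) + (f₁ x ^ 2 + f₂ x ^ 2))) :=
      hm.nonneg (fun x => by nlinarith [sq_nonneg (f₁ x + t * g₁ x), sq_nonneg (f₂ x + t * g₂ x)])
    have b1 : Bd (fun x => (t * t) * (g₁ x ^ 2 + g₂ x ^ 2)) := (Bd.const _).mul bg
    have b2 : Bd (fun x => (2 * t) * (f₁ x * g₁ x + f₂ x * g₂ x)) := (Bd.const _).mul bb
    rw [hm.add b1 (b2.add bf), hm.add b2 bf, hm.smul _ bg, hm.smul _ bb] at h1
    linarith
  have := discrim_le_zero key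
  unfold discrim at this
  nlinarith

theorem fourier_le {m : (G → ℝ) → ℝ} (hm : IsMean m) (M : ℕ) (y : ℕ → ZMod 5) {u h : G → ℝ}
    (hu : Bd u) (hh : Bd h) :
    (((5 : ℝ) ^ M)⁻¹ * ∑ c : Fin M → ZMod 5, cs y (io M c) * m (fun x => u x * h (x + io M c))) ^ 2
    + (((5 : ℝ) ^ M)⁻¹ * ∑ c : Fin M → ZMod 5, sn y (io M c)
        * m (fun x => u x * h (x + io M c))) ^ 2 ≤ EN m M y u * EN m M y h := by
  rw [← kern hm M (cs y) hu hh, ← kern hm M (sn y) hu hh]
  have bCu := hu.Cf (M := M) (y := y)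
  have bSu := hu.Sf (M := M) (y := y)
  have bCh := hh.Cf (M := M) (y := y)
  have bSh := hh.Sf (M := M) (y := y)
  have e1 : (fun x => ((5 : ℝ) ^ M)⁻¹ * ((5 : ℝ) ^ M)⁻¹ * ∑ a : Fin M → ZMod 5,
      ∑ b : Fin M → ZMod 5, cs y (io M (b - a)) * (u (x + io M a) * h (x + io M b)))
      = fun x => Cf M y u x * Cf M y h x + Sf M y u x * Sf M y h x := by
    funext x
    unfold Cf Sf
    rw [mul_mul_mul_comm, mul_mul_mul_comm _ _ _ (∑ a : Fin M → ZMod 5, h (x + io M a)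
      * sn y (io M a)), ← mul_add, Finset.sum_mul_sum, Finset.sum_mul_sum,
      ← Finset.sum_add_distrib]
    congr 1
    apply Finset.sum_congr rfl
    intro a _
    rw [← Finset.sum_add_distrib]
    apply Finset.sum_congr rfl
    intro b _
    rw [io_sub, ← cs_mul_add]
    ring
  have e2 : (fun x => ((5 : ℝ) ^ M)⁻¹ * ((5 : ℝ) ^ M)⁻¹ * ∑ a : Fin M → ZMod 5,
      ∑ b : Fin M → ZMod 5, sn y (io M (b - a)) * (u (x + io M a) * h (x + io M b)))
      = fun x => Cf M y u x * Sf M y h x - Sf M y u x * Cf M y h x := by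
    funext x
    unfold Cf Sf
    rw [mul_mul_mul_comm, mul_mul_mul_comm _ _ _ (∑ a : Fin M → ZMod 5, h (x + io M a)
      * cs y (io M a)), ← mul_sub, Finset.sum_mul_sum, Finset.sum_mul_sum,
      ← Finset.sum_sub_distrib]
    congr 1
    apply Finset.sum_congr rfl
    intro a _
    rw [← Finset.sum_sub_distrib]
    apply Finset.sum_congr rfl
    intro b _
    rw [io_sub, ← sn_mul_sub]
    ring
  rw [e1, e2]
  have b1 : Bd (fun x => Cf M y u x * Cf M y h x + Sf M y u x * Sf M y h x) :=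
    (bCu.mul bCh).add (bSu.mul bSh)
  have b2 : Bd (fun x => Cf M y u x * Sf M y h x - Sf M y u x * Cf M y h x) :=
    (bCu.mul bSh).sub (bSu.mul bCh)
  set α := m (fun x => Cf M y u x * Cf M y h x + Sf M y u x * Sf M y h x) with hα
  set β := m (fun x => Cf M y u x * Sf M y h x - Sf M y u x * Cf M y h x) with hβ
  have bg1 : Bd (fun x => α * Cf M y h x + β * Sf M y h x) :=
    ((Bd.const _).mul bCh).add ((Bd.const _).mul bSh)
  have bg2 : Bd (fun x => α * Sf M y h x - β * Cf M y h x) :=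
    ((Bd.const _).mul bSh).sub ((Bd.const _).mul bCh)
  have h1 := pair_cs hm bCu bSu bg1 bg2
  have e3 : m (fun x => Cf M y u x * (α * Cf M y h x + β * Sf M y h x)
      + Sf M y u x * (α * Sf M y h x - β * Cf M y h x)) = α ^ 2 + β ^ 2 := by
    have : (fun x => Cf M y u x * (α * Cf M y h x + β * Sf M y h x)
      + Sf M y u x * (α * Sf M y h x - β * Cf M y h x))
      = fun x => α * (Cf M y u x * Cf M y h x + Sf M y u x * Sf M y h x)
        + β * (Cf M y u x * Sf M y h x - Sf M y u x * Cf M y h x) := by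
      funext x; ring
    rw [this, hm.add ((Bd.const _).mul b1) ((Bd.const _).mul b2), hm.smul _ b1, hm.smul _ b2]
    ring
  have e4 : m (fun x => (α * Cf M y h x + β * Sf M y h x) ^ 2
      + (α * Sf M y h x - β * Cf M y h x) ^ 2) = (α ^ 2 + β ^ 2) * EN m M y h := by
    unfold EN
    rw [← hm.smul _ ((bCh.pow 2).add (bSh.pow 2))]
    congr 1
    funext x; ring
  rw [e3, e4] at h1
  have e5 : m (fun x => Cf M y u x ^ 2 + Sf M y u x ^ 2) = EN m M y u := rfl
  rw [e5] at h1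
  have p1 : 0 ≤ EN m M y u := hm.nonneg (fun x => by positivity)
  have p2 : 0 ≤ EN m M y h := hm.nonneg (fun x => by positivity)
  rcases (by positivity : 0 ≤ α ^ 2 + β ^ 2).eq_or_lt with h0 | h0
  · rw [← h0]; positivity
  · nlinarith

theorem sum_EN {m : (G → ℝ) → ℝ} (hm : IsMean m) (M : ℕ) {u : G → ℝ} (hu : Bd u) :
    ∑ y : Fin M → ZMod 5, EN m M (ext M y) u = m (fun x => u x ^ 2) := by
  unfold EN
  have h5 : ((5 : ℝ) ^ M) ≠ 0 := by positivity
  rw [← hm.sum _ (fun y _ => (hu.Cf.pow 2).add (hu.Sf.pow 2)), ← hm.av M (hu.pow 2)]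
  congr 1
  funext x
  unfold Cf Sf av
  have := parseval M (fun a => u (x + io M a))
  rw [Finset.sum_congr rfl (fun y _ => show
    (((5 : ℝ) ^ M)⁻¹ * ∑ a : Fin M → ZMod 5, u (x + io M a) * cs (ext M y) (io M a)) ^ 2
    + (((5 : ℝ) ^ M)⁻¹ * ∑ a : Fin M → ZMod 5, u (x + io M a) * sn (ext M y) (io M a)) ^ 2
    = (((5 : ℝ) ^ M)⁻¹) ^ 2 * ((∑ a : Fin M → ZMod 5, u (x + io M a) * cs (ext M y) (io M a)) ^ 2
      + (∑ a : Fin M → ZMod 5, u (x + io M a) * sn (ext M y) (io M a)) ^ 2) from by ring),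
    ← Finset.mul_sum, this]
  field_simp

/-- The average over `V_M` of the squared correlations. -/
theorem corr_le {m : (G → ℝ) → ℝ} (hm : IsMean m) (M : ℕ) {u h : G → ℝ} (hu : Bd u) (hh : Bd h)
    {κ : ℝ} (hκ : ∀ y, EN m M y h ≤ κ) :
    ((5 : ℝ) ^ M)⁻¹ * ∑ a : Fin M → ZMod 5, (m (fun x => u x * h (x + io M a))) ^ 2
      ≤ κ * m (fun x => u x ^ 2) := by
  have h5 : ((5 : ℝ) ^ M) ≠ 0 := by positivity
  have h1 := parseval M (fun a => m (fun x => u x * h (x + io M a)))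
  rw [← sum_EN hm M hu]
  calc ((5 : ℝ) ^ M)⁻¹ * ∑ a : Fin M → ZMod 5, (m (fun x => u x * h (x + io M a))) ^ 2
      = ∑ y : Fin M → ZMod 5,
        ((((5 : ℝ) ^ M)⁻¹ * ∑ c : Fin M → ZMod 5, cs (ext M y) (io M c)
          * m (fun x => u x * h (x + io M c))) ^ 2
        + (((5 : ℝ) ^ M)⁻¹ * ∑ c : Fin M → ZMod 5, sn (ext M y) (io M c)
          * m (fun x => u x * h (x + io M c))) ^ 2) := by
        rw [Finset.sum_congr rfl (fun y _ => show
          (((5 : ℝ) ^ M)⁻¹ * ∑ c : Fin M → ZMod 5, cs (ext M y) (io M c)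
            * m (fun x => u x * h (x + io M c))) ^ 2
          + (((5 : ℝ) ^ M)⁻¹ * ∑ c : Fin M → ZMod 5, sn (ext M y) (io M c)
            * m (fun x => u x * h (x + io M c))) ^ 2
          = (((5 : ℝ) ^ M)⁻¹) ^ 2 * ((∑ c : Fin M → ZMod 5,
            m (fun x => u x * h (x + io M c)) * cs (ext M y) (io M c)) ^ 2
            + (∑ c : Fin M → ZMod 5,
            m (fun x => u x * h (x + io M c)) * sn (ext M y) (io M c)) ^ 2) from by
            rw [mul_pow, mul_pow, ← mul_add]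
            simp_rw [mul_comm]), ← Finset.mul_sum, h1]
        field_simp
    _ ≤ ∑ y : Fin M → ZMod 5, EN m M (ext M y) u * EN m M (ext M y) h :=
        Finset.sum_le_sum (fun y _ => fourier_le hm M _ hu hh)
    _ ≤ ∑ y : Fin M → ZMod 5, κ * EN m M (ext M y) u := by
        apply Finset.sum_le_sum
        intro y _
        rw [mul_comm κ]
        exact mul_le_mul_of_nonneg_left (hκ _) (hm.nonneg (fun x => by positivity))
    _ = κ * ∑ y : Fin M → ZMod 5, EN m M (ext M y) u := (Finset.mul_sum _ _ _).symm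

/-- Uniformity. -/
theorem unif {m : (G → ℝ) → ℝ} (hm : IsMean m) (he : Erg m) {u h : G → ℝ} (hu : ∀ x, |u x| ≤ 1)
    (hh : Bd h) {κ : ℝ}
    (hκ : ∀ y, (m (fun x => cs y x * h x)) ^ 2 + (m (fun x => sn y x * h x)) ^ 2 ≤ κ) :
    m (fun b => (m (fun x => u x * h (x + b))) ^ 2) ≤ κ := by
  apply le_of_forall_pos_le_add
  intro δ hδ
  have hκ0 : 0 ≤ κ := (by positivity : (0:ℝ) ≤ (m (fun x => cs 0 x * h x)) ^ 2
    + (m (fun x => sn 0 x * h x)) ^ 2).trans (hκ 0)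
  obtain ⟨M, hM⟩ := koenig hm he hh hδ hκ
  have hub : Bd u := ⟨1, hu⟩
  have hρ : Bd (fun b => (m (fun x => u x * h (x + b))) ^ 2) := by
    obtain ⟨C, hC⟩ := hh
    have : Bd (fun b => m (fun x => u x * h (x + b))) := by
      refine ⟨1 * C, fun b => hm.abs_le_of_le (fun x => ?_)⟩
      rw [abs_mul]
      exact mul_le_mul (hu x) (hC _) (abs_nonneg _) zero_le_one
    exact this.pow 2
  rw [← hm.av M hρ]
  refine hm.le_of_le hρ.av (fun b => ?_)
  unfold av
  have e : ∀ a : Fin M → ZMod 5, m (fun x => u x * h (x + (b + io M a)))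
      = m (fun x => u (x - b) * h (x + io M a)) := by
    intro a
    have bb : Bd (fun x => u (x - b) * h (x + io M a)) := (hub.comp _).mul (hh.shift _)
    rw [← hm.shift bb b]
    congr 1
    funext x
    rw [add_sub_cancel_right, add_assoc]
  simp_rw [e]
  have hu' : Bd (fun x => u (x - b)) := hub.comp _
  refine (corr_le hm M hu' hh hM).trans ?_
  have h1 : m (fun x => u (x - b) ^ 2) ≤ 1 :=
    hm.le_of_le (hu'.pow 2) (fun x => by
      have := hu (x - b)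
      rw [← sq_abs]
      nlinarith [abs_nonneg (u (x - b))])
  nlinarith

end Pool.Agent.R294.BB
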