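import Pool.Agent.R294.BB3

/-!
MP_29f955_co, part 4: existence of ergodic means (Krein-Milman).
-/

namespace Pool.Agent.R294.BB

open Filter Topology

theorem exists_ulim (U : Ultrafilter ℕ) {s : ℕ → ℝ} {C : ℝ} (hs : ∀ n, |s n| ≤ C) :
    ∃ x, Tendsto s U (𝓝 x) := by
  have h := isCompact_Icc (a := -C) (b := C)
  obtain ⟨x, _, hx⟩ := h.ultrafilter_le_nhds (U.map s) (by
    rw [Ultrafilter.coe_map, le_principal_iff]
    exact Filter.mem_map.2 (Filter.univ_mem' (fun n => abs_le.1 (hs n))))
  exact ⟨x, by rwa [Ultrafilter.coe_map] at hx⟩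

/-- approximate means -/
structure ApproxMean (T : ℕ → (G → ℝ) → ℝ) : Prop where
  add : ∀ n f g, Bd f → Bd g → T n (fun x => f x + g x) = T n f + T n g
  smul : ∀ n (c : ℝ) f, Bd f → T n (fun x => c * f x) = c * T n f
  nonneg : ∀ n f, Bd f → (∀ x, 0 ≤ f x) → 0 ≤ T n f
  one : ∀ n, T n (fun _ => 1) = 1
  inv : ∀ f (b : G), Bd f → ∀ᶠ n in atTop, T n (fun x => f (x + b)) = T n f

theorem ApproxMean.abs_le {T : ℕ → (G → ℝ) → ℝ} (hT : ApproxMean T) {f : G → ℝ} {C : ℝ}
    (h : ∀ x, |f x| ≤ C) (n : ℕ) : |T n f| ≤ C := by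
  have hf : Bd f := ⟨C, h⟩
  have hC : T n (fun _ => C) = C := by
    have := hT.smul n C (fun _ => 1) (Bd.const 1)
    rw [hT.one] at this
    simpa using this
  have hnf : T n (fun x => (-1) * f x) = - T n f := by
    rw [hT.smul n (-1) f hf]; ring
  have h1 := hT.nonneg n (fun x => C + f x) ((Bd.const C).add hf)
    (fun x => by linarith [(_root_.abs_le.1 (h x)).1])
  have h2 := hT.nonneg n (fun x => C + (-1) * f x) ((Bd.const C).add ((Bd.const (-1)).mul hf))
    (fun x => by linarith [(_root_.abs_le.1 (h x)).2])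
  rw [hT.add n (fun _ => C) f (Bd.const C) hf, hC] at h1
  rw [hT.add n (fun _ => C) (fun x => (-1) * f x) (Bd.const C) ((Bd.const (-1)).mul hf), hC, hnf]
    at h2
  rw [_root_.abs_le]
  constructor <;> linarith

theorem exists_mean {T : ℕ → (G → ℝ) → ℝ} (hT : ApproxMean T) (U : Ultrafilter ℕ)
    (hU : (U : Filter ℕ) ≤ atTop) :
    ∃ m, IsMean m ∧ ∀ f, Bd f → Tendsto (fun n => T n f) U (𝓝 (m f)) := by
  classical
  have hex : ∀ f : G → ℝ, Bd f → ∃ x, Tendsto (fun n => T n f) U (𝓝 x) := by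
    rintro f ⟨C, hC⟩
    exact exists_ulim U (fun n => hT.abs_le hC n)
  let m : (G → ℝ) → ℝ := fun f => if h : Bd f then (hex f h).choose else 0
  have hm : ∀ f, Bd f → Tendsto (fun n => T n f) U (𝓝 (m f)) := by
    intro f hf
    have : m f = (hex f hf).choose := dif_pos hf
    rw [this]
    exact (hex f hf).choose_spec
  refine ⟨m, ⟨?_, ?_, ?_, ?_, ?_, ?_⟩, hm⟩
  · intro f g hf hg
    refine tendsto_nhds_unique (hm _ (hf.add hg)) ?_
    refine ((hm f hf).add (hm g hg)).congr (fun n => ?_)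
    rw [hT.add n f g hf hg]
  · intro c f hf
    refine tendsto_nhds_unique (hm _ ((Bd.const c).mul hf)) ?_
    refine ((hm f hf).const_mul c).congr (fun n => ?_)
    rw [hT.smul n c f hf]
  · intro f hf h0
    exact ge_of_tendsto' (hm f hf) (fun n => hT.nonneg n f hf h0)
  · refine tendsto_nhds_unique (hm _ (Bd.const 1)) ?_
    simp_rw [hT.one]
    exact tendsto_const_nhds
  · intro f b hf
    refine tendsto_nhds_unique (hm _ (hf.shift b)) ?_
    refine (hm f hf).congr' ?_
    exact ((hT.inv f b hf).filter_mono hU).mono (fun n hn => hn.symm)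
  · intro f hf
    exact dif_neg hf

theorem isClosed_means : IsClosed {m : (G → ℝ) → ℝ | IsMean m} := by
  have : {m : (G → ℝ) → ℝ | IsMean m}
      = {m | ∀ f g, Bd f → Bd g → m (fun x => f x + g x) = m f + m g}
      ∩ {m | ∀ (c : ℝ) f, Bd f → m (fun x => c * f x) = c * m f}
      ∩ {m | ∀ f, Bd f → (∀ x, 0 ≤ f x) → 0 ≤ m f}
      ∩ {m | m (fun _ => 1) = 1}
      ∩ {m | ∀ f (b : G), Bd f → m (fun x => f (x + b)) = m f}
      ∩ {m | ∀ f, ¬ Bd f → m f = 0} := by
    ext m
    constructor
    · intro h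
      exact ⟨⟨⟨⟨⟨h.add', h.smul'⟩, h.nonneg'⟩, h.one'⟩, h.inv'⟩, h.junk'⟩
    · rintro ⟨⟨⟨⟨⟨h1, h2⟩, h3⟩, h4⟩, h5⟩, h6⟩
      exact ⟨h1, h2, h3, h4, h5, h6⟩
  rw [this]
  refine ((((IsClosed.inter ?_ ?_).inter ?_).inter ?_).inter ?_).inter ?_
  · simp only [Set.ofPred_forall]
    exact isClosed_iInter (fun f => isClosed_iInter (fun g => isClosed_iInter (fun _ =>
      isClosed_iInter (fun _ => isClosed_eq (continuous_apply _)
        ((continuous_apply f).add (continuous_apply g))))))
  · simp only [Set.ofPred_forall]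
    exact isClosed_iInter (fun c => isClosed_iInter (fun f => isClosed_iInter (fun _ =>
      isClosed_eq (continuous_apply _) (continuous_const.mul (continuous_apply f)))))
  · simp only [Set.ofPred_forall]
    exact isClosed_iInter (fun f => isClosed_iInter (fun _ => isClosed_iInter (fun _ =>
      isClosed_le continuous_const (continuous_apply _))))
  · exact isClosed_eq (continuous_apply _) continuous_const
  · simp only [Set.ofPred_forall]
    exact isClosed_iInter (fun f => isClosed_iInter (fun b => isClosed_iInter (fun _ =>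
      isClosed_eq (continuous_apply _) (continuous_apply _))))
  · simp only [Set.ofPred_forall]
    exact isClosed_iInter (fun f => isClosed_iInter (fun _ =>
      isClosed_eq (continuous_apply _) continuous_const))

theorem isCompact_means : IsCompact {m : (G → ℝ) → ℝ | IsMean m} := by
  classical
  let C : (G → ℝ) → ℝ := fun f => if h : Bd f then h.choose else 0
  have hK : IsCompact (Set.pi Set.univ (fun f : G → ℝ => Set.Icc (-(C f)) (C f))) :=
    isCompact_univ_pi (fun f => isCompact_Icc)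
  refine hK.of_isClosed_subset isClosed_means ?_
  intro m hm f _
  have hm : IsMean m := hm
  change m f ∈ Set.Icc (-(C f)) (C f)
  by_cases h : Bd f
  · have hC : C f = h.choose := dif_pos h
    have := hm.abs_le_of_le h.choose_spec
    rw [hC]
    exact abs_le.1 this
  · have hC : C f = 0 := dif_neg h
    rw [hC, hm.junk' f h]
    simp

theorem ext_tendsto {m : (G → ℝ) → ℝ} (hx : m ∈ Set.extremePoints ℝ {m : (G → ℝ) → ℝ | IsMean m})
    {f : G → ℝ} (hf : Bd f) (U : Ultrafilter ℕ) (hU : (U : Filter ℕ) ≤ atTop) {u : G → ℝ}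
    (hu : Bd u) : Tendsto (fun n => m (fun x => u x * av n f x)) U (𝓝 (m u * m f)) := by
  rw [mem_extremePoints] at hx
  obtain ⟨hm, hx⟩ := hx
  have hm : IsMean m := hm
  obtain ⟨C, hC⟩ := hf
  have hf : Bd f := ⟨C, hC⟩
  have hC0 : 0 ≤ C := (abs_nonneg _).trans (hC 0)
  set s : ℝ := (2 * C + 1)⁻¹ with hs
  have hs0 : 0 < s := by positivity
  let w : ℕ → G → ℝ := fun n x => s * (av n f x - m f)
  have hw : ∀ n x, |w n x| ≤ 1 := by
    intro n x
    have h1 : |av n f x - m f| ≤ 2 * C := by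
      have := abs_sub (av n f x) (m f)
      have h2 := av_abs_le (M := n) hC x
      have h3 := hm.abs_le_of_le hC
      linarith
    change |s * (av n f x - m f)| ≤ 1
    rw [abs_mul, abs_of_pos hs0, hs, inv_mul_le_iff₀ (by positivity)]
    linarith
  have hwb : ∀ n, Bd (w n) := fun n => ⟨1, hw n⟩
  have hmw : ∀ n, m (w n) = 0 := by
    intro n
    change m (fun x => s * (av n f x - m f)) = 0
    rw [hm.smul _ (hf.av.sub (Bd.const _)), hm.sub hf.av (Bd.const _), hm.const]
    have : m (fun x => av n f x) = m f := hm.av n hf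
    rw [this]; ring
  have hws : ∀ b : G, ∀ᶠ n in atTop, ∀ x, w n (x + b) = w n x := by
    intro b
    obtain ⟨M, hM⟩ := exists_bound b
    filter_upwards [eventually_ge_atTop M] with n hn x
    change s * (av n f (x + b) - m f) = s * (av n f x - m f)
    rw [av_shift (fun i hi => hM i (hn.trans hi))]
  have key : ∀ ε : ℝ, |ε| = 1 → ApproxMean (fun n u => m (fun x => u x * (1 + ε * w n x))) := by
    intro ε hε
    have hb : ∀ n, Bd (fun x => 1 + ε * w n x) := fun n =>
      (Bd.const 1).add ((Bd.const ε).mul (hwb n))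
    have hp : ∀ n x, 0 ≤ 1 + ε * w n x := by
      intro n x
      have : |ε * w n x| ≤ 1 := by rw [abs_mul, hε, one_mul]; exact hw n x
      linarith [(abs_le.1 this).1]
    refine ⟨?_, ?_, ?_, ?_, ?_⟩
    · intro n f g hf hg
      rw [← hm.add (hf.mul (hb n)) (hg.mul (hb n))]
      congr 1; funext x; ring
    · intro n c f hf
      rw [← hm.smul c (hf.mul (hb n))]
      congr 1; funext x; ring
    · intro n f hf h0
      exact hm.nonneg (fun x => mul_nonneg (h0 x) (hp n x))
    · intro n
      have : (fun x => (1 : ℝ) * (1 + ε * w n x)) = fun x => 1 + ε * w n x := by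
        funext x; ring
      rw [this, hm.add (Bd.const 1) ((Bd.const ε).mul (hwb n)), hm.smul ε (hwb n), hmw, hm.const]
      ring
    · intro g b hg
      filter_upwards [hws b] with n hn
      rw [← hm.shift (hg.mul (hb n)) b]
      congr 1
      funext x
      rw [hn x]
  obtain ⟨mp, hmp, hmp2⟩ := exists_mean (key 1 (by simp)) U hU
  obtain ⟨mn, hmn, hmn2⟩ := exists_mean (key (-1) (by simp)) U hU
  have hseg : m ∈ openSegment ℝ mp mn := by
    refine ⟨1 / 2, 1 / 2, by norm_num, by norm_num, by norm_num, ?_⟩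
    funext v
    change (1 / 2 : ℝ) * mp v + (1 / 2 : ℝ) * mn v = m v
    by_cases hv : Bd v
    · have h1 := (hmp2 v hv).add (hmn2 v hv)
      have h2 : Tendsto (fun n => m (fun x => v x * (1 + 1 * w n x))
          + m (fun x => v x * (1 + (-1) * w n x))) U (𝓝 (2 * m v)) := by
        refine tendsto_const_nhds.congr (fun n => ?_)
        rw [← hm.add (hv.mul ((Bd.const 1).add ((Bd.const 1).mul (hwb n))))
          (hv.mul ((Bd.const 1).add ((Bd.const (-1)).mul (hwb n)))), ← hm.smul 2 hv]
        congr 1; funext x; ring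
      have h3 := tendsto_nhds_unique h1 h2
      linarith
    · rw [hmp.junk' v hv, hmn.junk' v hv, hm.junk' v hv]; ring
  have heq := (hx mp hmp mn hmn hseg).1
  have h4 := hmp2 u hu
  rw [heq] at h4
  have h5 : ∀ n, m (fun x => u x * av n f x)
      = s⁻¹ * (m (fun x => u x * (1 + 1 * w n x)) - m u) + m u * m f := by
    intro n
    have e1 : m (fun x => u x * (1 + 1 * w n x))
        = m u + s * (m (fun x => u x * av n f x) - m u * m f) := by
      have b1 : Bd (fun x => u x * av n f x) := hu.mul hf.av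
      have b2 : Bd (fun x => u x * m f) := hu.mul (Bd.const _)
      rw [← hm.smul_right (m f) hu, ← hm.sub b1 b2, ← hm.smul s (b1.sub b2),
        ← hm.add hu ((Bd.const s).mul (b1.sub b2))]
      congr 1
      funext x
      change u x * (1 + 1 * (s * (av n f x - m f))) = _
      ring
    rw [e1]
    field_simp
    ring
  simp_rw [h5]
  have h6 := ((h4.sub_const (m u)).const_mul s⁻¹).add_const (m u * m f)
  simpa using h6

theorem ext_erg {m : (G → ℝ) → ℝ}
    (hx : m ∈ Set.extremePoints ℝ {m : (G → ℝ) → ℝ | IsMean m}) : Erg m := by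
  intro f g hf hg δ hδ
  have hm : IsMean m := (mem_extremePoints.1 hx).1
  have hU : ((hyperfilter ℕ : Ultrafilter ℕ) : Filter ℕ) ≤ atTop := Nat.hyperfilter_le_atTop
  have h1 := ext_tendsto hx hf (hyperfilter ℕ) hU hf
  have h2 := ext_tendsto hx hg (hyperfilter ℕ) hU hg
  have h3 := h1.add h2
  have h4 := h3.eventually (Iio_mem_nhds (show m f * m f + m g * m g
    < (m f) ^ 2 + (m g) ^ 2 + δ by nlinarith))
  obtain ⟨n, hn⟩ := h4.exists
  refine ⟨n, ?_⟩
  rw [hm.av_sq n hf, hm.av_sq n hg]
  exact le_of_lt hn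

theorem exists_erg {m₀ : (G → ℝ) → ℝ} (h₀ : IsMean m₀) (F : G → ℝ) :
    ∃ m, IsMean m ∧ Erg m ∧ m₀ F ≤ m F := by
  let K : Set ((G → ℝ) → ℝ) := {m | IsMean m}
  let l : StrongDual ℝ ((G → ℝ) → ℝ) := ContinuousLinearMap.proj F
  have hK : IsCompact K := isCompact_means
  have hexp : IsExposed ℝ K (l.toExposed K) := ContinuousLinearMap.toExposed.isExposed
  obtain ⟨x, hxK, hx⟩ := hK.exists_isMaxOn ⟨m₀, h₀⟩ l.continuous.continuousOn
  have hne : (l.toExposed K).Nonempty := ⟨x, hxK, fun y hy => hx hy⟩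
  obtain ⟨m, hm⟩ := (hexp.isCompact hK).extremePoints_nonempty hne
  have hm2 : m ∈ Set.extremePoints ℝ K := hexp.isExtreme.extremePoints_subset_extremePoints hm
  have hm3 : m ∈ l.toExposed K := extremePoints_subset hm
  exact ⟨m, (mem_extremePoints.1 hm2).1, ext_erg hm2, hm3.2 m₀ h₀⟩

/-- The mean along the cosets `e_n + V_n`. -/
theorem approx_level : ApproxMean (fun n f => av n f (Finsupp.single n 1)) := by
  refine ⟨?_, ?_, ?_, ?_, ?_⟩
  · intro n f g _ _
    unfold av
    rw [Finset.sum_add_distrib]; ring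
  · intro n c f _
    unfold av
    rw [← Finset.mul_sum]; ring
  · intro n f _ h0
    unfold av
    exact mul_nonneg (by positivity) (Finset.sum_nonneg (fun a _ => h0 _))
  · intro n
    unfold av
    rw [Finset.sum_const, card_V]
    simp
  · intro f b _
    obtain ⟨M, hM⟩ := exists_bound b
    filter_upwards [eventually_ge_atTop M] with n hn
    rw [← av_shift (M := n) (b := b) (fun i hi => hM i (hn.trans hi)) f]
    unfold av
    congr 1
    apply Finset.sum_congr rfl
    intro a _
    change f (_ + io n a + b) = f (_ + b + io n a)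
    rw [add_right_comm]

theorem exists_level_mean {S : Set ℕ} (hS : S.Infinite) {F : G → ℝ} (hF : Bd F) {c : ℝ}
    (h : ∀ n ∈ S, c ≤ av n F (Finsupp.single n 1)) : ∃ m, IsMean m ∧ Erg m ∧ c ≤ m F := by
  have hne : NeBot (atTop ⊓ 𝓟 S) := by
    rw [← Filter.frequently_mem_iff_neBot]
    exact Nat.frequently_atTop_iff_infinite.2 hS
  let U : Ultrafilter ℕ := Ultrafilter.of (atTop ⊓ 𝓟 S)
  have hU : (U : Filter ℕ) ≤ atTop ⊓ 𝓟 S := Ultrafilter.of_le _
  obtain ⟨m₀, hm₀, hm₀2⟩ := exists_mean approx_level U (hU.trans inf_le_left)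
  have h1 : c ≤ m₀ F := by
    refine ge_of_tendsto (hm₀2 F hF) ?_
    have : S ∈ (U : Filter ℕ) := hU (mem_inf_of_right (mem_principal_self S))
    exact Filter.eventually_of_mem this h
  obtain ⟨m, hm, he, hle⟩ := exists_erg hm₀ F
  exact ⟨m, hm, he, h1.trans hle⟩

end Pool.Agent.R294.BB
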