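import Pool.Agent.R294.BB4

/-!
MP_29f955_co, part 5: conditional expectations on subgroups of finite index.
-/

namespace Pool.Agent.R294.BB

open Filter Topology

open Classical in
/-- indicator of the coset `w` -/
noncomputable def iq (H : AddSubgroup G) (w : G ⧸ H) (x : G) : ℝ := if (x : G ⧸ H) = w then 1 else 0

theorem iq_mem (H : AddSubgroup G) (w : G ⧸ H) (x : G) : 0 ≤ iq H w x ∧ iq H w x ≤ 1 := by
  unfold iq
  split_ifs <;> norm_num

@[simp] theorem Bd.iq (H : AddSubgroup G) (w : G ⧸ H) : Bd (fun x => iq H w x) :=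
  Bd.of_mem (iq_mem H w)

/-- number of cosets -/
noncomputable def qn (H : AddSubgroup G) : ℝ := Nat.card (G ⧸ H)

theorem qn_pos (H : AddSubgroup G) [H.FiniteIndex] : 0 < qn H := by
  unfold qn
  exact_mod_cast Nat.card_pos

/-- conditional expectation -/
noncomputable def cond (m : (G → ℝ) → ℝ) (H : AddSubgroup G) (f : G → ℝ) (x : G) : ℝ :=
  qn H * m (fun z => f z * iq H (x : G ⧸ H) z)

/-- periodic functions -/
def Per (H : AddSubgroup G) (u : G → ℝ) : Prop := ∀ x y : G, (x : G ⧸ H) = (y : G ⧸ H) → u x = u y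

theorem Per.mono {H K : AddSubgroup G} (h : K ≤ H) {u : G → ℝ} (hu : Per H u) : Per K u := by
  intro x y hxy
  apply hu
  rw [QuotientAddGroup.eq] at hxy ⊢
  exact h hxy

theorem cond_per (m : (G → ℝ) → ℝ) (H : AddSubgroup G) (f : G → ℝ) : Per H (cond m H f) := by
  intro x y h
  unfold cond
  rw [h]

theorem iq_shift (H : AddSubgroup G) (w : G ⧸ H) (x b : G) :
    iq H (w + (b : G ⧸ H)) (x + b) = iq H w x := by
  have h : ((x + b : G) : G ⧸ H) = w + (b : G ⧸ H) ↔ (x : G ⧸ H) = w := by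
    rw [QuotientAddGroup.mk_add]
    exact add_left_inj _
  unfold iq
  by_cases h1 : (x : G ⧸ H) = w
  · rw [if_pos h1, if_pos (h.2 h1)]
  · rw [if_neg h1, if_neg (fun h2 => h1 (h.1 h2))]

theorem sum_iq (H : AddSubgroup G) [Fintype (G ⧸ H)] (x : G) : ∑ w : G ⧸ H, iq H w x = 1 := by
  classical
  unfold iq
  simp

variable {m : (G → ℝ) → ℝ}

theorem m_split (hm : IsMean m) (H : AddSubgroup G) [Fintype (G ⧸ H)] {F : G → ℝ} (hF : Bd F) :
    m F = ∑ w : G ⧸ H, m (fun x => F x * iq H w x) := by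
  rw [← hm.sum _ (fun w _ => hF.mul (Bd.iq H w))]
  congr 1
  funext x
  rw [← Finset.mul_sum, sum_iq, mul_one]

theorem m_iq (hm : IsMean m) (H : AddSubgroup G) [H.FiniteIndex] (w : G ⧸ H) :
    qn H * m (iq H w) = 1 := by
  have : Fintype (G ⧸ H) := Fintype.ofFinite _
  have h1 : ∀ v : G ⧸ H, m (iq H v) = m (iq H w) := by
    intro v
    obtain ⟨b, hb⟩ := QuotientAddGroup.mk_surjective (w - v)
    have h2 : w = v + (b : G ⧸ H) := by rw [hb]; abel
    rw [← hm.shift (Bd.iq H w) b]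
    congr 1
    funext x
    rw [h2, iq_shift]
  have h3 := m_split hm H (F := fun _ => 1) (Bd.const 1)
  rw [hm.one'] at h3
  have h4 : ∀ v : G ⧸ H, m (fun x => 1 * iq H v x) = m (iq H w) := by
    intro v
    rw [← h1 v]
    congr 1; funext x; rw [one_mul]
  rw [Finset.sum_congr rfl (fun v _ => h4 v), Finset.sum_const, nsmul_eq_mul] at h3
  unfold qn
  rw [Nat.card_eq_fintype_card]
  exact h3.symm

theorem per_iq {H : AddSubgroup G} {u : G → ℝ} (hu : Per H u) (w : G ⧸ H) (x : G) :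
    u x * iq H w x = u w.out * iq H w x := by
  unfold iq
  split_ifs with h
  · rw [hu x w.out (by rw [h, QuotientAddGroup.out_eq'])]
  · simp

theorem cond_mem (hm : IsMean m) (H : AddSubgroup G) [H.FiniteIndex] {f : G → ℝ}
    (hf : ∀ x, 0 ≤ f x ∧ f x ≤ 1) (x : G) : 0 ≤ cond m H f x ∧ cond m H f x ≤ 1 := by
  unfold cond
  have hq := qn_pos H
  constructor
  · exact mul_nonneg hq.le (hm.nonneg (fun z => mul_nonneg (hf z).1 (iq_mem H _ z).1))
  · rw [← m_iq hm H (x : G ⧸ H)]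
    apply mul_le_mul_of_nonneg_left _ hq.le
    refine hm.mono ((Bd.of_mem hf).mul (Bd.iq H _)) (Bd.iq H _) (fun z => ?_)
    have := iq_mem H (x : G ⧸ H) z
    nlinarith [(hf z).2]

theorem cond_Bd (hm : IsMean m) (H : AddSubgroup G) [H.FiniteIndex] {f : G → ℝ}
    (hf : ∀ x, 0 ≤ f x ∧ f x ≤ 1) : Bd (fun x => cond m H f x) :=
  Bd.of_mem (cond_mem hm H hf)

theorem cond_mul (hm : IsMean m) (H : AddSubgroup G) [H.FiniteIndex] {f u : G → ℝ}
    (hf : ∀ x, 0 ≤ f x ∧ f x ≤ 1) (hu : Bd u) (hp : Per H u) :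
    m (fun x => cond m H f x * u x) = m (fun x => f x * u x) := by
  have : Fintype (G ⧸ H) := Fintype.ofFinite _
  have hfb : Bd f := Bd.of_mem hf
  rw [m_split hm H ((cond_Bd hm H hf).mul hu), m_split hm H (hfb.mul hu)]
  apply Finset.sum_congr rfl
  intro w _
  have e1 : (fun x => cond m H f x * u x * iq H w x)
      = fun x => (cond m H f w.out * u w.out) * iq H w x := by
    funext x
    have hp2 : Per H (fun x => cond m H f x * u x) := fun x y hxy => by
      change cond m H f x * u x = cond m H f y * u y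
      rw [cond_per m H f x y hxy, hp x y hxy]
    exact per_iq hp2 w x
  have e2 : (fun x => f x * u x * iq H w x) = fun x => u w.out * (f x * iq H w x) := by
    funext x
    have := per_iq hp w x
    linear_combination f x * this
  have b1 : Bd (fun x => f x * iq H w x) := hfb.mul (Bd.iq H w)
  rw [e1, e2, hm.smul _ (Bd.iq H w), hm.smul _ b1]
  unfold cond
  rw [QuotientAddGroup.out_eq']
  have h1 := m_iq hm H w
  have h2 : m (fun x => iq H w x) = m (iq H w) := rfl
  rw [h2]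
  linear_combination (m (fun z => f z * iq H w z) * u w.out) * h1

/-- energy -/
noncomputable def en (m : (G → ℝ) → ℝ) (a : G → ℝ) (H : AddSubgroup G) : ℝ :=
  m (fun x => cond m H a x ^ 2)

theorem en_eq (hm : IsMean m) {a : G → ℝ} (ha : ∀ x, 0 ≤ a x ∧ a x ≤ 1) (H : AddSubgroup G)
    [H.FiniteIndex] : en m a H = m (fun x => a x * cond m H a x) := by
  rw [← cond_mul hm H ha (cond_Bd hm H ha) (cond_per m H a)]
  unfold en
  congr 1; funext x; ring

theorem en_diff (hm : IsMean m) {a : G → ℝ} (ha : ∀ x, 0 ≤ a x ∧ a x ≤ 1) {H K : AddSubgroup G}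
    [H.FiniteIndex] [K.FiniteIndex] (hKH : K ≤ H) :
    m (fun x => (cond m K a x - cond m H a x) ^ 2) = en m a K - en m a H := by
  have bK := cond_Bd hm K ha
  have bH := cond_Bd hm H ha
  have e : (fun x => (cond m K a x - cond m H a x) ^ 2)
      = fun x => (cond m K a x ^ 2 - 2 * (cond m K a x * cond m H a x)) + cond m H a x ^ 2 := by
    funext x; ring
  rw [e, hm.add ((bK.pow 2).sub ((Bd.const 2).mul (bK.mul bH))) (bH.pow 2),
    hm.sub (bK.pow 2) ((Bd.const 2).mul (bK.mul bH)), hm.smul 2 (bK.mul bH),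
    cond_mul hm K ha bH ((cond_per m H a).mono hKH), ← en_eq hm ha H]
  unfold en
  ring

theorem en_le_one (hm : IsMean m) {a : G → ℝ} (ha : ∀ x, 0 ≤ a x ∧ a x ≤ 1) (H : AddSubgroup G)
    [H.FiniteIndex] : en m a H ≤ 1 := by
  refine hm.le_of_le ((cond_Bd hm H ha).pow 2) (fun x => ?_)
  have := cond_mem hm H ha x
  nlinarith

/-- supremum of the energies -/
noncomputable def es (m : (G → ℝ) → ℝ) (a : G → ℝ) : ℝ :=
  sSup {t | ∃ H : AddSubgroup G, H.FiniteIndex ∧ en m a H = t}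

theorem en_le_es (hm : IsMean m) {a : G → ℝ} (ha : ∀ x, 0 ≤ a x ∧ a x ≤ 1) (H : AddSubgroup G)
    [hH : H.FiniteIndex] : en m a H ≤ es m a := by
  apply le_csSup
  · refine ⟨1, ?_⟩
    rintro t ⟨K, hK, rfl⟩
    exact en_le_one hm ha K
  · exact ⟨H, hH, rfl⟩

theorem exists_en (m : (G → ℝ) → ℝ) (a : G → ℝ) {ε : ℝ} (hε : 0 < ε) :
    ∃ H : AddSubgroup G, H.FiniteIndex ∧ es m a - ε < en m a H := by
  have hne : {t | ∃ H : AddSubgroup G, H.FiniteIndex ∧ en m a H = t}.Nonempty :=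
    ⟨_, ⊤, inferInstance, rfl⟩
  obtain ⟨t, ⟨H, hH, rfl⟩, ht⟩ := exists_lt_of_lt_csSup hne
    (show es m a - ε < sSup {t | ∃ H : AddSubgroup G, H.FiniteIndex ∧ en m a H = t} from by
      have : es m a = sSup {t | ∃ H : AddSubgroup G, H.FiniteIndex ∧ en m a H = t} := rfl
      rw [← this]; linarith)
  exact ⟨H, hH, ht⟩

/-- the error -/
noncomputable def xi (m : (G → ℝ) → ℝ) (a : G → ℝ) (H : AddSubgroup G) : ℝ :=
  Real.sqrt (es m a - en m a H)

theorem xi_nonneg (m : (G → ℝ) → ℝ) (a : G → ℝ) (H : AddSubgroup G) : 0 ≤ xi m a H :=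
  Real.sqrt_nonneg _

theorem xi_sq (hm : IsMean m) {a : G → ℝ} (ha : ∀ x, 0 ≤ a x ∧ a x ≤ 1) (H : AddSubgroup G)
    [H.FiniteIndex] : xi m a H ^ 2 = es m a - en m a H :=
  Real.sq_sqrt (sub_nonneg.2 (en_le_es hm ha H))

theorem xi_mono (hm : IsMean m) {a : G → ℝ} (ha : ∀ x, 0 ≤ a x ∧ a x ≤ 1) {H K : AddSubgroup G}
    [H.FiniteIndex] [K.FiniteIndex] (hKH : K ≤ H) : xi m a K ≤ xi m a H := by
  apply Real.sqrt_le_sqrt
  have h1 := en_diff hm ha hKH
  have h2 : 0 ≤ m (fun x => (cond m K a x - cond m H a x) ^ 2) :=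
    hm.nonneg (fun x => sq_nonneg _)
  linarith

theorem exists_xi (hm : IsMean m) {a : G → ℝ} (ha : ∀ x, 0 ≤ a x ∧ a x ≤ 1) (H₀ : AddSubgroup G)
    [H₀.FiniteIndex] {ε : ℝ} (hε : 0 < ε) :
    ∃ H : AddSubgroup G, H.FiniteIndex ∧ H ≤ H₀ ∧ xi m a H < ε := by
  obtain ⟨H, hH, hH2⟩ := exists_en m a (pow_pos hε 2)
  have : (H ⊓ H₀).FiniteIndex := inferInstance
  refine ⟨H ⊓ H₀, this, inf_le_right, ?_⟩
  refine (xi_mono hm ha (inf_le_left : H ⊓ H₀ ≤ H)).trans_lt ?_
  unfold xi
  rw [Real.sqrt_lt' hε]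
  linarith

theorem cond_diff (hm : IsMean m) {a : G → ℝ} (ha : ∀ x, 0 ≤ a x ∧ a x ≤ 1)
    {H K : AddSubgroup G} [H.FiniteIndex] [K.FiniteIndex] (hKH : K ≤ H) :
    m (fun x => |cond m K a x - cond m H a x|) ≤ xi m a H := by
  have b : Bd (fun x => cond m K a x - cond m H a x) := (cond_Bd hm K ha).sub (cond_Bd hm H ha)
  have h1 := hm.abs_sq_le b
  rw [en_diff hm ha hKH] at h1
  apply Real.le_sqrt_of_sq_le
  have := en_le_es hm ha K
  linarith

theorem char_small (hm : IsMean m) {a : G → ℝ} (ha : ∀ x, 0 ≤ a x ∧ a x ≤ 1) (K : AddSubgroup G)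
    [K.FiniteIndex] (y : ℕ → ZMod 5) :
    (m (fun x => cs y x * (a x - cond m K a x))) ^ 2
      + (m (fun x => sn y x * (a x - cond m K a x))) ^ 2 ≤ xi m a K ^ 2 := by
  have hk : (pr y).ker.FiniteIndex := inferInstance
  let L : AddSubgroup G := K ⊓ (pr y).ker
  have hL : L.FiniteIndex := inferInstance
  have hLK : L ≤ K := inf_le_left
  have hper : ∀ x z : G, (x : G ⧸ L) = (z : G ⧸ L) → ch y x = ch y z := by
    intro x z h
    rw [QuotientAddGroup.eq] at h
    have h1 : pr y (-x + z) = 0 := h.2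
    rw [map_add, map_neg, neg_add_eq_zero] at h1
    unfold ch
    rw [h1]
  have hpc : Per L (fun x => cs y x) := fun x z h => by
    change (ch y x).re = (ch y z).re
    rw [hper x z h]
  have hps : Per L (fun x => sn y x) := fun x z h => by
    change (ch y x).im = (ch y z).im
    rw [hper x z h]
  have bL := cond_Bd hm L ha
  have bK := cond_Bd hm K ha
  have ba : Bd a := Bd.of_mem ha
  have hrep : ∀ u : G → ℝ, Bd u → Per L u → m (fun x => u x * (a x - cond m K a x))
      = m (fun x => u x * (cond m L a x - cond m K a x)) := by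
    intro u hu hpu
    have e1 : (fun x => u x * (a x - cond m K a x)) = fun x => a x * u x - cond m K a x * u x := by
      funext x; ring
    have e2 : (fun x => u x * (cond m L a x - cond m K a x))
        = fun x => cond m L a x * u x - cond m K a x * u x := by
      funext x; ring
    rw [e1, e2, hm.sub (ba.mul hu) (bK.mul hu), hm.sub (bL.mul hu) (bK.mul hu),
      cond_mul hm L ha hu hpu]
  rw [hrep _ (Bd.cs y) hpc, hrep _ (Bd.sn y) hps]
  have bk : Bd (fun x => cond m L a x - cond m K a x) := bL.sub bK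
  have h1 := hm.sq_le (Bd.cs y) bk
  have h2 := hm.sq_le (Bd.sn y) bk
  have h3 : m (fun x => cs y x ^ 2) + m (fun x => sn y x ^ 2) = 1 := by
    rw [← hm.add ((Bd.cs y).pow 2) ((Bd.sn y).pow 2)]
    simp_rw [cs_sq_add]
    exact hm.one'
  have h4 := en_diff hm ha hLK
  have h5 := en_le_es hm ha L
  rw [xi_sq hm ha K]
  rw [h4] at h1 h2
  have h6 : (m (fun x => cs y x ^ 2) + m (fun x => sn y x ^ 2)) * (en m a L - en m a K)
      = en m a L - en m a K := by rw [h3, one_mul]
  linarith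

/-- uniformity of the remainder -/
theorem unif_rem (hm : IsMean m) (he : Erg m) {a : G → ℝ} (ha : ∀ x, 0 ≤ a x ∧ a x ≤ 1)
    (K : AddSubgroup G) [K.FiniteIndex] {u : G → ℝ} (hu : ∀ x, |u x| ≤ 1) :
    m (fun b => |m (fun x => u x * (a (x + b) - cond m K a (x + b)))|) ≤ xi m a K := by
  have bh : Bd (fun x => a x - cond m K a x) := (Bd.of_mem ha).sub (cond_Bd hm K ha)
  have h1 := unif hm he hu bh (char_small hm ha K)
  have b2 : Bd (fun b => m (fun x => u x * (a (x + b) - cond m K a (x + b)))) := by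
    obtain ⟨C, hC⟩ := bh
    refine ⟨1 * C, fun b => hm.abs_le_of_le (fun x => ?_)⟩
    rw [abs_mul]
    exact mul_le_mul (hu x) (hC _) (abs_nonneg _) zero_le_one
  have h2 := (hm.abs_sq_le b2).trans h1
  exact abs_le_of_sq_le_sq' h2 (xi_nonneg m a K) |>.2

/-! ### doubling -/

theorem five_nsmul (g : G) : (5 : ℕ) • g = 0 := by
  ext i
  rw [Finsupp.smul_apply, Finsupp.zero_apply]
  have : ∀ a : ZMod 5, (5 : ℕ) • a = 0 := by decide
  exact this _

theorem dbl_bij (H : AddSubgroup G) [H.FiniteIndex] : Function.Bijective (fun w : G ⧸ H => w + w) := by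
  have h5 : ∀ w : G ⧸ H, (5 : ℕ) • w = 0 := by
    intro w
    obtain ⟨g, rfl⟩ := QuotientAddGroup.mk_surjective w
    rw [← QuotientAddGroup.mk_nsmul, five_nsmul, QuotientAddGroup.mk_zero]
  rw [← Finite.injective_iff_bijective]
  intro v w h
  have h1 : (3 : ℕ) • (v + v) = (3 : ℕ) • (w + w) := congrArg (fun t => (3 : ℕ) • t) h
  have h2 : ∀ t : G ⧸ H, (3 : ℕ) • (t + t) = t := by
    intro t
    have : (3 : ℕ) • (t + t) = (5 : ℕ) • t + t := by
      rw [← two_nsmul, ← mul_nsmul, ← succ_nsmul]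
    rw [this, h5, zero_add]
  rwa [h2, h2] at h1

theorem m_dbl (hm : IsMean m) (H : AddSubgroup G) [H.FiniteIndex] {u : G → ℝ} (hu : Bd u)
    (hp : Per H u) : m (fun x => u (x + x)) = m u := by
  have : Fintype (G ⧸ H) := Fintype.ofFinite _
  have hu2 : Bd (fun x => u (x + x)) := hu.comp _
  have hp2 : Per H (fun x => u (x + x)) := by
    intro x y h
    apply hp
    rw [QuotientAddGroup.mk_add, QuotientAddGroup.mk_add, h]
  rw [m_split hm H hu2, m_split hm H hu]
  rw [← Equiv.sum_comp (Equiv.ofBijective _ (dbl_bij H)) (fun w => m (fun x => u x * iq H w x))]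
  apply Finset.sum_congr rfl
  intro w _
  rw [Equiv.ofBijective_apply]
  have e1 : (fun x => u (x + x) * iq H w x) = fun x => u (w.out + w.out) * iq H w x := by
    funext x
    exact per_iq hp2 w x
  have e2 : (fun x => u x * iq H (w + w) x) = fun x => u (w.out + w.out) * iq H (w + w) x := by
    funext x
    rw [per_iq hp (w + w) x]
    congr 1
    apply hp
    rw [QuotientAddGroup.mk_add, QuotientAddGroup.out_eq', QuotientAddGroup.out_eq']
  rw [e1, e2, hm.smul _ (Bd.iq H w), hm.smul _ (Bd.iq H (w + w))]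
  have h1 := m_iq hm H w
  have h2 := m_iq hm H (w + w)
  have h3 : m (iq H w) = m (iq H (w + w)) := by
    have hq := (qn_pos H).ne'
    have : qn H * m (iq H w) = qn H * m (iq H (w + w)) := by rw [h1, h2]
    exact mul_left_cancel₀ hq this
  have h4 : m (fun x => iq H w x) = m (iq H w) := rfl
  have h5 : m (fun x => iq H (w + w) x) = m (iq H (w + w)) := rfl
  rw [h4, h5, h3]

end Pool.Agent.R294.BB
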