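import Pool.Agent.R294.BB5

/-!
MP_29f955_co, part 6: the main inequality.
-/

namespace Pool.Agent.R294.BB

open Filter Topology

open Classical in
/-- indicator function -/
noncomputable def ic (A : Set G) (x : G) : ℝ := if x ∈ A then 1 else 0

theorem ic_mem (A : Set G) (x : G) : 0 ≤ ic A x ∧ ic A x ≤ 1 := by
  unfold ic
  split_ifs <;> norm_num

@[simp] theorem Bd.ic (A : Set G) : Bd (fun x => ic A x) := Bd.of_mem (ic_mem A)

instance infG : Infinite G :=
  Infinite.of_injective (fun n : ℕ => Finsupp.single n (1 : ZMod 5))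
    (Finsupp.single_left_injective (by decide))

variable {m : (G → ℝ) → ℝ}

theorem m_sing (hm : IsMean m) (g : G) : m (ic {g}) = 0 := by
  have h1 : ∀ g : G, m (ic {g}) = m (ic {(0 : G)}) := by
    intro g
    rw [← hm.shift (Bd.ic {g}) g]
    congr 1
    funext x
    unfold ic
    simp
  have h0 : 0 ≤ m (ic {(0 : G)}) := hm.nonneg (fun x => (ic_mem _ x).1)
  rw [h1]
  apply le_antisymm _ h0
  by_contra hc
  push Not at hc
  obtain ⟨n, hn⟩ := exists_nat_gt (1 / m (ic {(0 : G)}))
  obtain ⟨T, hT⟩ := Infinite.exists_subset_card_eq G n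
  have h2 : m (fun x => ∑ g ∈ T, ic {g} x) ≤ 1 := by
    refine hm.le_of_le (Bd.sum _ (fun g _ => Bd.ic {g})) (fun x => ?_)
    unfold ic
    simp only [Set.mem_singleton_iff, Finset.sum_ite_eq]
    split_ifs <;> norm_num
  rw [hm.sum T (fun g _ => Bd.ic {g}), Finset.sum_congr rfl (fun g _ => h1 g), Finset.sum_const, hT,
    nsmul_eq_mul] at h2
  rw [div_lt_iff₀ hc] at hn
  linarith

theorem mono_off (hm : IsMean m) {F F' : G → ℝ} (hF : Bd F) (hF' : Bd F') (T : Finset G)
    (h : ∀ x, x ∉ T → F x ≤ F' x) : m F ≤ m F' := by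
  obtain ⟨C, hC⟩ := hF.sub hF'
  have hC0 : 0 ≤ C := (abs_nonneg _).trans (hC 0)
  have bS : Bd (fun x => ∑ g ∈ T, ic {g} x) := Bd.sum _ (fun g _ => Bd.ic {g})
  have h1 : m F ≤ m (fun x => F' x + C * ∑ g ∈ T, ic {g} x) := by
    refine hm.mono hF (hF'.add ((Bd.const C).mul bS)) (fun x => ?_)
    by_cases hx : x ∈ T
    · have h2 : ∑ g ∈ T, ic {g} x = 1 := by
        unfold ic
        simp [hx]
      rw [h2, mul_one]
      linarith [(abs_le.1 (hC x)).2]
    · have h2 : 0 ≤ ∑ g ∈ T, ic {g} x := Finset.sum_nonneg (fun g _ => (ic_mem _ x).1)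
      have := h x hx
      nlinarith [mul_nonneg hC0 h2]
  rw [hm.add hF' ((Bd.const C).mul bS), hm.smul C bS, hm.sum T (fun g _ => Bd.ic {g}),
    Finset.sum_eq_zero (fun g _ => m_sing hm g), mul_zero, add_zero] at h1
  exact h1

theorem BdI (hm : IsMean m) {F : G → G → ℝ} {C : ℝ} (h : ∀ b x, |F b x| ≤ C) :
    Bd (fun b => m (F b)) := ⟨C, fun b => hm.abs_le_of_le (h b)⟩

theorem prod_mem {a b : ℝ} (ha : 0 ≤ a ∧ a ≤ 1) (hb : 0 ≤ b ∧ b ≤ 1) : 0 ≤ a * b ∧ a * b ≤ 1 :=
  ⟨mul_nonneg ha.1 hb.1, mul_le_one₀ ha.2 hb.1 hb.2⟩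

theorem abs_of_mem {a : ℝ} (ha : 0 ≤ a ∧ a ≤ 1) : |a| ≤ 1 := abs_le.2 ⟨by linarith, ha.2⟩

/-- one coset -/
theorem coset_ineq (hm : IsMean m) (he : Erg m) {a : G → ℝ} (ha : ∀ x, 0 ≤ a x ∧ a x ≤ 1)
    (D : Set G) (H K : AddSubgroup G) [H.FiniteIndex] [K.FiniteIndex] (T : Finset G) {ξ : ℝ}
    (hyp : ∀ b ∈ D, b ∉ T → m (fun x => ic D x * (a (x + b) * cond m K a (x + x))) ≤ ξ)
    (w : G ⧸ H) :
    (cond m H a (w.out + w.out) * m (fun x => ic D x * iq H w x)) ^ 2
      ≤ ξ * m (fun x => ic D x * iq H w x) + xi m a K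
        + m (iq H w) * m (fun x => iq H w x * |cond m K a (x + x) - cond m H a (x + x)|)
        + m (iq H w) * m (fun x => iq H (w + w) x * |cond m K a x - cond m H a x|) := by
  set d : G → ℝ := fun x => ic D x * iq H w x with hd
  have dm : ∀ x, 0 ≤ d x ∧ d x ≤ 1 := fun x => prod_mem (ic_mem D x) (iq_mem H w x)
  have bd : Bd d := Bd.of_mem dm
  have cKm := cond_mem hm K ha
  have cHm := cond_mem hm H ha
  have bcK := cond_Bd hm K ha
  have bcH := cond_Bd hm H ha
  have bPK : Bd (fun x => cond m K a (x + x)) := bcK.comp _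
  have bPH : Bd (fun x => cond m H a (x + x)) := bcH.comp _
  have bpsi : Bd (fun x => |cond m K a x - cond m H a x|) := (bcK.sub bcH).abs
  have bpsi2 : Bd (fun x => |cond m K a (x + x) - cond m H a (x + x)|) := (bPK.sub bPH).abs
  -- claim A
  have A : (cond m H a (w.out + w.out) * m d) ^ 2
      = m (fun b => d b * m (fun x => d x * (cond m H a (x + b) * cond m H a (x + x)))) := by
    have e : ∀ b, d b * m (fun x => d x * (cond m H a (x + b) * cond m H a (x + x)))
        = d b * (cond m H a (w.out + w.out) ^ 2 * m d) := by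
      intro b
      by_cases hb : (b : G ⧸ H) = w
      · congr 1
        rw [← hm.smul _ bd]
        congr 1
        funext x
        by_cases hx : (x : G ⧸ H) = w
        · have h1 : cond m H a (x + b) = cond m H a (w.out + w.out) := by
            apply cond_per
            rw [QuotientAddGroup.mk_add, QuotientAddGroup.mk_add, hx, hb, QuotientAddGroup.out_eq']
          have h2 : cond m H a (x + x) = cond m H a (w.out + w.out) := by
            apply cond_per
            rw [QuotientAddGroup.mk_add, QuotientAddGroup.mk_add, hx, QuotientAddGroup.out_eq']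
          rw [h1, h2]; ring
        · have : d x = 0 := by
            change ic D x * iq H w x = 0
            unfold iq
            rw [if_neg hx, mul_zero]
          rw [this]; ring
      · have : d b = 0 := by
          change ic D b * iq H w b = 0
          unfold iq
          rw [if_neg hb, mul_zero]
        rw [this]; ring
    rw [funext e, hm.smul_right _ bd]
    ring
  have i1 : ∀ b x : G, |d x * (cond m H a (x + b) * cond m H a (x + x))| ≤ 1 := fun b x =>
    abs_of_mem (prod_mem (dm x) (prod_mem (cHm _) (cHm _)))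
  have i2 : ∀ b x : G, |d x * (cond m K a (x + b) * cond m H a (x + x))| ≤ 1 := fun b x =>
    abs_of_mem (prod_mem (dm x) (prod_mem (cKm _) (cHm _)))
  have i3 : ∀ b x : G, |d x * (cond m K a (x + b) * cond m K a (x + x))| ≤ 1 := fun b x =>
    abs_of_mem (prod_mem (dm x) (prod_mem (cKm _) (cKm _)))
  have i4 : ∀ b x : G, |d x * (a (x + b) * cond m K a (x + x))| ≤ 1 := fun b x =>
    abs_of_mem (prod_mem (dm x) (prod_mem (ha _) (cKm _)))
  have b1 := bd.mul (BdI hm i1)
  have b2 := bd.mul (BdI hm i2)
  have b3 := bd.mul (BdI hm i3)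
  have b4 := bd.mul (BdI hm i4)
  -- claim B
  have B : m (fun b => d b * m (fun x => d x * (cond m H a (x + b) * cond m H a (x + x))))
      ≤ m (fun b => d b * m (fun x => d x * (cond m K a (x + b) * cond m H a (x + x))))
        + m (iq H w) * m (fun x => iq H (w + w) x * |cond m K a x - cond m H a x|) := by
    rw [← hm.smul_right _ (Bd.iq H w), ← hm.add b2 ((Bd.iq H w).mul (Bd.const _))]
    refine hm.mono b1 (b2.add ((Bd.iq H w).mul (Bd.const _))) (fun b => ?_)
    by_cases hb : (b : G ⧸ H) = w
    · have hi : iq H w b = 1 := by unfold iq; rw [if_pos hb]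
      rw [hi, one_mul]
      have bb : Bd (fun x => iq H (w + w) x * |cond m K a x - cond m H a x|) :=
        (Bd.iq H _).mul bpsi
      have h1 : m (fun x => d x * (cond m H a (x + b) * cond m H a (x + x)))
          ≤ m (fun x => d x * (cond m K a (x + b) * cond m H a (x + x)))
            + m (fun x => iq H (w + w) x * |cond m K a x - cond m H a x|) := by
        rw [← hm.shift bb b, ← hm.add ⟨1, i2 b⟩ (bb.shift b)]
        refine hm.mono ⟨1, i1 b⟩ (Bd.add ⟨1, i2 b⟩ (bb.shift b)) (fun x => ?_)
        have h2 : iq H (w + w) (x + b) = iq H w x := by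
          rw [← iq_shift H w x b, hb]
        rw [h2]
        have h3 := dm x
        have h4 : d x ≤ iq H w x := by
          change ic D x * iq H w x ≤ iq H w x
          nlinarith [(ic_mem D x).2, (iq_mem H w x).1]
        have h5 := cHm (x + x)
        have h6 : cond m H a (x + b) ≤ cond m K a (x + b)
            + |cond m K a (x + b) - cond m H a (x + b)| := by
          linarith [neg_abs_le (cond m K a (x + b) - cond m H a (x + b))]
        have h7 := abs_nonneg (cond m K a (x + b) - cond m H a (x + b))
        have h8 : d x * (cond m H a (x + b) * cond m H a (x + x))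
            ≤ d x * ((cond m K a (x + b) + |cond m K a (x + b) - cond m H a (x + b)|)
              * cond m H a (x + x)) :=
          mul_le_mul_of_nonneg_left (mul_le_mul_of_nonneg_right h6 h5.1) h3.1
        have h9 : d x * (|cond m K a (x + b) - cond m H a (x + b)| * cond m H a (x + x))
            ≤ iq H w x * |cond m K a (x + b) - cond m H a (x + b)| :=
          mul_le_mul h4 (mul_le_of_le_one_right h7 h5.2) (mul_nonneg h7 h5.1) (iq_mem H w x).1
        linarith
      have h10 : 0 ≤ m (fun x => iq H (w + w) x * |cond m K a x - cond m H a x|) :=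
        hm.nonneg (fun x => mul_nonneg (iq_mem H _ x).1 (abs_nonneg _))
      have h11 := dm b
      nlinarith [mul_le_mul_of_nonneg_left h1 h11.1]
    · have hi : iq H w b = 0 := by unfold iq; rw [if_neg hb]
      have hdb : d b = 0 := by
        change ic D b * iq H w b = 0
        rw [hi, mul_zero]
      rw [hdb, hi]; simp
  -- claim C
  have C : m (fun b => d b * m (fun x => d x * (cond m K a (x + b) * cond m H a (x + x))))
      ≤ m (fun b => d b * m (fun x => d x * (cond m K a (x + b) * cond m K a (x + x))))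
        + m (iq H w) * m (fun x => iq H w x * |cond m K a (x + x) - cond m H a (x + x)|) := by
    have bb : Bd (fun x => iq H w x * |cond m K a (x + x) - cond m H a (x + x)|) :=
      (Bd.iq H _).mul bpsi2
    rw [← hm.smul_right _ (Bd.iq H w), ← hm.add b3 ((Bd.iq H w).mul (Bd.const _))]
    refine hm.mono b2 (b3.add ((Bd.iq H w).mul (Bd.const _))) (fun b => ?_)
    have h1 : m (fun x => d x * (cond m K a (x + b) * cond m H a (x + x)))
        ≤ m (fun x => d x * (cond m K a (x + b) * cond m K a (x + x)))
          + m (fun x => iq H w x * |cond m K a (x + x) - cond m H a (x + x)|) := by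
      rw [← hm.add ⟨1, i3 b⟩ bb]
      refine hm.mono ⟨1, i2 b⟩ (Bd.add ⟨1, i3 b⟩ bb) (fun x => ?_)
      have h3 := dm x
      have h4 : d x ≤ iq H w x := by
        change ic D x * iq H w x ≤ iq H w x
        nlinarith [(ic_mem D x).2, (iq_mem H w x).1]
      have h5 := cKm (x + b)
      have h6 : cond m H a (x + x) ≤ cond m K a (x + x)
          + |cond m K a (x + x) - cond m H a (x + x)| := by
        linarith [neg_abs_le (cond m K a (x + x) - cond m H a (x + x))]
      have h7 := abs_nonneg (cond m K a (x + x) - cond m H a (x + x))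
      have h8 : d x * (cond m K a (x + b) * cond m H a (x + x))
          ≤ d x * (cond m K a (x + b) * (cond m K a (x + x)
            + |cond m K a (x + x) - cond m H a (x + x)|)) :=
        mul_le_mul_of_nonneg_left (mul_le_mul_of_nonneg_left h6 h5.1) h3.1
      have h9 : d x * (cond m K a (x + b) * |cond m K a (x + x) - cond m H a (x + x)|)
          ≤ iq H w x * |cond m K a (x + x) - cond m H a (x + x)| :=
        mul_le_mul h4 (mul_le_of_le_one_left h7 h5.2) (mul_nonneg h5.1 h7) (iq_mem H w x).1
      linarith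
    have h10 : 0 ≤ m (fun x => iq H w x * |cond m K a (x + x) - cond m H a (x + x)|) :=
      hm.nonneg (fun x => mul_nonneg (iq_mem H _ x).1 (abs_nonneg _))
    have h11 := dm b
    have h12 : d b ≤ iq H w b := by
      change ic D b * iq H w b ≤ iq H w b
      nlinarith [(ic_mem D b).2, (iq_mem H w b).1]
    have h13 := mul_le_mul_of_nonneg_left h1 h11.1
    have h14 := mul_le_mul_of_nonneg_right h12 h10
    rw [mul_add] at h13
    linarith
  -- claim D
  have Dd : m (fun b => d b * m (fun x => d x * (cond m K a (x + b) * cond m K a (x + x))))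
      ≤ m (fun b => d b * m (fun x => d x * (a (x + b) * cond m K a (x + x)))) + xi m a K := by
    have hu : ∀ x, |d x * cond m K a (x + x)| ≤ 1 := fun x =>
      abs_of_mem (prod_mem (dm x) (cKm _))
    have h0 := unif_rem hm he ha K hu
    have bu : Bd (fun b => m (fun x => d x * cond m K a (x + x)
        * (a (x + b) - cond m K a (x + b)))) := by
      refine BdI hm (C := 1 * 1) (fun b x => ?_)
      rw [abs_mul]
      refine mul_le_mul (hu x) ?_ (abs_nonneg _) zero_le_one
      have h1 := ha (x + b)
      have h2 := cKm (x + b)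
      rw [abs_le]
      constructor <;> linarith
    refine le_trans ?_ (add_le_add le_rfl h0)
    rw [← hm.add b4 bu.abs]
    refine hm.mono b3 (b4.add bu.abs) (fun b => ?_)
    have e : m (fun x => d x * cond m K a (x + x) * (a (x + b) - cond m K a (x + b)))
        = m (fun x => d x * (a (x + b) * cond m K a (x + x)))
          - m (fun x => d x * (cond m K a (x + b) * cond m K a (x + x))) := by
      rw [← hm.sub ⟨1, i4 b⟩ ⟨1, i3 b⟩]
      congr 1; funext x; ring
    have h2 := neg_abs_le (m (fun x => d x * cond m K a (x + x)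
      * (a (x + b) - cond m K a (x + b))))
    have h3 := abs_nonneg (m (fun x => d x * cond m K a (x + x)
      * (a (x + b) - cond m K a (x + b))))
    have h4 := dm b
    generalize |m (fun x => d x * cond m K a (x + x) * (a (x + b) - cond m K a (x + b)))| = z at *
    rw [e] at h2
    nlinarith [mul_le_mul_of_nonneg_left h2 h4.1]
  -- claim E
  have E : m (fun b => d b * m (fun x => d x * (a (x + b) * cond m K a (x + x)))) ≤ ξ * m d := by
    rw [← hm.smul ξ bd]
    refine mono_off hm b4 ((Bd.const ξ).mul bd) T (fun b hb => ?_)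
    by_cases hbD : b ∈ D
    · have h1 := hyp b hbD hb
      have h2 : m (fun x => d x * (a (x + b) * cond m K a (x + x)))
          ≤ m (fun x => ic D x * (a (x + b) * cond m K a (x + x))) := by
        refine hm.mono ⟨1, i4 b⟩ ⟨1, fun x => abs_of_mem (prod_mem (ic_mem D x)
          (prod_mem (ha _) (cKm _)))⟩ (fun x => ?_)
        apply mul_le_mul_of_nonneg_right _ (mul_nonneg (ha _).1 (cKm _).1)
        change ic D x * iq H w x ≤ ic D x
        nlinarith [(ic_mem D x).1, (iq_mem H w x).2]
      rw [mul_comm ξ]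
      exact mul_le_mul_of_nonneg_left (h2.trans h1) (dm b).1
    · have : d b = 0 := by
        change ic D b * iq H w b = 0
        unfold ic
        rw [if_neg hbD, zero_mul]
      rw [this]; simp
  linarith

theorem main_ineq (hm : IsMean m) (he : Erg m) {a : G → ℝ} (ha : ∀ x, 0 ≤ a x ∧ a x ≤ 1)
    (D : Set G) (H K : AddSubgroup G) [H.FiniteIndex] [K.FiniteIndex] (hKH : K ≤ H)
    (T : Finset G) {ξ : ℝ} (hξ : 0 ≤ ξ)
    (hyp : ∀ b ∈ D, b ∉ T → m (fun x => ic D x * (a (x + b) * cond m K a (x + x))) ≤ ξ) :
    (m (fun x => ic D x * cond m H a (x + x))) ^ 2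
      ≤ qn H * ξ + qn H ^ 2 * xi m a K + 2 * xi m a H := by
  have : Fintype (G ⧸ H) := Fintype.ofFinite _
  have hq := qn_pos H
  have hcard : ((Finset.univ : Finset (G ⧸ H)).card : ℝ) = qn H := by
    unfold qn
    rw [Nat.card_eq_fintype_card]; rfl
  have bcK := cond_Bd hm K ha
  have bcH := cond_Bd hm H ha
  have bPK : Bd (fun x => cond m K a (x + x)) := bcK.comp _
  have bPH : Bd (fun x => cond m H a (x + x)) := bcH.comp _
  have bpsi : Bd (fun x => |cond m K a x - cond m H a x|) := (bcK.sub bcH).abs
  have bpsi2 : Bd (fun x => |cond m K a (x + x) - cond m H a (x + x)|) := (bPK.sub bPH).abs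
  have h1 : m (fun x => ic D x * cond m H a (x + x))
      = ∑ w : G ⧸ H, cond m H a (w.out + w.out) * m (fun x => ic D x * iq H w x) := by
    rw [m_split hm H ((Bd.ic D).mul bPH)]
    apply Finset.sum_congr rfl
    intro w _
    rw [← hm.smul _ ((Bd.ic D).mul (Bd.iq H w))]
    congr 1
    funext x
    have hp2 : Per H (fun x => cond m H a (x + x)) := by
      intro x y h
      apply cond_per
      rw [QuotientAddGroup.mk_add, QuotientAddGroup.mk_add, h]
    have h8 : cond m H a (x + x) * iq H w x = cond m H a (w.out + w.out) * iq H w x :=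
      per_iq hp2 w x
    linear_combination ic D x * h8
  rw [h1]
  have h2 := sq_sum_le_card_mul_sum_sq (s := (Finset.univ : Finset (G ⧸ H)))
    (f := fun w => cond m H a (w.out + w.out) * m (fun x => ic D x * iq H w x))
  rw [hcard] at h2
  refine h2.trans ?_
  rw [Finset.mul_sum]
  have h3 : ∀ w : G ⧸ H, qn H * (cond m H a (w.out + w.out)
      * m (fun x => ic D x * iq H w x)) ^ 2
      ≤ qn H * ξ * m (fun x => ic D x * iq H w x) + qn H * xi m a K
        + m (fun x => |cond m K a (x + x) - cond m H a (x + x)| * iq H w x)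
        + m (fun x => |cond m K a x - cond m H a x| * iq H (w + w) x) := by
    intro w
    have h4 := mul_le_mul_of_nonneg_left (coset_ineq hm he ha D H K T hyp w) hq.le
    have h5 := m_iq hm H w
    have e1 : (fun x => iq H w x * |cond m K a (x + x) - cond m H a (x + x)|)
        = fun x => |cond m K a (x + x) - cond m H a (x + x)| * iq H w x := by
      funext x; ring
    have e2 : (fun x => iq H (w + w) x * |cond m K a x - cond m H a x|)
        = fun x => |cond m K a x - cond m H a x| * iq H (w + w) x := by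
      funext x; ring
    rw [e1, e2] at h4
    refine h4.trans (le_of_eq ?_)
    linear_combination (m (fun x => |cond m K a (x + x) - cond m H a (x + x)| * iq H w x)
      + m (fun x => |cond m K a x - cond m H a x| * iq H (w + w) x)) * h5
  refine (Finset.sum_le_sum (fun w _ => h3 w)).trans ?_
  rw [Finset.sum_add_distrib, Finset.sum_add_distrib, Finset.sum_add_distrib, ← Finset.mul_sum,
    Finset.sum_const, nsmul_eq_mul, hcard]
  have s1 : ∑ w : G ⧸ H, m (fun x => ic D x * iq H w x) ≤ 1 := by
    rw [← m_split hm H (Bd.ic D)]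
    exact hm.le_of_le (Bd.ic D) (fun x => (ic_mem D x).2)
  have s2 : ∑ w : G ⧸ H, m (fun x => |cond m K a (x + x) - cond m H a (x + x)| * iq H w x)
      ≤ xi m a H := by
    rw [← m_split hm H bpsi2]
    have hper : Per K (fun x => |cond m K a x - cond m H a x|) := by
      intro x y h
      change |cond m K a x - cond m H a x| = |cond m K a y - cond m H a y|
      rw [cond_per m K a x y h, ((cond_per m H a).mono hKH) x y h]
    have := m_dbl hm K bpsi hper
    rw [this]
    exact cond_diff hm ha hKH
  have s3 : ∑ w : G ⧸ H, m (fun x => |cond m K a x - cond m H a x| * iq H (w + w) x)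
      ≤ xi m a H := by
    have := Equiv.sum_comp (Equiv.ofBijective _ (dbl_bij H))
      (fun w => m (fun x => |cond m K a x - cond m H a x| * iq H w x))
    simp only [Equiv.ofBijective_apply] at this
    rw [this, ← m_split hm H bpsi]
    exact cond_diff hm ha hKH
  have s4 : qn H * ξ * ∑ w : G ⧸ H, m (fun x => ic D x * iq H w x) ≤ qn H * ξ := by
    have : 0 ≤ qn H * ξ := mul_nonneg hq.le hξ
    nlinarith
  nlinarith

end Pool.Agent.R294.BB
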