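import Pool.Agent.R294.BB6

/-!
MP_29f955_co, part 7: live sets, and the infinite set `B`.
-/

namespace Pool.Agent.R294.BB

open Filter Topology

variable {m : (G → ℝ) → ℝ}

/-- live sets -/
def Live (m : (G → ℝ) → ℝ) (a : G → ℝ) (D : Set G) : Prop :=
  ∃ δ : ℝ, 0 < δ ∧ ∃ H₀ : AddSubgroup G, H₀.FiniteIndex ∧ ∀ H : AddSubgroup G, H.FiniteIndex →
    H ≤ H₀ → δ ≤ m (fun x => ic D x * cond m H a (x + x))

theorem not_live (hm : IsMean m) {a : G → ℝ} (ha : ∀ x, 0 ≤ a x ∧ a x ≤ 1) {D : Set G}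
    (hD : ¬ Live m a D) (H : AddSubgroup G) [H.FiniteIndex] :
    m (fun x => ic D x * cond m H a (x + x)) ≤ xi m a H := by
  apply le_of_forall_pos_le_add
  intro δ hδ
  have h1 : ∃ K : AddSubgroup G, K.FiniteIndex ∧ K ≤ H ∧
      m (fun x => ic D x * cond m K a (x + x)) < δ := by
    by_contra hc
    push Not at hc
    exact hD ⟨δ, hδ, H, inferInstance, hc⟩
  obtain ⟨K, hK, hKH, h2⟩ := h1
  have bcK := cond_Bd hm K ha
  have bcH := cond_Bd hm H ha
  have bPK : Bd (fun x => cond m K a (x + x)) := bcK.comp _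
  have bPH : Bd (fun x => cond m H a (x + x)) := bcH.comp _
  have bpsi : Bd (fun x => |cond m K a x - cond m H a x|) := (bcK.sub bcH).abs
  have bpsi2 : Bd (fun x => |cond m K a (x + x) - cond m H a (x + x)|) := (bPK.sub bPH).abs
  have hper : Per K (fun x => |cond m K a x - cond m H a x|) := by
    intro x y h
    change |cond m K a x - cond m H a x| = |cond m K a y - cond m H a y|
    rw [cond_per m K a x y h, ((cond_per m H a).mono hKH) x y h]
  have h3 : m (fun x => |cond m K a (x + x) - cond m H a (x + x)|) ≤ xi m a H := by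
    have := m_dbl hm K bpsi hper
    rw [this]
    exact cond_diff hm ha hKH
  have h4 : m (fun x => ic D x * cond m H a (x + x))
      ≤ m (fun x => ic D x * cond m K a (x + x))
        + m (fun x => |cond m K a (x + x) - cond m H a (x + x)|) := by
    rw [← hm.add ((Bd.ic D).mul bPK) bpsi2]
    refine hm.mono ((Bd.ic D).mul bPH) (((Bd.ic D).mul bPK).add bpsi2) (fun x => ?_)
    have h5 := ic_mem D x
    have h6 := neg_abs_le (cond m K a (x + x) - cond m H a (x + x))
    have h7 := abs_nonneg (cond m K a (x + x) - cond m H a (x + x))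
    have h8 := mul_le_mul_of_nonneg_left h6 h5.1
    have h9 := mul_le_mul_of_nonneg_right h5.2 h7
    linarith
  linarith

theorem live_step (hm : IsMean m) (he : Erg m) (A : Set G) {D : Set G}
    (hD : Live m (ic A) D) (T : Finset G) :
    ∃ b ∈ D, b ∉ T ∧ Live m (ic A) (D ∩ {x | x + b ∈ A}) := by
  by_contra hc
  push Not at hc
  have ha := ic_mem A
  obtain ⟨δ, hδ, H₀, hH₀, h1⟩ := hD
  obtain ⟨H, hH, hHH, h2⟩ := exists_xi hm ha H₀ (show (0 : ℝ) < δ ^ 2 / 8 by positivity)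
  have hq := qn_pos H
  obtain ⟨K, hK, hKH, h3⟩ := exists_xi hm ha H
    (show (0 : ℝ) < δ ^ 2 / (8 * (qn H + qn H ^ 2)) by positivity)
  have h4 := main_ineq hm he ha D H K hKH T (xi_nonneg m (ic A) K) (fun b hb hbT => by
    have h5 := not_live hm ha (hc b hb hbT) K
    have e : (fun x => ic D x * (ic A (x + b) * cond m K (ic A) (x + x)))
        = fun x => ic (D ∩ {x | x + b ∈ A}) x * cond m K (ic A) (x + x) := by
      funext x
      rw [← mul_assoc]
      congr 1
      unfold ic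
      by_cases h6 : x ∈ D
      · by_cases h7 : x + b ∈ A
        · rw [if_pos h6, if_pos h7, if_pos (show x ∈ D ∩ {x | x + b ∈ A} from ⟨h6, h7⟩), one_mul]
        · rw [if_neg h7, if_neg (fun h : x ∈ D ∩ {x | x + b ∈ A} => h7 h.2), mul_zero]
      · rw [if_neg h6, if_neg (fun h : x ∈ D ∩ {x | x + b ∈ A} => h6 h.1), zero_mul]
    rw [e]
    exact h5)
  have h5 := h1 H hH hHH
  have h6 : δ ^ 2 ≤ (m (fun x => ic D x * cond m H (ic A) (x + x))) ^ 2 :=
    pow_le_pow_left₀ hδ.le h5 2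
  have h7 : (qn H + qn H ^ 2) * xi m (ic A) K ≤ δ ^ 2 / 8 := by
    have h8 : (0 : ℝ) < qn H + qn H ^ 2 := by positivity
    have h9 : (qn H + qn H ^ 2) * (δ ^ 2 / (8 * (qn H + qn H ^ 2))) = δ ^ 2 / 8 := by
      field_simp
    rw [← h9]
    exact mul_le_mul_of_nonneg_left h3.le h8.le
  have h8 : 0 < δ ^ 2 := by positivity
  nlinarith

theorem live_start (hm : IsMean m) (A E : Set G) (h : 1 < m (ic A) + m (ic E)) :
    Live m (ic A) E := by
  have ha := ic_mem A
  refine ⟨m (ic A) + m (ic E) - 1, by linarith, ⊤, inferInstance, fun H hH _ => ?_⟩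
  have bcH := cond_Bd hm H ha
  have bPH : Bd (fun x => cond m H (ic A) (x + x)) := bcH.comp _
  have h1 : m (fun x => cond m H (ic A) (x + x)) = m (ic A) := by
    rw [m_dbl hm H bcH (cond_per m H (ic A))]
    have := cond_mul hm H ha (Bd.const 1) (fun x y _ => rfl)
    simpa using this
  have h2 : m (fun x => (ic E x + cond m H (ic A) (x + x)) - 1)
      = m (ic E) + m (ic A) - 1 := by
    rw [hm.sub ((Bd.ic E).add bPH) (Bd.const 1), hm.add (Bd.ic E) bPH, h1, hm.const]
  have h3 : m (fun x => (ic E x + cond m H (ic A) (x + x)) - 1)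
      ≤ m (fun x => ic E x * cond m H (ic A) (x + x)) := by
    refine hm.mono (((Bd.ic E).add bPH).sub (Bd.const 1)) ((Bd.ic E).mul bPH) (fun x => ?_)
    have h4 := ic_mem E x
    have h5 := cond_mem hm H ha (x + x)
    nlinarith [mul_nonneg (sub_nonneg.2 h4.2) (sub_nonneg.2 h5.2)]
  linarith

/-- states of the construction -/
def Inv (m : (G → ℝ) → ℝ) (A E : Set G) (p : Finset G × Set G) : Prop :=
  Live m (ic A) p.2 ∧ p.2 ⊆ E ∧ (∀ b ∈ p.1, ∀ x ∈ p.2, x + b ∈ A) ∧ (∀ b ∈ p.1, b ∈ E)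
    ∧ (∀ b ∈ p.1, ∀ c ∈ p.1, b ≠ c → b + c ∈ A)

open Classical in
theorem inv_step (hm : IsMean m) (he : Erg m) {A E : Set G} {p : Finset G × Set G}
    (hp : Inv m A E p) : ∃ p' : Finset G × Set G, Inv m A E p' ∧ p.1 ⊆ p'.1 ∧
      p'.1.card = p.1.card + 1 := by
  obtain ⟨h1, h2, h3, h4, h5⟩ := hp
  obtain ⟨b, hb, hbT, hl⟩ := live_step hm he A h1 p.1
  refine ⟨(insert b p.1, p.2 ∩ {x | x + b ∈ A}), ⟨hl, fun x hx => h2 hx.1, ?_, ?_, ?_⟩,
    Finset.subset_insert _ _, Finset.card_insert_of_notMem hbT⟩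
  · intro c hc x hx
    rcases Finset.mem_insert.1 hc with hc1 | hc1
    · rw [hc1]; exact hx.2
    · exact h3 c hc1 x hx.1
  · intro c hc
    rcases Finset.mem_insert.1 hc with hc1 | hc1
    · rw [hc1]; exact h2 hb
    · exact h4 c hc1
  · intro c hc c' hc' hne
    rcases Finset.mem_insert.1 hc with hc1 | hc1
    · rcases Finset.mem_insert.1 hc' with hc2 | hc2
      · exact absurd (hc1.trans hc2.symm) hne
      · rw [hc1]; exact h3 c' hc2 b hb
    · rcases Finset.mem_insert.1 hc' with hc2 | hc2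
      · rw [add_comm, hc2]
        exact h3 c hc1 b hb
      · exact h5 c hc1 c' hc2 hne

theorem infinite_B (hm : IsMean m) (he : Erg m) (A E : Set G) (h : 1 < m (ic A) + m (ic E)) :
    ∃ B : Set G, B.Infinite ∧ B ⊆ E ∧ ∀ b ∈ B, ∀ c ∈ B, b ≠ c → b + c ∈ A := by
  classical
  let S := {p : Finset G × Set G // Inv m A E p}
  have hstep : ∀ p : S, ∃ p' : S, p.1.1 ⊆ p'.1.1 ∧ p'.1.1.card = p.1.1.card + 1 := by
    rintro ⟨p, hp⟩
    obtain ⟨p', hp', h1, h2⟩ := inv_step hm he hp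
    exact ⟨⟨p', hp'⟩, h1, h2⟩
  choose nx hnx1 hnx2 using hstep
  let s0 : S := ⟨(∅, E), live_start hm A E h, subset_rfl, by simp, by simp, by simp⟩
  let s : ℕ → S := fun n => Nat.rec s0 (fun _ p => nx p) n
  have hs : ∀ n, s (n + 1) = nx (s n) := fun n => rfl
  have hcard : ∀ n, (s n).1.1.card = n := by
    intro n
    induction n with
    | zero => rfl
    | succ n ih => rw [hs, hnx2, ih]
  have hmono : Monotone (fun n => (s n).1.1) := by
    apply monotone_nat_of_le_succ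
    intro n
    change (s n).1.1 ⊆ (s (n + 1)).1.1
    rw [hs]
    exact hnx1 _
  refine ⟨{x | ∃ n, x ∈ (s n).1.1}, ?_, ?_, ?_⟩
  · intro hfin
    have h1 : ∀ n, (s n).1.1 ⊆ hfin.toFinset := by
      intro n x hx
      rw [Set.Finite.mem_toFinset]
      exact ⟨n, hx⟩
    have h2 := Finset.card_le_card (h1 (hfin.toFinset.card + 1))
    have h3 := hcard (hfin.toFinset.card + 1)
    omega
  · rintro x ⟨n, hx⟩
    exact (s n).2.2.2.2.1 x hx
  · rintro b ⟨n, hb⟩ c ⟨k, hc⟩ hne
    exact (s (max n k)).2.2.2.2.2 b (hmono (le_max_left n k) hb) c (hmono (le_max_right n k) hc) hne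

/-- If `A` and `A/2` have large density on infinitely many cosets `e_n + V_n`, then `A`
contains `B + B` for an infinite set `B`. -/
theorem sumset_of_dense (A : Set G) {S : Set ℕ} (hS : S.Infinite) {c : ℝ} (hc : 1 < c)
    (h : ∀ n ∈ S, c ≤ av n (fun x => ic A x + ic A (x + x)) (Finsupp.single n 1)) :
    ∃ B : Set G, B.Infinite ∧ ∀ b ∈ B, ∀ c ∈ B, b + c ∈ A := by
  have hF : Bd (fun x => ic A x + ic A (x + x)) := (Bd.ic A).add ((Bd.ic A).comp _)
  obtain ⟨m, hm, he, hle⟩ := exists_level_mean hS hF h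
  have h1 : m (fun x => ic A x + ic A (x + x)) = m (ic A) + m (ic {x | x + x ∈ A}) := by
    rw [hm.add (Bd.ic A) ((Bd.ic A).comp (fun x => x + x))]
    rfl
  obtain ⟨B, hB, hBE, hBB⟩ := infinite_B hm he A {x | x + x ∈ A} (by rw [← h1]; linarith)
  refine ⟨B, hB, fun b hb c hc => ?_⟩
  by_cases hbc : b = c
  · subst hbc
    exact hBE hb
  · exact hBB b hb c hc hbc

end Pool.Agent.R294.BB
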