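import Pool.Agent.R294.Plastic3

/-! Category tools: a zero-one law for products of discrete spaces, analytic sets of parameters. -/

namespace Pool.Agent.R294.Brat

open Set Filter Topology MeasureTheory

/-! ### The zero-one law -/

section ZeroOne

variable {V : Type*} {M : V → Type*} [∀ v, TopologicalSpace (M v)]
  [∀ v, DiscreteTopology (M v)]

/-- Replacing finitely many coordinates. -/
noncomputable def tau [DecidableEq V] (F : Finset V) (o₀ o : ∀ v, M v) : ∀ v, M v :=
  fun v => if v ∈ F then o₀ v else o v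

lemma tau_continuous [DecidableEq V] (F : Finset V) (o₀ : ∀ v, M v) :
    Continuous (tau F o₀) := by
  apply continuous_pi
  intro v
  unfold tau
  by_cases h : v ∈ F
  · simp only [h, if_true]; exact continuous_const
  · simp only [h, if_false]; exact continuous_apply v

lemma tau_isOpenMap [DecidableEq V] (F : Finset V) (o₀ : ∀ v, M v) :
    IsOpenMap (tau F o₀) := by
  intro W hW
  rw [isOpen_iff_mem_nhds]
  rintro _ ⟨o, ho, rfl⟩
  have h1 : IsOpen ({p : ∀ v, M v | ∀ v ∈ F, p v = o₀ v} ∩ (tau F o) ⁻¹' W) := by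
    apply IsOpen.inter
    · have : {p : ∀ v, M v | ∀ v ∈ F, p v = o₀ v} =
        ⋂ v ∈ F, (fun p : ∀ v, M v => p v) ⁻¹' {o₀ v} := by ext; simp
      rw [this]
      apply isOpen_biInter_finset
      intro v _
      exact (isOpen_discrete _).preimage (continuous_apply v)
    · exact hW.preimage (tau_continuous F o)
  refine Filter.mem_of_superset (h1.mem_nhds ⟨?_, ?_⟩) ?_
  · intro v hv; simp [tau, hv]
  · show tau F o (tau F o₀ o) ∈ W
    have : tau F o (tau F o₀ o) = o := by
      funext v
      by_cases h : v ∈ F <;> simp [tau, h]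
    rwa [this]
  · rintro p ⟨hp1, hp2⟩
    refine ⟨tau F o p, hp2, ?_⟩
    funext v
    by_cases h : v ∈ F
    · simp [tau, h, hp1 v h]
    · simp [tau, h]

lemma zero_one {S : Set (∀ v, M v)}
    (hBP : ∃ u : Set (∀ v, M v), IsOpen u ∧ ∀ᶠ x in residual (∀ v, M v), (x ∈ S ↔ x ∈ u))
    (hinv : ∀ o o' : (∀ v, M v), {v | o v ≠ o' v}.Finite → o ∈ S → o' ∈ S) :
    (∀ᶠ x in residual (∀ v, M v), x ∈ S) ∨ (∀ᶠ x in residual (∀ v, M v), x ∉ S) := by
  classical
  obtain ⟨u, hu, hres⟩ := hBP
  rcases u.eq_empty_or_nonempty with rfl | ⟨o₀, ho₀⟩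
  · right
    filter_upwards [hres] with x hx
    rw [hx]; simp
  · left
    obtain ⟨F, U, hU1, hU2⟩ := isOpen_pi_iff.1 hu o₀ ho₀
    have hsub : ∀ o : (∀ v, M v), tau F o₀ o ∈ u := by
      intro o
      apply hU2
      intro v hv
      have hv' : v ∈ F := hv
      simp only [tau, hv', if_true]
      exact (hU1 v hv').2
    have h1 : IsMeagre {x : ∀ v, M v | ¬ (x ∈ S ↔ x ∈ u)} := by
      rw [IsMeagre]
      filter_upwards [hres] with x hx
      simpa using hx
    have h2 := h1.preimage_of_isOpenMap (tau_continuous F o₀) (tau_isOpenMap F o₀)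
    rw [IsMeagre] at h2
    filter_upwards [h2] with x hx
    have h3 : tau F o₀ x ∈ S := by
      by_contra hc
      apply hx
      show ¬ (tau F o₀ x ∈ S ↔ tau F o₀ x ∈ u)
      intro h
      exact hc (h.2 (hsub x))
    refine hinv _ _ ?_ h3
    refine F.finite_toSet.subset ?_
    intro v hv
    by_contra hvF
    apply hv
    have hvF' : v ∉ F := hvF
    simp [tau, hvF']

end ZeroOne

/-! ### Analytic sets of parameters -/

section Analytic

variable {O X : Type*} [TopologicalSpace O] [PolishSpace O] [MeasurableSpace O] [BorelSpace O]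
  [MetricSpace X] [CompleteSpace X] [SecondCountableTopology X] [MeasurableSpace X] [BorelSpace X]

/-- A set has at least `k` elements. -/
def AtLeast {X : Type*} (k : ℕ) (A : Set X) : Prop :=
  ∃ f : Fin k → X, Function.Injective f ∧ ∀ i, f i ∈ A

lemma analytic_atLeast {C : Set (O × X)} (hC : MeasurableSet C) (k : ℕ) :
    AnalyticSet {o : O | AtLeast k {x | (o, x) ∈ C}} := by
  set D : Set (O × (Fin k → X)) := {p | (∀ i j, i ≠ j → p.2 i ≠ p.2 j) ∧ ∀ i, (p.1, p.2 i) ∈ C}
    with hD
  have hDm : MeasurableSet D := by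
    have : D = (⋂ i : Fin k, ⋂ j : Fin k, ⋂ _ : i ≠ j, {p | p.2 i ≠ p.2 j}) ∩
        ⋂ i : Fin k, (fun p : O × (Fin k → X) => (p.1, p.2 i)) ⁻¹' C := by
      ext p; simp [hD]
    rw [this]
    apply MeasurableSet.inter
    · refine MeasurableSet.iInter fun i => MeasurableSet.iInter fun j =>
        MeasurableSet.iInter fun _ => ?_
      exact (measurableSet_eq_fun ((measurable_pi_apply i).comp measurable_snd)
        ((measurable_pi_apply j).comp measurable_snd)).compl
    · refine MeasurableSet.iInter fun i => ?_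
      exact (measurable_fst.prodMk ((measurable_pi_apply i).comp measurable_snd)) hC
  have h1 : {o : O | AtLeast k {x | (o, x) ∈ C}} = Prod.fst '' D := by
    ext o
    constructor
    · rintro ⟨f, hf, hfC⟩
      exact ⟨(o, f), ⟨fun i j hij h => hij (hf h), hfC⟩, rfl⟩
    · rintro ⟨⟨o', f⟩, ⟨h1, h2⟩, rfl⟩
      exact ⟨f, fun i j h => by_contra fun hij => h1 i j hij h, h2⟩
  rw [h1]
  exact hDm.analyticSet.image_of_continuous continuous_fst

lemma analytic_uncountable {C : Set (O × X)} (hC : MeasurableSet C)
    (hcl : ∀ o, IsClosed {x | (o, x) ∈ C}) :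
    AnalyticSet {o : O | ¬ {x | (o, x) ∈ C}.Countable} := by
  set D : Set (O × (ℕ → X)) := {p | (∀ n, (p.1, p.2 n) ∈ C) ∧
    ∀ n m : ℕ, ∃ k, p.2 k ≠ p.2 n ∧ dist (p.2 k) (p.2 n) < 1 / ((m:ℝ) + 1)} with hD
  have hDm : MeasurableSet D := by
    have : D = (⋂ n : ℕ, (fun p : O × (ℕ → X) => (p.1, p.2 n)) ⁻¹' C) ∩
        ⋂ n : ℕ, ⋂ m : ℕ, ⋃ k : ℕ, ({p | p.2 k ≠ p.2 n} ∩
          {p | dist (p.2 k) (p.2 n) < 1 / ((m:ℝ) + 1)}) := by
      ext p; simp [hD]
    rw [this]
    apply MeasurableSet.inter
    · refine MeasurableSet.iInter fun i => ?_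
      exact (measurable_fst.prodMk ((measurable_pi_apply i).comp measurable_snd)) hC
    · refine MeasurableSet.iInter fun n => MeasurableSet.iInter fun m =>
        MeasurableSet.iUnion fun k => MeasurableSet.inter ?_ ?_
      · exact (measurableSet_eq_fun ((measurable_pi_apply k).comp measurable_snd)
          ((measurable_pi_apply n).comp measurable_snd)).compl
      · exact measurableSet_lt (((measurable_pi_apply k).comp measurable_snd).dist
          ((measurable_pi_apply n).comp measurable_snd)) measurable_const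
  have h1 : {o : O | ¬ {x | (o, x) ∈ C}.Countable} = Prod.fst '' D := by
    ext o
    constructor
    · intro ho
      obtain ⟨P, hP1, hP2, hP3⟩ :=
        exists_perfect_nonempty_of_isClosed_of_not_countable (hcl o) ho
      have : Nonempty P := hP2.to_subtype
      obtain ⟨u, hu⟩ := TopologicalSpace.exists_dense_seq P
      refine ⟨(o, fun n => (u n : X)), ⟨fun n => hP3 (u n).2, fun n m => ?_⟩, rfl⟩
      have h2 : (0:ℝ) < 1 / ((m:ℝ) + 1) := by positivity
      obtain ⟨y, ⟨hy1, hy2⟩, hy3⟩ := preperfect_iff_nhds.1 hP1.2 (u n) (u n).2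
        (Metric.ball (u n : X) (1 / ((m:ℝ) + 1))) (Metric.ball_mem_nhds _ h2)
      rw [Metric.mem_ball] at hy1
      have h3 : 0 < dist y (u n : X) := dist_pos.2 hy3
      obtain ⟨k, hk⟩ := hu.exists_dist_lt ⟨y, hy2⟩
        (show 0 < min (dist y (u n : X)) (1 / ((m:ℝ) + 1) - dist y (u n : X)) from
          lt_min h3 (by linarith))
      rw [Subtype.dist_eq] at hk
      simp only at hk
      obtain ⟨hk1, hk2⟩ := lt_min_iff.1 hk
      refine ⟨k, ?_, ?_⟩
      · intro h
        simp only at h
        rw [h] at hk1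
        exact lt_irrefl _ hk1
      · simp only
        calc dist (u k : X) (u n : X) ≤ dist (u k : X) y + dist y (u n : X) := dist_triangle _ _ _
          _ < _ := by rw [dist_comm (u k : X) y]; linarith
    · rintro ⟨⟨o', x⟩, ⟨h2, h3⟩, rfl⟩ hcount
      simp only at h2 h3 hcount
      have h4 : Preperfect (range x) := by
        rw [preperfect_iff_nhds]
        rintro _ ⟨n, rfl⟩ U hU
        obtain ⟨e, he, hb⟩ := Metric.mem_nhds_iff.1 hU
        obtain ⟨m, hm⟩ := exists_nat_one_div_lt he
        obtain ⟨k, hk1, hk2⟩ := h3 n m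
        exact ⟨x k, ⟨hb (by rw [Metric.mem_ball]; exact hk2.trans hm), mem_range_self k⟩, hk1⟩
      have h5 := h4.perfect_closure
      have h6 : closure (range x) ⊆ {y | (o', y) ∈ C} := by
        apply (hcl o').closure_subset_iff.2
        rintro _ ⟨n, rfl⟩
        exact h2 n
      obtain ⟨g, hg1, -, hg3⟩ := h5.exists_nat_bool_injection ⟨x 0, subset_closure (mem_range_self 0)⟩
      have h7 : (range g).Countable := hcount.mono (hg1.trans h6)
      have h8 : (univ : Set (ℕ → Bool)).Countable := by
        rw [← image_univ] at h7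
        exact (Set.countable_of_injective_of_countable_image hg3.injOn h7)
      have h9 : Countable (ℕ → Bool) := Set.countable_univ_iff.1 h8
      obtain ⟨i, hi⟩ := exists_injective_nat (ℕ → Bool)
      classical
      refine Function.cantor_injective (fun S : Set ℕ => i (fun n => decide (n ∈ S))) ?_
      intro S T hST
      have h10 := hi hST
      ext n
      have h11 := congrFun h10 n
      simpa using h11
  rw [h1]
  exact hDm.analyticSet.image_of_continuous continuous_fst

lemma analytic_uncountable' {O X : Type*} [TopologicalSpace O] [PolishSpace O]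
    [MeasurableSpace O] [BorelSpace O] [TopologicalSpace X] [PolishSpace X] [MeasurableSpace X]
    [BorelSpace X] {C : Set (O × X)} (hC : MeasurableSet C)
    (hcl : ∀ o, IsClosed {x | (o, x) ∈ C}) :
    AnalyticSet {o : O | ¬ {x | (o, x) ∈ C}.Countable} := by
  let _ := TopologicalSpace.upgradeIsCompletelyMetrizable X
  exact analytic_uncountable hC hcl

lemma analytic_atLeast' {O X : Type*} [TopologicalSpace O] [PolishSpace O]
    [MeasurableSpace O] [BorelSpace O] [TopologicalSpace X] [PolishSpace X] [MeasurableSpace X]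
    [BorelSpace X] {C : Set (O × X)} (hC : MeasurableSet C) (k : ℕ) :
    AnalyticSet {o : O | AtLeast k {x | (o, x) ∈ C}} := by
  let _ := TopologicalSpace.upgradeIsCompletelyMetrizable X
  exact analytic_atLeast hC k

end Analytic

/-! ### Classification of cardinalities -/

lemma equiv_of_atLeast {X : Type*} {A B : Set X} (hA : A.Countable) (hB : B.Countable)
    (h : ∀ k, AtLeast k A ↔ AtLeast k B) : Nonempty (A ≃ B) := by
  have key : ∀ {S : Set X}, S.Finite → ∀ k, AtLeast k S ↔ k ≤ Nat.card S := by
    intro S hS k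
    have : Finite S := hS.to_subtype
    constructor
    · rintro ⟨f, hf, hfS⟩
      have h1 : Function.Injective (fun i : Fin k => (⟨f i, hfS i⟩ : S)) := by
        intro i j hij
        exact hf (congrArg Subtype.val hij)
      have := Nat.card_le_card_of_injective _ h1
      simpa using this
    · intro hk
      have e := Finite.equivFin S
      refine ⟨fun i => (e.symm (Fin.castLE hk i) : X), ?_, fun i => (e.symm _).2⟩
      intro i j hij
      exact Fin.castLE_injective hk (e.symm.injective (Subtype.ext hij))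
  have key2 : ∀ {S : Set X}, S.Infinite → ∀ k, AtLeast k S := by
    intro S hS k
    have : Infinite S := hS.to_subtype
    obtain ⟨f⟩ : Nonempty (ℕ ↪ S) := ⟨Infinite.natEmbedding S⟩
    exact ⟨fun i => (f i : X), fun i j hij => Fin.ext (f.injective (Subtype.ext hij)),
      fun i => (f i).2⟩
  by_cases hAf : A.Finite
  · have hBf : B.Finite := by
      by_contra hB'
      have h1 := key2 hB' (Nat.card A + 1)
      rw [← h, key hAf] at h1
      omega
    have h2 : Nat.card A = Nat.card B := by
      apply le_antisymm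
      · rw [← key hBf, ← h, key hAf]
      · rw [← key hAf, h, key hBf]
    have : Finite A := hAf.to_subtype
    have : Finite B := hBf.to_subtype
    exact Finite.card_eq.1 h2
  · have hBf : ¬ B.Finite := by
      intro hB'
      have h1 := key2 hAf (Nat.card B + 1)
      rw [h, key hB'] at h1
      omega
    have : Infinite A := Set.Infinite.to_subtype hAf
    have : Infinite B := Set.Infinite.to_subtype hBf
    have : Countable A := hA.to_subtype
    have : Countable B := hB.to_subtype
    exact nonempty_equiv_of_countable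

end Pool.Agent.R294.Brat
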