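import Pool.Agent.R294.Brat1

/-! Generalized Bratteli diagrams, orders and Vershik maps. -/

namespace Pool.Agent.R294.Brat

open Set Filter Topology MeasureTheory

/-- A generalized Bratteli diagram: vertices `V` with levels, edges `E` with source `s` and range
`r`, an edge going from level `n` to level `n+1`. Every level is countably infinite, every vertex is
the source of an edge, every vertex not on level `0` is the range of at least one edge and of only
finitely many edges. -/
structure Diagram where
  V : Type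
  E : Type
  lev : V → ℕ
  s : E → V
  r : E → V
  countable_V : Countable V
  countable_E : Countable E
  lev_r : ∀ e, lev (r e) = lev (s e) + 1
  infinite_lev : ∀ n, {v | lev v = n}.Infinite
  out_nonempty : ∀ v, ∃ e, s e = v
  in_nonempty : ∀ v, lev v ≠ 0 → ∃ e, r e = v
  in_finite : ∀ v, {e | r e = v}.Finite

instance (B : Diagram) : TopologicalSpace B.E := ⊥
instance (B : Diagram) : DiscreteTopology B.E := ⟨rfl⟩
instance (B : Diagram) : Countable B.E := B.countable_E
instance (B : Diagram) : MeasurableSpace B.E := ⊤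
instance (B : Diagram) : Countable B.V := B.countable_V

/-- Infinite paths starting on level `0`. -/
def IsPath (B : Diagram) (x : ℕ → B.E) : Prop :=
  B.lev (B.s (x 0)) = 0 ∧ ∀ n, B.r (x n) = B.s (x (n+1))

/-- The path space, with the topology generated by cylinders and its Borel structure (the edge set
being discrete). -/
abbrev Path (B : Diagram) : Type := {x : ℕ → B.E // IsPath B x}


/-- An order on the diagram: a linear order on every set `r⁻¹(v)`, edges with different ranges
being incomparable. -/
structure Ord (B : Diagram) where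
  le : B.E → B.E → Prop
  refl : ∀ e, le e e
  trans : ∀ e f g, le e f → le f g → le e g
  antisymm : ∀ e f, le e f → le f e → e = f
  range_eq : ∀ e f, le e f → B.r e = B.r f
  total : ∀ e f, B.r e = B.r f → le e f ∨ le f e

/-- Maximal edges. -/
def IsMax {B : Diagram} (o : Ord B) (e : B.E) : Prop := ∀ f, o.le e f → f = e
/-- Minimal edges. -/
def IsMin {B : Diagram} (o : Ord B) (e : B.E) : Prop := ∀ f, o.le f e → f = e
/-- `f` is the successor of `e`. -/
def IsSucc {B : Diagram} (o : Ord B) (e f : B.E) : Prop :=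
  o.le e f ∧ f ≠ e ∧ ∀ g, o.le e g → g ≠ e → o.le f g

/-- `y` is the image of `x` under the Vershik map: `n` is the least index with `x n` not maximal,
`y n` is the successor of `x n`, `y i = x i` for `i > n` and `y i` is minimal for `i < n`. -/
def IsVershik {B : Diagram} (o : Ord B) (x y : ℕ → B.E) : Prop :=
  ∃ n, (∀ i < n, IsMax o (x i)) ∧ ¬ IsMax o (x n) ∧ IsSucc o (x n) (y n) ∧
    (∀ i > n, y i = x i) ∧ ∀ i < n, IsMin o (y i)

variable {B : Diagram}

/-! ### Going down from a vertex -/

/-- Choice of an incoming edge at every vertex. -/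
def IsSec (c : B.V → B.E) : Prop := ∀ v, B.lev v ≠ 0 → B.r (c v) = v

/-- The parent of a vertex. -/
def par (c : B.V → B.E) (v : B.V) : B.V := B.s (c v)

lemma lev_par {c : B.V → B.E} (hc : IsSec c) (v : B.V) (hv : B.lev v ≠ 0) :
    B.lev (par c v) + 1 = B.lev v := by
  have h1 := B.lev_r (c v)
  rw [hc v hv] at h1
  exact h1.symm

lemma lev_par_iter {c : B.V → B.E} (hc : IsSec c) (v : B.V) :
    ∀ k, k ≤ B.lev v → B.lev ((par c)^[k] v) + k = B.lev v := by
  intro k
  induction k with
  | zero => intro _; simp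
  | succ k ih =>
    intro hk
    have h1 := ih (by omega)
    rw [Function.iterate_succ_apply']
    have h2 := lev_par hc ((par c)^[k] v) (by omega)
    omega

/-- The edge number `k` below the vertex `v`. -/
def dn (c : B.V → B.E) (v : B.V) (k : ℕ) : B.E := c ((par c)^[k] v)

lemma r_dn {c : B.V → B.E} (hc : IsSec c) (v : B.V) (k : ℕ) (hk : k < B.lev v) :
    B.r (dn c v k) = (par c)^[k] v := by
  apply hc
  have := lev_par_iter hc v k hk.le
  omega

lemma s_dn (c : B.V → B.E) (v : B.V) (k : ℕ) :
    B.s (dn c v k) = (par c)^[k+1] v := by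
  rw [Function.iterate_succ_apply']; rfl

/-- Replacing the part of a path below level `n`. -/
def glue (c : B.V → B.E) (n : ℕ) (x : ℕ → B.E) : ℕ → B.E :=
  fun m => if m < n then dn c (B.s (x n)) (n - 1 - m) else x m

lemma glue_ge (c : B.V → B.E) (n : ℕ) (x : ℕ → B.E) {m : ℕ} (h : n ≤ m) :
    glue c n x m = x m := by
  unfold glue; rw [if_neg (by omega)]

lemma glue_lt (c : B.V → B.E) (n : ℕ) (x : ℕ → B.E) {m : ℕ} (h : m < n) :
    glue c n x m = dn c (B.s (x n)) (n - 1 - m) := by
  unfold glue; rw [if_pos h]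

lemma glue_path {c : B.V → B.E} (hc : IsSec c) {n : ℕ} {x : ℕ → B.E}
    (hlev : B.lev (B.s (x n)) = n) (htail : ∀ m, n ≤ m → B.r (x m) = B.s (x (m+1))) :
    IsPath B (glue c n x) := by
  constructor
  · by_cases hn : n = 0
    · subst hn
      rw [glue_ge _ _ _ le_rfl]; exact hlev
    · rw [glue_lt _ _ _ (by omega), s_dn]
      have h1 := lev_par_iter hc (B.s (x n)) n (by omega)
      rw [show n - 1 - 0 + 1 = n by omega]
      omega
  · intro m
    by_cases h1 : m + 1 < n
    · rw [glue_lt _ _ _ (by omega), glue_lt _ _ _ h1, s_dn, r_dn hc _ _ (by omega),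
        show n - 1 - m = n - 1 - (m+1) + 1 by omega]
    · by_cases h2 : m + 1 = n
      · rw [glue_lt _ _ _ (by omega), glue_ge _ _ _ (by omega), r_dn hc _ _ (by omega),
          show n - 1 - m = 0 by omega, h2]
        rfl
      · rw [glue_ge _ _ _ (by omega), glue_ge _ _ _ (by omega)]
        exact htail m (by omega)

lemma glue_sec {c : B.V → B.E} (hc : IsSec c) {n : ℕ} {x : ℕ → B.E}
    (hlev : B.lev (B.s (x n)) = n) {m : ℕ} (hm : m < n) :
    glue c n x m = c (B.r (glue c n x m)) := by
  rw [glue_lt _ _ _ hm, r_dn hc _ _ (by omega)]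
  rfl

lemma glue_unique {c : B.V → B.E} {n : ℕ} {x y : ℕ → B.E} (hy : IsPath B y)
    (h1 : ∀ m, n ≤ m → y m = x m) (h2 : ∀ m < n, y m = c (B.r (y m))) : y = glue c n x := by
  have key : ∀ k, k ≤ n → B.s (y (n - k)) = (par c)^[k] (B.s (x n)) := by
    intro k
    induction k with
    | zero => intro _; rw [Nat.sub_zero, h1 n le_rfl]; rfl
    | succ k ih =>
      intro hk
      rw [Function.iterate_succ_apply', ← ih (by omega)]
      have h3 := h2 (n - (k+1)) (by omega)
      have h4 := hy.2 (n - (k+1))
      rw [show n - (k+1) + 1 = n - k by omega] at h4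
      conv_lhs => rw [h3, h4]
      rfl
  funext m
  by_cases hm : m < n
  · have := key (n - (m+1)) (by omega)
    rw [show n - (n - (m+1)) = m + 1 by omega] at this
    rw [glue_lt _ _ _ hm, h2 m hm, hy.2 m, dn, this, show n - 1 - m = n - (m+1) by omega]
  · rw [glue_ge _ _ _ (by omega)]
    exact h1 m (by omega)

lemma path_lev {x : ℕ → B.E} (hx : IsPath B x) (n : ℕ) : B.lev (B.s (x n)) = n := by
  induction n with
  | zero => exact hx.1
  | succ n ih => rw [← hx.2 n, B.lev_r, ih]

/-! ### Paths following a section -/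

/-- The infinite paths following the section `c`. -/
def Xc (c : B.V → B.E) : Set (ℕ → B.E) := {x | IsPath B x ∧ ∀ n, x n = c (B.r (x n))}

/-- Changing a section at finitely many vertices. -/
lemma exists_transfer {c c' : B.V → B.E} (hc' : IsSec c')
    (hfin : {v | c v ≠ c' v}.Finite) :
    ∃ T : (ℕ → B.E) → (ℕ → B.E), MapsTo T (Xc c) (Xc c') ∧ InjOn T (Xc c) := by
  obtain ⟨n, hn⟩ : ∃ n, ∀ v, c v ≠ c' v → B.lev v ≤ n := by
    obtain ⟨n, hn⟩ := (hfin.image B.lev).bddAbove
    exact ⟨n, fun v hv => hn (mem_image_of_mem _ hv)⟩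
  have hagree : ∀ v, n < B.lev v → c v = c' v := by
    intro v hv
    by_contra h
    have := hn v h
    omega
  refine ⟨glue c' n, ?_, ?_⟩
  · rintro x ⟨hx, hxc⟩
    have hlev := path_lev hx n
    refine ⟨glue_path hc' hlev (fun m _ => hx.2 m), fun m => ?_⟩
    by_cases hm : m < n
    · exact glue_sec hc' hlev hm
    · rw [glue_ge _ _ _ (by omega)]
      conv_lhs => rw [hxc m]
      apply hagree
      rw [B.lev_r, path_lev hx]
      omega
  · rintro x ⟨hx, hxc⟩ y ⟨hy, hyc⟩ hxy
    have h1 : ∀ m, n ≤ m → x m = y m := by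
      intro m hm
      have := congrFun hxy m
      rwa [glue_ge _ _ _ hm, glue_ge _ _ _ hm] at this
    rw [glue_unique hx (fun m _ => rfl) (fun m _ => hxc m),
      glue_unique hy (fun m _ => rfl) (fun m _ => hyc m)]
    funext m
    by_cases hm : m < n
    · rw [glue_lt c n x hm, glue_lt c n y hm, h1 n le_rfl]
    · rw [glue_ge _ _ _ (by omega), glue_ge _ _ _ (by omega)]
      exact h1 m (by omega)

/-! ### Orders -/

/-- The reversed order. -/
def Ord.rev (o : Ord B) : Ord B where
  le e f := o.le f e
  refl := o.refl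
  trans e f g h1 h2 := o.trans g f e h2 h1
  antisymm e f h1 h2 := o.antisymm e f h2 h1
  range_eq e f h := (o.range_eq f e h).symm
  total e f h := (o.total e f h).symm

lemma isSucc_rev {o : Ord B} {e f : B.E} (h : IsSucc o e f) : IsSucc o.rev f e := by
  obtain ⟨h1, h2, h3⟩ := h
  refine ⟨h1, h2.symm, fun g hg hgf => ?_⟩
  change o.le g f at hg
  change o.le g e
  rcases o.total e g ((o.range_eq _ _ h1).trans (o.range_eq _ _ hg).symm) with h4 | h4
  · by_cases h5 : g = e
    · rw [h5]; exact o.refl e
    · exact absurd (o.antisymm _ _ hg (h3 g h4 h5)) hgf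
  · exact h4

lemma IsSucc.not_isMin {o : Ord B} {e f : B.E} (h : IsSucc o e f) : ¬ IsMin o f := fun h' =>
  h.2.1 (h' e h.1).symm

lemma IsSucc.not_isMax {o : Ord B} {e f : B.E} (h : IsSucc o e f) : ¬ IsMax o e := fun h' =>
  h.2.1 (h' f h.1)

lemma IsSucc.unique {o : Ord B} {e f f' : B.E} (h : IsSucc o e f) (h' : IsSucc o e f') :
    f = f' := o.antisymm _ _ (h.2.2 f' h'.1 h'.2.1) (h'.2.2 f h.1 h.2.1)

lemma isVershik_rev {o : Ord B} {x y : ℕ → B.E} (h : IsVershik o x y) :
    IsVershik o.rev y x := by
  obtain ⟨n, h1, h2, h3, h4, h5⟩ := h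
  exact ⟨n, h5, h3.not_isMin, isSucc_rev h3, fun i hi => (h4 i hi).symm, h1⟩

/-- Sections describing the maximal and minimal edges of an order. -/
structure IsMM (o : Ord B) (cmax cmin : B.V → B.E) : Prop where
  sec_max : IsSec cmax
  sec_min : IsSec cmin
  max_iff : ∀ e, IsMax o e ↔ e = cmax (B.r e)
  min_iff : ∀ e, IsMin o e ↔ e = cmin (B.r e)

lemma IsMM.rev {o : Ord B} {cmax cmin : B.V → B.E} (h : IsMM o cmax cmin) :
    IsMM o.rev cmin cmax :=
  ⟨h.sec_min, h.sec_max, h.min_iff, h.max_iff⟩

lemma exists_succ (o : Ord B) {e : B.E} (he : ¬ IsMax o e) : ∃ f, IsSucc o e f := by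
  classical
  set S : Set B.E := {g | o.le e g ∧ g ≠ e} with hS
  have hSf : S.Finite := (B.in_finite (B.r e)).subset fun g hg => (o.range_eq _ _ hg.1).symm
  have hSne : S.Nonempty := by
    unfold IsMax at he
    push Not at he
    exact he
  -- a minimal element with respect to the number of smaller elements
  obtain ⟨f, hf, hmin⟩ := Set.exists_min_image S (fun g => {h | h ∈ S ∧ o.le h g}.ncard) hSf hSne
  refine ⟨f, hf.1, hf.2, fun g hg hge => ?_⟩
  rcases o.total f g ((o.range_eq _ _ hf.1).symm.trans (o.range_eq _ _ hg)) with h1 | h1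
  · exact h1
  · by_cases hgf : g = f
    · rw [hgf]; exact o.refl f
    · exfalso
      have h2 := hmin g ⟨hg, hge⟩
      have h3 : {h | h ∈ S ∧ o.le h g}.ncard < {h | h ∈ S ∧ o.le h f}.ncard := by
        apply Set.ncard_lt_ncard _ (hSf.subset fun h hh => hh.1)
        refine ⟨fun h hh => ⟨hh.1, o.trans _ _ _ hh.2 h1⟩, fun hsub => ?_⟩
        have h4 := hsub (show f ∈ {h | h ∈ S ∧ o.le h f} from ⟨hf, o.refl f⟩)
        exact hgf (o.antisymm _ _ h1 h4.2)
      omega

open Classical in
/-- The successor of an edge. -/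
noncomputable def succE (o : Ord B) (e : B.E) : B.E :=
  if h : IsMax o e then e else Classical.choose (exists_succ o h)

lemma succE_spec (o : Ord B) {e : B.E} (h : ¬ IsMax o e) : IsSucc o e (succE o e) := by
  unfold succE
  rw [dif_neg h]
  exact Classical.choose_spec (exists_succ o h)

/-- The candidate for the Vershik image when the first non-maximal index is `n`. -/
noncomputable def Phi (o : Ord B) (cmin : B.V → B.E) (n : ℕ) (x : ℕ → B.E) : ℕ → B.E :=
  glue cmin n (Function.update x n (succE o (x n)))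

lemma Phi_path {o : Ord B} {cmax cmin : B.V → B.E} (hmm : IsMM o cmax cmin) {x : ℕ → B.E}
    (hx : IsPath B x) {n : ℕ} (h : ¬ IsMax o (x n)) : IsPath B (Phi o cmin n x) := by
  have h1 := succE_spec o h
  have hr : B.r (succE o (x n)) = B.r (x n) := (o.range_eq _ _ h1.1).symm
  apply glue_path hmm.sec_min
  · rw [Function.update_self]
    have h2 := B.lev_r (succE o (x n))
    rw [hr, B.lev_r, path_lev hx] at h2
    omega
  · intro m hm
    by_cases hmn : m = n
    · subst hmn
      rw [Function.update_self, Function.update_of_ne (by omega), hr]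
      exact hx.2 m
    · rw [Function.update_of_ne hmn, Function.update_of_ne (by omega)]
      exact hx.2 m

lemma Phi_lev {o : Ord B} {x : ℕ → B.E} (hx : IsPath B x) {n : ℕ} (h : ¬ IsMax o (x n)) :
    B.lev (B.s (Function.update x n (succE o (x n)) n)) = n := by
  rw [Function.update_self]
  have h1 := succE_spec o h
  have hr : B.r (succE o (x n)) = B.r (x n) := (o.range_eq _ _ h1.1).symm
  have h2 := B.lev_r (succE o (x n))
  rw [hr, B.lev_r, path_lev hx] at h2
  omega

lemma Phi_isVershik {o : Ord B} {cmax cmin : B.V → B.E} (hmm : IsMM o cmax cmin) {x : ℕ → B.E}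
    (hx : IsPath B x) {n : ℕ} (h : ¬ IsMax o (x n)) (hn : ∀ i < n, IsMax o (x i)) :
    IsVershik o x (Phi o cmin n x) := by
  refine ⟨n, hn, h, ?_, ?_, ?_⟩
  · unfold Phi
    rw [glue_ge _ _ _ le_rfl, Function.update_self]
    exact succE_spec o h
  · intro i hi
    unfold Phi
    rw [glue_ge _ _ _ (by omega), Function.update_of_ne (by omega)]
  · intro i hi
    rw [hmm.min_iff]
    exact glue_sec hmm.sec_min (Phi_lev hx h) hi

lemma isVershik_unique {o : Ord B} {cmax cmin : B.V → B.E} (hmm : IsMM o cmax cmin)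
    {x y : ℕ → B.E} (hy : IsPath B y) (h : IsVershik o x y)
    {n : ℕ} (h' : ¬ IsMax o (x n)) (hn : ∀ i < n, IsMax o (x i)) :
    y = Phi o cmin n x := by
  obtain ⟨m, h1, h2, h3, h4, h5⟩ := h
  have hmn : m = n := by
    rcases lt_trichotomy m n with hlt | heq | hgt
    · exact absurd (hn m hlt) h2
    · exact heq
    · exact absurd (h1 n hgt) h'
  subst hmn
  apply glue_unique hy
  · intro i hi
    by_cases him : i = m
    · subst him
      rw [Function.update_self]
      exact h3.unique (succE_spec o h')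
    · rw [Function.update_of_ne him]
      exact h4 i (by omega)
  · intro i hi
    exact (hmm.min_iff _).1 (h5 i hi)

/-- The first non-maximal index. -/
lemma exists_first {o : Ord B} {x : ℕ → B.E} (h : ¬ ∀ n, IsMax o (x n)) :
    ∃ n, ¬ IsMax o (x n) ∧ ∀ i < n, IsMax o (x i) := by
  classical
  push Not at h
  exact ⟨Nat.find h, Nat.find_spec h, fun i hi => by
    have := Nat.find_min h hi
    exact not_not.1 this⟩

end Pool.Agent.R294.Brat
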