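import Pool.Agent.R294.Brat2

/-! The generic order, and the Borel extension of its Vershik map. -/

namespace Pool.Agent.R294.Brat

open Set Filter Topology MeasureTheory

variable {B : Diagram}

instance polish_seq : PolishSpace (ℕ → B.E) :=
  { (inferInstance : SecondCountableTopology (ℕ → B.E)),
    (inferInstance : TopologicalSpace.IsCompletelyMetrizableSpace (ℕ → B.E)) with }

/-! ### The Borel extension -/

lemma cont_coord (n : ℕ) : Continuous (fun x : ℕ → B.E => x n) := continuous_apply n

lemma isClosed_isPath : IsClosed {x : ℕ → B.E | IsPath B x} := by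
  have : {x : ℕ → B.E | IsPath B x} = {x | B.lev (B.s (x 0)) = 0} ∩
      ⋂ n, {x | B.r (x n) = B.s (x (n+1))} := by ext; simp [IsPath]
  rw [this]
  apply IsClosed.inter
  · exact (isClosed_discrete {e : B.E | B.lev (B.s e) = 0}).preimage (cont_coord 0)
  · refine isClosed_iInter fun n => ?_
    exact (isClosed_discrete {p : B.E × B.E | B.r p.1 = B.s p.2}).preimage
      ((cont_coord n).prodMk (cont_coord (n+1)))

instance : PolishSpace (Path B) := isClosed_isPath.polishSpace

/-- The infinite maximal paths. -/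
def Xmax (o : Ord B) : Set (Path B) := {x | ∀ n, IsMax o (x.1 n)}

/-- The infinite minimal paths. -/
def Xmin (o : Ord B) : Set (Path B) := {x | ∀ n, IsMin o (x.1 n)}

lemma continuous_coord (n : ℕ) : Continuous (fun x : Path B => x.1 n) :=
  (continuous_apply n).comp continuous_subtype_val

lemma isClosed_Xmax (o : Ord B) : IsClosed (Xmax o) := by
  have : Xmax o = ⋂ n, (fun x : Path B => x.1 n) ⁻¹' {e | IsMax o e} := by
    ext; simp [Xmax]
  rw [this]
  exact isClosed_iInter fun n => (isClosed_discrete _).preimage (continuous_coord n)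

/-- Measurability of a map given by continuous pieces. -/
lemma measurable_Phi {o : Ord B} {cmin : B.V → B.E} (n : ℕ)
    (e : B.E) {T : Set (Path B)} (hT : MeasurableSet T) {φ : Path B → Path B}
    (hφ : ∀ x : Path B, ¬ IsMax o (x.1 n) → (∀ i < n, IsMax o (x.1 i)) →
      (φ x).1 = Phi o cmin n x.1) :
    MeasurableSet {x : Path B | x.1 n = e ∧ ¬ IsMax o (x.1 n) ∧ (∀ i < n, IsMax o (x.1 i)) ∧
      φ x ∈ T} := by
  obtain ⟨T', hT', rfl⟩ : ∃ T' : Set (ℕ → B.E), MeasurableSet T' ∧
      (Subtype.val : Path B → (ℕ → B.E)) ⁻¹' T' = T := hT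
  -- the explicit continuous function
  set Ψ : Path B → (ℕ → B.E) := fun x m =>
    if m < n then dn cmin (B.s (succE o e)) (n - 1 - m) else
      if m = n then succE o e else x.1 m with hΨ
  have hΨc : Continuous Ψ := by
    apply continuous_pi
    intro m
    simp only [hΨ]
    by_cases h1 : m < n
    · simp only [h1, if_true]; exact continuous_const
    · by_cases h2 : m = n
      · simp only [h2, lt_irrefl, if_false, if_true]; exact continuous_const
      · simp only [h1, h2, if_false]; exact continuous_coord m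
  have hset : {x : Path B | x.1 n = e ∧ ¬ IsMax o (x.1 n) ∧ (∀ i < n, IsMax o (x.1 i)) ∧
      φ x ∈ (Subtype.val : Path B → (ℕ → B.E)) ⁻¹' T'} =
      ((fun x : Path B => x.1 n) ⁻¹' {f | f = e ∧ ¬ IsMax o f}) ∩
      (⋂ i : ℕ, ⋂ _ : i < n, (fun x : Path B => x.1 i) ⁻¹' {f | IsMax o f}) ∩ Ψ ⁻¹' T' := by
    ext x
    simp only [mem_setOf_eq, mem_inter_iff, mem_preimage, mem_iInter]
    have key : x.1 n = e → ¬ IsMax o (x.1 n) → (∀ i < n, IsMax o (x.1 i)) →
        (φ x).1 = Ψ x := by
      intro h1 h2 h3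
      rw [hφ x h2 h3]
      funext m
      simp only [hΨ, Phi]
      by_cases hm : m < n
      · rw [glue_lt _ _ _ hm, if_pos hm, Function.update_self, h1]
      · rw [glue_ge _ _ _ (by omega), if_neg hm]
        by_cases hmn : m = n
        · subst hmn; rw [Function.update_self, if_pos rfl, h1]
        · rw [Function.update_of_ne hmn, if_neg hmn]
    constructor
    · rintro ⟨h1, h2, h3, h4⟩
      exact ⟨⟨⟨h1, h2⟩, h3⟩, by rw [← key h1 h2 h3]; exact h4⟩
    · rintro ⟨⟨⟨h1, h2⟩, h3⟩, h4⟩
      exact ⟨h1, h2, h3, by rw [← key h1 h2 h3] at h4; exact h4⟩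
  rw [hset]
  refine MeasurableSet.inter (MeasurableSet.inter ?_ ?_) (hΨc.measurable hT')
  · exact ((isClosed_discrete _).preimage (continuous_coord n)).measurableSet
  · refine MeasurableSet.iInter fun i => MeasurableSet.iInter fun _ => ?_
    exact ((isClosed_discrete _).preimage (continuous_coord i)).measurableSet

/-- If the sets of maximal and of minimal paths have the same cardinality, then the Vershik map
extends to a Borel automorphism. -/
theorem exists_borel_extension {o : Ord B} {cmax cmin : B.V → B.E} (hmm : IsMM o cmax cmin)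
    (he : Nonempty (Xmax o ≃ Xmin o)) :
    ∃ φ : Path B ≃ᵐ Path B, ∀ x : Path B, (¬ ∀ n, IsMax o (x.1 n)) →
      IsVershik o x.1 (φ x).1 := by
  classical
  obtain ⟨e⟩ := he
  have hstd1 : StandardBorelSpace (Xmax o) := (isClosed_Xmax o).measurableSet.standardBorel
  have hstd2 : StandardBorelSpace (Xmin o) := by
    have : IsClosed (Xmin o) := isClosed_Xmax o.rev
    exact this.measurableSet.standardBorel
  let e' : Xmax o ≃ᵐ Xmin o := PolishSpace.Equiv.measurableEquiv e
  -- the Vershik map
  have hV : ∀ x : Path B, x ∉ Xmax o → ∃ y : Path B, IsVershik o x.1 y.1 := by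
    intro x hx
    obtain ⟨n, h1, h2⟩ := exists_first (o := o) (x := x.1) hx
    exact ⟨⟨Phi o cmin n x.1, Phi_path hmm x.2 h1⟩, Phi_isVershik hmm x.2 h1 h2⟩
  choose! vm hvm using hV
  let φ : Path B → Path B := fun x => if h : x ∈ Xmax o then (e' ⟨x, h⟩ : Path B) else vm x
  have hφ1 : ∀ x (h : x ∈ Xmax o), φ x = (e' ⟨x, h⟩ : Path B) := fun x h => dif_pos h
  have hφ2 : ∀ x, x ∉ Xmax o → φ x = vm x := fun x h => dif_neg h
  have hφV : ∀ x, x ∉ Xmax o → IsVershik o x.1 (φ x).1 := by
    intro x hx; rw [hφ2 x hx]; exact hvm x hx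
  have huniq : ∀ {o : Ord B} {cmax cmin : B.V → B.E}, IsMM o cmax cmin → ∀ {x y y' : Path B},
      IsVershik o x.1 y.1 → IsVershik o x.1 y'.1 → y = y' := by
    intro o cmax cmin hmm x y y' h h'
    obtain ⟨n, h1, h2, -⟩ := id h
    exact Subtype.ext ((isVershik_unique hmm y.2 h h2 h1).trans
      (isVershik_unique hmm y'.2 h' h2 h1).symm)
  have hnotmin : ∀ x, x ∉ Xmax o → φ x ∉ Xmin o := by
    intro x hx hmin
    obtain ⟨n, h1, h2, h3, -⟩ := hφV x hx
    exact h3.not_isMin (hmin n)
  have hinj : Function.Injective φ := by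
    intro x y hxy
    by_cases hx : x ∈ Xmax o <;> by_cases hy : y ∈ Xmax o
    · rw [hφ1 x hx, hφ1 y hy] at hxy
      exact congrArg Subtype.val (e'.injective (Subtype.ext hxy))
    · exfalso
      apply hnotmin y hy
      rw [← hxy, hφ1 x hx]; exact (e' _).2
    · exfalso
      apply hnotmin x hx
      rw [hxy, hφ1 y hy]; exact (e' _).2
    · have h1 := isVershik_rev (hφV x hx)
      have h2 := isVershik_rev (hφV y hy)
      rw [hxy] at h1
      exact huniq hmm.rev h1 h2
  have hsurj : Function.Surjective φ := by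
    intro y
    by_cases hy : y ∈ Xmin o
    · refine ⟨(e'.symm ⟨y, hy⟩ : Path B), ?_⟩
      rw [hφ1 _ (e'.symm ⟨y, hy⟩).2]
      simp
    · have hy' : ¬ ∀ n, IsMax o.rev (y.1 n) := hy
      obtain ⟨n, h1, h2⟩ := exists_first hy'
      have h3 := Phi_isVershik hmm.rev y.2 h1 h2
      have h4 : IsVershik o (Phi o.rev cmax n y.1) y.1 := isVershik_rev h3
      let x : Path B := ⟨Phi o.rev cmax n y.1, Phi_path hmm.rev y.2 h1⟩
      have hx : x ∉ Xmax o := by
        intro hmax
        obtain ⟨m, -, h5, -⟩ := h4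
        exact h5 (hmax m)
      exact ⟨x, huniq hmm (hφV x hx) h4⟩
  have hmeas : Measurable φ := by
    intro T hT
    have hset : φ ⁻¹' T = (Subtype.val '' ((fun x => (e' x : Path B)) ⁻¹' T)) ∪
        ⋃ n : ℕ, ⋃ a : B.E, {x : Path B | x.1 n = a ∧ ¬ IsMax o (x.1 n) ∧
          (∀ i < n, IsMax o (x.1 i)) ∧ φ x ∈ T} := by
      ext x
      simp only [mem_preimage, mem_union, mem_image, mem_iUnion, mem_setOf_eq]
      constructor
      · intro hx
        by_cases h : x ∈ Xmax o
        · left
          exact ⟨⟨x, h⟩, by rw [← hφ1 x h]; exact hx, rfl⟩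
        · right
          obtain ⟨n, h1, h2⟩ := exists_first (o := o) (x := x.1) h
          exact ⟨n, x.1 n, rfl, h1, h2, hx⟩
      · rintro (⟨⟨y, hy⟩, h1, rfl⟩ | ⟨n, a, -, -, -, h1⟩)
        · rw [hφ1 y hy]; exact h1
        · exact h1
    rw [hset]
    apply MeasurableSet.union
    · apply MeasurableSet.subtype_image (isClosed_Xmax o).measurableSet
      exact (measurable_subtype_coe.comp e'.measurable) hT
    · refine MeasurableSet.iUnion fun n => MeasurableSet.iUnion fun a => ?_
      apply measurable_Phi (o := o) (cmin := cmin) n a hT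
      intro x h1 h2
      have hx : x ∉ Xmax o := fun hmax => h1 (hmax n)
      exact isVershik_unique hmm (φ x).2 (hφV x hx) h1 h2
  have hemb : MeasurableEmbedding φ := hmeas.measurableEmbedding hinj
  let E : Path B ≃ Path B := Equiv.ofBijective φ ⟨hinj, hsurj⟩
  refine ⟨⟨E, hmeas, ?_⟩, fun x hx => hφV x hx⟩
  intro T hT
  have : E.symm ⁻¹' T = φ '' T := by
    ext y
    constructor
    · intro hy
      exact ⟨E.symm y, hy, E.apply_symm_apply y⟩
    · rintro ⟨x, hx, rfl⟩
      show E.symm (E x) ∈ T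
      rwa [E.symm_apply_apply]
  rw [this]
  exact hemb.measurableSet_image.2 hT

end Pool.Agent.R294.Brat
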