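import Pool.Agent.R294.Brat3

/-! The space of choices of maximal and minimal edges, and the generic choice. -/

namespace Pool.Agent.R294.Brat

open Set Filter Topology MeasureTheory

variable {B : Diagram}

/-- Choices at a vertex: a maximal and a minimal edge, different if possible. -/
def Ch (B : Diagram) (v : B.V) : Type :=
  {p : B.E × B.E // B.lev v ≠ 0 → B.r p.1 = v ∧ B.r p.2 = v ∧
    (p.1 = p.2 → ∀ e f, B.r e = v → B.r f = v → e = f)}

instance (v : B.V) : TopologicalSpace (Ch B v) := ⊥
instance (v : B.V) : DiscreteTopology (Ch B v) := ⟨rfl⟩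
instance (v : B.V) : Countable (Ch B v) := by unfold Ch; infer_instance
instance (v : B.V) : MeasurableSpace (Ch B v) := ⊤

instance (v : B.V) : Nonempty (Ch B v) := by
  by_cases hv : B.lev v = 0
  · obtain ⟨e, -⟩ := B.out_nonempty v
    exact ⟨⟨(e, e), fun h => absurd hv h⟩⟩
  · obtain ⟨e, he⟩ := B.in_nonempty v hv
    by_cases h : ∃ f, B.r f = v ∧ f ≠ e
    · obtain ⟨f, hf, hfe⟩ := h
      exact ⟨⟨(e, f), fun _ => ⟨he, hf, fun h' => absurd h'.symm hfe⟩⟩⟩
    · push Not at h
      exact ⟨⟨(e, e), fun _ => ⟨he, he, fun _ a b ha hb => (h a ha).trans (h b hb).symm⟩⟩⟩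

/-- The space of choices. -/
abbrev Om (B : Diagram) : Type := ∀ v : B.V, Ch B v

instance polish_Om : PolishSpace (Om B) :=
  { (inferInstance : SecondCountableTopology (Om B)),
    (inferInstance : TopologicalSpace.IsCompletelyMetrizableSpace (Om B)) with }

instance baire_Om : BaireSpace (Om B) := by
  let _ := TopologicalSpace.upgradeIsCompletelyMetrizable (Om B)
  infer_instance

/-- The section of maximal edges. -/
def c1 (o : Om B) (v : B.V) : B.E := (o v).1.1
/-- The section of minimal edges. -/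
def c2 (o : Om B) (v : B.V) : B.E := (o v).1.2

lemma isSec_c1 (o : Om B) : IsSec (c1 o) := fun v hv => ((o v).2 hv).1
lemma isSec_c2 (o : Om B) : IsSec (c2 o) := fun v hv => ((o v).2 hv).2.1

/-- Exchanging the maximal and the minimal edge at a vertex. -/
def flipv (v : B.V) (p : Ch B v) : Ch B v := ⟨(p.1.2, p.1.1), fun hv =>
  ⟨(p.2 hv).2.1, (p.2 hv).1, fun h => (p.2 hv).2.2 h.symm⟩⟩

/-- Exchanging maximal and minimal edges. -/
def flip (o : Om B) : Om B := fun v => flipv v (o v)

lemma flip_flip (o : Om B) : flip (flip o) = o := rfl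
lemma c1_flip (o : Om B) : c1 (flip o) = c2 o := rfl

lemma continuous_flip : Continuous (flip : Om B → Om B) := by
  apply continuous_pi
  intro v
  have h1 : Continuous (flipv v : Ch B v → Ch B v) := continuous_of_discreteTopology
  exact h1.comp (continuous_apply v)

/-- The flip as a homeomorphism. -/
def flipH : Om B ≃ₜ Om B where
  toFun := flip
  invFun := flip
  left_inv := flip_flip
  right_inv := flip_flip
  continuous_toFun := continuous_flip
  continuous_invFun := continuous_flip

/-- The pairs of a choice and an infinite maximal path for it. -/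
def Cset (B : Diagram) : Set (Om B × (ℕ → B.E)) := {p | p.2 ∈ Xc (c1 p.1)}

lemma isClosed_Cset : IsClosed (Cset B) := by
  have : Cset B = (Prod.snd ⁻¹' {x : ℕ → B.E | IsPath B x}) ∩
      ⋂ n : ℕ, ⋂ e : B.E, ({p : Om B × (ℕ → B.E) | p.2 n = e ∧ c1 p.1 (B.r e) ≠ e})ᶜ := by
    ext p
    simp only [Cset, Xc, mem_setOf_eq, mem_inter_iff, mem_preimage, mem_iInter, mem_compl_iff,
      not_and, not_not]
    constructor
    · rintro ⟨h1, h2⟩
      refine ⟨h1, fun n e he => ?_⟩
      rw [← he]; exact (h2 n).symm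
    · rintro ⟨h1, h2⟩
      exact ⟨h1, fun n => (h2 n _ rfl).symm⟩
  rw [this]
  apply IsClosed.inter
  · exact isClosed_isPath.preimage continuous_snd
  · refine isClosed_iInter fun n => isClosed_iInter fun e => ?_
    rw [isClosed_compl_iff]
    apply IsOpen.inter
    · exact (isOpen_discrete {f : B.E | f = e}).preimage ((cont_coord n).comp continuous_snd)
    · have h1 : Continuous (fun p : Om B × (ℕ → B.E) => p.1 (B.r e)) :=
        (continuous_apply (B.r e)).comp continuous_fst
      exact (isOpen_discrete {q : Ch B (B.r e) | q.1.1 ≠ e}).preimage h1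

lemma closed_section (o : Om B) : IsClosed {x : ℕ → B.E | (o, x) ∈ Cset B} :=
  isClosed_Cset.preimage (Continuous.prodMk_right o)

/-- Generic choices have the same kinds of cardinalities. -/
lemma generic_aux (B : Diagram) (S : Set (Om B)) (hA : AnalyticSet S)
    (hinv : ∀ o o' : Om B, {v | o v ≠ o' v}.Finite → o ∈ S → o' ∈ S) :
    ∀ᶠ o in residual (Om B), (o ∈ S ↔ flip o ∈ S) := by
  have key : ∀ {T : Set (Om B)}, (∀ᶠ o in residual (Om B), o ∈ T) →
      ∀ᶠ o in residual (Om B), flip o ∈ T := by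
    intro T hT
    have h1 : IsMeagre {o : Om B | o ∉ T} := by
      rw [IsMeagre]
      filter_upwards [hT] with x hx
      simpa using hx
    have h2 := h1.preimage_of_isOpenMap (f := flip) continuous_flip flipH.isOpenMap
    rw [IsMeagre] at h2
    filter_upwards [h2] with x hx
    by_contra hc
    exact hx hc
  rcases zero_one (Pool.Agent.R294.Plastic.analytic_baire hA) hinv with h | h
  · filter_upwards [h, key h] with o h1 h2
    exact ⟨fun _ => h2, fun _ => h1⟩
  · filter_upwards [h, key (T := Sᶜ) h] with o h1 h2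
    exact ⟨fun h3 => absurd h3 h1, fun h3 => absurd h3 h2⟩

lemma inv_aux {o o' : Om B} (h : {v | o v ≠ o' v}.Finite) :
    ∃ T : (ℕ → B.E) → (ℕ → B.E), MapsTo T (Xc (c1 o)) (Xc (c1 o')) ∧ InjOn T (Xc (c1 o)) := by
  apply exists_transfer (isSec_c1 o')
  refine h.subset fun v hv => ?_
  intro h'
  apply hv
  unfold c1
  rw [h']

/-- There is a choice for which the sets of infinite maximal and minimal paths have the same
cardinality. -/
lemma exists_generic (B : Diagram) : ∃ o : Om B, Nonempty (Xc (c1 o) ≃ Xc (c2 o)) := by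
  let _ : MeasurableSpace (Om B) := borel _
  have : BorelSpace (Om B) := ⟨rfl⟩
  let _ : MeasurableSpace (ℕ → B.E) := borel _
  have : BorelSpace (ℕ → B.E) := ⟨rfl⟩
  have hCm : MeasurableSet (Cset B) := isClosed_Cset.measurableSet
  have h1 : ∀ k : ℕ, ∀ᶠ o in residual (Om B), (AtLeast k (Xc (c1 o)) ↔
      AtLeast k (Xc (c1 (flip o)))) := by
    intro k
    refine generic_aux B {o | AtLeast k (Xc (c1 o))} (analytic_atLeast' hCm k) ?_
    rintro o o' h ⟨f, hf, hfX⟩
    obtain ⟨T, hT1, hT2⟩ := inv_aux h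
    exact ⟨fun i => T (f i), fun i j hij => hf (hT2 (hfX i) (hfX j) hij), fun i => hT1 (hfX i)⟩
  have h2 : ∀ᶠ o in residual (Om B), ((¬ (Xc (c1 o)).Countable) ↔
      (¬ (Xc (c1 (flip o))).Countable)) := by
    refine generic_aux B {o | ¬ (Xc (c1 o)).Countable}
      (analytic_uncountable' hCm closed_section) ?_
    rintro o o' h ho hc
    apply ho
    obtain ⟨T, hT1, hT2⟩ := inv_aux h
    exact Set.countable_of_injective_of_countable_image hT2 (hc.mono hT1.image_subset)
  have h3 := (eventually_countable_forall.2 h1).and h2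
  obtain ⟨o, ho1, ho2⟩ := (dense_of_mem_residual h3).nonempty
  refine ⟨o, ?_⟩
  rw [← c1_flip]
  by_cases hc : (Xc (c1 o)).Countable
  · have hc' : (Xc (c1 (flip o))).Countable := by
      by_contra hn
      exact (ho2.2 hn) hc
    exact equiv_of_atLeast hc hc' ho1
  · have hc' : ¬ (Xc (c1 (flip o))).Countable := ho2.1 hc
    have cl : ∀ o : Om B, IsClosed (Xc (c1 o)) := closed_section
    have : StandardBorelSpace (Xc (c1 o)) := (cl o).measurableSet.standardBorel
    have : StandardBorelSpace (Xc (c1 (flip o))) := (cl (flip o)).measurableSet.standardBorel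
    exact ⟨(PolishSpace.measurableEquivOfNotCountable (by rwa [countable_coe_iff])
      (by rwa [countable_coe_iff])).toEquiv⟩

/-! ### The order of a choice -/

/-- Keys of edges. -/
noncomputable def key (ι : B.E → ℕ) (o : Om B) (e : B.E) : ℕ∞ :=
  open Classical in
  if e = c2 o (B.r e) then 0 else if e = c1 o (B.r e) then ⊤ else ((ι e + 1 : ℕ) : ℕ∞)

lemma coe_ne_zero' (n : ℕ) : ((n + 1 : ℕ) : ℕ∞) ≠ 0 := by
  intro h
  have : n + 1 = 0 := by exact_mod_cast h
  omega

lemma lev_r_ne (e : B.E) : B.lev (B.r e) ≠ 0 := by rw [B.lev_r]; omega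

lemma key_inj {ι : B.E → ℕ} (hι : Function.Injective ι) (o : Om B) {e f : B.E}
    (hr : B.r e = B.r f) (h : key ι o e = key ι o f) : e = f := by
  unfold key at h
  rw [← hr] at h
  by_cases h1 : e = c2 o (B.r e) <;> by_cases h2 : f = c2 o (B.r e)
  · rw [h1, h2]
  · rw [if_pos h1, if_neg h2] at h
    split_ifs at h
    · exact absurd h ENat.zero_ne_top
    · exact absurd h.symm (coe_ne_zero' _)
  · rw [if_neg h1, if_pos h2] at h
    split_ifs at h
    · exact absurd h.symm ENat.zero_ne_top
    · exact absurd h (coe_ne_zero' _)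
  · rw [if_neg h1, if_neg h2] at h
    by_cases h3 : e = c1 o (B.r e) <;> by_cases h4 : f = c1 o (B.r e)
    · rw [h3, h4]
    · rw [if_pos h3, if_neg h4] at h
      exact absurd h.symm (ENat.coe_ne_top _)
    · rw [if_neg h3, if_pos h4] at h
      exact absurd h (ENat.coe_ne_top _)
    · rw [if_neg h3, if_neg h4] at h
      have : ι e + 1 = ι f + 1 := by exact_mod_cast h
      exact hι (by omega)

/-- The order of a choice. -/
noncomputable def ordOf {ι : B.E → ℕ} (hι : Function.Injective ι) (o : Om B) : Ord B where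
  le e f := B.r e = B.r f ∧ key ι o e ≤ key ι o f
  refl e := ⟨rfl, le_rfl⟩
  trans e f g h1 h2 := ⟨h1.1.trans h2.1, h1.2.trans h2.2⟩
  antisymm e f h1 h2 := key_inj hι o h1.1 (le_antisymm h1.2 h2.2)
  range_eq e f h := h.1
  total e f h := by
    rcases le_total (key ι o e) (key ι o f) with h1 | h1
    · exact Or.inl ⟨h, h1⟩
    · exact Or.inr ⟨h.symm, h1⟩

lemma isMM_ordOf {ι : B.E → ℕ} (hι : Function.Injective ι) (o : Om B) :
    IsMM (ordOf hι o) (c1 o) (c2 o) := by
  have hr1 : ∀ e : B.E, B.r (c1 o (B.r e)) = B.r e := fun e => isSec_c1 o _ (lev_r_ne e)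
  have hr2 : ∀ e : B.E, B.r (c2 o (B.r e)) = B.r e := fun e => isSec_c2 o _ (lev_r_ne e)
  refine ⟨isSec_c1 o, isSec_c2 o, fun e => ?_, fun e => ?_⟩
  · by_cases heq : c1 o (B.r e) = c2 o (B.r e)
    · -- only one incoming edge
      have hsub := ((o (B.r e)).2 (lev_r_ne e)).2.2 heq
      constructor
      · intro _; exact hsub _ _ rfl (hr1 e)
      · intro _ f hf
        exact hsub _ _ hf.1.symm rfl
    · have hk : key ι o (c1 o (B.r e)) = ⊤ := by
        unfold key
        rw [hr1 e, if_neg heq, if_pos rfl]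
      constructor
      · intro h
        exact (h (c1 o (B.r e)) ⟨(hr1 e).symm, by rw [hk]; exact le_top⟩).symm
      · intro h f hf
        have h1 : key ι o e = ⊤ := by rw [h]; exact hk
        apply key_inj hι o hf.1.symm
        rw [h1]
        exact top_le_iff.1 (h1 ▸ hf.2)
  · have hk : key ι o (c2 o (B.r e)) = 0 := by
      unfold key
      rw [hr2 e, if_pos rfl]
    constructor
    · intro h
      exact (h (c2 o (B.r e)) ⟨hr2 e, by rw [hk]; exact bot_le⟩).symm
    · intro h f hf
      have h1 : key ι o e = 0 := by rw [h]; exact hk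
      apply key_inj hι o hf.1
      rw [h1]
      exact le_antisymm (h1 ▸ hf.2) bot_le

/-- **Every generalized Bratteli diagram has an order whose Vershik map extends to a Borel
automorphism of the path space.** -/
theorem main (B : Diagram) : ∃ (o : Ord B) (φ : Path B ≃ᵐ Path B), ∀ x : Path B,
    (¬ ∀ n, IsMax o (x.1 n)) → IsVershik o x.1 (φ x).1 := by
  obtain ⟨ι, hι⟩ := exists_injective_nat B.E
  obtain ⟨o, ⟨e⟩⟩ := exists_generic B
  have hmm := isMM_ordOf hι o
  refine ⟨ordOf hι o, exists_borel_extension hmm ?_⟩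
  have e1 : Xmax (ordOf hι o) ≃ Xc (c1 o) :=
    { toFun := fun x => ⟨x.1.1, x.1.2, fun n => (hmm.max_iff _).1 (x.2 n)⟩
      invFun := fun x => ⟨⟨x.1, x.2.1⟩, fun n => (hmm.max_iff _).2 (x.2.2 n)⟩
      left_inv := fun x => rfl
      right_inv := fun x => rfl }
  have e2 : Xmin (ordOf hι o) ≃ Xc (c2 o) :=
    { toFun := fun x => ⟨x.1.1, x.1.2, fun n => (hmm.min_iff _).1 (x.2 n)⟩
      invFun := fun x => ⟨⟨x.1, x.2.1⟩, fun n => (hmm.min_iff _).2 (x.2.2 n)⟩
      left_inv := fun x => rfl
      right_inv := fun x => rfl }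
  exact ⟨e1.trans (e.trans e2.symm)⟩

end Pool.Agent.R294.Brat
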