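import Mathlib

/-!
Small divisors of a rotation of the torus: a Siegel lemma bound for separated families of small
divisors, and a scale at which the small divisors form well separated clusters.
-/

namespace Pool.Agent.R294.CB

open Finset
open scoped Matrix.Norms.Elementwise

/-- The pairing of an integer vector with a real vector. -/
noncomputable def ip {d : ℕ} (α : Fin d → ℝ) (k : Fin d → ℤ) : ℝ := ∑ i, (k i : ℝ) * α i

/-- The signed distance of `k · α` to the nearest integer. -/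
noncomputable def th {d : ℕ} (α : Fin d → ℝ) (k : Fin d → ℤ) : ℝ := ip α k - round (ip α k)

lemma th_abs_le {d : ℕ} (α : Fin d → ℝ) (k : Fin d → ℤ) : |th α k| ≤ 1 / 2 := abs_sub_round _

/-- A family is `X`-separated with respect to a weight. -/
def Sep {ι : Type*} (w : ι → ℝ) (X : ℝ) (s : Finset ι) : Prop :=
  ∀ a ∈ s, ∀ b ∈ s, a ≠ b → X * w a ≤ w b ∨ X * w b ≤ w a

lemma Sep.mono {ι : Type*} {w : ι → ℝ} {X Y : ℝ} {s : Finset ι} (h : Sep w Y s) (hXY : X ≤ Y)
    (hw : ∀ a ∈ s, 0 ≤ w a) : Sep w X s := by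
  intro a ha b hb hab
  rcases h a ha b hb hab with h1 | h1
  · exact Or.inl ((mul_le_mul_of_nonneg_right hXY (hw a ha)).trans h1)
  · exact Or.inr ((mul_le_mul_of_nonneg_right hXY (hw b hb)).trans h1)

/-- Pigeonhole over scales. -/
lemma exists_scale {ι : Type*} [DecidableEq ι] (I : Finset ι) (w : ι → ℝ) (hw : ∀ a ∈ I, 0 < w a)
    (D : ℕ) (U : ℕ → ℝ) (hU1 : ∀ j, 1 < U j) (hmono : ∀ j, U j ≤ U (j + 1))
    (hD : ∀ s ⊆ I, Sep w (U 0) s → s.card ≤ D) :
    ∃ j ≤ D, ∃ s ⊆ I, Sep w (U (j + 1)) s ∧ ∀ a ∈ I, ∃ b ∈ s, w a < U j * w b ∧ w b < U j * w a := by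
  classical
  set fam : ℝ → Finset (Finset ι) := fun X => I.powerset.filter (fun s => Sep w X s) with hfam
  set L : ℕ → ℕ := fun j => (fam (U j)).sup Finset.card with hL
  have hmem : ∀ (X : ℝ) (s : Finset ι), s ∈ fam X ↔ s ⊆ I ∧ Sep w X s := by
    intro X s
    simp [hfam]
  have hanti : ∀ j, L (j + 1) ≤ L j := by
    intro j
    apply Finset.sup_mono
    intro s hs
    rw [hmem] at hs ⊢
    exact ⟨hs.1, hs.2.mono (hmono j) fun a ha => (hw a (hs.1 ha)).le⟩
  have hL0 : L 0 ≤ D := by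
    apply Finset.sup_le
    intro s hs
    rw [hmem] at hs
    exact hD s hs.1 hs.2
  have hex : ∃ j ≤ D, L j = L (j + 1) := by
    by_contra hcon
    push Not at hcon
    have : ∀ j ≤ D + 1, L j + j ≤ D := by
      intro j
      induction j with
      | zero => intro _; simpa using hL0
      | succ j ih =>
        intro hj
        have h1 := ih (by omega)
        have h2 := hanti j
        have h3 := hcon j (by omega)
        omega
    have := this (D + 1) le_rfl
    omega
  obtain ⟨j, hj, hLj⟩ := hex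
  have hne : (fam (U (j + 1))).Nonempty := ⟨∅, by rw [hmem]; exact ⟨by simp, by intro a ha; simp at ha⟩⟩
  obtain ⟨s, hs, hcard⟩ := Finset.exists_mem_eq_sup _ hne Finset.card
  rw [hmem] at hs
  refine ⟨j, hj, s, hs.1, hs.2, ?_⟩
  intro a ha
  by_cases has : a ∈ s
  · refine ⟨a, has, ?_, ?_⟩ <;> nlinarith [hw a ha, hU1 j]
  by_contra hcon
  push Not at hcon
  have hsep : Sep w (U j) (insert a s) := by
    have hs' : Sep w (U j) s := hs.2.mono (hmono j) fun a ha => (hw a (hs.1 ha)).le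
    have key : ∀ b ∈ s, U j * w a ≤ w b ∨ U j * w b ≤ w a := by
      intro b hb
      by_cases h : w a < U j * w b
      · exact Or.inl (hcon b hb h)
      · exact Or.inr (not_lt.mp h)
    intro x hx y hy hxy
    rw [mem_insert] at hx hy
    rcases hx with rfl | hx <;> rcases hy with rfl | hy
    · exact absurd rfl hxy
    · exact key y hy
    · exact (key x hx).symm
    · exact hs' x hx y hy hxy
  have hin : insert a s ∈ fam (U j) := by
    rw [hmem]
    exact ⟨insert_subset ha hs.1, hsep⟩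
  have h1 := Finset.le_sup (f := Finset.card) hin
  rw [card_insert_of_notMem has] at h1
  have h2 : (fam (U j)).sup Finset.card = (fam (U (j + 1))).sup Finset.card := hLj
  omega

/-- The box of integer vectors of sup norm at most `K`. -/
noncomputable def bx (d K : ℕ) : Finset (Fin d → ℤ) := Fintype.piFinset fun _ => Finset.Icc (-(K : ℤ)) K

lemma mem_bx {d K : ℕ} {k : Fin d → ℤ} : k ∈ bx d K ↔ ∀ i, |k i| ≤ K := by
  simp [bx, Fintype.mem_piFinset, abs_le]

/-- The weight: `1` at the zero vector and the small divisor elsewhere. -/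
noncomputable def wt {d : ℕ} (α : Fin d → ℝ) (k : Fin d → ℤ) : ℝ := by
  classical exact if k = 0 then 1 else |th α k|

lemma wt_zero {d : ℕ} (α : Fin d → ℝ) : wt α 0 = 1 := by simp [wt]

lemma wt_ne {d : ℕ} (α : Fin d → ℝ) {k : Fin d → ℤ} (hk : k ≠ 0) : wt α k = |th α k| := by
  simp [wt, hk]

lemma wt_le_one {d : ℕ} (α : Fin d → ℝ) (k : Fin d → ℤ) : wt α k ≤ 1 := by
  by_cases hk : k = 0
  · rw [hk, wt_zero]
  · rw [wt_ne α hk]; linarith [th_abs_le α k]

lemma wt_pos {d : ℕ} {α : Fin d → ℝ} (hα : ∀ k : Fin d → ℤ, k ≠ 0 → ∀ m : ℤ, ip α k ≠ m)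
    (k : Fin d → ℤ) : 0 < wt α k := by
  by_cases hk : k = 0
  · rw [hk, wt_zero]; norm_num
  · rw [wt_ne α hk, abs_pos, th, sub_ne_zero]
    exact hα k hk _

/-- A separated family of very small divisors has at most `d` members. -/
lemma small_family_card {d K : ℕ} (hd : 0 < d) (hK : 1 ≤ K) (α : Fin d → ℝ)
    (hα : ∀ k : Fin d → ℤ, k ≠ 0 → ∀ m : ℤ, ip α k ≠ m) (X : ℝ)
    (hX : ((d : ℝ) + 1) * (((d : ℝ) + 1) * K) ^ d < X) (s : Finset (Fin d → ℤ)) (hs : s ⊆ bx d K)
    (hsep : Sep (wt α) X s) (hsmall : ∀ k ∈ s, X * wt α k ≤ 1) : s.card ≤ d := by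
  classical
  by_contra hcon
  obtain ⟨T, hT, hTc⟩ := Finset.exists_subset_card_eq (s := s) (n := d + 1) (by omega)
  set B : ℝ := (((d : ℝ) + 1) * K) ^ d with hB
  have hK' : (1 : ℝ) ≤ K := by exact_mod_cast hK
  have hB1 : 1 ≤ B := by
    rw [hB]
    apply one_le_pow₀
    nlinarith
  have hX1 : 1 < X := by nlinarith
  have hT0 : ∀ k ∈ T, k ≠ 0 := by
    rintro k hk rfl
    have := hsmall 0 (hT hk)
    rw [wt_zero] at this
    linarith
  set A : Matrix (Fin d) T ℤ := fun i k => k.1 i with hA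
  have hcard : Fintype.card (Fin d) < Fintype.card T := by simp [hTc]
  obtain ⟨t, ht0, htA, htn⟩ := Int.Matrix.exists_ne_zero_int_vec_norm_le A hcard (by simpa using hd)
  have hAn : ‖A‖ ≤ K := by
    rw [Matrix.norm_le_iff (by positivity)]
    intro i k
    rw [Int.norm_eq_abs, hA]
    have := mem_bx.mp (hs (hT k.2)) i
    exact_mod_cast this
  have htn' : ‖t‖ ≤ B := by
    refine htn.trans ?_
    have hexp : ((Fintype.card (Fin d) : ℝ) / ((Fintype.card T : ℝ) - Fintype.card (Fin d))) = d := by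
      simp [hTc]
    rw [hexp, Real.rpow_natCast, hB]
    apply pow_le_pow_left₀ (by positivity)
    have h1 : (Fintype.card T : ℝ) = d + 1 := by simp [hTc]
    rw [h1]
    apply mul_le_mul_of_nonneg_left _ (by positivity)
    exact max_le hK' hAn
  have htk : ∀ k : T, |(t k : ℝ)| ≤ B := by
    intro k
    have := norm_le_pi_norm t k
    rw [Int.norm_eq_abs] at this
    linarith
  -- the sum is an integer
  have hip : ∑ k : T, (t k : ℝ) * ip α k.1 = 0 := by
    have h1 : ∀ i, ∑ k : T, (t k : ℝ) * (k.1 i : ℝ) = 0 := by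
      intro i
      have h2 := congrFun htA i
      have h3 : ∑ k : T, k.1 i * t k = 0 := by
        simpa [Matrix.mulVec, dotProduct, hA] using h2
      have h4 : ((∑ k : T, k.1 i * t k : ℤ) : ℝ) = 0 := by rw [h3]; simp
      push_cast at h4
      rw [← h4]
      exact Finset.sum_congr rfl fun k _ => mul_comm _ _
    calc ∑ k : T, (t k : ℝ) * ip α k.1 = ∑ k : T, ∑ i, ((t k : ℝ) * (k.1 i : ℝ)) * α i := by
          refine Finset.sum_congr rfl fun k _ => ?_
          rw [ip, Finset.mul_sum]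
          exact Finset.sum_congr rfl fun i _ => by ring
      _ = ∑ i, (∑ k : T, (t k : ℝ) * (k.1 i : ℝ)) * α i := by
          rw [Finset.sum_comm]
          exact Finset.sum_congr rfl fun i _ => by rw [Finset.sum_mul]
      _ = 0 := Finset.sum_eq_zero fun i _ => by rw [h1 i, zero_mul]
  have hint : ∑ k : T, (t k : ℝ) * th α k.1 = ((-(∑ k : T, t k * round (ip α k.1)) : ℤ) : ℝ) := by
    have : ∑ k : T, (t k : ℝ) * th α k.1 =
        ∑ k : T, (t k : ℝ) * ip α k.1 - ∑ k : T, (t k : ℝ) * (round (ip α k.1) : ℝ) := by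
      rw [← Finset.sum_sub_distrib]
      exact Finset.sum_congr rfl fun k _ => by rw [th]; ring
    rw [this, hip]
    push_cast
    ring
  have hXpos : 0 < X := by linarith
  have hthle : ∀ k : T, |th α k.1| ≤ 1 / X := by
    intro k
    have := hsmall k.1 (hT k.2)
    rw [wt_ne α (hT0 k.1 k.2)] at this
    rw [le_div_iff₀ hXpos]
    linarith
  have hsmallsum : |∑ k : T, (t k : ℝ) * th α k.1| < 1 := by
    calc |∑ k : T, (t k : ℝ) * th α k.1| ≤ ∑ k : T, |(t k : ℝ) * th α k.1| :=
          Finset.abs_sum_le_sum_abs _ _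
      _ ≤ ∑ _k : T, B * (1 / X) := by
          refine Finset.sum_le_sum fun k _ => ?_
          rw [abs_mul]
          exact mul_le_mul (htk k) (hthle k) (abs_nonneg _) (by linarith)
      _ = (d + 1) * B / X := by simp [hTc]; ring
      _ < 1 := by rw [div_lt_one hXpos]; exact hX
  have hzero : ∑ k : T, (t k : ℝ) * th α k.1 = 0 := by
    rw [hint] at hsmallsum ⊢
    have h1 : |(-(∑ k : T, t k * round (ip α k.1)) : ℤ)| < 1 := by exact_mod_cast hsmallsum
    rw [Int.abs_lt_one_iff] at h1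
    rw [h1]; simp
  -- the largest active divisor
  obtain ⟨k1, hk1⟩ : ∃ k : T, t k ≠ 0 := by
    by_contra h
    push Not at h
    exact ht0 (funext h)
  obtain ⟨k0, hk0m, hk0⟩ := Finset.exists_max_image (Finset.univ.filter fun k : T => t k ≠ 0)
    (fun k => wt α k.1) ⟨k1, by simp [hk1]⟩
  have htk0 : t k0 ≠ 0 := by simpa using hk0m
  have hw0 : 0 < wt α k0.1 := wt_pos hα _
  have hoth : ∀ k : T, k ≠ k0 → |(t k : ℝ) * th α k.1| ≤ B * (wt α k0.1 / X) := by
    intro k hk
    by_cases htz : t k = 0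
    · simp [htz]; positivity
    have h1 := hk0 k (by simp [htz])
    have h2 := hsep k.1 (hT k.2) k0.1 (hT k0.2) (fun h => hk (Subtype.ext h))
    have hwk : 0 < wt α k.1 := wt_pos hα _
    have h3 : X * wt α k.1 ≤ wt α k0.1 := by
      rcases h2 with h2 | h2
      · exact h2
      · exfalso; nlinarith
    rw [abs_mul, ← wt_ne α (hT0 k.1 k.2)]
    apply mul_le_mul (htk k) _ hwk.le (by linarith)
    rw [le_div_iff₀ hXpos]; linarith
  have hsplit : (t k0 : ℝ) * th α k0.1 = -∑ k ∈ Finset.univ.erase k0, (t k : ℝ) * th α k.1 := by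
    have := Finset.add_sum_erase Finset.univ (fun k : T => (t k : ℝ) * th α k.1) (Finset.mem_univ k0)
    rw [hzero] at this
    linarith
  have hfin : |(t k0 : ℝ) * th α k0.1| ≤ d * (B * (wt α k0.1 / X)) := by
    rw [hsplit, abs_neg]
    calc |∑ k ∈ Finset.univ.erase k0, (t k : ℝ) * th α k.1|
        ≤ ∑ k ∈ Finset.univ.erase k0, |(t k : ℝ) * th α k.1| := Finset.abs_sum_le_sum_abs _ _
      _ ≤ ∑ _k ∈ Finset.univ.erase k0, B * (wt α k0.1 / X) :=
          Finset.sum_le_sum fun k hk => hoth k (Finset.ne_of_mem_erase hk)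
      _ = d * (B * (wt α k0.1 / X)) := by
          rw [Finset.sum_const, Finset.card_erase_of_mem (Finset.mem_univ _), nsmul_eq_mul]
          simp [hTc]
  have hge : wt α k0.1 ≤ |(t k0 : ℝ) * th α k0.1| := by
    rw [abs_mul, ← wt_ne α (hT0 k0.1 k0.2)]
    have : (1 : ℝ) ≤ |(t k0 : ℝ)| := by
      have := Int.one_le_abs htk0
      exact_mod_cast this
    nlinarith
  have hlt : (d : ℝ) * (B * (wt α k0.1 / X)) < wt α k0.1 := by
    have : (d : ℝ) * (B * (wt α k0.1 / X)) = (d * B / X) * wt α k0.1 := by ring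
    rw [this]
    have h5 : d * B / X < 1 := by
      rw [div_lt_one hXpos]
      nlinarith
    nlinarith
  linarith

/-- Separated families of divisors have at most `d + 1` members. -/
lemma family_card {d K : ℕ} (hd : 0 < d) (hK : 1 ≤ K) (α : Fin d → ℝ)
    (hα : ∀ k : Fin d → ℤ, k ≠ 0 → ∀ m : ℤ, ip α k ≠ m) (X : ℝ)
    (hX : ((d : ℝ) + 1) * (((d : ℝ) + 1) * K) ^ d < X) (s : Finset (Fin d → ℤ)) (hs : s ⊆ bx d K)
    (hsep : Sep (wt α) X s) : s.card ≤ d + 1 := by
  classical
  have h1 : (s.filter fun k => ¬ X * wt α k ≤ 1).card ≤ 1 := by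
    rw [Finset.card_le_one]
    intro a ha b hb
    rw [mem_filter] at ha hb
    by_contra hab
    rcases hsep a ha.1 b hb.1 hab with h | h
    · exact ha.2 (h.trans (wt_le_one α b))
    · exact hb.2 (h.trans (wt_le_one α a))
  have h2 : (s.filter fun k => X * wt α k ≤ 1).card ≤ d := by
    apply small_family_card hd hK α hα X hX _ ((filter_subset _ _).trans hs)
    · intro a ha b hb hab
      exact hsep a (mem_filter.mp ha).1 b (mem_filter.mp hb).1 hab
    · intro k hk
      exact (mem_filter.mp hk).2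
  have h3 := Finset.card_filter_add_card_filter_not (s := s) (fun k => X * wt α k ≤ 1)
  omega

/-- Cluster structure of the small divisors at a suitable scale. -/
theorem clusters {d K : ℕ} (hd : 0 < d) (hK : d + 2 ≤ K) (α : Fin d → ℝ)
    (hα : ∀ k : Fin d → ℤ, k ≠ 0 → ∀ m : ℤ, ip α k ≠ m) (M : ℕ) (hM : 1 ≤ M) :
    ∃ U : ℕ, K ^ (2 * d + 2) ≤ U ∧ U ^ M ≤ K ^ ((2 * d + 2) * M ^ (d + 2)) ∧
      ∃ s ⊆ bx d K, Sep (wt α) ((U : ℝ) ^ M) s ∧
        ∀ a ∈ bx d K, ∃ b ∈ s, wt α a < U * wt α b ∧ wt α b < U * wt α a := by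
  classical
  have hK1 : 1 ≤ K := by omega
  have hKr : ((d : ℝ) + 2) ≤ K := by exact_mod_cast hK
  have hKd : (1 : ℝ) < K := by
    have : (0 : ℝ) ≤ d := Nat.cast_nonneg d
    linarith
  obtain ⟨j, hj, s, hs, hsep, hcl⟩ := exists_scale (bx d K) (wt α) (fun a _ => wt_pos hα a) (d + 1)
    (fun j => ((K ^ ((2 * d + 2) * M ^ j) : ℕ) : ℝ)) (by
      intro j
      push_cast
      apply one_lt_pow₀ hKd
      have : 0 < M ^ j := by positivity
      positivity) (by
      intro j
      push_cast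
      apply pow_le_pow_right₀ hKd.le
      apply Nat.mul_le_mul_left
      exact Nat.pow_le_pow_right hM (by omega)) (by
      intro s hs hsep
      apply family_card hd hK1 α hα _ _ s hs hsep
      push_cast
      rw [pow_zero, mul_one]
      have h1 : (((d : ℝ) + 1) * K) ^ d ≤ ((K : ℝ) * K) ^ d := by
        apply pow_le_pow_left₀ (by positivity)
        nlinarith
      calc ((d : ℝ) + 1) * (((d : ℝ) + 1) * K) ^ d ≤ ((d : ℝ) + 1) * ((K : ℝ) * K) ^ d := by
            apply mul_le_mul_of_nonneg_left h1 (by positivity)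
        _ < (K : ℝ) * ((K : ℝ) * K) ^ d := by
            apply mul_lt_mul_of_pos_right _ (by positivity)
            linarith
        _ ≤ ((K : ℝ) * K) * ((K : ℝ) * K) ^ d := by
            apply mul_le_mul_of_nonneg_right _ (by positivity)
            nlinarith
        _ = (K : ℝ) ^ (2 * d + 2) := by ring)
  refine ⟨K ^ ((2 * d + 2) * M ^ j), ?_, ?_, s, hs, ?_, ?_⟩
  · apply Nat.pow_le_pow_right hK1
    have : 0 < M ^ j := by positivity
    nlinarith
  · rw [← pow_mul]
    apply Nat.pow_le_pow_right hK1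
    rw [mul_assoc]
    apply Nat.mul_le_mul_left
    rw [← pow_succ]
    exact Nat.pow_le_pow_right hM (by omega)
  · have : ((K ^ ((2 * d + 2) * M ^ (j + 1)) : ℕ) : ℝ) = ((K ^ ((2 * d + 2) * M ^ j) : ℕ) : ℝ) ^ M := by
      push_cast
      rw [← pow_mul]
      congr 1
      ring
    rw [← this]
    exact hsep
  · exact hcl

end Pool.Agent.R294.CB
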