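import Mathlib

/-!
Exponential sums along a rotation and simultaneous Dirichlet approximation.
-/

namespace Pool.Agent.R294.CB

open Finset

/-- The character `e(x) = exp(2 π i x)`. -/
noncomputable def ee (x : ℝ) : ℂ := Complex.exp (((2 * Real.pi * x : ℝ) : ℂ) * Complex.I)

/-- The geometric sum of the first `n` powers of `e(θ)`. -/
noncomputable def Es (θ : ℝ) (n : ℕ) : ℂ := ∑ j ∈ range n, ee (j * θ)

lemma ee_norm (x : ℝ) : ‖ee x‖ = 1 := Complex.norm_exp_ofReal_mul_I _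

lemma ee_add (x y : ℝ) : ee (x + y) = ee x * ee y := by
  rw [ee, ee, ee, ← Complex.exp_add]
  congr 1
  push_cast
  ring

lemma ee_zero : ee 0 = 1 := by simp [ee]

lemma ee_int (m : ℤ) : ee m = 1 := by
  rw [ee]
  have : (((2 * Real.pi * (m : ℝ) : ℝ) : ℂ) * Complex.I) = m * (2 * Real.pi * Complex.I) := by
    push_cast; ring
  rw [this, Complex.exp_int_mul_two_pi_mul_I]

lemma ee_sub_int (x : ℝ) (m : ℤ) : ee (x - m) = ee x := by
  have h := ee_add (x - m) m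
  rw [sub_add_cancel, ee_int, mul_one] at h
  exact h.symm

lemma ee_sub_one_eq (x : ℝ) : ‖ee x - 1‖ = 2 * |Real.sin (Real.pi * x)| := by
  have h := Complex.norm_exp_I_mul_ofReal_sub_one (2 * Real.pi * x)
  rw [ee, mul_comm (((2 * Real.pi * x : ℝ) : ℂ)) Complex.I, h, Real.norm_eq_abs, abs_mul]
  rw [abs_of_pos (by norm_num : (0 : ℝ) < 2)]
  congr 3
  ring

lemma ee_sub_one_le (x : ℝ) : ‖ee x - 1‖ ≤ 7 * |x| := by
  rw [ee_sub_one_eq]
  have h1 : |Real.sin (Real.pi * x)| ≤ |Real.pi * x| := Real.abs_sin_le_abs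
  rw [abs_mul, abs_of_pos Real.pi_pos] at h1
  have h2 := Real.pi_lt_d2
  have h3 := abs_nonneg x
  nlinarith

lemma ee_sub_one_le' (x : ℝ) (m : ℤ) : ‖ee x - 1‖ ≤ 7 * |x - m| := by
  rw [← ee_sub_int x m]
  exact ee_sub_one_le _

lemma ee_sub_one_ge (x : ℝ) (hx : |x| ≤ 1 / 2) : 4 * |x| ≤ ‖ee x - 1‖ := by
  rw [ee_sub_one_eq]
  have h1 : 2 / Real.pi * (Real.pi * |x|) ≤ Real.sin (Real.pi * |x|) := by
    apply Real.mul_le_sin (by positivity)
    nlinarith [Real.pi_pos]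
  have h2 : 2 / Real.pi * (Real.pi * |x|) = 2 * |x| := by
    field_simp
  have h3 : Real.sin (Real.pi * |x|) ≤ |Real.sin (Real.pi * x)| := by
    rcases abs_cases x with ⟨h, _⟩ | ⟨h, _⟩
    · rw [h]; exact le_abs_self _
    · rw [h, mul_neg, Real.sin_neg]; exact neg_le_abs _
  linarith

lemma Es_geom (θ : ℝ) (n : ℕ) : (ee θ - 1) * Es θ n = ee (n * θ) - 1 := by
  induction n with
  | zero => simp [Es, ee_zero]
  | succ n ih =>
    rw [Es, Finset.sum_range_succ, ← Es, mul_add, ih]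
    push_cast
    rw [add_mul, one_mul, ee_add]
    ring

lemma Es_le_n (θ : ℝ) (n : ℕ) : ‖Es θ n‖ ≤ n := by
  calc ‖Es θ n‖ ≤ ∑ j ∈ range n, ‖ee (j * θ)‖ := norm_sum_le _ _
    _ = n := by simp [ee_norm]

lemma Es_le' {θ : ℝ} (hθ : |θ| ≤ 1 / 2) (hθ0 : θ ≠ 0) (n : ℕ) (m : ℤ) :
    ‖Es θ n‖ ≤ 2 * |n * θ - m| / |θ| := by
  have h0 : 0 < |θ| := abs_pos.mpr hθ0
  have h1 := congrArg norm (Es_geom θ n)
  rw [norm_mul] at h1
  have h2 := ee_sub_one_ge θ hθ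
  have h3 := ee_sub_one_le' (n * θ) m
  rw [le_div_iff₀ h0]
  have h4 := norm_nonneg (Es θ n)
  have h5 := abs_nonneg (n * θ - m)
  have h6 : 4 * |θ| * ‖Es θ n‖ ≤ 7 * |n * θ - m| := by
    calc 4 * |θ| * ‖Es θ n‖ ≤ ‖ee θ - 1‖ * ‖Es θ n‖ := mul_le_mul_of_nonneg_right h2 h4
      _ = ‖ee (n * θ) - 1‖ := h1
      _ ≤ _ := h3
  linarith

lemma Es_le {θ : ℝ} (hθ : |θ| ≤ 1 / 2) (hθ0 : θ ≠ 0) (n : ℕ) : ‖Es θ n‖ ≤ 1 / |θ| := by
  refine (Es_le' hθ hθ0 n (round (n * θ))).trans ?_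
  apply div_le_div_of_nonneg_right _ (abs_nonneg _)
  linarith [abs_sub_round (n * θ)]

lemma Es_sub_n (θ : ℝ) (n : ℕ) : ‖Es θ n - n‖ ≤ 4 * n ^ 2 * |θ| := by
  induction n with
  | zero => simp [Es]
  | succ n ih =>
    rw [Es, Finset.sum_range_succ, ← Es]
    have h1 : Es θ n + ee (n * θ) - ((n + 1 : ℕ) : ℂ) = (Es θ n - n) + (ee (n * θ) - 1) := by
      push_cast; ring
    rw [h1]
    refine (norm_add_le _ _).trans ?_
    have h2 := ee_sub_one_le (n * θ)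
    rw [abs_mul, abs_of_nonneg (Nat.cast_nonneg n)] at h2
    push_cast
    have h3 := abs_nonneg θ
    have h4 : (0 : ℝ) ≤ n * |θ| := by positivity
    nlinarith

lemma Es_add (θ : ℝ) (a b : ℕ) : Es θ (a + b) = Es θ a + ee (a * θ) * Es θ b := by
  rw [Es, Finset.sum_range_add, ← Es, Es, Es, Finset.mul_sum]
  congr 1
  refine Finset.sum_congr rfl fun j _ => ?_
  rw [← ee_add]
  push_cast
  ring_nf

/-- Simultaneous Dirichlet approximation. -/
lemma dirichlet {d : ℕ} (β : Fin d → ℝ) (Q : ℕ) (hQ : 0 < Q) :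
    ∃ q : ℕ, 1 ≤ q ∧ q ≤ Q ^ d ∧ ∀ i, ∃ m : ℤ, |q * β i - m| ≤ 1 / Q := by
  classical
  have hQr : (0 : ℝ) < Q := by exact_mod_cast hQ
  obtain ⟨x, hx, y, hy, hxy, hf⟩ := Finset.exists_ne_map_eq_of_card_lt_of_maps_to
    (s := range (Q ^ d + 1)) (t := Fintype.piFinset fun _ : Fin d => range Q)
    (f := fun q i => ⌊(Q : ℝ) * Int.fract (q * β i)⌋₊) (by simp) (by
      intro q _
      simp only [Finset.mem_coe, Fintype.mem_piFinset, mem_range]
      intro i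
      rw [Nat.floor_lt (by positivity)]
      have := Int.fract_lt_one ((q : ℝ) * β i)
      nlinarith)
  have key : ∀ x y : ℕ, x < y → y ≤ Q ^ d →
      (fun i => ⌊(Q : ℝ) * Int.fract (x * β i)⌋₊) = (fun i => ⌊(Q : ℝ) * Int.fract (y * β i)⌋₊) →
      ∃ q : ℕ, 1 ≤ q ∧ q ≤ Q ^ d ∧ ∀ i, ∃ m : ℤ, |q * β i - m| ≤ 1 / Q := by
    intro x y hlt hy hf
    refine ⟨y - x, by omega, by omega, fun i => ⟨⌊(y : ℝ) * β i⌋ - ⌊(x : ℝ) * β i⌋, ?_⟩⟩
    have h1 := congrFun hf i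
    beta_reduce at h1
    have h2 : 0 ≤ (Q : ℝ) * Int.fract (x * β i) := by positivity
    have h3 : 0 ≤ (Q : ℝ) * Int.fract (y * β i) := by positivity
    have h4 := Nat.floor_le h2
    have h5 := Nat.lt_floor_add_one ((Q : ℝ) * Int.fract (x * β i))
    have h6 := Nat.floor_le h3
    have h7 := Nat.lt_floor_add_one ((Q : ℝ) * Int.fract (y * β i))
    rw [h1] at h4 h5
    have h8 : ((y - x : ℕ) : ℝ) * β i - ((⌊(y : ℝ) * β i⌋ - ⌊(x : ℝ) * β i⌋ : ℤ) : ℝ) =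
        Int.fract (y * β i) - Int.fract (x * β i) := by
      rw [Nat.cast_sub hlt.le]
      push_cast
      rw [Int.fract, Int.fract]
      ring
    rw [h8, le_div_iff₀ hQr]
    rw [← abs_of_pos hQr, ← abs_mul, abs_le]
    constructor <;> nlinarith
  rw [mem_range] at hx hy
  rcases lt_or_gt_of_ne hxy with h | h
  · exact key x y h (by omega) hf
  · exact key y x h (by omega) hf.symm

end Pool.Agent.R294.CB
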