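import Pool.Agent.R294.CB2

/-!
The passage from one cluster of small divisors to the next one.
-/

namespace Pool.Agent.R294.CB

open Finset

variable {ι : Type*} [DecidableEq ι]

/-- The data of an almost trigonometric Birkhoff sum. -/
structure Dat (I : Finset ι) (θ : ι → ℝ) (c : ι → ℂ) (S : ℕ → ℝ) (U : ℕ) (G τ : ℝ) (d n0 : ℕ) :
    Prop where
  hU : 14 ≤ U
  hn0 : n0 + 1 ≤ U
  hc : ∑ k ∈ I, ‖c k‖ ≤ U
  hθ : ∀ k ∈ I, |θ k| ≤ 1 / 2
  hθ0 : ∀ k ∈ I, θ k ≠ 0
  hS : ∀ n : ℕ, |S n - (∑ k ∈ I, c k * Es (θ k) n).re| ≤ n * τ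
  hτ : τ * G ≤ 1
  hG0 : 0 < G
  hsign : ∀ n m, n0 ≤ n → n0 ≤ m → 0 < S n * S m
  hdir : ∀ n Q : ℕ, 0 < Q → ∃ q : ℕ, 1 ≤ q ∧ q ≤ Q ^ d ∧
    ∀ k ∈ I, ∃ m : ℤ, |((n * q : ℕ) : ℝ) * θ k - m| ≤ U / Q

variable {I : Finset ι} {θ : ι → ℝ} {c : ι → ℂ} {S : ℕ → ℝ} {U : ℕ} {G τ : ℝ} {d n0 : ℕ}

omit [DecidableEq ι] in
lemma Dat.approx (h : Dat I θ c S U G τ d n0) (m : ℕ) (v : ι → ℝ) (e : ℝ) (he : 0 ≤ e)
    (hv : ∀ k ∈ I, ‖Es (θ k) m - (v k : ℂ)‖ ≤ e) :
    |S m - ∑ k ∈ I, (c k).re * v k| ≤ U * e + m * τ := by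
  have h1 := h.hS m
  have h2 : (∑ k ∈ I, c k * Es (θ k) m).re - ∑ k ∈ I, (c k).re * v k =
      (∑ k ∈ I, c k * (Es (θ k) m - (v k : ℂ))).re := by
    rw [Complex.re_sum, Complex.re_sum, ← Finset.sum_sub_distrib]
    refine Finset.sum_congr rfl fun k _ => ?_
    rw [mul_sub, Complex.sub_re, Complex.re_mul_ofReal]
  have h3 : |(∑ k ∈ I, c k * (Es (θ k) m - (v k : ℂ))).re| ≤ U * e := by
    refine (Complex.abs_re_le_norm _).trans ?_
    calc ‖∑ k ∈ I, c k * (Es (θ k) m - (v k : ℂ))‖ ≤ ∑ k ∈ I, ‖c k‖ * e := by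
          refine norm_sum_le_of_le _ fun k hk => ?_
          rw [norm_mul]
          exact mul_le_mul_of_nonneg_left (hv k hk) (norm_nonneg _)
      _ = (∑ k ∈ I, ‖c k‖) * e := by rw [Finset.sum_mul]
      _ ≤ U * e := mul_le_mul_of_nonneg_right h.hc he
  rw [← h2] at h3
  have h4 : S m - ∑ k ∈ I, (c k).re * v k = (S m - (∑ k ∈ I, c k * Es (θ k) m).re) +
      ((∑ k ∈ I, c k * Es (θ k) m).re - ∑ k ∈ I, (c k).re * v k) := by ring
  rw [h4]
  exact (abs_add_le _ _).trans (by linarith)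

lemma main_sum {Γ Γ' : Finset ι} (hΓ : Γ ⊆ I) (hΓ' : Γ' ⊆ I) (x y : ℝ) :
    ∑ k ∈ I, (c k).re * ((if k ∈ Γ then x else 0) + (if k ∈ Γ' then y else 0)) =
      x * (∑ k ∈ Γ, (c k).re) + y * ∑ k ∈ Γ', (c k).re := by
  have h1 : ∀ (Δ : Finset ι) (z : ℝ), Δ ⊆ I →
      ∑ k ∈ I, (c k).re * (if k ∈ Δ then z else 0) = z * ∑ k ∈ Δ, (c k).re := by
    intro Δ z hΔ
    simp only [mul_ite, mul_zero]
    rw [Finset.sum_ite_mem, Finset.inter_eq_right.mpr hΔ, ← Finset.sum_mul, mul_comm]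
  rw [← h1 Γ x hΓ, ← h1 Γ' y hΓ', ← Finset.sum_add_distrib]
  exact Finset.sum_congr rfl fun k _ => mul_add _ _ _

/-- The passage from one cluster to the next. -/
theorem Dat.stage (h : Dat I θ c S U G τ d n0) {Γ Γ' : Finset ι} (hΓ : Γ ⊆ I) (hΓ' : Γ' ⊆ Γ)
    (C : ℕ) (ω : ℝ) (hω : 0 < ω) (hωG : ω * G ≤ U)
    (h1 : ∀ k ∈ Γ, |θ k| ≤ ω * U) (h2 : ∀ k ∈ Γ, k ∉ Γ' → ω ≤ U * |θ k|)
    (h3 : ∀ k ∈ Γ', |θ k| * G ≤ ω * U) (h4 : ∀ k ∈ I, k ∉ Γ → ω * G ≤ U * |θ k|)
    (hG : (U : ℝ) ^ (2 * ((2 * C + 9) * d) + 2 * C + 8) ≤ G)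
    (hA : 1 ≤ |∑ k ∈ Γ, (c k).re| * (U : ℝ) ^ C) :
    1 ≤ |∑ k ∈ Γ', (c k).re| * (U : ℝ) ^ (C + (2 * C + 9) * d + 2) := by
  by_contra hcon
  push Not at hcon
  set u : ℝ := (U : ℝ) with hu
  set V : ℝ := u ^ C with hV
  set P : ℝ := u ^ ((2 * C + 9) * d) with hP
  set A : ℝ := ∑ k ∈ Γ, (c k).re with hAdef
  set A' : ℝ := ∑ k ∈ Γ', (c k).re with hA'def
  have hu14 : (14 : ℝ) ≤ u := by rw [hu]; exact_mod_cast h.hU
  have hu0 : 0 < u := by linarith
  have hu1 : 1 ≤ u := by linarith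
  have hV1 : 1 ≤ V := one_le_pow₀ hu1
  have hV0 : 0 < V := by linarith
  have hP1 : 1 ≤ P := one_le_pow₀ hu1
  have hP0 : 0 < P := by linarith
  have hGpos := h.hG0
  have hGb : P ^ 2 * V ^ 2 * u ^ 8 ≤ G := by
    refine le_trans (le_of_eq ?_) hG
    rw [hP, hV]
    ring
  have hcon' : |A'| * (V * P * u ^ 2) < 1 := by
    refine lt_of_eq_of_lt ?_ hcon
    rw [hP, hV]
    ring
  have hP2 : 1 ≤ P ^ 2 := one_le_pow₀ hP1
  have hV2 : 1 ≤ V ^ 2 := one_le_pow₀ hV1
  have hG1 : V ^ 2 * u ^ 8 ≤ G := by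
    refine le_trans ?_ hGb
    have h0 : 0 < V ^ 2 * u ^ 8 := by positivity
    calc V ^ 2 * u ^ 8 = 1 * (V ^ 2 * u ^ 8) := by ring
      _ ≤ P ^ 2 * (V ^ 2 * u ^ 8) := mul_le_mul_of_nonneg_right hP2 h0.le
      _ = _ := by ring
  have hG2 : P ^ 2 ≤ G := by
    refine le_trans ?_ hGb
    have h8 : 1 ≤ u ^ 8 := one_le_pow₀ hu1
    have : 1 ≤ V ^ 2 * u ^ 8 := one_le_mul_of_one_le_of_one_le hV2 h8
    calc P ^ 2 = P ^ 2 * 1 := by ring
      _ ≤ P ^ 2 * (V ^ 2 * u ^ 8) := by apply mul_le_mul_of_nonneg_left this (by positivity)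
      _ = _ := by ring
  have hG3 : P * V * u ^ 2 ≤ G := by
    refine le_trans ?_ hGb
    have h6 : 1 ≤ P * V * u ^ 6 := by
      exact one_le_mul_of_one_le_of_one_le (one_le_mul_of_one_le_of_one_le hP1 hV1)
        (one_le_pow₀ hu1)
    calc P * V * u ^ 2 = P * V * u ^ 2 * 1 := by ring
      _ ≤ P * V * u ^ 2 * (P * V * u ^ 6) := by
          apply mul_le_mul_of_nonneg_left h6 (by positivity)
      _ = _ := by ring
  have hG4 : V * u ^ 6 ≤ G := by
    refine le_trans ?_ hG1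
    calc V * u ^ 6 = V * u ^ 6 * 1 := by ring
      _ ≤ V * u ^ 6 * (V * u ^ 2) := by
          apply mul_le_mul_of_nonneg_left _ (by positivity)
          exact one_le_mul_of_one_le_of_one_le hV1 (one_le_pow₀ hu1)
      _ = _ := by ring
  -- the time `n`
  have hx0 : 0 < ω * (V * u ^ 4) := by positivity
  set n : ℕ := ⌊1 / (ω * (V * u ^ 4))⌋₊ with hn
  have hnle : (n : ℝ) * (ω * (V * u ^ 4)) ≤ 1 := by
    rw [← le_div_iff₀ hx0]
    exact Nat.floor_le (by positivity)
  have hxu : u ≤ 1 / (ω * (V * u ^ 4)) := by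
    rw [le_div_iff₀ hx0]
    have h5 : ω * (V * u ^ 6) ≤ u := le_trans (mul_le_mul_of_nonneg_left hG4 hω.le) hωG
    have h6 : ω * (V * u ^ 6) = u * (u * (ω * (V * u ^ 4))) := by ring
    rw [h6] at h5
    have h7 : u * (ω * (V * u ^ 4)) ≤ 1 := by
      have h8 : u * (u * (ω * (V * u ^ 4))) ≤ u * 1 := by rw [mul_one]; exact h5
      exact le_of_mul_le_mul_left h8 hu0
    exact h7
  have hnn0 : n0 + 1 ≤ n := by
    apply Nat.le_floor
    have : ((n0 + 1 : ℕ) : ℝ) ≤ u := by rw [hu]; exact_mod_cast h.hn0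
    linarith
  have hn1 : (1 : ℝ) ≤ n := by
    have : 1 ≤ n := by omega
    exact_mod_cast this
  have hnge : 1 ≤ 2 * n * (ω * (V * u ^ 4)) := by
    have h5 := Nat.lt_floor_add_one (1 / (ω * (V * u ^ 4)))
    rw [← hn, div_lt_iff₀ hx0] at h5
    have h6 : ((n : ℝ) + 1) * (ω * (V * u ^ 4)) ≤ 2 * n * (ω * (V * u ^ 4)) :=
      mul_le_mul_of_nonneg_right (by linarith) hx0.le
    linarith
  have hn0' : (0 : ℝ) < n := by linarith
  -- basic quantities
  set δ : ℝ := n / (V * u ^ 3) with hδ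
  have hδ0 : 0 < δ := by positivity
  have hnω : (n : ℝ) ^ 2 * ω * u ≤ δ := by
    rw [hδ, le_div_iff₀ (by positivity)]
    calc (n : ℝ) ^ 2 * ω * u * (V * u ^ 3) = (n : ℝ) * (n * (ω * (V * u ^ 4))) := by ring
      _ ≤ (n : ℝ) * 1 := mul_le_mul_of_nonneg_left hnle hn0'.le
      _ = (n : ℝ) := mul_one _
  have hout : ∀ k ∈ I, k ∉ Γ → ∀ m : ℕ, ‖Es (θ k) m‖ ≤ 2 * δ := by
    intro k hk hkΓ m
    refine (Es_le (h.hθ k hk) (h.hθ0 k hk) m).trans ?_
    have h5 := h4 k hk hkΓ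
    have h6 : 0 < |θ k| := abs_pos.mpr (h.hθ0 k hk)
    rw [div_le_iff₀ h6, hδ]
    have h7 : 2 * (n / (V * u ^ 3)) * |θ k| = 2 * n * |θ k| / (V * u ^ 3) := by ring
    rw [h7, le_div_iff₀ (by positivity), one_mul]
    -- V u^3 ≤ 2 n |θ|
    have h8 : V * u ^ 3 * u ≤ 2 * n * (u * |θ k|) := by
      calc V * u ^ 3 * u = V * u ^ 4 * 1 := by ring
        _ ≤ V * u ^ 4 * (2 * n * (ω * (V * u ^ 4))) := by
            apply mul_le_mul_of_nonneg_left hnge (by positivity)
        _ = 2 * n * (ω * (V ^ 2 * u ^ 8)) := by ring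
        _ ≤ 2 * n * (ω * G) := by
            apply mul_le_mul_of_nonneg_left _ (by positivity)
            exact mul_le_mul_of_nonneg_left hG1 hω.le
        _ ≤ 2 * n * (u * |θ k|) := mul_le_mul_of_nonneg_left h5 (by positivity)
    have h9 : 2 * n * (u * |θ k|) = (2 * n * |θ k|) * u := by ring
    rw [h9] at h8
    exact le_of_mul_le_mul_right h8 hu0
  have hVA : 1 / V ≤ |A| := by
    rw [div_le_iff₀ hV0]; exact hA
  have hτ' : τ * (P * V * u ^ 2) ≤ 1 := by
    by_cases hτ0 : 0 ≤ τ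
    · exact le_trans (mul_le_mul_of_nonneg_left hG3 hτ0) h.hτ
    · have : τ * (P * V * u ^ 2) ≤ 0 := mul_nonpos_of_nonpos_of_nonneg (by linarith) (by positivity)
      linarith
  have hδu : u * δ = n / (V * u ^ 2) := by
    rw [hδ]; field_simp
  have hδA : u * δ ≤ n * |A| / u ^ 2 := by
    rw [hδu, div_le_div_iff₀ (by positivity) (by positivity)]
    have : 1 ≤ |A| * V := hA
    calc (n : ℝ) * u ^ 2 = n * u ^ 2 * 1 := by ring
      _ ≤ n * u ^ 2 * (|A| * V) := mul_le_mul_of_nonneg_left this (by positivity)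
      _ = _ := by ring
  have hA0 : 0 < |A| := lt_of_lt_of_le (by positivity) hVA
  have hu2 : n * |A| / u ^ 2 ≤ n * |A| / 196 := by
    apply div_le_div_of_nonneg_left (by positivity) (by norm_num)
    have : (14 : ℝ) ^ 2 ≤ u ^ 2 := pow_le_pow_left₀ (by norm_num) hu14 2
    linarith
  -- first time
  have hSn : |S n - n * A| ≤ n * |A| / 4 := by
    have h5 := h.approx n (fun k => (if k ∈ Γ then (n : ℝ) else 0) + (if k ∈ Γ' then 0 else 0))
      (4 * δ) (by positivity) (by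
        intro k hk
        by_cases hkΓ : k ∈ Γ
        · simp only [hkΓ, if_true, ite_self, add_zero]
          refine (Es_sub_n (θ k) n).trans ?_
          have := h1 k hkΓ
          calc 4 * (n : ℝ) ^ 2 * |θ k| ≤ 4 * (n : ℝ) ^ 2 * (ω * u) :=
                mul_le_mul_of_nonneg_left this (by positivity)
            _ = 4 * ((n : ℝ) ^ 2 * ω * u) := by ring
            _ ≤ 4 * δ := by linarith
        · simp only [hkΓ, if_false, ite_self, add_zero, Complex.ofReal_zero, sub_zero]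
          exact (hout k hk hkΓ n).trans (by linarith))
    rw [main_sum hΓ (hΓ'.trans hΓ), ← hAdef, zero_mul, add_zero] at h5
    refine h5.trans ?_
    have h6 : (n : ℝ) * τ ≤ u * δ := by
      rw [hδu, le_div_iff₀ (by positivity)]
      have : τ * (V * u ^ 2) ≤ 1 := by
        by_cases hτ0 : 0 ≤ τ
        · refine le_trans ?_ hτ'
          apply mul_le_mul_of_nonneg_left _ hτ0
          have h9 : 0 < V * u ^ 2 := by positivity
          calc V * u ^ 2 = 1 * (V * u ^ 2) := by ring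
            _ ≤ P * (V * u ^ 2) := mul_le_mul_of_nonneg_right hP1 h9.le
            _ = _ := by ring
        · have : τ * (V * u ^ 2) ≤ 0 := mul_nonpos_of_nonpos_of_nonneg (by linarith) (by positivity)
          linarith
      calc (n : ℝ) * τ * (V * u ^ 2) = (n : ℝ) * (τ * (V * u ^ 2)) := by ring
        _ ≤ (n : ℝ) * 1 := mul_le_mul_of_nonneg_left this hn0'.le
        _ = n := mul_one _
    have h9 : u * (4 * δ) = 4 * (u * δ) := by ring
    have h10 : 0 < (n : ℝ) * |A| := mul_pos hn0' hA0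
    linarith
  -- the return time
  obtain ⟨q, hq1, hqP, hq⟩ := h.hdir (2 * n) (U ^ (2 * C + 9)) (Nat.pos_of_ne_zero (by
    have := h.hU
    positivity))
  have hqPr : (q : ℝ) ≤ P := by
    have : (q : ℝ) ≤ (((U ^ (2 * C + 9)) ^ d : ℕ) : ℝ) := by exact_mod_cast hqP
    refine this.trans (le_of_eq ?_)
    push_cast
    rw [hP, hu, pow_mul]
  have hq1r : (1 : ℝ) ≤ q := by exact_mod_cast hq1
  set n1 : ℕ := 2 * n * q with hn1def
  set n' : ℕ := n1 - n with hn'def
  have hn'n : n' + n = n1 := by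
    have h9 : 2 * n ≤ 2 * n * q := Nat.le_mul_of_pos_right _ hq1
    omega
  have hn'ge : n0 ≤ n' := by
    have : 2 * n ≤ 2 * n * q := Nat.le_mul_of_pos_right _ hq1
    omega
  have hn1r : (n1 : ℝ) = 2 * n * q := by rw [hn1def]; push_cast; ring
  have hn1P : (n1 : ℝ) ≤ 2 * n * P := by
    rw [hn1r]; exact mul_le_mul_of_nonneg_left hqPr (by positivity)
  have hn'r : (n' : ℝ) = n1 - n := by
    have : ((n' + n : ℕ) : ℝ) = n1 := by rw [hn'n]
    push_cast at this
    linarith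
  have hn'P : (n' : ℝ) ≤ 2 * n * P := by rw [hn'r]; linarith
  have hQ : ((U ^ (2 * C + 9) : ℕ) : ℝ) = V ^ 2 * u ^ 9 := by
    push_cast
    rw [hV, ← hu]
    ring
  have huQ : u / (V ^ 2 * u ^ 9) = 1 / (V ^ 2 * u ^ 8) := by
    field_simp
  have hSn' : |S n' - (-(n : ℝ) * A + n1 * A')| ≤ 22 * (u * δ) + n' * τ := by
    have h5 := h.approx n' (fun k => (if k ∈ Γ then (-(n : ℝ)) else 0) + (if k ∈ Γ' then (n1 : ℝ) else 0))
      (22 * δ) (by positivity) (by
        intro k hk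
        by_cases hkΓ : k ∈ Γ
        · by_cases hkΓ' : k ∈ Γ'
          · simp only [hkΓ, hkΓ', if_true]
            have e1 : (-(n : ℝ)) + (n1 : ℝ) = (n' : ℝ) := by rw [hn'r]; ring
            rw [e1]
            have e2 := Es_sub_n (θ k) n'
            rw [Complex.ofReal_natCast]
            refine e2.trans ?_
            have e3 : |θ k| ≤ ω * u / G := by
              rw [le_div_iff₀ hGpos]; exact h3 k hkΓ'
            calc 4 * (n' : ℝ) ^ 2 * |θ k| ≤ 4 * (2 * n * P) ^ 2 * (ω * u / G) := by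
                  apply mul_le_mul _ e3 (abs_nonneg _) (by positivity)
                  apply mul_le_mul_of_nonneg_left _ (by norm_num)
                  exact pow_le_pow_left₀ (by positivity) hn'P 2
              _ = 16 * ((n : ℝ) ^ 2 * ω * u) * (P ^ 2 / G) := by ring
              _ ≤ 16 * δ * 1 := by
                  apply mul_le_mul _ _ (by positivity) (by positivity)
                  · linarith
                  · rw [div_le_one hGpos]; exact hG2
              _ ≤ 22 * δ := by linarith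
          · simp only [hkΓ, hkΓ', if_true, if_false, add_zero]
            obtain ⟨m, hm⟩ := hq k hk
            have hm' : |(n1 : ℝ) * θ k - m| ≤ 1 / (V ^ 2 * u ^ 8) := by
              rw [hQ, huQ] at hm
              exact hm
            have e1 : Es (θ k) n1 = Es (θ k) n' + ee (n' * θ k) * Es (θ k) n := by
              rw [← hn'n, Es_add]
            have e2 : Es (θ k) n' - ((-(n : ℝ) : ℝ) : ℂ) = Es (θ k) n1 -
                ((ee (n' * θ k) - 1) * Es (θ k) n + (Es (θ k) n - n)) := by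
              rw [e1]; push_cast; ring
            rw [e2]
            have e3 := Es_le' (h.hθ k hk) (h.hθ0 k hk) n1 m
            have e4 := Es_sub_n (θ k) n
            have e5 := Es_le_n (θ k) n
            have e6 := ee_sub_one_le' (n' * θ k) m
            have hθpos : 0 < |θ k| := abs_pos.mpr (h.hθ0 k hk)
            have e7 : |(n' : ℝ) * θ k - m| ≤ 1 / (V ^ 2 * u ^ 8) + n * |θ k| := by
              have : (n' : ℝ) * θ k - m = ((n1 : ℝ) * θ k - m) - n * θ k := by rw [hn'r]; ring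
              rw [this]
              refine (abs_sub _ _).trans ?_
              rw [abs_mul (n : ℝ), abs_of_nonneg (Nat.cast_nonneg n : (0 : ℝ) ≤ n)]
              linarith
            have e8 : ‖Es (θ k) n1‖ ≤ 4 * δ := by
              refine e3.trans ?_
              rw [div_le_iff₀ hθpos]
              have e9 := h2 k hkΓ hkΓ'
              -- 2/(V²u⁸) ≤ 4 n/(V u³) |θ|
              have e10 : 1 / (V ^ 2 * u ^ 8) ≤ 2 * δ * |θ k| := by
                rw [div_le_iff₀ (by positivity), hδ]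
                have : 2 * (n / (V * u ^ 3)) * |θ k| * (V ^ 2 * u ^ 8) =
                    2 * n * (u * |θ k| * (V * u ^ 4)) := by field_simp
                rw [this]
                refine hnge.trans ?_
                apply mul_le_mul_of_nonneg_left _ (by positivity)
                exact mul_le_mul_of_nonneg_right e9 (by positivity)
              linarith
            have e11 : n * (1 / (V ^ 2 * u ^ 8)) ≤ δ := by
              rw [hδ, mul_one_div, div_le_div_iff₀ (by positivity) (by positivity)]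
              apply mul_le_mul_of_nonneg_left _ hn0'.le
              calc V * u ^ 3 = V * u ^ 3 * 1 := by ring
                _ ≤ V * u ^ 3 * (V * u ^ 5) := by
                    apply mul_le_mul_of_nonneg_left _ (by positivity)
                    exact one_le_mul_of_one_le_of_one_le hV1 (one_le_pow₀ hu1)
                _ = _ := by ring
            have e12 : (n : ℝ) ^ 2 * |θ k| ≤ δ := by
              refine le_trans ?_ hnω
              calc (n : ℝ) ^ 2 * |θ k| ≤ (n : ℝ) ^ 2 * (ω * u) :=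
                    mul_le_mul_of_nonneg_left (h1 k hkΓ) (by positivity)
                _ = _ := by ring
            have e13 : ‖(ee (n' * θ k) - 1) * Es (θ k) n‖ ≤ 14 * δ := by
              rw [norm_mul]
              calc ‖ee (n' * θ k) - 1‖ * ‖Es (θ k) n‖
                  ≤ (7 * (1 / (V ^ 2 * u ^ 8) + n * |θ k|)) * n := by
                    apply mul_le_mul _ e5 (norm_nonneg _) (by positivity)
                    linarith
                _ = 7 * (n * (1 / (V ^ 2 * u ^ 8))) + 7 * ((n : ℝ) ^ 2 * |θ k|) := by ring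
                _ ≤ 14 * δ := by linarith
            calc ‖Es (θ k) n1 - ((ee (n' * θ k) - 1) * Es (θ k) n + (Es (θ k) n - n))‖
                ≤ ‖Es (θ k) n1‖ + (‖(ee (n' * θ k) - 1) * Es (θ k) n‖ + ‖Es (θ k) n - n‖) := by
                  refine (norm_sub_le _ _).trans ?_
                  have := norm_add_le ((ee (n' * θ k) - 1) * Es (θ k) n) (Es (θ k) n - n)
                  linarith
              _ ≤ 22 * δ := by linarith
        · have hkΓ' : k ∉ Γ' := fun hh => hkΓ (hΓ' hh)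
          simp only [hkΓ, hkΓ', if_false, add_zero, Complex.ofReal_zero, sub_zero]
          exact (hout k hk hkΓ n').trans (by linarith))
    rw [main_sum hΓ (hΓ'.trans hΓ), ← hAdef, ← hA'def] at h5
    refine h5.trans (le_of_eq ?_)
    ring
  have h5 : (n' : ℝ) * τ ≤ 2 * (u * δ) := by
    by_cases hτ0 : 0 ≤ τ
    · have e1 : (n' : ℝ) * τ ≤ 2 * n * P * τ := mul_le_mul_of_nonneg_right hn'P hτ0
      refine e1.trans ?_
      rw [hδu, ← mul_div_assoc, le_div_iff₀ (by positivity)]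
      calc 2 * (n : ℝ) * P * τ * (V * u ^ 2) = 2 * (n : ℝ) * (τ * (P * V * u ^ 2)) := by ring
        _ ≤ 2 * (n : ℝ) * 1 := mul_le_mul_of_nonneg_left hτ' (by positivity)
        _ = 2 * (n : ℝ) := mul_one _
    · have : (n' : ℝ) * τ ≤ 0 := mul_nonpos_of_nonneg_of_nonpos (by positivity) (by linarith)
      have : 0 < u * δ := by positivity
      linarith
  have h6 : |(n1 : ℝ) * A'| ≤ 2 * (u * δ) := by
    rw [abs_mul, abs_of_nonneg (Nat.cast_nonneg n1)]
    have e1 : (n1 : ℝ) * |A'| ≤ 2 * n * P * |A'| := mul_le_mul_of_nonneg_right hn1P (abs_nonneg _)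
    refine e1.trans ?_
    rw [hδu, ← mul_div_assoc, le_div_iff₀ (by positivity)]
    calc 2 * (n : ℝ) * P * |A'| * (V * u ^ 2) = 2 * (n : ℝ) * (|A'| * (V * P * u ^ 2)) := by ring
      _ ≤ 2 * (n : ℝ) * 1 := mul_le_mul_of_nonneg_left hcon'.le (by positivity)
      _ = 2 * (n : ℝ) := mul_one _
  have h7 : |S n' - (-(n : ℝ) * A)| ≤ n * |A| / 4 := by
    have e1 : S n' - (-(n : ℝ) * A) = (S n' - (-(n : ℝ) * A + n1 * A')) + n1 * A' := by ring
    rw [e1]
    refine (abs_add_le _ _).trans ?_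
    have e2 : 0 < (n : ℝ) * |A| := mul_pos hn0' hA0
    linarith
  have h8 := h.hsign n n' (by omega) hn'ge
  rw [abs_le] at hSn h7
  have hnA : 0 < n * |A| := by positivity
  rcases abs_cases A with ⟨hc, _⟩ | ⟨hc, _⟩
  · rw [hc] at hSn h7 hnA
    have e1 : 0 < S n := by linarith [hSn.1]
    have e2 : S n' < 0 := by linarith [h7.2]
    linarith [mul_neg_of_pos_of_neg e1 e2]
  · rw [hc] at hSn h7 hnA
    have e1 : S n < 0 := by linarith [hSn.2]
    have e2 : 0 < S n' := by linarith [h7.1]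
    linarith [mul_neg_of_neg_of_pos e1 e2]

end Pool.Agent.R294.CB
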