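import Pool.Agent.R294.CB1
import Pool.Agent.R294.CB3

/-!
Birkhoff sums that are very well approximated by trigonometric sums do not tend to infinity.
-/

namespace Pool.Agent.R294.CB

open Finset Filter

section

variable {ι : Type*} [DecidableEq ι]
variable {I : Finset ι} {θ : ι → ℝ} {c : ι → ℂ} {S : ℕ → ℝ} {U : ℕ} {G τ : ℝ} {d n0 : ℕ}

/-- The first cluster. -/
theorem Dat.base (h : Dat I θ c S U G τ d n0) {Γ : Finset ι} (hΓ : Γ ⊆ I)
    (hin : ∀ k ∈ Γ, |θ k| * G ≤ U) (hout : ∀ k ∈ I, k ∉ Γ → 1 ≤ (U : ℝ) ^ 2 * |θ k|)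
    (hG : (U : ℝ) ^ (10 * d + 5) ≤ G) (hB : ∀ n, n0 ≤ n → 4 ≤ |S n|) (hn01 : 1 ≤ n0) :
    1 ≤ |∑ k ∈ Γ, (c k).re| * (U : ℝ) ^ (5 * d + 1) := by
  set u : ℝ := (U : ℝ) with hu
  set P : ℝ := u ^ (5 * d) with hP
  set A : ℝ := ∑ k ∈ Γ, (c k).re with hAdef
  have hu14 : (14 : ℝ) ≤ u := by rw [hu]; exact_mod_cast h.hU
  have hu0 : 0 < u := by linarith
  have hu1 : 1 ≤ u := by linarith
  have hP1 : 1 ≤ P := one_le_pow₀ hu1
  have hP0 : 0 < P := by linarith
  have hGpos := h.hG0
  have hGb : P ^ 2 * u ^ 5 ≤ G := by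
    refine le_trans (le_of_eq ?_) hG
    rw [hP]; ring
  obtain ⟨q, hq1, hqP, hq⟩ := h.hdir n0 (U ^ 5) (Nat.pos_of_ne_zero (by
    have := h.hU
    positivity))
  have hqPr : (q : ℝ) ≤ P := by
    have : (q : ℝ) ≤ (((U ^ 5) ^ d : ℕ) : ℝ) := by exact_mod_cast hqP
    refine this.trans (le_of_eq ?_)
    push_cast
    rw [hP, hu, pow_mul]
  set n1 : ℕ := n0 * q with hn1
  have hn0u : (n0 : ℝ) ≤ u := by
    have : ((n0 + 1 : ℕ) : ℝ) ≤ u := by rw [hu]; exact_mod_cast h.hn0
    push_cast at this
    linarith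
  have hn1P : (n1 : ℝ) ≤ u * P := by
    rw [hn1]; push_cast
    exact mul_le_mul hn0u hqPr (Nat.cast_nonneg _) hu0.le
  have hn1ge : n0 ≤ n1 := Nat.le_mul_of_pos_right _ hq1
  have h1 := h.approx n1 (fun k => (if k ∈ Γ then (n1 : ℝ) else 0) + (if k ∈ Γ then 0 else 0))
    (4 / u ^ 2) (by positivity) (by
      intro k hk
      by_cases hkΓ : k ∈ Γ
      · simp only [hkΓ, if_true, add_zero, Complex.ofReal_natCast]
        refine (Es_sub_n (θ k) n1).trans ?_
        have e1 : |θ k| ≤ u / G := by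
          rw [le_div_iff₀ hGpos]; exact hin k hkΓ
        calc 4 * (n1 : ℝ) ^ 2 * |θ k| ≤ 4 * (u * P) ^ 2 * (u / G) := by
              apply mul_le_mul _ e1 (abs_nonneg _) (by positivity)
              apply mul_le_mul_of_nonneg_left _ (by norm_num)
              exact pow_le_pow_left₀ (by positivity) hn1P 2
          _ = 4 * (u ^ 3 * P ^ 2 / G) := by ring
          _ ≤ 4 * (1 / u ^ 2) := by
              apply mul_le_mul_of_nonneg_left _ (by norm_num)
              rw [div_le_div_iff₀ hGpos (by positivity), one_mul]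
              calc u ^ 3 * P ^ 2 * u ^ 2 = P ^ 2 * u ^ 5 := by ring
                _ ≤ G := hGb
          _ = 4 / u ^ 2 := by ring
      · simp only [hkΓ, if_false, add_zero, Complex.ofReal_zero, sub_zero]
        obtain ⟨m, hm⟩ := hq k hk
        have hθpos : 0 < |θ k| := abs_pos.mpr (h.hθ0 k hk)
        have e1 := Es_le' (h.hθ k hk) (h.hθ0 k hk) n1 m
        refine e1.trans ?_
        rw [div_le_iff₀ hθpos]
        have e2 : |(n1 : ℝ) * θ k - m| ≤ 1 / u ^ 4 := by
          refine hm.trans (le_of_eq ?_)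
          push_cast
          rw [← hu]
          field_simp
        have e3 := hout k hk hkΓ
        have e4 : 1 / u ^ 4 ≤ |θ k| / u ^ 2 := by
          rw [div_le_div_iff₀ (by positivity) (by positivity)]
          calc 1 * u ^ 2 ≤ (u ^ 2 * |θ k|) * u ^ 2 := mul_le_mul_of_nonneg_right e3 (by positivity)
            _ = _ := by ring
        have e5 : 4 / u ^ 2 * |θ k| = 4 * (|θ k| / u ^ 2) := by ring
        rw [e5]
        have e6 : 0 ≤ |θ k| / u ^ 2 := by positivity
        linarith)
  rw [main_sum hΓ hΓ, ← hAdef, zero_mul, add_zero] at h1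
  have h2 : u * (4 / u ^ 2) ≤ 1 := by
    have : u * (4 / u ^ 2) = 4 / u := by field_simp
    rw [this, div_le_one hu0]
    linarith
  have h3 : (n1 : ℝ) * τ ≤ 1 := by
    by_cases hτ0 : 0 ≤ τ
    · calc (n1 : ℝ) * τ ≤ u * P * τ := mul_le_mul_of_nonneg_right hn1P hτ0
        _ = τ * (u * P) := by ring
        _ ≤ τ * G := by
            apply mul_le_mul_of_nonneg_left _ hτ0
            refine le_trans ?_ hGb
            calc u * P = u * P * 1 := by ring
              _ ≤ u * P * (P * u ^ 4) := by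
                  apply mul_le_mul_of_nonneg_left _ (by positivity)
                  exact one_le_mul_of_one_le_of_one_le hP1 (one_le_pow₀ hu1)
              _ = _ := by ring
        _ ≤ 1 := h.hτ
    · have : (n1 : ℝ) * τ ≤ 0 := mul_nonpos_of_nonneg_of_nonpos (by positivity) (by linarith)
      linarith
  have h4 := hB n1 hn1ge
  have h5 : 1 ≤ |(n1 : ℝ) * A| := by
    have : |S n1| ≤ |S n1 - n1 * A| + |(n1 : ℝ) * A| := by
      have := abs_add_le (S n1 - n1 * A) (n1 * A)
      rwa [sub_add_cancel] at this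
    linarith
  rw [abs_mul, abs_of_nonneg (Nat.cast_nonneg n1 : (0 : ℝ) ≤ n1)] at h5
  calc (1 : ℝ) ≤ n1 * |A| := h5
    _ ≤ (u * P) * |A| := mul_le_mul_of_nonneg_right hn1P (abs_nonneg _)
    _ = |A| * u ^ (5 * d + 1) := by rw [hP]; ring

/-- The required exponent. -/
def need (d : ℕ) : ℕ → ℕ → ℕ
  | 0, _ => 0
  | m + 1, C => max (2 * ((2 * C + 9) * d) + 2 * C + 8) (need d m (C + (2 * C + 9) * d + 2))

/-- Descending through the clusters. -/
theorem Dat.descend (h : Dat I θ c S U G τ d n0) (w : ι → ℝ) (hw : ∀ k ∈ I, w k = |θ k|)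
    (s : Finset ι) (hw0 : ∀ k ∈ s, 0 < w k) (hG1 : 1 < G) (hsep : Sep w G s)
    (hcl : ∀ a ∈ I, ∃ b ∈ s, w a < U * w b ∧ w b < U * w a) :
    ∀ (m C : ℕ) (s' : Finset ι), s' ⊆ s → s'.card = m →
      (∀ a ∈ s, a ∉ s' → ∀ b ∈ s', w b * G ≤ w a) → (∀ b ∈ s', w b * G ≤ U) →
      (U : ℝ) ^ (need d m C) ≤ G →
      1 ≤ |∑ k ∈ I.filter (fun k => ∃ b ∈ s', w k < U * w b ∧ w b < U * w k), (c k).re| *
        (U : ℝ) ^ C → False := by
  have hu14 : (14 : ℝ) ≤ (U : ℝ) := by exact_mod_cast h.hU
  have hu0 : (0 : ℝ) < U := by linarith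
  intro m
  induction m with
  | zero =>
    intro C s' _ hcard _ _ _ hA
    rw [Finset.card_eq_zero] at hcard
    subst hcard
    simp at hA
    linarith
  | succ m ih =>
    intro C s' hs' hcard hdown hsmall hneed hA
    obtain ⟨b0, hb0, hmax⟩ := Finset.exists_max_image s' w (Finset.card_pos.mp (by omega))
    have hlow : ∀ b ∈ s'.erase b0, w b * G ≤ w b0 := by
      intro b hb
      rw [mem_erase] at hb
      rcases hsep b (hs' hb.2) b0 (hs' hb0) hb.1 with h5 | h5
      · linarith
      · exfalso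
        have h6 := hmax b hb.2
        have h7 := hw0 b0 (hs' hb0)
        nlinarith
    apply ih (C + (2 * C + 9) * d + 2) (s'.erase b0) ((erase_subset _ _).trans hs')
      (by rw [card_erase_of_mem hb0]; omega)
    · intro a ha ha' b hb
      by_cases hab : a = b0
      · rw [hab]; exact hlow b hb
      · have : a ∉ s' := fun hh => ha' (mem_erase.mpr ⟨hab, hh⟩)
        exact hdown a ha this b (mem_of_mem_erase hb)
    · intro b hb
      exact hsmall b (mem_of_mem_erase hb)
    · refine le_trans ?_ hneed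
      apply pow_le_pow_right₀ (by linarith)
      rw [need]
      exact le_max_right _ _
    · refine h.stage
        (Γ := I.filter (fun k => ∃ b ∈ s', w k < U * w b ∧ w b < U * w k))
        (Γ' := I.filter (fun k => ∃ b ∈ s'.erase b0, w k < U * w b ∧ w b < U * w k))
        (Finset.filter_subset _ _) ?_ C (w b0) (hw0 b0 (hs' hb0)) (hsmall b0 hb0) ?_ ?_ ?_ ?_ ?_ hA
      · intro k hk
        rw [mem_filter] at hk ⊢
        obtain ⟨hkI, b, hb, hb1, hb2⟩ := hk
        exact ⟨hkI, b, mem_of_mem_erase hb, hb1, hb2⟩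
      · intro k hk
        rw [mem_filter] at hk
        obtain ⟨hkI, b, hb, hb1, hb2⟩ := hk
        rw [← hw k hkI, mul_comm]
        have := hmax b hb
        nlinarith
      · intro k hk hk'
        rw [mem_filter] at hk hk'
        obtain ⟨hkI, b, hb, hb1, hb2⟩ := hk
        rw [← hw k hkI]
        by_cases hbb : b = b0
        · rw [hbb] at hb2; exact hb2.le
        · exact absurd ⟨hkI, b, mem_erase.mpr ⟨hbb, hb⟩, hb1, hb2⟩ hk'
      · intro k hk
        rw [mem_filter] at hk
        obtain ⟨hkI, b, hb, hb1, hb2⟩ := hk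
        rw [← hw k hkI]
        have h5 := hlow b hb
        calc w k * G ≤ (U * w b) * G := mul_le_mul_of_nonneg_right hb1.le (by linarith)
          _ = U * (w b * G) := by ring
          _ ≤ U * w b0 := mul_le_mul_of_nonneg_left h5 hu0.le
          _ = w b0 * U := mul_comm _ _
      · intro k hkI hk
        obtain ⟨b, hb, hb1, hb2⟩ := hcl k hkI
        rw [← hw k hkI]
        have hbs : b ∉ s' := fun hh => hk (mem_filter.mpr ⟨hkI, b, hh, hb1, hb2⟩)
        exact (hdown b hb hbs b0 hb0).trans hb2.le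
      · refine le_trans ?_ hneed
        apply pow_le_pow_right₀ (by linarith)
        rw [need]
        exact le_max_left _ _

end

/-- The main exponent. -/
def bigM (d : ℕ) : ℕ := (∑ m ∈ range (d + 2), need d m (5 * d + 1)) + (10 * d + 5)

/-- The required rate. -/
def rate (d : ℕ) : ℕ := (2 * d + 2) * bigM d ^ (d + 2) + 1

/-- Birkhoff sums that are very well approximated by trigonometric sums do not tend to infinity. -/
theorem core {d : ℕ} (hd : 0 < d) (α : Fin d → ℝ)
    (hα : ∀ k : Fin d → ℤ, k ≠ 0 → ∀ m : ℤ, ip α k ≠ m) (S : ℕ → ℝ) (B : ℝ)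
    (hS : ∀ K : ℕ, 1 ≤ K → ∃ c : (Fin d → ℤ) → ℂ, (∀ k, ‖c k‖ ≤ B) ∧
      ∀ n : ℕ, |S n - (∑ k ∈ (bx d K).erase 0, c k * Es (th α k) n).re| ≤ n * (B / K ^ rate d))
    (hinc : ∀ n, |S (n + 1) - S n| ≤ B) : ¬ Tendsto (fun n => |S n|) atTop atTop := by
  classical
  intro hT
  obtain ⟨n00, hn00⟩ := (hT.eventually_ge_atTop (max 4 (B + 1))).exists_forall_of_atTop
  set n0 := n00 + 1 with hn0
  have h4 : ∀ n, n0 ≤ n → 4 ≤ |S n| := fun n hn => (le_max_left _ _).trans (hn00 n (by omega))
  have hB1 : ∀ n, n0 ≤ n → B + 1 ≤ |S n| := fun n hn => (le_max_right _ _).trans (hn00 n (by omega))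
  have hcons : ∀ n, n0 ≤ n → 0 < S n * S (n + 1) := by
    intro n hn
    have h1 := hinc n
    have h2 := hB1 n hn
    have h3 := h4 n hn
    rw [abs_le] at h1
    rcases abs_cases (S n) with ⟨h, h'⟩ | ⟨h, h'⟩
    · rw [h] at h2 h3
      have : 0 < S (n + 1) := by linarith
      have : 0 < S n := by linarith
      positivity
    · rw [h] at h2 h3
      have : S (n + 1) < 0 := by linarith
      exact mul_pos_of_neg_of_neg h' this
  have hsign0 : ∀ n, n0 ≤ n → 0 < S n0 * S n := by
    intro n hn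
    induction n, hn using Nat.le_induction with
    | base =>
      have h3 := h4 n0 le_rfl
      have : S n0 ≠ 0 := by
        intro h0
        rw [h0] at h3
        simp at h3
        linarith
      exact mul_self_pos.mpr this
    | succ n hn ih =>
      have h1 := hcons n hn
      have h2 : 0 < (S n0 * S n) * (S n * S (n + 1)) := mul_pos ih h1
      have h3 : (S n0 * S n) * (S n * S (n + 1)) = (S n0 * S (n + 1)) * (S n) ^ 2 := by ring
      rw [h3] at h2
      exact pos_of_mul_pos_left h2 (sq_nonneg _)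
  have hsign : ∀ n m, n0 ≤ n → n0 ≤ m → 0 < S n * S m := by
    intro n m hn hm
    have h1 := hsign0 n hn
    have h2 := hsign0 m hm
    have h3 : 0 < (S n0 * S n) * (S n0 * S m) := mul_pos h1 h2
    have h5 : (S n0 * S n) * (S n0 * S m) = (S n * S m) * (S n0) ^ 2 := by ring
    rw [h5] at h3
    exact pos_of_mul_pos_left h3 (sq_nonneg _)
  obtain ⟨b0, hb0⟩ := exists_nat_ge B
  set M := bigM d with hM
  have hM1 : 1 ≤ M := by rw [hM, bigM]; omega
  set K : ℕ := (d + 2) + (n0 + 1) + 14 + b0 with hK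
  have hK1 : 1 ≤ K := by omega
  obtain ⟨c, hcB, hc⟩ := hS K hK1
  obtain ⟨U, hKU, hUM, s, hs, hsep, hcl⟩ := clusters hd (K := K) (by omega) α hα M hM1
  have hKr : (1 : ℝ) ≤ K := by exact_mod_cast hK1
  have hK0 : (0 : ℝ) < K := by linarith
  have hBK : B ≤ K := by
    refine hb0.trans ?_
    exact_mod_cast (by omega : b0 ≤ K)
  have hK2U : K ^ 2 ≤ U := (Nat.pow_le_pow_right hK1 (by omega)).trans hKU
  have hKleU : K ≤ U := (Nat.le_self_pow (by norm_num) K).trans hK2U
  have hU14 : 14 ≤ U := by omega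
  have hU14r : (14 : ℝ) ≤ U := by exact_mod_cast hU14
  have hB0 : 0 ≤ B := (norm_nonneg _).trans (hcB 0)
  set G : ℝ := (U : ℝ) ^ M with hG
  have hG1 : 1 < G := one_lt_pow₀ (by linarith) (by omega)
  have hUG : (U : ℝ) ≤ G := le_self_pow₀ (by linarith) (by omega)
  have hGK : G ≤ (K : ℝ) ^ ((2 * d + 2) * M ^ (d + 2)) := by
    rw [hG]; exact_mod_cast hUM
  have hD : Dat ((bx d K).erase 0) (th α) c S U G (B / K ^ rate d) d n0 := by
    refine ⟨hU14, by omega, ?_, ?_, ?_, hc, ?_, by linarith, hsign, ?_⟩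
    · calc ∑ k ∈ (bx d K).erase 0, ‖c k‖ ≤ ∑ _k ∈ (bx d K).erase 0, B :=
            Finset.sum_le_sum fun k _ => hcB k
        _ ≤ ∑ _k ∈ bx d K, B :=
            Finset.sum_le_sum_of_subset_of_nonneg (erase_subset _ _) fun _ _ _ => hB0
        _ = ((bx d K).card : ℝ) * B := by rw [Finset.sum_const, nsmul_eq_mul]
        _ ≤ ((K : ℝ) ^ 2) ^ d * K := by
            apply mul_le_mul _ hBK hB0 (by positivity)
            have h1 : (bx d K).card ≤ (K ^ 2) ^ d := by
              rw [bx, Fintype.card_piFinset, Finset.prod_const, Finset.card_univ, Fintype.card_fin,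
                Int.card_Icc]
              apply Nat.pow_le_pow_left
              have : ((K : ℤ) + 1 - -(K : ℤ)).toNat = 2 * K + 1 := by omega
              rw [this]
              nlinarith
            exact_mod_cast h1
        _ = (K : ℝ) ^ (2 * d + 1) := by ring
        _ ≤ (K : ℝ) ^ (2 * d + 2) := pow_le_pow_right₀ hKr (by omega)
        _ ≤ U := by exact_mod_cast hKU
    · intro k _; exact th_abs_le α k
    · intro k hk
      rw [th, sub_ne_zero]
      exact hα k (Finset.ne_of_mem_erase hk) _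
    · rw [rate, ← hM, div_mul_eq_mul_div, div_le_one (by positivity), pow_succ, mul_comm B]
      exact mul_le_mul hGK hBK hB0 (by positivity)
    · intro n Q hQ
      obtain ⟨q, hq1, hq2, hq⟩ := dirichlet (fun i => (n : ℝ) * α i) Q hQ
      refine ⟨q, hq1, hq2, fun k hk => ?_⟩
      choose m hm using hq
      have hQr : (0 : ℝ) < Q := by exact_mod_cast hQ
      refine ⟨∑ i, k i * m i - (n * q : ℕ) * round (ip α k), ?_⟩
      have h1 : ((n * q : ℕ) : ℝ) * th α k -
          ((∑ i, k i * m i - (n * q : ℕ) * round (ip α k) : ℤ) : ℝ) =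
          ∑ i, (k i : ℝ) * ((q : ℝ) * (n * α i) - m i) := by
        push_cast
        have h2 : ∑ i, (k i : ℝ) * ((q : ℝ) * (n * α i) - m i) =
            (n : ℝ) * q * ip α k - ∑ i, (k i : ℝ) * m i := by
          rw [ip, Finset.mul_sum, ← Finset.sum_sub_distrib]
          exact Finset.sum_congr rfl fun i _ => by ring
        rw [h2, th]
        ring
      rw [h1]
      calc |∑ i, (k i : ℝ) * ((q : ℝ) * (n * α i) - m i)|
          ≤ ∑ i, |(k i : ℝ) * ((q : ℝ) * (n * α i) - m i)| := Finset.abs_sum_le_sum_abs _ _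
        _ ≤ ∑ _i : Fin d, (K : ℝ) * (1 / Q) := by
            refine Finset.sum_le_sum fun i _ => ?_
            rw [abs_mul]
            apply mul_le_mul _ (hm i) (abs_nonneg _) hK0.le
            have := mem_bx.mp (Finset.mem_of_mem_erase hk) i
            exact_mod_cast this
        _ = (d * K : ℕ) / Q := by simp; ring
        _ ≤ U / Q := by
            apply div_le_div_of_nonneg_right _ hQr.le
            have : d * K ≤ U := by
              refine le_trans ?_ hK2U
              rw [pow_two]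
              exact Nat.mul_le_mul_right _ (by omega)
            exact_mod_cast this
  have hwI : ∀ k ∈ (bx d K).erase 0, wt α k = |th α k| := fun k hk =>
    wt_ne α (Finset.ne_of_mem_erase hk)
  have h0bx : (0 : Fin d → ℤ) ∈ bx d K := by
    rw [mem_bx]; intro i; simp
  obtain ⟨bt, hbt, hbt1, hbt2⟩ := hcl 0 h0bx
  rw [wt_zero, mul_one] at *
  have hbt1' : 1 < U * wt α bt := hbt1
  -- the lower clusters
  have hlow : ∀ b ∈ s.erase bt, wt α b * G ≤ wt α bt := by
    intro b hb
    rw [mem_erase] at hb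
    rcases hsep b hb.2 bt hbt hb.1 with h5 | h5
    · linarith
    · exfalso
      have h6 := wt_le_one α b
      have h7 : (U : ℝ) * wt α bt ≤ G * wt α bt :=
        mul_le_mul_of_nonneg_right hUG (wt_pos hα bt).le
      linarith
  have hcards : s.card ≤ d + 1 := by
    apply family_card hd hK1 α hα G _ s hs hsep
    have hKd2 : ((d : ℝ) + 2) ≤ K := by exact_mod_cast (by omega : d + 2 ≤ K)
    calc ((d : ℝ) + 1) * (((d : ℝ) + 1) * K) ^ d ≤ ((d : ℝ) + 1) * ((K : ℝ) * K) ^ d := by
          apply mul_le_mul_of_nonneg_left _ (by positivity)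
          apply pow_le_pow_left₀ (by positivity)
          nlinarith
      _ < (K : ℝ) * ((K : ℝ) * K) ^ d := by
          apply mul_lt_mul_of_pos_right _ (by positivity)
          linarith
      _ ≤ ((K : ℝ) * K) * ((K : ℝ) * K) ^ d := by
          apply mul_le_mul_of_nonneg_right _ (by positivity)
          nlinarith
      _ = (K : ℝ) ^ (2 * d + 2) := by ring
      _ ≤ U := by exact_mod_cast hKU
      _ ≤ G := hUG
  have hcards' : (s.erase bt).card < d + 2 := by
    have := Finset.card_erase_le (s := s) (a := bt)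
    omega
  refine hD.descend (wt α) hwI s (fun k _ => wt_pos hα k) hG1 hsep
    (fun a ha => hcl a (Finset.mem_of_mem_erase ha)) (s.erase bt).card (5 * d + 1) (s.erase bt)
    (erase_subset _ _) rfl ?_ ?_ ?_ ?_
  · intro a ha ha' b hb
    have : a = bt := by
      by_contra hne
      exact ha' (mem_erase.mpr ⟨hne, ha⟩)
    rw [this]
    exact hlow b hb
  · intro b hb
    have h1 := hlow b hb
    have h2 := wt_le_one α bt
    linarith
  · rw [hG]
    apply pow_le_pow_right₀ (by linarith)
    rw [hM, bigM]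
    have := Finset.single_le_sum (f := fun m => need d m (5 * d + 1)) (fun _ _ => Nat.zero_le _)
      (mem_range.mpr hcards')
    omega
  · apply hD.base (Finset.filter_subset _ _)
    · intro k hk
      rw [mem_filter] at hk
      obtain ⟨hkI, b, hb, hb1, hb2⟩ := hk
      rw [← hwI k hkI]
      have h1 := hlow b hb
      have h2 := wt_le_one α bt
      calc wt α k * G ≤ (U * wt α b) * G := mul_le_mul_of_nonneg_right hb1.le (by linarith)
        _ = U * (wt α b * G) := by ring
        _ ≤ U * 1 := mul_le_mul_of_nonneg_left (by linarith) (by linarith)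
        _ = U := mul_one _
    · intro k hkI hk
      obtain ⟨b, hb, hb1, hb2⟩ := hcl k (Finset.mem_of_mem_erase hkI)
      have hbb : b = bt := by
        by_contra hne
        exact hk (mem_filter.mpr ⟨hkI, b, mem_erase.mpr ⟨hne, hb⟩, hb1, hb2⟩)
      rw [hbb] at hb2
      rw [← hwI k hkI]
      have h1 : (U : ℝ) * wt α bt ≤ U * (U * wt α k) :=
        mul_le_mul_of_nonneg_left hb2.le (by linarith)
      calc (1 : ℝ) ≤ U * wt α bt := hbt1'.le
        _ ≤ U * (U * wt α k) := h1
        _ = (U : ℝ) ^ 2 * wt α k := by ring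
    · rw [hG]
      apply pow_le_pow_right₀ (by linarith)
      rw [hM, bigM]
      omega
    · exact h4
    · omega

end Pool.Agent.R294.CB
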