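import Pool.Agent.R294.CB4

/-!
Decay of the Fourier coefficients of a smooth function on the torus.
-/

namespace Pool.Agent.R294.CB

open Finset Filter MeasureTheory UnitAddTorus

attribute [local instance] instMeasureSpaceUnitAddCircle

/-- The measure on the circle is a Haar measure. -/
local instance : Measure.IsAddHaarMeasure (volume : Measure UnitAddCircle) :=
  inferInstanceAs (Measure.IsAddHaarMeasure AddCircle.haarAddCircle)

/-- The measure on the circle is a probability measure. -/
local instance : IsProbabilityMeasure (volume : Measure UnitAddCircle) :=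
  inferInstanceAs (IsProbabilityMeasure AddCircle.haarAddCircle)

/-- The standard basis vectors. -/
def eb {d : ℕ} (i : Fin d) : Fin d → ℝ := Pi.single i (1 : ℝ)

/-- The projection of `ℝ^d` to the torus. -/
def prj (d : ℕ) (x : Fin d → ℝ) : UnitAddTorus (Fin d) := fun i => (x i : UnitAddCircle)

lemma prj_surj (d : ℕ) : Function.Surjective (prj d) := by
  intro t
  choose x hx using fun i => QuotientAddGroup.mk_surjective (t i)
  exact ⟨x, funext hx⟩

lemma prj_add {d : ℕ} (x y : Fin d → ℝ) : prj d (x + y) = prj d x + prj d y := by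
  funext i
  simp [prj]

lemma prj_nsmul {d : ℕ} (n : ℕ) (x : Fin d → ℝ) : prj d (n • x) = n • prj d x := by
  induction n with
  | zero => funext i; simp [prj]
  | succ n ih => rw [succ_nsmul, succ_nsmul, prj_add, ih]

lemma mFourier_prj {d : ℕ} (k : Fin d → ℤ) (x : Fin d → ℝ) :
    mFourier k (prj d x) = ee (ip x k) := by
  have h1 : ∀ i, fourier (k i) ((x i : UnitAddCircle)) = ee ((k i : ℝ) * x i) := by
    intro i
    rw [fourier_coe_apply, ee]
    congr 1
    push_cast
    ring
  have h2 : mFourier k (prj d x) = ∏ i, fourier (k i) ((x i : UnitAddCircle)) := rfl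
  rw [h2]
  simp_rw [h1]
  rw [ip]
  have : ∀ s : Finset (Fin d), ∏ i ∈ s, ee ((k i : ℝ) * x i) = ee (∑ i ∈ s, (k i : ℝ) * x i) := by
    intro s
    classical
    induction s using Finset.induction_on with
    | empty => simp [ee_zero]
    | insert a s ha ih => rw [prod_insert ha, sum_insert ha, ih, ee_add]
  exact this _

lemma ip_add {d : ℕ} (x y : Fin d → ℝ) (k : Fin d → ℤ) : ip (x + y) k = ip x k + ip y k := by
  simp only [ip, Pi.add_apply, mul_add, Finset.sum_add_distrib]

lemma mFourier_add_pt {d : ℕ} (k : Fin d → ℤ) (s t : UnitAddTorus (Fin d)) :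
    mFourier k (s + t) = mFourier k s * mFourier k t := by
  obtain ⟨x, rfl⟩ := prj_surj d s
  obtain ⟨y, rfl⟩ := prj_surj d t
  rw [← prj_add, mFourier_prj, mFourier_prj, mFourier_prj, ip_add, ee_add]

/-- The difference operator in `ℝ^d`. -/
def dif {d : ℕ} (v : Fin d → ℝ) (F : (Fin d → ℝ) → ℝ) : (Fin d → ℝ) → ℝ := fun x => F x - F (x + v)

/-- `F'` is the derivative of `F` in the direction `e`. -/
def DD {d : ℕ} (e : Fin d → ℝ) (F F' : (Fin d → ℝ) → ℝ) : Prop :=
  ∀ x, HasDerivAt (fun s : ℝ => F (x + s • e)) (F' x) 0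

lemma DD.dif {d : ℕ} {e : Fin d → ℝ} {F F' : (Fin d → ℝ) → ℝ} (h : DD e F F') (v : Fin d → ℝ) :
    DD e (dif v F) (CB.dif v F') := by
  intro x
  have h1 := (h x).sub (h (x + v))
  refine h1.congr_of_eventuallyEq (Eventually.of_forall fun s => ?_)
  simp only [CB.dif, Pi.sub_apply]
  congr 2
  abel

lemma DD.iter {d : ℕ} {e : Fin d → ℝ} (v : Fin d → ℝ) (N : ℕ) :
    ∀ {F F' : (Fin d → ℝ) → ℝ}, DD e F F' → DD e ((CB.dif v)^[N] F) ((CB.dif v)^[N] F') := by
  induction N with
  | zero => intro F F' h; exact h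
  | succ N ih => intro F F' h; exact ih (h.dif v)

lemma DD.at {d : ℕ} {e : Fin d → ℝ} {F F' : (Fin d → ℝ) → ℝ} (h : DD e F F') (x : Fin d → ℝ)
    (s : ℝ) : HasDerivAt (fun s : ℝ => F (x + s • e)) (F' (x + s • e)) s := by
  have h1 := h (x + s • e)
  have h2 : HasDerivAt (fun r : ℝ => r - s) 1 s := (hasDerivAt_id s).sub_const s
  have h3 : HasDerivAt (fun r : ℝ => F (x + s • e + r • e)) (F' (x + s • e))
      ((fun r : ℝ => r - s) s) := by
    simp only [sub_self]; exact h1
  have h4 := HasDerivAt.comp (h := fun r : ℝ => r - s) s h3 h2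
  rw [mul_one] at h4
  refine h4.congr_of_eventuallyEq (Eventually.of_forall fun r => ?_)
  simp only [Function.comp]
  congr 1
  rw [sub_smul]
  abel

/-- Periodicity with respect to integer vectors. -/
def Per {d : ℕ} (F : (Fin d → ℝ) → ℝ) : Prop := ∀ (x : Fin d → ℝ) (m : Fin d → ℤ), F (x + fun i => (m i : ℝ)) = F x

lemma Per.bdd {d : ℕ} {F : (Fin d → ℝ) → ℝ} (h : Per F) (hc : Continuous F) :
    ∃ C : ℝ, ∀ x, |F x| ≤ C := by
  obtain ⟨C, hC⟩ := (isCompact_Icc (a := (0 : Fin d → ℝ)) (b := 1)).exists_bound_of_continuousOn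
    hc.continuousOn
  refine ⟨C, fun x => ?_⟩
  have h1 := h (fun i => Int.fract (x i)) (fun i => ⌊x i⌋)
  have h2 : ((fun i => Int.fract (x i)) + fun i => ((⌊x i⌋ : ℤ) : ℝ)) = x := by
    funext i
    exact Int.fract_add_floor _
  rw [h2] at h1
  rw [h1]
  apply hC
  rw [Set.mem_Icc]
  exact ⟨fun i => Int.fract_nonneg _, fun i => (Int.fract_lt_one _).le⟩

/-- Iterated differences of a smooth periodic function. -/
lemma iter_dif_bound {d : ℕ} (i : Fin d) (N : ℕ) :
    ∀ F : (Fin d → ℝ) → ℝ, Per F → ContDiff ℝ N F →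
      ∃ C : ℝ, ∀ (h : ℝ) (x : Fin d → ℝ), |(dif (h • eb i))^[N] F x| ≤ C * |h| ^ N := by
  induction N with
  | zero =>
    intro F hp hF
    obtain ⟨C, hC⟩ := hp.bdd hF.continuous
    exact ⟨C, fun h x => by simpa using hC x⟩
  | succ N ih =>
    intro F hp hF
    set e : Fin d → ℝ := eb i with he
    set F' : (Fin d → ℝ) → ℝ := fun x => fderiv ℝ F x e with hF'
    have hdiff : Differentiable ℝ F := hF.differentiable (by simp)
    have hDD : DD e F F' := by
      intro x
      have h1 : HasFDerivAt F (fderiv ℝ F x) (x + (0 : ℝ) • e) := by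
        rw [zero_smul, add_zero]
        exact (hdiff x).hasFDerivAt
      have h2 : HasDerivAt (fun s : ℝ => x + s • e) e 0 := by
        have := ((hasDerivAt_id (0 : ℝ)).smul_const e).const_add x
        simpa using this
      exact h1.comp_hasDerivAt (0 : ℝ) h2
    have hp' : Per F' := by
      intro x m
      have h1 : (fun y => F (y + fun i => (m i : ℝ))) = F := funext fun y => hp y m
      have h2 : fderiv ℝ F (x + fun i => (m i : ℝ)) = fderiv ℝ F x := by
        rw [← fderiv_comp_add_right (f := F) (x := x) (fun i => (m i : ℝ)), h1]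
      simp only [hF', h2]
    have hF'c : ContDiff ℝ N F' := by
      have h1 : ContDiff ℝ N (fderiv ℝ F) := by
        apply hF.fderiv_right
        push_cast
        rfl
      exact h1.clm_apply contDiff_const
    obtain ⟨C, hC⟩ := ih F' hp' hF'c
    refine ⟨C, fun h x => ?_⟩
    rw [Function.iterate_succ_apply']
    have hD := DD.iter (h • e) N hDD
    set G := (dif (h • e))^[N] F with hG
    set G' := (dif (h • e))^[N] F' with hG'
    have h1 : ∀ s : ℝ, HasDerivAt (fun s : ℝ => G (x + s • e)) (G' (x + s • e)) s := fun s => hD.at x s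
    have h2 : ‖G (x + h • e) - G (x + (0 : ℝ) • e)‖ ≤ (C * |h| ^ N) * ‖h - 0‖ := by
      apply Convex.norm_image_sub_le_of_norm_hasDerivWithin_le (f := fun s : ℝ => G (x + s • e))
        (f' := fun s : ℝ => G' (x + s • e)) (s := Set.univ) (fun s _ => (h1 s).hasDerivWithinAt)
        (fun s _ => by rw [Real.norm_eq_abs]; exact hC h _) convex_univ (Set.mem_univ _)
        (Set.mem_univ _)
    rw [zero_smul, add_zero, sub_zero, Real.norm_eq_abs, Real.norm_eq_abs] at h2
    rw [dif, abs_sub_comm, pow_succ, ← mul_assoc]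
    exact h2

/-- The difference operator on the torus. -/
def tdif {d : ℕ} (v : UnitAddTorus (Fin d)) (f : UnitAddTorus (Fin d) → ℝ) :
    UnitAddTorus (Fin d) → ℝ := fun t => f t - f (t + v)

lemma tdif_iter {d : ℕ} (v : Fin d → ℝ) (N : ℕ) :
    ∀ (f : UnitAddTorus (Fin d) → ℝ) (x : Fin d → ℝ),
      (tdif (prj d v))^[N] f (prj d x) = (dif v)^[N] (fun y => f (prj d y)) x := by
  induction N with
  | zero => intro f x; rfl
  | succ N ih =>
    intro f x
    rw [Function.iterate_succ_apply, Function.iterate_succ_apply, ih]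
    have : (fun y => tdif (prj d v) f (prj d y)) = dif v (fun y => f (prj d y)) := by
      funext y
      simp only [tdif, dif, prj_add]
    rw [this]

lemma tdif_cont {d : ℕ} (v : UnitAddTorus (Fin d)) (N : ℕ) :
    ∀ (f : UnitAddTorus (Fin d) → ℝ), Continuous f → Continuous ((tdif v)^[N] f) := by
  induction N with
  | zero => intro f hf; exact hf
  | succ N ih =>
    intro f hf
    rw [Function.iterate_succ_apply]
    apply ih
    unfold tdif
    fun_prop

/-- The Fourier coefficients. -/
noncomputable def cf {d : ℕ} (f : UnitAddTorus (Fin d) → ℝ) (k : Fin d → ℤ) : ℂ :=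
  mFourierCoeff (fun t => (f t : ℂ)) k

lemma integrable_aux {d : ℕ} (f : UnitAddTorus (Fin d) → ℝ) (hf : Continuous f) (k : Fin d → ℤ) :
    Integrable (fun t => mFourier (-k) t • ((f t : ℝ) : ℂ)) := by
  apply Continuous.integrable_of_hasCompactSupport
  · exact (mFourier (-k)).continuous.smul (Complex.continuous_ofReal.comp hf)
  · exact HasCompactSupport.of_compactSpace _

lemma cf_tdif {d : ℕ} (v : UnitAddTorus (Fin d)) (k : Fin d → ℤ) (hv : mFourier k v = -1)
    (f : UnitAddTorus (Fin d) → ℝ) (hf : Continuous f) : cf (tdif v f) k = 2 * cf f k := by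
  have h1 : cf (fun t => f (t + v)) k = - cf f k := by
    rw [cf, mFourierCoeff, cf, mFourierCoeff]
    have h2 : ∀ t : UnitAddTorus (Fin d), mFourier (-k) t • ((f (t + v) : ℝ) : ℂ) =
        -(mFourier (-k) (t + v) • ((f (t + v) : ℝ) : ℂ)) := by
      intro t
      rw [mFourier_add_pt, mFourier_neg (n := k) (x := v), hv]
      simp
    simp_rw [h2]
    rw [integral_neg]
    congr 1
    exact integral_add_right_eq_self (μ := (volume : Measure (UnitAddTorus (Fin d))))
      (fun t => mFourier (-k) t • ((f t : ℝ) : ℂ)) v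
  have h3 : cf (tdif v f) k = cf f k - cf (fun t => f (t + v)) k := by
    rw [cf, cf, cf, mFourierCoeff, mFourierCoeff, mFourierCoeff, ← integral_sub
      (integrable_aux f hf k) (integrable_aux (fun t => f (t + v)) (by fun_prop) k)]
    congr 1
    funext t
    simp only [tdif, Complex.ofReal_sub, smul_sub]
  rw [h3, h1]
  ring

lemma cf_iter {d : ℕ} (v : UnitAddTorus (Fin d)) (k : Fin d → ℤ) (hv : mFourier k v = -1) (N : ℕ) :
    ∀ (f : UnitAddTorus (Fin d) → ℝ), Continuous f → cf ((tdif v)^[N] f) k = 2 ^ N * cf f k := by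
  induction N with
  | zero => intro f _; simp
  | succ N ih =>
    intro f hf
    rw [Function.iterate_succ_apply, ih _ (by unfold tdif; fun_prop), cf_tdif v k hv f hf]
    ring

lemma cf_bound {d : ℕ} (f : UnitAddTorus (Fin d) → ℝ) (k : Fin d → ℤ) (C : ℝ)
    (hC : ∀ t, |f t| ≤ C) : ‖cf f k‖ ≤ C := by
  rw [cf, mFourierCoeff]
  have h1 : ‖∫ t, mFourier (-k) t • ((f t : ℝ) : ℂ)‖ ≤
      C * (volume : Measure (UnitAddTorus (Fin d))).real Set.univ := by
    apply norm_integral_le_of_norm_le_const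
    refine Eventually.of_forall fun t => ?_
    rw [norm_smul]
    obtain ⟨x, rfl⟩ := prj_surj d t
    rw [mFourier_prj, ee_norm, one_mul, Complex.norm_real]
    exact hC _
  simpa only [probReal_univ, mul_one] using h1

/-- Decay of the Fourier coefficients of a smooth function. -/
theorem cf_decay {d : ℕ} (N : ℕ) (f : UnitAddTorus (Fin d) → ℝ) (hf : Continuous f)
    (hF : ContDiff ℝ N (fun x => f (prj d x))) :
    ∃ C : ℝ, 0 ≤ C ∧ ∀ (k : Fin d → ℤ) (i : Fin d), ‖cf f k‖ * |(k i : ℝ)| ^ N ≤ C := by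
  have hper : Per (fun x => f (prj d x)) := by
    intro x m
    have : prj d (x + fun i => (m i : ℝ)) = prj d x := by
      funext i
      simp [prj]
    simp only [this]
  choose C hC using fun i => iter_dif_bound i N _ hper hF
  have hCnn : ∀ i, 0 ≤ C i := by
    intro i
    have := (abs_nonneg _).trans (hC i 1 0)
    simpa using this
  obtain ⟨C0, hC0⟩ := hper.bdd hF.continuous
  have hC00 : 0 ≤ C0 := (abs_nonneg _).trans (hC0 0)
  refine ⟨∑ i, C i + C0, by have := Finset.sum_nonneg fun i (_ : i ∈ Finset.univ) => hCnn i; linarith, ?_⟩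
  intro k i
  have hsum : C i ≤ ∑ i, C i := Finset.single_le_sum (fun i _ => hCnn i) (Finset.mem_univ i)
  by_cases hk : k i = 0
  · rw [hk]
    have h1 : ‖cf f k‖ ≤ C0 := by
      apply cf_bound
      intro t
      obtain ⟨x, rfl⟩ := prj_surj d t
      exact hC0 x
    have h2 : |((0 : ℤ) : ℝ)| ^ N ≤ 1 := by
      apply pow_le_one₀ (abs_nonneg _)
      simp
    have h3 : ‖cf f k‖ * |((0 : ℤ) : ℝ)| ^ N ≤ ‖cf f k‖ * 1 :=
      mul_le_mul_of_nonneg_left h2 (norm_nonneg _)
    have h4 := hCnn i
    linarith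
  · have hkr : (k i : ℝ) ≠ 0 := by exact_mod_cast hk
    set h : ℝ := 1 / (2 * k i) with hh
    have hv : mFourier k (prj d (h • eb i)) = -1 := by
      rw [mFourier_prj]
      have : ip (h • eb i) k = 1 / 2 := by
        rw [ip, Finset.sum_eq_single i]
        · simp only [eb, Pi.smul_apply, Pi.single_eq_same, smul_eq_mul, mul_one, hh]
          field_simp
        · intro j _ hj
          simp only [eb, Pi.smul_apply, Pi.single_eq_of_ne hj, smul_eq_mul, mul_zero]
        · intro h; exact absurd (Finset.mem_univ i) h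
      rw [this, ee]
      have : (((2 * Real.pi * (1 / 2) : ℝ) : ℂ) * Complex.I) = Real.pi * Complex.I := by
        push_cast; ring
      rw [this, Complex.exp_pi_mul_I]
    have h1 := cf_iter (prj d (h • eb i)) k hv N f hf
    have h2 : ‖cf ((tdif (prj d (h • eb i)))^[N] f) k‖ ≤ C i * |h| ^ N := by
      apply cf_bound
      intro t
      obtain ⟨x, rfl⟩ := prj_surj d t
      rw [tdif_iter]
      exact hC i h x
    rw [h1, norm_mul, norm_pow] at h2
    have h3 : ‖(2 : ℂ)‖ = 2 := by simp
    rw [h3] at h2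
    have h4 : |h| * |(k i : ℝ)| = 1 / 2 := by
      rw [hh, ← abs_mul]
      have : 1 / (2 * (k i : ℝ)) * (k i : ℝ) = 1 / 2 := by field_simp
      rw [this]
      norm_num
    have h5 : 2 ^ N * ‖cf f k‖ * |(k i : ℝ)| ^ N ≤ C i * (1 / 2) ^ N := by
      calc 2 ^ N * ‖cf f k‖ * |(k i : ℝ)| ^ N ≤ C i * |h| ^ N * |(k i : ℝ)| ^ N :=
            mul_le_mul_of_nonneg_right h2 (by positivity)
        _ = C i * (|h| * |(k i : ℝ)|) ^ N := by rw [mul_assoc, mul_pow]
        _ = _ := by rw [h4]
    have h6 : (1 / 2 : ℝ) ^ N ≤ 1 := pow_le_one₀ (by norm_num) (by norm_num)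
    have h7 : (1 : ℝ) ≤ 2 ^ N := one_le_pow₀ (by norm_num)
    have h8 : 0 ≤ ‖cf f k‖ * |(k i : ℝ)| ^ N := by positivity
    have h9 : C i * (1 / 2) ^ N ≤ C i := by nlinarith [hCnn i]
    nlinarith

end Pool.Agent.R294.CB
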