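import Pool.Agent.R294.CB5

/-!
Birkhoff sums of smooth functions over minimal rotations of the torus.
-/

namespace Pool.Agent.R294.CB

open Finset Filter UnitAddTorus

/-- A summable weight on the integers. -/
noncomputable def gw (j : ℤ) : ℝ := 1 / (1 + |(j : ℝ)|) ^ 2

lemma gw_pos (j : ℤ) : 0 < gw j := by unfold gw; positivity

lemma gw_le_one (j : ℤ) : gw j ≤ 1 := by
  unfold gw
  rw [div_le_one (by positivity)]
  have : (1 : ℝ) ≤ 1 + |(j : ℝ)| := by linarith [abs_nonneg (j : ℝ)]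
  exact one_le_pow₀ this

lemma gw_summable : Summable gw := by
  have h1 : Summable (fun j : ℤ => 1 / (j : ℝ) ^ 2 + (if j = 0 then (1 : ℝ) else 0)) :=
    (Real.summable_one_div_int_pow.mpr one_lt_two).add (hasSum_ite_eq (0 : ℤ) (1 : ℝ)).summable
  refine Summable.of_nonneg_of_le (fun j => (gw_pos j).le) (fun j => ?_) h1
  by_cases hj : j = 0
  · subst hj
    have := gw_le_one 0
    simpa using this
  · simp only [hj, if_false, add_zero]
    unfold gw
    have hjr : (j : ℝ) ≠ 0 := by exact_mod_cast hj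
    have h2 : (0 : ℝ) < (j : ℝ) ^ 2 := by positivity
    apply one_div_le_one_div_of_le h2
    rw [← sq_abs (j : ℝ)]
    apply pow_le_pow_left₀ (abs_nonneg _)
    linarith

/-- The product weight. -/
noncomputable def Ww {d : ℕ} (k : Fin d → ℤ) : ℝ := ∏ i, gw (k i)

lemma Ww_pos {d : ℕ} (k : Fin d → ℤ) : 0 < Ww k := Finset.prod_pos fun _ _ => gw_pos _

lemma Ww_le_one {d : ℕ} (k : Fin d → ℤ) : Ww k ≤ 1 :=
  Finset.prod_le_one (fun _ _ => (gw_pos _).le) fun _ _ => gw_le_one _

lemma Ww_summable (d : ℕ) : Summable (fun k : Fin d → ℤ => Ww k) := by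
  classical
  apply summable_of_sum_le (c := ∏ _i : Fin d, ∑' j, gw j) (fun k => (Ww_pos k).le)
  intro s
  calc ∑ k ∈ s, Ww k ≤ ∑ k ∈ Fintype.piFinset (fun i => s.image fun k => k i), Ww k := by
        apply Finset.sum_le_sum_of_subset_of_nonneg
        · intro k hk
          rw [Fintype.mem_piFinset]
          intro i
          exact Finset.mem_image_of_mem _ hk
        · intro k _ _
          exact (Ww_pos k).le
    _ = ∏ i : Fin d, ∑ j ∈ s.image (fun k => k i), gw j := by
        rw [Finset.prod_univ_sum]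
        rfl
    _ ≤ ∏ _i : Fin d, ∑' j, gw j := by
        apply Finset.prod_le_prod
        · intro i _
          exact Finset.sum_nonneg fun j _ => (gw_pos j).le
        · intro i _
          exact gw_summable.sum_le_tsum _ (fun j _ => (gw_pos j).le)

/-- Decay with a summable weight. -/
lemma decay_weight {d : ℕ} (hd : 0 < d) (R : ℕ) (f : UnitAddTorus (Fin d) → ℝ) (hf : Continuous f)
    (hF : ContDiff ℝ (R + 2 * d : ℕ) (fun x => f (prj d x))) :
    ∃ C : ℝ, 0 ≤ C ∧ (∀ k, ‖cf f k‖ ≤ C * Ww k) ∧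
      ∀ K : ℕ, 1 ≤ K → ∀ k, k ∉ bx d K → ‖cf f k‖ ≤ C / K ^ R * Ww k := by
  obtain ⟨C, hC0, hC⟩ := cf_decay (R + 2 * d) f hf hF
  have : Nonempty (Fin d) := ⟨⟨0, hd⟩⟩
  -- the main inequality
  have key : ∀ (k : Fin d → ℤ) (K : ℕ), 1 ≤ K → (∃ i, (K : ℝ) ≤ |(k i : ℝ)|) →
      ‖cf f k‖ ≤ (C * 4 ^ d) / K ^ R * Ww k := by
    intro k K hK ⟨i1, hi1⟩
    obtain ⟨i, hi⟩ := Finite.exists_max (fun i => |(k i : ℝ)|)
    set m : ℝ := |(k i : ℝ)| with hm
    have hKr : (1 : ℝ) ≤ K := by exact_mod_cast hK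
    have hKm : (K : ℝ) ≤ m := hi1.trans (hi i1)
    have hm1 : 1 ≤ m := hKr.trans hKm
    have h1 := hC k i
    rw [← hm] at h1
    have h2 : 1 / (4 ^ d * m ^ (2 * d)) ≤ Ww k := by
      have h3 : ∀ j, 1 / (4 * m ^ 2) ≤ gw (k j) := by
        intro j
        unfold gw
        apply one_div_le_one_div_of_le (by positivity)
        have h4 := hi j
        have h5 : 1 + |(k j : ℝ)| ≤ 2 * m := by linarith
        calc (1 + |(k j : ℝ)|) ^ 2 ≤ (2 * m) ^ 2 := pow_le_pow_left₀ (by positivity) h5 2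
          _ = 4 * m ^ 2 := by ring
      have h6 : ∏ _j : Fin d, (1 / (4 * m ^ 2)) ≤ Ww k :=
        Finset.prod_le_prod (fun _ _ => by positivity) fun j _ => h3 j
      rw [Finset.prod_const, Finset.card_univ, Fintype.card_fin] at h6
      refine le_trans (le_of_eq ?_) h6
      rw [one_div_pow, mul_pow, ← pow_mul]
    have hK0 : (0 : ℝ) < K := by linarith
    have hm0 : 0 < m := by linarith
    calc ‖cf f k‖ ≤ C / m ^ (R + 2 * d) := by
          rw [le_div_iff₀ (by positivity)]
          exact h1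
      _ = (C * 4 ^ d) / m ^ R * (1 / (4 ^ d * m ^ (2 * d))) := by
          rw [pow_add]
          field_simp
      _ ≤ (C * 4 ^ d) / K ^ R * (1 / (4 ^ d * m ^ (2 * d))) := by
          apply mul_le_mul_of_nonneg_right _ (by positivity)
          apply div_le_div_of_nonneg_left (by positivity) (by positivity)
          exact pow_le_pow_left₀ hK0.le hKm R
      _ ≤ (C * 4 ^ d) / K ^ R * Ww k := mul_le_mul_of_nonneg_left h2 (by positivity)
  refine ⟨C * 4 ^ d + ‖cf f 0‖, by positivity, ?_, ?_⟩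
  · intro k
    by_cases hk : k = 0
    · subst hk
      have : Ww (0 : Fin d → ℤ) = 1 := by simp [Ww, gw]
      rw [this, mul_one]
      have : 0 ≤ C * 4 ^ d := by positivity
      linarith
    · have h1 : ∃ i, ((1 : ℕ) : ℝ) ≤ |(k i : ℝ)| := by
        by_contra hcon
        push Not at hcon
        apply hk
        funext i
        have := hcon i
        have h2 : |k i| < 1 := by exact_mod_cast this
        rwa [Int.abs_lt_one_iff] at h2
      have h2 := key k 1 le_rfl h1
      rw [Nat.cast_one, one_pow, div_one] at h2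
      have h3 := Ww_pos k
      have h4 := norm_nonneg (cf f 0)
      nlinarith
  · intro K hK k hk
    have h1 : ∃ i, (K : ℝ) ≤ |(k i : ℝ)| := by
      by_contra hcon
      push Not at hcon
      apply hk
      rw [mem_bx]
      intro i
      have := hcon i
      have h2 : |k i| < K := by exact_mod_cast this
      exact h2.le
    refine (key k K hK h1).trans ?_
    apply mul_le_mul_of_nonneg_right _ (Ww_pos k).le
    apply div_le_div_of_nonneg_right _ (by positivity)
    linarith [norm_nonneg (cf f 0)]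

/-- Uniform approximation by the Fourier partial sums. -/
lemma approx_pt {d : ℕ} (hd : 0 < d) (R : ℕ) (f : UnitAddTorus (Fin d) → ℝ) (hf : Continuous f)
    (hF : ContDiff ℝ (R + 2 * d : ℕ) (fun x => f (prj d x))) :
    ∃ C : ℝ, 0 ≤ C ∧ (∀ k, ‖cf f k‖ ≤ C) ∧ ∀ K : ℕ, 1 ≤ K → ∀ t,
      ‖(f t : ℂ) - ∑ k ∈ bx d K, cf f k * mFourier k t‖ ≤ C / K ^ R := by
  classical
  obtain ⟨C, hC0, hC1, hC2⟩ := decay_weight hd R f hf hF
  set T : ℝ := ∑' k : Fin d → ℤ, Ww k with hT
  have hT0 : 0 ≤ T := tsum_nonneg fun k => (Ww_pos k).le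
  have hsumm : Summable (fun k => cf f k) := by
    apply Summable.of_norm_bounded (g := fun k => C * Ww k) ((Ww_summable d).mul_left C)
    exact hC1
  set fc : C(UnitAddTorus (Fin d), ℂ) := ⟨fun t => (f t : ℂ), by fun_prop⟩ with hfc
  have hcoef : mFourierCoeff (fc : UnitAddTorus (Fin d) → ℂ) = fun k => cf f k := rfl
  have hs : ∀ t, HasSum (fun k => cf f k * mFourier k t) (f t : ℂ) := by
    intro t
    have := hasSum_mFourier_series_apply_of_summable (f := fc) (by rw [hcoef]; exact hsumm) t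
    exact this
  refine ⟨C * (T + 1), by positivity, ?_, ?_⟩
  · intro k
    refine (hC1 k).trans ?_
    apply mul_le_mul_of_nonneg_left _ hC0
    linarith [Ww_le_one k]
  · intro K hK t
    have h1 : HasSum (fun k => if k ∈ bx d K then 0 else cf f k * mFourier k t)
        ((f t : ℂ) - ∑ k ∈ bx d K, cf f k * mFourier k t) := by
      have h2 : HasSum (fun k => if k ∈ bx d K then cf f k * mFourier k t else 0)
          (∑ k ∈ bx d K, cf f k * mFourier k t) := by
        have h3 : HasSum (fun k => if k ∈ bx d K then cf f k * mFourier k t else 0)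
            (∑ k ∈ bx d K, (if k ∈ bx d K then cf f k * mFourier k t else 0)) :=
          hasSum_sum_of_ne_finset_zero (fun k hk => by simp [hk])
        have h4 : ∑ k ∈ bx d K, (if k ∈ bx d K then cf f k * mFourier k t else 0) =
            ∑ k ∈ bx d K, cf f k * mFourier k t :=
          Finset.sum_congr rfl fun k hk => by simp [hk]
        rwa [h4] at h3
      refine ((hs t).sub h2).congr_fun ?_
      intro k
      by_cases hk : k ∈ bx d K <;> simp [hk]
    have hKr : (1 : ℝ) ≤ K := by exact_mod_cast hK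
    have h5 : ‖(f t : ℂ) - ∑ k ∈ bx d K, cf f k * mFourier k t‖ ≤ C / K ^ R * T := by
      rw [← h1.tsum_eq]
      apply tsum_of_norm_bounded ((Ww_summable d).hasSum.mul_left (C / K ^ R))
      intro k
      by_cases hk : k ∈ bx d K
      · simp only [hk, if_true, norm_zero]
        have := Ww_pos k
        positivity
      · simp only [hk, if_false]
        rw [norm_mul]
        obtain ⟨x, rfl⟩ := prj_surj d t
        rw [mFourier_prj, ee_norm, mul_one]
        exact hC2 K hK k hk
    refine h5.trans ?_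
    rw [div_mul_eq_mul_div]
    apply div_le_div_of_nonneg_right _ (by positivity)
    apply mul_le_mul_of_nonneg_left _ hC0
    linarith

/-- The Birkhoff sums. -/
noncomputable def bk {d : ℕ} (a : UnitAddTorus (Fin d)) (f : UnitAddTorus (Fin d) → ℝ)
    (t : UnitAddTorus (Fin d)) (n : ℕ) : ℝ := ∑ j ∈ range n, f (t + j • a)

lemma ee_nat_th {d : ℕ} (α : Fin d → ℝ) (k : Fin d → ℤ) (j : ℕ) :
    ee (j * ip α k) = ee (j * th α k) := by
  have h : (j : ℝ) * th α k = j * ip α k - ((j * round (ip α k) : ℤ) : ℝ) := by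
    rw [th]; push_cast; ring
  rw [h, ee_sub_int]

lemma mFourier_orbit {d : ℕ} (α : Fin d → ℝ) (k : Fin d → ℤ) (t : UnitAddTorus (Fin d)) (j : ℕ) :
    mFourier k (t + j • prj d α) = mFourier k t * ee (j * th α k) := by
  rw [mFourier_add_pt, ← prj_nsmul, mFourier_prj]
  congr 1
  rw [← ee_nat_th]
  congr 1
  simp only [ip, Pi.smul_apply, nsmul_eq_mul, Finset.mul_sum]
  exact Finset.sum_congr rfl fun i _ => by ring

/-- The Birkhoff sums are approximated by trigonometric sums. -/
lemma bk_approx {d : ℕ} (α : Fin d → ℝ) (f : UnitAddTorus (Fin d) → ℝ) (K : ℕ) (E : ℝ)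
    (hE : ∀ t, ‖(f t : ℂ) - ∑ k ∈ bx d K, cf f k * mFourier k t‖ ≤ E) (t : UnitAddTorus (Fin d))
    (n : ℕ) : ‖(bk (prj d α) f t n : ℂ) -
      ∑ k ∈ bx d K, (cf f k * mFourier k t) * Es (th α k) n‖ ≤ n * E := by
  have h1 : (bk (prj d α) f t n : ℂ) - ∑ k ∈ bx d K, (cf f k * mFourier k t) * Es (th α k) n =
      ∑ j ∈ range n, ((f (t + j • prj d α) : ℂ) -
        ∑ k ∈ bx d K, cf f k * mFourier k (t + j • prj d α)) := by
    rw [Finset.sum_sub_distrib, bk, Complex.ofReal_sum, Finset.sum_comm (s := range n)]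
    congr 1
    refine Finset.sum_congr rfl fun k _ => ?_
    rw [Es, Finset.mul_sum]
    refine Finset.sum_congr rfl fun j _ => ?_
    rw [mFourier_orbit, mul_assoc]
  rw [h1]
  calc ‖∑ j ∈ range n, ((f (t + j • prj d α) : ℂ) -
        ∑ k ∈ bx d K, cf f k * mFourier k (t + j • prj d α))‖ ≤ ∑ _j ∈ range n, E :=
        norm_sum_le_of_le _ fun j _ => hE _
    _ = n * E := by simp

lemma zero_mem_bx (d K : ℕ) : (0 : Fin d → ℤ) ∈ bx d K := by
  rw [mem_bx]; intro i; simp

/-- The case of zero mean: the Birkhoff sums do not tend to infinity. -/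
theorem zero_mean {d : ℕ} (hd : 0 < d) (α : Fin d → ℝ)
    (hα : ∀ k : Fin d → ℤ, k ≠ 0 → ∀ m : ℤ, ip α k ≠ m) (f : UnitAddTorus (Fin d) → ℝ)
    (hf : Continuous f) (hF : ContDiff ℝ (rate d + 2 * d : ℕ) (fun x => f (prj d x)))
    (h0 : cf f 0 = 0) (t : UnitAddTorus (Fin d)) :
    ¬ Tendsto (fun n => |bk (prj d α) f t n|) atTop atTop := by
  classical
  obtain ⟨C, hC0, hC1, hC2⟩ := approx_pt hd (rate d) f hf hF
  obtain ⟨C', hC'⟩ : ∃ C' : ℝ, ∀ s, |f s| ≤ C' := by
    obtain ⟨C', hC'⟩ := (isCompact_univ (X := UnitAddTorus (Fin d))).exists_bound_of_continuousOn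
      hf.continuousOn
    exact ⟨C', fun s => by simpa using hC' s (Set.mem_univ _)⟩
  have hC'0 : 0 ≤ C' := (abs_nonneg _).trans (hC' 0)
  apply core hd α hα (bk (prj d α) f t) (C + C')
  · intro K hK
    have hKr : (1 : ℝ) ≤ K := by exact_mod_cast hK
    refine ⟨fun k => cf f k * mFourier k t, ?_, ?_⟩
    · intro k
      obtain ⟨x, rfl⟩ := prj_surj d t
      rw [norm_mul, mFourier_prj, ee_norm, mul_one]
      have := hC1 k
      linarith
    · intro n
      have h1 := bk_approx α f K _ (hC2 K hK) t n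
      have h2 : ∑ k ∈ bx d K, (cf f k * mFourier k t) * Es (th α k) n =
          ∑ k ∈ (bx d K).erase 0, (cf f k * mFourier k t) * Es (th α k) n := by
        rw [← Finset.add_sum_erase _ _ (zero_mem_bx d K), h0]
        simp
      rw [h2] at h1
      have h3 : bk (prj d α) f t n -
          (∑ k ∈ (bx d K).erase 0, (cf f k * mFourier k t) * Es (th α k) n).re =
          ((bk (prj d α) f t n : ℂ) -
            ∑ k ∈ (bx d K).erase 0, (cf f k * mFourier k t) * Es (th α k) n).re := by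
        rw [Complex.sub_re, Complex.ofReal_re]
      rw [h3]
      refine (Complex.abs_re_le_norm _).trans (h1.trans ?_)
      apply mul_le_mul_of_nonneg_left _ (Nat.cast_nonneg n)
      apply div_le_div_of_nonneg_right _ (by positivity)
      linarith
  · intro n
    have : bk (prj d α) f t (n + 1) - bk (prj d α) f t n = f (t + n • prj d α) := by
      rw [bk, bk, Finset.sum_range_succ]
      ring
    rw [this]
    have := hC' (t + n • prj d α)
    linarith

/-- The case of nonzero mean: linear growth, uniformly in the point. -/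
theorem nonzero_mean {d : ℕ} (hd : 0 < d) (α : Fin d → ℝ)
    (hα : ∀ k : Fin d → ℤ, k ≠ 0 → ∀ m : ℤ, ip α k ≠ m) (f : UnitAddTorus (Fin d) → ℝ)
    (hf : Continuous f) (hF : ContDiff ℝ (rate d + 2 * d : ℕ) (fun x => f (prj d x)))
    (h0 : cf f 0 ≠ 0) :
    ∃ ε D : ℝ, 0 < ε ∧ ∀ t n, ε * n - D ≤ |bk (prj d α) f t n| := by
  classical
  obtain ⟨C, hC0, hC1, hC2⟩ := approx_pt hd (rate d) f hf hF
  have hm : 0 < ‖cf f 0‖ := norm_pos_iff.mpr h0
  obtain ⟨K0, hK0⟩ := exists_nat_ge (2 * C / ‖cf f 0‖)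
  set K := K0 + 1 with hK
  have hK1 : 1 ≤ K := by omega
  have hKr : (1 : ℝ) ≤ K := by exact_mod_cast hK1
  have hE : C / K ^ rate d ≤ ‖cf f 0‖ / 2 := by
    have h1 : (K : ℝ) ≤ K ^ rate d := le_self_pow₀ hKr (by unfold rate; omega)
    have h2 : 2 * C / ‖cf f 0‖ ≤ K := by rw [hK]; push_cast; linarith
    rw [div_le_iff₀ hm] at h2
    rw [div_le_iff₀ (by positivity)]
    nlinarith
  set D : ℝ := ∑ k ∈ (bx d K).erase 0, C * (1 / |th α k|) with hD
  refine ⟨‖cf f 0‖ / 2, D, by positivity, ?_⟩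
  intro t n
  have h1 := bk_approx α f K _ (hC2 K hK1) t n
  rw [← Finset.add_sum_erase _ _ (zero_mem_bx d K)] at h1
  have h2 : Es (th α 0) n = n := by
    have : th α 0 = 0 := by simp [th, ip]
    rw [this, Es]
    simp [ee_zero]
  have h3 : ∀ k, ‖cf f k * mFourier k t‖ = ‖cf f k‖ := by
    intro k
    obtain ⟨x, rfl⟩ := prj_surj d t
    rw [norm_mul, mFourier_prj, ee_norm, mul_one]
  have h4 : ‖∑ k ∈ (bx d K).erase 0, (cf f k * mFourier k t) * Es (th α k) n‖ ≤ D := by
    refine norm_sum_le_of_le _ fun k hk => ?_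
    rw [norm_mul, h3]
    apply mul_le_mul (hC1 k) _ (norm_nonneg _) hC0
    apply Es_le (th_abs_le α k)
    rw [th, sub_ne_zero]
    exact hα k (Finset.ne_of_mem_erase hk) _
  rw [h2] at h1
  set X : ℂ := ∑ k ∈ (bx d K).erase 0, (cf f k * mFourier k t) * Es (th α k) n with hX
  set Y : ℂ := cf f 0 * mFourier 0 t * n with hY
  have h5 : ‖Y‖ = ‖cf f 0‖ * n := by
    rw [hY, norm_mul, h3]
    simp
  have h6 : ‖Y‖ ≤ ‖(bk (prj d α) f t n : ℂ)‖ + ‖(bk (prj d α) f t n : ℂ) - (Y + X)‖ + ‖X‖ := by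
    have h7 : Y = (bk (prj d α) f t n : ℂ) - ((bk (prj d α) f t n : ℂ) - (Y + X)) - X := by ring
    calc ‖Y‖ = ‖(bk (prj d α) f t n : ℂ) - ((bk (prj d α) f t n : ℂ) - (Y + X)) - X‖ := by rw [← h7]
      _ ≤ ‖(bk (prj d α) f t n : ℂ) - ((bk (prj d α) f t n : ℂ) - (Y + X))‖ + ‖X‖ := norm_sub_le _ _
      _ ≤ _ := by
          have := norm_sub_le (bk (prj d α) f t n : ℂ) ((bk (prj d α) f t n : ℂ) - (Y + X))
          linarith
  rw [h5, Complex.norm_real, Real.norm_eq_abs] at h6
  have h8 : (n : ℝ) * (C / K ^ rate d) ≤ n * (‖cf f 0‖ / 2) :=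
    mul_le_mul_of_nonneg_left hE (Nat.cast_nonneg n)
  linarith

/-- Rational independence from minimality. -/
lemma indep_of_minimal {d : ℕ} (α : Fin d → ℝ)
    (hmin : Dense (Set.range fun n : ℤ => n • prj d α)) :
    ∀ k : Fin d → ℤ, k ≠ 0 → ∀ m : ℤ, ip α k ≠ m := by
  intro k hk m hm
  have hnat : ∀ n : ℕ, mFourier k (n • prj d α) = 1 := by
    intro n
    have h1 := mFourier_orbit α k 0 n
    rw [zero_add] at h1
    rw [h1]
    have h2 : mFourier k (0 : UnitAddTorus (Fin d)) = 1 := by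
      have : (0 : UnitAddTorus (Fin d)) = prj d 0 := by funext i; simp [prj]
      rw [this, mFourier_prj]
      have : ip (0 : Fin d → ℝ) k = 0 := by simp [ip]
      rw [this, ee_zero]
    rw [h2, one_mul, ← ee_nat_th, hm]
    have : (n : ℝ) * (m : ℝ) = ((n * m : ℤ) : ℝ) := by push_cast; ring
    rw [this, ee_int]
  have hint : ∀ n : ℤ, mFourier k (n • prj d α) = 1 := by
    intro n
    rcases Int.eq_nat_or_neg n with ⟨m', rfl | rfl⟩
    · rw [natCast_zsmul]; exact hnat m'
    · have h1 := mFourier_add_pt k ((-(m' : ℤ)) • prj d α) ((m' : ℤ) • prj d α)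
      rw [← add_smul, neg_add_cancel, zero_smul] at h1
      rw [natCast_zsmul, hnat m', mul_one] at h1
      rw [← h1]
      have := hnat 0
      rwa [zero_smul] at this
  have hall : ∀ t, mFourier k t = 1 := by
    have h1 : IsClosed {t : UnitAddTorus (Fin d) | mFourier k t = 1} :=
      isClosed_eq (mFourier k).continuous continuous_const
    have h2 : Set.range (fun n : ℤ => n • prj d α) ⊆ {t | mFourier k t = 1} := by
      rintro _ ⟨n, rfl⟩
      exact hint n
    intro t
    have h3 : t ∈ closure (Set.range fun n : ℤ => n • prj d α) := hmin t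
    exact (closure_minimal h2 h1) h3
  obtain ⟨i, hi⟩ := Function.ne_iff.mp hk
  have hir : (k i : ℝ) ≠ 0 := by
    have : k i ≠ 0 := hi
    exact_mod_cast this
  have h1 := hall (prj d ((1 / (2 * (k i : ℝ))) • eb i))
  rw [mFourier_prj] at h1
  have h2 : ip ((1 / (2 * (k i : ℝ))) • eb i) k = 1 / 2 := by
    rw [ip, Finset.sum_eq_single i]
    · simp only [eb, Pi.smul_apply, Pi.single_eq_same, smul_eq_mul, mul_one]
      field_simp
    · intro j _ hj
      simp only [eb, Pi.smul_apply, Pi.single_eq_of_ne hj, smul_eq_mul, mul_zero]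
    · intro h; exact absurd (Finset.mem_univ i) h
  rw [h2, ee] at h1
  have h3 : (((2 * Real.pi * (1 / 2) : ℝ) : ℂ) * Complex.I) = Real.pi * Complex.I := by
    push_cast; ring
  rw [h3, Complex.exp_pi_mul_I] at h1
  norm_num at h1

end Pool.Agent.R294.CB
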