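import Mathlib

/-!
# Closed paths in directed graphs with few exits
-/

set_option autoImplicit false

namespace Pool.Agent.R294.CF

open Finset

variable {St : Type*} [DecidableEq St]

/-- number of paths of length `n` from `x` -/
def pn (succ : St → Finset St) : ℕ → St → ℕ
  | 0, _ => 1
  | n + 1, x => ∑ y ∈ succ x, pn succ n y

/-- number of paths of length `n` from `x` to `z` -/
def pt (succ : St → Finset St) : ℕ → St → St → ℕ
  | 0, x, z => if x = z then 1 else 0
  | n + 1, x, z => ∑ y ∈ succ x, pt succ n y z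

/-- number of paths of length `n` from `x` which do not return to `G` -/
def qn (succ : St → Finset St) (G : Finset St) : ℕ → St → ℕ
  | 0, _ => 1
  | n + 1, x => ∑ y ∈ (succ x).filter (fun y => y ∉ G), qn succ G n y

variable (succ : St → Finset St)

lemma decomp (G : Finset St) (n : ℕ) : ∀ x, pn succ n x = (if x ∈ G then 0 else qn succ G n x) +
    ∑ j ∈ range (n + 1), ∑ B ∈ G, pt succ j x B * qn succ G (n - j) B := by
  induction n with
  | zero =>
    intro x
    simp only [pn, qn, pt, zero_add, sum_range_one, Nat.sub_zero, mul_one]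
    rw [sum_ite_eq]
    split_ifs <;> rfl
  | succ n ih =>
    intro x
    have h1 : pn succ (n + 1) x = ∑ y ∈ succ x, (if y ∈ G then 0 else qn succ G n y) +
        ∑ y ∈ succ x, ∑ j ∈ range (n + 1), ∑ B ∈ G, pt succ j y B * qn succ G (n - j) B := by
      rw [pn, ← sum_add_distrib]
      exact sum_congr rfl fun y _ => ih y
    have h2 : ∑ y ∈ succ x, (if y ∈ G then 0 else qn succ G n y) = qn succ G (n + 1) x := by
      rw [qn, sum_filter]
      apply sum_congr rfl
      intro y _
      split_ifs <;> rfl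
    have h3 : ∑ y ∈ succ x, ∑ j ∈ range (n + 1), ∑ B ∈ G, pt succ j y B * qn succ G (n - j) B =
        ∑ j ∈ range (n + 1), ∑ B ∈ G, pt succ (j + 1) x B * qn succ G (n - j) B := by
      rw [sum_comm]
      apply sum_congr rfl; intro j _
      rw [sum_comm]
      apply sum_congr rfl; intro B _
      rw [pt, sum_mul]
    rw [h1, h2, h3, sum_range_succ' (fun j => ∑ B ∈ G, pt succ j x B * qn succ G (n + 1 - j) B)]
    have h4 : ∑ B ∈ G, pt succ 0 x B * qn succ G (n + 1 - 0) B =
        if x ∈ G then qn succ G (n + 1) x else 0 := by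
      simp only [pt, ite_mul, one_mul, zero_mul, Nat.sub_zero]
      rw [sum_ite_eq]
    rw [h4]
    have h5 : ∀ j, n + 1 - (j + 1) = n - j := fun j => by omega
    simp only [h5]
    split_ifs <;> omega

lemma qn_le_pn (G : Finset St) (n : ℕ) : ∀ x, qn succ G n x ≤ pn succ n x := by
  induction n with
  | zero => intro x; rfl
  | succ n ih =>
    intro x
    rw [qn, pn]
    exact (sum_le_sum fun y _ => ih y).trans
      (sum_le_sum_of_subset (filter_subset _ _))

lemma pt_comp (m n : ℕ) (y z : St) : ∀ x, pt succ m x y * pt succ n y z ≤ pt succ (m + n) x z := by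
  induction m with
  | zero =>
    intro x
    rw [pt, zero_add]
    split_ifs with h
    · subst h; simp
    · simp
  | succ m ih =>
    intro x
    rw [show m + 1 + n = (m + n) + 1 by ring, pt, pt, sum_mul]
    exact sum_le_sum fun w _ => ih w

lemma qn_bound {AA G : Finset St}
    (h2 : ∀ x, ((succ x).filter (fun y => y ∉ AA)).card ≤ 2) {ω C : ℝ} (hω : 2 < ω) (hC0 : 0 ≤ C)
    (hC : ∀ B ∈ AA, B ∉ G → ∀ n, (pn succ n B : ℝ) ≤ C * ω ^ n) :
    ∃ C' : ℝ, 0 < C' ∧ ∀ n x, (qn succ G n x : ℝ) ≤ C' * ω ^ n := by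
  have hω0 : 0 < ω := by linarith
  have hω2 : 0 < ω - 2 := by linarith
  have hK : 0 ≤ AA.card * C / (ω - 2) := by positivity
  refine ⟨1 + AA.card * C / (ω - 2), by positivity, fun n => ?_⟩
  induction n with
  | zero =>
    intro x
    simp only [qn, Nat.cast_one, pow_zero, mul_one]
    linarith
  | succ n ih =>
    intro x
    have hs : qn succ G (n + 1) x ≤ ∑ y ∈ AA.filter (fun y => y ∉ G), pn succ n y +
        ∑ y ∈ (succ x).filter (fun y => y ∉ AA), qn succ G n y := by
      rw [qn]
      rw [← sum_filter_add_sum_filter_not ((succ x).filter (fun y => y ∉ G)) (fun y => y ∈ AA)]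
      apply add_le_add
      · refine (sum_le_sum fun y _ => qn_le_pn succ G n y).trans (sum_le_sum_of_subset ?_)
        intro y hy
        simp only [mem_filter] at hy ⊢
        exact ⟨hy.2, hy.1.2⟩
      · apply sum_le_sum_of_subset
        intro y hy
        simp only [mem_filter] at hy ⊢
        exact ⟨hy.1.1, hy.2⟩
    have hs' : (qn succ G (n + 1) x : ℝ) ≤ ∑ y ∈ AA.filter (fun y => y ∉ G), (pn succ n y : ℝ) +
        ∑ y ∈ (succ x).filter (fun y => y ∉ AA), (qn succ G n y : ℝ) := by
      exact_mod_cast hs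
    have k1 : ∑ y ∈ AA.filter (fun y => y ∉ G), (pn succ n y : ℝ) ≤ AA.card * (C * ω ^ n) := by
      calc _ ≤ ∑ y ∈ AA.filter (fun y => y ∉ G), C * ω ^ n := by
            apply sum_le_sum
            intro y hy
            rw [mem_filter] at hy
            exact hC y hy.1 hy.2 n
        _ = ((AA.filter (fun y => y ∉ G)).card : ℝ) * (C * ω ^ n) := by
            rw [sum_const, nsmul_eq_mul]
        _ ≤ _ := by
            apply mul_le_mul_of_nonneg_right _ (by positivity)
            exact_mod_cast card_filter_le _ _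
    have k2 : ∑ y ∈ (succ x).filter (fun y => y ∉ AA), (qn succ G n y : ℝ) ≤
        2 * ((1 + AA.card * C / (ω - 2)) * ω ^ n) := by
      calc _ ≤ ∑ y ∈ (succ x).filter (fun y => y ∉ AA), (1 + AA.card * C / (ω - 2)) * ω ^ n :=
            sum_le_sum fun y _ => ih y
        _ = (((succ x).filter (fun y => y ∉ AA)).card : ℝ) *
            ((1 + AA.card * C / (ω - 2)) * ω ^ n) := by rw [sum_const, nsmul_eq_mul]
        _ ≤ _ := by
            apply mul_le_mul_of_nonneg_right _ (by positivity)
            exact_mod_cast h2 x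
    have k3 : AA.card * C = AA.card * C / (ω - 2) * (ω - 2) := by field_simp
    have hp : 0 < ω ^ n := by positivity
    have k4 : AA.card * C + 2 * (1 + AA.card * C / (ω - 2)) ≤ (1 + AA.card * C / (ω - 2)) * ω := by
      generalize AA.card * C / (ω - 2) = K at k3 ⊢
      nlinarith
    calc (qn succ G (n + 1) x : ℝ) ≤ _ := hs'
      _ ≤ AA.card * (C * ω ^ n) + 2 * ((1 + AA.card * C / (ω - 2)) * ω ^ n) := add_le_add k1 k2
      _ = (AA.card * C + 2 * (1 + AA.card * C / (ω - 2))) * ω ^ n := by ring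
      _ ≤ ((1 + AA.card * C / (ω - 2)) * ω) * ω ^ n := by
          exact mul_le_mul_of_nonneg_right k4 hp.le
      _ = _ := by ring

/-- the relation of having many paths -/
def Many (ω : ℝ) (A B : St) : Prop := ∃ n : ℕ, 1 ≤ n ∧ ω ^ n < pt succ n A B

lemma Many.trans {ω : ℝ} (hω : 0 < ω) {A B C : St} (h1 : Many succ ω A B) (h2 : Many succ ω B C) :
    Many succ ω A C := by
  obtain ⟨m, hm, h1⟩ := h1
  obtain ⟨n, hn, h2⟩ := h2
  refine ⟨m + n, by omega, ?_⟩
  have h3 : (pt succ m A B : ℝ) * pt succ n B C ≤ pt succ (m + n) A C := by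
    exact_mod_cast pt_comp succ m n B C A
  refine lt_of_lt_of_le ?_ h3
  rw [pow_add]
  exact mul_lt_mul'' h1 h2 (by positivity) (by positivity)

/-- The combinatorial lemma. -/
theorem exists_many {AA : Finset St}
    (h2 : ∀ x, ((succ x).filter (fun y => y ∉ AA)).card ≤ 2) {ω ω' : ℝ} (hω0 : 0 < ω)
    (hωω : ω < ω') (hω : 2 < ω') (hg : ¬ ∃ C : ℝ, ∀ A ∈ AA, ∀ n, (pn succ n A : ℝ) ≤ C * ω' ^ n) :
    ∃ A ∈ AA, Many succ ω A A := by
  classical
  have hω'0 : 0 < ω' := by linarith
  set G := AA.filter (fun A => ¬ ∃ C : ℝ, ∀ n, (pn succ n A : ℝ) ≤ C * ω' ^ n) with hG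
  have hbad : ∃ C : ℝ, 0 ≤ C ∧ ∀ B ∈ AA, B ∉ G → ∀ n, (pn succ n B : ℝ) ≤ C * ω' ^ n := by
    have h : ∀ B : St, ∃ C : ℝ, B ∈ AA → B ∉ G → ∀ n, (pn succ n B : ℝ) ≤ C * ω' ^ n := by
      intro B
      by_cases hB : B ∈ AA ∧ B ∉ G
      · rw [hG, mem_filter, not_and, not_not] at hB
        obtain ⟨C, hC⟩ := hB.2 hB.1
        exact ⟨C, fun _ _ => hC⟩
      · exact ⟨0, fun h1 h2 => absurd ⟨h1, h2⟩ hB⟩
    choose c hc using h
    refine ⟨∑ B ∈ AA, |c B|, by positivity, fun B hB hBG n => (hc B hB hBG n).trans ?_⟩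
    apply mul_le_mul_of_nonneg_right _ (by positivity)
    exact (le_abs_self _).trans (single_le_sum (f := fun B => |c B|) (fun _ _ => abs_nonneg _) hB)
  obtain ⟨C, hC0, hC⟩ := hbad
  obtain ⟨C', hC'0, hC'⟩ := qn_bound succ h2 hω hC0 hC
  have hne : G.Nonempty := by
    by_contra hcon
    rw [not_nonempty_iff_eq_empty] at hcon
    exact hg ⟨C, fun A hA n => hC A hA (by rw [hcon]; exact notMem_empty A) n⟩
  have hstep : ∀ A ∈ G, ∃ B ∈ G, Many succ ω A B := by
    intro A hA
    by_contra hcon
    push Not at hcon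
    have hb : ∀ B ∈ G, ∀ n, (pt succ n A B : ℝ) ≤ ω ^ n := by
      intro B hB n
      rcases Nat.eq_zero_or_pos n with h | h
      · subst h
        rw [pt, pow_zero]
        split_ifs <;> simp
      · by_contra hlt
        exact hcon B hB ⟨n, h, not_le.1 hlt⟩
    have hA' := hA
    rw [hG, mem_filter] at hA'
    apply hA'.2
    have hr0 : 0 ≤ ω / ω' := by positivity
    have hr1 : ω / ω' < 1 := by rw [div_lt_one hω'0]; exact hωω
    refine ⟨G.card * C' * (1 - ω / ω')⁻¹, fun n => ?_⟩
    rw [decomp succ G n A, if_pos hA, zero_add]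
    push_cast
    have hterm : ∀ j ∈ range (n + 1), ∑ B ∈ G, (pt succ j A B : ℝ) * qn succ G (n - j) B ≤
        G.card * C' * ω' ^ n * (ω / ω') ^ j := by
      intro j hj
      rw [mem_range] at hj
      calc _ ≤ ∑ B ∈ G, ω ^ j * (C' * ω' ^ (n - j)) := by
            apply sum_le_sum
            intro B hB
            exact mul_le_mul (hb B hB j) (hC' _ _) (Nat.cast_nonneg _) (by positivity)
        _ = G.card * (ω ^ j * (C' * ω' ^ (n - j))) := by rw [sum_const, nsmul_eq_mul]
        _ = _ := by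
            have e : ω' ^ n = ω' ^ (n - j) * ω' ^ j := by rw [← pow_add]; congr 1; omega
            rw [e, div_pow]
            field_simp
    calc _ ≤ ∑ j ∈ range (n + 1), G.card * C' * ω' ^ n * (ω / ω') ^ j := sum_le_sum hterm
      _ = G.card * C' * ω' ^ n * ∑ j ∈ range (n + 1), (ω / ω') ^ j := by rw [mul_sum]
      _ ≤ G.card * C' * ω' ^ n * (1 - ω / ω')⁻¹ := by
          apply mul_le_mul_of_nonneg_left _ (by positivity)
          rw [← tsum_geometric_of_lt_one hr0 hr1]
          exact (summable_geometric_of_lt_one hr0 hr1).sum_le_tsum _ (fun _ _ => by positivity)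
      _ = _ := by ring
  choose! g hg1 hg2 using hstep
  obtain ⟨A0, hA0⟩ := hne
  have hit : ∀ i, g^[i] A0 ∈ G := by
    intro i
    induction i with
    | zero => exact hA0
    | succ i ih => rw [Function.iterate_succ_apply']; exact hg1 _ ih
  have hrel : ∀ i k, Many succ ω (g^[i] A0) (g^[i + (k + 1)] A0) := by
    intro i k
    induction k with
    | zero => rw [zero_add, Function.iterate_succ_apply']; exact hg2 _ (hit i)
    | succ k ih =>
      refine ih.trans succ hω0 ?_
      rw [show i + (k + 1 + 1) = (i + (k + 1)) + 1 by ring, Function.iterate_succ_apply']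
      exact hg2 _ (hit _)
  obtain ⟨i, j, hij, h⟩ := Finite.exists_ne_map_eq_of_infinite
    (fun i : ℕ => (⟨g^[i] A0, hit i⟩ : {x // x ∈ G}))
  have h' : g^[i] A0 = g^[j] A0 := congrArg Subtype.val h
  rcases lt_or_gt_of_ne hij with hlt | hlt
  · refine ⟨g^[i] A0, (mem_filter.1 (hit i)).1, ?_⟩
    have := hrel i (j - i - 1)
    rw [show i + (j - i - 1 + 1) = j by omega, ← h'] at this
    exact this
  · refine ⟨g^[j] A0, (mem_filter.1 (hit j)).1, ?_⟩
    have := hrel j (i - j - 1)
    rw [show j + (i - j - 1 + 1) = i by omega, h'] at this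
    exact this

omit [DecidableEq St] in
lemma pt_dec (h1 h2 : DecidableEq St) (n : ℕ) (x z : St) :
    @pt St h1 succ n x z = @pt St h2 succ n x z := by
  have h : h1 = h2 := Subsingleton.elim _ _
  rw [h]

lemma card_filter_dec {α : Type*} (s : Finset α) (p : α → Prop) (h1 h2 : DecidablePred p) :
    (@Finset.filter α p h1 s).card = (@Finset.filter α p h2 s).card := by
  have h : h1 = h2 := Subsingleton.elim _ _
  rw [h]

lemma pt_pow (n : ℕ) (A : St) (k : ℕ) : pt succ n A A ^ k ≤ pt succ (n * k) A A := by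
  induction k with
  | zero => simp [pt]
  | succ k ih =>
    rw [pow_succ, Nat.mul_succ]
    exact (Nat.mul_le_mul_right _ ih).trans (pt_comp succ (n * k) n A A A)

end Pool.Agent.R294.CF
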