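import Pool.Agent.R294.CFLsc

/-!
# Continuity of the entropy
-/

set_option autoImplicit false

namespace Pool.Agent.R294.CF

open Filter Topology Set Pool.Agent.R660.CF

theorem ent_continuousOn : ContinuousOn (fun p : ℝ × ℝ => ent p.1 p.2) {p | InP p.1 p.2} := by
  rintro ⟨a0, b0⟩ hc
  have key : ∀ (Q : ℝ → ℝ → Prop) (ε : ℝ), 0 < ε →
      (∀ a b : ℝ, InP a b → |a - a0| < ε → |b - b0| < ε → Q a b) →
      ∀ᶠ p : ℝ × ℝ in 𝓝[{p | InP p.1 p.2}] (a0, b0), Q p.1 p.2 := by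
    intro Q ε hε h
    have h1 : ∀ᶠ p : ℝ × ℝ in 𝓝[{p | InP p.1 p.2}] (a0, b0), dist p (a0, b0) < ε :=
      nhdsWithin_le_nhds (Metric.ball_mem_nhds _ hε)
    filter_upwards [h1, self_mem_nhdsWithin] with p hp hpP
    rw [Prod.dist_eq, max_lt_iff, Real.dist_eq, Real.dist_eq] at hp
    exact h p.1 p.2 hpP hp.1 hp.2
  have hc' : InP a0 b0 := hc
  change Tendsto (fun p : ℝ × ℝ => ent p.1 p.2) (𝓝[{p | InP p.1 p.2}] (a0, b0)) (𝓝 (ent a0 b0))
  rw [tendsto_order]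
  constructor
  · intro u hu
    obtain ⟨ε, hε, h⟩ := lsc hc' hu
    exact key (fun a b => u < ent a b) ε hε h
  · intro u hu
    obtain ⟨ε, hε, h⟩ := usc hc' hu
    exact key (fun a b => ent a b < u) ε hε h

end Pool.Agent.R294.CF
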