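import Pool.Agent.R294.CFUsc
import Pool.Agent.R294.CFComb

/-!
# Horseshoes of the slow (a,b)-continued fraction maps
-/

set_option autoImplicit false

namespace Pool.Agent.R294.CF

open Filter Topology Set Pool.Agent.R660.CF

variable {a b : ℝ}

theorem surj_of_avoid (hab : InP a b) (n : ℕ) : ∀ x y : ℝ, x ≤ y →
    (∀ z ∈ Icc x y, z ∉ D a b n) → ∀ w ∈ Icc ((f a b)^[n] x) ((f a b)^[n] y),
      ∃ z ∈ Icc x y, (f a b)^[n] z = w := by
  induction n with
  | zero => intro x y _ _ w hw; exact ⟨w, hw, rfl⟩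
  | succ n ih =>
    intro x y hxy h w hw
    rcases hxy.eq_or_lt with heq | hlt
    · subst heq
      exact ⟨x, ⟨le_rfl, le_rfl⟩, le_antisymm hw.1 hw.2⟩
    rw [Function.iterate_succ_apply, Function.iterate_succ_apply] at hw
    have k : ∀ z ∈ Icc x y, ¬ (z = a ∨ z = 0 ∨ z = b) ∧ f a b z ∉ D a b n := by
      intro z hz
      have := h z hz
      rw [D_succ] at this
      push Not at this
      push Not
      exact this
    obtain ⟨h1, h2⟩ := f_step hab hlt (fun hh => (k a hh).1 (Or.inl rfl))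
      (fun hh => (k 0 hh).1 (Or.inr (Or.inl rfl))) (fun hh => (k b hh).1 (Or.inr (Or.inr rfl)))
    obtain ⟨v, hv, hvw⟩ := ih _ _ h1.le (fun w hw => by
      obtain ⟨z, hz, rfl⟩ := h2 w hw
      exact (k z hz).2) w hw
    obtain ⟨z, hz, rfl⟩ := h2 v hv
    exact ⟨z, hz, by rw [Function.iterate_succ_apply]; exact hvw⟩

theorem D_add (a b : ℝ) (m n : ℕ) (x : ℝ) :
    x ∈ D a b (m + n) ↔ x ∈ D a b m ∨ (f a b)^[m] x ∈ D a b n := by
  constructor
  · rintro ⟨j, hj, h⟩
    rcases lt_or_ge j m with h1 | h1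
    · exact Or.inl ⟨j, h1, h⟩
    · refine Or.inr ⟨j - m, by omega, ?_⟩
      rw [← Function.iterate_add_apply, show j - m + m = j by omega]
      exact h
  · rintro (⟨j, hj, h⟩ | ⟨j, hj, h⟩)
    · exact ⟨j, by omega, h⟩
    · refine ⟨j + m, by omega, ?_⟩
      rw [Function.iterate_add_apply]
      exact h

/-! ### States -/

/-- valid states: intervals avoiding `D_N` -/
def Valid (a b : ℝ) (N : ℕ) (I : Set ℝ) : Prop :=
  I.Nonempty ∧ I.OrdConnected ∧ ∀ x ∈ I, x ∉ D a b N

lemma Valid.strictMono (hab : InP a b) {N : ℕ} {I : Set ℝ} (hI : Valid a b N I) :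
    StrictMonoOn (f a b)^[N] I := by
  intro x hx y hy hxy
  exact mono_of_avoid hab N x y hxy fun z hz => hI.2.2 z (hI.2.1.out hx hy hz)

lemma Valid.image (hab : InP a b) {N : ℕ} {I : Set ℝ} (hI : Valid a b N I) :
    ((f a b)^[N] '' I).OrdConnected := by
  refine ⟨?_⟩
  rintro _ ⟨x, hx, rfl⟩ _ ⟨y, hy, rfl⟩ w hw
  have hxy : x ≤ y := by
    by_contra hcon
    have := hI.strictMono hab hy hx (not_le.1 hcon)
    exact absurd (hw.1.trans hw.2) (not_le.2 this)
  obtain ⟨z, hz, rfl⟩ := surj_of_avoid hab N x y hxy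
    (fun z hz => hI.2.2 z (hI.2.1.out hx hy hz)) w hw
  exact ⟨z, hI.2.1.out hx hy hz, rfl⟩

/-- the components of the complement of `D_N` -/
def comps (a b : ℝ) (N : ℕ) : Set (Set ℝ) :=
  (fun x => ordConnectedComponent (D a b N)ᶜ x) '' (D a b N)ᶜ

lemma comps_valid {N : ℕ} {B : Set ℝ} (hB : B ∈ comps a b N) : Valid a b N B := by
  obtain ⟨x, hx, rfl⟩ := hB
  refine ⟨⟨x, self_mem_ordConnectedComponent.2 hx⟩, inferInstance, fun y hy => ?_⟩
  exact ordConnectedComponent_subset hy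

lemma comps_eq {N : ℕ} {B B' : Set ℝ} (hB : B ∈ comps a b N) (hB' : B' ∈ comps a b N) {x : ℝ}
    (hx : x ∈ B) (hx' : x ∈ B') : B = B' := by
  obtain ⟨y, hy, rfl⟩ := hB
  obtain ⟨z, hz, rfl⟩ := hB'
  have e1 := ordConnectedComponent_eq (mem_ordConnectedComponent.1 hx)
  have e2 := ordConnectedComponent_eq (mem_ordConnectedComponent.1 hx')
  simp only
  rw [e1, e2]

lemma mem_comps {N : ℕ} {x : ℝ} (hx : x ∉ D a b N) : ∃ B ∈ comps a b N, x ∈ B :=
  ⟨_, ⟨x, hx, rfl⟩, self_mem_ordConnectedComponent.2 hx⟩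

lemma comps_finite (hab : InP a b) (N : ℕ) : (comps a b N).Finite := by
  classical
  have hch : ∀ B ∈ comps a b N, ∃ x, x ∈ B := fun B hB => (comps_valid hB).1
  choose! r hr using hch
  have hinj : InjOn r (comps a b N) := by
    intro B hB B' hB' h
    exact comps_eq hB hB' (hr B hB) (h ▸ hr B' hB')
  have hfin : (r '' comps a b N).Finite := by
    refine (separated (D_finite hab N) ?_).1
    rintro _ ⟨B, hB, rfl⟩ _ ⟨B', hB', rfl⟩ hlt
    by_contra hcon
    push Not at hcon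
    have hsub : uIcc (r B) (r B') ⊆ (D a b N)ᶜ := by
      rw [uIcc_of_le hlt.le]
      intro z hz hzD
      have h1 := hcon z hzD hz.1
      have h2 : z = r B' := le_antisymm hz.2 h1
      exact (comps_valid hB').2.2 _ (hr B' hB') (h2 ▸ hzD)
    obtain ⟨y, hy, rfl⟩ := hB
    have e1 := ordConnectedComponent_eq (mem_ordConnectedComponent.1 (hr _ ⟨y, hy, rfl⟩))
    have e2 := ordConnectedComponent_eq hsub
    have e3 : ordConnectedComponent (D a b N)ᶜ y = B' := by
      refine comps_eq ⟨y, hy, rfl⟩ hB' ?_ (hr B' hB')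
      rw [e1, e2]
      exact self_mem_ordConnectedComponent.2 ((comps_valid hB').2.2 _ (hr B' hB'))
    rw [← e3] at hlt
    exact lt_irrefl _ hlt
  exact Set.Finite.of_finite_image hfin hinj

open Classical in
/-- the successors of a state -/
noncomputable def sc (a b : ℝ) (N : ℕ) (hab : InP a b) (I : Set ℝ) : Finset (Set ℝ) :=
  if Valid a b N I then
    ((comps_finite hab N).toFinset.image (fun B => (f a b)^[N] '' I ∩ B)).filter
      (fun J => J.Nonempty)
  else ∅

lemma mem_sc {N : ℕ} (hab : InP a b) {I J : Set ℝ} (hI : Valid a b N I) :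
    J ∈ sc a b N hab I ↔ (∃ B ∈ comps a b N, (f a b)^[N] '' I ∩ B = J) ∧ J.Nonempty := by
  classical
  unfold sc
  rw [if_pos hI, Finset.mem_filter, Finset.mem_image]
  simp only [Set.Finite.mem_toFinset]

lemma sc_valid {N : ℕ} (hab : InP a b) {I J : Set ℝ} (hI : Valid a b N I)
    (hJ : J ∈ sc a b N hab I) : Valid a b N J := by
  rw [mem_sc hab hI] at hJ
  obtain ⟨⟨B, hB, rfl⟩, hne⟩ := hJ
  refine ⟨hne, (hI.image hab).inter (comps_valid hB).2.1, fun x hx => (comps_valid hB).2.2 x hx.2⟩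

lemma sc_card {N : ℕ} (hab : InP a b) (I : Set ℝ) :
    ((sc a b N hab I).filter (fun J => J ∉ (comps_finite hab N).toFinset)).card ≤ 2 := by
  classical
  by_cases hI : Valid a b N I
  · -- a partial component has points below or above
    have hJo := hI.image hab
    have hch : ∀ J ∈ (sc a b N hab I).filter (fun J => J ∉ (comps_finite hab N).toFinset),
        ∃ B ∈ comps a b N, (f a b)^[N] '' I ∩ B = J ∧ J.Nonempty ∧
          ∃ x ∈ B, x ∉ (f a b)^[N] '' I := by
      intro J hJ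
      rw [Finset.mem_filter, mem_sc hab hI, Set.Finite.mem_toFinset] at hJ
      obtain ⟨⟨⟨B, hB, rfl⟩, hne⟩, hnot⟩ := hJ
      refine ⟨B, hB, rfl, hne, ?_⟩
      by_contra hcon
      push Not at hcon
      apply hnot
      rw [inter_eq_right.2 hcon]
      exact hB
    choose! Bf hB1 hB2 hB3 hB4 using hch
    choose! xf hx1 hx2 using hB4
    choose! yf hy using hB3
    have hinj : Set.InjOn (fun J => decide (xf J < yf J))
        ((sc a b N hab I).filter (fun J => J ∉ (comps_finite hab N).toFinset) : Set (Set ℝ)) := by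
      intro J hJ J' hJ' h
      have e1 := hB2 J hJ
      have e2 := hB2 J' hJ'
      have hyJ : yf J ∈ (f a b)^[N] '' I ∩ Bf J := by rw [e1]; exact hy J hJ
      have hyJ' : yf J' ∈ (f a b)^[N] '' I ∩ Bf J' := by rw [e2]; exact hy J' hJ'
      have hBB : Bf J = Bf J' := by
        have c1 := (comps_valid (hB1 J hJ)).2.1
        have c2 := (comps_valid (hB1 J' hJ')).2.1
        have n1 : xf J ≠ yf J := fun hh => hx2 J hJ (hh ▸ hyJ.1)
        have n2 : xf J' ≠ yf J' := fun hh => hx2 J' hJ' (hh ▸ hyJ'.1)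
        simp only [decide_eq_decide] at h
        rcases lt_or_gt_of_ne n1 with l1 | l1
        · have l2 := h.1 l1
          -- `xf J` is below the image
          have b1 : xf J < yf J' := by
            by_contra hcon
            exact hx2 J hJ (hJo.out hyJ'.1 hyJ.1 ⟨not_lt.1 hcon, l1.le⟩)
          have b2 : xf J' < yf J := by
            by_contra hcon
            exact hx2 J' hJ' (hJo.out hyJ.1 hyJ'.1 ⟨not_lt.1 hcon, l2.le⟩)
          rcases le_total (xf J) (xf J') with l | l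
          · exact comps_eq (hB1 J hJ) (hB1 J' hJ')
              (c1.out (hx1 J hJ) hyJ.2 ⟨l, b2.le⟩) (hx1 J' hJ')
          · exact comps_eq (hB1 J hJ) (hB1 J' hJ') (hx1 J hJ)
              (c2.out (hx1 J' hJ') hyJ'.2 ⟨l, b1.le⟩)
        · have l2 : yf J' < xf J' := by
            rcases lt_or_gt_of_ne n2 with h' | h'
            · exact absurd (h.2 h') (not_lt.2 l1.le)
            · exact h'
          have b1 : yf J' < xf J := by
            by_contra hcon
            exact hx2 J hJ (hJo.out hyJ.1 hyJ'.1 ⟨l1.le, not_lt.1 hcon⟩)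
          have b2 : yf J < xf J' := by
            by_contra hcon
            exact hx2 J' hJ' (hJo.out hyJ'.1 hyJ.1 ⟨l2.le, not_lt.1 hcon⟩)
          rcases le_total (xf J) (xf J') with l | l
          · exact comps_eq (hB1 J hJ) (hB1 J' hJ') (hx1 J hJ)
              (c2.out hyJ'.2 (hx1 J' hJ') ⟨b1.le, l⟩)
          · exact comps_eq (hB1 J hJ) (hB1 J' hJ')
              (c1.out hyJ.2 (hx1 J hJ) ⟨b2.le, l⟩) (hx1 J' hJ')
      rw [← e1, ← e2, hBB]
    have h2 := Finset.card_le_card_of_injOn (t := (Finset.univ : Finset Bool)) _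
      (fun J _ => Finset.mem_coe.2 (Finset.mem_univ _)) hinj
    simpa using h2
  · unfold sc
    rw [if_neg hI]
    simp

/-! ### Growth -/

lemma sol_le (hab : InP a b) {N : ℕ} (e : ℝ) (n : ℕ) : ∀ I : Set ℝ, Valid a b N I →
    (Sol a b ((n + 1) * N) e ∩ I).ncard ≤
      @pn _ (sc a b N hab) n I := by
  classical
  induction n with
  | zero =>
    intro I hI
    rw [pn, zero_add, one_mul]
    rw [Set.ncard_le_one ((Sol_finite hab N e).subset inter_subset_left)]
    rintro x ⟨hx, hxI⟩ y ⟨hy, hyI⟩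
    exact (hI.strictMono hab).injOn hxI hyI (hx.2.trans hy.2.symm)
  | succ n ih =>
    intro I hI
    rw [pn]
    have hS : ∀ M, (Sol a b M e).Finite := fun M => Sol_finite hab M e
    -- map to the union of the pieces
    have h1 : (Sol a b ((n + 1 + 1) * N) e ∩ I).ncard ≤
        (⋃ J ∈ sc a b N hab I, Sol a b ((n + 1) * N) e ∩ J).ncard := by
      refine ncard_le_ncard_of_injOn (f a b)^[N] ?_ ?_ ?_
      · rintro x ⟨⟨hx, hx'⟩, hxI⟩
        rw [show (n + 1 + 1) * N = N + (n + 1) * N by ring, D_add, not_or] at hx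
        rw [show (n + 1 + 1) * N = (n + 1) * N + N by ring, Function.iterate_add_apply] at hx'
        have hxN : (f a b)^[N] x ∉ D a b N := fun hh =>
          hx.2 (D_mono a b (Nat.le_mul_of_pos_left N (by omega)) hh)
        obtain ⟨B, hB, hxB⟩ := mem_comps hxN
        rw [mem_iUnion₂]
        refine ⟨(f a b)^[N] '' I ∩ B, ?_, ⟨hx.2, hx'⟩, ⟨x, hxI, rfl⟩, hxB⟩
        rw [mem_sc hab hI]
        exact ⟨⟨B, hB, rfl⟩, ⟨_, ⟨x, hxI, rfl⟩, hxB⟩⟩
      · intro x hx y hy hxy
        exact (hI.strictMono hab).injOn hx.2 hy.2 hxy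
      · exact (Finset.finite_toSet _).biUnion fun J _ => (hS _).subset inter_subset_left
    refine h1.trans ?_
    have e1 : (⋃ J ∈ sc a b N hab I, Sol a b ((n + 1) * N) e ∩ J) =
        (((sc a b N hab I).biUnion fun J =>
          ((hS ((n + 1) * N)).subset (inter_subset_left (t := J))).toFinset : Finset ℝ) : Set ℝ) := by
      ext x; simp
    rw [e1, ncard_coe_finset]
    refine Finset.card_biUnion_le.trans (Finset.sum_le_sum fun J hJ => ?_)
    rw [← ncard_eq_toFinset_card _ ((hS ((n + 1) * N)).subset (inter_subset_left (t := J)))]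
    exact ih J (sc_valid hab hI hJ)

lemma growth (hab : InP a b) {N : ℕ} (hN : 1 ≤ N) {ω' : ℝ} (hω : 2 < ω')
    (h : Real.log ω' / N < ent a b) : ¬ ∃ C : ℝ, ∀ A ∈ (comps_finite hab N).toFinset, ∀ n,
      (@pn _ (sc a b N hab) n A : ℝ) ≤ C * ω' ^ n := by
  classical
  rintro ⟨C, hC⟩
  have hω0 : 0 < ω' := by linarith
  set AA := (comps_finite hab N).toFinset with hAA
  have hDf := D_finite hab N
  have hC0 : ∀ A ∈ AA, 0 ≤ C := by
    intro A hA
    have := hC A hA 0
    simp only [pow_zero, mul_one] at this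
    exact (Nat.cast_nonneg _).trans this
  -- all solutions
  have hsol : ∀ e n, ((Sol a b ((n + 1) * N) e).ncard : ℝ) ≤ AA.card * |C| * ω' ^ n := by
    intro e n
    have hS := Sol_finite hab ((n + 1) * N) e
    have e1 : Sol a b ((n + 1) * N) e ⊆
        ((AA.biUnion fun J => (hS.subset (inter_subset_left (t := J))).toFinset : Finset ℝ) :
          Set ℝ) := by
      intro x hx
      have hxN : x ∉ D a b N := fun hh =>
          hx.1 (D_mono a b (Nat.le_mul_of_pos_left N (by omega)) hh)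
      obtain ⟨B, hB, hxB⟩ := mem_comps hxN
      simp only [Finset.coe_biUnion, mem_iUnion, Set.Finite.coe_toFinset]
      exact ⟨B, by rw [hAA]; simpa using hB, hx, hxB⟩
    have e2 := ncard_le_ncard e1 (Finset.finite_toSet _)
    rw [ncard_coe_finset] at e2
    have e3 : (AA.biUnion fun J => (hS.subset (inter_subset_left (t := J))).toFinset).card ≤
        ∑ J ∈ AA, @pn _ (sc a b N hab) n J := by
      refine Finset.card_biUnion_le.trans (Finset.sum_le_sum fun J hJ => ?_)
      rw [← ncard_eq_toFinset_card _ (hS.subset (inter_subset_left (t := J)))]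
      have hJ' : J ∈ comps a b N := by rw [hAA] at hJ; simpa using hJ
      exact sol_le hab e n J (comps_valid hJ')
    have e4 : ((Sol a b ((n + 1) * N) e).ncard : ℝ) ≤
        ∑ J ∈ AA, (@pn _ (sc a b N hab) n J : ℝ) := by exact_mod_cast e2.trans e3
    refine e4.trans ?_
    calc _ ≤ ∑ J ∈ AA, |C| * ω' ^ n := Finset.sum_le_sum fun J hJ => (hC J hJ n).trans
          (mul_le_mul_of_nonneg_right (le_abs_self _) (by positivity))
      _ = _ := by rw [Finset.sum_const, nsmul_eq_mul]; ring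
  -- the set `D`
  set K : ℝ := (D a b N).ncard + 1 + (D a b N).ncard * (AA.card * |C|) with hK
  have hK0 : 0 < K := by positivity
  have hD : ∀ n, (laps a b ((n + 1) * N) : ℝ) ≤ K * ω' ^ n := by
    intro n
    induction n with
    | zero =>
      rw [zero_add, one_mul, pow_zero, mul_one, hK]
      unfold laps
      push_cast
      have : 0 ≤ ((D a b N).ncard : ℝ) * (AA.card * |C|) := by positivity
      linarith
    | succ n ih =>
      have hsub : D a b ((n + 1 + 1) * N) ⊆ D a b ((n + 1) * N) ∪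
          ((hDf.toFinset.biUnion fun e => (Sol_finite hab ((n + 1) * N) e).toFinset : Finset ℝ) :
            Set ℝ) := by
        intro x hx
        by_cases hx1 : x ∈ D a b ((n + 1) * N)
        · exact Or.inl hx1
        · right
          rw [show (n + 1 + 1) * N = (n + 1) * N + N by ring, D_add] at hx
          rcases hx with hx | hx
          · exact absurd hx hx1
          · simp only [Finset.coe_biUnion, mem_iUnion, Set.Finite.coe_toFinset]
            exact ⟨_, hx, hx1, rfl⟩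
      have c1 := ncard_le_ncard hsub ((D_finite hab _).union (Finset.finite_toSet _))
      have c2 := c1.trans (ncard_union_le _ _)
      rw [ncard_coe_finset] at c2
      have c3 : ((hDf.toFinset.biUnion fun e =>
          (Sol_finite hab ((n + 1) * N) e).toFinset).card : ℝ) ≤
          (D a b N).ncard * (AA.card * |C| * ω' ^ n) := by
        have c4 : ((hDf.toFinset.biUnion fun e =>
          (Sol_finite hab ((n + 1) * N) e).toFinset).card : ℝ) ≤
          ∑ e ∈ hDf.toFinset, ((Sol a b ((n + 1) * N) e).ncard : ℝ) := by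
          have c5 := Finset.card_biUnion_le (s := hDf.toFinset)
            (t := fun e => (Sol_finite hab ((n + 1) * N) e).toFinset)
          have c6 : ∑ e ∈ hDf.toFinset, (Sol_finite hab ((n + 1) * N) e).toFinset.card =
              ∑ e ∈ hDf.toFinset, (Sol a b ((n + 1) * N) e).ncard :=
            Finset.sum_congr rfl fun e _ => (ncard_eq_toFinset_card _ _).symm
          rw [c6] at c5
          exact_mod_cast c5
        refine c4.trans ?_
        calc _ ≤ ∑ e ∈ hDf.toFinset, AA.card * |C| * ω' ^ n := Finset.sum_le_sum fun e _ => hsol e n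
          _ = _ := by
            rw [Finset.sum_const, nsmul_eq_mul, ncard_eq_toFinset_card _ hDf]
      have c7 : (laps a b ((n + 1 + 1) * N) : ℝ) ≤ laps a b ((n + 1) * N) +
          (D a b N).ncard * (AA.card * |C| * ω' ^ n) := by
        have c8 : ((D a b ((n + 1 + 1) * N)).ncard : ℝ) ≤ (D a b ((n + 1) * N)).ncard +
            ((hDf.toFinset.biUnion fun e =>
              (Sol_finite hab ((n + 1) * N) e).toFinset).card : ℝ) := by exact_mod_cast c2
        unfold laps
        push_cast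
        linarith
      have hp : 0 < ω' ^ n := by positivity
      have c9 : ((D a b N).ncard : ℝ) * (AA.card * |C|) ≤ K := by
        rw [hK]
        have : (0 : ℝ) ≤ ((D a b N).ncard : ℝ) := Nat.cast_nonneg _
        linarith
      calc (laps a b ((n + 1 + 1) * N) : ℝ) ≤ _ := c7
        _ ≤ K * ω' ^ n + K * ω' ^ n := by
            apply add_le_add ih
            calc _ = ((D a b N).ncard : ℝ) * (AA.card * |C|) * ω' ^ n := by ring
              _ ≤ _ := mul_le_mul_of_nonneg_right c9 hp.le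
        _ = K * (2 * ω' ^ n) := by ring
        _ ≤ K * ω' ^ (n + 1) := by
            rw [pow_succ]
            apply mul_le_mul_of_nonneg_left _ hK0.le
            nlinarith
  -- the limit
  have hN0 : (0 : ℝ) < N := by exact_mod_cast hN
  have t1 : Tendsto (fun n : ℕ => Real.log (laps a b ((n + 1) * N)) / (((n + 1) * N : ℕ) : ℝ)) atTop
      (𝓝 (ent a b)) := by
    have hs : Tendsto (fun n : ℕ => (n + 1) * N) atTop atTop := by
      refine tendsto_atTop_mono (fun n => ?_) tendsto_id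
      simp only [id]
      nlinarith
    exact (ent_spec hab).comp hs
  have t2 : Tendsto (fun n : ℕ => |Real.log K| * (1 / ((n : ℝ) + 1)) + Real.log ω' / N) atTop
      (𝓝 (|Real.log K| * 0 + Real.log ω' / N)) :=
    (tendsto_one_div_add_atTop_nhds_zero_nat.const_mul _).add_const _
  rw [mul_zero, zero_add] at t2
  refine absurd (le_of_tendsto_of_tendsto' t1 t2 fun n => ?_) (not_le.2 h)
  have hn1 : (0 : ℝ) < (n : ℝ) + 1 := by positivity
  have hN1 : (1 : ℝ) ≤ N := by exact_mod_cast hN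
  have hlω : 0 ≤ Real.log ω' := Real.log_nonneg (by linarith)
  have l1 : (0 : ℝ) < laps a b ((n + 1) * N) := by exact_mod_cast laps_pos a b _
  have l2 := Real.log_le_log l1 (hD n)
  rw [Real.log_mul hK0.ne' (by positivity), Real.log_pow] at l2
  have l3 : Real.log (laps a b ((n + 1) * N)) ≤ |Real.log K| + ((n : ℝ) + 1) * Real.log ω' := by
    have := le_abs_self (Real.log K)
    nlinarith
  push_cast
  calc Real.log (laps a b ((n + 1) * N)) / (((n : ℝ) + 1) * N) ≤
      (|Real.log K| + ((n : ℝ) + 1) * Real.log ω') / (((n : ℝ) + 1) * N) :=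
        div_le_div_of_nonneg_right l3 (by positivity)
    _ = |Real.log K| / (((n : ℝ) + 1) * N) + Real.log ω' / N := by
        field_simp
    _ ≤ |Real.log K| * (1 / ((n : ℝ) + 1)) + Real.log ω' / N := by
        apply add_le_add _ le_rfl
        rw [mul_one_div]
        apply div_le_div_of_nonneg_left (abs_nonneg _) hn1
        nlinarith

/-! ### Full branches -/

/-- points of full branches over `B` -/
def Full (a b : ℝ) (I B : Set ℝ) (m : ℕ) (y0 : ℝ) : Set ℝ :=
  {x | x ∈ I ∧ x ∉ D a b m ∧ (f a b)^[m] x = y0 ∧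
    ∀ y ∈ B, ∃ x' ∈ I, (∀ z ∈ uIcc x x', z ∉ D a b m) ∧ (f a b)^[m] x' = y}

lemma Full_finite (hab : InP a b) (I B : Set ℝ) (m : ℕ) (y0 : ℝ) : (Full a b I B m y0).Finite :=
  (Sol_finite hab m y0).subset fun _ hx => ⟨hx.2.1, hx.2.2.1⟩

lemma full_ge (hab : InP a b) {N : ℕ} {B : Set ℝ} (hB : Valid a b N B) {y0 : ℝ} (hy0 : y0 ∈ B)
    (n : ℕ) : ∀ I : Set ℝ, Valid a b N I →
      @pt _ (Classical.decEq _) (sc a b N hab) n I B ≤ (Full a b I B (n * N) y0).ncard := by
  classical
  induction n with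
  | zero =>
    intro I hI
    rw [pt]
    split_ifs with h
    · subst h
      rw [Nat.one_le_iff_ne_zero, Ne, ncard_eq_zero (Full_finite hab _ _ _ _)]
      apply nonempty_iff_ne_empty.1
      refine ⟨y0, hy0, ?_, ?_, fun y hy => ⟨y, hy, ?_, ?_⟩⟩
      · rw [zero_mul, D_zero]; exact notMem_empty _
      · rw [zero_mul]; rfl
      · intro z _
        rw [zero_mul, D_zero]; exact notMem_empty _
      · rw [zero_mul]; rfl
    · exact Nat.zero_le _
  | succ n ih =>
    intro I hI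
    rw [pt]
    have hF : ∀ J, (Full a b J B (n * N) y0).Finite := fun J => Full_finite hab J B _ y0
    have hsum : ∑ J ∈ sc a b N hab I, @pt _ (Classical.decEq _) (sc a b N hab) n J B ≤
        ((sc a b N hab I).biUnion fun J => (hF J).toFinset).card := by
      rw [Finset.card_biUnion]
      · refine Finset.sum_le_sum fun J hJ => ?_
        rw [← ncard_eq_toFinset_card _ (hF J)]
        exact ih J (sc_valid hab hI hJ)
      · intro J hJ J' hJ' hne
        change Disjoint (hF J).toFinset (hF J').toFinset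
        rw [Finset.disjoint_left]
        intro x hx hx'
        rw [Set.Finite.mem_toFinset] at hx hx'
        apply hne
        rw [Finset.mem_coe, mem_sc hab hI] at hJ hJ'
        obtain ⟨⟨B1, hB1, rfl⟩, -⟩ := hJ
        obtain ⟨⟨B2, hB2, rfl⟩, -⟩ := hJ'
        rw [comps_eq hB1 hB2 hx.1.2 hx'.1.2]
    refine hsum.trans ?_
    have hch : ∀ y ∈ (f a b)^[N] '' I, ∃ x ∈ I, (f a b)^[N] x = y := fun y hy => hy
    choose! g hg1 hg2 using hch
    have hmem : ∀ y ∈ (((sc a b N hab I).biUnion fun J => (hF J).toFinset : Finset ℝ) : Set ℝ),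
        ∃ J ∈ sc a b N hab I, y ∈ Full a b J B (n * N) y0 ∧ J ⊆ (f a b)^[N] '' I := by
      intro y hy
      simp only [Finset.coe_biUnion, mem_iUnion, Set.Finite.coe_toFinset] at hy
      obtain ⟨J, hJ, hyJ⟩ := hy
      refine ⟨J, hJ, hyJ, ?_⟩
      have hJ' : J ∈ sc a b N hab I := hJ
      rw [mem_sc hab hI] at hJ'
      obtain ⟨⟨B1, hB1, rfl⟩, -⟩ := hJ'
      exact inter_subset_left
    rw [← ncard_coe_finset]
    refine ncard_le_ncard_of_injOn g ?_ ?_ (Full_finite hab _ _ _ _)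
    · intro y hy
      obtain ⟨J, hJ, ⟨hyJ, hyD, hy0', hfull⟩, hJI⟩ := hmem y hy
      have hx := hg1 y (hJI hyJ)
      have hxy := hg2 y (hJI hyJ)
      have hDiff : ∀ z ∈ I, (f a b)^[N] z ∉ D a b (n * N) → z ∉ D a b ((n + 1) * N) := by
        intro z hz hzD
        rw [show (n + 1) * N = N + n * N by ring, D_add, not_or]
        exact ⟨hI.2.2 z hz, hzD⟩
      refine ⟨hx, hDiff _ hx (by rw [hxy]; exact hyD), ?_, fun w hw => ?_⟩
      · rw [show (n + 1) * N = n * N + N by ring, Function.iterate_add_apply, hxy]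
        exact hy0'
      · obtain ⟨x', hx'J, hx'D, hx'w⟩ := hfull w hw
        have hzI := hg1 x' (hJI hx'J)
        have hzx := hg2 x' (hJI hx'J)
        refine ⟨g x', hzI, fun z hz => ?_, ?_⟩
        · have hzI' : z ∈ I := hI.2.1.uIcc_subset hx hzI hz
          apply hDiff z hzI'
          apply hx'D
          -- monotonicity
          have hmono := (hI.strictMono hab).monotoneOn
          rw [← hxy, ← hzx]
          rcases le_total (g y) (g x') with hle | hle
          · rw [uIcc_of_le hle] at hz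
            rw [uIcc_of_le (hmono hx hzI hle)]
            exact ⟨hmono hx hzI' hz.1, hmono hzI' hzI hz.2⟩
          · rw [uIcc_of_ge hle] at hz
            rw [uIcc_of_ge (hmono hzI hx hle)]
            exact ⟨hmono hzI hzI' hz.1, hmono hzI' hx hz.2⟩
        · rw [show (n + 1) * N = n * N + N by ring, Function.iterate_add_apply, hzx]
          exact hx'w
    · intro y hy y' hy' h
      obtain ⟨J, hJ, hyJ, hJI⟩ := hmem y hy
      obtain ⟨J', hJ', hyJ', hJI'⟩ := hmem y' hy'
      rw [← hg2 y (hJI hyJ.1), ← hg2 y' (hJI' hyJ'.1), h]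

/-! ### Horseshoes -/

/-- a horseshoe for `f ^ m` -/
structure Horse (a b : ℝ) (m : ℕ) (p q : ℝ) (X : Finset ℝ) (P Q : ℝ → ℝ) : Prop where
  pq : p < q
  lt : ∀ x ∈ X, P x ≤ Q x
  low : ∀ x ∈ X, p ≤ P x
  high : ∀ x ∈ X, Q x ≤ q
  avoid : ∀ x ∈ X, ∀ z ∈ Icc (P x) (Q x), z ∉ D a b m
  mapP : ∀ x ∈ X, (f a b)^[m] (P x) = p
  mapQ : ∀ x ∈ X, (f a b)^[m] (Q x) = q
  disj : ∀ x ∈ X, ∀ x' ∈ X, ∀ z, z ∈ Icc (P x) (Q x) → z ∈ Icc (P x') (Q x') → x = x'

lemma Horse.count (hab : InP a b) {m : ℕ} {p q : ℝ} {X : Finset ℝ} {P Q : ℝ → ℝ}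
    (H : Horse a b m p q X P Q) (r : ℕ) : ∀ e ∈ Icc p q,
      X.card ^ r ≤ (Sol a b (r * m) e ∩ Icc p q).ncard := by
  classical
  induction r with
  | zero =>
    intro e he
    rw [pow_zero, Nat.one_le_iff_ne_zero, Ne,
      ncard_eq_zero ((Sol_finite hab _ _).subset inter_subset_left)]
    apply nonempty_iff_ne_empty.1
    refine ⟨e, ⟨?_, ?_⟩, he⟩
    · rw [zero_mul, D_zero]; exact notMem_empty _
    · rw [zero_mul]; rfl
  | succ r ih =>
    intro e he
    have hfin : (Sol a b (r * m) e ∩ Icc p q).Finite :=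
      (Sol_finite hab _ _).subset inter_subset_left
    have hch : ∀ x ∈ X, ∀ y ∈ Icc p q, ∃ z ∈ Icc (P x) (Q x), (f a b)^[m] z = y := by
      intro x hx y hy
      exact surj_of_avoid hab m _ _ (H.lt x hx) (H.avoid x hx) y (by
        rw [H.mapP x hx, H.mapQ x hx]; exact hy)
    choose! g hg1 hg2 using hch
    have hcard : X.card ^ (r + 1) ≤ (X ×ˢ hfin.toFinset).card := by
      rw [Finset.card_product, pow_succ', ← ncard_eq_toFinset_card _ hfin]
      exact Nat.mul_le_mul_left _ (ih e he)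
    refine hcard.trans ?_
    rw [← ncard_coe_finset]
    refine ncard_le_ncard_of_injOn (fun w : ℝ × ℝ => g w.1 w.2) ?_ ?_
      ((Sol_finite hab _ _).subset inter_subset_left)
    · rintro ⟨x, y⟩ hw
      simp only [Finset.coe_product, mem_prod, Finset.mem_coe, Set.Finite.mem_toFinset] at hw
      obtain ⟨hx, ⟨hyD, hye⟩, hy⟩ := hw
      have h1 := hg1 x hx y hy
      have h2 := hg2 x hx y hy
      refine ⟨⟨?_, ?_⟩, (H.low x hx).trans h1.1, h1.2.trans (H.high x hx)⟩
      · rw [show (r + 1) * m = m + r * m by ring, D_add, not_or]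
        exact ⟨H.avoid x hx _ h1, by rw [h2]; exact hyD⟩
      · rw [show (r + 1) * m = r * m + m by ring, Function.iterate_add_apply]
        simp only
        rw [h2]
        exact hye
    · rintro ⟨x, y⟩ hw ⟨x', y'⟩ hw' h
      simp only [Finset.coe_product, mem_prod, Finset.mem_coe, Set.Finite.mem_toFinset] at hw hw' h
      have e1 := H.disj x hw.1 x' hw'.1 _ (hg1 x hw.1 y hw.2.2) (h ▸ hg1 x' hw'.1 y' hw'.2.2)
      subst e1
      have e2 : y = y' := by
        rw [← hg2 x hw.1 y hw.2.2, ← hg2 x hw'.1 y' hw'.2.2, h]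
      rw [e2]

lemma Horse.ent_ge (hab : InP a b) {m : ℕ} (hm : 1 ≤ m) {p q : ℝ} {X : Finset ℝ} {P Q : ℝ → ℝ}
    (H : Horse a b m p q X P Q) (hX : 1 ≤ X.card) : Real.log X.card / m ≤ ent a b := by
  have t1 : Tendsto (fun r : ℕ => Real.log (laps a b ((r + 1) * m)) / (((r + 1) * m : ℕ) : ℝ)) atTop
      (𝓝 (ent a b)) := by
    have hs : Tendsto (fun r : ℕ => (r + 1) * m) atTop atTop := by
      refine tendsto_atTop_mono (fun n => ?_) tendsto_id
      simp only [id]
      nlinarith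
    exact (ent_spec hab).comp hs
  refine ge_of_tendsto' t1 fun r => ?_
  have hm0 : (0 : ℝ) < m := by exact_mod_cast hm
  have hr0 : (0 : ℝ) < (r : ℝ) + 1 := by positivity
  have h1 := (H.count hab (r + 1) p ⟨le_rfl, H.pq.le⟩).trans
    ((ncard_le_ncard inter_subset_left (Sol_finite hab _ _)).trans (Sol_card hab _ _))
  have h2 : ((X.card : ℝ)) ^ (r + 1) ≤ laps a b ((r + 1) * m) := by exact_mod_cast h1
  have hX0 : (0 : ℝ) < X.card := by exact_mod_cast hX
  have h3 := Real.log_le_log (by positivity) h2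
  rw [Real.log_pow] at h3
  push_cast at h3 ⊢
  rw [div_le_div_iff₀ hm0 (by positivity)]
  calc Real.log X.card * (((r : ℝ) + 1) * m) = (((r : ℝ) + 1) * Real.log X.card) * m := by ring
    _ ≤ _ := mul_le_mul_of_nonneg_right h3 hm0.le

lemma far_aux {a0 u v : ℝ} (h : a0 ∉ Icc u v) : ∃ δ : ℝ, 0 < δ ∧ ∀ a : ℝ, |a - a0| < δ →
    ∀ z ∈ Icc u v, (z < a ↔ z < a0) ∧ z ≠ a := by
  rw [mem_Icc, not_and_or, not_le, not_le] at h
  rcases h with h | h
  · refine ⟨u - a0, by linarith, fun a ha z hz => ?_⟩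
    rw [abs_lt] at ha
    refine ⟨⟨fun h' => ?_, fun h' => ?_⟩, fun h' => ?_⟩ <;> linarith [hz.1, ha.2]
  · refine ⟨a0 - v, by linarith, fun a ha z hz => ?_⟩
    rw [abs_lt] at ha
    refine ⟨⟨fun _ => ?_, fun _ => ?_⟩, fun h' => ?_⟩ <;> linarith [hz.2, ha.1]

/-- stability of orbits of an interval -/
lemma stable {a0 b0 : ℝ} (hc : InP a0 b0) (m : ℕ) : ∀ u v : ℝ, u ≤ v →
    (∀ z ∈ Icc u v, z ∉ D a0 b0 m) → ∃ δ : ℝ, 0 < δ ∧ ∀ a b : ℝ, |a - a0| < δ → |b - b0| < δ →
      ∀ z ∈ Icc u v, z ∉ D a b m ∧ (f a b)^[m] z = (f a0 b0)^[m] z := by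
  induction m with
  | zero =>
    intro u v _ _
    exact ⟨1, one_pos, fun a b _ _ z _ => ⟨by rw [D_zero]; exact notMem_empty _, rfl⟩⟩
  | succ m ih =>
    intro u v huv h
    have k : ∀ z ∈ Icc u v, ¬ (z = a0 ∨ z = 0 ∨ z = b0) ∧ f a0 b0 z ∉ D a0 b0 m := by
      intro z hz
      have := h z hz
      rw [D_succ] at this
      push Not at this
      push Not
      exact this
    obtain ⟨δa, hδa, ha'⟩ := far_aux (a0 := a0) (u := u) (v := v)
      (fun hh => (k a0 hh).1 (Or.inl rfl))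
    obtain ⟨δb, hδb, hb'⟩ := far_aux (a0 := b0) (u := u) (v := v)
      (fun hh => (k b0 hh).1 (Or.inr (Or.inr rfl)))
    -- the image
    have himg : f a0 b0 u ≤ f a0 b0 v ∧ (∀ z ∈ Icc u v, f a0 b0 z ∈ Icc (f a0 b0 u) (f a0 b0 v)) ∧
        ∀ w ∈ Icc (f a0 b0 u) (f a0 b0 v), ∃ z ∈ Icc u v, f a0 b0 z = w := by
      have hv1 : Valid a0 b0 1 (Icc u v) := by
        refine ⟨⟨u, le_rfl, huv⟩, ordConnected_Icc, fun x hx hxD => ?_⟩
        exact h x hx (D_mono a0 b0 (by omega) hxD)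
      have hmono := (hv1.strictMono hc).monotoneOn
      rw [Function.iterate_one] at hmono
      have hu : u ∈ Icc u v := ⟨le_rfl, huv⟩
      have hv : v ∈ Icc u v := ⟨huv, le_rfl⟩
      refine ⟨hmono hu hv huv, fun z hz => ⟨hmono hu hz hz.1, hmono hz hv hz.2⟩, fun w hw => ?_⟩
      have := surj_of_avoid hc 1 u v huv hv1.2.2 w (by simpa using hw)
      simpa using this
    obtain ⟨i1, i2, i3⟩ := himg
    obtain ⟨δ, hδ, hh⟩ := ih _ _ i1 (fun w hw => by
      obtain ⟨z, hz, rfl⟩ := i3 w hw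
      exact (k z hz).2)
    refine ⟨min δ (min δa δb), lt_min hδ (lt_min hδa hδb), fun a b ha hb z hz => ?_⟩
    have h1 := ha' a (lt_of_lt_of_le ha ((min_le_right _ _).trans (min_le_left _ _))) z hz
    have h2 := hb' b (lt_of_lt_of_le hb ((min_le_right _ _).trans (min_le_right _ _))) z hz
    have hf : f a b z = f a0 b0 z := by
      unfold f
      simp only [h1.1, h2.1]
    have h3 := hh a b (lt_of_lt_of_le ha (min_le_left _ _)) (lt_of_lt_of_le hb (min_le_left _ _))
      _ (i2 z hz)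
    rw [D_succ, Function.iterate_succ_apply, Function.iterate_succ_apply, hf]
    refine ⟨?_, h3.2⟩
    rintro (h4 | h4)
    · rcases h4 with h4 | h4 | h4
      · exact h1.2 h4
      · exact (k z hz).1 (Or.inr (Or.inl h4))
      · exact h2.2 h4
    · exact h3.1 h4

lemma Horse.perturb {a0 b0 : ℝ} (hc : InP a0 b0) {m : ℕ} {p q : ℝ} {X : Finset ℝ} {P Q : ℝ → ℝ}
    (H : Horse a0 b0 m p q X P Q) : ∃ δ : ℝ, 0 < δ ∧ ∀ a b : ℝ, |a - a0| < δ → |b - b0| < δ →
      Horse a b m p q X P Q := by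
  classical
  have hch : ∀ x : ℝ, ∃ δ : ℝ, 0 < δ ∧ (x ∈ X → ∀ a b : ℝ, |a - a0| < δ → |b - b0| < δ →
      ∀ z ∈ Icc (P x) (Q x), z ∉ D a b m ∧ (f a b)^[m] z = (f a0 b0)^[m] z) := by
    intro x
    by_cases hx : x ∈ X
    · obtain ⟨δ, hδ, h⟩ := stable hc m _ _ (H.lt x hx) (H.avoid x hx)
      exact ⟨δ, hδ, fun _ => h⟩
    · exact ⟨1, one_pos, fun h => absurd h hx⟩
  choose d hd1 hd2 using hch
  obtain ⟨δ, hδ, hmin⟩ : ∃ δ : ℝ, 0 < δ ∧ ∀ x ∈ X, δ ≤ d x := by
    rcases X.eq_empty_or_nonempty with h | h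
    · exact ⟨1, one_pos, fun x hx => by rw [h] at hx; exact absurd hx (Finset.notMem_empty x)⟩
    · obtain ⟨x0, hx0, hmin⟩ := X.exists_min_image d h
      exact ⟨d x0, hd1 x0, hmin⟩
  refine ⟨δ, hδ, fun a b ha hb => ?_⟩
  have key : ∀ x ∈ X, ∀ z ∈ Icc (P x) (Q x), z ∉ D a b m ∧ (f a b)^[m] z = (f a0 b0)^[m] z :=
    fun x hx => hd2 x hx a b (lt_of_lt_of_le ha (hmin x hx)) (lt_of_lt_of_le hb (hmin x hx))
  refine ⟨H.pq, H.lt, H.low, H.high, fun x hx z hz => (key x hx z hz).1, fun x hx => ?_,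
    fun x hx => ?_, H.disj⟩
  · rw [(key x hx _ ⟨le_rfl, H.lt x hx⟩).2]; exact H.mapP x hx
  · rw [(key x hx _ ⟨H.lt x hx, le_rfl⟩).2]; exact H.mapQ x hx

/-- full branches give a horseshoe -/
lemma exists_horse (hab : InP a b) {A : Set ℝ} {m : ℕ} {y0 : ℝ} {M : ℕ} (hM : 3 ≤ M)
    (hF : M ≤ (Full a b A A m y0).ncard) : ∃ (p q : ℝ) (X : Finset ℝ) (P Q : ℝ → ℝ),
      Horse a b m p q X P Q ∧ M ≤ X.card + 2 := by
  classical
  have hfin := Full_finite hab A A m y0
  have hne : hfin.toFinset.Nonempty := by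
    rw [← Finset.card_pos, ← ncard_eq_toFinset_card _ hfin]; omega
  obtain ⟨p, hp, hpmin⟩ := hfin.toFinset.exists_min_image id hne
  obtain ⟨q, hq, hqmax⟩ := hfin.toFinset.exists_max_image id hne
  simp only [id, Set.Finite.mem_toFinset] at hp hq hpmin hqmax
  set X := (hfin.toFinset.erase p).erase q with hX
  have hXm : ∀ x, x ∈ X ↔ x ≠ q ∧ x ≠ p ∧ x ∈ Full a b A A m y0 := by
    intro x
    rw [hX, Finset.mem_erase, Finset.mem_erase, Set.Finite.mem_toFinset]
  have hXc : M ≤ X.card + 2 := by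
    have h1 := Finset.pred_card_le_card_erase (s := hfin.toFinset) (a := p)
    have h2 := Finset.pred_card_le_card_erase (s := hfin.toFinset.erase p) (a := q)
    rw [ncard_eq_toFinset_card _ hfin] at hF
    rw [hX]
    omega
  have hch : ∀ x ∈ X, ∃ px qx : ℝ, px ∈ A ∧ qx ∈ A ∧ (∀ z ∈ uIcc x px, z ∉ D a b m) ∧
      (∀ z ∈ uIcc x qx, z ∉ D a b m) ∧ (f a b)^[m] px = p ∧ (f a b)^[m] qx = q := by
    intro x hx
    obtain ⟨-, -, -, -, -, hf⟩ := (hXm x).1 hx
    obtain ⟨px, h1, h2, h3⟩ := hf p hp.1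
    obtain ⟨qx, h4, h5, h6⟩ := hf q hq.1
    exact ⟨px, qx, h1, h4, h2, h5, h3, h6⟩
  choose! P Q h1 h2 h3 h4 h5 h6 using hch
  -- injectivity
  have hinj : ∀ x y : ℝ, x ∈ Full a b A A m y0 → y ∈ Full a b A A m y0 → x < y →
      ¬ ∀ z ∈ Icc x y, z ∉ D a b m := by
    intro x y hx hy hxy hav
    have := mono_of_avoid hab m x y hxy hav
    rw [hx.2.2.1, hy.2.2.1] at this
    exact lt_irrefl _ this
  have hpq : p < q := by
    have hXne : X.Nonempty := by rw [← Finset.card_pos]; omega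
    obtain ⟨x, hx⟩ := hXne
    obtain ⟨hxq, hxp, hxF⟩ := (hXm x).1 hx
    have k1 := hpmin x hxF
    have k2 := hqmax x hxF
    exact lt_of_lt_of_le (lt_of_le_of_ne k1 (Ne.symm hxp)) k2
  have hhull : ∀ x ∈ X, ∀ z, z ∈ uIcc (P x) (Q x) → ∀ w ∈ uIcc x z, w ∉ D a b m := by
    intro x hx z hz w hw hwD
    have c1 := h3 x hx w
    have c2 := h4 x hx w
    rw [mem_uIcc] at hz hw c1 c2
    rcases hz with hz | hz <;> rcases hw with hw | hw
    · apply c2 (Or.inl ⟨hw.1, hw.2.trans hz.2⟩) hwD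
    · apply c1 (Or.inr ⟨hz.1.trans hw.1, hw.2⟩) hwD
    · apply c1 (Or.inl ⟨hw.1, hw.2.trans hz.2⟩) hwD
    · apply c2 (Or.inr ⟨hz.1.trans hw.1, hw.2⟩) hwD
  have hPQ : ∀ x ∈ X, P x ≤ Q x := by
    intro x hx
    by_contra hcon
    have hlt := not_le.1 hcon
    have hav : ∀ z ∈ Icc (Q x) (P x), z ∉ D a b m := by
      intro z hz
      exact hhull x hx z (by rw [uIcc_of_ge hlt.le]; exact hz) z right_mem_uIcc
    have := mono_of_avoid hab m _ _ hlt hav
    rw [h5 x hx, h6 x hx] at this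
    exact absurd this (not_lt.2 hpq.le)
  refine ⟨p, q, X, P, Q, ⟨hpq, hPQ, ?_, ?_, ?_, h5, h6, ?_⟩, hXc⟩
  · intro x hx
    by_contra hcon
    have hlt := not_le.1 hcon
    obtain ⟨hxq, hxp, hxF⟩ := (hXm x).1 hx
    have k1 : p < x := lt_of_le_of_ne (hpmin x hxF) (Ne.symm hxp)
    refine hinj p x hp hxF k1 fun z hz => ?_
    apply h3 x hx
    rw [mem_uIcc]
    exact Or.inr ⟨hlt.le.trans hz.1, hz.2⟩
  · intro x hx
    by_contra hcon
    have hlt := not_le.1 hcon
    obtain ⟨hxq, hxp, hxF⟩ := (hXm x).1 hx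
    have k1 : x < q := lt_of_le_of_ne (hqmax x hxF) hxq
    refine hinj x q hxF hq k1 fun z hz => ?_
    apply h4 x hx
    rw [mem_uIcc]
    exact Or.inl ⟨hz.1, hz.2.trans hlt.le⟩
  · intro x hx z hz
    exact hhull x hx z (by rw [uIcc_of_le (hPQ x hx)]; exact hz) z right_mem_uIcc
  · have key : ∀ x ∈ X, ∀ x' ∈ X, ∀ z, z ∈ Icc (P x) (Q x) → z ∈ Icc (P x') (Q x') → ¬ x < x' := by
      intro x hx x' hx' z hz hz' hlt
      obtain ⟨-, -, hxF⟩ := (hXm x).1 hx
      obtain ⟨-, -, hxF'⟩ := (hXm x').1 hx'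
      refine hinj x x' hxF hxF' hlt fun w hw hwD => ?_
      have c1 := hhull x hx z (by rw [uIcc_of_le (hPQ x hx)]; exact hz) w
      have c2 := hhull x' hx' z (by rw [uIcc_of_le (hPQ x' hx')]; exact hz') w
      rw [mem_uIcc] at c1 c2
      rcases le_total w z with h | h
      · exact c1 (Or.inl ⟨hw.1, h⟩) hwD
      · exact c2 (Or.inr ⟨h, hw.2⟩) hwD
    intro x hx x' hx' z hz hz'
    rcases lt_trichotomy x x' with h | h | h
    · exact absurd h (key x hx x' hx' z hz hz')
    · exact h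
    · exact absurd h (key x' hx' x hx z hz' hz)

lemma ent_nonneg (a b : ℝ) : 0 ≤ ent a b := by
  classical
  by_cases h : InP a b
  · exact ge_of_tendsto' (ent_spec h) fun n =>
      div_nonneg (log_laps_nonneg a b n) (Nat.cast_nonneg n)
  · unfold ent
    rw [dif_neg h]

/-- **Lower semicontinuity.** -/
theorem lsc {a0 b0 : ℝ} (hc : InP a0 b0) {u : ℝ} (hu : u < ent a0 b0) : ∃ ε : ℝ, 0 < ε ∧
    ∀ a b : ℝ, InP a b → |a - a0| < ε → |b - b0| < ε → u < ent a b := by
  classical
  rcases lt_or_ge u 0 with hu0 | hu0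
  · exact ⟨1, one_pos, fun a b _ _ _ => lt_of_lt_of_le hu0 (ent_nonneg a b)⟩
  obtain ⟨w0, hw0, hw0'⟩ := exists_between hu
  obtain ⟨w1, hw1, hw1'⟩ := exists_between hw0'
  have hw1p : 0 < w1 := by linarith
  obtain ⟨N, hN⟩ := exists_nat_gt (Real.log 2 / w1)
  have hN0 : (0 : ℝ) < N := lt_of_le_of_lt (by positivity) hN
  have hN1 : 1 ≤ N := by
    have : 0 < N := by exact_mod_cast hN0
    omega
  rw [div_lt_iff₀ hw1p] at hN
  have hω2 : 2 < Real.exp (N * w1) := by
    rw [← Real.log_lt_iff_lt_exp (by norm_num)]; exact hN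
  have hωω : Real.exp (N * w0) < Real.exp (N * w1) := by
    apply Real.exp_lt_exp.2
    exact mul_lt_mul_of_pos_left hw1 hN0
  have hgr := growth hc hN1 hω2 (by
    rw [Real.log_exp]
    rw [mul_div_assoc, mul_comm, div_mul_cancel₀ _ hN0.ne']
    exact hw1')
  obtain ⟨A, hA, n, hn, hpt⟩ := exists_many (sc a0 b0 N hc) (AA := (comps_finite hc N).toFinset)
    (fun x => (card_filter_dec _ _ _ _).le.trans (sc_card hc x)) (Real.exp_pos (N * w0)) hωω hω2 (by
      intro hcon
      apply hgr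
      obtain ⟨C, hC⟩ := hcon
      exact ⟨C, fun A hA n => hC A hA n⟩)
  have hA' : A ∈ comps a0 b0 N := by simpa using hA
  have hAv := comps_valid hA'
  -- the powers
  set x := Real.exp (u * (n * N)) with hx
  set y := Real.exp (w0 * (n * N)) with hy
  have hnN : (0 : ℝ) < n * N := by
    have : (0 : ℝ) < n := by exact_mod_cast hn
    positivity
  have hx0 : 0 < x := Real.exp_pos _
  have hxy : x < y := Real.exp_lt_exp.2 (mul_lt_mul_of_pos_right hw0 hnN)
  have hy1 : 1 < y := Real.one_lt_exp_iff.2 (by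
    have : 0 < w0 := by linarith
    positivity)
  have hpt' : y < pt (sc a0 b0 N hc) n A A := by
    refine lt_of_eq_of_lt ?_ hpt
    rw [hy, ← Real.exp_nat_mul]
    congr 1; ring
  obtain ⟨k, hk1, hk2⟩ : ∃ k : ℕ, 1 ≤ k ∧ x ^ k + 3 ≤ y ^ k := by
    have t1 : Tendsto (fun k : ℕ => (x / y) ^ k) atTop (𝓝 0) :=
      tendsto_pow_atTop_nhds_zero_of_lt_one (by positivity) (by rw [div_lt_one (by linarith)]; exact hxy)
    have t2 : Tendsto (fun k : ℕ => y ^ k) atTop atTop := tendsto_pow_atTop_atTop_of_one_lt hy1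
    obtain ⟨k, k1, k2, k3⟩ := ((t1.eventually (Iio_mem_nhds (by norm_num : (0 : ℝ) < 1 / 2))).and
      ((t2.eventually_ge_atTop 6).and (eventually_ge_atTop 1))).exists
    refine ⟨k, k3, ?_⟩
    have k4 : x ^ k = (x / y) ^ k * y ^ k := by
      rw [← mul_pow, div_mul_cancel₀ _ (by linarith : y ≠ 0)]
    have k5 : (x / y) ^ k < 1 / 2 := k1
    rw [k4]
    nlinarith
  have hM1 : y ^ k ≤ (pt (sc a0 b0 N hc) (n * k) A A : ℝ) := by
    have h1 : (pt (sc a0 b0 N hc) n A A : ℝ) ^ k ≤ pt (sc a0 b0 N hc) (n * k) A A := by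
      exact_mod_cast pt_pow (sc a0 b0 N hc) n A k
    refine le_trans ?_ h1
    exact pow_le_pow_left₀ (by linarith) hpt'.le k
  obtain ⟨y0, hy0⟩ := hAv.1
  have hF := full_ge hc hAv hy0 (n * k) A hAv
  have hM3 : 3 ≤ pt (sc a0 b0 N hc) (n * k) A A := by
    have : (3 : ℝ) ≤ pt (sc a0 b0 N hc) (n * k) A A := by
      have : 0 < x ^ k := by positivity
      linarith
    exact_mod_cast this
  have hF' : pt (sc a0 b0 N hc) (n * k) A A ≤ (Full a0 b0 A A (n * k * N) y0).ncard :=
    (pt_dec _ _ _ _ _ _).le.trans hF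
  obtain ⟨p, q, X, P, Q, H, hX⟩ := exists_horse hc hM3 hF'
  obtain ⟨δ, hδ, hpert⟩ := H.perturb hc
  refine ⟨δ, hδ, fun a b hab ha hb => ?_⟩
  have H' := hpert a b ha hb
  have hXc : x ^ k < X.card := by
    have : (pt (sc a0 b0 N hc) (n * k) A A : ℝ) ≤ X.card + 2 := by exact_mod_cast hX
    linarith
  have hX1 : 1 ≤ X.card := by
    have : (0 : ℝ) < X.card := lt_trans (by positivity) hXc
    exact_mod_cast this
  have hm1 : 1 ≤ n * k * N := Nat.one_le_iff_ne_zero.2 (by positivity)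
  have hge := H'.ent_ge hab hm1 hX1
  refine lt_of_lt_of_le ?_ hge
  have hmN : (0 : ℝ) < ((n * k * N : ℕ) : ℝ) := by exact_mod_cast hm1
  rw [lt_div_iff₀ hmN, Real.lt_log_iff_exp_lt (lt_trans (by positivity) hXc)]
  refine lt_of_eq_of_lt ?_ hXc
  rw [hx, ← Real.exp_nat_mul]
  congr 1
  push_cast; ring

end Pool.Agent.R294.CF
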