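import Pool.Agent.R660.CF.Lower

/-!
# Upper semicontinuity of the entropy of the slow (a,b)-continued fraction maps
-/

set_option autoImplicit false

namespace Pool.Agent.R294.CF

open Filter Topology Set Pool.Agent.R660.CF

/-! ### A distance which is not contracted -/

/-- `F' (x) = min (1, 1 / x ^ 2)` -/
noncomputable def FF (x : ℝ) : ℝ := if x ≤ -1 then -2 - 1 / x else if x ≤ 1 then x else 2 - 1 / x

lemma FF_low {x : ℝ} (h : x ≤ -1) : FF x = -2 - 1 / x := by simp [FF, h]
lemma FF_mid {x : ℝ} (h : -1 ≤ x) (h' : x ≤ 1) : FF x = x := by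
  unfold FF
  split_ifs with h1
  · have : x = -1 := le_antisymm h1 h
    subst this; norm_num
  · rfl
lemma FF_high {x : ℝ} (h : 1 ≤ x) : FF x = 2 - 1 / x := by
  unfold FF
  rw [if_neg (by linarith)]
  split_ifs with h1
  · have : x = 1 := le_antisymm h1 h
    subst this; norm_num
  · rfl

lemma FF_neg (x : ℝ) : FF (-x) = -FF x := by
  rcases le_total x (-1) with h | h
  · rw [FF_low h, FF_high (by linarith), div_neg]; ring
  · rcases le_total x 1 with h' | h'
    · rw [FF_mid h h', FF_mid (by linarith) (by linarith)]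
    · rw [FF_high h', FF_low (by linarith), div_neg]; ring

lemma FF_mono : StrictMono FF := by
  have h1 : StrictMonoOn FF (Iic (-1)) := by
    intro x hx y hy hxy
    have hx' : x ≤ -1 := hx
    have hy' : y ≤ -1 := hy
    rw [FF_low hx, FF_low hy]
    have := one_div_lt_one_div_of_neg_of_lt (by linarith : y < 0) hxy
    linarith
  have h2 : StrictMonoOn FF (Icc (-1) 1) := by
    intro x hx y hy hxy
    rw [FF_mid hx.1 hx.2, FF_mid hy.1 hy.2]; exact hxy
  have h3 : StrictMonoOn FF (Ici 1) := by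
    intro x hx y hy hxy
    have hx' : 1 ≤ x := hx
    rw [FF_high hx, FF_high hy]
    have := one_div_lt_one_div_of_lt (by linarith : 0 < x) hxy
    linarith
  have h4 := h1.union h2 isGreatest_Iic (isLeast_Icc (by norm_num))
  rw [Iic_union_Icc_eq_Iic (by norm_num)] at h4
  have h5 := h4.union h3 isGreatest_Iic isLeast_Ici
  rw [Iic_union_Ici] at h5
  exact strictMonoOn_univ.1 h5

lemma FF_T_mono : MonotoneOn (fun z => FF (z + 1) - FF z) (Iic 0) := by
  have h1 : MonotoneOn (fun z => FF (z + 1) - FF z) (Iic (-2)) := by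
    intro x hx y hy hxy
    have hx' : x ≤ -2 := hx
    have hy' : y ≤ -2 := hy
    simp only
    rw [FF_low (by linarith), FF_low (by linarith), FF_low (by linarith), FF_low (by linarith)]
    have e : ∀ t : ℝ, t ≤ -2 → -2 - 1 / (t + 1) - (-2 - 1 / t) = 1 / (t * (t + 1)) := by
      intro t ht
      have : t ≠ 0 := by intro h; linarith
      have : t + 1 ≠ 0 := by intro h; linarith
      field_simp
      ring
    rw [e x hx', e y hy']
    apply one_div_le_one_div_of_le
    · nlinarith
    · nlinarith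
  have h2 : MonotoneOn (fun z => FF (z + 1) - FF z) (Icc (-2) (-1)) := by
    intro x hx y hy hxy
    simp only
    rw [FF_mid (by linarith [hx.1]) (by linarith [hx.2]), FF_low hx.2,
      FF_mid (by linarith [hy.1]) (by linarith [hy.2]), FF_low hy.2]
    have hx0 : x < 0 := by linarith [hx.2]
    have hy0 : y < 0 := by linarith [hy.2]
    have hp : 1 ≤ x * y := by nlinarith [hx.2, hy.2]
    have e1 : 1 / x - 1 / y = (y - x) / (x * y) := by
      have := hx0.ne; have := hy0.ne
      field_simp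
    have e2 : (y - x) / (x * y) ≤ y - x := div_le_self (by linarith) hp
    linarith
  have h3 : MonotoneOn (fun z => FF (z + 1) - FF z) (Icc (-1) 0) := by
    intro x hx y hy hxy
    simp only
    rw [FF_mid (by linarith [hx.1]) (by linarith [hx.2]),
      FF_mid (by linarith [hx.1]) (by linarith [hx.2]),
      FF_mid (by linarith [hy.1]) (by linarith [hy.2]),
      FF_mid (by linarith [hy.1]) (by linarith [hy.2])]
    linarith
  have h4 := h1.union_right h2 isGreatest_Iic (isLeast_Icc (by norm_num))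
  rw [Iic_union_Icc_eq_Iic (by norm_num)] at h4
  have h5 := h4.union_right h3 isGreatest_Iic (isLeast_Icc (by norm_num))
  rwa [Iic_union_Icc_eq_Iic (by norm_num)] at h5

lemma FF_T {q z : ℝ} (h : q < z) (hz : z ≤ 0) : FF z - FF q ≤ FF (z + 1) - FF (q + 1) := by
  have := FF_T_mono (h.le.trans hz : q ∈ Iic (0 : ℝ)) (hz : z ∈ Iic (0 : ℝ)) h.le
  simp only at this
  linarith

lemma FF_U {q z : ℝ} (h : q < z) (hq : 0 ≤ q) : FF z - FF q ≤ FF (z - 1) - FF (q - 1) := by
  have := FF_T (q := -z) (z := -q) (by linarith) (by linarith)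
  have e1 : FF (-z + 1) = -FF (z - 1) := by rw [← FF_neg]; congr 1; ring
  have e2 : FF (-q + 1) = -FF (q - 1) := by rw [← FF_neg]; congr 1; ring
  rw [FF_neg, FF_neg, e1, e2] at this
  linarith

lemma FF_inv_pos {z : ℝ} (hz : 0 < z) : FF (-1 / z) = FF z - 2 := by
  rcases le_total z 1 with h | h
  · have h1 : -1 / z ≤ -1 := by rw [div_le_iff₀ hz]; linarith
    rw [FF_low h1, FF_mid (by linarith) h]
    field_simp
    ring
  · have h1 : -1 ≤ -1 / z := by rw [le_div_iff₀ hz]; linarith
    have h2 : -1 / z ≤ 1 := by rw [div_le_iff₀ hz]; linarith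
    rw [FF_mid h1 h2, FF_high h]
    ring

lemma FF_inv_neg {z : ℝ} (hz : z < 0) : FF (-1 / z) = FF z + 2 := by
  have h := FF_inv_pos (z := -z) (by linarith)
  have e : -1 / -z = -(-1 / z) := by rw [div_neg]
  rw [e, FF_neg, FF_neg] at h
  linarith

lemma FF_S {q z : ℝ} (h : q < z) (h0 : 0 < q ∨ z < 0) :
    FF z - FF q ≤ FF (-1 / z) - FF (-1 / q) := by
  rcases h0 with h0 | h0
  · rw [FF_inv_pos h0, FF_inv_pos (h0.trans h)]; linarith
  · rw [FF_inv_neg h0, FF_inv_neg (h.trans h0)]; linarith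

/-! ### Letters and words -/

/-- the three branches -/
inductive Br | T | S | U

/-- the action of a branch -/
noncomputable def act : Br → ℝ → ℝ
  | .T, x => x + 1
  | .S, x => -1 / x
  | .U, x => x - 1

/-- the branch used at `x` -/
noncomputable def letr (a b x : ℝ) : Br := if x < a then .T else if x < b then .S else .U

lemma f_eq (a b x : ℝ) : f a b x = act (letr a b x) x := by
  unfold f letr act
  split_ifs <;> rfl

lemma act_inj (l : Br) : Function.Injective (act l) := by
  intro x y h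
  cases l
  · simpa [act] using h
  · simp only [act] at h
    have h2 : -1 / x / -1 = -1 / y / -1 := by rw [h]
    by_cases hx : x = 0
    · subst hx
      by_cases hy : y = 0
      · exact hy.symm
      · exfalso
        rw [div_zero] at h
        have : -1 / y ≠ 0 := div_ne_zero (by norm_num) hy
        exact this h.symm
    · by_cases hy : y = 0
      · exfalso
        subst hy
        rw [div_zero] at h
        exact (div_ne_zero (by norm_num) hx) h
      · field_simp at h
        linarith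
  · simpa [act] using h

/-- the word of length `n` of `x` -/
noncomputable def word (a b : ℝ) : ℕ → ℝ → List Br
  | 0, _ => []
  | n + 1, x => letr a b x :: word a b n (f a b x)

lemma word_inj (a b : ℝ) : ∀ (j m : ℕ) (y y' : ℝ), j ≤ m → word a b m y = word a b m y' →
    (f a b)^[j] y = (f a b)^[j] y' → y = y' := by
  intro j
  induction j with
  | zero => intro m y y' _ _ h; exact h
  | succ j ih =>
    intro m y y' hj hw h
    obtain ⟨m, rfl⟩ : ∃ k, m = k + 1 := ⟨m - 1, by omega⟩
    rw [word, word] at hw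
    obtain ⟨h1, h2⟩ := List.cons.inj hw
    rw [Function.iterate_succ_apply, Function.iterate_succ_apply] at h
    have h3 := ih m _ _ (by omega) h2 h
    rw [f_eq, f_eq, h1] at h3
    exact act_inj _ h3

lemma word_low (a b : ℝ) : ∀ (n : ℕ) (x : ℝ), x < a - n → word a b n x = List.replicate n .T := by
  intro n
  induction n with
  | zero => intro x _; rfl
  | succ n ih =>
    intro x hx
    push_cast at hx
    have hn : (0 : ℝ) ≤ n := Nat.cast_nonneg n
    have h1 : x < a := by linarith
    rw [word, List.replicate_succ, f_lt h1, ih (x + 1) (by linarith)]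
    congr 1
    simp [letr, h1]

/-- the words seen to the right of `q` -/
noncomputable def W (a b : ℝ) : ℕ → ℝ → ℕ → ℕ → List Br
  | 0, _, _, _ => []
  | n + 1, q, t, s =>
    open Classical in
    if q < a then .T :: W a b n (q + 1) t s
    else if q = a then
      (if t = 0 then .S :: (if q = 0 then List.replicate n .T else W a b n (-1 / q) 0 s)
        else .T :: W a b n (q + 1) (t - 1) s)
    else if q < b then .S :: (if q = 0 then List.replicate n .T else W a b n (-1 / q) t s)
    else if q = b then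
      (if s = 0 then .U :: W a b n (q - 1) t 0
        else .S :: (if q = 0 then List.replicate n .T else W a b n (-1 / q) t (s - 1)))
    else .U :: W a b n (q - 1) t s

/-- the parameter set -/
def PP : Set (ℝ × ℝ) := {c | InP c.1 c.2}

/-- the filter of right germs -/
def GF (a0 b0 q : ℝ) : Filter (ℝ × (ℝ × ℝ)) := 𝓝[>] q ×ˢ 𝓝[PP] (a0, b0)

variable {a0 b0 : ℝ}

lemma GF_T (q : ℝ) : Tendsto (fun x : ℝ × (ℝ × ℝ) => (x.1 + 1, x.2)) (GF a0 b0 q)
    (GF a0 b0 (q + 1)) := by
  apply Tendsto.prodMk _ tendsto_snd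
  have h : Tendsto (fun z : ℝ => z + 1) (𝓝[>] q) (𝓝[>] (q + 1)) := by
    apply tendsto_nhdsWithin_of_tendsto_nhds_of_eventually_within
    · exact ((continuous_id.add continuous_const).tendsto q).mono_left nhdsWithin_le_nhds
    · filter_upwards [self_mem_nhdsWithin] with z hz
      have : q < z := hz
      exact (by linarith : q + 1 < z + 1)
  exact h.comp tendsto_fst

lemma GF_U (q : ℝ) : Tendsto (fun x : ℝ × (ℝ × ℝ) => (x.1 - 1, x.2)) (GF a0 b0 q)
    (GF a0 b0 (q - 1)) := by
  apply Tendsto.prodMk _ tendsto_snd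
  have h : Tendsto (fun z : ℝ => z - 1) (𝓝[>] q) (𝓝[>] (q - 1)) := by
    apply tendsto_nhdsWithin_of_tendsto_nhds_of_eventually_within
    · exact ((continuous_id.sub continuous_const).tendsto q).mono_left nhdsWithin_le_nhds
    · filter_upwards [self_mem_nhdsWithin] with z hz
      have : q < z := hz
      exact (by linarith : q - 1 < z - 1)
  exact h.comp tendsto_fst

lemma GF_S {q : ℝ} (hq : q ≠ 0) : Tendsto (fun x : ℝ × (ℝ × ℝ) => (-1 / x.1, x.2)) (GF a0 b0 q)
    (GF a0 b0 (-1 / q)) := by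
  apply Tendsto.prodMk _ tendsto_snd
  have h : Tendsto (fun z : ℝ => -1 / z) (𝓝[>] q) (𝓝[>] (-1 / q)) := by
    apply tendsto_nhdsWithin_of_tendsto_nhds_of_eventually_within
    · exact ((continuousAt_const.div continuousAt_id hq).tendsto).mono_left nhdsWithin_le_nhds
    · rcases lt_or_gt_of_ne hq with h0 | h0
      · have : ∀ᶠ z in 𝓝[>] q, z < 0 := nhdsWithin_le_nhds (Iio_mem_nhds h0)
        filter_upwards [self_mem_nhdsWithin, this] with z hz hz0
        have hz' : q < z := hz
        change -1 / q < -1 / z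
        rw [neg_div, neg_div, neg_lt_neg_iff]
        exact one_div_lt_one_div_of_neg_of_lt hz0 hz'
      · filter_upwards [self_mem_nhdsWithin] with z hz
        have hz' : q < z := hz
        change -1 / q < -1 / z
        rw [neg_div, neg_div, neg_lt_neg_iff]
        exact one_div_lt_one_div_of_lt h0 hz'
  exact h.comp tendsto_fst

lemma GF_gt (q : ℝ) : ∀ᶠ x in GF a0 b0 q, q < x.1 :=
  tendsto_fst.eventually (self_mem_nhdsWithin : ∀ᶠ z in 𝓝[>] q, q < z)

lemma GF_P (q : ℝ) : ∀ᶠ x in GF a0 b0 q, InP x.2.1 x.2.2 :=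
  tendsto_snd.eventually (self_mem_nhdsWithin : ∀ᶠ c in 𝓝[PP] (a0, b0), c ∈ PP)

lemma GF_fst (q : ℝ) : Tendsto (fun x : ℝ × (ℝ × ℝ) => x.1) (GF a0 b0 q) (𝓝 q) :=
  (tendsto_fst (f := 𝓝[>] q) (g := 𝓝[PP] (a0, b0))).mono_right nhdsWithin_le_nhds

lemma GF_a (q : ℝ) : Tendsto (fun x : ℝ × (ℝ × ℝ) => x.2.1) (GF a0 b0 q) (𝓝 a0) := by
  have h := (tendsto_snd (f := 𝓝[>] q) (g := 𝓝[PP] (a0, b0))).mono_right nhdsWithin_le_nhds
  exact (continuous_fst.tendsto (a0, b0)).comp h

lemma GF_b (q : ℝ) : Tendsto (fun x : ℝ × (ℝ × ℝ) => x.2.2) (GF a0 b0 q) (𝓝 b0) := by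
  have h := (tendsto_snd (f := 𝓝[>] q) (g := 𝓝[PP] (a0, b0))).mono_right nhdsWithin_le_nhds
  exact (continuous_snd.tendsto (a0, b0)).comp h

/-- the claim on germs -/
def Good (a0 b0 : ℝ) (n : ℕ) (q : ℝ) (x : ℝ × (ℝ × ℝ)) : Prop :=
  ∃ t s : ℕ, t ≤ n ∧ s ≤ n ∧ word x.2.1 x.2.2 n x.1 = W a0 b0 n q t s ∧
    (FF x.2.1 - FF a0 ≤ FF x.1 - FF q → t = 0) ∧ (FF x.2.2 - FF b0 ≤ FF x.1 - FF q → s = 0)

lemma inv_low (n : ℕ) : ∀ᶠ x in GF a0 b0 0,
    word x.2.1 x.2.2 n (-1 / x.1) = List.replicate n .T := by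
  have h1 : ∀ᶠ x in GF a0 b0 0, a0 - 1 < x.2.1 := (GF_a 0).eventually (Ioi_mem_nhds (by linarith))
  have h2 : ∀ᶠ x in GF a0 b0 0, x.1 < 1 / (|a0| + n + 2) :=
    (GF_fst 0).eventually (Iio_mem_nhds (by positivity))
  filter_upwards [h1, h2, GF_gt 0] with x h1 h2 h3
  apply word_low
  have hp : 0 < |a0| + n + 2 := by positivity
  rw [lt_div_iff₀ hp] at h2
  have h4 : -1 / x.1 < -(|a0| + n + 2) := by
    rw [div_lt_iff₀ h3]; nlinarith
  have := neg_abs_le a0
  linarith

theorem germ (hc : InP a0 b0) (n : ℕ) : ∀ q : ℝ, ∀ᶠ x in GF a0 b0 q, Good a0 b0 n q x := by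
  have hab : a0 < b0 := by have := hc.2.2.1; linarith
  induction n with
  | zero =>
    intro q
    filter_upwards with x
    exact ⟨0, 0, le_rfl, le_rfl, rfl, fun _ => rfl, fun _ => rfl⟩
  | succ n ih =>
    intro q
    have iT := (GF_T q).eventually (ih (q + 1))
    have iU := (GF_U q).eventually (ih (q - 1))
    rcases lt_trichotomy q a0 with hq | hq | hq
    · -- `q < a0`
      have h1 : ∀ᶠ x in GF a0 b0 q, x.1 < x.2.1 := (GF_fst q).eventually_lt (GF_a q) hq
      filter_upwards [iT, h1, GF_gt q, GF_P q] with x iT h1 h2 h3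
      obtain ⟨t, s, ht, hs, hw, h5, h6⟩ := iT
      simp only at hw h5 h6
      have hd := FF_T h2 (h1.le.trans h3.1)
      refine ⟨t, s, by omega, by omega, ?_, fun h => h5 (h.trans hd), fun h => h6 (h.trans hd)⟩
      rw [word, W, if_pos hq, f_lt h1, hw]
      simp [letr, h1]
    · -- `q = a0`
      subst hq
      by_cases hq0 : q = 0
      · subst hq0
        have h1 : ∀ᶠ x in GF 0 b0 0, x.1 < x.2.2 := (GF_fst 0).eventually_lt (GF_b 0) hab
        filter_upwards [inv_low n, h1, GF_gt 0, GF_P 0] with x iS h1 h2 h3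
        have hna : ¬ x.1 < x.2.1 := by have := h3.1; linarith
        refine ⟨0, 0, by omega, by omega, ?_, fun _ => rfl, fun _ => rfl⟩
        rw [word, W, if_neg (lt_irrefl _), if_pos rfl, if_pos rfl, if_pos rfl,
          f_mid (not_lt.1 hna) h1, iS]
        simp [letr, hna, h1]
      · have iS := (GF_S hq0).eventually (ih (-1 / q))
        have hqn : q < 0 := lt_of_le_of_ne hc.1 hq0
        have h1 : ∀ᶠ x in GF q b0 q, x.1 < x.2.2 := (GF_fst q).eventually_lt (GF_b q) hab
        have h1' : ∀ᶠ x in GF q b0 q, x.1 < 0 := (GF_fst q).eventually (Iio_mem_nhds hqn)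
        filter_upwards [iT, iS, h1, h1', GF_gt q, GF_P q] with x iT iS h1 h1' h2 h3
        by_cases hxa : x.1 < x.2.1
        · obtain ⟨t, s, ht, hs, hw, h5, h6⟩ := iT
          simp only at hw h5 h6
          have hd := FF_T h2 h1'.le
          refine ⟨t + 1, s, by omega, by omega, ?_, fun h => ?_, fun h => h6 (h.trans hd)⟩
          · rw [word, W, if_neg (lt_irrefl _), if_pos rfl, if_neg (Nat.succ_ne_zero t), f_lt hxa,
              Nat.add_sub_cancel, hw]
            simp [letr, hxa]
          · exfalso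
            have := FF_mono hxa
            linarith
        · obtain ⟨t, s, ht, hs, hw, h5, h6⟩ := iS
          simp only at hw h5 h6
          have hd := FF_S h2 (Or.inr h1')
          have ht0 : t = 0 := by
            apply h5
            have := FF_mono.monotone (not_lt.1 hxa)
            linarith
          subst ht0
          refine ⟨0, s, by omega, by omega, ?_, fun _ => rfl, fun h => h6 (h.trans hd)⟩
          rw [word, W, if_neg (lt_irrefl _), if_pos rfl, if_pos rfl, if_neg hq0,
            f_mid (not_lt.1 hxa) h1, hw]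
          simp [letr, hxa, h1]
    · have h1a : ∀ᶠ x in GF a0 b0 q, x.2.1 < x.1 := (GF_a q).eventually_lt (GF_fst q) hq
      rcases lt_trichotomy q b0 with hqb | hqb | hqb
      · -- `a0 < q < b0`
        have h1b : ∀ᶠ x in GF a0 b0 q, x.1 < x.2.2 := (GF_fst q).eventually_lt (GF_b q) hqb
        by_cases hq0 : q = 0
        · subst hq0
          filter_upwards [inv_low n, h1a, h1b] with x iS h1a h1b
          refine ⟨0, 0, by omega, by omega, ?_, fun _ => rfl, fun _ => rfl⟩
          rw [word, W, if_neg (not_lt.2 hq.le), if_neg hq.ne', if_pos hqb, if_pos rfl,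
            f_mid h1a.le h1b, iS]
          simp [letr, not_lt.2 h1a.le, h1b]
        · have iS := (GF_S hq0).eventually (ih (-1 / q))
          have h1' : ∀ᶠ x in GF a0 b0 q, 0 < q ∨ x.1 < 0 := by
            rcases lt_or_gt_of_ne hq0 with h0 | h0
            · filter_upwards [(GF_fst q).eventually (Iio_mem_nhds h0)] with x hx
              exact Or.inr hx
            · filter_upwards with x
              exact Or.inl h0
          filter_upwards [iS, h1a, h1b, h1', GF_gt q] with x iS h1a h1b h1' h2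
          obtain ⟨t, s, ht, hs, hw, h5, h6⟩ := iS
          simp only at hw h5 h6
          have hd := FF_S h2 h1'
          refine ⟨t, s, by omega, by omega, ?_, fun h => h5 (h.trans hd), fun h => h6 (h.trans hd)⟩
          rw [word, W, if_neg (not_lt.2 hq.le), if_neg hq.ne', if_pos hqb, if_neg hq0,
            f_mid h1a.le h1b, hw]
          simp [letr, not_lt.2 h1a.le, h1b]
      · -- `q = b0`
        subst hqb
        have hU : ∀ x : ℝ × (ℝ × ℝ), Good a0 q n (q - 1) (x.1 - 1, x.2) → q < x.1 →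
            InP x.2.1 x.2.2 → x.2.1 < x.1 → ¬ x.1 < x.2.2 → Good a0 q (n + 1) q x := by
          intro x iU h2 h3 h1a hxb
          obtain ⟨t, s, ht, hs, hw, h5, h6⟩ := iU
          simp only at hw h5 h6
          have hd := FF_U h2 hc.2.1
          have hs0 : s = 0 := by
            apply h6
            have := FF_mono.monotone (not_lt.1 hxb)
            linarith
          subst hs0
          refine ⟨t, 0, by omega, by omega, ?_, fun h => h5 (h.trans hd), fun _ => rfl⟩
          rw [word, W, if_neg (not_lt.2 hq.le), if_neg hq.ne', if_neg (lt_irrefl _), if_pos rfl,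
            if_pos rfl, f_ge h3 (not_lt.1 hxb), hw]
          simp [letr, not_lt.2 h1a.le, hxb]
        by_cases hq0 : q = 0
        · subst hq0
          filter_upwards [inv_low n, iU, h1a, GF_gt 0, GF_P 0] with x iS iU h1a h2 h3
          by_cases hxb : x.1 < x.2.2
          · refine ⟨0, 1, by omega, by omega, ?_, fun _ => rfl, fun h => ?_⟩
            · rw [word, W, if_neg (not_lt.2 hq.le), if_neg hq.ne', if_neg (lt_irrefl _), if_pos rfl,
                if_neg one_ne_zero, if_pos rfl, f_mid h1a.le hxb, iS]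
              simp [letr, not_lt.2 h1a.le, hxb]
            · exfalso
              have := FF_mono hxb
              linarith
          · exact hU x iU h2 h3 h1a hxb
        · have iS := (GF_S hq0).eventually (ih (-1 / q))
          have hq0' : 0 < q := lt_of_le_of_ne hc.2.1 (Ne.symm hq0)
          filter_upwards [iS, iU, h1a, GF_gt q, GF_P q] with x iS iU h1a h2 h3
          by_cases hxb : x.1 < x.2.2
          · obtain ⟨t, s, ht, hs, hw, h5, h6⟩ := iS
            simp only at hw h5 h6
            have hd := FF_S h2 (Or.inl hq0')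
            refine ⟨t, s + 1, by omega, by omega, ?_, fun h => h5 (h.trans hd), fun h => ?_⟩
            · rw [word, W, if_neg (not_lt.2 hq.le), if_neg hq.ne', if_neg (lt_irrefl _), if_pos rfl,
                if_neg (Nat.succ_ne_zero s), if_neg hq0, f_mid h1a.le hxb, Nat.add_sub_cancel, hw]
              simp [letr, not_lt.2 h1a.le, hxb]
            · exfalso
              have := FF_mono hxb
              linarith
          · exact hU x iU h2 h3 h1a hxb
      · -- `b0 < q`
        have h1b : ∀ᶠ x in GF a0 b0 q, x.2.2 < x.1 := (GF_b q).eventually_lt (GF_fst q) hqb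
        filter_upwards [iU, h1a, h1b, GF_gt q, GF_P q] with x iU h1a h1b h2 h3
        obtain ⟨t, s, ht, hs, hw, h5, h6⟩ := iU
        simp only at hw h5 h6
        have hd := FF_U h2 (hc.2.1.trans hqb.le)
        refine ⟨t, s, by omega, by omega, ?_, fun h => h5 (h.trans hd), fun h => h6 (h.trans hd)⟩
        rw [word, W, if_neg (not_lt.2 hq.le), if_neg hq.ne', if_neg (not_lt.2 hqb.le),
          if_neg hqb.ne', f_ge h3 h1b.le, hw]
        simp [letr, not_lt.2 h1a.le, not_lt.2 h1b.le]

/-! ### Counting -/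

lemma right_count (hc : InP a0 b0) (p : ℝ) (m : ℕ) : ∃ ε : ℝ, 0 < ε ∧ ∀ a b : ℝ, InP a b →
    |a - a0| < ε → |b - b0| < ε →
    (D a b m ∩ Ioo p (p + ε)).ncard ≤ (m + 1) * (m + 1) * (m * 3) := by
  classical
  have h := germ hc m p
  obtain ⟨s1, hs1, s2, hs2, hs⟩ := Filter.mem_prod_iff.1 h
  obtain ⟨u, hu, hu2⟩ := (mem_nhdsGT_iff_exists_Ioo_subset).1 hs1
  obtain ⟨δ, hδ, hδ2⟩ := Metric.mem_nhdsWithin_iff.1 hs2
  have hu' : p < u := hu
  refine ⟨min (u - p) δ, lt_min (by linarith) hδ, fun a b hab ha hb => ?_⟩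
  have hcs : (a, b) ∈ s2 := by
    apply hδ2
    refine ⟨?_, hab⟩
    rw [Metric.mem_ball, Prod.dist_eq, max_lt_iff, Real.dist_eq, Real.dist_eq]
    exact ⟨lt_of_lt_of_le ha (min_le_right _ _), lt_of_lt_of_le hb (min_le_right _ _)⟩
  have hg : ∀ y ∈ D a b m ∩ Ioo p (p + min (u - p) δ), ∃ w : ℕ × ℕ × ℕ × ℝ,
      w ∈ (Finset.range (m + 1) ×ˢ (Finset.range (m + 1) ×ˢ (Finset.range m ×ˢ {a, 0, b})) :
        Finset (ℕ × ℕ × ℕ × ℝ)) ∧
      word a b m y = W a0 b0 m p w.1 w.2.1 ∧ (f a b)^[w.2.2.1] y = w.2.2.2 := by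
    rintro y ⟨⟨j, hj, hjy⟩, hy⟩
    have hy1 : y ∈ s1 := hu2 ⟨hy.1, by have := hy.2; have := min_le_left (u - p) δ; linarith⟩
    obtain ⟨t, s, ht, hs', hw, -, -⟩ := hs (Set.mk_mem_prod hy1 hcs)
    refine ⟨(t, s, j, (f a b)^[j] y), ?_, hw, rfl⟩
    simp only [Finset.mem_product, Finset.mem_range, Finset.mem_insert, Finset.mem_singleton]
    exact ⟨by omega, by omega, hj, hjy⟩
  choose! g hg1 hg2 hg3 using hg
  have hinj : InjOn g (D a b m ∩ Ioo p (p + min (u - p) δ)) := by
    intro y hy y' hy' hyy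
    have e1 := hg2 y hy
    have e2 := hg2 y' hy'
    have e3 := hg3 y hy
    have e4 := hg3 y' hy'
    rw [← hyy] at e2 e4
    have hm := hg1 y hy
    simp only [Finset.mem_product, Finset.mem_range] at hm
    exact word_inj a b _ m y y' hm.2.2.1.le (e1.trans e2.symm) (e3.trans e4.symm)
  have hcard := ncard_le_ncard_of_injOn g (fun y hy => hg1 y hy) hinj (Finset.finite_toSet _)
  rw [ncard_coe_finset, Finset.card_product, Finset.card_product, Finset.card_product,
    Finset.card_range, Finset.card_range] at hcard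
  have h3 : ({a, 0, b} : Finset ℝ).card ≤ 3 := Finset.card_le_three
  calc _ ≤ _ := hcard
    _ ≤ (m + 1) * ((m + 1) * (m * 3)) := by gcongr
    _ = _ := by ring

lemma left_count (hc : InP a0 b0) (p : ℝ) (m : ℕ) : ∃ ε : ℝ, 0 < ε ∧ ∀ a b : ℝ, InP a b →
    |a - a0| < ε → |b - b0| < ε →
    (D a b m ∩ Ioo (p - ε) p).ncard ≤ (m + 1) * (m + 1) * (m * 3) := by
  obtain ⟨ε, hε, h⟩ := right_count (InP_symm hc) (-p) m
  refine ⟨ε, hε, fun a b hab ha hb => ?_⟩
  have h2 := h (-b) (-a) (InP_symm hab)
    (by rw [show -b - -b0 = -(b - b0) by ring, abs_neg]; exact hb)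
    (by rw [show -a - -a0 = -(a - a0) by ring, abs_neg]; exact ha)
  refine le_trans ?_ h2
  refine ncard_le_ncard_of_injOn (fun x : ℝ => -x) ?_ (fun x _ y _ hxy => neg_injective hxy)
    ((D_finite (InP_symm hab) m).subset inter_subset_left)
  rintro x ⟨hx1, hx2⟩
  exact ⟨D_symm hab m x hx1, by have := hx2.2; linarith, by have := hx2.1; linarith⟩

/-- the number of points of `D_m` near `p` -/
lemma near_count (hc : InP a0 b0) (p : ℝ) (m : ℕ) : ∃ ε : ℝ, 0 < ε ∧ ∀ a b : ℝ, InP a b →
    |a - a0| < ε → |b - b0| < ε →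
    (D a b m ∩ Ioo (p - ε) (p + ε)).ncard ≤ 2 * ((m + 1) * (m + 1) * (m * 3)) + 1 := by
  obtain ⟨ε1, hε1, h1⟩ := right_count hc p m
  obtain ⟨ε2, hε2, h2⟩ := left_count hc p m
  refine ⟨min ε1 ε2, lt_min hε1 hε2, fun a b hab ha hb => ?_⟩
  have k1 := h1 a b hab (lt_of_lt_of_le ha (min_le_left _ _)) (lt_of_lt_of_le hb (min_le_left _ _))
  have k2 := h2 a b hab (lt_of_lt_of_le ha (min_le_right _ _)) (lt_of_lt_of_le hb (min_le_right _ _))
  have hsub : D a b m ∩ Ioo (p - min ε1 ε2) (p + min ε1 ε2) ⊆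
      (D a b m ∩ Ioo p (p + ε1)) ∪ (D a b m ∩ Ioo (p - ε2) p) ∪ {p} := by
    rintro x ⟨hx, hx1, hx2⟩
    have m1 := min_le_left ε1 ε2
    have m2 := min_le_right ε1 ε2
    rcases lt_trichotomy x p with h | h | h
    · exact Or.inl (Or.inr ⟨hx, by linarith, h⟩)
    · exact Or.inr h
    · exact Or.inl (Or.inl ⟨hx, h, by linarith⟩)
  have hD := D_finite hab m
  have hfin : ((D a b m ∩ Ioo p (p + ε1)) ∪ (D a b m ∩ Ioo (p - ε2) p) ∪ {p}).Finite :=
    ((hD.subset inter_subset_left).union (hD.subset inter_subset_left)).union (finite_singleton p)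
  calc _ ≤ _ := ncard_le_ncard hsub hfin
    _ ≤ ((D a b m ∩ Ioo p (p + ε1)) ∪ (D a b m ∩ Ioo (p - ε2) p)).ncard + ({p} : Set ℝ).ncard :=
      ncard_union_le _ _
    _ ≤ ((D a b m ∩ Ioo p (p + ε1)).ncard + (D a b m ∩ Ioo (p - ε2) p).ncard) + 1 := by
      rw [ncard_singleton]
      exact Nat.add_le_add_right (ncard_union_le _ _) 1
    _ ≤ _ := by omega

/-- the multiplicity -/
def mult (m : ℕ) : ℕ := 2 * (2 * ((m + 1) * (m + 1) * (m * 3)) + 1)

lemma f_eq_of_far {a b ε : ℝ} (ha : |a - a0| < ε) (hb : |b - b0| < ε) {x : ℝ}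
    (h1 : x ∉ Ioo (a0 - ε) (a0 + ε)) (h2 : x ∉ Ioo (b0 - ε) (b0 + ε)) : f a b x = f a0 b0 x := by
  rw [abs_lt] at ha hb
  have e1 : x < a ↔ x < a0 := by
    rw [mem_Ioo, not_and_or, not_lt, not_lt] at h1
    constructor
    · intro h
      rcases h1 with h1 | h1 <;> linarith
    · intro h
      rcases h1 with h1 | h1 <;> linarith
  have e2 : x < b ↔ x < b0 := by
    rw [mem_Ioo, not_and_or, not_lt, not_lt] at h2
    constructor
    · intro h
      rcases h2 with h2 | h2 <;> linarith
    · intro h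
      rcases h2 with h2 | h2 <;> linarith
  unfold f
  simp only [e1, e2]

/-- comparison of the laps -/
theorem laps_compare (hc : InP a0 b0) (m : ℕ) : ∃ ε : ℝ, 0 < ε ∧ ∀ a b : ℝ, InP a b →
    |a - a0| < ε → |b - b0| < ε → laps a b m ≤ (1 + m * mult m) * laps a0 b0 m := by
  classical
  obtain ⟨ε1, hε1, h1⟩ := near_count hc a0 m
  obtain ⟨ε2, hε2, h2⟩ := near_count hc b0 m
  obtain ⟨ε, hε, hε0, hεa, hεb⟩ : ∃ ε : ℝ, 0 < ε ∧ (0 ∉ Ioo (a0 - ε) (a0 + ε) ∨ a0 = 0) ∧
      ε ≤ ε1 ∧ ε ≤ ε2 := by
    by_cases ha0 : a0 = 0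
    · exact ⟨min ε1 ε2, lt_min hε1 hε2, Or.inr ha0, min_le_left _ _, min_le_right _ _⟩
    · refine ⟨min (min ε1 ε2) |a0|, lt_min (lt_min hε1 hε2) (abs_pos.2 ha0), Or.inl ?_,
        (min_le_left _ _).trans (min_le_left _ _), (min_le_left _ _).trans (min_le_right _ _)⟩
      rintro ⟨k1, k2⟩
      have := min_le_right (min ε1 ε2) |a0|
      rcases lt_or_gt_of_ne ha0 with h | h
      · rw [abs_of_neg h] at this k2; linarith
      · rw [abs_of_pos h] at this k1; linarith
  refine ⟨ε, hε, fun a b hab ha hb => ?_⟩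
  set V : Set ℝ := Ioo (a0 - ε) (a0 + ε) ∪ Ioo (b0 - ε) (b0 + ε) with hV
  have hDab := D_finite hab m
  have hVf : (D a b m ∩ V).Finite := hDab.subset inter_subset_left
  have hVc : (D a b m ∩ V).ncard ≤ mult m := by
    have k1 := h1 a b hab (lt_of_lt_of_le ha hεa) (lt_of_lt_of_le hb hεa)
    have k2 := h2 a b hab (lt_of_lt_of_le ha hεb) (lt_of_lt_of_le hb hεb)
    have hsub : D a b m ∩ V ⊆ (D a b m ∩ Ioo (a0 - ε1) (a0 + ε1)) ∪
        (D a b m ∩ Ioo (b0 - ε2) (b0 + ε2)) := by
      rintro x ⟨hx, hx' | hx'⟩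
      · exact Or.inl ⟨hx, by have := hx'.1; linarith, by have := hx'.2; linarith⟩
      · exact Or.inr ⟨hx, by have := hx'.1; linarith, by have := hx'.2; linarith⟩
    calc _ ≤ _ := ncard_le_ncard hsub ((hDab.subset inter_subset_left).union
          (hDab.subset inter_subset_left))
      _ ≤ _ := ncard_union_le _ _
      _ ≤ _ := by unfold mult; omega
  have haV : a ∈ V := Or.inl (by rw [abs_lt] at ha; constructor <;> linarith)
  have hbV : b ∈ V := Or.inr (by rw [abs_lt] at hb; constructor <;> linarith)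
  have ha0V : a0 ∈ V := Or.inl ⟨by linarith, by linarith⟩
  have hb0V : b0 ∈ V := Or.inr ⟨by linarith, by linarith⟩
  have key := union_bound hc (U := D a b m) (n := m) (Finset.range m ×ˢ hVf.toFinset) m (by
      intro p hp
      rw [Finset.mem_product, Finset.mem_range] at hp
      exact hp.1.le) (by
      rintro x ⟨j, hj, hx⟩
      -- the first visit to `V`
      have hagree : ∀ i : ℕ, (∀ k < i, (f a b)^[k] x ∉ V) → (f a b)^[i] x = (f a0 b0)^[i] x := by
        intro i
        induction i with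
        | zero => intro _; rfl
        | succ i ih =>
          intro hi
          rw [Function.iterate_succ_apply', Function.iterate_succ_apply',
            ← ih (fun k hk => hi k (by omega))]
          have := hi i (by omega)
          rw [hV, mem_union, not_or] at this
          exact f_eq_of_far ha hb this.1 this.2
      by_cases hex : ∃ i ≤ j, (f a b)^[i] x ∈ V
      · -- first visit
        obtain ⟨hi1, hi2⟩ := Nat.find_spec hex
        have hmin : ∀ k < Nat.find hex, (f a b)^[k] x ∉ V := by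
          intro k hk hkV
          exact Nat.find_min hex hk ⟨by omega, hkV⟩
        generalize Nat.find hex = i at hi1 hi2 hmin
        by_cases hxD : x ∈ D a0 b0 m
        · exact Or.inl hxD
        · right
          rw [mem_iUnion₂]
          refine ⟨(i, (f a b)^[i] x), ?_, fun hh => hxD (D_mono a0 b0 (by omega) hh),
            (hagree i hmin).symm⟩
          rw [Finset.mem_product, Finset.mem_range, Set.Finite.mem_toFinset]
          refine ⟨by omega, ⟨j - i, by omega, ?_⟩, hi2⟩
          rw [← Function.iterate_add_apply, show j - i + i = j by omega]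
          exact hx
      · push Not at hex
        left
        have hjV := hex j le_rfl
        have hx0 : (f a b)^[j] x = 0 := by
          rcases hx with h | h | h
          · exact absurd (by rw [h]; exact haV) hjV
          · exact h
          · exact absurd (by rw [h]; exact hbV) hjV
        refine ⟨j, hj, Or.inr (Or.inl ?_)⟩
        rw [← hagree j (fun k hk => hex k hk.le), hx0])
  have h3 : (Finset.range m ×ˢ hVf.toFinset).card ≤ m * mult m := by
    rw [Finset.card_product, Finset.card_range, ← ncard_eq_toFinset_card _ hVf]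
    exact Nat.mul_le_mul_left _ hVc
  have h4 := key.2
  have h5 : (Finset.range m ×ˢ hVf.toFinset).card * laps a0 b0 m ≤ m * mult m * laps a0 b0 m :=
    Nat.mul_le_mul_right _ h3
  unfold laps at *
  nlinarith

/-! ### The entropy function -/

open Classical in
/-- the topological entropy -/
noncomputable def ent (a b : ℝ) : ℝ := if h : InP a b then (exists_entropy h).choose else 0

lemma ent_spec {a b : ℝ} (h : InP a b) : IsEntropy a b (ent a b) := by
  unfold ent
  rw [dif_pos h]
  exact (exists_entropy h).choose_spec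

lemma ent_le {a b : ℝ} (h : InP a b) {m : ℕ} (hm : m ≠ 0) : ent a b ≤ Real.log (laps a b m) / m := by
  have hb : BddBelow (range fun n : ℕ => Real.log (laps a b n) / n) := by
    refine ⟨0, ?_⟩
    rintro _ ⟨n, rfl⟩
    exact div_nonneg (log_laps_nonneg a b n) (Nat.cast_nonneg n)
  have h1 := (subadd h).tendsto_lim hb
  rw [tendsto_nhds_unique (ent_spec h) h1]
  exact (subadd h).lim_le_div hb hm

lemma mult_le (m : ℕ) : ((1 + m * mult m : ℕ) : ℝ) ≤ (12 * (m + 1)) ^ 4 := by
  have h : 1 + m * mult m ≤ (12 * (m + 1)) ^ 4 := by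
    unfold mult
    have h1 : 1 + m * (2 * (2 * ((m + 1) * (m + 1) * (m * 3)) + 1)) ≤
        (m + 1) * (2 * (2 * ((m + 1) * (m + 1) * ((m + 1) * 3)) + (m + 1) ^ 3)) := by
      have h2 : 1 ≤ (m + 1) ^ 3 := Nat.one_le_pow _ _ (by omega)
      have h3 : 0 ≤ m := Nat.zero_le m
      nlinarith
    refine h1.trans ?_
    have h4 : (m + 1) * (2 * (2 * ((m + 1) * (m + 1) * ((m + 1) * 3)) + (m + 1) ^ 3)) =
        14 * (m + 1) ^ 4 := by ring
    rw [h4, mul_pow]
    exact Nat.mul_le_mul_right _ (by norm_num)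
  exact_mod_cast h

/-- **Upper semicontinuity.** -/
theorem usc (hc : InP a0 b0) {u : ℝ} (hu : ent a0 b0 < u) : ∃ ε : ℝ, 0 < ε ∧ ∀ a b : ℝ, InP a b →
    |a - a0| < ε → |b - b0| < ε → ent a b < u := by
  have h1 := (tendsto_log_lin 12 (by norm_num)).const_mul 4
  have h2 := h1.add (ent_spec hc)
  rw [mul_zero, zero_add] at h2
  obtain ⟨m, hm1, hm2⟩ := ((h2.eventually (Iio_mem_nhds hu)).and (eventually_gt_atTop 0)).exists
  obtain ⟨ε, hε, h⟩ := laps_compare hc m
  refine ⟨ε, hε, fun a b hab ha hb => ?_⟩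
  refine lt_of_le_of_lt (ent_le hab hm2.ne') (lt_of_le_of_lt ?_ hm1)
  have hm0 : (0 : ℝ) < m := by exact_mod_cast hm2
  have k1 : (laps a b m : ℝ) ≤ (12 * (m + 1)) ^ 4 * laps a0 b0 m := by
    have : (laps a b m : ℝ) ≤ ((1 + m * mult m : ℕ) : ℝ) * laps a0 b0 m := by
      exact_mod_cast h a b hab ha hb
    exact this.trans (mul_le_mul_of_nonneg_right (mult_le m) (Nat.cast_nonneg _))
  have p1 : (0 : ℝ) < laps a b m := by exact_mod_cast laps_pos a b m
  have p2 : (0 : ℝ) < laps a0 b0 m := by exact_mod_cast laps_pos a0 b0 m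
  have k2 := Real.log_le_log p1 k1
  rw [Real.log_mul (by positivity) p2.ne', Real.log_pow] at k2
  rw [← mul_div_assoc, ← add_div]
  apply div_le_div_of_nonneg_right _ hm0.le
  push_cast at k2
  linarith

end Pool.Agent.R294.CF
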