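import Pool.Agent.R660.CF.Upper
import Pool.Agent.R294.CFLsc

/-!
# The extreme values of the entropy
-/

set_option autoImplicit false

namespace Pool.Agent.R294.CF

open Filter Topology Set Pool.Agent.R660.CF

/-! ### The map `f_{-1,1}` -/

theorem InP_s : InP (-1) 1 := ⟨by norm_num, by norm_num, by norm_num, by norm_num⟩

/-- preimages of `0` in `(-1, 0)` -/
def Am (n : ℕ) : Set ℝ := {x | x ∈ Ioo (-1 : ℝ) 0 ∧ (f (-1) 1)^[n] x = 0}
/-- preimages of `0` in `(0, 1)` -/
def Ap (n : ℕ) : Set ℝ := {x | x ∈ Ioo (0 : ℝ) 1 ∧ (f (-1) 1)^[n] x = 0}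

theorem Am_finite (n : ℕ) : (Am n).Finite := by
  refine (D_finite InP_s (n + 1)).subset ?_
  rintro x ⟨-, hx⟩
  exact ⟨n, by omega, Or.inr (Or.inl hx)⟩

theorem Ap_finite (n : ℕ) : (Ap n).Finite := by
  refine (D_finite InP_s (n + 1)).subset ?_
  rintro x ⟨-, hx⟩
  exact ⟨n, by omega, Or.inr (Or.inl hx)⟩

theorem Am_map1 {n : ℕ} {x : ℝ} (hx : x ∈ Am (n + 1)) :
    x / (1 - x) ∈ Am (n + 2) ∧ -(1 / 2) < x / (1 - x) := by
  obtain ⟨⟨h1, h2⟩, h3⟩ := hx
  have h4 : 0 < 1 - x := by linarith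
  have h5 : x / (1 - x) < 0 := div_neg_of_neg_of_pos h2 h4
  have h6 : -(1 / 2) < x / (1 - x) := by rw [lt_div_iff₀ h4]; linarith
  refine ⟨⟨⟨by linarith, h5⟩, ?_⟩, h6⟩
  have e1 : f (-1) 1 (x / (1 - x)) = 1 - 1 / x := by
    rw [f_mid (by linarith) (by linarith)]
    have hx0 : x ≠ 0 := h2.ne
    field_simp
    ring
  have h7 : -1 / x > 0 := div_pos_of_neg_of_neg (by norm_num) h2
  have h7' : -1 / x = -(1 / x) := by ring
  have e2 : f (-1) 1 (1 - 1 / x) = f (-1) 1 x := by
    rw [f_ge InP_s (by linarith), f_mid (by linarith) (by linarith)]; ring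
  rw [Function.iterate_succ_apply, e1, Function.iterate_succ_apply, e2,
    ← Function.iterate_succ_apply]
  exact h3

theorem Am_map2 {n : ℕ} {y : ℝ} (hy : y ∈ Ap n) :
    -1 / (1 + y) ∈ Am (n + 2) ∧ -1 / (1 + y) < -(1 / 2) := by
  obtain ⟨⟨h1, h2⟩, h3⟩ := hy
  have h4 : 0 < 1 + y := by linarith
  have h5 : -1 / (1 + y) < -(1 / 2) := by rw [div_lt_iff₀ h4]; linarith
  have h6 : -1 < -1 / (1 + y) := by rw [lt_div_iff₀ h4]; linarith
  refine ⟨⟨⟨h6, by linarith⟩, ?_⟩, h5⟩
  have e1 : f (-1) 1 (-1 / (1 + y)) = 1 + y := by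
    rw [f_mid h6.le (by linarith)]
    field_simp
  rw [Function.iterate_succ_apply, e1, Function.iterate_succ_apply, f_ge InP_s (by linarith)]
  rw [show 1 + y - 1 = y by ring]
  exact h3

theorem Ap_map1 {n : ℕ} {x : ℝ} (hx : x ∈ Ap (n + 1)) :
    x / (1 + x) ∈ Ap (n + 2) ∧ x / (1 + x) < 1 / 2 := by
  obtain ⟨⟨h1, h2⟩, h3⟩ := hx
  have h4 : 0 < 1 + x := by linarith
  have h5 : 0 < x / (1 + x) := div_pos h1 h4
  have h6 : x / (1 + x) < 1 / 2 := by rw [div_lt_iff₀ h4]; linarith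
  refine ⟨⟨⟨h5, by linarith⟩, ?_⟩, h6⟩
  have e1 : f (-1) 1 (x / (1 + x)) = -1 - 1 / x := by
    rw [f_mid (by linarith) (by linarith)]
    have hx0 : x ≠ 0 := h1.ne'
    field_simp
    ring
  have h7 : 1 / x > 0 := div_pos (by norm_num) h1
  have e2 : f (-1) 1 (-1 - 1 / x) = f (-1) 1 x := by
    rw [f_lt (by linarith), f_mid (by linarith) (by linarith)]; ring
  rw [Function.iterate_succ_apply, e1, Function.iterate_succ_apply, e2,
    ← Function.iterate_succ_apply]
  exact h3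

theorem Ap_map2 {n : ℕ} {y : ℝ} (hy : y ∈ Am n) :
    1 / (1 - y) ∈ Ap (n + 2) ∧ 1 / 2 < 1 / (1 - y) := by
  obtain ⟨⟨h1, h2⟩, h3⟩ := hy
  have h4 : 0 < 1 - y := by linarith
  have h5 : 1 / 2 < 1 / (1 - y) := by rw [lt_div_iff₀ h4]; linarith
  have h6 : 1 / (1 - y) < 1 := by rw [div_lt_iff₀ h4]; linarith
  refine ⟨⟨⟨by linarith, h6⟩, ?_⟩, h5⟩
  have e1 : f (-1) 1 (1 / (1 - y)) = y - 1 := by
    rw [f_mid (by linarith) h6]
    field_simp
    ring
  rw [Function.iterate_succ_apply, e1, Function.iterate_succ_apply, f_lt (by linarith)]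
  rw [show y - 1 + 1 = y by ring]
  exact h3

theorem Am_step (n : ℕ) : (Am (n + 1)).ncard + (Ap n).ncard ≤ (Am (n + 2)).ncard := by
  have hi1 : InjOn (fun x : ℝ => x / (1 - x)) (Am (n + 1)) := by
    intro x hx y hy hxy
    have h1 : 1 - x ≠ 0 := by linarith [hx.1.2]
    have h2 : 1 - y ≠ 0 := by linarith [hy.1.2]
    simp only at hxy
    rw [div_eq_div_iff h1 h2] at hxy
    linarith
  have hi2 : InjOn (fun x : ℝ => -1 / (1 + x)) (Ap n) := by
    intro x hx y hy hxy
    have h1 : 1 + x ≠ 0 := by linarith [hx.1.1]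
    have h2 : 1 + y ≠ 0 := by linarith [hy.1.1]
    simp only at hxy
    rw [div_eq_div_iff h1 h2] at hxy
    linarith
  have hd : Disjoint ((fun x : ℝ => x / (1 - x)) '' Am (n + 1))
      ((fun x : ℝ => -1 / (1 + x)) '' Ap n) := by
    rw [Set.disjoint_left]
    rintro _ ⟨x, hx, rfl⟩ ⟨y, hy, hxy⟩
    have h1 := (Am_map1 hx).2
    have h2 := (Am_map2 hy).2
    simp only at hxy
    linarith
  have hsub : ((fun x : ℝ => x / (1 - x)) '' Am (n + 1)) ∪ ((fun x : ℝ => -1 / (1 + x)) '' Ap n) ⊆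
      Am (n + 2) := by
    rintro _ (⟨x, hx, rfl⟩ | ⟨x, hx, rfl⟩)
    · exact (Am_map1 hx).1
    · exact (Am_map2 hx).1
  rw [← hi1.ncard_image, ← hi2.ncard_image,
    ← ncard_union_eq hd ((Am_finite _).image _) ((Ap_finite _).image _)]
  exact ncard_le_ncard hsub (Am_finite _)

theorem Ap_step (n : ℕ) : (Ap (n + 1)).ncard + (Am n).ncard ≤ (Ap (n + 2)).ncard := by
  have hi1 : InjOn (fun x : ℝ => x / (1 + x)) (Ap (n + 1)) := by
    intro x hx y hy hxy
    have h1 : 1 + x ≠ 0 := by linarith [hx.1.1]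
    have h2 : 1 + y ≠ 0 := by linarith [hy.1.1]
    simp only at hxy
    rw [div_eq_div_iff h1 h2] at hxy
    linarith
  have hi2 : InjOn (fun x : ℝ => 1 / (1 - x)) (Am n) := by
    intro x hx y hy hxy
    have h1 : 1 - x ≠ 0 := by linarith [hx.1.2]
    have h2 : 1 - y ≠ 0 := by linarith [hy.1.2]
    simp only at hxy
    rw [div_eq_div_iff h1 h2] at hxy
    linarith
  have hd : Disjoint ((fun x : ℝ => x / (1 + x)) '' Ap (n + 1))
      ((fun x : ℝ => 1 / (1 - x)) '' Am n) := by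
    rw [Set.disjoint_left]
    rintro _ ⟨x, hx, rfl⟩ ⟨y, hy, hxy⟩
    have h1 := (Ap_map1 hx).2
    have h2 := (Ap_map2 hy).2
    simp only at hxy
    linarith
  have hsub : ((fun x : ℝ => x / (1 + x)) '' Ap (n + 1)) ∪ ((fun x : ℝ => 1 / (1 - x)) '' Am n) ⊆
      Ap (n + 2) := by
    rintro _ (⟨x, hx, rfl⟩ | ⟨x, hx, rfl⟩)
    · exact (Ap_map1 hx).1
    · exact (Ap_map2 hx).1
  rw [← hi1.ncard_image, ← hi2.ncard_image,
    ← ncard_union_eq hd ((Ap_finite _).image _) ((Am_finite _).image _)]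
  exact ncard_le_ncard hsub (Ap_finite _)

theorem half_mem_Am : (-(1 / 2) : ℝ) ∈ Am 3 := by
  refine ⟨⟨by norm_num, by norm_num⟩, ?_⟩
  have e1 : f (-1) 1 (-(1 / 2)) = 2 := by
    rw [f_mid (by norm_num) (by norm_num)]; norm_num
  rw [Function.iterate_succ_apply, e1, Function.iterate_succ_apply, f_ge InP_s (by norm_num),
    Function.iterate_succ_apply, f_ge InP_s (by norm_num)]
  norm_num

theorem half_mem_Ap : (1 / 2 : ℝ) ∈ Ap 4 := by
  refine ⟨⟨by norm_num, by norm_num⟩, ?_⟩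
  have e1 : f (-1) 1 (1 / 2) = -2 := by
    rw [f_mid (by norm_num) (by norm_num)]; norm_num
  have e2 : f (-1) 1 (-2) = -1 := by
    rw [f_lt (by norm_num)]; norm_num
  have e3 : f (-1) 1 (-1) = 1 := by
    rw [f_mid (by norm_num) (by norm_num)]; norm_num
  have e4 : f (-1) 1 1 = 0 := by
    rw [f_ge InP_s (by norm_num)]; norm_num
  rw [Function.iterate_succ_apply, e1, Function.iterate_succ_apply, e2,
    Function.iterate_succ_apply, e3, Function.iterate_succ_apply, e4]
  rfl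

theorem AmAp_growth (n : ℕ) :
    (Real.goldenRatio ^ n ≤ Real.goldenRatio * (Am (n + 4)).ncard ∧
      Real.goldenRatio ^ n ≤ Real.goldenRatio * (Ap (n + 4)).ncard) ∧
    (Real.goldenRatio ^ (n + 1) ≤ Real.goldenRatio * (Am (n + 5)).ncard ∧
      Real.goldenRatio ^ (n + 1) ≤ Real.goldenRatio * (Ap (n + 5)).ncard) := by
  have hφ := Real.one_lt_goldenRatio
  induction n with
  | zero =>
    have h3 : 1 ≤ (Am 3).ncard := by
      rw [Nat.one_le_iff_ne_zero, Ne, ncard_eq_zero (Am_finite 3)]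
      exact nonempty_iff_ne_empty.1 ⟨_, half_mem_Am⟩
    have h4 : 1 ≤ (Ap 4).ncard := by
      rw [Nat.one_le_iff_ne_zero, Ne, ncard_eq_zero (Ap_finite 4)]
      exact nonempty_iff_ne_empty.1 ⟨_, half_mem_Ap⟩
    have h5 : 1 ≤ (Am 4).ncard := h3.trans (by have := Am_step 2; norm_num at this; omega)
    have h6 : 1 ≤ (Am 5).ncard := h5.trans (by have := Am_step 3; norm_num at this; omega)
    have h7 : 1 ≤ (Ap 5).ncard := h4.trans (by have := Ap_step 3; norm_num at this; omega)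
    have h4' : (1 : ℝ) ≤ (Ap 4).ncard := by exact_mod_cast h4
    have h5' : (1 : ℝ) ≤ (Am 4).ncard := by exact_mod_cast h5
    have h6' : (1 : ℝ) ≤ (Am 5).ncard := by exact_mod_cast h6
    have h7' : (1 : ℝ) ≤ (Ap 5).ncard := by exact_mod_cast h7
    simp only [zero_add, pow_zero, pow_one]
    refine ⟨⟨?_, ?_⟩, ?_, ?_⟩ <;> nlinarith
  | succ n ih =>
    obtain ⟨⟨i1, i2⟩, i3, i4⟩ := ih
    refine ⟨⟨i3, i4⟩, ?_, ?_⟩
    · have h1 : ((Am (n + 5)).ncard : ℝ) + (Ap (n + 4)).ncard ≤ (Am (n + 6)).ncard := by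
        exact_mod_cast Am_step (n + 4)
      have h2 : Real.goldenRatio ^ (n + 1 + 1) = Real.goldenRatio ^ (n + 1) + Real.goldenRatio ^ n := by
        have := Real.goldenRatio_sq
        calc Real.goldenRatio ^ (n + 1 + 1) = Real.goldenRatio ^ n * Real.goldenRatio ^ 2 := by ring
          _ = Real.goldenRatio ^ n * (Real.goldenRatio + 1) := by rw [this]
          _ = _ := by ring
      rw [h2, show n + 1 + 5 = n + 6 by ring]
      nlinarith
    · have h1 : ((Ap (n + 5)).ncard : ℝ) + (Am (n + 4)).ncard ≤ (Ap (n + 6)).ncard := by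
        exact_mod_cast Ap_step (n + 4)
      have h2 : Real.goldenRatio ^ (n + 1 + 1) = Real.goldenRatio ^ (n + 1) + Real.goldenRatio ^ n := by
        have := Real.goldenRatio_sq
        calc Real.goldenRatio ^ (n + 1 + 1) = Real.goldenRatio ^ n * Real.goldenRatio ^ 2 := by ring
          _ = Real.goldenRatio ^ n * (Real.goldenRatio + 1) := by rw [this]
          _ = _ := by ring
      rw [h2, show n + 1 + 5 = n + 6 by ring]
      nlinarith

theorem ent_s : ent (-1) 1 = Real.log Real.goldenRatio := by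
  have hφ := Real.one_lt_goldenRatio
  apply le_antisymm (entropy_le InP_s (ent_spec InP_s))
  refine compare (a := -1) (b := 1) (C := Real.goldenRatio) (by positivity) 5
    (u := fun n => Real.goldenRatio ^ n) (fun n => by positivity) ?_ ?_ (ent_spec InP_s)
  · intro n
    have h1 := (AmAp_growth n).1.1
    have h2 : (Am (n + 4)).ncard ≤ laps (-1) 1 (n + 5) := by
      unfold laps
      refine (ncard_le_ncard ?_ (D_finite InP_s (n + 5))).trans (Nat.le_succ _)
      rintro x ⟨-, hx⟩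
      exact ⟨n + 4, by omega, Or.inr (Or.inl hx)⟩
    have h2' : ((Am (n + 4)).ncard : ℝ) ≤ laps (-1) 1 (n + 5) := by exact_mod_cast h2
    have hl : (0 : ℝ) ≤ laps (-1) 1 (n + 5) := Nat.cast_nonneg _
    have hn : (0 : ℝ) ≤ n := Nat.cast_nonneg _
    calc Real.goldenRatio ^ n ≤ Real.goldenRatio * (Am (n + 4)).ncard := h1
      _ ≤ Real.goldenRatio * laps (-1) 1 (n + 5) := by gcongr
      _ ≤ Real.goldenRatio * (n + 1) * laps (-1) 1 (n + 5) := by
        apply mul_le_mul_of_nonneg_right _ hl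
        nlinarith
  · simp only [Real.log_pow]
    refine tendsto_const_nhds.congr' ?_
    filter_upwards [eventually_gt_atTop 0] with n hn
    have : (n : ℝ) ≠ 0 := by exact_mod_cast hn.ne'
    field_simp

/-! ### The map `f_{-1,0}` -/

lemma sub_iter (k : ℕ) : ∀ y : ℝ, (k : ℝ) ≤ y + 1 → (f (-1) 0)^[k] y = y - k := by
  induction k with
  | zero => intro y _; simp
  | succ k ih =>
    intro y hy
    push_cast at hy
    have hk : (0 : ℝ) ≤ k := Nat.cast_nonneg k
    rw [Function.iterate_succ_apply, g_ge (by linarith), ih (y - 1) (by linarith)]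
    push_cast; ring

lemma add_iter (k : ℕ) : ∀ y : ℝ, y + k < 0 → (f (-1) 0)^[k] y = y + k := by
  induction k with
  | zero => intro y _; simp
  | succ k ih =>
    intro y hy
    push_cast at hy
    have hk : (0 : ℝ) ≤ k := Nat.cast_nonneg k
    rw [Function.iterate_succ_apply, f_lt (by linarith), ih (y + 1) (by linarith)]
    push_cast; ring

/-- solutions in `[-1, 0)` -/
def SI (n : ℕ) (e : ℝ) : Set ℝ := Sol (-1) 0 n e ∩ Ico (-1 : ℝ) 0

lemma SI_finite (n : ℕ) (e : ℝ) : (SI n e).Finite :=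
  (Sol_finite InP_g n e).subset inter_subset_left

lemma Sol_shift {n j k : ℕ} (h : j + k = n) {e x : ℝ} (hx : x ∈ Sol (-1) 0 n e) :
    (f (-1) 0)^[k] x ∈ Sol (-1) 0 j e := by
  subst h
  obtain ⟨h1, h2⟩ := hx
  rw [add_comm j k, D_add, not_or] at h1
  exact ⟨h1.2, by rw [← Function.iterate_add_apply]; exact h2⟩

lemma SI_cover (n : ℕ) (hn : 1 ≤ n) (e : ℝ) : SI n e ⊆ {-1 / (e + n - 1)} ∪
    ⋃ j ∈ Finset.range (n - 2), (fun y : ℝ => -1 / (y + (n - 1 - j))) '' SI j e := by
  rintro x ⟨hx, hx1, hx0⟩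
  have hinv : 1 ≤ -1 / x := by rw [le_div_iff_of_neg hx0]; linarith
  have hfx : f (-1) 0 x = -1 / x := g_mid hx1 hx0
  have hxx : -1 / (-1 / x) = x := by
    have := hx0.ne
    field_simp
  set k := ⌊-1 / x⌋₊ with hk
  have hk1 : (k : ℝ) ≤ -1 / x := Nat.floor_le (by linarith)
  have hk2 : -1 / x < k + 1 := Nat.lt_floor_add_one _
  have hk3 : 1 ≤ k := by rw [hk, Nat.one_le_floor_iff]; exact hinv
  rcases lt_or_ge n (k + 2) with h | h
  · -- no return
    left
    have h1 : (f (-1) 0)^[n - 1] (-1 / x) = -1 / x - ((n - 1 : ℕ) : ℝ) := by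
      apply sub_iter
      have : ((n - 1 : ℕ) : ℝ) ≤ k := by exact_mod_cast (by omega : n - 1 ≤ k)
      linarith
    have h2 := hx.2
    rw [show n = (n - 1) + 1 by omega, Function.iterate_succ_apply, hfx, h1] at h2
    rw [Nat.cast_sub hn] at h2
    push_cast at h2
    rw [mem_singleton_iff]
    have : e + n - 1 = -1 / x := by linarith
    rw [this, hxx]
  · right
    rw [mem_iUnion₂]
    refine ⟨n - (k + 2), ?_, (f (-1) 0)^[k + 2] x, ⟨Sol_shift (by omega) hx, ?_⟩, ?_⟩
    · rw [Finset.mem_range]; omega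
    · rw [show k + 2 = (k + 1) + 1 by ring, Function.iterate_succ_apply, hfx,
        sub_iter (k + 1) _ (by push_cast; linarith)]
      push_cast
      constructor <;> linarith
    · simp only
      rw [show k + 2 = (k + 1) + 1 by ring, Function.iterate_succ_apply, hfx,
        sub_iter (k + 1) _ (by push_cast; linarith)]
      rw [Nat.cast_sub (by omega)]
      push_cast
      rw [show -1 / x - (k + 1) + (n - 1 - (n - (k + 1 + 1))) = -1 / x by ring, hxx]

lemma kappa_sum {κ : ℝ} (hκ : κ ^ 3 = κ ^ 2 + 1) (m : ℕ) :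
    ∑ j ∈ Finset.range m, κ ^ j = κ ^ (m + 2) - κ ^ 2 := by
  induction m with
  | zero => simp
  | succ m ih =>
    rw [Finset.sum_range_succ, ih]
    have : κ ^ (m + 1 + 2) = κ ^ m * κ ^ 3 := by ring
    rw [this, hκ]
    ring

lemma SI_bound {κ : ℝ} (hκ : κ ^ 3 = κ ^ 2 + 1) (hκ1 : 1 ≤ κ) (e : ℝ) (n : ℕ) :
    ((SI n e).ncard : ℝ) ≤ κ ^ n := by
  classical
  induction n using Nat.strong_induction_on with
  | _ n ih =>
  rcases Nat.eq_zero_or_pos n with h0 | h0
  · subst h0
    rw [pow_zero]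
    have : (SI 0 e).ncard ≤ 1 := by
      rw [ncard_le_one (SI_finite 0 e)]
      rintro x ⟨⟨-, hx⟩, -⟩ y ⟨⟨-, hy⟩, -⟩
      simp only [Function.iterate_zero, id] at hx hy
      rw [hx, hy]
    exact_mod_cast this
  · have hcov := SI_cover n h0 e
    have hfin : ∀ j : ℕ, ((fun y : ℝ => -1 / (y + (n - 1 - j))) '' SI j e).Finite :=
      fun j => (SI_finite j e).image _
    have hle : (SI n e).ncard ≤ 1 + ∑ j ∈ Finset.range (n - 2), (SI j e).ncard := by
      have e1 : (⋃ j ∈ Finset.range (n - 2), (fun y : ℝ => -1 / (y + (n - 1 - j))) '' SI j e) =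
          (((Finset.range (n - 2)).biUnion fun j => (hfin j).toFinset : Finset ℝ) : Set ℝ) := by
        ext x
        simp only [Finset.coe_biUnion, mem_iUnion, Set.Finite.coe_toFinset, Finset.mem_coe]
      rw [e1] at hcov
      refine (ncard_le_ncard hcov ((finite_singleton _).union (Finset.finite_toSet _))).trans ?_
      refine (ncard_union_le _ _).trans ?_
      rw [ncard_singleton, ncard_coe_finset]
      apply Nat.add_le_add_left
      refine Finset.card_biUnion_le.trans (Finset.sum_le_sum fun j _ => ?_)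
      rw [← ncard_eq_toFinset_card _ (hfin j)]
      exact ncard_image_le (SI_finite j e)
    have hle' : ((SI n e).ncard : ℝ) ≤ 1 + ∑ j ∈ Finset.range (n - 2), ((SI j e).ncard : ℝ) := by
      exact_mod_cast hle
    have hs : ∑ j ∈ Finset.range (n - 2), ((SI j e).ncard : ℝ) ≤
        ∑ j ∈ Finset.range (n - 2), κ ^ j := by
      refine Finset.sum_le_sum fun j hj => ih j ?_
      rw [Finset.mem_range] at hj; omega
    rw [kappa_sum hκ] at hs
    have hsq : 1 ≤ κ ^ 2 := one_le_pow₀ hκ1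
    rcases Nat.lt_or_ge n 2 with h | h
    · have h1 : n = 1 := by omega
      subst h1
      simp only [Nat.reduceSub, Finset.range_zero, Finset.sum_empty, add_zero] at hle'
      linarith [pow_one κ]
    · rw [show n - 2 + 2 = n by omega] at hs
      linarith

lemma Sol_cover (n : ℕ) (e : ℝ) : Sol (-1) 0 n e ⊆ ({e + n, e - n} : Set ℝ) ∪ SI n e ∪
    ⋃ j ∈ Finset.range n, ((fun y : ℝ => y + (n - j)) '' SI j e ∪
      (fun y : ℝ => y - (n - j)) '' SI j e) := by
  intro x hx
  rcases lt_or_ge x (-1) with h1 | h1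
  · -- `x < -1`
    obtain ⟨k, hk1, hk2⟩ : ∃ k : ℕ, -1 ≤ x + k ∧ x + k < 0 := by
      refine ⟨⌈-x⌉₊ - 1, ?_, ?_⟩
      · have h2 := Nat.le_ceil (-x)
        have h3 : 1 ≤ ⌈-x⌉₊ := Nat.one_le_iff_ne_zero.2 (by
          rw [Ne, Nat.ceil_eq_zero]; linarith)
        rw [Nat.cast_sub h3]; push_cast; linarith
      · have h2 := Nat.ceil_lt_add_one (by linarith : 0 ≤ -x)
        have h3 : 1 ≤ ⌈-x⌉₊ := Nat.one_le_iff_ne_zero.2 (by
          rw [Ne, Nat.ceil_eq_zero]; linarith)
        rw [Nat.cast_sub h3]; push_cast; linarith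
    have hk0 : 1 ≤ k := by
      by_contra hcon
      have : k = 0 := by omega
      subst this
      simp at hk1
      linarith
    rcases lt_or_ge n k with h | h
    · left; left; right
      have hnk : (n : ℝ) ≤ k := by exact_mod_cast h.le
      have h2 := hx.2
      rw [add_iter n x (by linarith)] at h2
      rw [mem_singleton_iff]; linarith
    · right
      rw [mem_iUnion₂]
      refine ⟨n - k, ?_, Or.inr ⟨(f (-1) 0)^[k] x, ⟨Sol_shift (by omega) hx, ?_⟩, ?_⟩⟩
      · rw [Finset.mem_range]; omega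
      · rw [add_iter k x hk2]; exact ⟨hk1, hk2⟩
      · simp only
        rw [add_iter k x hk2, Nat.cast_sub h]; ring
  · rcases lt_or_ge x 0 with h2 | h2
    · left; right
      exact ⟨hx, h1, h2⟩
    · set k := ⌊x⌋₊ with hk
      have hk1 : (k : ℝ) ≤ x := Nat.floor_le h2
      have hk2 : x < k + 1 := Nat.lt_floor_add_one _
      rcases lt_or_ge n (k + 1) with h | h
      · left; left; left
        have hnk : (n : ℝ) ≤ k := by exact_mod_cast (by omega : n ≤ k)
        have h3 := hx.2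
        rw [sub_iter n x (by linarith)] at h3
        linarith
      · right
        rw [mem_iUnion₂]
        refine ⟨n - (k + 1), ?_, Or.inl ⟨(f (-1) 0)^[k + 1] x, ⟨Sol_shift (by omega) hx, ?_⟩, ?_⟩⟩
        · rw [Finset.mem_range]; omega
        · rw [sub_iter (k + 1) x (by push_cast; linarith)]
          push_cast
          constructor <;> linarith
        · simp only
          rw [sub_iter (k + 1) x (by push_cast; linarith), Nat.cast_sub h]
          push_cast; ring

lemma Sol_bound {κ : ℝ} (hκ : κ ^ 3 = κ ^ 2 + 1) (hκ1 : 1 ≤ κ) (e : ℝ) (n : ℕ) :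
    ((Sol (-1) 0 n e).ncard : ℝ) ≤ (2 * n + 3) * κ ^ n := by
  classical
  have hcov := Sol_cover n e
  have hfin : ∀ j : ℕ, ((fun y : ℝ => y + (n - j)) '' SI j e ∪
      (fun y : ℝ => y - (n - j)) '' SI j e).Finite :=
    fun j => ((SI_finite j e).image _).union ((SI_finite j e).image _)
  have e1 : (⋃ j ∈ Finset.range n, ((fun y : ℝ => y + (n - j)) '' SI j e ∪
      (fun y : ℝ => y - (n - j)) '' SI j e)) =
      (((Finset.range n).biUnion fun j => (hfin j).toFinset : Finset ℝ) : Set ℝ) := by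
    ext x
    simp only [Finset.coe_biUnion, mem_iUnion, Set.Finite.coe_toFinset, Finset.mem_coe]
  rw [e1] at hcov
  have hle : (Sol (-1) 0 n e).ncard ≤ 2 + (SI n e).ncard +
      ∑ j ∈ Finset.range n, ((SI j e).ncard + (SI j e).ncard) := by
    refine (ncard_le_ncard hcov ((((finite_singleton _).insert _).union (SI_finite n e)).union
      (Finset.finite_toSet _))).trans ?_
    refine (ncard_union_le _ _).trans ?_
    apply Nat.add_le_add
    · refine (ncard_union_le _ _).trans ?_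
      apply Nat.add_le_add_right
      exact (ncard_insert_le _ _).trans (by rw [ncard_singleton])
    · rw [ncard_coe_finset]
      refine Finset.card_biUnion_le.trans (Finset.sum_le_sum fun j _ => ?_)
      rw [← ncard_eq_toFinset_card _ (hfin j)]
      refine (ncard_union_le _ _).trans ?_
      exact Nat.add_le_add (ncard_image_le (SI_finite j e)) (ncard_image_le (SI_finite j e))
  have hle' : ((Sol (-1) 0 n e).ncard : ℝ) ≤ 2 + (SI n e).ncard +
      ∑ j ∈ Finset.range n, (((SI j e).ncard : ℝ) + (SI j e).ncard) := by exact_mod_cast hle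
  have hs : ∑ j ∈ Finset.range n, (((SI j e).ncard : ℝ) + (SI j e).ncard) ≤ 2 * n * κ ^ n := by
    calc _ ≤ ∑ j ∈ Finset.range n, 2 * κ ^ n := by
          refine Finset.sum_le_sum fun j hj => ?_
          rw [Finset.mem_range] at hj
          have h1 := SI_bound hκ hκ1 e j
          have h2 : κ ^ j ≤ κ ^ n := pow_le_pow_right₀ hκ1 hj.le
          linarith
      _ = _ := by rw [Finset.sum_const, Finset.card_range, nsmul_eq_mul]; ring
  have h1 := SI_bound hκ hκ1 e n
  have h2 : 1 ≤ κ ^ n := one_le_pow₀ hκ1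
  nlinarith

lemma laps_bound {κ : ℝ} (hκ : κ ^ 3 = κ ^ 2 + 1) (hκ1 : 1 ≤ κ) (n : ℕ) :
    (laps (-1) 0 n : ℝ) ≤ (3 * (n + 1)) ^ 2 * κ ^ n := by
  classical
  have hcov : D (-1) 0 n ⊆ (((Finset.range n).biUnion fun j =>
      (Sol_finite InP_g j (-1)).toFinset ∪ (Sol_finite InP_g j 0).toFinset : Finset ℝ) :
        Set ℝ) := by
    intro x hx
    have hex : ∃ j, j < n ∧ ((f (-1) 0)^[j] x = -1 ∨ (f (-1) 0)^[j] x = 0) := by
      obtain ⟨j, hj, h⟩ := hx
      refine ⟨j, hj, ?_⟩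
      rcases h with h | h | h
      · exact Or.inl h
      · exact Or.inr h
      · exact Or.inr h
    obtain ⟨h1, h2⟩ := Nat.find_spec hex
    have hmin := fun m (hm : m < Nat.find hex) => Nat.find_min hex hm
    have hD : x ∉ D (-1) 0 (Nat.find hex) := by
      rintro ⟨i, hi, h⟩
      apply hmin i hi
      refine ⟨by omega, ?_⟩
      rcases h with h | h | h
      · exact Or.inl h
      · exact Or.inr h
      · exact Or.inr h
    simp only [Finset.coe_biUnion, mem_iUnion, Finset.coe_union, Set.Finite.coe_toFinset,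
      Finset.mem_coe, Finset.mem_range]
    refine ⟨Nat.find hex, h1, ?_⟩
    rcases h2 with h2 | h2
    · exact Or.inl ⟨hD, h2⟩
    · exact Or.inr ⟨hD, h2⟩
  have h1 := ncard_le_ncard hcov (Finset.finite_toSet _)
  rw [ncard_coe_finset] at h1
  have h2 : ((D (-1) 0 n).ncard : ℝ) ≤ ∑ j ∈ Finset.range n,
      (((Sol (-1) 0 j (-1)).ncard : ℝ) + (Sol (-1) 0 j 0).ncard) := by
    have h3 : (D (-1) 0 n).ncard ≤ ∑ j ∈ Finset.range n,
      ((Sol (-1) 0 j (-1)).ncard + (Sol (-1) 0 j 0).ncard) := by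
      refine h1.trans (Finset.card_biUnion_le.trans (Finset.sum_le_sum fun j _ => ?_))
      refine (Finset.card_union_le _ _).trans ?_
      rw [← ncard_eq_toFinset_card _ (Sol_finite InP_g j (-1)),
        ← ncard_eq_toFinset_card _ (Sol_finite InP_g j 0)]
    exact_mod_cast h3
  have hn : (0 : ℝ) ≤ n := Nat.cast_nonneg n
  have hk : 1 ≤ κ ^ n := one_le_pow₀ hκ1
  have h4 : ∑ j ∈ Finset.range n, (((Sol (-1) 0 j (-1)).ncard : ℝ) + (Sol (-1) 0 j 0).ncard) ≤
      n * (2 * ((2 * n + 3) * κ ^ n)) := by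
    calc _ ≤ ∑ j ∈ Finset.range n, 2 * ((2 * n + 3) * κ ^ n) := by
          refine Finset.sum_le_sum fun j hj => ?_
          rw [Finset.mem_range] at hj
          have h5 := Sol_bound hκ hκ1 (-1) j
          have h6 := Sol_bound hκ hκ1 0 j
          have h7 : κ ^ j ≤ κ ^ n := pow_le_pow_right₀ hκ1 hj.le
          have h8 : (j : ℝ) ≤ n := by exact_mod_cast hj.le
          have h9 : (2 * (j : ℝ) + 3) * κ ^ j ≤ (2 * n + 3) * κ ^ n :=
            mul_le_mul (by linarith) h7 (by positivity) (by positivity)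
          linarith
      _ = _ := by rw [Finset.sum_const, Finset.card_range, nsmul_eq_mul]
  unfold laps
  push_cast
  have h10 : (1 : ℝ) + n * (2 * (2 * n + 3)) ≤ (3 * (n + 1)) ^ 2 := by nlinarith
  calc ((D (-1) 0 n).ncard : ℝ) + 1 ≤ n * (2 * ((2 * n + 3) * κ ^ n)) + κ ^ n := by linarith
    _ = (1 + n * (2 * (2 * n + 3))) * κ ^ n := by ring
    _ ≤ _ := mul_le_mul_of_nonneg_right h10 (by positivity)

theorem ent_g {κ : ℝ} (hκ : κ ^ 3 = κ ^ 2 + 1) (hκ1 : 1 ≤ κ) : ent (-1) 0 = Real.log κ := by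
  apply le_antisymm _ (entropy_ge InP_g hκ hκ1 (ent_spec InP_g))
  have hκ0 : 0 < κ := by linarith
  have t := ((tendsto_log_lin 3 (by norm_num)).const_mul 2).add_const (Real.log κ)
  rw [mul_zero, zero_add] at t
  refine le_of_tendsto_of_tendsto (ent_spec InP_g) t ?_
  filter_upwards [eventually_gt_atTop 0] with n hn
  have hn0 : (0 : ℝ) < n := by exact_mod_cast hn
  have p1 : (0 : ℝ) < laps (-1) 0 n := by exact_mod_cast laps_pos (-1) 0 n
  have h1 := Real.log_le_log p1 (laps_bound hκ hκ1 n)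
  rw [Real.log_mul (by positivity) (by positivity), Real.log_pow, Real.log_pow] at h1
  push_cast at h1
  rw [← mul_div_assoc, div_add' _ _ _ hn0.ne']
  apply div_le_div_of_nonneg_right _ hn0.le
  linarith

end Pool.Agent.R294.CF
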