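import Mathlib

namespace Pool.Agent.R294.COC

/-- slope data -/
structure SD (N u v w : ℝ) (f f' c r e l1 l2 l3 : ℝ) : Prop where
  h1 : |f - c| ≤ r
  h2 : |f' - c| ≤ r
  h3 : |f - f' - (l1 * u + l2 * v + l3 * w)| ≤ e * N

theorem SD.mul {N u v w : ℝ} (hN : 0 ≤ N) (hu : |u| ≤ N) (hv : |v| ≤ N) (hw : |w| ≤ N)
    {f f' cf rf ef lf1 lf2 lf3 g g' cg rg eg lg1 lg2 lg3 : ℝ}
    (hf : SD N u v w f f' cf rf ef lf1 lf2 lf3) (hg : SD N u v w g g' cg rg eg lg1 lg2 lg3)
    (C R E L1 L2 L3 : ℝ)
    (H1 : |cf * cg - C| + (|cf| * rg + |cg| * rf + rf * rg) ≤ R)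
    (H2 : |cf| * eg + |cg| * ef + rf * (|lg1| + |lg2| + |lg3| + eg)
      + rg * (|lf1| + |lf2| + |lf3| + ef) + |cf * lg1 + cg * lf1 - L1| + |cf * lg2 + cg * lf2 - L2|
      + |cf * lg3 + cg * lf3 - L3| ≤ E) :
    SD N u v w (f * g) (f' * g') C R E L1 L2 L3 := by
  have rf0 : 0 ≤ rf := le_trans (abs_nonneg _) hf.h1
  have rg0 : 0 ≤ rg := le_trans (abs_nonneg _) hg.h1
  have lin : ∀ l1 l2 l3 : ℝ, |l1 * u + l2 * v + l3 * w| ≤ (|l1| + |l2| + |l3|) * N := by
    intro l1 l2 l3
    have a1 : |l1 * u| ≤ |l1| * N := by rw [abs_mul]; exact mul_le_mul_of_nonneg_left hu (abs_nonneg _)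
    have a2 : |l2 * v| ≤ |l2| * N := by rw [abs_mul]; exact mul_le_mul_of_nonneg_left hv (abs_nonneg _)
    have a3 : |l3 * w| ≤ |l3| * N := by rw [abs_mul]; exact mul_le_mul_of_nonneg_left hw (abs_nonneg _)
    have b1 := abs_add_le (l1 * u + l2 * v) (l3 * w)
    have b2 := abs_add_le (l1 * u) (l2 * v)
    linarith
  have df : |f - f'| ≤ (|lf1| + |lf2| + |lf3| + ef) * N := by
    have := abs_add_le (f - f' - (lf1 * u + lf2 * v + lf3 * w)) (lf1 * u + lf2 * v + lf3 * w)
    rw [sub_add_cancel] at this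
    have := lin lf1 lf2 lf3
    have := hf.h3
    linarith
  have dg : |g - g'| ≤ (|lg1| + |lg2| + |lg3| + eg) * N := by
    have := abs_add_le (g - g' - (lg1 * u + lg2 * v + lg3 * w)) (lg1 * u + lg2 * v + lg3 * w)
    rw [sub_add_cancel] at this
    have := lin lg1 lg2 lg3
    have := hg.h3
    linarith
  have key : ∀ a b : ℝ, |a - cf| ≤ rf → |b - cg| ≤ rg → |a * b - C| ≤ R := by
    intro a b ha hb
    have e1 : a * b - C = (cf * cg - C) + cf * (b - cg) + cg * (a - cf) + (a - cf) * (b - cg) := by ring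
    have a1 : |cf * (b - cg)| ≤ |cf| * rg := by rw [abs_mul]; exact mul_le_mul_of_nonneg_left hb (abs_nonneg _)
    have a2 : |cg * (a - cf)| ≤ |cg| * rf := by rw [abs_mul]; exact mul_le_mul_of_nonneg_left ha (abs_nonneg _)
    have a3 : |(a - cf) * (b - cg)| ≤ rf * rg := by
      rw [abs_mul]; exact mul_le_mul ha hb (abs_nonneg _) rf0
    have b1 := abs_add_le ((cf * cg - C) + cf * (b - cg) + cg * (a - cf)) ((a - cf) * (b - cg))
    have b2 := abs_add_le ((cf * cg - C) + cf * (b - cg)) (cg * (a - cf))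
    have b3 := abs_add_le (cf * cg - C) (cf * (b - cg))
    rw [e1]
    linarith
  refine ⟨key _ _ hf.h1 hg.h1, key _ _ hf.h2 hg.h2, ?_⟩
  have e1 : f * g - f' * g' - (L1 * u + L2 * v + L3 * w)
      = cf * (g - g' - (lg1 * u + lg2 * v + lg3 * w)) + cg * (f - f' - (lf1 * u + lf2 * v + lf3 * w))
        + (f' - cf) * (g - g') + (g - cg) * (f - f')
        + ((cf * lg1 + cg * lf1 - L1) * u + (cf * lg2 + cg * lf2 - L2) * v
          + (cf * lg3 + cg * lf3 - L3) * w) := by ring
  have a1 : |cf * (g - g' - (lg1 * u + lg2 * v + lg3 * w))| ≤ |cf| * (eg * N) := by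
    rw [abs_mul]; exact mul_le_mul_of_nonneg_left hg.h3 (abs_nonneg _)
  have a2 : |cg * (f - f' - (lf1 * u + lf2 * v + lf3 * w))| ≤ |cg| * (ef * N) := by
    rw [abs_mul]; exact mul_le_mul_of_nonneg_left hf.h3 (abs_nonneg _)
  have a3 : |(f' - cf) * (g - g')| ≤ rf * ((|lg1| + |lg2| + |lg3| + eg) * N) := by
    rw [abs_mul]; exact mul_le_mul hf.h2 dg (abs_nonneg _) rf0
  have a4 : |(g - cg) * (f - f')| ≤ rg * ((|lf1| + |lf2| + |lf3| + ef) * N) := by
    rw [abs_mul]; exact mul_le_mul hg.h1 df (abs_nonneg _) rg0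
  have a5 := lin (cf * lg1 + cg * lf1 - L1) (cf * lg2 + cg * lf2 - L2) (cf * lg3 + cg * lf3 - L3)
  have H3 := mul_le_mul_of_nonneg_right H2 hN
  rw [e1]
  refine le_trans (abs_add_le _ _) ?_
  refine le_trans (add_le_add (le_trans (abs_add_le _ _) (add_le_add (le_trans (abs_add_le _ _)
    (add_le_add (le_trans (abs_add_le _ _) (add_le_add a1 a2)) a3)) a4)) a5) ?_
  nlinarith [H3]

theorem SD.sub {N u v w : ℝ}
    {f f' cf rf ef lf1 lf2 lf3 g g' cg rg eg lg1 lg2 lg3 : ℝ}
    (hf : SD N u v w f f' cf rf ef lf1 lf2 lf3) (hg : SD N u v w g g' cg rg eg lg1 lg2 lg3)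
    (C R E L1 L2 L3 : ℝ) (hC : cf - cg = C) (hR : rf + rg = R) (hE : ef + eg = E)
    (h1 : lf1 - lg1 = L1) (h2 : lf2 - lg2 = L2) (h3 : lf3 - lg3 = L3) :
    SD N u v w (f - g) (f' - g') C R E L1 L2 L3 := by
  subst hC hR hE h1 h2 h3
  refine ⟨?_, ?_, ?_⟩
  · have := abs_sub (f - cf) (g - cg)
    have e : f - g - (cf - cg) = (f - cf) - (g - cg) := by ring
    rw [e]; linarith [hf.h1, hg.h1]
  · have := abs_sub (f' - cf) (g' - cg)
    have e : f' - g' - (cf - cg) = (f' - cf) - (g' - cg) := by ring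
    rw [e]; linarith [hf.h2, hg.h2]
  · have := abs_sub (f - f' - (lf1 * u + lf2 * v + lf3 * w)) (g - g' - (lg1 * u + lg2 * v + lg3 * w))
    have e : f - g - (f' - g') - ((lf1 - lg1) * u + (lf2 - lg2) * v + (lf3 - lg3) * w)
      = (f - f' - (lf1 * u + lf2 * v + lf3 * w)) - (g - g' - (lg1 * u + lg2 * v + lg3 * w)) := by ring
    rw [e]; linarith [hf.h3, hg.h3]

theorem SD.add_const {N u v w : ℝ}
    {f f' cf rf ef lf1 lf2 lf3 : ℝ}
    (hf : SD N u v w f f' cf rf ef lf1 lf2 lf3) (k C : ℝ) (hC : cf + k = C) :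
    SD N u v w (f + k) (f' + k) C rf ef lf1 lf2 lf3 := by
  subst hC
  refine ⟨?_, ?_, ?_⟩
  · rw [show f + k - (cf + k) = f - cf by ring]; exact hf.h1
  · rw [show f' + k - (cf + k) = f' - cf by ring]; exact hf.h2
  · rw [show f + k - (f' + k) - (lf1 * u + lf2 * v + lf3 * w) = f - f' - (lf1 * u + lf2 * v + lf3 * w) by ring]; exact hf.h3

/-- the trace of `h h g h g` -/
def F1 (x y z : ℝ) : ℝ := z * (y * z - x) - y
/-- the trace of `g g g g h` -/
def F2 (x y z : ℝ) : ℝ := x * (x * x + -2) * z - (x * x + -1) * y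
/-- the trace of the product -/
def F3 (x y z : ℝ) : ℝ :=
  (y * y + -1) * ((x * x * (x * x + -3) + 1) * (z * z + -2) - x * (x * x + -2) * (y * z - x))
   - y * ((x * x * (x * x + -3) + 1) * (x * z - y) - x * (x * x + -2) * z)

theorem slope_all {N u v w : ℝ} (hN : 0 ≤ N) (hu : |u| ≤ N) (hv : |v| ≤ N) (hw : |w| ≤ N)
    {x x' y y' z z' : ℝ}
    (hx : SD N u v w x x' (23863/50000) (1/10000) 0 1 0 0)
    (hy : SD N u v w y y' (294963/1000000) (1/5000) 0 (-1) 1 0)
    (hz : SD N u v w z z' (309017/500000) (1/3750) 0 (-2) (-1/3) (1/3)) :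
    SD N u v w (F1 x y z) (F1 x' y' z') (-23863/50000) (4657/10000000) (22197/10000000) (17604/78125) (-1451197/2500000) (-2934/78125) ∧
    SD N u v w (F2 x y z) (F2 x' y' z') (-737407/2500000) (5461/10000000) (7819/5000000) (-439737/2500000) (10541599/10000000) (-281937/1000000) ∧
    SD N u v w (F3 x y z) (F3 x' y' z') (6180337/10000000) (473/400000) (2289/250000) (5121151/10000000) (-5376181/5000000) (-3150207/10000000) := by
  have x2 := SD.mul hN hu hv hw hx hx (2277771/10000000) (191/2000000) (1/5000) (23863/25000) 0 0 (by norm_num) (by norm_num)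
  have x2m2 := SD.add_const x2 (-2) (-17722229/10000000) (by norm_num)
  have S3 := SD.mul hN hu hv hw hx x2m2 (-8458111/10000000) (2229/10000000) (573/2000000) (-13166687/10000000) 0 0 (by norm_num) (by norm_num)
  have x2m3 := SD.add_const x2 (-3) (-27722229/10000000) (by norm_num)
  have S4a := SD.mul hN hu hv hw x2 x2m3 (-6314489/10000000) (1433/5000000) (489/625000) (-6071811/2500000) 0 0 (by norm_num) (by norm_num)
  have S4 := SD.add_const S4a (1) (3685511/10000000) (by norm_num)
  have y2 := SD.mul hN hu hv hw hy hy (54377/625000) (1181/10000000) (1/1250) (-294963/500000) (294963/500000) 0 (by norm_num) (by norm_num)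
  have z2 := SD.mul hN hu hv hw hz hz (190983/500000) (1649/5000000) (14223/10000000) (-309017/125000) (-4120227/10000000) (4120227/10000000) (by norm_num) (by norm_num)
  have yz := SD.mul hN hu hv hw hy hz (455743/2500000) (253/1250000) (10667/10000000) (-30199/25000) (519713/1000000) (98321/1000000) (by norm_num) (by norm_num)
  have xz := SD.mul hN hu hv hw hx hz (2949629/10000000) (473/2500000) (2667/5000000) (-168243/500000) (-1590867/10000000) (1590867/10000000) (by norm_num) (by norm_num)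
  have yzx := SD.sub yz hx (-737407/2500000) (189/625000) (10667/10000000) (-55199/25000) (519713/1000000) (98321/1000000) (by norm_num) (by norm_num) (by norm_num) (by norm_num) (by norm_num) (by norm_num)
  have A1 := SD.mul hN hu hv hw hz yzx (-182297/1000000) (2657/10000000) (22197/10000000) (-60521/78125) (1048803/2500000) (-2934/78125) (by norm_num) (by norm_num)
  have A2 := SD.mul hN hu hv hw S3 hz (-26137/50000) (1817/5000000) (2807/2500000) (4389381/5000000) (281937/1000000) (-281937/1000000) (by norm_num) (by norm_num)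
  have S2 := SD.add_const x2 (-1) (-7722229/10000000) (by norm_num)
  have A3 := SD.mul hN hu hv hw S2 hy (-569443/2500000) (1827/10000000) (441/1000000) (1053771/1000000) (-7722229/10000000) 0 (by norm_num) (by norm_num)
  have z2m2 := SD.add_const z2 (-2) (-809017/500000) (by norm_num)
  have A4 := SD.mul hN hu hv hw S4 z2m2 (-2981641/5000000) (2927/5000000) (17683/5000000) (15093251/5000000) (-759257/5000000) (759257/5000000) (by norm_num) (by norm_num)
  have A5 := SD.mul hN hu hv hw S3 yzx (623707/2500000) (201/625000) (20153/10000000) (11279427/5000000) (-439579/1000000) (-83161/1000000) (by norm_num) (by norm_num)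
  have xzy := SD.sub xz hy (-1/10000000) (973/2500000) (2667/5000000) (331757/500000) (-11590867/10000000) (1590867/10000000) (by norm_num) (by norm_num) (by norm_num) (by norm_num) (by norm_num) (by norm_num)
  have A6 := SD.mul hN hu hv hw S4 xzy 0 (359/2500000) (1069/625000) (2445391/10000000) (-4271827/10000000) (146579/2500000) (by norm_num) (by norm_num)
  have y2m1 := SD.add_const y2 (-1) (-570623/625000) (by norm_num)
  have A45 := SD.sub A4 A5 (-845811/1000000) (907/1000000) (55519/10000000) (59591/78125) (719319/2500000) (587531/2500000) (by norm_num) (by norm_num) (by norm_num) (by norm_num) (by norm_num) (by norm_num)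
  have A7 := SD.mul hN hu hv hw y2m1 A45 (7722227/10000000) (4641/5000000) (6969/1000000) (-1974359/10000000) (-7616603/10000000) (-268207/1250000) (by norm_num) (by norm_num)
  have A62 := SD.sub A6 A2 (26137/50000) (507/1000000) (7083/2500000) (-6333371/10000000) (-7091197/10000000) (1702843/5000000) (by norm_num) (by norm_num) (by norm_num) (by norm_num) (by norm_num) (by norm_num)
  have A8 := SD.mul hN hu hv hw hy A62 (154189/1000000) (2543/10000000) (2187/1000000) (-709551/1000000) (3135759/10000000) (1004551/10000000) (by norm_num) (by norm_num)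
  refine ⟨SD.sub A1 hy (-23863/50000) (4657/10000000) (22197/10000000) (17604/78125) (-1451197/2500000) (-2934/78125) (by norm_num) (by norm_num) (by norm_num) (by norm_num) (by norm_num) (by norm_num),
    SD.sub A2 A3 (-737407/2500000) (5461/10000000) (7819/5000000) (-439737/2500000) (10541599/10000000) (-281937/1000000) (by norm_num) (by norm_num) (by norm_num) (by norm_num) (by norm_num) (by norm_num),
    SD.sub A7 A8 (6180337/10000000) (473/400000) (2289/250000) (5121151/10000000) (-5376181/5000000) (-3150207/10000000) (by norm_num) (by norm_num) (by norm_num) (by norm_num) (by norm_num) (by norm_num)⟩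

/-- closeness of two triples at scale `N` -/
structure Cl (N x y z x' y' z' : ℝ) : Prop where
  u : |x - x'| ≤ N
  v : |(x - x') + (y - y')| ≤ N
  w : |7 * (x - x') + (y - y') + 3 * (z - z')| ≤ N

/-- the box -/
def Box (x y z : ℝ) : Prop := Cl (1/10000) x y z (23863/50000) (294963/1000000) (309017/500000)

theorem Cl.nonneg {N x y z x' y' z' : ℝ} (h : Cl N x y z x' y' z') : 0 ≤ N :=
  le_trans (abs_nonneg _) h.u

theorem Cl.dx {N x y z x' y' z' : ℝ} (h : Cl N x y z x' y' z') : |x - x'| ≤ N := h.u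

theorem Cl.dy {N x y z x' y' z' : ℝ} (h : Cl N x y z x' y' z') : |y - y'| ≤ 2 * N := by
  have h1 := abs_le.1 h.u; have h2 := abs_le.1 h.v
  rw [abs_le]; constructor <;> linarith

theorem Cl.dz {N x y z x' y' z' : ℝ} (h : Cl N x y z x' y' z') : |z - z'| ≤ 8/3 * N := by
  have h1 := abs_le.1 h.u; have h2 := abs_le.1 h.v; have h3 := abs_le.1 h.w
  rw [abs_le]; constructor <;> linarith

theorem Cl.trans {N M x y z x' y' z' x'' y'' z'' : ℝ} (h : Cl N x y z x' y' z')
    (h' : Cl M x' y' z' x'' y'' z'') : Cl (N + M) x y z x'' y'' z'' := by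
  have h1 := abs_le.1 h.u; have h2 := abs_le.1 h.v; have h3 := abs_le.1 h.w
  have k1 := abs_le.1 h'.u; have k2 := abs_le.1 h'.v; have k3 := abs_le.1 h'.w
  refine ⟨?_, ?_, ?_⟩ <;> rw [abs_le] <;> constructor <;> linarith

theorem Cl.symm {N x y z x' y' z' : ℝ} (h : Cl N x y z x' y' z') : Cl N x' y' z' x y z := by
  have h1 := abs_le.1 h.u; have h2 := abs_le.1 h.v; have h3 := abs_le.1 h.w
  refine ⟨?_, ?_, ?_⟩ <;> rw [abs_le] <;> constructor <;> linarith

theorem Cl.mono {N M x y z x' y' z' : ℝ} (h : Cl N x y z x' y' z') (hNM : N ≤ M) :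
    Cl M x y z x' y' z' :=
  ⟨h.u.trans hNM, h.v.trans hNM, h.w.trans hNM⟩

/-- the contraction -/
theorem contr {N x y z x' y' z' : ℝ} (h : Box x y z) (h' : Box x' y' z') (hc : Cl N x y z x' y' z') :
    Cl (9/10 * N) (-F1 x y z) (-F2 x y z) (F3 x y z) (-F1 x' y' z') (-F2 x' y' z') (F3 x' y' z') := by
  have hN := hc.nonneg
  have hx : SD N (x - x') ((x - x') + (y - y')) (7 * (x - x') + (y - y') + 3 * (z - z')) x x' (23863/50000) (1/10000) 0 1 0 0 := by
    refine ⟨le_trans h.dx (by norm_num), le_trans h'.dx (by norm_num), ?_⟩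
    ring_nf; norm_num
  have hy : SD N (x - x') ((x - x') + (y - y')) (7 * (x - x') + (y - y') + 3 * (z - z')) y y' (294963/1000000) (1/5000) 0 (-1) 1 0 := by
    refine ⟨le_trans h.dy (by norm_num), le_trans h'.dy (by norm_num), ?_⟩
    ring_nf; norm_num
  have hz : SD N (x - x') ((x - x') + (y - y')) (7 * (x - x') + (y - y') + 3 * (z - z')) z z' (309017/500000) (1/3750) 0 (-2) (-1/3) (1/3) := by
    refine ⟨le_trans h.dz (by norm_num), le_trans h'.dz (by norm_num), ?_⟩
    ring_nf; norm_num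
  obtain ⟨s1, s2, s3⟩ := slope_all hN hc.u hc.v hc.w hx hy hz
  have e1 := abs_le.1 s1.h3
  have e2 := abs_le.1 s2.h3
  have e3 := abs_le.1 s3.h3
  have hu := abs_le.1 hc.u
  have hv := abs_le.1 hc.v
  have hw := abs_le.1 hc.w
  generalize (x - x') + (y - y') = v at *
  generalize 7 * (x - x') + (y - y') + 3 * (z - z') = w at *
  generalize x - x' = u at *
  generalize F1 x y z = a at *
  generalize F1 x' y' z' = a' at *
  generalize F2 x y z = b at *
  generalize F2 x' y' z' = b' at *
  generalize F3 x y z = c at *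
  generalize F3 x' y' z' = c' at *
  refine ⟨?_, ?_, ?_⟩ <;> rw [abs_le] <;> constructor <;> linarith

/-- the box is mapped into itself -/
theorem box_map {x y z : ℝ} (h : Box x y z) : Box (-F1 x y z) (-F2 x y z) (F3 x y z) := by
  have h0 : Box (23863/50000) (294963/1000000) (309017/500000) := by
    refine ⟨?_, ?_, ?_⟩ <;> norm_num
  have h1 := contr h h0 h
  refine (h1.trans (M := 2/1000000) ?_).mono (by norm_num)
  refine ⟨?_, ?_, ?_⟩ <;> rw [abs_le] <;> constructor <;> norm_num [F1, F2, F3]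

end Pool.Agent.R294.COC
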