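import Mathlib
import Pool.Agent.R294.COC1

open Quaternion

namespace Pool.Agent.R294.COC

theorem normSq_one {q : ℍ[ℝ]} (h : ‖q‖ = 1) :
    q.re ^ 2 + q.imI ^ 2 + q.imJ ^ 2 + q.imK ^ 2 = 1 := by
  have := Quaternion.normSq_eq_norm_mul_self q
  rw [h, Quaternion.normSq_def'] at this
  linarith

/-- Cayley–Hamilton -/
theorem ch {q : ℍ[ℝ]} (h : ‖q‖ = 1) : q * q = (2 * q.re) • q - 1 := by
  have h1 := normSq_one h
  ext <;> simp <;> nlinarith [h1]

/-- anticommutator -/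
theorem anti (g h : ℍ[ℝ]) : h * g = (2 * g.re) • h + (2 * h.re) • g
    + ((2 * (g * h).re) - (2 * g.re) * (2 * h.re)) • (1 : ℍ[ℝ]) - g * h := by
  ext <;> simp <;> ring

/-- coordinates with respect to `1, g, h, gh` -/
noncomputable def E (g h : ℍ[ℝ]) (a b c d : ℝ) : ℍ[ℝ] := a • (1 : ℍ[ℝ]) + b • g + c • h + d • (g * h)

theorem gE {g h : ℍ[ℝ]} (hg : ‖g‖ = 1) (a b c d : ℝ) :
    g * E g h a b c d = E g h (-b) (a + b * (2 * g.re)) (-d) (c + d * (2 * g.re)) := by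
  have h1 : g * E g h a b c d = a • g + b • (g * g) + c • (g * h) + d • ((g * g) * h) := by
    unfold E
    simp only [mul_add, mul_smul_comm, mul_one, mul_assoc]
  rw [h1, ch hg, E, sub_mul, smul_mul_assoc, one_mul]
  module

theorem hE {g h : ℍ[ℝ]} (hh : ‖h‖ = 1) (a b c d : ℝ) :
    h * E g h a b c d = E g h (b * ((2 * (g * h).re) - (2 * g.re) * (2 * h.re)) - c - d * (2 * g.re))
      (b * (2 * h.re) + d) (a + b * (2 * g.re) + c * (2 * h.re) + d * (2 * (g * h).re)) (-b) := by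
  have h1 : h * E g h a b c d = a • h + b • (h * g) + c • (h * h) + d • ((h * g) * h) := by
    unfold E
    simp only [mul_add, mul_smul_comm, mul_one, mul_assoc]
  have h2 : (h * g) * h = (2 * g.re) • (h * h) + (2 * h.re) • (g * h)
    + ((2 * (g * h).re) - (2 * g.re) * (2 * h.re)) • h - g * (h * h) := by
    rw [anti g h]
    simp only [add_mul, sub_mul, smul_mul_assoc, one_mul, mul_assoc]
  rw [h1, h2, anti g h, ch hh, mul_sub, mul_smul_comm, mul_one, E]
  module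

theorem reE (g h : ℍ[ℝ]) (a b c d : ℝ) :
    2 * (E g h a b c d).re = 2 * a + b * (2 * g.re) + c * (2 * h.re) + d * (2 * (g * h).re) := by
  simp [E]
  ring

theorem tr1 {g h : ℍ[ℝ]} (hg : ‖g‖ = 1) (hh : ‖h‖ = 1) :
    2 * (h * (h * (g * (h * g)))).re = F1 (2 * g.re) (2 * h.re) (2 * (g * h).re) := by
  have e0 : g = E g h 0 1 0 0 := by simp [E]
  have e1 : h * (h * (g * (h * g))) = h * (h * (g * (h * E g h 0 1 0 0))) := by rw [← e0]
  rw [e1, hE hh, gE hg, hE hh, hE hh, reE, F1]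
  ring

theorem tr2 {g : ℍ[ℝ]} (h : ℍ[ℝ]) (hg : ‖g‖ = 1) :
    2 * (g * (g * (g * (g * h)))).re = F2 (2 * g.re) (2 * h.re) (2 * (g * h).re) := by
  have e0 : h = E g h 0 0 1 0 := by simp [E]
  have e1 : g * (g * (g * (g * h))) = g * (g * (g * (g * E g h 0 0 1 0))) := by rw [← e0]
  rw [e1, gE hg, gE hg, gE hg, gE hg, reE, F2]
  ring

theorem tr3 {g h : ℍ[ℝ]} (hg : ‖g‖ = 1) (hh : ‖h‖ = 1) :
    2 * (h * (h * (g * (h * g))) * (g * (g * (g * (g * h))))).re
      = F3 (2 * g.re) (2 * h.re) (2 * (g * h).re) := by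
  have e0 : h = E g h 0 0 1 0 := by simp [E]
  have e1 : h * (h * (g * (h * g))) * (g * (g * (g * (g * h))))
      = h * (h * (g * (h * (g * (g * (g * (g * (g * E g h 0 0 1 0)))))))) := by
    rw [← e0]; simp only [mul_assoc]
  rw [e1, gE hg, gE hg, gE hg, gE hg, gE hg, hE hh, gE hg, hE hh, hE hh, reE, F3]
  ring

end Pool.Agent.R294.COC
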