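import Mathlib
import Pool.Agent.R294.COC2

open Quaternion

namespace Pool.Agent.R294.COC

/-- an orthonormal pair of imaginary quaternions -/
structure Fr (a b : ℍ[ℝ]) : Prop where
  aa : a * a = -1
  bb : b * b = -1
  ab : a * b = -(b * a)
  na : ‖a‖ = 1
  nb : ‖b‖ = 1

/-- normalising a nonzero intertwiner -/
theorem normalise {q a a' : ℍ[ℝ]} (hq : q ≠ 0) (h : q * a = a' * q) :
    ‖(‖q‖⁻¹ • q)‖ = 1 ∧ (‖q‖⁻¹ • q) * a = a' * (‖q‖⁻¹ • q) := by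
  have h0 : ‖q‖ ≠ 0 := by simpa using hq
  refine ⟨?_, ?_⟩
  · rw [norm_smul, norm_inv, norm_norm, inv_mul_cancel₀ h0]
  · rw [smul_mul_assoc, h, mul_smul_comm]

theorem conj1 {a b a' : ℍ[ℝ]} (h : Fr a b) (ha' : a' * a' = -1) :
    ∃ c : ℍ[ℝ], ‖c‖ = 1 ∧ c * a = a' * c := by
  by_cases hc : 1 - a' * a = 0
  · have h1 : a' = -a := by
      have h2 : a' * a * a = a := by rw [← sub_eq_zero.1 hc, one_mul]
      rw [mul_assoc, h.aa, mul_neg, mul_one] at h2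
      rw [← h2, neg_neg]
    refine ⟨b, h.nb, ?_⟩
    rw [h1, neg_mul, h.ab, neg_neg]
  · have := normalise hc (a := a) (a' := a') (by
      rw [sub_mul, mul_sub, mul_assoc, h.aa, ← mul_assoc, ha']
      noncomm_ring)
    exact ⟨_, this.1, this.2⟩

theorem conj2 {a b a' b' : ℍ[ℝ]} (h : Fr a b) (h' : Fr a' b') :
    ∃ c : ℍ[ℝ], ‖c‖ = 1 ∧ c * a = a' * c ∧ c * b = b' * c := by
  obtain ⟨c1, n1, hc1⟩ := conj1 h h'.aa
  have c10 : c1 ≠ 0 := by rintro rfl; simp at n1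
  have i1 : c1⁻¹ * c1 = 1 := inv_mul_cancel₀ c10
  have i2 : c1 * c1⁻¹ = 1 := mul_inv_cancel₀ c10
  obtain ⟨b1, hb1⟩ : ∃ b1, b1 = c1 * b * c1⁻¹ := ⟨_, rfl⟩
  have e1 : c1 * b = b1 * c1 := by rw [hb1, mul_assoc, i1, mul_one]
  have e2 : b1 * b1 = -1 := by
    calc b1 * b1 = c1 * b * (c1⁻¹ * c1) * b * c1⁻¹ := by rw [hb1]; simp only [mul_assoc]
      _ = c1 * (b * b) * c1⁻¹ := by rw [i1]; simp only [mul_assoc, mul_one]
      _ = -1 := by rw [h.bb, mul_neg, mul_one, neg_mul, i2]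
  have e3 : a' * b1 = -(b1 * a') := by
    have e4 : a' * b1 * c1 = -(b1 * a') * c1 := by
      rw [mul_assoc, ← e1, ← mul_assoc, ← hc1, mul_assoc, h.ab, neg_mul, mul_assoc b1, ← hc1,
        ← mul_assoc b1, ← e1, mul_neg, mul_assoc]
    exact mul_right_cancel₀ c10 e4
  obtain ⟨c2, n2, k1, k2⟩ : ∃ c2 : ℍ[ℝ], ‖c2‖ = 1 ∧ c2 * a' = a' * c2 ∧ c2 * b1 = b' * c2 := by
    by_cases hc : 1 - b' * b1 = 0
    · have h1 : b' = -b1 := by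
        have h2 : b' * b1 * b1 = b1 := by rw [← sub_eq_zero.1 hc, one_mul]
        rw [mul_assoc, e2, mul_neg, mul_one] at h2
        rw [← h2, neg_neg]
      refine ⟨a', h'.na, rfl, ?_⟩
      rw [h1, e3, neg_mul]
    · have p1 : (1 - b' * b1) * a' = a' * (1 - b' * b1) := by
        have : b1 * a' = -(a' * b1) := by rw [e3, neg_neg]
        rw [sub_mul, mul_sub, one_mul, mul_one, mul_assoc, this, mul_neg, ← mul_assoc, ← mul_assoc,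
          h'.ab, neg_mul]
      have p2 : (1 - b' * b1) * b1 = b' * (1 - b' * b1) := by
        rw [sub_mul, mul_sub, mul_assoc, e2, ← mul_assoc, h'.bb]
        noncomm_ring
      exact ⟨_, (normalise hc p1).1, (normalise hc p1).2, (normalise hc p2).2⟩
  refine ⟨c2 * c1, by rw [norm_mul, n1, n2, one_mul], ?_, ?_⟩
  · rw [mul_assoc, hc1, ← mul_assoc, k1, mul_assoc]
  · rw [mul_assoc, e1, ← mul_assoc, k2, mul_assoc]

/-- the standard frame -/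
def qi : ℍ[ℝ] := ⟨0, 1, 0, 0⟩
/-- the standard frame -/
def qj : ℍ[ℝ] := ⟨0, 0, 1, 0⟩

@[simp] theorem qi_re : qi.re = 0 := rfl
@[simp] theorem qi_i : qi.imI = 1 := rfl
@[simp] theorem qi_j : qi.imJ = 0 := rfl
@[simp] theorem qi_k : qi.imK = 0 := rfl
@[simp] theorem qj_re : qj.re = 0 := rfl
@[simp] theorem qj_i : qj.imI = 0 := rfl
@[simp] theorem qj_j : qj.imJ = 1 := rfl
@[simp] theorem qj_k : qj.imK = 0 := rfl

theorem norm_of {q : ℍ[ℝ]} (h : q.re ^ 2 + q.imI ^ 2 + q.imJ ^ 2 + q.imK ^ 2 = 1) : ‖q‖ = 1 := by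
  have h1 := Quaternion.normSq_eq_norm_mul_self q
  rw [Quaternion.normSq_def', h] at h1
  nlinarith [norm_nonneg q]

theorem fr_std : Fr qi qj := by
  refine ⟨?_, ?_, ?_, ?_, ?_⟩
  · ext <;> simp
  · ext <;> simp
  · ext <;> simp
  · apply norm_of; simp
  · apply norm_of; simp

theorem norm_sq (q : ℍ[ℝ]) : ‖q‖ ^ 2 = q.re ^ 2 + q.imI ^ 2 + q.imJ ^ 2 + q.imK ^ 2 := by
  have h1 := Quaternion.normSq_eq_norm_mul_self q
  rw [Quaternion.normSq_def'] at h1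
  nlinarith

/-- rigidity of the standard frame -/
theorem rigid_std {d : ℍ[ℝ]} (hd : ‖d‖ = 1) {e1 e2 : ℝ}
    (h1 : ‖d * qi - qi * d‖ ≤ e1) (h2 : ‖d * qj - qj * d‖ ≤ e2) :
    ‖d - 1‖ ^ 2 ≤ (e1 ^ 2 + e2 ^ 2) / 2 ∨ ‖d + 1‖ ^ 2 ≤ (e1 ^ 2 + e2 ^ 2) / 2 := by
  have k1 : ‖d * qi - qi * d‖ ^ 2 ≤ e1 ^ 2 := pow_le_pow_left₀ (norm_nonneg _) h1 2
  have k2 : ‖d * qj - qj * d‖ ^ 2 ≤ e2 ^ 2 := pow_le_pow_left₀ (norm_nonneg _) h2 2
  rw [norm_sq] at k1 k2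
  simp at k1 k2
  have hn := norm_sq d
  rw [hd] at hn
  by_cases hs : 0 ≤ d.re
  · left
    rw [norm_sq]
    simp
    have : d.re ≤ 1 := by nlinarith [sq_nonneg d.imI, sq_nonneg d.imJ, sq_nonneg d.imK]
    nlinarith [sq_nonneg d.imI, sq_nonneg d.imJ, sq_nonneg d.imK]
  · right
    rw [norm_sq]
    simp
    have : -1 ≤ d.re := by nlinarith [sq_nonneg d.imI, sq_nonneg d.imJ, sq_nonneg d.imK]
    nlinarith [sq_nonneg d.imI, sq_nonneg d.imJ, sq_nonneg d.imK]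

/-- rigidity of a frame -/
theorem rigid {a b : ℍ[ℝ]} (h : Fr a b) {d : ℍ[ℝ]} (hd : ‖d‖ = 1) {e1 e2 : ℝ}
    (h1 : ‖d * a - a * d‖ ≤ e1) (h2 : ‖d * b - b * d‖ ≤ e2) :
    ‖d - 1‖ ^ 2 ≤ (e1 ^ 2 + e2 ^ 2) / 2 ∨ ‖d + 1‖ ^ 2 ≤ (e1 ^ 2 + e2 ^ 2) / 2 := by
  obtain ⟨c, nc, ca, cb⟩ := conj2 h fr_std
  have c0 : c ≠ 0 := by rintro rfl; simp at nc
  have i1 : c⁻¹ * c = 1 := inv_mul_cancel₀ c0
  have i2 : c * c⁻¹ = 1 := mul_inv_cancel₀ c0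
  have nc' : ‖c⁻¹‖ = 1 := by rw [norm_inv, nc, inv_one]
  have key : ∀ q : ℍ[ℝ], ‖c * q * c⁻¹‖ = ‖q‖ := fun q => by rw [norm_mul, norm_mul, nc, nc', one_mul, mul_one]
  have ca' : qi = c * a * c⁻¹ := by rw [ca, mul_assoc, i2, mul_one]
  have cb' : qj = c * b * c⁻¹ := by rw [cb, mul_assoc, i2, mul_one]
  have comm : ∀ p : ℍ[ℝ], (c * d * c⁻¹) * (c * p * c⁻¹) - (c * p * c⁻¹) * (c * d * c⁻¹)
      = c * (d * p - p * d) * c⁻¹ := by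
    intro p
    have e1 : (c * d * c⁻¹) * (c * p * c⁻¹) = c * d * (c⁻¹ * c) * p * c⁻¹ := by simp only [mul_assoc]
    have e2 : (c * p * c⁻¹) * (c * d * c⁻¹) = c * p * (c⁻¹ * c) * d * c⁻¹ := by simp only [mul_assoc]
    rw [e1, e2, i1]
    noncomm_ring
  have r := rigid_std (d := c * d * c⁻¹) (by rw [key, hd]) (e1 := e1) (e2 := e2)
    (by rw [ca', comm, key]; exact h1) (by rw [cb', comm, key]; exact h2)
  have s1 : c * d * c⁻¹ - 1 = c * (d - 1) * c⁻¹ := by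
    rw [mul_sub, sub_mul, mul_one, i2]
  have s2 : c * d * c⁻¹ + 1 = c * (d + 1) * c⁻¹ := by
    rw [mul_add, add_mul, mul_one, i2]
  rw [s1, s2, key, key] at r
  exact r

end Pool.Agent.R294.COC
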