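import Mathlib
import Pool.Agent.R294.COC3

open Quaternion

namespace Pool.Agent.R294.COC

/-- traces of the pair lie in the box -/
def InBox (g h : ℍ[ℝ]) : Prop := Box (2 * g.re) (2 * h.re) (2 * (g * h).re)

/-- first frame coefficient -/
noncomputable def fs (x : ℝ) : ℝ := √(1 - x ^ 2 / 4)
/-- second frame coefficient -/
noncomputable def f1 (x y z : ℝ) : ℝ := (x * y / 4 - z / 2) / fs x
/-- third frame coefficient -/
noncomputable def f2 (x y z : ℝ) : ℝ := √(1 - y ^ 2 / 4 - (f1 x y z) ^ 2)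

theorem Box.bounds {x y z : ℝ} (h : Box x y z) :
    477/1000 ≤ x ∧ x ≤ 478/1000 ∧ 2947/10000 ≤ y ∧ y ≤ 2952/10000 ∧ 6177/10000 ≤ z ∧ z ≤ 6184/10000 := by
  have h1 := abs_le.1 h.dx; have h2 := abs_le.1 h.dy; have h3 := abs_le.1 h.dz
  norm_num at h1 h2 h3
  refine ⟨?_, ?_, ?_, ?_, ?_, ?_⟩ <;> linarith

theorem fs_bounds {x y z : ℝ} (h : Box x y z) :
    fs x ^ 2 = 1 - x ^ 2 / 4 ∧ 97/100 ≤ fs x ∧ fs x ≤ 1 := by
  obtain ⟨a, b, -⟩ := h.bounds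
  have h1 : fs x ^ 2 = 1 - x ^ 2 / 4 := Real.sq_sqrt (by nlinarith)
  have h0 : 0 ≤ fs x := Real.sqrt_nonneg _
  refine ⟨h1, ?_, ?_⟩
  · apply Real.le_sqrt_of_sq_le; nlinarith
  · nlinarith

theorem f1_bounds {x y z : ℝ} (h : Box x y z) :
    f1 x y z * fs x = x * y / 4 - z / 2 ∧ |f1 x y z| ≤ 3/10 := by
  obtain ⟨a, b, c, d, e, f⟩ := h.bounds
  obtain ⟨h1, h2, h3⟩ := fs_bounds h
  have h4 : f1 x y z * fs x = x * y / 4 - z / 2 := div_mul_cancel₀ _ (by linarith)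
  refine ⟨h4, ?_⟩
  rw [abs_le]
  constructor <;> nlinarith [mul_nonneg (sub_nonneg.2 a) (sub_nonneg.2 c),
    mul_nonneg (sub_nonneg.2 b) (sub_nonneg.2 d)]

theorem f2_bounds {x y z : ℝ} (h : Box x y z) :
    f2 x y z ^ 2 = 1 - y ^ 2 / 4 - (f1 x y z) ^ 2 ∧ 9/10 ≤ f2 x y z ∧ f2 x y z ≤ 1 := by
  obtain ⟨a, b, c, d, e, f⟩ := h.bounds
  obtain ⟨h1, h2⟩ := f1_bounds h
  have h3 := abs_le.1 h2
  have h4 : (f1 x y z) ^ 2 ≤ 9/100 := by nlinarith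
  have h5 : f2 x y z ^ 2 = 1 - y ^ 2 / 4 - (f1 x y z) ^ 2 := Real.sq_sqrt (by nlinarith)
  have h0 : 0 ≤ f2 x y z := Real.sqrt_nonneg _
  refine ⟨h5, ?_, ?_⟩
  · apply Real.le_sqrt_of_sq_le; nlinarith
  · nlinarith [sq_nonneg (f1 x y z)]

theorem norm_of_sq {a : ℍ[ℝ]} (h : a * a = -1) : ‖a‖ = 1 := by
  have h1 : ‖a‖ * ‖a‖ = 1 := by rw [← norm_mul, h, norm_neg, norm_one]
  nlinarith [norm_nonneg a]

theorem frame {g h : ℍ[ℝ]} (hg : ‖g‖ = 1) (hh : ‖h‖ = 1) (hb : InBox g h) :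
    ∃ a b : ℍ[ℝ], Fr a b ∧ g = (2 * g.re / 2) • (1 : ℍ[ℝ]) + fs (2 * g.re) • a ∧
      h = (2 * h.re / 2) • (1 : ℍ[ℝ]) + f1 (2 * g.re) (2 * h.re) (2 * (g * h).re) • a
        + f2 (2 * g.re) (2 * h.re) (2 * (g * h).re) • b := by
  have e1 := ch hg
  have e2 := ch hh
  have e3 := anti g h
  obtain ⟨p1, p2, p3⟩ := fs_bounds hb
  obtain ⟨q1, q2⟩ := f1_bounds hb
  obtain ⟨r1, r2, r3⟩ := f2_bounds hb
  clear hb
  generalize 2 * (g * h).re = z at *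
  generalize 2 * g.re = x at *
  generalize 2 * h.re = y at *
  generalize f2 x y z = t2 at *
  generalize f1 x y z = t1 at *
  generalize fs x = s at *
  have s0 : s ≠ 0 := by linarith
  have t0 : t2 ≠ 0 := by linarith
  obtain ⟨g0, hg0⟩ : ∃ g0, g0 = g - (x / 2) • (1 : ℍ[ℝ]) := ⟨_, rfl⟩
  obtain ⟨h0, hh0⟩ : ∃ h0, h0 = h - (y / 2) • (1 : ℍ[ℝ]) := ⟨_, rfl⟩
  have G1 : g0 * g0 = (x ^ 2 / 4 - 1) • (1 : ℍ[ℝ]) := by
    rw [hg0, sub_mul, mul_sub, mul_sub, e1]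
    simp only [smul_mul_assoc, mul_smul_comm, one_mul, mul_one]
    module
  have H1 : h0 * h0 = (y ^ 2 / 4 - 1) • (1 : ℍ[ℝ]) := by
    rw [hh0, sub_mul, mul_sub, mul_sub, e2]
    simp only [smul_mul_assoc, mul_smul_comm, one_mul, mul_one]
    module
  have GH : g0 * h0 + h0 * g0 = (-2 * (x * y / 4 - z / 2)) • (1 : ℍ[ℝ]) := by
    rw [hg0, hh0, sub_mul, mul_sub, mul_sub, sub_mul, mul_sub, mul_sub, e3]
    simp only [smul_mul_assoc, mul_smul_comm, one_mul, mul_one]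
    module
  obtain ⟨a, ha⟩ : ∃ a, a = s⁻¹ • g0 := ⟨_, rfl⟩
  obtain ⟨b, hb⟩ : ∃ b, b = t2⁻¹ • (h0 - t1 • a) := ⟨_, rfl⟩
  have A1 : a * a = -1 := by
    rw [ha, smul_mul_smul_comm, G1, smul_smul]
    have : s⁻¹ * s⁻¹ * (x ^ 2 / 4 - 1) = -1 := by
      field_simp; linarith
    rw [this]; simp
  have A2 : a * h0 + h0 * a = (-2 * t1) • (1 : ℍ[ℝ]) := by
    rw [ha, smul_mul_assoc, mul_smul_comm, ← smul_add, GH, smul_smul, ← q1]
    congr 1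
    field_simp
  have B1 : a * b = -(b * a) := by
    have : a * b + b * a = 0 := by
      rw [hb, smul_mul_assoc, mul_smul_comm, ← smul_add, mul_sub, sub_mul, smul_mul_assoc,
        mul_smul_comm, A1]
      have : a * h0 - t1 • (-1 : ℍ[ℝ]) + (h0 * a - t1 • (-1 : ℍ[ℝ]))
        = (a * h0 + h0 * a) + (2 * t1) • (1 : ℍ[ℝ]) := by module
      rw [this, A2]
      module
    exact eq_neg_of_add_eq_zero_left this
  have B2 : b * b = -1 := by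
    have k1 : (h0 - t1 • a) * (h0 - t1 • a) = h0 * h0 - t1 • (a * h0 + h0 * a) + (t1 * t1) • (a * a) := by
      rw [sub_mul, mul_sub, mul_sub]
      simp only [smul_mul_assoc, mul_smul_comm]
      module
    rw [hb, smul_mul_smul_comm, k1, H1, A2, A1]
    have k2 : ((y ^ 2 / 4 - 1) • (1 : ℍ[ℝ]) - t1 • ((-2 * t1) • (1 : ℍ[ℝ])) + (t1 * t1) • (-1 : ℍ[ℝ]))
      = (-(t2 ^ 2)) • (1 : ℍ[ℝ]) := by
      rw [r1]; module
    rw [k2, smul_smul]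
    have : t2⁻¹ * t2⁻¹ * -(t2 ^ 2) = -1 := by field_simp
    rw [this]; simp
  refine ⟨a, b, ⟨A1, B2, B1, norm_of_sq A1, norm_of_sq B2⟩, ?_, ?_⟩
  · rw [ha, smul_smul, mul_inv_cancel₀ s0, hg0]; module
  · have : t2 • b = h0 - t1 • a := by
      rw [hb, smul_smul, mul_inv_cancel₀ t0, one_smul]
    rw [this, hh0]; module

end Pool.Agent.R294.COC
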