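import Mathlib
import Pool.Agent.R294.COC4

open Quaternion

namespace Pool.Agent.R294.COC

theorem fs_lip {N x y z x' y' z' : ℝ} (h : Box x y z) (h' : Box x' y' z')
    (hc : Cl N x y z x' y' z') : |fs x - fs x'| ≤ 2/10 * N := by
  obtain ⟨p1, p2, p3⟩ := fs_bounds h
  obtain ⟨p1', p2', p3'⟩ := fs_bounds h'
  obtain ⟨a, b, -⟩ := h.bounds
  obtain ⟨a', b', -⟩ := h'.bounds
  have hx := abs_le.1 hc.dx
  have hN := hc.nonneg
  generalize fs x = s at *
  generalize fs x' = s' at *
  have e : (s - s') * (s + s') = -((x - x') * (x + x')) / 4 := by nlinarith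
  have e2 : |s - s'| * (s + s') = |x - x'| * (x + x') / 4 := by
    have h1 := congrArg abs e
    rw [abs_mul, abs_div, abs_neg, abs_mul, abs_of_pos (show 0 < s + s' by linarith),
      abs_of_pos (show 0 < x + x' by linarith)] at h1
    rw [h1]; norm_num
  have h3 : |x - x'| ≤ N := hc.dx
  have h4 : |x - x'| * (x + x') ≤ N * 1 := mul_le_mul h3 (by linarith) (by linarith) hN
  have h5 : |s - s'| * (194/100) ≤ |s - s'| * (s + s') :=
    mul_le_mul_of_nonneg_left (by linarith) (abs_nonneg _)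
  linarith

theorem f1_lip {N x y z x' y' z' : ℝ} (h : Box x y z) (h' : Box x' y' z')
    (hc : Cl N x y z x' y' z') : |f1 x y z - f1 x' y' z'| ≤ 2 * N := by
  have hs := fs_lip h h' hc
  obtain ⟨p1, p2, p3⟩ := fs_bounds h
  obtain ⟨p1', p2', p3'⟩ := fs_bounds h'
  obtain ⟨q1, q2⟩ := f1_bounds h
  obtain ⟨q1', q2'⟩ := f1_bounds h'
  obtain ⟨a, b, c, d, -⟩ := h.bounds
  obtain ⟨a', b', c', d', -⟩ := h'.bounds
  have hN := hc.nonneg
  have hx := hc.dx
  have hy := hc.dy
  have hz := hc.dz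
  generalize f1 x y z = t at *
  generalize f1 x' y' z' = t' at *
  generalize fs x = s at *
  generalize fs x' = s' at *
  -- (t - t') s = (m - m') - t' (s - s')
  have e : (t - t') * s = (x * (y - y') + y' * (x - x')) / 4 - (z - z') / 2 - t' * (s - s') := by
    linear_combination q1 - q1'
  have e2 : |t - t'| * s ≤ (|x * (y - y')| + |y' * (x - x')|) / 4 + |z - z'| / 2 + |t' * (s - s')| := by
    have h1 := congrArg abs e
    rw [abs_mul, abs_of_pos (show 0 < s by linarith)] at h1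
    rw [h1]
    have b1 := abs_sub ((x * (y - y') + y' * (x - x')) / 4 - (z - z') / 2) (t' * (s - s'))
    have b2 := abs_sub ((x * (y - y') + y' * (x - x')) / 4) ((z - z') / 2)
    have b3 := abs_add_le (x * (y - y')) (y' * (x - x'))
    rw [abs_div, abs_div, abs_of_pos (show (0:ℝ) < 4 by norm_num),
      abs_of_pos (show (0:ℝ) < 2 by norm_num)] at b2
    linarith
  have k1 : |x * (y - y')| ≤ 1/2 * (2 * N) := by
    rw [abs_mul, abs_of_pos (show 0 < x by linarith)]
    exact mul_le_mul (by linarith) hy (abs_nonneg _) (by norm_num)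
  have k2 : |y' * (x - x')| ≤ 3/10 * N := by
    rw [abs_mul, abs_of_pos (show 0 < y' by linarith)]
    exact mul_le_mul (by linarith) hx (abs_nonneg _) (by norm_num)
  have k3 : |t' * (s - s')| ≤ 3/10 * (2/10 * N) := by
    rw [abs_mul]
    exact mul_le_mul q2' hs (abs_nonneg _) (by norm_num)
  have h5 : |t - t'| * (97/100) ≤ |t - t'| * s :=
    mul_le_mul_of_nonneg_left (by linarith) (abs_nonneg _)
  linarith

theorem f2_lip {N x y z x' y' z' : ℝ} (h : Box x y z) (h' : Box x' y' z')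
    (hc : Cl N x y z x' y' z') : |f2 x y z - f2 x' y' z'| ≤ N := by
  have ht := f1_lip h h' hc
  obtain ⟨r1, r2, r3⟩ := f2_bounds h
  obtain ⟨r1', r2', r3'⟩ := f2_bounds h'
  obtain ⟨q1, q2⟩ := f1_bounds h
  obtain ⟨q1', q2'⟩ := f1_bounds h'
  obtain ⟨a, b, c, d, -⟩ := h.bounds
  obtain ⟨a', b', c', d', -⟩ := h'.bounds
  have hN := hc.nonneg
  have hy := hc.dy
  generalize f2 x y z = w at *
  generalize f2 x' y' z' = w' at *
  generalize f1 x y z = t at *
  generalize f1 x' y' z' = t' at *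
  have e : (w - w') * (w + w') = -((y - y') * (y + y') / 4 + (t - t') * (t + t')) := by
    linear_combination r1 - r1'
  have k1 : |(y - y') * (y + y') / 4| ≤ (2 * N) * (6/10) / 4 := by
    rw [abs_div, abs_of_pos (show (0:ℝ) < 4 by norm_num), abs_mul,
      abs_of_pos (show 0 < y + y' by linarith)]
    have := mul_le_mul hy (show y + y' ≤ 6/10 by linarith) (by linarith) (by linarith)
    linarith
  have k2 : |(t - t') * (t + t')| ≤ (2 * N) * (6/10) := by
    rw [abs_mul]
    have := abs_add_le t t'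
    exact mul_le_mul ht (by linarith) (abs_nonneg _) (by linarith)
  have e2 : |w - w'| * (w + w') ≤ |(y - y') * (y + y') / 4| + |(t - t') * (t + t')| := by
    have h1 := congrArg abs e
    rw [abs_mul, abs_neg, abs_of_pos (show 0 < w + w' by linarith)] at h1
    rw [h1]
    exact abs_add_le _ _
  have h5 : |w - w'| * (18/10) ≤ |w - w'| * (w + w') :=
    mul_le_mul_of_nonneg_left (by linarith) (abs_nonneg _)
  linarith

/-- B4 -/
theorem conj_close {g h g' h' : ℍ[ℝ]} (hg : ‖g‖ = 1) (hh : ‖h‖ = 1) (hg' : ‖g'‖ = 1) (hh' : ‖h'‖ = 1)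
    (hb : InBox g h) (hb' : InBox g' h') {N : ℝ}
    (hc : Cl N (2 * g.re) (2 * h.re) (2 * (g * h).re) (2 * g'.re) (2 * h'.re) (2 * (g' * h').re)) :
    ∃ c : ℍ[ℝ], ‖c‖ = 1 ∧ ‖c * g - g' * c‖ ≤ 4 * N ∧ ‖c * h - h' * c‖ ≤ 4 * N := by
  obtain ⟨a, b, hf, eg, eh⟩ := frame hg hh hb
  obtain ⟨a', b', hf', eg', eh'⟩ := frame hg' hh' hb'
  have l1 := fs_lip hb hb' hc
  have l2 := f1_lip hb hb' hc
  have l3 := f2_lip hb hb' hc
  have hN := hc.nonneg
  have hx := hc.dx
  have hy := hc.dy
  obtain ⟨c, nc, c1, c2⟩ := conj2 hf hf'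
  refine ⟨c, nc, ?_, ?_⟩
  · generalize f1 (2 * g.re) (2 * h.re) (2 * (g * h).re) = t at *
    generalize f1 (2 * g'.re) (2 * h'.re) (2 * (g' * h').re) = t' at *
    generalize f2 (2 * g.re) (2 * h.re) (2 * (g * h).re) = w at *
    generalize f2 (2 * g'.re) (2 * h'.re) (2 * (g' * h').re) = w' at *
    generalize fs (2 * g.re) = s at *
    generalize fs (2 * g'.re) = s' at *
    clear eh eh' hb hb' hc
    have e : c * g - g' * c = ((2 * g.re - 2 * g'.re) / 2) • c + (s - s') • (a' * c) := by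
      generalize 2 * g.re = x at *
      generalize 2 * g'.re = x' at *
      rw [eg, eg', mul_add, add_mul]
      simp only [smul_mul_assoc, mul_smul_comm, one_mul, mul_one]
      rw [c1]
      module
    rw [e]
    refine le_trans (norm_add_le _ _) ?_
    rw [norm_smul, norm_smul, norm_mul, hf'.na, nc, Real.norm_eq_abs, Real.norm_eq_abs, abs_div,
      abs_of_pos (show (0:ℝ) < 2 by norm_num)]
    linarith
  · generalize f1 (2 * g.re) (2 * h.re) (2 * (g * h).re) = t at *
    generalize f1 (2 * g'.re) (2 * h'.re) (2 * (g' * h').re) = t' at *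
    generalize f2 (2 * g.re) (2 * h.re) (2 * (g * h).re) = w at *
    generalize f2 (2 * g'.re) (2 * h'.re) (2 * (g' * h').re) = w' at *
    generalize fs (2 * g.re) = s at *
    generalize fs (2 * g'.re) = s' at *
    clear eg eg' hb hb' hc
    have e : c * h - h' * c = ((2 * h.re - 2 * h'.re) / 2) • c + (t - t') • (a' * c) + (w - w') • (b' * c) := by
      generalize 2 * h.re = x at *
      generalize 2 * h'.re = x' at *
      rw [eh, eh', mul_add, mul_add, add_mul, add_mul]
      simp only [smul_mul_assoc, mul_smul_comm, one_mul, mul_one]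
      rw [c1, c2]
      module
    rw [e]
    refine le_trans (norm_add_le _ _) (le_trans (add_le_add_left (norm_add_le _ _) _) ?_)
    rw [norm_smul, norm_smul, norm_smul, norm_mul, norm_mul, hf'.na, hf'.nb, nc, Real.norm_eq_abs,
      Real.norm_eq_abs, Real.norm_eq_abs, abs_div, abs_of_pos (show (0:ℝ) < 2 by norm_num)]
    linarith

/-- B5 -/
theorem rigid_pair {g h : ℍ[ℝ]} (hg : ‖g‖ = 1) (hh : ‖h‖ = 1) (hb : InBox g h) {d : ℍ[ℝ]}
    (hd : ‖d‖ = 1) {e : ℝ} (h1 : ‖d * g - g * d‖ ≤ e) (h2 : ‖d * h - h * d‖ ≤ e) :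
    ‖d - 1‖ ≤ 2 * e ∨ ‖d + 1‖ ≤ 2 * e := by
  obtain ⟨a, b, hf, eg, eh⟩ := frame hg hh hb
  obtain ⟨p1, p2, p3⟩ := fs_bounds hb
  obtain ⟨q1, q2⟩ := f1_bounds hb
  obtain ⟨r1, r2, r3⟩ := f2_bounds hb
  have he : 0 ≤ e := le_trans (norm_nonneg _) h1
  generalize f1 (2 * g.re) (2 * h.re) (2 * (g * h).re) = t at *
  generalize f2 (2 * g.re) (2 * h.re) (2 * (g * h).re) = w at *
  generalize fs (2 * g.re) = s at *
  have k1 : d * g - g * d = s • (d * a - a * d) := by
    clear r1 q1 p1 hb h1 h2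
    generalize 2 * g.re = x at *
    rw [eg, mul_add, add_mul]
    simp only [smul_mul_assoc, mul_smul_comm, one_mul, mul_one]
    module
  have k2 : d * h - h * d = t • (d * a - a * d) + w • (d * b - b * d) := by
    clear r1 q1 p1 hb h1 h2 k1
    generalize 2 * h.re = x at *
    rw [eh, mul_add, mul_add, add_mul, add_mul]
    simp only [smul_mul_assoc, mul_smul_comm, one_mul, mul_one]
    module
  have m1 : s * ‖d * a - a * d‖ ≤ e := by
    rw [k1, norm_smul, Real.norm_eq_abs, abs_of_pos (by linarith)] at h1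
    exact h1
  have m2 : w * ‖d * b - b * d‖ ≤ e + |t| * ‖d * a - a * d‖ := by
    have : w • (d * b - b * d) = (d * h - h * d) - t • (d * a - a * d) := by rw [k2]; module
    have h3 := congrArg norm this
    rw [norm_smul, Real.norm_eq_abs, abs_of_pos (by linarith)] at h3
    rw [h3]
    refine le_trans (norm_sub_le _ _) ?_
    rw [norm_smul, Real.norm_eq_abs]
    linarith
  have n1 : ‖d * a - a * d‖ ≤ 104/100 * e := by
    have := mul_le_mul_of_nonneg_right p2 (norm_nonneg (d * a - a * d))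
    linarith
  have n2 : ‖d * b - b * d‖ ≤ 146/100 * e := by
    have := mul_le_mul_of_nonneg_right r2 (norm_nonneg (d * b - b * d))
    have := mul_le_mul q2 n1 (norm_nonneg _) (by norm_num)
    linarith
  have fin : ∀ r : ℝ, 0 ≤ r → r ^ 2 ≤ ((104/100 * e) ^ 2 + (146/100 * e) ^ 2) / 2 → r ≤ 2 * e := by
    intro r hr h
    have : r ^ 2 ≤ (2 * e) ^ 2 := by nlinarith [sq_nonneg e]
    exact (pow_le_pow_iff_left₀ hr (by linarith) (by norm_num)).1 this
  rcases rigid hf hd n1 n2 with h | h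
  · left; exact fin _ (norm_nonneg _) h
  · right; exact fin _ (norm_nonneg _) h

end Pool.Agent.R294.COC
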