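import Mathlib
import Pool.Agent.R294.COC5

open Quaternion

namespace Pool.Agent.R294.COC

/-- the substitution `a → abab b`, `b → baaaa` (with `a = true`) -/
def th (l : Bool) (s : ℕ) : Bool := if s = 0 then l else if s = 2 then true else !l

/-- the substitution acting on pairs -/
noncomputable def Psi (P : Bool → ℍ[ℝ]) (l : Bool) : ℍ[ℝ] :=
  P (th l 4) * (P (th l 3) * (P (th l 2) * (P (th l 1) * P (th l 0))))

/-- minus the substitution -/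
noncomputable def Tm (P : Bool → ℍ[ℝ]) (l : Bool) : ℍ[ℝ] := -(Psi P l)

theorem Psi_unit {P : Bool → ℍ[ℝ]} (h : ∀ l, ‖P l‖ = 1) (l : Bool) : ‖Psi P l‖ = 1 := by
  simp [Psi, h]

theorem Tm_unit {P : Bool → ℍ[ℝ]} (h : ∀ l, ‖P l‖ = 1) (l : Bool) : ‖Tm P l‖ = 1 := by
  rw [Tm, norm_neg, Psi_unit h]

theorem Psi_true (P : Bool → ℍ[ℝ]) :
    Psi P true = P false * (P false * (P true * (P false * P true))) := by
  simp [Psi, th]

theorem Psi_false (P : Bool → ℍ[ℝ]) :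
    Psi P false = P true * (P true * (P true * (P true * P false))) := by
  simp [Psi, th]

/-- traces -/
noncomputable def tx (P : Bool → ℍ[ℝ]) : ℝ := 2 * (P true).re
/-- traces -/
noncomputable def ty (P : Bool → ℍ[ℝ]) : ℝ := 2 * (P false).re
/-- traces -/
noncomputable def tz (P : Bool → ℍ[ℝ]) : ℝ := 2 * (P true * P false).re

theorem tx_Tm {P : Bool → ℍ[ℝ]} (h : ∀ l, ‖P l‖ = 1) : tx (Tm P) = -F1 (tx P) (ty P) (tz P) := by
  unfold tx ty tz Tm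
  rw [Psi_true, Quaternion.re_neg, mul_neg, tr1 (h true) (h false)]

theorem ty_Tm {P : Bool → ℍ[ℝ]} (h : ∀ l, ‖P l‖ = 1) : ty (Tm P) = -F2 (tx P) (ty P) (tz P) := by
  unfold tx ty tz Tm
  rw [Psi_false, Quaternion.re_neg, mul_neg, tr2 _ (h true)]

theorem tz_Tm {P : Bool → ℍ[ℝ]} (h : ∀ l, ‖P l‖ = 1) : tz (Tm P) = F3 (tx P) (ty P) (tz P) := by
  unfold tx ty tz Tm
  rw [Psi_false, Psi_true, neg_mul_neg, tr3 (h true) (h false)]

theorem iter_unit {P : Bool → ℍ[ℝ]} (h : ∀ l, ‖P l‖ = 1) (k : ℕ) (l : Bool) : ‖Tm^[k] P l‖ = 1 := by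
  induction k generalizing l with
  | zero => simpa using h l
  | succ k ih => rw [Function.iterate_succ_apply']; exact Tm_unit ih l

theorem iterP_unit {P : Bool → ℍ[ℝ]} (h : ∀ l, ‖P l‖ = 1) (k : ℕ) (l : Bool) : ‖Psi^[k] P l‖ = 1 := by
  induction k generalizing l with
  | zero => simpa using h l
  | succ k ih => rw [Function.iterate_succ_apply']; exact Psi_unit ih l

theorem Psi_neg (P : Bool → ℍ[ℝ]) (l : Bool) : Psi (fun l => -(P l)) l = -(Psi P l) := by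
  simp [Psi]

/-- sign version -/
theorem iter_sign (k : ℕ) : (∀ (P : Bool → ℍ[ℝ]) l, Tm^[k] P l = Psi^[k] P l) ∨
    (∀ (P : Bool → ℍ[ℝ]) l, Tm^[k] P l = -(Psi^[k] P l)) := by
  induction k with
  | zero => left; intro P l; rfl
  | succ k ih =>
    rcases ih with ih | ih
    · right
      intro P l
      rw [Function.iterate_succ_apply', Function.iterate_succ_apply', Tm]
      rw [show Tm^[k] P = Psi^[k] P from funext (ih P)]
    · left
      intro P l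
      rw [Function.iterate_succ_apply', Function.iterate_succ_apply', Tm]
      rw [show Tm^[k] P = fun l => -(Psi^[k] P l) from funext (ih P), Psi_neg, neg_neg]

theorem Cl_traces {P P' : Bool → ℍ[ℝ]} (h : ∀ l, ‖P l‖ = 1) (h' : ∀ l, ‖P' l‖ = 1)
    (hb : Box (tx P) (ty P) (tz P)) (hb' : Box (tx P') (ty P') (tz P')) (k : ℕ) :
    Box (tx (Tm^[k] P)) (ty (Tm^[k] P)) (tz (Tm^[k] P)) ∧
    Box (tx (Tm^[k] P')) (ty (Tm^[k] P')) (tz (Tm^[k] P')) ∧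
    Cl (2/10000 * (9/10) ^ k) (tx (Tm^[k] P)) (ty (Tm^[k] P)) (tz (Tm^[k] P))
      (tx (Tm^[k] P')) (ty (Tm^[k] P')) (tz (Tm^[k] P')) := by
  induction k with
  | zero =>
    refine ⟨hb, hb', ?_⟩
    exact (Cl.trans hb (Cl.symm hb')).mono (by norm_num)
  | succ k ih =>
    obtain ⟨i1, i2, i3⟩ := ih
    simp only [Function.iterate_succ_apply']
    rw [tx_Tm (iter_unit h k), ty_Tm (iter_unit h k), tz_Tm (iter_unit h k),
      tx_Tm (iter_unit h' k), ty_Tm (iter_unit h' k), tz_Tm (iter_unit h' k)]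
    exact ⟨box_map i1, box_map i2, (contr i1 i2 i3).mono (by rw [pow_succ]; linarith)⟩

theorem tele {c x1 x2 y1 y2 : ℍ[ℝ]} (hx : ‖x2‖ = 1) (hy : ‖y1‖ = 1) {e1 e2 : ℝ}
    (h1 : ‖c * x1 - y1 * c‖ ≤ e1) (h2 : ‖c * x2 - y2 * c‖ ≤ e2) :
    ‖c * (x1 * x2) - (y1 * y2) * c‖ ≤ e1 + e2 := by
  have e : c * (x1 * x2) - (y1 * y2) * c = (c * x1 - y1 * c) * x2 + y1 * (c * x2 - y2 * c) := by
    noncomm_ring
  rw [e]
  refine le_trans (norm_add_le _ _) ?_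
  rw [norm_mul, norm_mul, hx, hy, mul_one, one_mul]
  exact add_le_add h1 h2

theorem tele_Psi {P P' : Bool → ℍ[ℝ]} (h : ∀ l, ‖P l‖ = 1) (h' : ∀ l, ‖P' l‖ = 1) {c : ℍ[ℝ]}
    {e : ℝ} (hc : ∀ l, ‖c * P l - P' l * c‖ ≤ e) (l : Bool) :
    ‖c * Psi P l - Psi P' l * c‖ ≤ 5 * e := by
  have := tele (by simp [h]) (h' (th l 4)) (hc (th l 4))
    (tele (by simp [h]) (h' (th l 3)) (hc (th l 3))
      (tele (by simp [h]) (h' (th l 2)) (hc (th l 2))
        (tele (h _) (h' (th l 1)) (hc (th l 1)) (hc (th l 0)))))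
  refine le_trans this ?_
  linarith

theorem tele_Tm {P P' : Bool → ℍ[ℝ]} (h : ∀ l, ‖P l‖ = 1) (h' : ∀ l, ‖P' l‖ = 1) {c : ℍ[ℝ]}
    {e : ℝ} (hc : ∀ l, ‖c * P l - P' l * c‖ ≤ e) (l : Bool) :
    ‖c * Tm P l - Tm P' l * c‖ ≤ 5 * e := by
  have := tele_Psi h h' hc l
  rw [Tm, Tm, mul_neg, neg_mul, neg_sub_neg, norm_sub_rev]
  exact this

theorem step_rigid {R R' : Bool → ℍ[ℝ]} (h : ∀ l, ‖R l‖ = 1)
    (hb : Box (tx R) (ty R) (tz R)) {c d : ℍ[ℝ]} (nc : ‖c‖ = 1) (nd : ‖d‖ = 1) {e e' : ℝ}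
    (hc : ∀ l, ‖c * R l - R' l * c‖ ≤ e) (hd : ∀ l, ‖d * R l - R' l * d‖ ≤ e') :
    ‖d - c‖ ≤ 2 * (e + e') ∨ ‖-d - c‖ ≤ 2 * (e + e') := by
  have d0 : d ≠ 0 := by rintro rfl; simp at nd
  have i1 : d⁻¹ * d = 1 := inv_mul_cancel₀ d0
  have i2 : d * d⁻¹ = 1 := mul_inv_cancel₀ d0
  have nd' : ‖d⁻¹‖ = 1 := by rw [norm_inv, nd, inv_one]
  have key : ∀ l, ‖(d⁻¹ * c) * R l - R l * (d⁻¹ * c)‖ ≤ e + e' := by
    intro l
    have e1 : (d⁻¹ * c) * R l - R l * (d⁻¹ * c)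
      = d⁻¹ * ((c * R l - R' l * c) - (d * R l - R' l * d) * (d⁻¹ * c)) := by
      have : d⁻¹ * ((c * R l - R' l * c) - (d * R l - R' l * d) * (d⁻¹ * c))
        = d⁻¹ * c * R l - d⁻¹ * R' l * c - (d⁻¹ * d) * R l * (d⁻¹ * c) + d⁻¹ * R' l * (d * d⁻¹) * c := by
        noncomm_ring
      rw [this, i1, i2]
      noncomm_ring
    rw [e1, norm_mul, nd', one_mul]
    refine le_trans (norm_sub_le _ _) ?_
    rw [norm_mul, norm_mul, nd', nc, one_mul, mul_one]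
    exact add_le_add (hc l) (hd l)
  rcases rigid_pair (h true) (h false) hb (d := d⁻¹ * c) (by rw [norm_mul, nd', nc, one_mul])
    (key true) (key false) with h | h
  · left
    have e1 : d - c = -(d * (d⁻¹ * c - 1)) := by
      rw [mul_sub, ← mul_assoc, i2]; noncomm_ring
    rw [e1, norm_neg, norm_mul, nd, one_mul]; exact h
  · right
    have e1 : -d - c = -(d * (d⁻¹ * c + 1)) := by
      rw [mul_add, ← mul_assoc, i2]; noncomm_ring
    rw [e1, norm_neg, norm_mul, nd, one_mul]; exact h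

theorem seq_Tm {P P' : Bool → ℍ[ℝ]} (h : ∀ l, ‖P l‖ = 1) (h' : ∀ l, ‖P' l‖ = 1)
    (hb : Box (tx P) (ty P) (tz P)) (hb' : Box (tx P') (ty P') (tz P')) :
    ∃ c : ℕ → ℍ[ℝ], (∀ k, ‖c k‖ = 1) ∧
      (∀ k l, ‖c k * Tm^[k] P l - Tm^[k] P' l * c k‖ ≤ 8/10000 * (9/10) ^ k) ∧
      ∀ k, ‖c (k + 1) - c k‖ ≤ 96/10000 * (9/10) ^ k := by
  have ex : ∀ k, ∃ d : ℍ[ℝ], ‖d‖ = 1 ∧ ∀ l, ‖d * Tm^[k] P l - Tm^[k] P' l * d‖ ≤ 8/10000 * (9/10) ^ k := by
    intro k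
    obtain ⟨i1, i2, i3⟩ := Cl_traces h h' hb hb' k
    obtain ⟨d, nd, d1, d2⟩ := conj_close (iter_unit h k true) (iter_unit h k false)
      (iter_unit h' k true) (iter_unit h' k false) i1 i2 i3
    refine ⟨d, nd, ?_⟩
    intro l
    cases l
    · exact le_trans d2 (by linarith)
    · exact le_trans d1 (by linarith)
  choose d nd hd using ex
  classical
  let c : ℕ → ℍ[ℝ] := fun k => Nat.rec (d 0) (fun k ck =>
    if ‖d (k + 1) - ck‖ ≤ 96/10000 * (9/10) ^ k then d (k + 1) else -d (k + 1)) k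
  have c0 : c 0 = d 0 := rfl
  have cs : ∀ k, c (k + 1) = if ‖d (k + 1) - c k‖ ≤ 96/10000 * (9/10) ^ k then d (k + 1) else -d (k + 1) :=
    fun k => rfl
  have cd : ∀ k, c k = d k ∨ c k = -d k := by
    intro k
    cases k with
    | zero => left; rfl
    | succ k =>
      rw [cs]
      split_ifs
      · left; rfl
      · right; rfl
  have nc : ∀ k, ‖c k‖ = 1 := by
    intro k
    rcases cd k with e | e
    · rw [e, nd]
    · rw [e, norm_neg, nd]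
  have hc : ∀ k l, ‖c k * Tm^[k] P l - Tm^[k] P' l * c k‖ ≤ 8/10000 * (9/10) ^ k := by
    intro k l
    rcases cd k with e | e
    · rw [e]; exact hd k l
    · rw [e, neg_mul, mul_neg, neg_sub_neg, norm_sub_rev]; exact hd k l
  refine ⟨c, nc, hc, ?_⟩
  intro k
  have hc' : ∀ l, ‖c k * Tm^[k + 1] P l - Tm^[k + 1] P' l * c k‖ ≤ 5 * (8/10000 * (9/10) ^ k) := by
    intro l
    rw [Function.iterate_succ_apply', Function.iterate_succ_apply']
    exact tele_Tm (iter_unit h k) (iter_unit h' k) (hc k) l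
  obtain ⟨i1, -, -⟩ := Cl_traces h h' hb hb' (k + 1)
  have key := step_rigid (iter_unit h (k + 1)) i1 (nc k) (nd (k + 1)) hc' (hd (k + 1))
  have hpos : (0:ℝ) < (9/10) ^ k := by positivity
  have hs : 2 * (5 * (8/10000 * (9/10 : ℝ) ^ k) + 8/10000 * (9/10) ^ (k + 1)) ≤ 96/10000 * (9/10) ^ k := by
    rw [pow_succ]; linarith
  rw [cs]
  split_ifs with hif
  · exact hif
  · rcases key with key | key
    · exact absurd (le_trans key hs) hif
    · exact le_trans key hs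

theorem seq_Psi {P P' : Bool → ℍ[ℝ]} (h : ∀ l, ‖P l‖ = 1) (h' : ∀ l, ‖P' l‖ = 1)
    (hb : Box (tx P) (ty P) (tz P)) (hb' : Box (tx P') (ty P') (tz P')) :
    ∃ c : ℕ → ℍ[ℝ], (∀ k, ‖c k‖ = 1) ∧
      (∀ k l, ‖c k * Psi^[k] P l - Psi^[k] P' l * c k‖ ≤ 8/10000 * (9/10) ^ k) ∧
      ∀ k, ‖c (k + 1) - c k‖ ≤ 96/10000 * (9/10) ^ k := by
  obtain ⟨c, nc, hc, hd⟩ := seq_Tm h h' hb hb'
  refine ⟨c, nc, ?_, hd⟩
  intro k l
  have := hc k l
  rcases iter_sign k with e | e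
  · rw [e P, e P'] at this; exact this
  · rw [e P, e P', neg_mul, mul_neg, neg_sub_neg, norm_sub_rev] at this; exact this

end Pool.Agent.R294.COC
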