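import Mathlib
import Pool.Agent.R294.COC6

/-!
# The 5-adic odometer and the Toeplitz colouring
-/

open MeasureTheory Set Filter Topology

namespace Pool.Agent.R294.COC

noncomputable section

instance fact5 : Fact (Nat.Prime 5) := ⟨by norm_num⟩

/-- the Borel sets of the 5-adic integers -/
instance instMZ : MeasurableSpace ℤ_[5] := borel _
instance instBZ : BorelSpace ℤ_[5] := ⟨rfl⟩

/-- the Haar probability of the 5-adic integers -/
def haar : Measure ℤ_[5] := Measure.addHaarMeasure ⊤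

instance : IsProbabilityMeasure haar := ⟨by
  have := Measure.addHaarMeasure_self (K₀ := (⊤ : TopologicalSpace.PositiveCompacts ℤ_[5]))
  simpa [haar] using this⟩

instance : haar.IsAddHaarMeasure := by unfold haar; infer_instance

lemma erg_add : Ergodic (fun θ : ℤ_[5] => (1 : ℤ_[5]) + θ) haar := by
  have : DenseRange (fun n : ℤ => n • (1 : ℤ_[5])) := by
    have h := PadicInt.denseRange_intCast (p := 5)
    have e : (fun n : ℤ => n • (1 : ℤ_[5])) = (Int.cast : ℤ → ℤ_[5]) := by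
      funext n; simp
    rw [e]; exact h
  exact ergodic_add_left_of_denseRange_zsmul this haar

/-- the residue -/
def res (k : ℕ) (θ : ℤ_[5]) : ℕ := (PadicInt.toZModPow k θ).val

lemma res_lt (k : ℕ) (θ : ℤ_[5]) : res k θ < 5 ^ k := ZMod.val_lt _

lemma res_zero (θ : ℤ_[5]) : res 0 θ = 0 := by
  have := res_lt 0 θ
  simpa using this

lemma res_mod (k : ℕ) (θ : ℤ_[5]) : res (k + 1) θ % 5 ^ k = res k θ := by
  unfold res
  rw [← PadicInt.cast_toZModPow k (k + 1) (Nat.le_succ k) θ, ZMod.cast_eq_val, ZMod.val_natCast]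

/-- the digit -/
def dig (k : ℕ) (θ : ℤ_[5]) : ℕ := res (k + 1) θ / 5 ^ k

lemma res_succ (k : ℕ) (θ : ℤ_[5]) : res (k + 1) θ = 5 ^ k * dig k θ + res k θ := by
  have := Nat.div_add_mod (res (k + 1) θ) (5 ^ k)
  rw [res_mod] at this
  exact this.symm

lemma dig_lt (k : ℕ) (θ : ℤ_[5]) : dig k θ < 5 := by
  have := res_lt (k + 1) θ
  rw [dig, Nat.div_lt_iff_lt_mul (by positivity)]
  rw [pow_succ] at this
  linarith

lemma res_add (k : ℕ) (θ : ℤ_[5]) : res k (1 + θ) = (1 + res k θ) % 5 ^ k := by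
  unfold res
  rw [map_add, map_one, ZMod.val_add, ZMod.val_one_eq_one_mod, Nat.mod_add_mod]

lemma res_add_lt {k : ℕ} {θ : ℤ_[5]} (h : res k θ + 1 < 5 ^ k) : res k (1 + θ) = res k θ + 1 := by
  rw [res_add, Nat.mod_eq_of_lt (by omega)]; omega

lemma ne_top_succ {k : ℕ} {θ : ℤ_[5]} (h : res k θ + 1 < 5 ^ k) : res (k + 1) θ + 1 < 5 ^ (k + 1) := by
  have h1 := dig_lt k θ
  rw [res_succ, pow_succ]
  have : 5 ^ k * dig k θ ≤ 5 ^ k * 4 := Nat.mul_le_mul_left _ (by omega)
  omega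

lemma dig_add {k : ℕ} {θ : ℤ_[5]} (h : res k θ + 1 < 5 ^ k) : dig k (1 + θ) = dig k θ := by
  have h1 := res_add_lt (ne_top_succ h)
  rw [dig, h1, res_succ, add_assoc, Nat.mul_add_div (by positivity), Nat.div_eq_of_lt h, add_zero]

lemma ne_top_le {k j : ℕ} (hkj : k ≤ j) {θ : ℤ_[5]} (h : res k θ + 1 < 5 ^ k) :
    res j θ + 1 < 5 ^ j := by
  induction j, hkj using Nat.le_induction with
  | base => exact h
  | succ j _ ih => exact ne_top_succ ih

lemma ne_top_of_dig {i : ℕ} {θ : ℤ_[5]} (h : dig i θ = 2) : res (i + 1) θ + 1 < 5 ^ (i + 1) := by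
  have h1 := res_lt i θ
  rw [res_succ, pow_succ, h]
  omega

/-- infinitely many digits 2 -/
def Good : Set ℤ_[5] := {θ | ∀ k, ∃ i, k ≤ i ∧ dig i θ = 2}

lemma good_add {θ : ℤ_[5]} (h : θ ∈ Good) : 1 + θ ∈ Good := by
  intro k
  obtain ⟨i, hi, hd⟩ := h 0
  obtain ⟨j, hj, hd'⟩ := h (max k (i + 1))
  refine ⟨j, le_trans (le_max_left _ _) hj, ?_⟩
  rw [dig_add (ne_top_le (le_trans (le_max_right _ _) hj) (ne_top_of_dig hd)), hd']

/-- first index at least `k` with digit 2 -/
def fst (k : ℕ) (θ : ℤ_[5]) : ℕ := sInf {i | k ≤ i ∧ dig i θ = 2}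

/-- number of nonzero digits in `[k, m)` -/
def cnt (k m : ℕ) (θ : ℤ_[5]) : ℕ := ((Finset.Ico k m).filter (fun j => dig j θ ≠ 0)).card

/-- the colour of the `k`-th shift -/
def col (k : ℕ) (θ : ℤ_[5]) : Bool := decide (Even (cnt k (fst k θ) θ))

lemma col_rec {θ : ℤ_[5]} (h : θ ∈ Good) (k : ℕ) : col k θ = th (col (k + 1) θ) (dig k θ) := by
  by_cases h2 : dig k θ = 2
  · have h3 : fst k θ = k := by
      apply le_antisymm
      · exact Nat.sInf_le ⟨le_rfl, h2⟩
      · obtain ⟨i, hi⟩ := h k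
        exact (Nat.sInf_mem (s := {i | k ≤ i ∧ dig i θ = 2}) ⟨i, hi⟩).1
    rw [h2]
    simp [th, col, h3, cnt]
  · have h3 : {i | k ≤ i ∧ dig i θ = 2} = {i | k + 1 ≤ i ∧ dig i θ = 2} := by
      ext i
      simp only [mem_ofPred_eq]
      constructor
      · rintro ⟨a, b⟩
        refine ⟨?_, b⟩
        rcases Nat.lt_or_ge k i with c | c
        · exact c
        · have : i = k := le_antisymm c a
          rw [this] at b; exact absurd b h2
      · rintro ⟨a, b⟩
        exact ⟨by omega, b⟩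
    have h4 : fst k θ = fst (k + 1) θ := by rw [fst, fst, h3]
    have h5 : k + 1 ≤ fst (k + 1) θ := by
      obtain ⟨i, hi⟩ := h (k + 1)
      exact (Nat.sInf_mem (s := {i | k + 1 ≤ i ∧ dig i θ = 2}) ⟨i, hi⟩).1
    have h6 : Finset.Ico k (fst (k + 1) θ) = insert k (Finset.Ico (k + 1) (fst (k + 1) θ)) := by
      rw [Finset.insert_Ico_add_one_left_eq_Ico (by omega)]
    have h7 : cnt k (fst (k + 1) θ) θ = cnt (k + 1) (fst (k + 1) θ) θ + (if dig k θ = 0 then 0 else 1) := by
      unfold cnt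
      rw [h6, Finset.filter_insert]
      by_cases c1 : dig k θ = 0
      · rw [if_neg (by simpa using c1), if_pos c1, add_zero]
      · rw [if_pos c1, if_neg c1, Finset.card_insert_of_notMem (by simp)]
    unfold col
    rw [h4, h7]
    unfold th
    split_ifs with c1
    · simp
    · generalize cnt (k + 1) (fst (k + 1) θ) θ = m
      rw [← decide_not]
      exact decide_eq_decide.2 Nat.even_add_one

lemma col_add {k : ℕ} {θ : ℤ_[5]} (h : res k θ + 1 < 5 ^ k) : col k (1 + θ) = col k θ := by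
  have e : ∀ i, k ≤ i → dig i (1 + θ) = dig i θ := fun i hi => dig_add (ne_top_le hi h)
  have h1 : fst k (1 + θ) = fst k θ := by
    unfold fst
    congr 1
    ext i
    simp only [mem_ofPred_eq]
    constructor
    · rintro ⟨a, b⟩; exact ⟨a, by rw [← e i a]; exact b⟩
    · rintro ⟨a, b⟩; exact ⟨a, by rw [e i a]; exact b⟩
  unfold col
  rw [h1]
  have h2 : cnt k (fst k θ) (1 + θ) = cnt k (fst k θ) θ := by
    unfold cnt
    congr 1
    apply Finset.filter_congr
    intro j hj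
    rw [e j (Finset.mem_Ico.1 hj).1]
  rw [h2]

lemma measurable_class (k : ℕ) (x : ZMod (5 ^ k)) :
    MeasurableSet {θ : ℤ_[5] | PadicInt.toZModPow k θ = x} := by
  have h1 : {θ : ℤ_[5] | PadicInt.toZModPow k θ = x} =
      (fun θ : ℤ_[5] => θ - (x.val : ℤ_[5])) ⁻¹' {z | ‖z‖ ≤ (5 : ℝ) ^ (-(k : ℤ))} := by
    ext θ
    show PadicInt.toZModPow k θ = x ↔ ‖θ - (x.val : ℤ_[5])‖ ≤ (5 : ℝ) ^ (-(k : ℤ))
    have h2 := PadicInt.norm_le_pow_iff_mem_span_pow (p := 5) (θ - (x.val : ℤ_[5])) k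
    have h3 : (θ - (x.val : ℤ_[5])) ∈ RingHom.ker (PadicInt.toZModPow (p := 5) k) ↔
        PadicInt.toZModPow k θ = x := by
      rw [RingHom.mem_ker, map_sub, sub_eq_zero, map_natCast, ZMod.natCast_zmod_val]
    rw [PadicInt.ker_toZModPow] at h3
    rw [← h3, ← h2]
    simp
  rw [h1]
  apply IsClosed.measurableSet
  exact (isClosed_le continuous_norm continuous_const).preimage (by fun_prop)

lemma haar_class_eq (k : ℕ) (x : ZMod (5 ^ k)) :
    haar {θ : ℤ_[5] | PadicInt.toZModPow k θ = x} = haar {θ : ℤ_[5] | PadicInt.toZModPow k θ = 0} := by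
  have := measure_preimage_add haar (x.val : ℤ_[5]) {θ : ℤ_[5] | PadicInt.toZModPow k θ = x}
  rw [← this]
  congr 1
  ext θ
  show PadicInt.toZModPow k ((x.val : ℤ_[5]) + θ) = x ↔ PadicInt.toZModPow k θ = 0
  rw [map_add, map_natCast, ZMod.natCast_zmod_val]
  constructor
  · intro h; simpa using h
  · intro h; rw [h, add_zero]

lemma haar_class (k : ℕ) (x : ZMod (5 ^ k)) :
    haar {θ : ℤ_[5] | PadicInt.toZModPow k θ = x} = 1 / 5 ^ k := by
  have h1 : haar (⋃ y ∈ (Finset.univ : Finset (ZMod (5 ^ k))),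
      {θ : ℤ_[5] | PadicInt.toZModPow k θ = y}) =
      ∑ y : ZMod (5 ^ k), haar {θ : ℤ_[5] | PadicInt.toZModPow k θ = y} := by
    apply measure_biUnion_finset
    · intro y _ z _ hyz
      rw [Function.onFun, Set.disjoint_left]
      intro θ h1 h2
      exact hyz (h1.symm.trans h2)
    · intro y _
      exact measurable_class k y
  have h2 : (⋃ y ∈ (Finset.univ : Finset (ZMod (5 ^ k))),
      {θ : ℤ_[5] | PadicInt.toZModPow k θ = y}) = univ := by
    ext θ
    simp
  rw [h2, measure_univ, Finset.sum_congr rfl (fun y _ => haar_class_eq k y), Finset.sum_const,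
    Finset.card_univ, ZMod.card] at h1
  rw [haar_class_eq, ENNReal.eq_div_iff (by positivity) (by simp)]
  rw [nsmul_eq_mul] at h1
  push_cast at h1
  exact h1.symm

lemma haar_finset (k : ℕ) (A : Finset (ZMod (5 ^ k))) :
    haar {θ : ℤ_[5] | PadicInt.toZModPow k θ ∈ A} ≤ A.card / 5 ^ k := by
  have h1 : {θ : ℤ_[5] | PadicInt.toZModPow k θ ∈ A} ⊆
      ⋃ y ∈ A, {θ : ℤ_[5] | PadicInt.toZModPow k θ = y} := by
    intro θ hθ
    simp only [mem_iUnion]
    exact ⟨_, hθ, rfl⟩
  calc haar {θ : ℤ_[5] | PadicInt.toZModPow k θ ∈ A}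
      ≤ haar (⋃ y ∈ A, {θ : ℤ_[5] | PadicInt.toZModPow k θ = y}) := measure_mono h1
    _ ≤ ∑ y ∈ A, haar {θ : ℤ_[5] | PadicInt.toZModPow k θ = y} := measure_biUnion_finset_le _ _
    _ = A.card / 5 ^ k := by
      rw [Finset.sum_congr rfl (fun y _ => haar_class k y), Finset.sum_const, nsmul_eq_mul,
        mul_one_div]

lemma measurable_res (k : ℕ) : Measurable (res k) := by
  have h : Measurable (fun θ : ℤ_[5] => PadicInt.toZModPow k θ) := by
    apply measurable_to_countable'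
    intro x
    exact measurable_class k x
  exact (measurable_from_top (f := fun z : ZMod (5 ^ k) => z.val)).comp h

lemma measurable_dig (k : ℕ) : Measurable (dig k) :=
  (measurable_from_top (f := fun z : ℕ => z / 5 ^ k)).comp (measurable_res (k + 1))

lemma measurable_good : MeasurableSet Good := by
  have : Good = ⋂ k, ⋃ i, ⋃ (_ : k ≤ i), (dig i) ⁻¹' {2} := by
    ext θ
    simp [Good]
  rw [this]
  refine MeasurableSet.iInter fun k => MeasurableSet.iUnion fun i => MeasurableSet.iUnion fun _ => ?_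
  exact (measurable_dig i) (MeasurableSet.of_discrete)

lemma haar_dig (k : ℕ) : haar {θ : ℤ_[5] | dig k θ ≠ 2} ≤ 4 / 5 := by
  classical
  set A : Finset (ZMod (5 ^ (k + 1))) :=
    (Finset.range (2 * 5 ^ k) ∪ Finset.Ico (3 * 5 ^ k) (5 * 5 ^ k)).image
      (fun z : ℕ => (z : ZMod (5 ^ (k + 1)))) with hA
  have h1 : {θ : ℤ_[5] | dig k θ ≠ 2} ⊆ {θ : ℤ_[5] | PadicInt.toZModPow (k + 1) θ ∈ A} := by
    intro θ hθ
    have hθ' : dig k θ ≠ 2 := hθ
    show PadicInt.toZModPow (k + 1) θ ∈ A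
    rw [Finset.mem_image]
    refine ⟨res (k + 1) θ, ?_, ?_⟩
    · rw [Finset.mem_union, Finset.mem_range, Finset.mem_Ico, res_succ]
      have h2 := dig_lt k θ
      have h3 := res_lt k θ
      have h4 : dig k θ ≤ 1 ∨ 3 ≤ dig k θ := by omega
      rcases h4 with h4 | h4
      · left
        have : 5 ^ k * dig k θ ≤ 5 ^ k * 1 := Nat.mul_le_mul_left _ h4
        omega
      · right
        have h5 : 5 ^ k * dig k θ ≤ 5 ^ k * 4 := Nat.mul_le_mul_left _ (by omega)
        have h6 : 5 ^ k * 3 ≤ 5 ^ k * dig k θ := Nat.mul_le_mul_left _ h4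
        constructor <;> omega
    · unfold res
      rw [ZMod.natCast_zmod_val]
  refine (measure_mono h1).trans ((haar_finset (k + 1) A).trans ?_)
  have h2 : A.card ≤ 4 * 5 ^ k := by
    refine Finset.card_image_le.trans ((Finset.card_union_le _ _).trans ?_)
    rw [Finset.card_range, Nat.card_Ico]
    omega
  have h3 : (A.card : ENNReal) ≤ 4 * 5 ^ k := by exact_mod_cast h2
  calc (A.card : ENNReal) / 5 ^ (k + 1) ≤ (4 * 5 ^ k) / 5 ^ (k + 1) := ENNReal.div_le_div_right h3 _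
    _ = 4 / 5 := by
      rw [pow_succ, mul_comm 4, ENNReal.mul_div_mul_left _ _ (by positivity) (by simp)]

lemma haar_good : haar Goodᶜ ≤ 4 / 5 := by
  have h1 : Goodᶜ = ⋃ k, {θ : ℤ_[5] | ∀ i, k ≤ i → dig i θ ≠ 2} := by
    ext θ
    simp [Good]
  have hmono : Monotone (fun k => {θ : ℤ_[5] | ∀ i, k ≤ i → dig i θ ≠ 2}) := by
    intro a b hab θ hθ i hi
    exact hθ i (le_trans hab hi)
  rw [h1, hmono.measure_iUnion]
  apply iSup_le
  intro k
  refine le_trans (measure_mono ?_) (haar_dig k)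
  intro θ hθ
  exact hθ k le_rfl

lemma ae_good : ∀ᵐ θ ∂haar, θ ∈ Good := by
  have h1 := erg_add.ae_empty_or_univ_of_ae_le_preimage measurable_good.nullMeasurableSet
    (Filter.Eventually.of_forall (fun θ h => good_add h))
  rcases h1 with h1 | h1
  · exfalso
    have h2 : haar Good = 0 := by rw [measure_congr h1]; simp
    have h3 : haar Good + haar Goodᶜ = 1 := by
      rw [measure_add_measure_compl measurable_good, measure_univ]
    rw [h2, zero_add] at h3
    have h4 := haar_good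
    rw [h3] at h4
    rw [ENNReal.le_div_iff_mul_le (by simp) (by simp)] at h4
    norm_num at h4
  · exact mem_ae_iff.2 (ae_eq_univ.1 h1)

end

end Pool.Agent.R294.COC
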