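import Mathlib
import Pool.Agent.R294.COC7

/-!
# The transfer function
-/

open MeasureTheory Set Filter Topology Quaternion

namespace Pool.Agent.R294.COC

noncomputable section

/-- the letters of the `k`-th word -/
def wd : ℕ → Bool → ℕ → Bool
  | 0, l, _ => l
  | k + 1, l, m => wd k (th l (m / 5 ^ k)) (m % 5 ^ k)

/-- ordered products along a word, later letters on the left -/
def EE (P : Bool → ℍ[ℝ]) (w : ℕ → Bool) : ℕ → ℍ[ℝ]
  | 0 => 1
  | m + 1 => P (w m) * EE P w m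

lemma EE_congr {P : Bool → ℍ[ℝ]} {w w' : ℕ → Bool} {m : ℕ} (h : ∀ i < m, w i = w' i) :
    EE P w m = EE P w' m := by
  induction m with
  | zero => rfl
  | succ m ih =>
    show P (w m) * EE P w m = P (w' m) * EE P w' m
    rw [h m (Nat.lt_succ_self m), ih (fun i hi => h i (Nat.lt_succ_of_lt hi))]

lemma EE_add (P : Bool → ℍ[ℝ]) (w : ℕ → Bool) (a b : ℕ) :
    EE P w (a + b) = EE P (fun i => w (a + i)) b * EE P w a := by
  induction b with
  | zero => simp [EE]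
  | succ b ih =>
    show P (w (a + b)) * EE P w (a + b) = P (w (a + b)) * EE P (fun i => w (a + i)) b * EE P w a
    rw [ih, mul_assoc]

lemma EE_unit {P : Bool → ℍ[ℝ]} (h : ∀ l, ‖P l‖ = 1) (w : ℕ → Bool) (m : ℕ) : ‖EE P w m‖ = 1 := by
  induction m with
  | zero => simp [EE]
  | succ m ih =>
    show ‖P (w m) * EE P w m‖ = 1
    rw [norm_mul, h, ih, one_mul]

lemma wd_succ {k : ℕ} {l : Bool} {d i : ℕ} (hi : i < 5 ^ k) :
    wd (k + 1) l (5 ^ k * d + i) = wd k (th l d) i := by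
  show wd k (th l ((5 ^ k * d + i) / 5 ^ k)) ((5 ^ k * d + i) % 5 ^ k) = _
  rw [Nat.mul_add_div (by positivity), Nat.div_eq_of_lt hi, Nat.mul_add_mod, Nat.mod_eq_of_lt hi,
    add_zero]

lemma E_succ (P : Bool → ℍ[ℝ]) {k : ℕ} {l : Bool} {d m : ℕ} (hm : m ≤ 5 ^ k) :
    EE P (wd (k + 1) l) (5 ^ k * d + m) = EE P (wd k (th l d)) m * EE P (wd (k + 1) l) (5 ^ k * d) := by
  rw [EE_add]
  congr 1
  apply EE_congr
  intro i hi
  exact wd_succ (by omega)

lemma E_full (P : Bool → ℍ[ℝ]) (k : ℕ) (l : Bool) : EE P (wd k l) (5 ^ k) = Psi^[k] P l := by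
  induction k generalizing l with
  | zero => simp [EE, wd]
  | succ k ih =>
    have step : ∀ d, EE P (wd (k + 1) l) (5 ^ k * (d + 1))
        = Psi^[k] P (th l d) * EE P (wd (k + 1) l) (5 ^ k * d) := by
      intro d
      rw [mul_add, mul_one, E_succ P le_rfl, ih]
    rw [Function.iterate_succ_apply', Psi, pow_succ, show 5 ^ k * 5 = 5 ^ k * (4 + 1) from rfl, step 4,
      show 5 ^ k * 4 = 5 ^ k * (3 + 1) from rfl, step 3, show 5 ^ k * 3 = 5 ^ k * (2 + 1) from rfl,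
      step 2, show 5 ^ k * 2 = 5 ^ k * (1 + 1) from rfl, step 1,
      show 5 ^ k * 1 = 5 ^ k * (0 + 1) from rfl, step 0, mul_zero]
    show _ * (_ * (_ * (_ * (_ * 1)))) = _
    rw [mul_one]

lemma E_close {P P' : Bool → ℍ[ℝ]} (h : ∀ l, ‖P l‖ = 1) (h' : ∀ l, ‖P' l‖ = 1) {k : ℕ} {c : ℍ[ℝ]}
    {e : ℝ} (hc : ∀ l, ‖c * Psi^[k] P l - Psi^[k] P' l * c‖ ≤ e) (l : Bool) (d : ℕ) :
    ‖c * EE P (wd (k + 1) l) (5 ^ k * d) - EE P' (wd (k + 1) l) (5 ^ k * d) * c‖ ≤ d * e := by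
  induction d with
  | zero => simp [EE]
  | succ d ih =>
    rw [mul_add, mul_one, E_succ P le_rfl, E_succ P' le_rfl, E_full, E_full]
    refine le_trans (tele (EE_unit h _ _) (iterP_unit h' _ _) (hc _) ih) ?_
    push_cast
    linarith

lemma wd_col {θ : ℤ_[5]} (h : θ ∈ Good) (k : ℕ) : wd k (col k θ) (res k θ) = col 0 θ := by
  induction k with
  | zero => rfl
  | succ k ih =>
    rw [res_succ, wd_succ (res_lt k θ), ← col_rec h, ih]

/-- the approximate transfer functions -/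
def GG (P P' : Bool → ℍ[ℝ]) (c : ℕ → ℍ[ℝ]) (k : ℕ) (θ : ℤ_[5]) : ℍ[ℝ] :=
  EE P' (wd k (col k θ)) (res k θ) * c k * (EE P (wd k (col k θ)) (res k θ))⁻¹

lemma GG_unit {P P' : Bool → ℍ[ℝ]} {c : ℕ → ℍ[ℝ]} (h : ∀ l, ‖P l‖ = 1) (h' : ∀ l, ‖P' l‖ = 1)
    (nc : ∀ k, ‖c k‖ = 1) (k : ℕ) (θ : ℤ_[5]) : ‖GG P P' c k θ‖ = 1 := by
  rw [GG, norm_mul, norm_mul, norm_inv, EE_unit h, EE_unit h', nc]
  norm_num

lemma GG_add (P P' : Bool → ℍ[ℝ]) (c : ℕ → ℍ[ℝ]) {k : ℕ} {θ : ℤ_[5]} (hg : θ ∈ Good)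
    (hk : res k θ + 1 < 5 ^ k) :
    GG P P' c k (1 + θ) = P' (col 0 θ) * GG P P' c k θ * (P (col 0 θ))⁻¹ := by
  rw [GG, GG, col_add hk, res_add_lt hk]
  show (P' (wd k (col k θ) (res k θ)) * EE P' (wd k (col k θ)) (res k θ)) * c k *
    (P (wd k (col k θ) (res k θ)) * EE P (wd k (col k θ)) (res k θ))⁻¹ = _
  rw [wd_col hg, mul_inv_rev]
  simp only [mul_assoc]

lemma GG_step {P P' : Bool → ℍ[ℝ]} {c : ℕ → ℍ[ℝ]} (h : ∀ l, ‖P l‖ = 1) (h' : ∀ l, ‖P' l‖ = 1)
    (hc : ∀ k l, ‖c k * Psi^[k] P l - Psi^[k] P' l * c k‖ ≤ 8/10000 * (9/10) ^ k)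
    (hd : ∀ k, ‖c (k + 1) - c k‖ ≤ 96/10000 * (9/10) ^ k) {θ : ℤ_[5]} (hg : θ ∈ Good) (k : ℕ) :
    dist (GG P P' c k θ) (GG P P' c (k + 1) θ) ≤ 128/10000 * (9/10) ^ k := by
  have hr := res_lt k θ
  have e1 : ∀ R : Bool → ℍ[ℝ], EE R (wd (k + 1) (col (k + 1) θ)) (res (k + 1) θ)
      = EE R (wd k (col k θ)) (res k θ) * EE R (wd (k + 1) (col (k + 1) θ)) (5 ^ k * dig k θ) := by
    intro R
    rw [res_succ, E_succ R hr.le, ← col_rec hg]
  have hcl := E_close h h' (hc k) (col (k + 1) θ) (dig k θ)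
  unfold GG
  rw [e1 P, e1 P', dist_comm, dist_eq_norm]
  have u1 := EE_unit h (wd k (col k θ)) (res k θ)
  have u1' := EE_unit h' (wd k (col k θ)) (res k θ)
  have u2 := EE_unit h (wd (k + 1) (col (k + 1) θ)) (5 ^ k * dig k θ)
  have u2' := EE_unit h' (wd (k + 1) (col (k + 1) θ)) (5 ^ k * dig k θ)
  have hdig : (dig k θ : ℝ) ≤ 4 := by
    have := dig_lt k θ
    exact_mod_cast (by omega : dig k θ ≤ 4)
  generalize EE P (wd k (col k θ)) (res k θ) = A at *
  generalize EE P' (wd k (col k θ)) (res k θ) = A' at *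
  generalize EE P (wd (k + 1) (col (k + 1) θ)) (5 ^ k * dig k θ) = B at *
  generalize EE P' (wd (k + 1) (col (k + 1) θ)) (5 ^ k * dig k θ) = B' at *
  have B0 : B ≠ 0 := by rintro rfl; simp at u2
  have e2 : A' * B' * c (k + 1) * (A * B)⁻¹ - A' * c k * A⁻¹
      = A' * ((B' * (c (k + 1) - c k) - (c k * B - B' * c k)) * B⁻¹) * A⁻¹ := by
    have i2 : B * B⁻¹ = 1 := mul_inv_cancel₀ B0
    rw [mul_inv_rev]
    have : A' * ((B' * (c (k + 1) - c k) - (c k * B - B' * c k)) * B⁻¹) * A⁻¹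
      = A' * B' * c (k + 1) * B⁻¹ * A⁻¹ - A' * c k * (B * B⁻¹) * A⁻¹ := by noncomm_ring
    rw [this, i2]
    simp only [mul_assoc, one_mul]
  rw [e2, norm_mul, norm_mul, norm_mul, norm_inv, norm_inv, u1, u1', u2]
  have e3 : ‖B' * (c (k + 1) - c k) - (c k * B - B' * c k)‖
      ≤ 96/10000 * (9/10) ^ k + dig k θ * (8/10000 * (9/10) ^ k) := by
    refine le_trans (norm_sub_le _ _) ?_
    rw [norm_mul, u2', one_mul]
    exact add_le_add (hd k) hcl
  have e4 : (dig k θ : ℝ) * (8/10000 * (9/10) ^ k) ≤ 4 * (8/10000 * (9/10) ^ k) :=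
    mul_le_mul_of_nonneg_right hdig (by positivity)
  norm_num
  refine le_trans e3 ?_
  linarith

/-- the Borel sets of the quaternions -/
instance instMH : MeasurableSpace ℍ[ℝ] := borel _
instance instBH : BorelSpace ℍ[ℝ] := ⟨rfl⟩

lemma measurable_cnt (k m : ℕ) : Measurable (fun θ => cnt k m θ) := by
  have : (fun θ => cnt k m θ) = fun θ => ∑ j ∈ Finset.Ico k m, (if dig j θ = 0 then 0 else 1) := by
    funext θ
    unfold cnt
    rw [Finset.card_filter]
    apply Finset.sum_congr rfl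
    intro j _
    by_cases h : dig j θ = 0
    · rw [if_pos h, if_neg (by simpa using h)]
    · rw [if_neg h, if_pos h]
  rw [this]
  apply Finset.measurable_sum
  intro j _
  exact (measurable_from_top (f := fun z : ℕ => if z = 0 then 0 else 1)).comp (measurable_dig j)

lemma fst_le_iff {θ : ℤ_[5]} (k m : ℕ) : (fst k θ = m ∧ (∃ i, k ≤ i ∧ dig i θ = 2)) ↔
    (k ≤ m ∧ dig m θ = 2 ∧ ∀ j, k ≤ j → j < m → dig j θ ≠ 2) := by
  constructor
  · rintro ⟨rfl, hi⟩
    have h1 := Nat.sInf_mem (s := {i | k ≤ i ∧ dig i θ = 2}) hi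
    refine ⟨h1.1, h1.2, ?_⟩
    intro j hj hj2 hj3
    have : fst k θ ≤ j := Nat.sInf_le ⟨hj, hj3⟩
    omega
  · rintro ⟨h1, h2, h3⟩
    refine ⟨?_, m, h1, h2⟩
    apply le_antisymm
    · exact Nat.sInf_le ⟨h1, h2⟩
    · have h4 := Nat.sInf_mem (s := {i | k ≤ i ∧ dig i θ = 2}) ⟨m, h1, h2⟩
      by_contra h5
      exact h3 _ h4.1 (not_le.1 h5) h4.2

lemma measurable_fst (k : ℕ) : Measurable (fst k) := by
  have hex : MeasurableSet {θ : ℤ_[5] | ∃ i, k ≤ i ∧ dig i θ = 2} := by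
    have : {θ : ℤ_[5] | ∃ i, k ≤ i ∧ dig i θ = 2} = ⋃ i, ⋃ (_ : k ≤ i), (dig i) ⁻¹' {2} := by
      ext θ; simp
    rw [this]
    exact MeasurableSet.iUnion fun i => MeasurableSet.iUnion fun _ =>
      (measurable_dig i) (MeasurableSet.of_discrete)
  have h1 : ∀ m, MeasurableSet {θ : ℤ_[5] | k ≤ m ∧ dig m θ = 2 ∧ ∀ j, k ≤ j → j < m → dig j θ ≠ 2} := by
    intro m
    have : {θ : ℤ_[5] | k ≤ m ∧ dig m θ = 2 ∧ ∀ j, k ≤ j → j < m → dig j θ ≠ 2}
      = {θ : ℤ_[5] | k ≤ m} ∩ ((dig m) ⁻¹' {2} ∩ ⋂ j, ⋂ (_ : k ≤ j), ⋂ (_ : j < m), ((dig j) ⁻¹' {2})ᶜ) := by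
      ext θ; simp
    rw [this]
    refine (MeasurableSet.const _).inter (((measurable_dig m) (MeasurableSet.of_discrete)).inter ?_)
    exact MeasurableSet.iInter fun j => MeasurableSet.iInter fun _ => MeasurableSet.iInter fun _ =>
      ((measurable_dig j) (MeasurableSet.of_discrete)).compl
  apply measurable_to_countable'
  intro m
  have h2 : (fst k) ⁻¹' {m} = {θ : ℤ_[5] | k ≤ m ∧ dig m θ = 2 ∧ ∀ j, k ≤ j → j < m → dig j θ ≠ 2} ∪
      ({θ : ℤ_[5] | ∃ i, k ≤ i ∧ dig i θ = 2}ᶜ ∩ {θ : ℤ_[5] | m = 0}) := by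
    ext θ
    constructor
    · intro h
      have h : fst k θ = m := h
      by_cases he : ∃ i, k ≤ i ∧ dig i θ = 2
      · left
        exact (fst_le_iff k m).1 ⟨h, he⟩
      · right
        refine ⟨he, ?_⟩
        have : {i | k ≤ i ∧ dig i θ = 2} = ∅ := by
          ext i
          constructor
          · intro hi; exact absurd ⟨i, hi⟩ he
          · intro hi; exact absurd hi (by simp)
        show m = 0
        rw [← h, fst, this, Nat.sInf_empty]
    · rintro (h | ⟨h, h0⟩)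
      · exact ((fst_le_iff k m).2 h).1
      · have : {i | k ≤ i ∧ dig i θ = 2} = ∅ := by
          ext i
          constructor
          · intro hi; exact absurd ⟨i, hi⟩ h
          · intro hi; exact absurd hi (by simp)
        have h0 : m = 0 := h0
        show fst k θ = m
        rw [h0, fst, this, Nat.sInf_empty]
  rw [h2]
  exact (h1 m).union (hex.compl.inter (MeasurableSet.const _))

lemma measurable_col (k : ℕ) : Measurable (col k) := by
  apply measurable_to_bool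
  have : (col k) ⁻¹' {true} = ⋃ m, ((fst k) ⁻¹' {m} ∩ (fun θ => cnt k m θ) ⁻¹' {n | Even n}) := by
    ext θ
    simp [col]
  rw [this]
  exact MeasurableSet.iUnion fun m => ((measurable_fst k) (MeasurableSet.of_discrete)).inter
    ((measurable_cnt k m) (MeasurableSet.of_discrete))

lemma measurable_GG (P P' : Bool → ℍ[ℝ]) (c : ℕ → ℍ[ℝ]) (k : ℕ) : Measurable (GG P P' c k) := by
  have : GG P P' c k = (fun p : Bool × ℕ => EE P' (wd k p.1) p.2 * c k * (EE P (wd k p.1) p.2)⁻¹) ∘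
      (fun θ => (col k θ, res k θ)) := rfl
  rw [this]
  exact Measurable.of_discrete.comp ((measurable_col k).prodMk (measurable_res k))

theorem core {P P' : Bool → ℍ[ℝ]} (h : ∀ l, ‖P l‖ = 1) (h' : ∀ l, ‖P' l‖ = 1)
    (hb : Box (tx P) (ty P) (tz P)) (hb' : Box (tx P') (ty P') (tz P')) :
    ∃ F : ℤ_[5] → ℍ[ℝ], Measurable F ∧ (∀ θ, ‖F θ‖ = 1) ∧
      ∀ θ ∈ Good, F (1 + θ) = P' (col 0 θ) * F θ * (P (col 0 θ))⁻¹ := by
  classical
  obtain ⟨c, nc, hc, hd⟩ := seq_Psi h h' hb hb'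
  let u : ℕ → ℤ_[5] → ℍ[ℝ] := fun k θ => if θ ∈ Good then GG P P' c k θ else 1
  have hu : ∀ θ, ∃ y, Tendsto (fun k => u k θ) atTop (𝓝 y) := by
    intro θ
    by_cases hg : θ ∈ Good
    · have : CauchySeq (fun k => u k θ) := by
        apply cauchySeq_of_le_geometric (9/10) (128/10000) (by norm_num)
        intro k
        show dist (if θ ∈ Good then GG P P' c k θ else 1) (if θ ∈ Good then GG P P' c (k + 1) θ else 1) ≤ _
        rw [if_pos hg, if_pos hg]
        exact GG_step h h' hc hd hg k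
      exact cauchySeq_tendsto_of_complete this
    · refine ⟨1, ?_⟩
      have : (fun k => u k θ) = fun _ => 1 := by
        funext k
        show (if θ ∈ Good then GG P P' c k θ else 1) = 1
        rw [if_neg hg]
      rw [this]
      exact tendsto_const_nhds
  choose F hF using hu
  refine ⟨F, ?_, ?_, ?_⟩
  · apply measurable_of_tendsto_metrizable (f := u)
    · intro k
      exact Measurable.ite measurable_good (measurable_GG P P' c k) measurable_const
    · exact tendsto_pi_nhds.2 hF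
  · intro θ
    have h1 := (hF θ).norm
    have h2 : (fun k => ‖u k θ‖) = fun _ => (1:ℝ) := by
      funext k
      show ‖(if θ ∈ Good then GG P P' c k θ else 1)‖ = 1
      split_ifs
      · exact GG_unit h h' nc k θ
      · exact norm_one
    rw [h2] at h1
    exact tendsto_nhds_unique h1 tendsto_const_nhds |>.symm ▸ rfl
  · intro θ hg
    have h1 := hF (1 + θ)
    have h2 : Tendsto (fun k => P' (col 0 θ) * u k θ * (P (col 0 θ))⁻¹) atTop
        (𝓝 (P' (col 0 θ) * F θ * (P (col 0 θ))⁻¹)) := ((hF θ).const_mul _).mul_const _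
    refine tendsto_nhds_unique h1 (h2.congr' ?_)
    obtain ⟨i, -, hi⟩ := hg 0
    filter_upwards [eventually_ge_atTop (i + 1)] with k hk
    show P' (col 0 θ) * (if θ ∈ Good then GG P P' c k θ else 1) * (P (col 0 θ))⁻¹
      = (if 1 + θ ∈ Good then GG P P' c k (1 + θ) else 1)
    rw [if_pos hg, if_pos (good_add hg), GG_add P P' c hg (ne_top_le hk (ne_top_of_dig hi))]

end

end Pool.Agent.R294.COC
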