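import Mathlib
import Pool.Agent.R294.COC8

/-!
# The Lie group of unit quaternions and the open set of pairs
-/

open MeasureTheory Set Filter Topology Quaternion
open scoped Manifold ContDiff

namespace Pool.Agent.R294.COC

noncomputable section

/-- the group of unit quaternions -/
abbrev S3 : Type := Metric.sphere (0 : ℍ[ℝ]) 1

instance factFin : Fact (Module.finrank ℝ ℍ[ℝ] = 3 + 1) := ⟨Quaternion.finrank_eq_four⟩

/-- quaternionic conjugation -/
def starLin : ℍ[ℝ] →ₗ[ℝ] ℍ[ℝ] where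
  toFun := star
  map_add' := star_add
  map_smul' := fun r x => by ext <;> simp

instance lieS3 : LieGroup (𝓡 3) ω S3 where
  contMDiff_mul := by
    apply ContMDiff.codRestrict_sphere
    let c : S3 → ℍ[ℝ] := (↑)
    have h₂ : ContMDiff (𝓘(ℝ, ℍ[ℝ]).prod 𝓘(ℝ, ℍ[ℝ])) 𝓘(ℝ, ℍ[ℝ]) ω
        fun z : ℍ[ℝ] × ℍ[ℝ] => z.fst * z.snd := by
      rw [contMDiff_iff]
      exact ⟨continuous_mul, fun x y => contDiff_mul.contDiffOn⟩
    suffices h₁ : ContMDiff _ _ _ (Prod.map c c) from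
      h₂.comp h₁
    apply ContMDiff.prodMap <;> exact contMDiff_coe_sphere
  contMDiff_inv := by
    apply ContMDiff.codRestrict_sphere
    have e : (fun x : S3 => (x : ℍ[ℝ])⁻¹) = fun x : S3 => star (x : ℍ[ℝ]) := by
      funext x
      apply inv_eq_of_mul_eq_one_right
      have hx : ‖(x : ℍ[ℝ])‖ = 1 := mem_sphere_zero_iff_norm.1 x.2
      rw [Quaternion.self_mul_star, Quaternion.normSq_eq_norm_mul_self, hx]
      simp
    show ContMDiff (𝓡 3) 𝓘(ℝ, ℍ[ℝ]) ω (fun x : S3 => (x : ℍ[ℝ])⁻¹)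
    rw [e]
    exact (LinearMap.toContinuousLinearMap starLin).contDiff.contMDiff.comp contMDiff_coe_sphere

instance connS3 : ConnectedSpace S3 := by
  apply Subtype.connectedSpace
  apply isConnected_sphere _ _ zero_le_one
  rw [← Module.finrank_eq_rank, Quaternion.finrank_eq_four]
  norm_num

instance compS3 : CompactSpace S3 := inferInstance

/-- the set of pairs -/
def US : Set (Fin 2 → S3) :=
  {P | |2 * (P 0 : ℍ[ℝ]).re - 23863/50000| < 1/10000 ∧
    |(2 * (P 0 : ℍ[ℝ]).re - 23863/50000) + (2 * (P 1 : ℍ[ℝ]).re - 294963/1000000)| < 1/10000 ∧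
    |7 * (2 * (P 0 : ℍ[ℝ]).re - 23863/50000) + (2 * (P 1 : ℍ[ℝ]).re - 294963/1000000)
      + 3 * (2 * ((P 0 : ℍ[ℝ]) * (P 1 : ℍ[ℝ])).re - 309017/500000)| < 1/10000}

lemma isOpen_US : IsOpen US := by
  have c0 : Continuous fun P : Fin 2 → S3 => (P 0 : ℍ[ℝ]) := continuous_subtype_val.comp (continuous_apply 0)
  have c1 : Continuous fun P : Fin 2 → S3 => (P 1 : ℍ[ℝ]) := continuous_subtype_val.comp (continuous_apply 1)
  have d0 : Continuous fun P : Fin 2 → S3 => (P 0 : ℍ[ℝ]).re := Quaternion.continuous_re.comp c0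
  have d1 : Continuous fun P : Fin 2 → S3 => (P 1 : ℍ[ℝ]).re := Quaternion.continuous_re.comp c1
  have d2 : Continuous fun P : Fin 2 → S3 => ((P 0 : ℍ[ℝ]) * (P 1 : ℍ[ℝ])).re :=
    Quaternion.continuous_re.comp (c0.mul c1)
  have e : US = {P : Fin 2 → S3 | |2 * (P 0 : ℍ[ℝ]).re - 23863/50000| < 1/10000} ∩
    ({P : Fin 2 → S3 | |(2 * (P 0 : ℍ[ℝ]).re - 23863/50000) + (2 * (P 1 : ℍ[ℝ]).re - 294963/1000000)| < 1/10000}
    ∩ {P : Fin 2 → S3 | |7 * (2 * (P 0 : ℍ[ℝ]).re - 23863/50000) + (2 * (P 1 : ℍ[ℝ]).re - 294963/1000000)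
      + 3 * (2 * ((P 0 : ℍ[ℝ]) * (P 1 : ℍ[ℝ])).re - 309017/500000)| < 1/10000}) := rfl
  rw [e]
  refine (isOpen_lt ?_ continuous_const).inter ((isOpen_lt ?_ continuous_const).inter
    (isOpen_lt ?_ continuous_const)) <;> fun_prop

/-- a quaternion from coordinates -/
def mkq (a b c d : ℝ) : ℍ[ℝ] := ⟨a, b, c, d⟩

@[simp] lemma mkq_re (a b c d : ℝ) : (mkq a b c d).re = a := rfl
@[simp] lemma mkq_i (a b c d : ℝ) : (mkq a b c d).imI = b := rfl
@[simp] lemma mkq_j (a b c d : ℝ) : (mkq a b c d).imJ = c := rfl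
@[simp] lemma mkq_k (a b c d : ℝ) : (mkq a b c d).imK = d := rfl

lemma US_nonempty : US.Nonempty := by
  have h0 : Box (23863/50000) (294963/1000000) (309017/500000) := by
    refine ⟨?_, ?_, ?_⟩ <;> norm_num
  obtain ⟨p1, p2, p3⟩ := fs_bounds h0
  obtain ⟨q1, q2⟩ := f1_bounds h0
  obtain ⟨r1, r2, r3⟩ := f2_bounds h0
  generalize f2 (23863/50000) (294963/1000000) (309017/500000) = w at *
  generalize f1 (23863/50000) (294963/1000000) (309017/500000) = t at *
  generalize fs (23863/50000) = s at *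
  have ng : ‖mkq (23863/100000) s 0 0‖ = 1 := by
    apply norm_of
    rw [mkq_re, mkq_i, mkq_j, mkq_k, p1]; norm_num
  have nh : ‖mkq (294963/2000000) t w 0‖ = 1 := by
    apply norm_of
    rw [mkq_re, mkq_i, mkq_j, mkq_k, r1]; ring
  have e1 : (mkq (23863/100000) s 0 0 * mkq (294963/2000000) t w 0).re = 309017/1000000 := by
    rw [Quaternion.re_mul]
    simp only [mkq_re, mkq_i, mkq_j, mkq_k]
    linarith
  refine ⟨![⟨mkq (23863/100000) s 0 0, mem_sphere_zero_iff_norm.2 ng⟩,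
    ⟨mkq (294963/2000000) t w 0, mem_sphere_zero_iff_norm.2 nh⟩], ?_⟩
  refine ⟨?_, ?_, ?_⟩
  · show |2 * (23863/100000 : ℝ) - 23863/50000| < 1/10000
    norm_num
  · show |(2 * (23863/100000 : ℝ) - 23863/50000) + (2 * (294963/2000000) - 294963/1000000)| < 1/10000
    norm_num
  · show |7 * (2 * (23863/100000 : ℝ) - 23863/50000) + (2 * (294963/2000000) - 294963/1000000)
      + 3 * (2 * (mkq (23863/100000) s 0 0 * mkq (294963/2000000) t w 0).re - 309017/500000)| < 1/10000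
    rw [e1]
    norm_num

instance noAtomHaar : NullSingletonClass haar where
  measure_singleton := by
    intro x
    have h1 : ∀ k : ℕ, haar {x} ≤ (1/5 : ENNReal) ^ k := by
      intro k
      have h2 : ({x} : Set ℤ_[5]) ⊆ {θ : ℤ_[5] | PadicInt.toZModPow k θ = PadicInt.toZModPow k x} := by
        intro y hy
        have : y = x := hy
        rw [this]
        rfl
      refine (measure_mono h2).trans ?_
      rw [haar_class, div_eq_mul_inv, div_eq_mul_inv, one_mul, one_mul, ENNReal.inv_pow]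
    have h3 : Tendsto (fun k : ℕ => (1/5 : ENNReal) ^ k) atTop (𝓝 0) :=
      ENNReal.tendsto_pow_atTop_nhds_zero_of_lt_one (by
        rw [ENNReal.div_lt_iff (by simp) (by simp)]; norm_num)
    exact le_antisymm (ge_of_tendsto' h3 h1) (by simp)

/-- the colouring of the odometer -/
def colour (θ : ℤ_[5]) : Fin 2 := if col 0 θ = true then 0 else 1

lemma measurable_colour : Measurable colour :=
  (measurable_from_top (f := fun b : Bool => if b = true then (0 : Fin 2) else 1)).comp (measurable_col 0)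

theorem coh {P P' : Fin 2 → S3} (hP : P ∈ US) (hP' : P' ∈ US) :
    ∃ f : ℤ_[5] → S3, Measurable f ∧
      ∀ᵐ θ ∂haar, P' (colour θ) = f (1 + θ) * P (colour θ) * (f θ)⁻¹ := by
  let R : Bool → ℍ[ℝ] := fun l => P (if l = true then 0 else 1)
  let R' : Bool → ℍ[ℝ] := fun l => P' (if l = true then 0 else 1)
  have h : ∀ l, ‖R l‖ = 1 := fun l => mem_sphere_zero_iff_norm.1 (P (if l = true then 0 else 1)).2
  have h' : ∀ l, ‖R' l‖ = 1 := fun l => mem_sphere_zero_iff_norm.1 (P' (if l = true then 0 else 1)).2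
  have hb : Box (tx R) (ty R) (tz R) := ⟨hP.1.le, hP.2.1.le, hP.2.2.le⟩
  have hb' : Box (tx R') (ty R') (tz R') := ⟨hP'.1.le, hP'.2.1.le, hP'.2.2.le⟩
  obtain ⟨F, mF, nF, hF⟩ := core h h' hb hb'
  refine ⟨fun θ => ⟨F θ, mem_sphere_zero_iff_norm.2 (nF θ)⟩, mF.subtype_mk, ?_⟩
  filter_upwards [ae_good] with θ hg
  apply Subtype.ext
  rw [Metric.unitSphere.coe_mul, Metric.unitSphere.coe_mul, Metric.unitSphere.coe_inv]
  show R' (col 0 θ) = F (1 + θ) * R (col 0 θ) * (F θ)⁻¹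
  rw [hF θ hg]
  have i1 : R (col 0 θ) ≠ 0 := by
    intro h0; have := h (col 0 θ); rw [h0] at this; simp at this
  have i2 : F θ ≠ 0 := by
    intro h0; have := nF θ; rw [h0] at this; simp at this
  rw [mul_assoc _ (R (col 0 θ))⁻¹, inv_mul_cancel₀ i1, mul_one, mul_assoc, mul_inv_cancel₀ i2, mul_one]

end

end Pool.Agent.R294.COC
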