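import Mathlib

/-! # Cuntz comparison in a C*-algebra: elementary facts, in any universe -/

set_option autoImplicit false

noncomputable section

namespace Pool.Agent.R294.CSub

open scoped CStarAlgebra ComplexOrder

universe u v

/-- Cuntz subequivalence `a ≾ b` in `B`: there are `r n` with `r n * b * star (r n) → a`. -/
def CuntzLE {B : Type u} [CStarAlgebra B] (a b : B) : Prop :=
  ∀ ε : ℝ, 0 < ε → ∃ r : B, ‖r * b * star r - a‖ < ε

section basic

variable {B : Type u} [CStarAlgebra B]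

theorem cuntz_conj (r b : B) : CuntzLE (r * b * star r) b :=
  fun ε hε => ⟨r, by rw [sub_self, norm_zero]; exact hε⟩

theorem cuntz_trans {a b c : B} (h1 : CuntzLE a b) (h2 : CuntzLE b c) : CuntzLE a c := by
  intro ε hε
  obtain ⟨r, hr⟩ := h1 (ε / 2) (by positivity)
  obtain ⟨s, hs⟩ := h2 (ε / 2 / (‖r‖ * ‖r‖ + 1)) (by positivity)
  refine ⟨r * s, ?_⟩
  have e1 : r * s * c * star (r * s) - a
      = r * (s * c * star s - b) * star r + (r * b * star r - a) := by
    rw [star_mul, mul_sub, sub_mul]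
    simp only [mul_assoc]
    abel
  have e2 : ‖r * (s * c * star s - b) * star r‖ ≤ (‖r‖ * ‖r‖) * ‖s * c * star s - b‖ := by
    calc ‖r * (s * c * star s - b) * star r‖ ≤ ‖r * (s * c * star s - b)‖ * ‖star r‖ :=
          norm_mul_le _ _
      _ ≤ ‖r‖ * ‖s * c * star s - b‖ * ‖r‖ := by
          rw [norm_star]
          exact mul_le_mul_of_nonneg_right (norm_mul_le _ _) (norm_nonneg _)
      _ = (‖r‖ * ‖r‖) * ‖s * c * star s - b‖ := by ring
  have e3 : (‖r‖ * ‖r‖) * ‖s * c * star s - b‖ ≤ ε / 2 := by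
    have h3 : (‖r‖ * ‖r‖ + 1) * ‖s * c * star s - b‖ ≤ ε / 2 := by
      have := mul_le_mul_of_nonneg_left hs.le (show 0 ≤ ‖r‖ * ‖r‖ + 1 by positivity)
      rwa [mul_div_cancel₀ _ (show ‖r‖ * ‖r‖ + 1 ≠ 0 by positivity)] at this
    nlinarith [norm_nonneg (s * c * star s - b)]
  calc ‖r * s * c * star (r * s) - a‖ ≤ ‖r * (s * c * star s - b) * star r‖ +
        ‖r * b * star r - a‖ := by rw [e1]; exact norm_add_le _ _
    _ < ε := by linarith

theorem cuntz_map {C : Type v} [CStarAlgebra C] (f : B ≃⋆ₐ[ℂ] C) {a b : B} (h : CuntzLE a b) :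
    CuntzLE (f a) (f b) := by
  intro ε hε
  obtain ⟨r, hr⟩ := h ε hε
  refine ⟨f r, ?_⟩
  have h1 : ‖f (r * b * star r - a)‖ ≤ ‖r * b * star r - a‖ :=
    NonUnitalStarAlgHom.norm_apply_le (f : B →⋆ₐ[ℂ] C) _
  rw [map_sub, map_mul, map_mul, map_star] at h1
  exact lt_of_le_of_lt h1 hr

/-- `y ≤ z` implies `y ≾ z`. -/
theorem cuntz_of_le [PartialOrder B] [StarOrderedRing B] {y z : B} (hy : 0 ≤ y) (h : y ≤ z) :
    CuntzLE y z := by
  intro ε hε
  have hz : 0 ≤ z := hy.trans h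
  obtain ⟨δ, hδ⟩ : ∃ δ : ℝ, δ = ε / 2 := ⟨_, rfl⟩
  have hδ0 : 0 < δ := by rw [hδ]; positivity
  have hne : ∀ t : ℝ, 0 < |t| + δ := fun t => by positivity
  have hc1 : Continuous fun t : ℝ => 1 / Real.sqrt (|t| + δ) :=
    continuous_const.div (by fun_prop) fun t => (Real.sqrt_pos.2 (hne t)).ne'
  have hc2 : Continuous fun t : ℝ => Real.sqrt (δ / (|t| + δ)) :=
    Real.continuous_sqrt.comp (continuous_const.div (by fun_prop) fun t => (hne t).ne')
  have hysa : IsSelfAdjoint y := IsSelfAdjoint.of_nonneg hy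
  have hzsa : IsSelfAdjoint z := IsSelfAdjoint.of_nonneg hz
  obtain ⟨s, hs⟩ : ∃ s, s = cfc (fun t : ℝ => Real.sqrt t) y := ⟨_, rfl⟩
  have hss : star s = s := by
    rw [hs]; exact (cfc_predicate _ y : IsSelfAdjoint _).star_eq
  have hsy : s * s = y := by
    rw [hs, ← cfc_mul _ _ y (by fun_prop) (by fun_prop)]
    conv_rhs => rw [← cfc_id' ℝ y hysa]
    apply cfc_congr
    intro t ht
    exact Real.mul_self_sqrt (spectrum_nonneg_of_nonneg hy ht)
  obtain ⟨r, hr⟩ : ∃ r, r = cfc (fun t : ℝ => 1 / Real.sqrt (|t| + δ)) z := ⟨_, rfl⟩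
  obtain ⟨q, hq⟩ : ∃ q, q = cfc (fun t : ℝ => Real.sqrt (δ / (|t| + δ))) z := ⟨_, rfl⟩
  have hrs : star r = r := by rw [hr]; exact (cfc_predicate _ z : IsSelfAdjoint _).star_eq
  have hqs : star q = q := by rw [hq]; exact (cfc_predicate _ z : IsSelfAdjoint _).star_eq
  have conj_cfc : ∀ (f : ℝ → ℝ), Continuous f → cfc f z * z * cfc f z
      = cfc (fun t => f t * t * f t) z := by
    intro f hf
    conv_lhs => rw [show cfc f z * z * cfc f z = cfc f z * (cfc (fun t : ℝ => t) z) * cfc f z by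
      rw [cfc_id' ℝ z hzsa]]
    rw [← cfc_mul f (fun t => t) z (hf.continuousOn) (by fun_prop),
      ← cfc_mul (fun t => f t * t) f z ((hf.mul continuous_id').continuousOn) hf.continuousOn]
  have e1 : 1 - r * z * r = q * q := by
    rw [hr, conj_cfc _ hc1, hq, ← cfc_mul _ _ z hc2.continuousOn hc2.continuousOn,
      ← cfc_const_one ℝ z hzsa,
      ← cfc_sub (fun _ : ℝ => (1 : ℝ))
        (fun t : ℝ => 1 / Real.sqrt (|t| + δ) * t * (1 / Real.sqrt (|t| + δ))) z
        continuous_const.continuousOn ((hc1.mul continuous_id').mul hc1).continuousOn]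
    apply cfc_congr
    intro t ht
    have h0 := spectrum_nonneg_of_nonneg hz ht
    have hp := hne t
    simp only
    rw [Real.mul_self_sqrt (by positivity)]
    rw [abs_of_nonneg h0] at hp ⊢
    obtain ⟨s, hs, h3, hs0⟩ : ∃ s, s = Real.sqrt (t + δ) ∧ s * s = t + δ ∧ s ≠ 0 :=
      ⟨_, rfl, Real.mul_self_sqrt hp.le, (Real.sqrt_pos.2 hp).ne'⟩
    rw [← hs]
    have h4 : 1 / s * t * (1 / s) = t / (t + δ) := by
      rw [← h3]; field_simp
    rw [h4, eq_div_iff hp.ne', sub_mul, div_mul_cancel₀ _ hp.ne']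
    ring
  refine ⟨s * r, ?_⟩
  have e2 : s * r * z * star (s * r) - y = -(s * (q * q) * s) := by
    rw [star_mul, hss, hrs, ← e1, ← hsy, mul_sub, sub_mul, mul_one]
    simp only [mul_assoc]
    abel
  have e3 : ‖s * (q * q) * s‖ = ‖q * y * q‖ := by
    have h1 : s * (q * q) * s = (s * q) * star (s * q) := by
      rw [star_mul, hss, hqs]; simp only [mul_assoc]
    have h2 : q * y * q = star (s * q) * (s * q) := by
      rw [star_mul, hss, hqs, ← hsy]; simp only [mul_assoc]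
    rw [h1, h2, CStarRing.norm_star_mul_self, CStarRing.norm_self_mul_star]
  have e4 : q * y * q ≤ q * z * q := by
    have := star_left_conjugate_le_conjugate h q
    rwa [hqs] at this
  have e4' : 0 ≤ q * y * q := by
    have := star_left_conjugate_nonneg hy q
    rwa [hqs] at this
  have e5 : ‖q * z * q‖ ≤ δ := by
    rw [hq, conj_cfc _ hc2]
    apply norm_cfc_le hδ0.le
    intro t ht
    have h0 := spectrum_nonneg_of_nonneg hz ht
    have hp := hne t
    rw [Real.norm_eq_abs]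
    rw [abs_of_nonneg h0] at hp ⊢
    have h5 : Real.sqrt (δ / (t + δ)) * t * Real.sqrt (δ / (t + δ)) = δ / (t + δ) * t := by
      rw [mul_comm (Real.sqrt _) t, mul_assoc, Real.mul_self_sqrt (by positivity)]
      ring
    rw [h5, abs_of_nonneg (by positivity), div_mul_eq_mul_div, div_le_iff₀ hp]
    nlinarith
  rw [e2, norm_neg, e3]
  calc ‖q * y * q‖ ≤ ‖q * z * q‖ := CStarAlgebra.norm_le_norm_of_nonneg_of_le e4' e4
    _ ≤ δ := e5
    _ < ε := by rw [hδ]; linarith

end basic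

end Pool.Agent.R294.CSub
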