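import Pool.Agent.R294.CSub

/-! # Crossed products of `C(X, D)`: positive elements dominate functions on `X` -/

set_option autoImplicit false

noncomputable section

namespace Pool.Agent.R294.CSub

open scoped CStarAlgebra ComplexOrder

universe u v w t

/-- In a unital C*-algebra without nontrivial closed two-sided ideals every nonzero positive element
is full. -/
theorem exists_full {D : Type v} [CStarAlgebra D] [PartialOrder D] [StarOrderedRing D]
    (hD : ∀ I : TwoSidedIdeal D, IsClosed (I : Set D) → I = ⊥ ∨ I = ⊤) {b : D} (hb : 0 ≤ b)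
    (hb0 : b ≠ 0) : ∃ (n : ℕ) (w : Fin n ⊕ Fin n → D), 1 ≤ ∑ i, w i * b * star (w i) := by
  obtain ⟨S, hS⟩ : ∃ S : Set D, S = {x | ∃ (n : ℕ) (p q : Fin n → D), x = ∑ i, p i * b * q i} :=
    ⟨_, rfl⟩
  have S0 : (0 : D) ∈ S := by
    rw [hS]; exact ⟨0, fun i => 0, fun i => 0, by simp⟩
  have Sadd : ∀ x ∈ S, ∀ y ∈ S, x + y ∈ S := by
    rw [hS]
    rintro x ⟨n, p, q, rfl⟩ y ⟨m, p', q', rfl⟩
    refine ⟨n + m, Fin.append p p', Fin.append q q', ?_⟩
    rw [Fin.sum_univ_add]
    simp
  have Sneg : ∀ x ∈ S, -x ∈ S := by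
    rw [hS]
    rintro x ⟨n, p, q, rfl⟩
    exact ⟨n, fun i => -p i, q, by simp⟩
  have Sml : ∀ (c : D), ∀ x ∈ S, c * x ∈ S := by
    rw [hS]
    rintro c x ⟨n, p, q, rfl⟩
    exact ⟨n, fun i => c * p i, q, by simp [Finset.mul_sum, mul_assoc]⟩
  have Smr : ∀ (c : D), ∀ x ∈ S, x * c ∈ S := by
    rw [hS]
    rintro c x ⟨n, p, q, rfl⟩
    exact ⟨n, p, fun i => q i * c, by simp [Finset.sum_mul, mul_assoc]⟩
  have bS : b ∈ S := by
    rw [hS]; exact ⟨1, fun _ => 1, fun _ => 1, by simp⟩
  obtain ⟨I, hI⟩ : ∃ I : TwoSidedIdeal D, I = TwoSidedIdeal.mk' (closure S) (subset_closure S0)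
      (fun {x y} hx hy => map_mem_closure₂ continuous_add hx hy Sadd)
      (fun {x} hx => map_mem_closure continuous_neg hx Sneg)
      (fun {x y} hy => map_mem_closure (f := fun z => x * z) (by fun_prop) hy (Sml x))
      (fun {x y} hx => map_mem_closure (f := fun z => z * y) (by fun_prop) hx (Smr y)) := ⟨_, rfl⟩
  have hmem : ∀ x, x ∈ I ↔ x ∈ closure S := by
    intro x
    rw [hI, TwoSidedIdeal.mem_mk']
  have hcl : IsClosed (I : Set D) := by
    have : (I : Set D) = closure S := Set.ext hmem
    rw [this]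
    exact isClosed_closure
  have h1 : (1 : D) ∈ closure S := by
    rcases hD I hcl with h | h
    · exfalso
      have : b ∈ I := (hmem b).2 (subset_closure bS)
      rw [h, TwoSidedIdeal.mem_bot] at this
      exact hb0 this
    · rw [← hmem, h]
      trivial
  rw [Metric.mem_closure_iff] at h1
  obtain ⟨x, hx, hx1⟩ := h1 (1 / 2) (by norm_num)
  rw [hS] at hx
  obtain ⟨n, p, q, rfl⟩ := hx
  refine ⟨n, Sum.elim p (fun i => star (q i)), ?_⟩
  rw [Fintype.sum_sum_type, ← Finset.sum_add_distrib]
  simp only [Sum.elim_inl, Sum.elim_inr, star_star]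
  have hbs : star b = b := (IsSelfAdjoint.of_nonneg hb).star_eq
  obtain ⟨x, hx⟩ : ∃ x, x = ∑ i, p i * b * q i := ⟨_, rfl⟩
  have h2 : x + star x ≤ ∑ i, (p i * b * star (p i) + star (q i) * b * q i) := by
    rw [hx, star_sum, ← Finset.sum_add_distrib]
    apply Finset.sum_le_sum
    intro i _
    have h3 : 0 ≤ (p i - star (q i)) * b * star (p i - star (q i)) :=
      star_right_conjugate_nonneg hb _
    have h4 : (p i - star (q i)) * b * star (p i - star (q i))
        = (p i * b * star (p i) + star (q i) * b * q i)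
          - (p i * b * q i + star (p i * b * q i)) := by
      rw [star_sub, star_star, star_mul, star_mul, hbs]
      noncomm_ring
    rw [h4, sub_nonneg] at h3
    exact h3
  refine le_trans ?_ h2
  rw [← hx, dist_eq_norm] at hx1
  have h5 : ‖(1 - x) + star (1 - x)‖ ≤ 1 := by
    calc ‖(1 - x) + star (1 - x)‖ ≤ ‖1 - x‖ + ‖star (1 - x)‖ := norm_add_le _ _
      _ ≤ 1 := by rw [norm_star]; linarith
  have h6 : (1 - x) + star (1 - x) ≤ 1 := by
    have hsa : IsSelfAdjoint ((1 - x) + star (1 - x)) := IsSelfAdjoint.add_star_self _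
    have h7 := hsa.le_algebraMap_norm_self
    refine h7.trans ((algebraMap_mono D h5).trans ?_)
    rw [map_one]
  have h8 : (1 - x) + star (1 - x) = 1 + 1 - (x + star x) := by
    rw [star_sub, star_one]; abel
  rw [h8] at h6
  have h9 : 1 + 1 ≤ 1 + (x + star x) := by
    have h10 := sub_nonneg.2 h6
    rw [← sub_nonneg]
    have e : 1 + (x + star x) - (1 + 1) = 1 - (1 + 1 - (x + star x)) := by abel
    rw [e]
    exact h10
  exact le_of_add_le_add_left h9

/-- If the infinite compact Hausdorff space `X` carries a minimal action, then orbits meet every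
nonempty open set in infinitely many points. -/
theorem infinite_orbit {X : Type u} {G : Type w} [TopologicalSpace X] [CompactSpace X] [T2Space X]
    [Group G] [MulAction G X] [ContinuousConstSMul G X] [MulAction.IsMinimal G X] [Infinite X]
    (x : X) {U : Set X} (hU : IsOpen U) (hne : U.Nonempty) : (MulAction.orbit G x ∩ U).Infinite := by
  intro hfin
  have hd : Dense (MulAction.orbit G x) := MulAction.dense_orbit G x
  have h1 : U ⊆ MulAction.orbit G x ∩ U := by
    by_contra hcon
    have h2 : IsOpen (U \ (MulAction.orbit G x ∩ U)) := hU.sdiff hfin.isClosed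
    have h3 : (U \ (MulAction.orbit G x ∩ U)).Nonempty := by
      rw [Set.sdiff_nonempty]; exact hcon
    obtain ⟨y, hy1, hy2⟩ := hd.inter_open_nonempty _ h2 h3
    exact hy1.2 ⟨hy2, hy1.1⟩
  have hUf : U.Finite := hfin.subset h1
  obtain ⟨y, hy⟩ := hne
  have hyo : IsOpen ({y} : Set X) := by
    have h2 : ({y} : Set X) = U \ (U \ {y}) := by
      rw [Set.sdiff_sdiff_cancel_left (by simpa using hy)]
    rw [h2]
    exact hU.sdiff (hUf.subset Set.sdiff_subset).isClosed
  have hall : ∀ z : X, IsOpen ({z} : Set X) := by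
    intro z
    obtain ⟨v, hv1, hv2⟩ := (MulAction.dense_orbit G z).inter_open_nonempty _ hyo ⟨y, rfl⟩
    obtain ⟨g, hg⟩ := hv2
    have hv : v = y := hv1
    have h3 : ({z} : Set X) = (fun s => g • s) ⁻¹' {y} := by
      ext s
      simp only [Set.mem_singleton_iff, Set.mem_preimage]
      constructor
      · rintro rfl
        rw [← hv, ← hg]
      · intro hs
        have : g • s = g • z := by rw [hs, ← hv, ← hg]
        exact smul_left_cancel g this
    rw [h3]
    exact hyo.preimage (continuous_const_smul g)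
  have : DiscreteTopology X := discreteTopology_iff_isOpen_singleton.2 hall
  exact (finite_of_compact_of_discrete : Finite X).false

end Pool.Agent.R294.CSub
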