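import Pool.Agent.R294.CSub2

/-! # Crossed products of `C(X, D)`: positive elements dominate functions on `X`, main proof -/

set_option autoImplicit false

noncomputable section

namespace Pool.Agent.R294.CSub

open scoped CStarAlgebra ComplexOrder

universe u v w t

section fibre

variable {D : Type v} [CStarAlgebra D] [PartialOrder D] [StarOrderedRing D]

/-- The cut-down of `a0` by `δ`: a nonzero positive `d`, and `e` with `d ≤ e * a * star e` as soon as
`‖a - a0‖ ≤ δ`. -/
theorem exists_cut {a0 : D} (ha0 : 0 ≤ a0) {δ : ℝ} (hδ : 0 < δ) (hδ' : δ < ‖a0‖) :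
    ∃ d e : D, 0 ≤ d ∧ d ≠ 0 ∧ ∀ a : D, 0 ≤ a → ‖a - a0‖ ≤ δ → d ≤ e * a * star e := by
  have hsa : IsSelfAdjoint a0 := IsSelfAdjoint.of_nonneg ha0
  have : Nontrivial D := ⟨⟨a0, 0, fun h => by rw [h, norm_zero] at hδ'; linarith⟩⟩
  obtain ⟨e, he⟩ : ∃ e, e = cfc (fun t : ℝ => max (t - δ) 0) a0 := ⟨_, rfl⟩
  obtain ⟨d, hd⟩ : ∃ d, d = cfc (fun t : ℝ => max (t - δ) 0 * (t - δ) * max (t - δ) 0) a0 :=
    ⟨_, rfl⟩
  have hes : star e = e := by rw [he]; exact (cfc_predicate _ a0 : IsSelfAdjoint _).star_eq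
  have hde : d = e * (a0 - algebraMap ℝ D δ) * e := by
    have h1 : a0 - algebraMap ℝ D δ = cfc (fun t : ℝ => t - δ) a0 := by
      rw [cfc_sub (fun t : ℝ => t) (fun _ => δ) a0 (by fun_prop) (by fun_prop), cfc_id' ℝ a0 hsa,
        cfc_const δ a0 hsa]
    rw [hd, h1, he, ← cfc_mul _ _ a0 (by fun_prop) (by fun_prop),
      ← cfc_mul _ _ a0 (by fun_prop) (by fun_prop)]
  refine ⟨d, e, ?_, ?_, ?_⟩
  · rw [hd]
    apply cfc_nonneg
    intro t _
    rcases le_total (t - δ) 0 with h | h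
    · rw [max_eq_right h]; simp
    · rw [max_eq_left h]; positivity
  · intro h0
    have h1 := norm_apply_le_norm_cfc (fun t : ℝ => max (t - δ) 0 * (t - δ) * max (t - δ) 0) a0
      (CStarAlgebra.norm_mem_spectrum_of_nonneg ha0) (by fun_prop) hsa
    rw [← hd, h0, norm_zero] at h1
    have h2 : 0 < ‖a0‖ - δ := by linarith
    rw [max_eq_left h2.le] at h1
    have h3 : 0 < (‖a0‖ - δ) * (‖a0‖ - δ) * (‖a0‖ - δ) := by positivity
    rw [Real.norm_of_nonneg h3.le] at h1
    linarith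
  · intro a ha hn
    have h1 : a0 - algebraMap ℝ D δ ≤ a := by
      have h2 : IsSelfAdjoint (a0 - a) := hsa.sub (IsSelfAdjoint.of_nonneg ha)
      have h3 := h2.le_algebraMap_norm_self.trans
        (algebraMap_mono D (by rw [norm_sub_rev]; exact hn : ‖a0 - a‖ ≤ δ))
      rw [sub_le_comm]
      exact h3
    rw [hes, hde]
    have := star_left_conjugate_le_conjugate h1 e
    rwa [hes] at this

end fibre

section space

variable {X : Type u} {D : Type v} [TopologicalSpace X] [CStarAlgebra D]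

/-- The element `f ⊗ 1` of `C(X, D)`: the function `x ↦ f x • 1`. -/
def scal (f : C(X, ℝ)) : C(X, D) := ⟨fun x => f x • (1 : D), by fun_prop⟩

@[simp] theorem scal_apply (f : C(X, ℝ)) (x : X) : (scal f : C(X, D)) x = f x • (1 : D) := rfl

/-- If `k ≥ c` on the support of `φ`, then `φ k φ - c φ²` is of the form `star e * e`. -/
theorem exists_root [PartialOrder D] [StarOrderedRing D] (φ : C(X, ℝ)) (k : C(X, D)) (c : ℝ)
    (hk : IsSelfAdjoint k) (h : ∀ x, φ x ≠ 0 → algebraMap ℝ D c ≤ k x) :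
    ∃ e : C(X, D), scal φ * k * scal φ - scal (c • (φ * φ)) = star e * e := by
  obtain ⟨p, hp⟩ : ∃ p : X → D, p = fun x => k x - algebraMap ℝ D c := ⟨_, rfl⟩
  have hps : ∀ x, IsSelfAdjoint (p x) := by
    intro x
    have h1 : star (k x) = k x := congrArg (fun f : C(X, D) => f x) hk.star_eq
    have h2 : IsSelfAdjoint (k x) := h1
    rw [hp]
    exact h2.sub (IsSelfAdjoint.algebraMap _ (IsSelfAdjoint.all c))
  have hpc : Continuous p := by
    rw [hp]
    fun_prop
  obtain ⟨q, hq⟩ : ∃ q : C(X, D), q = ⟨fun x => cfc (fun t : ℝ => Real.sqrt t) (p x),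
      Continuous.cfc_of_mem_nhdsSet (s := Set.univ) _ Filter.univ_mem hpc hps
        (by fun_prop)⟩ := ⟨_, rfl⟩
  have hqx : ∀ x, q x = cfc (fun t : ℝ => Real.sqrt t) (p x) := by
    intro x
    rw [hq]
    rfl
  have hqs : ∀ x, star (q x) = q x := by
    intro x
    rw [hqx]
    exact (cfc_predicate _ (p x) : IsSelfAdjoint _).star_eq
  refine ⟨q * scal φ, ?_⟩
  ext x
  have hs : star (q x) = q x := hqs x
  simp only [ContinuousMap.sub_apply, ContinuousMap.mul_apply, scal_apply, ContinuousMap.star_apply,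
    star_mul, hs, star_smul, star_trivial, star_one, ContinuousMap.smul_apply, smul_mul_assoc,
    one_mul, mul_smul_comm, mul_one, smul_smul, smul_eq_mul]
  by_cases hφ : φ x = 0
  · simp [hφ]
  · have h1 : 0 ≤ p x := by rw [hp]; exact sub_nonneg.2 (h x hφ)
    have h2 : q x * q x = p x := by
      rw [hqx, ← cfc_mul _ _ _ (by fun_prop) (by fun_prop)]
      conv_rhs => rw [← cfc_id' ℝ (p x) (IsSelfAdjoint.of_nonneg h1)]
      apply cfc_congr
      intro t ht
      exact Real.mul_self_sqrt (spectrum_nonneg_of_nonneg h1 ht)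
    rw [h2, hp, Algebra.algebraMap_eq_smul_one, smul_sub, smul_smul]
    congr 2
    ring

end space

end Pool.Agent.R294.CSub
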