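import Pool.Agent.R294.CSub3

/-! # Crossed products of `C(X, D)`: positive elements dominate functions on `X`, main proof -/

set_option autoImplicit false

noncomputable section

namespace Pool.Agent.R294.CSub

open scoped CStarAlgebra ComplexOrder

universe u v w t

variable {X : Type u} {D : Type v} {G : Type w} {B : Type t} [TopologicalSpace X] [CompactSpace X]
  [T2Space X] [CStarAlgebra D] [PartialOrder D] [StarOrderedRing D] [Group G] [MulAction G X]
  [ContinuousConstSMul G X] [CStarAlgebra B]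

/-- Main theorem, with the fibre automorphisms `β`. -/
theorem main [MulAction.IsMinimal G X] [Infinite X]
    (hD : ∀ I : TwoSidedIdeal D, IsClosed (I : Set D) → I = ⊥ ∨ I = ⊤)
    (α : G →* (C(X, D) ≃⋆ₐ[ℂ] C(X, D))) (β : G → X → (D ≃⋆ₐ[ℂ] D))
    (hα : ∀ g a x, α g a x = β g x (a (g⁻¹ • x)))
    (hβ : ∀ d : D, 0 ≤ d → d ≠ 0 → ∃ b : D, 0 ≤ b ∧ b ≠ 0 ∧ ∀ g x, CuntzLE b (β g x d))
    (ι : C(X, D) →⋆ₐ[ℂ] B) (u : G →* unitary B)
    (hcov : ∀ g a, (u g : B) * ι a * star (u g : B) = ι (α g a))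
    (a : C(X, D)) (ha : ∀ x, 0 ≤ a x) (ha0 : a ≠ 0) :
    ∃ f : C(X, ℝ), (∀ x, 0 ≤ f x) ∧ f ≠ 0 ∧ CuntzLE (ι (scal f)) (ι a) := by
  obtain ⟨x₁, hx₁⟩ : ∃ x, a x ≠ 0 := by
    by_contra hcon
    push Not at hcon
    exact ha0 (ContinuousMap.ext hcon)
  obtain ⟨δ, hδ⟩ : ∃ δ : ℝ, δ = ‖a x₁‖ / 2 := ⟨_, rfl⟩
  have hnorm : 0 < ‖a x₁‖ := norm_pos_iff.2 hx₁
  have hδ0 : 0 < δ := by rw [hδ]; positivity
  obtain ⟨d, e, hd, hd0, hde⟩ := exists_cut (ha x₁) hδ0 (by rw [hδ]; linarith)
  obtain ⟨b, hb, hb0, hbβ⟩ := hβ d hd hd0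
  obtain ⟨n, w, hw⟩ := exists_full hD hb hb0
  obtain ⟨U, hU⟩ : ∃ U : Set X, U = {x | ‖a x - a x₁‖ < δ} := ⟨_, rfl⟩
  have hUo : IsOpen U := by
    rw [hU]
    exact isOpen_lt (by fun_prop) continuous_const
  have hUne : U.Nonempty := ⟨x₁, by rw [hU]; simpa using hδ0⟩
  have hinf := infinite_orbit (G := G) x₁ hUo hUne
  obtain ⟨y, hyinj, hy⟩ : ∃ y : Fin n ⊕ Fin n → X, Function.Injective y ∧
      ∀ i, y i ∈ MulAction.orbit G x₁ ∩ U := by
    have hI : Infinite ↥(MulAction.orbit G x₁ ∩ U) := hinf.to_subtype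
    obtain ⟨k⟩ : Nonempty ((Fin n ⊕ Fin n) ↪ ↥(MulAction.orbit G x₁ ∩ U)) := by
      exact ⟨(Fintype.equivFin _).toEmbedding.trans
        ((Fin.valEmbedding).trans (Infinite.natEmbedding _))⟩
    exact ⟨fun i => k i, fun i j h => k.injective (Subtype.ext h), fun i => (k i).2⟩
  have hg : ∀ i, ∃ g : G, g⁻¹ • x₁ = y i := by
    intro i
    obtain ⟨g, hg⟩ := (hy i).1
    exact ⟨g⁻¹, by simpa using hg⟩
  choose g hg using hg
  -- the elements `v i`
  obtain ⟨s, hs⟩ : ∃ s : ℝ, s = 1 / (2 * ((Fintype.card (Fin n ⊕ Fin n) : ℝ) + 1)) := ⟨_, rfl⟩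
  have hs0 : 0 < s := by rw [hs]; positivity
  have hv : ∀ i, ∃ v : D, ‖v * (α (g i) a x₁) * star v - w i * b * star (w i)‖ < s := by
    intro i
    have h1 : d ≤ e * a (y i) * star e := by
      apply hde _ (ha _)
      have := (hy i).2
      rw [hU] at this
      exact le_of_lt this
    have h2 : CuntzLE d (a (y i)) := cuntz_trans (cuntz_of_le hd h1) (cuntz_conj _ _)
    have h3 : CuntzLE (β (g i) x₁ d) (β (g i) x₁ (a (y i))) := cuntz_map _ h2
    have h4 : CuntzLE (w i * b * star (w i)) (α (g i) a x₁) := by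
      rw [hα, hg]
      exact cuntz_trans (cuntz_conj _ _) (cuntz_trans (hbβ _ _) h3)
    exact h4 s hs0
  choose v hv using hv
  obtain ⟨k, hk⟩ : ∃ k : C(X, D), k = ∑ i, (ContinuousMap.const X (v i)) * (α (g i) a) *
      star (ContinuousMap.const X (v i)) := ⟨_, rfl⟩
  have hasa : IsSelfAdjoint a := by
    change star a = a
    ext x
    exact (IsSelfAdjoint.of_nonneg (ha x)).star_eq
  have hksa : IsSelfAdjoint k := by
    rw [hk]
    exact isSelfAdjoint_sum _ fun i _ => (hasa.map (α (g i))).conjugate _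
  have hkx : ∀ x, k x = ∑ i, v i * (α (g i) a x) * star (v i) := by
    intro x
    rw [hk, ContinuousMap.sum_apply]
    rfl
  have hkn : ‖k x₁ - ∑ i, w i * b * star (w i)‖ ≤ 1 / 2 := by
    rw [hkx, ← Finset.sum_sub_distrib]
    calc ‖∑ i, (v i * (α (g i) a x₁) * star (v i) - w i * b * star (w i))‖
        ≤ ∑ i : Fin n ⊕ Fin n, s := norm_sum_le_of_le _ fun i _ => (hv i).le
      _ = (Fintype.card (Fin n ⊕ Fin n) : ℝ) * s := by
          rw [Finset.sum_const, Finset.card_univ, nsmul_eq_mul]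
      _ ≤ 1 / 2 := by
          rw [hs, mul_one_div, div_le_iff₀ (by positivity)]
          have : (0 : ℝ) ≤ Fintype.card (Fin n ⊕ Fin n) := by positivity
          linarith
  -- a lower bound for `k` near `x₁`
  have hlow : ∀ x, ‖k x - k x₁‖ < 1 / 4 → algebraMap ℝ D (1 / 4) ≤ k x := by
    intro x hx
    have h1 : ‖∑ i, w i * b * star (w i) - k x‖ ≤ 3 / 4 := by
      have h2 : ∑ i, w i * b * star (w i) - k x
          = (∑ i, w i * b * star (w i) - k x₁) + (k x₁ - k x) := by abel
      rw [h2]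
      calc _ ≤ ‖∑ i, w i * b * star (w i) - k x₁‖ + ‖k x₁ - k x‖ := norm_add_le _ _
        _ ≤ 1 / 2 + 1 / 4 := by
            rw [norm_sub_rev] at hkn hx
            linarith
        _ = 3 / 4 := by norm_num
    have h2 : IsSelfAdjoint (∑ i, w i * b * star (w i) - k x) := by
      apply IsSelfAdjoint.sub
      · exact isSelfAdjoint_sum _ fun i _ => (IsSelfAdjoint.of_nonneg hb).conjugate _
      · have h1 : star (k x) = k x := congrArg (fun f : C(X, D) => f x) hksa.star_eq
        exact h1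
    have h3 := h2.le_algebraMap_norm_self.trans (algebraMap_mono D h1)
    have h4 : (1 : D) - algebraMap ℝ D (3 / 4) ≤ k x := by
      rw [sub_le_comm] at h3
      exact le_trans (sub_le_sub_right hw _) h3
    have h5 : (1 : D) - algebraMap ℝ D (3 / 4) = algebraMap ℝ D (1 / 4) := by
      rw [← map_one (algebraMap ℝ D), ← map_sub]
      norm_num
    rwa [h5] at h4
  -- the neighbourhood `V`
  obtain ⟨W, hW, hWd⟩ := (Set.finite_range y).t2_separation
  obtain ⟨V, hV⟩ : ∃ V : Set X, V = {x | ‖k x - k x₁‖ < 1 / 4} ∩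
      ⋂ i, {x | (g i)⁻¹ • x ∈ W (y i)} := ⟨_, rfl⟩
  have hVo : IsOpen V := by
    rw [hV]
    refine (isOpen_lt (by fun_prop) continuous_const).inter (isOpen_iInter_of_finite fun i => ?_)
    exact (hW (y i)).2.preimage (continuous_const_smul _)
  have hxV : x₁ ∈ V := by
    rw [hV]
    refine ⟨by simp, Set.mem_iInter.2 fun i => ?_⟩
    have : (g i)⁻¹ • x₁ ∈ W (y i) := by rw [hg]; exact (hW _).1
    exact this
  obtain ⟨φ, hφ0, hφ1, -⟩ := exists_continuous_zero_one_of_isClosed hVo.isClosed_compl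
    (isClosed_singleton (x := x₁)) (by
      rw [Set.disjoint_singleton_right]
      exact fun h => h hxV)
  have hφV : ∀ x, φ x ≠ 0 → x ∈ V := by
    intro x hx
    by_contra hcon
    exact hx (hφ0 hcon)
  have hφx : φ x₁ = 1 := hφ1 rfl
  obtain ⟨r, hr⟩ := exists_root φ k (1 / 4) hksa fun x hx => by
    apply hlow
    have := hφV x hx
    rw [hV] at this
    exact this.1
  -- the element `R`
  obtain ⟨c, hc⟩ : ∃ c : Fin n ⊕ Fin n → C(X, D), c = fun i =>
      scal φ * ContinuousMap.const X (v i) := ⟨_, rfl⟩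
  have hcx : ∀ i x, c i x = φ x • v i := by
    intro i x
    rw [hc]
    simp
  obtain ⟨R, hR⟩ : ∃ R : B, R = ∑ i, ι (c i) * (u (g i) : B) := ⟨_, rfl⟩
  have huu : ∀ h : G, star (u h : B) * (u h : B) = 1 := fun h => Unitary.coe_star_mul_self _
  have hmove : ∀ (h : G) (z : C(X, D)), ι z * (u h : B) = (u h : B) * ι (α h⁻¹ z) := by
    intro h z
    have h1 := hcov h (α h⁻¹ z)
    have h2 : α h (α h⁻¹ z) = z := by
      have h3 : (α h * α h⁻¹) z = z := by
        rw [← map_mul, mul_inv_cancel, map_one]; rfl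
      exact h3
    rw [h2] at h1
    rw [← h1, mul_assoc, huu, mul_one]
  have hterm : ∀ i j, (ι (c i) * (u (g i) : B)) * ι a * star (ι (c j) * (u (g j) : B))
      = if i = j then ι (c i * α (g i) a * star (c i)) else 0 := by
    intro i j
    split_ifs with hij
    · subst hij
      rw [star_mul, map_mul, map_mul, ← hcov, map_star]
      simp only [mul_assoc]
    · rw [hmove, hmove, star_mul, ← map_star]
      have h1 : ∀ p q : C(X, D), ι p * ι a * ι q = ι (p * a * q) := by
        intro p q; rw [map_mul, map_mul]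
      have h2 : α (g i)⁻¹ (c i) * a * star (α (g j)⁻¹ (c j)) = 0 := by
        ext x
        simp only [ContinuousMap.mul_apply, ContinuousMap.star_apply, hα, hcx, inv_inv,
          ContinuousMap.zero_apply]
        by_cases h3 : φ (g i • x) = 0
        · simp [h3]
        by_cases h4 : φ (g j • x) = 0
        · simp [h4]
        exfalso
        have h5 := hφV _ h3
        have h6 := hφV _ h4
        rw [hV] at h5 h6
        have h7 : (g i)⁻¹ • (g i • x) ∈ W (y i) := Set.mem_iInter.1 h5.2 i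
        have h8 : (g j)⁻¹ • (g j • x) ∈ W (y j) := Set.mem_iInter.1 h6.2 j
        rw [inv_smul_smul] at h7 h8
        have h9 := hWd ⟨i, rfl⟩ ⟨j, rfl⟩ (fun h => hij (hyinj h))
        exact Set.disjoint_left.1 h9 h7 h8
      have h3 : (u (g i) : B) * ι (α (g i)⁻¹ (c i)) * ι a
          * (ι (star (α (g j)⁻¹ (c j))) * star (u (g j) : B))
          = (u (g i) : B) * (ι (α (g i)⁻¹ (c i)) * ι a * ι (star (α (g j)⁻¹ (c j))))
            * star (u (g j) : B) := by
        simp only [mul_assoc]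
      rw [h3, h1, h2, map_zero, mul_zero, zero_mul]
  have hRa : R * ι a * star R = ι (scal φ * k * scal φ) := by
    rw [hR, star_sum, Finset.sum_mul, Finset.sum_mul]
    have h1 : ∀ i, ι (c i) * (u (g i) : B) * ι a * ∑ j, star (ι (c j) * (u (g j) : B))
        = ι (c i * α (g i) a * star (c i)) := by
      intro i
      rw [Finset.mul_sum]
      simp_rw [hterm]
      rw [Finset.sum_ite_eq]
      simp
    rw [Finset.sum_congr rfl fun i _ => h1 i, ← map_sum]
    congr 1
    rw [hk, Finset.mul_sum, Finset.sum_mul]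
    apply Finset.sum_congr rfl
    intro i _
    have h2 : star (scal φ : C(X, D)) = scal φ := by
      ext x; simp
    have h3 : star (c i) = star (ContinuousMap.const X (v i)) * scal φ := by
      rw [hc, star_mul, h2]
    rw [h3, hc]
    simp only [mul_assoc]
  refine ⟨(1 / 4 : ℝ) • (φ * φ), ?_, ?_, ?_⟩
  · intro x
    simp only [ContinuousMap.smul_apply, ContinuousMap.mul_apply, smul_eq_mul]
    have := mul_self_nonneg (φ x)
    positivity
  · intro h0
    have := congrArg (fun f : C(X, ℝ) => f x₁) h0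
    simp [hφx] at this
  · let _ := CStarAlgebra.spectralOrder B
    let _ := CStarAlgebra.spectralOrderedRing B
    have h1 : 0 ≤ ι (scal ((1 / 4 : ℝ) • (φ * φ))) := by
      have h2 : (scal ((1 / 4 : ℝ) • (φ * φ)) : C(X, D))
          = star (scal ((1 / 2 : ℝ) • φ)) * scal ((1 / 2 : ℝ) • φ) := by
        ext x
        simp [smul_smul]
        congr 1
        ring
      rw [h2, map_mul, map_star]
      exact star_mul_self_nonneg _
    have h2 : ι (scal ((1 / 4 : ℝ) • (φ * φ))) ≤ R * ι a * star R := by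
      rw [hRa, ← sub_nonneg, ← map_sub, hr, map_mul, map_star]
      exact star_mul_self_nonneg _
    exact cuntz_trans (cuntz_of_le h1 h2) (cuntz_conj _ _)

end Pool.Agent.R294.CSub
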