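import Mathlib

/-!
# Normal Carleman operators
-/

open MeasureTheory Set
open scoped ENNReal InnerProductSpace

namespace Pool.Agent.R294.Carl

section hilbert

variable {H : Type*} [NormedAddCommGroup H] [InnerProductSpace ℂ H]

theorem countable_index [TopologicalSpace.SeparableSpace H] {ι : Type*} {b : ι → H}
    (hb : Orthonormal ℂ b) : Countable ι := by
  have h1 : (univ : Set ι).PairwiseDisjoint (fun i => Metric.ball (b i) (1/2)) := by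
    intro i _ j _ hij
    rw [Function.onFun]
    apply Metric.ball_disjoint_ball
    have h2 : ‖b i - b j‖ ^ 2 = 2 := by
      rw [@norm_sub_sq ℂ, hb.1 i, hb.1 j, hb.2 hij]
      simp
      norm_num
    rw [dist_eq_norm]
    nlinarith [norm_nonneg (b i - b j)]
  have h2 := h1.countable_of_isOpen (fun i _ => Metric.isOpen_ball)
    (fun i _ => Metric.nonempty_ball.2 (by norm_num))
  exact Set.countable_univ_iff.1 h2

/-- Parseval in extended nonnegative reals -/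
theorem parseval [CompleteSpace H] {ι : Type*} (b : HilbertBasis ι ℂ H) (v : H) :
    ∑' i, ‖(inner ℂ (b i) v : ℂ)‖ₑ ^ 2 = ‖v‖ₑ ^ 2 := by
  have h1 := b.hasSum_inner_mul_inner v v
  have h2 : HasSum (fun i => ‖(inner ℂ (b i) v : ℂ)‖ ^ 2) (‖v‖ ^ 2) := by
    have h3 := (Complex.hasSum_re h1)
    have e1 : (fun i => (inner ℂ v (b i) * inner ℂ (b i) v : ℂ).re) = fun i => ‖(inner ℂ (b i) v : ℂ)‖ ^ 2 := by
      funext i
      rw [← inner_conj_symm v (b i), ← Complex.normSq_eq_conj_mul_self, Complex.ofReal_re,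
        Complex.normSq_eq_norm_sq]
    have e2 : (inner ℂ v v : ℂ).re = ‖v‖ ^ 2 := by
      rw [inner_self_eq_norm_sq_to_K]
      norm_cast
    rw [e1, e2] at h3
    exact h3
  have h4 : ∀ i, ‖(inner ℂ (b i) v : ℂ)‖ₑ ^ 2 = ENNReal.ofReal (‖(inner ℂ (b i) v : ℂ)‖ ^ 2) := by
    intro i
    rw [ENNReal.ofReal_pow (norm_nonneg _), ofReal_norm]
  simp_rw [h4]
  rw [← ENNReal.ofReal_tsum_of_nonneg (fun i => by positivity) h2.summable, h2.tsum_eq,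
    ENNReal.ofReal_pow (norm_nonneg _), ofReal_norm]

/-- the Hilbert–Schmidt sums of an operator and of its adjoint -/
theorem hs_adjoint [CompleteSpace H] {ι : Type*} (b : HilbertBasis ι ℂ H) (A B : H → H)
    (h : ∀ x y, (inner ℂ (A x) y : ℂ) = inner ℂ x (B y)) :
    ∑' i, ‖A (b i)‖ₑ ^ 2 = ∑' i, ‖B (b i)‖ₑ ^ 2 := by
  calc ∑' i, ‖A (b i)‖ₑ ^ 2 = ∑' i, ∑' j, ‖(inner ℂ (b j) (A (b i)) : ℂ)‖ₑ ^ 2 := by
        simp_rw [parseval b]
    _ = ∑' j, ∑' i, ‖(inner ℂ (b j) (A (b i)) : ℂ)‖ₑ ^ 2 := ENNReal.tsum_comm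
    _ = ∑' j, ∑' i, ‖(inner ℂ (b i) (B (b j)) : ℂ)‖ₑ ^ 2 := by
        congr 1; funext j; congr 1; funext i
        rw [← h (b i) (b j), ← inner_conj_symm (b j) (A (b i)), RCLike.enorm_conj]
    _ = ∑' j, ‖B (b j)‖ₑ ^ 2 := by simp_rw [parseval b]

end hilbert

variable {X : Type*} [MeasurableSpace X] {μ : Measure X}

/-- `ν` is a Carleman kernel of the bounded operator `N` on `L²(μ)` -/
structure IsCarlemanKernel (μ : Measure X) (N : Lp ℂ 2 μ →L[ℂ] Lp ℂ 2 μ) (ν : X × X → ℂ) : Prop where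
  meas : AEMeasurable ν (μ.prod μ)
  sq : ∀ᵐ x ∂μ, ∫⁻ y, ‖ν (x, y)‖ₑ ^ 2 ∂μ < ∞
  eq : ∀ f : Lp ℂ 2 μ, ∀ᵐ x ∂μ, (N f : X → ℂ) x = ∫ y, ν (x, y) * (f : X → ℂ) y ∂μ

theorem enorm_sq (F : Lp ℂ 2 μ) : ‖F‖ₑ ^ 2 = ∫⁻ x, ‖(F : X → ℂ) x‖ₑ ^ 2 ∂μ := by
  rw [Lp.enorm_def, eLpNorm_eq_lintegral_rpow_enorm_toReal (by norm_num) (by norm_num)]
  simp only [ENNReal.toReal_ofNat, ENNReal.rpow_ofNat, one_div]
  rw [← ENNReal.rpow_two, ← ENNReal.rpow_mul]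
  norm_num

/-- the restriction operator -/
noncomputable def PE {E : Set X} (hE : MeasurableSet E) (F : Lp ℂ 2 μ) : Lp ℂ 2 μ :=
  ((Lp.memLp F).indicator hE).toLp

theorem PE_ae {E : Set X} (hE : MeasurableSet E) (F : Lp ℂ 2 μ) :
    (PE hE F : X → ℂ) =ᵐ[μ] E.indicator F := MemLp.coeFn_toLp _

theorem PE_inner {E : Set X} (hE : MeasurableSet E) (F G : Lp ℂ 2 μ) :
    (inner ℂ (PE hE F) G : ℂ) = inner ℂ F (PE hE G) := by
  rw [L2.inner_def, L2.inner_def]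
  apply integral_congr_ae
  filter_upwards [PE_ae hE F, PE_ae hE G] with x h1 h2
  rw [h1, h2]
  by_cases hx : x ∈ E
  · rw [indicator_of_mem hx, indicator_of_mem hx]
  · rw [indicator_of_notMem hx, indicator_of_notMem hx, inner_zero_left, inner_zero_right]

theorem PE_enorm {E : Set X} (hE : MeasurableSet E) (F : Lp ℂ 2 μ) :
    ‖PE hE F‖ₑ ^ 2 = ∫⁻ x in E, ‖(F : X → ℂ) x‖ₑ ^ 2 ∂μ := by
  rw [enorm_sq, ← lintegral_indicator hE]
  apply lintegral_congr_ae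
  filter_upwards [PE_ae hE F] with x h1
  rw [h1]
  by_cases hx : x ∈ E
  · rw [indicator_of_mem hx, indicator_of_mem hx]
  · rw [indicator_of_notMem hx, indicator_of_notMem hx]; simp

/-- pointwise Parseval for a square integrable section -/
theorem pointwise [SFinite μ] {ι : Type*} (b : HilbertBasis ι ℂ (Lp ℂ 2 μ)) {k : X → ℂ}
    (hk : AEMeasurable k μ) (hk2 : ∫⁻ y, ‖k y‖ₑ ^ 2 ∂μ < ∞) {E : Set X} (hE : MeasurableSet E) :
    ∑' i, ‖∫ y, k y * (PE hE (b i) : X → ℂ) y ∂μ‖ₑ ^ 2 = ∫⁻ y in E, ‖k y‖ₑ ^ 2 ∂μ := by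
  have m1 : MemLp (fun y => (starRingEnd ℂ) (k y)) 2 μ := by
    refine ⟨(Complex.continuous_conj.measurable.comp_aemeasurable hk).aestronglyMeasurable, ?_⟩
    rw [eLpNorm_eq_lintegral_rpow_enorm_toReal (by norm_num) (by norm_num)]
    simp only [ENNReal.toReal_ofNat, ENNReal.rpow_ofNat, one_div, RCLike.enorm_conj]
    exact ENNReal.rpow_lt_top_of_nonneg (by norm_num) hk2.ne
  obtain ⟨v, hv⟩ : ∃ v : Lp ℂ 2 μ, v = m1.toLp := ⟨_, rfl⟩
  have hv2 : (v : X → ℂ) =ᵐ[μ] fun y => (starRingEnd ℂ) (k y) := by rw [hv]; exact MemLp.coeFn_toLp _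
  have e1 : ∀ i, (inner ℂ (b i) (PE hE v) : ℂ)
      = (starRingEnd ℂ) (∫ y, k y * (PE hE (b i) : X → ℂ) y ∂μ) := by
    intro i
    rw [← PE_inner, L2.inner_def, ← integral_conj]
    apply integral_congr_ae
    filter_upwards [hv2] with y h1
    rw [h1, RCLike.inner_apply, map_mul, mul_comm]
  have e2 : ∀ i, ‖∫ y, k y * (PE hE (b i) : X → ℂ) y ∂μ‖ₑ ^ 2 = ‖(inner ℂ (b i) (PE hE v) : ℂ)‖ₑ ^ 2 := by
    intro i
    rw [e1, RCLike.enorm_conj]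
  simp_rw [e2]
  rw [parseval b, PE_enorm]
  apply lintegral_congr_ae
  filter_upwards [ae_restrict_of_ae hv2] with y h1
  rw [h1, RCLike.enorm_conj]


theorem sum_one [SFinite μ] {ι : Type*} [Countable ι] (b : HilbertBasis ι ℂ (Lp ℂ 2 μ))
    {N : Lp ℂ 2 μ →L[ℂ] Lp ℂ 2 μ} {ν : X × X → ℂ} (h : IsCarlemanKernel μ N ν) {E : Set X}
    (hE : MeasurableSet E) :
    ∑' i, ‖N (PE hE (b i))‖ₑ ^ 2 = ∫⁻ y in E, (∫⁻ x, ‖ν (x, y)‖ₑ ^ 2 ∂μ) ∂μ := by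
  have hm : AEMeasurable (fun p : X × X => ‖ν p‖ₑ ^ 2) (μ.prod μ) := h.meas.enorm.pow_const 2
  have hs : ∀ᵐ x ∂μ, AEMeasurable (fun y => ν (x, y)) μ := by
    have := h.meas.aestronglyMeasurable.prodMk_left
    filter_upwards [this] with x hx
    exact hx.aemeasurable
  calc ∑' i, ‖N (PE hE (b i))‖ₑ ^ 2
      = ∑' i, ∫⁻ x, ‖(N (PE hE (b i)) : X → ℂ) x‖ₑ ^ 2 ∂μ := by simp_rw [enorm_sq]
    _ = ∫⁻ x, ∑' i, ‖(N (PE hE (b i)) : X → ℂ) x‖ₑ ^ 2 ∂μ := by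
        rw [lintegral_tsum]
        intro i
        exact (Lp.aestronglyMeasurable _).enorm.pow_const 2
    _ = ∫⁻ x, (∫⁻ y in E, ‖ν (x, y)‖ₑ ^ 2 ∂μ) ∂μ := by
        apply lintegral_congr_ae
        have h1 : ∀ᵐ x ∂μ, ∀ i, (N (PE hE (b i)) : X → ℂ) x
            = ∫ y, ν (x, y) * (PE hE (b i) : X → ℂ) y ∂μ := by
          rw [ae_all_iff]
          intro i
          exact h.eq _
        filter_upwards [h1, h.sq, hs] with x h1 h2 h3
        simp_rw [h1]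
        exact pointwise b h3 h2 hE
    _ = ∫⁻ y in E, (∫⁻ x, ‖ν (x, y)‖ₑ ^ 2 ∂μ) ∂μ := by
        rw [lintegral_lintegral_swap]
        exact hm.mono_ac (Measure.AbsolutelyContinuous.prod (Measure.AbsolutelyContinuous.refl μ)
          Measure.restrict_le_self.absolutelyContinuous)

theorem sum_two [SFinite μ] {ι : Type*} [Countable ι] (b : HilbertBasis ι ℂ (Lp ℂ 2 μ))
    {N : Lp ℂ 2 μ →L[ℂ] Lp ℂ 2 μ} {ν : X × X → ℂ} (h : IsCarlemanKernel μ N ν) {E : Set X}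
    (hE : MeasurableSet E) :
    ∑' i, ‖PE hE (N (b i))‖ₑ ^ 2 = ∫⁻ x in E, (∫⁻ y, ‖ν (x, y)‖ₑ ^ 2 ∂μ) ∂μ := by
  have hs : ∀ᵐ x ∂μ, AEMeasurable (fun y => ν (x, y)) μ := by
    have := h.meas.aestronglyMeasurable.prodMk_left
    filter_upwards [this] with x hx
    exact hx.aemeasurable
  have hu : ∀ F : Lp ℂ 2 μ, PE MeasurableSet.univ F = F := by
    intro F
    apply Lp.ext
    filter_upwards [PE_ae MeasurableSet.univ F] with x hx
    rw [hx, indicator_univ]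
  calc ∑' i, ‖PE hE (N (b i))‖ₑ ^ 2
      = ∑' i, ∫⁻ x in E, ‖(N (b i) : X → ℂ) x‖ₑ ^ 2 ∂μ := by simp_rw [PE_enorm]
    _ = ∫⁻ x in E, ∑' i, ‖(N (b i) : X → ℂ) x‖ₑ ^ 2 ∂μ := by
        rw [lintegral_tsum]
        intro i
        exact ((Lp.aestronglyMeasurable _).enorm.pow_const 2).restrict
    _ = ∫⁻ x in E, (∫⁻ y, ‖ν (x, y)‖ₑ ^ 2 ∂μ) ∂μ := by
        apply lintegral_congr_ae
        apply ae_restrict_of_ae
        have h1 : ∀ᵐ x ∂μ, ∀ i, (N (b i) : X → ℂ) x = ∫ y, ν (x, y) * (b i : X → ℂ) y ∂μ := by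
          rw [ae_all_iff]
          intro i
          exact h.eq _
        filter_upwards [h1, h.sq, hs] with x h1 h2 h3
        simp_rw [h1]
        have := pointwise b h3 h2 MeasurableSet.univ
        simp_rw [hu, Measure.restrict_univ] at this
        exact this

/-- the Hilbert–Schmidt identity -/
theorem swap_identity [SFinite μ] {ι : Type*} [Countable ι] (b : HilbertBasis ι ℂ (Lp ℂ 2 μ))
    {N : Lp ℂ 2 μ →L[ℂ] Lp ℂ 2 μ} (hN : IsStarNormal N) {ν : X × X → ℂ}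
    (h : IsCarlemanKernel μ N ν) {E : Set X} (hE : MeasurableSet E) :
    ∫⁻ y in E, (∫⁻ x, ‖ν (x, y)‖ₑ ^ 2 ∂μ) ∂μ = ∫⁻ x in E, (∫⁻ y, ‖ν (x, y)‖ₑ ^ 2 ∂μ) ∂μ := by
  rw [← sum_one b h hE, ← sum_two b h hE]
  rw [hs_adjoint b (fun F => PE hE (N F)) (fun F => ContinuousLinearMap.adjoint N (PE hE F))]
  · congr 1
    funext i
    have := ContinuousLinearMap.isStarNormal_iff_norm_eq_adjoint.1 hN (PE hE (b i))
    rw [← ofReal_norm, ← ofReal_norm, this]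
  · intro x y
    rw [PE_inner, ContinuousLinearMap.adjoint_inner_right]

theorem main [SigmaFinite μ] [IsSeparable μ] {N : Lp ℂ 2 μ →L[ℂ] Lp ℂ 2 μ} (hN : IsStarNormal N)
    {ν : X × X → ℂ} (h : IsCarlemanKernel μ N ν) :
    ∀ᵐ y ∂μ, ∫⁻ x, ‖ν (x, y)‖ₑ ^ 2 ∂μ < ∞ := by
  obtain ⟨w, b, hb⟩ := exists_hilbertBasis ℂ (Lp ℂ 2 μ)
  have : Fact ((2 : ℝ≥0∞) ≠ ∞) := ⟨by norm_num⟩
  have : SecondCountableTopology (Lp ℂ 2 μ) := inferInstance
  have : Countable w := countable_index b.orthonormal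
  have hm : AEMeasurable (fun p : X × X => ‖ν p‖ₑ ^ 2) (μ.prod μ) := h.meas.enorm.pow_const 2
  have g1 : AEMeasurable (fun x => ∫⁻ y, ‖ν (x, y)‖ₑ ^ 2 ∂μ) μ := hm.lintegral_prod_right'
  have g2 : AEMeasurable (fun y => ∫⁻ x, ‖ν (x, y)‖ₑ ^ 2 ∂μ) μ := hm.lintegral_prod_left'
  obtain ⟨g, hg, hge⟩ := g1
  obtain ⟨En, hEn⟩ : ∃ En : ℕ → Set X, En = fun n : ℕ => {x | g x ≤ (n : ℝ≥0∞)} ∩ spanningSets μ n := ⟨_, rfl⟩
  have mE : ∀ n, MeasurableSet (En n) := by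
    intro n
    rw [hEn]
    exact (measurableSet_le hg measurable_const).inter (measurableSet_spanningSets μ n)
  have fin : ∀ n, ∫⁻ y in En n, (∫⁻ x, ‖ν (x, y)‖ₑ ^ 2 ∂μ) ∂μ < ∞ := by
    intro n
    rw [swap_identity b hN h (mE n)]
    calc ∫⁻ x in En n, (∫⁻ y, ‖ν (x, y)‖ₑ ^ 2 ∂μ) ∂μ = ∫⁻ x in En n, g x ∂μ :=
          lintegral_congr_ae (ae_restrict_of_ae hge)
      _ ≤ ∫⁻ x in En n, (n : ℝ≥0∞) ∂μ := by
          apply setLIntegral_mono measurable_const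
          intro x hx
          rw [hEn] at hx
          exact hx.1
      _ = n * μ (En n) := by rw [setLIntegral_const]
      _ ≤ n * μ (spanningSets μ n) := by
          gcongr
          rw [hEn]
          exact inter_subset_right
      _ < ∞ := ENNReal.mul_lt_top (by simp) (measure_spanningSets_lt_top μ n)
  have ae1 : ∀ n, ∀ᵐ y ∂(μ.restrict (En n)), ∫⁻ x, ‖ν (x, y)‖ₑ ^ 2 ∂μ < ∞ := by
    intro n
    exact ae_lt_top' g2.restrict (fin n).ne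
  have ae2 : ∀ n, ∀ᵐ y ∂μ, y ∈ En n → ∫⁻ x, ‖ν (x, y)‖ₑ ^ 2 ∂μ < ∞ := by
    intro n
    exact (ae_restrict_iff' (mE n)).1 (ae1 n)
  have cover : ∀ᵐ y ∂μ, ∃ n, y ∈ En n := by
    filter_upwards [h.sq, hge] with y h1 h2
    rw [h2] at h1
    obtain ⟨n1, hn1⟩ := ENNReal.exists_nat_gt h1.ne
    obtain ⟨n2, hn2⟩ : ∃ n2, y ∈ spanningSets μ n2 := by
      have : y ∈ ⋃ i, spanningSets μ i := by rw [iUnion_spanningSets]; trivial
      exact mem_iUnion.1 this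
    refine ⟨max n1 n2, ?_⟩
    rw [hEn]
    refine ⟨?_, monotone_spanningSets μ (le_max_right _ _) hn2⟩
    show g y ≤ ((max n1 n2 : ℕ) : ℝ≥0∞)
    exact hn1.le.trans (by exact_mod_cast le_max_left _ _)
  filter_upwards [ae_all_iff.2 ae2, cover] with y h1 ⟨n, hn⟩
  exact h1 n hn

end Pool.Agent.R294.Carl
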