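import Mathlib

/-!
# Random walks on discrete point processes on the square lattice

The walk jumps from a point of the configuration to one of the four coordinate nearest points of
the configuration, each with probability `1/4`.
-/

set_option autoImplicit false

namespace Pool.Agent.R294.DPP

open MeasureTheory ProbabilityTheory Set Filter Topology

/-- Configurations: `ω x = true` if `x` is a point of the configuration. -/
abbrev Env : Type := ℤ × ℤ → Bool

/-- The shift `(θ_v ω)(y) = ω (v + y)`. -/
def shift (v : ℤ × ℤ) (ω : Env) : Env := fun y => ω (v + y)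

/-- A discrete point process on `ℤ²`: a probability measure on configurations which is stationary
and ergodic with respect to each of the two unit shifts, and not almost surely empty. -/
structure IsDPP (Q : Measure Env) : Prop where
  prob : IsProbabilityMeasure Q
  erg1 : Ergodic (shift (1, 0)) Q
  erg2 : Ergodic (shift (0, 1)) Q
  nonempty : Q {ω | ∀ x, ω x = false} < 1

/-- The configurations with a point at the origin. -/
def O0 : Set Env := {ω | ω 0 = true}

/-- `P = Q(· | Ω₀)`. -/
noncomputable def palm (Q : Measure Env) : Measure Env := ProbabilityTheory.cond Q O0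

/-- `f_e(ω) = min {k > 0 : ω (k e) = 1}` (it is `0` if there is no such `k`). -/
noncomputable def gap (ω : Env) (e : ℤ × ℤ) : ℕ := sInf {k : ℕ | 0 < k ∧ ω ((k : ℤ) • e) = true}

/-- The four directions. -/
abbrev Dir : Type := Bool × Bool

/-- The unit vector of a direction. -/
def dir : Dir → ℤ × ℤ
  | (false, true) => (1, 0)
  | (false, false) => (-1, 0)
  | (true, true) => (0, 1)
  | (true, false) => (0, -1)

/-- The point of the configuration nearest to `v` in the direction `d`. -/
noncomputable def step (ω : Env) (v : ℤ × ℤ) (d : Dir) : ℤ × ℤ :=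
  v + (gap (shift v ω) (dir d) : ℤ) • dir d

/-- The walk in the environment `ω` driven by the sequence `ξ` of directions. -/
noncomputable def walk (ω : Env) (ξ : ℕ → Dir) : ℕ → ℤ × ℤ
  | 0 => 0
  | n + 1 => step ω (walk ω ξ n) (ξ n)

/-- The uniform probability measure on the four directions. -/
noncomputable def unif : Measure Dir := (PMF.uniformOfFintype Dir).toMeasure

instance : IsProbabilityMeasure unif := by unfold unif; infer_instance

/-- The law of an independent sequence of uniform directions; the quenched law `P_ω` is the law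
of `walk ω ξ` when `ξ` has this law. -/
noncomputable def dirLaw : Measure (ℕ → Dir) := Measure.infinitePi (fun _ => unif)

instance : IsProbabilityMeasure dirLaw := by unfold dirLaw; infer_instance

/-! ### Averages over words -/

/-- the average over all words of length `n` -/
noncomputable def Av : ℕ → (List Dir → ℝ) → ℝ
  | 0, Φ => Φ []
  | n + 1, Φ => (∑ d : Dir, Av n (fun l => Φ (d :: l))) / 4

lemma Av_add (n : ℕ) : ∀ Φ Ψ : List Dir → ℝ, Av n (fun l => Φ l + Ψ l) = Av n Φ + Av n Ψ := by
  induction n with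
  | zero => intro Φ Ψ; rfl
  | succ n ih =>
    intro Φ Ψ
    simp only [Av]
    rw [← add_div, ← Finset.sum_add_distrib]
    congr 1
    exact Finset.sum_congr rfl fun d _ => ih _ _

lemma Av_mul (n : ℕ) (c : ℝ) : ∀ Φ : List Dir → ℝ, Av n (fun l => c * Φ l) = c * Av n Φ := by
  induction n with
  | zero => intro Φ; rfl
  | succ n ih =>
    intro Φ
    simp only [Av]
    rw [mul_div_assoc', Finset.mul_sum]
    congr 1
    exact Finset.sum_congr rfl fun d _ => ih _

lemma Av_const (n : ℕ) (c : ℝ) : Av n (fun _ => c) = c := by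
  induction n with
  | zero => rfl
  | succ n ih =>
    simp only [Av]
    rw [ih, Finset.sum_const, Finset.card_univ]
    simp only [Fintype.card_prod, Fintype.card_bool]
    norm_num

lemma Av_mono (n : ℕ) : ∀ Φ Ψ : List Dir → ℝ, (∀ l, l.length = n → Φ l ≤ Ψ l) → Av n Φ ≤ Av n Ψ := by
  induction n with
  | zero => intro Φ Ψ h; exact h [] rfl
  | succ n ih =>
    intro Φ Ψ h
    simp only [Av]
    apply div_le_div_of_nonneg_right _ (by norm_num)
    exact Finset.sum_le_sum fun d _ => ih _ _ fun l hl => h _ (by simp [hl])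

lemma Av_append (m n : ℕ) : ∀ Φ : List Dir → ℝ,
    Av (m + n) Φ = Av m (fun l => Av n (fun l' => Φ (l ++ l'))) := by
  induction m with
  | zero => intro Φ; rw [Nat.zero_add]; rfl
  | succ m ih =>
    intro Φ
    rw [show m + 1 + n = (m + n) + 1 by ring]
    simp only [Av]
    congr 1
    exact Finset.sum_congr rfl fun d _ => ih _

lemma Av_eq_sum (n : ℕ) : ∀ Φ : List Dir → ℝ,
    Av n Φ = ∑ w : Fin n → Dir, (1 / 4 : ℝ) ^ n * Φ (List.ofFn w) := by
  induction n with
  | zero =>
    intro Φ
    simp [Av]
  | succ n ih =>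
    intro Φ
    simp only [Av]
    have key : ∑ w : Fin (n + 1) → Dir, (1 / 4 : ℝ) ^ (n + 1) * Φ (List.ofFn w) =
        ∑ d : Dir, ∑ w : Fin n → Dir, (1 / 4 : ℝ) ^ (n + 1) * Φ (d :: List.ofFn w) := by
      rw [← (Fin.consEquiv (fun _ : Fin (n + 1) => Dir)).sum_comp]
      have h2 := Fintype.sum_prod_type' (f := fun (d : Dir) (w : Fin n → Dir) =>
        (1 / 4 : ℝ) ^ (n + 1) * Φ (d :: List.ofFn w))
      rw [← h2]
      apply Fintype.sum_congr
      rintro ⟨d, w⟩
      have : List.ofFn ((Fin.consEquiv (fun _ : Fin (n + 1) => Dir)) (d, w)) =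
          d :: List.ofFn w := by
        rw [List.ofFn_succ]
        rfl
      rw [this]
    rw [key, Finset.sum_div]
    apply Finset.sum_congr rfl
    intro d _
    rw [ih, Finset.sum_div]
    apply Finset.sum_congr rfl
    intro w _
    rw [pow_succ]
    ring

/-- the first `n` letters -/
def pre (n : ℕ) (ξ : ℕ → Dir) : List Dir := List.ofFn (fun i : Fin n => ξ i)

lemma pre_succ (n : ℕ) (ξ : ℕ → Dir) : pre (n + 1) ξ = pre n ξ ++ [ξ n] := by
  unfold pre
  rw [List.ofFn_succ']
  simp

lemma unif_singleton (d : Dir) : unif {d} = 1 / 4 := by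
  unfold unif
  rw [PMF.toMeasure_apply_singleton _ _ (MeasurableSet.singleton d), PMF.uniformOfFintype_apply]
  simp only [Fintype.card_prod, Fintype.card_bool]
  norm_num

lemma dirLaw_cyl (n : ℕ) (w : Fin n → Dir) :
    dirLaw ((fun (ξ : ℕ → Dir) (i : Fin n) => ξ i) ⁻¹' {w}) = (1 / 4) ^ n := by
  have h : (fun (ξ : ℕ → Dir) (i : Fin n) => ξ i) ⁻¹' {w} =
      Set.pi (Finset.range n : Set ℕ) (fun i => {if h : i < n then w ⟨i, h⟩ else (false, false)}) := by
    ext ξ
    simp only [mem_preimage, mem_singleton_iff, Set.mem_pi, Finset.coe_range, mem_Iio]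
    constructor
    · rintro rfl i hi
      rw [dif_pos hi]
    · intro h
      funext i
      have := h i i.2
      rw [dif_pos i.2] at this
      exact this
  rw [h]
  unfold dirLaw
  rw [Measure.infinitePi_pi _ (fun i _ => MeasurableSet.singleton _)]
  rw [Finset.prod_congr rfl (fun i _ => unif_singleton _), Finset.prod_const, Finset.card_range]

lemma integral_pre (n : ℕ) (Φ : List Dir → ℝ) : ∫ ξ, Φ (pre n ξ) ∂dirLaw = Av n Φ := by
  have hm : Measurable (fun (ξ : ℕ → Dir) (i : Fin n) => ξ i) :=
    measurable_pi_lambda _ fun i => measurable_pi_apply _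
  have h1 : ∫ ξ, Φ (pre n ξ) ∂dirLaw =
      ∫ w, Φ (List.ofFn w) ∂(dirLaw.map (fun (ξ : ℕ → Dir) (i : Fin n) => ξ i)) := by
    rw [integral_map hm.aemeasurable (by
      exact (measurable_of_finite _).aestronglyMeasurable)]
    rfl
  rw [h1, Av_eq_sum]
  have : IsProbabilityMeasure (dirLaw.map (fun (ξ : ℕ → Dir) (i : Fin n) => ξ i)) :=
    Measure.isProbabilityMeasure_map hm.aemeasurable
  rw [integral_fintype (Integrable.of_finite)]
  apply Finset.sum_congr rfl
  intro w _
  rw [Measure.real, Measure.map_apply hm (MeasurableSet.singleton w), dirLaw_cyl]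
  rw [smul_eq_mul]
  congr 1
  simp [ENNReal.toReal_pow]

lemma measurable_pre_pred (n : ℕ) (S : Set (List Dir)) :
    MeasurableSet {ξ : ℕ → Dir | pre n ξ ∈ S} := by
  have hm : Measurable (fun (ξ : ℕ → Dir) (i : Fin n) => ξ i) :=
    measurable_pi_lambda _ fun i => measurable_pi_apply _
  have : {ξ : ℕ → Dir | pre n ξ ∈ S} =
      (fun (ξ : ℕ → Dir) (i : Fin n) => ξ i) ⁻¹' {w | List.ofFn w ∈ S} := rfl
  rw [this]
  exact hm (Set.toFinite _).measurableSet

open Classical in
lemma dirLaw_pre (n : ℕ) (S : Set (List Dir)) :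
    dirLaw.real {ξ : ℕ → Dir | pre n ξ ∈ S} = Av n (fun l => if l ∈ S then 1 else 0) := by
  rw [← integral_pre n (fun l => if l ∈ S then (1 : ℝ) else 0)]
  rw [← integral_indicator_one (measurable_pre_pred n S)]
  congr 1

/-- the position after a word -/
noncomputable def pos (ω : Env) (v : ℤ × ℤ) (l : List Dir) : ℤ × ℤ := l.foldl (step ω) v

lemma pos_cons (ω : Env) (v : ℤ × ℤ) (d : Dir) (l : List Dir) :
    pos ω v (d :: l) = pos ω (step ω v d) l := rfl

lemma pos_append (ω : Env) (v : ℤ × ℤ) (l l' : List Dir) :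
    pos ω v (l ++ l') = pos ω (pos ω v l) l' := List.foldl_append

lemma walk_eq (ω : Env) (ξ : ℕ → Dir) (n : ℕ) : walk ω ξ n = pos ω 0 (pre n ξ) := by
  induction n with
  | zero => rfl
  | succ n ih => rw [walk, pre_succ, pos_append, ← ih]; rfl

/-! ### Diagonal environments -/

/-- `ω` depends only on the sum of the coordinates -/
def IsDiag (a : ℤ → Bool) (ω : Env) : Prop := ∀ x y : ℤ, ω (x, y) = a (x + y)

/-- points on both sides -/
def TwoSided (a : ℤ → Bool) : Prop := ∀ s : ℤ, (∃ t, s < t ∧ a t = true) ∧ ∃ t, t < s ∧ a t = true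

/-- distance to the next point -/
noncomputable def up (a : ℤ → Bool) (s : ℤ) : ℕ := sInf {k : ℕ | 0 < k ∧ a (s + k) = true}
/-- distance to the previous point -/
noncomputable def dn (a : ℤ → Bool) (s : ℤ) : ℕ := sInf {k : ℕ | 0 < k ∧ a (s - k) = true}

variable {a : ℤ → Bool} {ω : Env}

lemma step_diag (h : IsDiag a ω) (v : ℤ × ℤ) :
    step ω v (false, true) = (v.1 + up a (v.1 + v.2), v.2) ∧
    step ω v (false, false) = (v.1 - dn a (v.1 + v.2), v.2) ∧
    step ω v (true, true) = (v.1, v.2 + up a (v.1 + v.2)) ∧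
    step ω v (true, false) = (v.1, v.2 - dn a (v.1 + v.2)) := by
  have g1 : gap (shift v ω) (1, 0) = up a (v.1 + v.2) := by
    unfold gap up shift
    congr 1; ext k
    simp only [mem_setOf_eq]
    have : ω (v + (k : ℤ) • (1, 0)) = a (v.1 + v.2 + k) := by
      have e : v + (k : ℤ) • ((1, 0) : ℤ × ℤ) = (v.1 + k, v.2) := by
        ext <;> simp
      rw [e, h]; congr 1; ring
    rw [this]
  have g2 : gap (shift v ω) (0, 1) = up a (v.1 + v.2) := by
    unfold gap up shift
    congr 1; ext k
    simp only [mem_setOf_eq]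
    have : ω (v + (k : ℤ) • (0, 1)) = a (v.1 + v.2 + k) := by
      have e : v + (k : ℤ) • ((0, 1) : ℤ × ℤ) = (v.1, v.2 + k) := by
        ext <;> simp
      rw [e, h]; congr 1; ring
    rw [this]
  have g3 : gap (shift v ω) (-1, 0) = dn a (v.1 + v.2) := by
    unfold gap dn shift
    congr 1; ext k
    simp only [mem_setOf_eq]
    have : ω (v + (k : ℤ) • (-1, 0)) = a (v.1 + v.2 - k) := by
      have e : v + (k : ℤ) • ((-1, 0) : ℤ × ℤ) = (v.1 - k, v.2) := by
        ext <;> simp [sub_eq_add_neg]
      rw [e, h]; congr 1; ring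
    rw [this]
  have g4 : gap (shift v ω) (0, -1) = dn a (v.1 + v.2) := by
    unfold gap dn shift
    congr 1; ext k
    simp only [mem_setOf_eq]
    have : ω (v + (k : ℤ) • (0, -1)) = a (v.1 + v.2 - k) := by
      have e : v + (k : ℤ) • ((0, -1) : ℤ × ℤ) = (v.1, v.2 - k) := by
        ext <;> simp [sub_eq_add_neg]
      rw [e, h]; congr 1; ring
    rw [this]
  unfold step
  simp only [dir]
  rw [g1, g2, g3, g4]
  refine ⟨?_, ?_, ?_, ?_⟩ <;> ext <;> simp [sub_eq_add_neg]

lemma sum_dir (F : Dir → ℝ) :
    ∑ d : Dir, F d = F (false, true) + F (false, false) + F (true, true) + F (true, false) := by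
  rw [Fintype.sum_prod_type]
  simp only [Fintype.univ_bool, Finset.sum_insert, Finset.mem_singleton, Finset.sum_singleton,
    Bool.true_eq_false, not_false_eq_true]
  ring

lemma up_spec (h : TwoSided a) (s : ℤ) : 0 < up a s ∧ a (s + up a s) = true ∧
    ∀ t, s < t → a t = true → s + up a s ≤ t := by
  have hne : {k : ℕ | 0 < k ∧ a (s + k) = true}.Nonempty := by
    obtain ⟨t, ht, hat⟩ := (h s).1
    refine ⟨(t - s).toNat, by simp only [mem_setOf_eq]; constructor
                              · omega
                              · rw [Int.toNat_of_nonneg (by omega)]; convert hat using 2; ring⟩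
  have h1 := Nat.sInf_mem hne
  refine ⟨h1.1, h1.2, fun t ht hat => ?_⟩
  have h2 : (t - s).toNat ∈ {k : ℕ | 0 < k ∧ a (s + k) = true} := by
    constructor
    · omega
    · rw [Int.toNat_of_nonneg (by omega)]; rw [show s + (t - s) = t by ring]; exact hat
  have h3 : up a s ≤ (t - s).toNat := Nat.sInf_le h2
  omega

lemma dn_spec (h : TwoSided a) (s : ℤ) : 0 < dn a s ∧ a (s - dn a s) = true ∧
    ∀ t, t < s → a t = true → t ≤ s - dn a s := by
  have hne : {k : ℕ | 0 < k ∧ a (s - k) = true}.Nonempty := by
    obtain ⟨t, ht, hat⟩ := (h s).2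
    refine ⟨(s - t).toNat, ?_⟩
    constructor
    · omega
    · rw [Int.toNat_of_nonneg (by omega)]; rw [show s - (s - t) = t by ring]; exact hat
  have h1 := Nat.sInf_mem hne
  refine ⟨h1.1, h1.2, fun t ht hat => ?_⟩
  have h2 : (s - t).toNat ∈ {k : ℕ | 0 < k ∧ a (s - k) = true} := by
    constructor
    · omega
    · rw [Int.toNat_of_nonneg (by omega)]; rw [show s - (s - t) = t by ring]; exact hat
  have h3 : dn a s ≤ (s - t).toNat := Nat.sInf_le h2
  omega

end Pool.Agent.R294.DPP
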