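import Pool.Agent.R294.DPP1

/-!
# The Fourier representation and the potential bound
-/

set_option autoImplicit false

namespace Pool.Agent.R294.DPP

open MeasureTheory ProbabilityTheory Set Filter Topology

variable {a : ℤ → Bool} {ω : Env}

/-- the indicator of zero -/
noncomputable def ind (s : ℤ) : ℝ := if s = 0 then 1 else 0

/-- the signed kernel -/
noncomputable def Cn (a : ℤ → Bool) (φ : ℝ) : ℕ → ℤ → ℝ
  | 0, s => ind s
  | n + 1, s => (Real.cos (φ * up a s) * Cn a φ n (s + up a s) +
      Real.cos (φ * dn a s) * Cn a φ n (s - dn a s)) / 2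

/-- the nonnegative kernel -/
noncomputable def Wn (a : ℤ → Bool) (φ : ℝ) : ℕ → ℤ → ℝ
  | 0, s => ind s
  | n + 1, s => (|Real.cos (φ * up a s)| * Wn a φ n (s + up a s) +
      |Real.cos (φ * dn a s)| * Wn a φ n (s - dn a s)) / 2

lemma Wn_nonneg (φ : ℝ) (n : ℕ) : ∀ s, 0 ≤ Wn a φ n s := by
  induction n with
  | zero => intro s; unfold Wn ind; split_ifs <;> norm_num
  | succ n ih =>
    intro s
    unfold Wn
    have h1 := ih (s + up a s)
    have h2 := ih (s - dn a s)
    positivity

lemma abs_Cn_le (φ : ℝ) (n : ℕ) : ∀ s, |Cn a φ n s| ≤ Wn a φ n s := by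
  induction n with
  | zero => intro s; unfold Cn Wn ind; split_ifs <;> norm_num
  | succ n ih =>
    intro s
    unfold Cn Wn
    rw [abs_div, abs_of_pos (show (0:ℝ) < 2 by norm_num)]
    apply div_le_div_of_nonneg_right _ (by norm_num)
    refine (abs_add_le _ _).trans ?_
    rw [abs_mul, abs_mul]
    exact add_le_add (mul_le_mul_of_nonneg_left (ih _) (abs_nonneg _))
      (mul_le_mul_of_nonneg_left (ih _) (abs_nonneg _))

lemma Wn_le_one (φ : ℝ) (n : ℕ) : ∀ s, Wn a φ n s ≤ 1 := by
  induction n with
  | zero => intro s; unfold Wn ind; split_ifs <;> norm_num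
  | succ n ih =>
    intro s
    unfold Wn
    have h1 := ih (s + up a s)
    have h2 := ih (s - dn a s)
    have c1 := Real.abs_cos_le_one (φ * up a s)
    have c2 := Real.abs_cos_le_one (φ * dn a s)
    have n1 := Wn_nonneg (a := a) φ n (s + up a s)
    have n2 := Wn_nonneg (a := a) φ n (s - dn a s)
    have m1 : |Real.cos (φ * up a s)| * Wn a φ n (s + up a s) ≤ 1 := by
      calc _ ≤ 1 * 1 := mul_le_mul c1 h1 n1 (by norm_num)
        _ = 1 := by norm_num
    have m2 : |Real.cos (φ * dn a s)| * Wn a φ n (s - dn a s) ≤ 1 := by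
      calc _ ≤ 1 * 1 := mul_le_mul c2 h2 n2 (by norm_num)
        _ = 1 := by norm_num
    linarith

lemma continuous_Cn (n : ℕ) : ∀ s, Continuous (fun φ => Cn a φ n s) := by
  induction n with
  | zero => intro s; unfold Cn; exact continuous_const
  | succ n ih =>
    intro s
    unfold Cn
    have h1 := ih (s + up a s)
    have h2 := ih (s - dn a s)
    fun_prop

lemma continuous_Wn (n : ℕ) : ∀ s, Continuous (fun φ => Wn a φ n s) := by
  induction n with
  | zero => intro s; unfold Wn; exact continuous_const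
  | succ n ih =>
    intro s
    unfold Wn
    have h1 := ih (s + up a s)
    have h2 := ih (s - dn a s)
    fun_prop

/-- The Fourier coefficient of the walk. -/
lemma Av_cos (h : IsDiag a ω) (φ : ℝ) (n : ℕ) : ∀ v : ℤ × ℤ,
    Av n (fun l => ind ((pos ω v l).1 + (pos ω v l).2) *
      Real.cos (φ * ((pos ω v l).1 - (pos ω v l).2 : ℤ))) =
    Real.cos (φ * (v.1 - v.2 : ℤ)) * Cn a φ n (v.1 + v.2) := by
  induction n with
  | zero =>
    intro v
    simp only [Av, pos, List.foldl_nil, Cn]
    ring
  | succ n ih =>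
    intro v
    simp only [Av, pos_cons]
    rw [sum_dir, ih, ih, ih, ih]
    obtain ⟨e1, e2, e3, e4⟩ := step_diag h v
    rw [e1, e2, e3, e4]
    simp only [Cn]
    have f1 : v.1 + (up a (v.1 + v.2) : ℤ) + v.2 = v.1 + v.2 + up a (v.1 + v.2) := by ring
    have f2 : v.1 - (dn a (v.1 + v.2) : ℤ) + v.2 = v.1 + v.2 - dn a (v.1 + v.2) := by ring
    have f3 : v.1 + (v.2 + (up a (v.1 + v.2) : ℤ)) = v.1 + v.2 + up a (v.1 + v.2) := by ring
    have f4 : v.1 + (v.2 - (dn a (v.1 + v.2) : ℤ)) = v.1 + v.2 - dn a (v.1 + v.2) := by ring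
    rw [f1, f2, f3, f4]
    push_cast
    have g1 : φ * ((v.1 : ℝ) + up a (v.1 + v.2) - v.2) =
      φ * (v.1 - v.2) + φ * up a (v.1 + v.2) := by ring
    have g2 : φ * ((v.1 : ℝ) - dn a (v.1 + v.2) - v.2) =
      φ * (v.1 - v.2) - φ * dn a (v.1 + v.2) := by ring
    have g3 : φ * ((v.1 : ℝ) - (v.2 + up a (v.1 + v.2))) =
      φ * (v.1 - v.2) - φ * up a (v.1 + v.2) := by ring
    have g4 : φ * ((v.1 : ℝ) - (v.2 - dn a (v.1 + v.2))) =
      φ * (v.1 - v.2) + φ * dn a (v.1 + v.2) := by ring
    rw [g1, g2, g3, g4, Real.cos_add, Real.cos_sub, Real.cos_sub, Real.cos_add]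
    ring

lemma Av_integral (n : ℕ) (f : ℝ → List Dir → ℝ) (x y : ℝ)
    (hf : ∀ l, Continuous (fun t => f t l)) :
    ∫ t in x..y, Av n (f t) = Av n (fun l => ∫ t in x..y, f t l) := by
  have hc : ∀ (n : ℕ) (g : ℝ → List Dir → ℝ), (∀ l, Continuous (fun t => g t l)) →
      Continuous (fun t => Av n (g t)) := by
    intro n
    induction n with
    | zero => intro g hg; exact hg []
    | succ n ih =>
      intro g hg
      simp only [Av]
      apply Continuous.div_const
      apply continuous_finset_sum
      intro d _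
      exact ih _ (fun l => hg _)
  induction n generalizing f with
  | zero => rfl
  | succ n ih =>
    simp only [Av]
    rw [intervalIntegral.integral_div, intervalIntegral.integral_finset_sum]
    · congr 1
      apply Finset.sum_congr rfl
      intro d _
      exact ih _ (fun l => hf _)
    · intro d _
      exact (hc n _ (fun l => hf _)).intervalIntegrable _ _

/-- the probability of being at the origin -/
lemma prob_zero (h : IsDiag a ω) (n : ℕ) :
    dirLaw.real {ξ | walk ω ξ n = 0} =
      2 / Real.pi * ∫ φ in (0:ℝ)..(Real.pi / 2), Cn a φ n 0 := by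
  have h1 : {ξ | walk ω ξ n = 0} = {ξ : ℕ → Dir | pre n ξ ∈ {l | pos ω 0 l = 0}} := by
    ext ξ
    show walk ω ξ n = 0 ↔ pos ω 0 (pre n ξ) = 0
    rw [walk_eq]
  have hint : ∀ l : List Dir, (if l ∈ {l | pos ω 0 l = 0} then (1 : ℝ) else 0) =
      2 / Real.pi * ∫ φ in (0:ℝ)..(Real.pi / 2),
        ind ((pos ω 0 l).1 + (pos ω 0 l).2) *
          Real.cos (φ * ((pos ω 0 l).1 - (pos ω 0 l).2 : ℤ)) := by
    intro l
    set v := pos ω 0 l with hv
    by_cases hs : v.1 + v.2 = 0
    · rw [hs]
      simp only [ind, if_true, one_mul]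
      have hv2 : v.1 - v.2 = 2 * v.1 := by omega
      rw [hv2]
      by_cases h0 : v.1 = 0
      · have : v = 0 := by
          ext
          · exact h0
          · simp only [Prod.snd_zero]; omega
        rw [h0]
        rw [if_pos (show l ∈ {l | pos ω 0 l = 0} from this)]
        simp
      · have : ¬ (l ∈ {l | pos ω 0 l = 0}) := by
          intro h'
          have h'' : v = 0 := h'
          apply h0
          rw [h'']; rfl
        rw [if_neg this]
        have hne : ((2 * v.1 : ℤ) : ℝ) ≠ 0 := by
          norm_cast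
          omega
        rw [intervalIntegral.integral_comp_mul_right (fun x => Real.cos x) hne, integral_cos]
        have : Real.pi / 2 * ((2 * v.1 : ℤ) : ℝ) = v.1 * Real.pi := by push_cast; ring
        rw [this, Real.sin_int_mul_pi]
        simp
    · have : ¬ (l ∈ {l | pos ω 0 l = 0}) := by
        intro h'
        have h'' : v = 0 := h'
        apply hs
        rw [h'']; rfl
      rw [if_neg this]
      have hz : ind ((pos ω 0 l).1 + (pos ω 0 l).2) = 0 := if_neg hs
      rw [hz]
      simp
  rw [h1, dirLaw_pre]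
  have h2 : Av n (fun l => (if l ∈ {l | pos ω 0 l = 0} then (1 : ℝ) else 0)) =
      Av n (fun l => 2 / Real.pi * ∫ φ in (0:ℝ)..(Real.pi / 2),
        ind ((pos ω 0 l).1 + (pos ω 0 l).2) *
          Real.cos (φ * ((pos ω 0 l).1 - (pos ω 0 l).2 : ℤ))) := by
    congr 1
    funext l
    exact hint l
  have h3 : Av n (fun l => (@ite ℝ (l ∈ {l | pos ω 0 l = 0}) (Classical.propDecidable _) 1 0)) =
      Av n (fun l => (if l ∈ {l | pos ω 0 l = 0} then (1 : ℝ) else 0)) := by
    congr 1
    funext l
    by_cases hl : l ∈ {l | pos ω 0 l = 0}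
    · rw [if_pos hl, if_pos hl]
    · rw [if_neg hl, if_neg hl]
  rw [h3, h2, Av_mul, ← Av_integral]
  · congr 1
    apply intervalIntegral.integral_congr
    intro φ _
    simp only
    rw [Av_cos h]
    simp
  · intro l
    fun_prop

/-- number of points in `(x, y]` -/
noncomputable def cnt (a : ℤ → Bool) (x y : ℤ) : ℕ := ((Finset.Ioc x y).filter (fun t => a t = true)).card

lemma cnt_self (x : ℤ) : cnt a x x = 0 := by simp [cnt]

lemma cnt_next (h : TwoSided a) (s y : ℤ) (hy : s + up a s ≤ y) :
    cnt a s y = cnt a (s + up a s) y + 1 := by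
  obtain ⟨u1, u2, u3⟩ := up_spec h s
  unfold cnt
  have : (Finset.Ioc s y).filter (fun t => a t = true) =
      insert (s + (up a s : ℤ)) ((Finset.Ioc (s + up a s) y).filter (fun t => a t = true)) := by
    ext t
    simp only [Finset.mem_filter, Finset.mem_Ioc, Finset.mem_insert]
    constructor
    · rintro ⟨⟨h1, h2⟩, h3⟩
      have := u3 t h1 h3
      rcases this.eq_or_lt with e | e
      · left; exact e.symm
      · right; exact ⟨⟨e, h2⟩, h3⟩
    · rintro (rfl | ⟨⟨h1, h2⟩, h3⟩)
      · exact ⟨⟨by omega, hy⟩, u2⟩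
      · exact ⟨⟨by omega, h2⟩, h3⟩
  rw [this, Finset.card_insert_of_notMem]
  simp

lemma up_dn (h : TwoSided a) (s : ℤ) (hs : a s = true) : (up a (s - dn a s) : ℤ) = dn a s := by
  obtain ⟨u1, u2, u3⟩ := up_spec h (s - dn a s)
  obtain ⟨d1, d2, d3⟩ := dn_spec h s
  have h1 := u3 s (by omega) hs
  by_contra hne
  have h2 : s - (dn a s : ℤ) + up a (s - dn a s) < s := by omega
  have h3 := d3 _ h2 u2
  omega

lemma dn_up (h : TwoSided a) (s : ℤ) (hs : a s = true) : (dn a (s + up a s) : ℤ) = up a s := by
  obtain ⟨u1, u2, u3⟩ := up_spec h s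
  obtain ⟨d1, d2, d3⟩ := dn_spec h (s + up a s)
  have h1 := d3 s (by omega) hs
  by_contra hne
  have h2 : s < s + (up a s : ℤ) - dn a (s + up a s) := by omega
  have h3 := u3 _ h2 d2
  omega

/-- The potential bound. -/
lemma green_bound (h : TwoSided a) (h0 : a 0 = true) (t : ℤ) (ht : 0 ≤ t) (hat : a t = true)
    (φ : ℝ) (hsin : Real.sin (φ * up a t) ≠ 0) (N : ℕ) :
    ∑ n ∈ Finset.range N, Wn a φ n 0 ≤ 2 * (cnt a 0 t + 1 / Real.sin (φ * up a t) ^ 2) := by
  set ρ : ℝ := |Real.cos (φ * up a t)| with hρ
  set m : ℝ := 1 / Real.sin (φ * up a t) ^ 2 with hm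
  have hsin2 : 0 < Real.sin (φ * up a t) ^ 2 := by positivity
  have hm0 : 0 < m := by positivity
  have hρ0 : 0 ≤ ρ := abs_nonneg _
  have hρ1 : ρ ≤ 1 := Real.abs_cos_le_one _
  have hρm : m * (1 - ρ ^ 2) = 1 := by
    rw [hρ, sq_abs, hm]
    have : 1 - Real.cos (φ * up a t) ^ 2 = Real.sin (φ * up a t) ^ 2 := by
      have := Real.sin_sq_add_cos_sq (φ * up a t)
      linarith
    rw [this]
    field_simp
  set H : ℤ → ℝ := fun s => if s ≤ t then m + cnt a (max s 0) t else ρ * m with hH
  have Hle : ∀ s, s ≤ t → H s = m + cnt a (max s 0) t := fun s hs => by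
    simp only [hH]; rw [if_pos hs]
  have Hgt : ∀ s, t < s → H s = ρ * m := fun s hs => by
    simp only [hH]; rw [if_neg (by omega)]
  have H0 : ∀ s, 0 ≤ H s := by
    intro s
    simp only [hH]
    split_ifs <;> positivity
  have hsuper : ∀ s, a s = true → (if s = 0 then (1:ℝ) / 2 else 0) +
      (|Real.cos (φ * up a s)| * H (s + up a s) + |Real.cos (φ * dn a s)| * H (s - dn a s)) / 2
        ≤ H s := by
    intro s hs
    obtain ⟨u1, u2, u3⟩ := up_spec h s
    obtain ⟨d1, d2, d3⟩ := dn_spec h s
    have c1 := Real.abs_cos_le_one (φ * up a s)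
    have c2 := Real.abs_cos_le_one (φ * dn a s)
    have k1 : |Real.cos (φ * up a s)| * H (s + up a s) ≤ H (s + up a s) :=
      mul_le_of_le_one_left (H0 _) c1
    have k2 : |Real.cos (φ * dn a s)| * H (s - dn a s) ≤ H (s - dn a s) :=
      mul_le_of_le_one_left (H0 _) c2
    rcases lt_trichotomy s t with hst | hst | hst
    · -- s < t
      have hnext : s + (up a s : ℤ) ≤ t := u3 t hst hat
      have e1 := Hle _ hnext
      have e2 := Hle (s - dn a s) (by omega)
      have e3 := Hle s hst.le
      rcases lt_trichotomy s 0 with hs0 | hs0 | hs0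
      · have h1 : s + (up a s : ℤ) ≤ 0 := u3 0 hs0 h0
        rw [max_eq_right h1] at e1
        rw [max_eq_right (by omega)] at e2
        rw [max_eq_right (by omega)] at e3
        rw [if_neg (by omega)]
        linarith
      · subst hs0
        rw [max_eq_right (by omega)] at e2
        rw [max_eq_right le_rfl] at e3
        rw [max_eq_left (by omega)] at e1
        have := cnt_next h 0 t hnext
        rw [this] at e2 e3
        push_cast at e2 e3
        rw [if_pos rfl]
        linarith
      · rw [if_neg (by omega)]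
        have h1 : 0 ≤ s - (dn a s : ℤ) := d3 0 hs0 h0
        rw [max_eq_left (by omega)] at e1 e2 e3
        have c1' := cnt_next h s t hnext
        have c2' := cnt_next h (s - dn a s) t (by rw [up_dn h s hs]; omega)
        have : s - (dn a s : ℤ) + up a (s - dn a s) = s := by rw [up_dn h s hs]; ring
        rw [this] at c2'
        rw [c2'] at e2
        rw [c1'] at e2 e3
        push_cast at e2 e3
        linarith
    · subst hst
      have e1 := Hgt (s + up a s) (by omega)
      have e2 := Hle (s - dn a s) (by omega)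
      have e3 := Hle s le_rfl
      rw [max_eq_left ht, cnt_self] at e3
      push_cast at e3
      have k1' : |Real.cos (φ * up a s)| * H (s + up a s) = ρ * (ρ * m) := by rw [e1]
      rcases ht.eq_or_lt with hs0 | hs0
      · rw [max_eq_right (by omega)] at e2
        rw [if_pos hs0.symm, k1', e3]
        rw [← hs0, cnt_self] at e2
        push_cast at e2
        rw [← hs0] at k2
        rw [← hs0]
        nlinarith
      · have h1 : 0 ≤ s - (dn a s : ℤ) := d3 0 hs0 h0
        rw [max_eq_left h1] at e2
        have c2' := cnt_next h (s - dn a s) s (by rw [up_dn h s hs]; omega)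
        have : s - (dn a s : ℤ) + up a (s - dn a s) = s := by rw [up_dn h s hs]; ring
        rw [this, cnt_self] at c2'
        rw [c2'] at e2
        push_cast at e2
        rw [if_neg (by omega), k1', e3]
        nlinarith
    · have hprev : t ≤ s - (dn a s : ℤ) := d3 t hst hat
      rw [if_neg (by omega)]
      have e1 := Hgt (s + up a s) (by omega)
      have e3 := Hgt s hst
      rcases hprev.eq_or_lt with hp | hp
      · have e2 := Hle (s - dn a s) (by omega)
        rw [max_eq_left (by omega), ← hp, cnt_self] at e2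
        push_cast at e2
        have hd : (up a t : ℤ) = dn a s := by
          have := up_dn h s hs
          rw [← hp] at this
          exact this
        have hd' : ((dn a s : ℕ) : ℝ) = (up a t : ℕ) := by exact_mod_cast hd.symm
        have : |Real.cos (φ * dn a s)| * H (s - dn a s) = ρ * m := by
          rw [hd', ← hp, e2]; ring
        rw [this]
        linarith
      · have e2 := Hgt (s - dn a s) hp
        linarith
  have hind : ∀ N : ℕ, ∀ s, a s = true → ∑ n ∈ Finset.range N, Wn a φ n s ≤ 2 * H s := by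
    intro N
    induction N with
    | zero => intro s _; simp; exact H0 s
    | succ N ih =>
      intro s hs
      rw [Finset.sum_range_succ']
      obtain ⟨u1, u2, u3⟩ := up_spec h s
      obtain ⟨d1, d2, d3⟩ := dn_spec h s
      have i1 := ih _ u2
      have i2 := ih _ d2
      have : ∑ k ∈ Finset.range N, Wn a φ (k + 1) s =
          (|Real.cos (φ * up a s)| * ∑ n ∈ Finset.range N, Wn a φ n (s + up a s) +
            |Real.cos (φ * dn a s)| * ∑ n ∈ Finset.range N, Wn a φ n (s - dn a s)) / 2 := by
        rw [Finset.mul_sum, Finset.mul_sum, ← Finset.sum_add_distrib, Finset.sum_div]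
        rfl
      rw [this]
      have j1 : |Real.cos (φ * up a s)| * ∑ n ∈ Finset.range N, Wn a φ n (s + up a s) ≤
          |Real.cos (φ * up a s)| * (2 * H (s + up a s)) :=
        mul_le_mul_of_nonneg_left i1 (abs_nonneg _)
      have j2 : |Real.cos (φ * dn a s)| * ∑ n ∈ Finset.range N, Wn a φ n (s - dn a s) ≤
          |Real.cos (φ * dn a s)| * (2 * H (s - dn a s)) :=
        mul_le_mul_of_nonneg_left i2 (abs_nonneg _)
      have h3 := hsuper s hs
      have h4 : Wn a φ 0 s = 2 * (if s = 0 then (1:ℝ) / 2 else 0) := by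
        unfold Wn ind
        split_ifs <;> norm_num
      rw [h4]
      linarith
  have := hind N 0 h0
  rw [Hle 0 ht, max_eq_left le_rfl] at this
  linarith

end Pool.Agent.R294.DPP
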