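import Pool.Agent.R294.DPP2

/-!
# Summability of the return probabilities for the good environments
-/

set_option autoImplicit false

namespace Pool.Agent.R294.DPP

open MeasureTheory ProbabilityTheory Set Filter Topology

variable {a : ℤ → Bool} {ω : Env}

/-- exponents of the periods -/
def kA (j : ℕ) : ℕ := 2 * j ^ 2 + 1

/-- the periods -/
def PA (j : ℕ) : ℕ := 2 ^ kA j

/-- square root scale -/
def RA (j : ℕ) : ℕ := 2 ^ (j ^ 2)

/-- the large gaps -/
def hA : ℕ → ℕ
  | 0 => 0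
  | j + 1 => hA j + 2 ^ (2 * j ^ 2)

lemma PA_eq (j : ℕ) : PA j = 2 * RA j ^ 2 := by
  unfold PA RA kA
  rw [← pow_mul, pow_succ]
  rw [show j ^ 2 * 2 = 2 * j ^ 2 by ring]
  ring

lemma PA_pos (j : ℕ) : 0 < PA j := by unfold PA; positivity
lemma RA_pos (j : ℕ) : 0 < RA j := by unfold RA; positivity

lemma hA_lower (j : ℕ) : PA j ≤ 2 * hA (j + 1) := by
  unfold PA kA hA
  rw [pow_succ]
  omega

lemma hA_upper (j : ℕ) : hA (j + 1) ≤ PA j ∧ (hA (j + 1) < PA j) := by
  have : 3 * hA (j + 1) ≤ 2 * PA j := by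
    induction j with
    | zero => simp [hA, PA, kA]
    | succ j ih =>
      have h1 : hA (j + 1 + 1) = hA (j + 1) + 2 ^ (2 * (j + 1) ^ 2) := rfl
      have h2 : PA (j + 1) = 2 * 2 ^ (2 * (j + 1) ^ 2) := by unfold PA kA; rw [pow_succ]; ring
      have h3 : 2 * PA j ≤ 2 ^ (2 * (j + 1) ^ 2) := by
        unfold PA kA
        calc 2 * 2 ^ (2 * j ^ 2 + 1) = 2 ^ (2 * j ^ 2 + 2) := by ring
          _ ≤ 2 ^ (2 * (j + 1) ^ 2) := by
            apply Nat.pow_le_pow_right (by norm_num)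
            have : 2 * (j + 1) ^ 2 = 2 * j ^ 2 + 2 + 4 * j := by ring
            omega
      omega
  have := PA_pos j
  constructor <;> omega

lemma PA_one : PA 1 = 8 := by simp [PA, kA]
lemma hA_one : hA 1 = 1 := by simp [hA]

attribute [local irreducible] PA RA hA

/-- the thresholds -/
noncomputable def ph (i : ℕ) : ℝ := 1 / ((PA i : ℝ) * RA (i + 1))

lemma ph_pos (i : ℕ) : 0 < ph i := by
  unfold ph
  have h1 : (0:ℝ) < PA i := by exact_mod_cast PA_pos i
  have h2 : (0:ℝ) < RA (i + 1) := by exact_mod_cast RA_pos (i + 1)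
  positivity

/-- the environment has good gaps at all levels -/
def GoodLevels (a : ℤ → Bool) : Prop :=
  ∀ j : ℕ, 1 ≤ j → ∃ t : ℤ, 0 ≤ t ∧ a t = true ∧ up a t = hA j ∧ cnt a 0 t ≤ 2 * PA j

lemma ph_mul_PA (k : ℕ) : ph (k + 3) * PA (k + 5) ≤ 2 ^ 16 / 2 ^ k := by
  unfold ph
  have h1 : (0:ℝ) < PA (k + 3) := by exact_mod_cast PA_pos _
  have h2 : (0:ℝ) < RA (k + 3 + 1) := by exact_mod_cast RA_pos _
  rw [div_mul_eq_mul_div, one_mul, div_le_div_iff₀ (by positivity) (by positivity)]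
  have : PA (k + 5) * 2 ^ k ≤ 2 ^ 16 * (PA (k + 3) * RA (k + 3 + 1)) := by
    unfold PA RA kA
    rw [← pow_add, ← pow_add, ← pow_add]
    apply Nat.pow_le_pow_right (by norm_num)
    have e1 : k ≤ k ^ 2 := Nat.le_self_pow (by norm_num) k
    have e2 : 16 + (2 * (k + 3) ^ 2 + 1 + (k + 3 + 1) ^ 2) =
      2 * (k + 5) ^ 2 + 1 + k ^ 2 - k + k := by
      have : 2 * (k + 5) ^ 2 + 1 + k ^ 2 - k + k = 2 * (k + 5) ^ 2 + 1 + k ^ 2 := by omega
      rw [this]
      have e3 : 16 + (2 * (k + 3) ^ 2 + 1 + (k + 3 + 1) ^ 2) + 0 =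
        3 * k ^ 2 + 20 * k + 51 := by ring
      have e4 : 2 * (k + 5) ^ 2 + 1 + k ^ 2 = 3 * k ^ 2 + 20 * k + 51 := by ring
      omega
    have e4 : 2 * (k + 5) ^ 2 + 1 + k ^ 2 = 3 * k ^ 2 + 20 * k + 51 := by ring
    have e5 : 2 * (k + 5) ^ 2 = 2 * k ^ 2 + 20 * k + 50 := by ring
    omega
  exact_mod_cast this

/-- middle range -/
lemma mid_bound (h : TwoSided a) (h0 : a 0 = true) (hg : GoodLevels a) (k : ℕ) (φ : ℝ)
    (h1 : ph (k + 4) < φ) (h2 : φ ≤ ph (k + 3)) (N : ℕ) :
    ∑ n ∈ Finset.range N, Wn a φ n 0 ≤ 14 * PA (k + 5) := by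
  obtain ⟨t, t0, t1, t2, t3⟩ := hg (k + 5) (by omega)
  have hφ : 0 < φ := (ph_pos _).trans h1
  have hP4 : (0:ℝ) < PA (k + 4) := by exact_mod_cast PA_pos _
  have hP3 : (0:ℝ) < PA (k + 3) := by exact_mod_cast PA_pos _
  have hR5 : (0:ℝ) < RA (k + 5) := by exact_mod_cast RA_pos _
  have hR4 : (0:ℝ) < RA (k + 4) := by exact_mod_cast RA_pos _
  have hup : (PA (k + 4) : ℝ) ≤ 2 * up a t := by
    have := hA_lower (k + 4)
    rw [show k + 4 + 1 = k + 5 from rfl, ← t2] at this
    exact_mod_cast this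
  have hup2 : (up a t : ℝ) ≤ PA (k + 4) := by
    have := (hA_upper (k + 4)).1
    rw [show k + 4 + 1 = k + 5 from rfl, ← t2] at this
    exact_mod_cast this
  clear t2
  -- upper bound of the argument
  have hle : φ * up a t ≤ 1 := by
    have e1 : φ * up a t ≤ ph (k + 3) * PA (k + 4) :=
      mul_le_mul h2 hup2 (by positivity) (ph_pos _).le
    refine e1.trans ?_
    unfold ph
    rw [show k + 3 + 1 = k + 4 from rfl, div_mul_eq_mul_div, one_mul,
      div_le_one (mul_pos hP3 hR4)]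
    have : PA (k + 4) ≤ PA (k + 3) * RA (k + 4) := by
      unfold PA RA kA
      rw [← pow_add]
      apply Nat.pow_le_pow_right (by norm_num)
      have e1 : 2 * (k + 3) ^ 2 + 1 + (k + 4) ^ 2 = 2 * (k + 4) ^ 2 + 1 + (k ^ 2 + 4 * k + 2) := by
        ring
      omega
    exact_mod_cast this
  have hge : 1 / (2 * (RA (k + 5) : ℝ)) ≤ φ * up a t := by
    have e1 : ph (k + 4) * (PA (k + 4) / 2) ≤ φ * up a t :=
      mul_le_mul h1.le (by linarith) (by positivity) hφ.le
    refine le_trans ?_ e1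
    unfold ph
    apply le_of_eq
    rw [show k + 4 + 1 = k + 5 from rfl]
    generalize (PA (k + 4) : ℝ) = x at *
    generalize (RA (k + 5) : ℝ) = y at *
    field_simp
  have hpi := Real.pi_gt_three
  have hpi4 := Real.pi_lt_d2
  have harg0 : 0 < φ * up a t := lt_of_lt_of_le (by positivity) hge
  have hs := Real.mul_le_sin harg0.le (by linarith)
  have hs2 : 1 / (Real.pi * RA (k + 5)) ≤ Real.sin (φ * up a t) := by
    refine le_trans ?_ hs
    calc 1 / (Real.pi * RA (k + 5)) = 2 / Real.pi * (1 / (2 * (RA (k + 5) : ℝ))) := by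
          field_simp
      _ ≤ _ := mul_le_mul_of_nonneg_left hge (by positivity)
  have hspos : 0 < Real.sin (φ * up a t) := lt_of_lt_of_le (by positivity) hs2
  have hgb := green_bound h h0 t t0 t1 φ hspos.ne' N
  refine hgb.trans ?_
  have c1 : (cnt a 0 t : ℝ) ≤ 2 * PA (k + 5) := by exact_mod_cast t3
  have c2 : 1 / Real.sin (φ * up a t) ^ 2 ≤ 5 * PA (k + 5) := by
    have : (1 / (Real.pi * RA (k + 5))) ^ 2 ≤ Real.sin (φ * up a t) ^ 2 :=
      pow_le_pow_left₀ (by positivity) hs2 2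
    calc 1 / Real.sin (φ * up a t) ^ 2 ≤ 1 / (1 / (Real.pi * RA (k + 5))) ^ 2 :=
          one_div_le_one_div_of_le (by positivity) this
      _ = Real.pi ^ 2 * (RA (k + 5) : ℝ) ^ 2 := by field_simp
      _ ≤ 10 * (RA (k + 5) : ℝ) ^ 2 := by
          apply mul_le_mul_of_nonneg_right _ (by positivity)
          nlinarith
      _ = 5 * PA (k + 5) := by
          rw [PA_eq]; push_cast; ring
  linarith

/-- large range -/
lemma large_bound (h : TwoSided a) (h0 : a 0 = true) (hg : GoodLevels a) (φ : ℝ)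
    (h1 : ph 3 < φ) (h2 : φ ≤ Real.pi / 2) (N : ℕ) :
    ∑ n ∈ Finset.range N, Wn a φ n 0 ≤ 2 * (16 + Real.pi ^ 2 / (4 * ph 3 ^ 2)) := by
  obtain ⟨t, t0, t1, t2, t3⟩ := hg 1 le_rfl
  have hup : up a t = 1 := by rw [t2, hA_one]
  have hp3 := ph_pos 3
  have hφ : 0 < φ := hp3.trans h1
  have hs := Real.mul_le_sin hφ.le h2
  have hpi := Real.pi_pos
  have hspos : 0 < Real.sin φ := lt_of_lt_of_le (by positivity) hs
  have hgb := green_bound h h0 t t0 t1 φ (by rw [hup]; simpa using hspos.ne') N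
  rw [hup] at hgb
  simp only [Nat.cast_one, mul_one] at hgb
  refine hgb.trans ?_
  have c1 : (cnt a 0 t : ℝ) ≤ 16 := by
    have : cnt a 0 t ≤ 16 := by rw [PA_one] at t3; exact t3
    exact_mod_cast this
  have c2 : 1 / Real.sin φ ^ 2 ≤ Real.pi ^ 2 / (4 * ph 3 ^ 2) := by
    have e1 : 2 / Real.pi * ph 3 ≤ Real.sin φ :=
      (mul_le_mul_of_nonneg_left h1.le (by positivity)).trans hs
    calc 1 / Real.sin φ ^ 2 ≤ 1 / (2 / Real.pi * ph 3) ^ 2 :=
          one_div_le_one_div_of_le (by positivity) (pow_le_pow_left₀ (by positivity) e1 2)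
      _ = _ := by field_simp; norm_num
  linarith

lemma ph_cases (φ : ℝ) (K : ℕ) : ph 3 < φ ∨ (∃ k < K, ph (k + 4) < φ ∧ φ ≤ ph (k + 3)) ∨
    φ ≤ ph (K + 3) := by
  induction K with
  | zero =>
    rcases lt_or_ge (ph 3) φ with h | h
    · left; exact h
    · right; right; exact h
  | succ K ih =>
    rcases ih with h | ⟨k, hk, h1⟩ | h
    · left; exact h
    · right; left; exact ⟨k, by omega, h1⟩
    · rcases lt_or_ge (ph (K + 4)) φ with h' | h'
      · right; left; exact ⟨K, by omega, h', h⟩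
      · right; right; exact h'

/-- the integrable majorant -/
noncomputable def maj (N K : ℕ) (φ : ℝ) : ℝ :=
  2 * (16 + Real.pi ^ 2 / (4 * ph 3 ^ 2)) +
    ∑ k ∈ Finset.range K, (Iic (ph (k + 3))).indicator (fun _ => 14 * (PA (k + 5) : ℝ)) φ +
    (Iic (ph (K + 3))).indicator (fun _ => (N : ℝ)) φ

lemma sum_Wn_le_maj (h : TwoSided a) (h0 : a 0 = true) (hg : GoodLevels a) (φ : ℝ)
    (h2 : φ ≤ Real.pi / 2) (N K : ℕ) :
    ∑ n ∈ Finset.range N, Wn a φ n 0 ≤ maj N K φ := by
  have hp3 := ph_pos 3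
  have n1 : 0 ≤ 2 * (16 + Real.pi ^ 2 / (4 * ph 3 ^ 2)) := by positivity
  have n2 : ∀ k ∈ Finset.range K,
      0 ≤ (Iic (ph (k + 3))).indicator (fun _ => 14 * (PA (k + 5) : ℝ)) φ := fun k _ =>
    indicator_nonneg (fun _ _ => by positivity) _
  have n2' := Finset.sum_nonneg n2
  have n3 : 0 ≤ (Iic (ph (K + 3))).indicator (fun _ => (N : ℝ)) φ :=
    indicator_nonneg (fun _ _ => by positivity) _
  unfold maj
  rcases ph_cases φ K with hc | ⟨k, hk, hk1, hk2⟩ | hc
  · have := large_bound h h0 hg φ hc h2 N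
    linarith
  · have := mid_bound h h0 hg k φ hk1 hk2 N
    have e := Finset.single_le_sum n2 (Finset.mem_range.2 hk)
    rw [indicator_of_mem (show φ ∈ Iic (ph (k + 3)) from hk2)] at e
    linarith
  · have e : (Iic (ph (K + 3))).indicator (fun _ => (N : ℝ)) φ = N :=
      indicator_of_mem (show φ ∈ Iic (ph (K + 3)) from hc) _
    have : ∑ n ∈ Finset.range N, Wn a φ n 0 ≤ N := by
      calc ∑ n ∈ Finset.range N, Wn a φ n 0 ≤ ∑ n ∈ Finset.range N, (1:ℝ) :=
            Finset.sum_le_sum fun n _ => Wn_le_one φ n 0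
        _ = N := by simp
    linarith

lemma integral_ind_le (δ c : ℝ) (hδ : 0 ≤ δ) (hc : 0 ≤ c) :
    IntervalIntegrable ((Iic δ).indicator (fun _ => c)) volume 0 (Real.pi / 2) ∧
    ∫ φ in (0:ℝ)..(Real.pi / 2), (Iic δ).indicator (fun _ => c) φ ≤ δ * c := by
  have hpi : 0 ≤ Real.pi / 2 := by have := Real.pi_pos; positivity
  constructor
  · rw [intervalIntegrable_iff_integrableOn_Ioc_of_le hpi]
    have : IntegrableOn (fun _ : ℝ => c) (Ioc 0 (Real.pi / 2)) volume :=
      integrableOn_const (by simp)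
    exact this.indicator measurableSet_Iic
  · rw [intervalIntegral.integral_of_le hpi, setIntegral_indicator measurableSet_Iic,
      setIntegral_const, smul_eq_mul]
    apply mul_le_mul_of_nonneg_right _ hc
    have h1 : Ioc 0 (Real.pi / 2) ∩ Iic δ ⊆ Ioc 0 δ := fun x hx => ⟨hx.1.1, hx.2⟩
    calc volume.real (Ioc 0 (Real.pi / 2) ∩ Iic δ) ≤ volume.real (Ioc 0 δ) :=
          measureReal_mono h1 (by simp)
      _ = δ := by simp [hδ]

lemma maj_integral (N : ℕ) : IntervalIntegrable (maj N N) volume 0 (Real.pi / 2) ∧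
    ∫ φ in (0:ℝ)..(Real.pi / 2), maj N N φ ≤
      Real.pi / 2 * (2 * (16 + Real.pi ^ 2 / (4 * ph 3 ^ 2))) + 14 * 2 ^ 17 + 1 := by
  have i1 : IntervalIntegrable (fun _ : ℝ => 2 * (16 + Real.pi ^ 2 / (4 * ph 3 ^ 2))) volume 0
      (Real.pi / 2) := intervalIntegrable_const
  have i2 : ∀ k ∈ Finset.range N, IntervalIntegrable
      ((Iic (ph (k + 3))).indicator (fun _ => 14 * (PA (k + 5) : ℝ))) volume 0 (Real.pi / 2) :=
    fun k _ => (integral_ind_le _ _ (ph_pos _).le (by positivity)).1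
  have i2' : IntervalIntegrable (fun φ => ∑ k ∈ Finset.range N,
      (Iic (ph (k + 3))).indicator (fun _ => 14 * (PA (k + 5) : ℝ)) φ) volume 0
      (Real.pi / 2) := by
    have := IntervalIntegrable.sum (Finset.range N) i2
    have e : (fun φ => ∑ k ∈ Finset.range N,
      (Iic (ph (k + 3))).indicator (fun _ => 14 * (PA (k + 5) : ℝ)) φ) =
      ∑ k ∈ Finset.range N, (Iic (ph (k + 3))).indicator (fun _ => 14 * (PA (k + 5) : ℝ)) := by
      funext φ
      rw [Finset.sum_apply]
    rw [e]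
    exact this
  have i3 : IntervalIntegrable ((Iic (ph (N + 3))).indicator (fun _ => (N : ℝ))) volume 0
      (Real.pi / 2) := (integral_ind_le _ _ (ph_pos _).le (by positivity)).1
  constructor
  · exact (i1.add i2').add i3
  · unfold maj
    rw [intervalIntegral.integral_add (i1.add i2') i3, intervalIntegral.integral_add i1 i2',
      intervalIntegral.integral_finset_sum i2, intervalIntegral.integral_const]
    have e1 : ∑ k ∈ Finset.range N, ∫ φ in (0:ℝ)..(Real.pi / 2),
        (Iic (ph (k + 3))).indicator (fun _ => 14 * (PA (k + 5) : ℝ)) φ ≤ 14 * 2 ^ 17 := by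
      calc _ ≤ ∑ k ∈ Finset.range N, 14 * 2 ^ 16 * (1 / 2 : ℝ) ^ k := by
            apply Finset.sum_le_sum
            intro k _
            refine (integral_ind_le _ _ (ph_pos _).le (by positivity)).2.trans ?_
            have := ph_mul_PA k
            have e : (2 ^ 16 / 2 ^ k : ℝ) = 2 ^ 16 * (1 / 2 : ℝ) ^ k := by
              rw [one_div, inv_pow]; rfl
            rw [e] at this
            linarith
        _ = 14 * 2 ^ 16 * ∑ k ∈ Finset.range N, (1 / 2 : ℝ) ^ k := by rw [Finset.mul_sum]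
        _ ≤ 14 * 2 ^ 16 * 2 := by
            apply mul_le_mul_of_nonneg_left _ (by positivity)
            rw [geom_sum_eq (by norm_num)]
            have : (0:ℝ) < (1 / 2) ^ N := by positivity
            rw [div_le_iff_of_neg (by norm_num)]
            linarith
        _ = 14 * 2 ^ 17 := by norm_num
    have e2 : ∫ φ in (0:ℝ)..(Real.pi / 2), (Iic (ph (N + 3))).indicator (fun _ => (N : ℝ)) φ ≤ 1 := by
      refine (integral_ind_le _ _ (ph_pos _).le (by positivity)).2.trans ?_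
      unfold ph
      have h1 : (0:ℝ) < PA (N + 3) := by exact_mod_cast PA_pos _
      have h2 : (0:ℝ) < RA (N + 3 + 1) := by exact_mod_cast RA_pos _
      rw [div_mul_eq_mul_div, one_mul, div_le_one (by positivity)]
      have h3 : N ≤ PA (N + 3) := by
        unfold PA kA
        calc N ≤ 2 ^ N := Nat.lt_two_pow_self.le
          _ ≤ _ := Nat.pow_le_pow_right (by norm_num) (by nlinarith)
      have h4 : 1 ≤ RA (N + 3 + 1) := RA_pos _
      have : N ≤ PA (N + 3) * RA (N + 3 + 1) := by nlinarith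
      exact_mod_cast this
    rw [smul_eq_mul]
    linarith

/-- the return probabilities are summable -/
theorem transient_of_good (hd : IsDiag a ω) (h : TwoSided a) (h0 : a 0 = true)
    (hg : GoodLevels a) : ∀ᵐ ξ ∂dirLaw, {n | walk ω ξ n = 0}.Finite := by
  have hpi := Real.pi_pos
  set K : ℝ := 2 / Real.pi *
    (Real.pi / 2 * (2 * (16 + Real.pi ^ 2 / (4 * ph 3 ^ 2))) + 14 * 2 ^ 17 + 1) with hK
  have hsum : ∀ N, ∑ n ∈ Finset.range N, dirLaw.real {ξ | walk ω ξ n = 0} ≤ K := by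
    intro N
    have e1 : ∑ n ∈ Finset.range N, dirLaw.real {ξ | walk ω ξ n = 0} =
        2 / Real.pi * ∫ φ in (0:ℝ)..(Real.pi / 2), ∑ n ∈ Finset.range N, Cn a φ n 0 := by
      rw [intervalIntegral.integral_finset_sum, Finset.mul_sum]
      · exact Finset.sum_congr rfl fun n _ => prob_zero hd n
      · intro n _
        exact (continuous_Cn n 0).intervalIntegrable _ _
    rw [e1, hK]
    apply mul_le_mul_of_nonneg_left _ (by positivity)
    refine le_trans ?_ (maj_integral N).2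
    apply intervalIntegral.integral_mono_on (by positivity)
    · exact (continuous_finset_sum _ fun n _ => continuous_Cn n 0).intervalIntegrable _ _
    · exact (maj_integral N).1
    · intro φ hφ
      refine le_trans ?_ (sum_Wn_le_maj h h0 hg φ hφ.2 N N)
      exact Finset.sum_le_sum fun n _ => (le_abs_self _).trans (abs_Cn_le φ n 0)
  have hsummable : Summable (fun n => dirLaw.real {ξ | walk ω ξ n = 0}) :=
    summable_of_sum_range_le (fun n => measureReal_nonneg) hsum
  have hne : ∑' n, dirLaw {ξ | walk ω ξ n = 0} ≠ ⊤ := by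
    have := hsummable.tsum_ofReal_ne_top
    convert this using 3 with n
    rw [ofReal_measureReal]
  have := measure_setOf_frequently_eq_zero hne
  rw [ae_iff]
  refine measure_mono_null ?_ this
  intro ξ hξ
  have hξ' : {n | walk ω ξ n = 0}.Infinite := hξ
  exact Nat.frequently_atTop_iff_infinite.2 hξ'

end Pool.Agent.R294.DPP
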