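import Pool.Agent.R294.DPP3

/-!
# The arithmetic of the odometer environments
-/

set_option autoImplicit false

namespace Pool.Agent.R294.DPP

open MeasureTheory ProbabilityTheory Set Filter Topology

/-- half periods -/
def HP (i : ℕ) : ℕ := 2 ^ (2 * i ^ 2)

lemma PA_HP (i : ℕ) : PA i = 2 * HP i := by
  unfold PA HP kA
  rw [pow_succ]; ring

lemma HP_pos (i : ℕ) : 0 < HP i := by unfold HP; positivity

lemma hA_succ (i : ℕ) : hA (i + 1) = hA i + HP i := rfl

lemma two_PA_le (i : ℕ) : 2 * PA i ≤ HP (i + 1) := by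
  unfold PA kA HP
  calc 2 * 2 ^ (2 * i ^ 2 + 1) = 2 ^ (2 * i ^ 2 + 2) := by ring
    _ ≤ 2 ^ (2 * (i + 1) ^ 2) := by
      apply Nat.pow_le_pow_right (by norm_num)
      have : 2 * (i + 1) ^ 2 = 2 * i ^ 2 + 2 + 4 * i := by ring
      omega

lemma PA_dvd_HP {i j : ℕ} (h : i < j) : PA i ∣ HP j := by
  unfold PA HP kA
  apply pow_dvd_pow
  have : (i + 1) ^ 2 ≤ j ^ 2 := Nat.pow_le_pow_left h 2
  have e : (i + 1) ^ 2 = i ^ 2 + 2 * i + 1 := by ring
  omega

lemma PA_dvd {i j : ℕ} (h : i ≤ j) : PA i ∣ PA j := by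
  unfold PA kA
  apply pow_dvd_pow
  have : i ^ 2 ≤ j ^ 2 := Nat.pow_le_pow_left h 2
  omega

lemma hA_mod {i j : ℕ} (h : i < j) : ∃ q, hA j = hA i + HP i + q * PA i := by
  induction j with
  | zero => omega
  | succ j ih =>
    rcases Nat.lt_succ_iff_lt_or_eq.1 h with h' | h'
    · obtain ⟨q, hq⟩ := ih h'
      obtain ⟨r, hr⟩ := PA_dvd_HP h'
      refine ⟨q + r, ?_⟩
      rw [hA_succ, hq, hr]
      ring
    · subst h'
      exact ⟨0, by rw [hA_succ]; ring⟩

lemma hA_pos (i : ℕ) : 0 < hA (i + 1) := by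
  have := hA_lower i
  have := PA_pos i
  omega

attribute [local irreducible] PA RA hA HP

/-- the points of the one dimensional odometer set with periods `P` and holes of length `L` -/
def isPt (P L : ℕ → ℕ) (c : ℕ → ℤ) (s : ℤ) : Prop :=
  ∀ j, 1 ≤ j → ¬ (1 ≤ (c j + s) % P j ∧ (c j + s) % P j < L j)

/-- compatible residues -/
def Compat (P : ℕ → ℕ) (c : ℕ → ℤ) : Prop := ∀ i j, i ≤ j → (P i : ℤ) ∣ c j - c i

/-- no integer solution -/
def NonInt (P : ℕ → ℕ) (c : ℕ → ℤ) : Prop := ∀ s : ℤ, ∃ j, ¬ (P j : ℤ) ∣ c j + s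

variable {c : ℕ → ℤ}

lemma D_mono (hc : Compat PA c) {i j : ℕ} (h : i ≤ j) {s : ℤ} (hD : (PA j : ℤ) ∣ c j + s) :
    (PA i : ℤ) ∣ c i + s := by
  have h1 := hc i j h
  have h2 : (PA i : ℤ) ∣ PA j := by exact_mod_cast PA_dvd h
  have h3 := dvd_sub (h2.trans hD) h1
  have : c j + s - (c j - c i) = c i + s := by ring
  rwa [this] at h3

lemma emod_eq_of {n r x : ℤ} (hr : 0 ≤ r) (hrn : r < n) (h : n ∣ x - r) : x % n = r := by
  obtain ⟨q, hq⟩ := h
  have : x = r + n * q := by linarith
  rw [this, Int.add_mul_emod_self_left, Int.emod_eq_of_lt hr hrn]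

/-- F4 -/
lemma gap_of (hc : Compat PA c) (j : ℕ) (hj : 1 ≤ j) (s : ℤ) (hD : (PA j : ℤ) ∣ c j + s)
    (hnD : ¬ (PA (j + 1) : ℤ) ∣ c (j + 1) + s)
    (hs : ∀ i, j < i → ¬ (1 ≤ (c i + s) % PA i ∧ (c i + s) % PA i < hA i)) :
    isPt PA hA c s ∧ isPt PA hA c (s + hA j) ∧
      ∀ t, s < t → t < s + hA j → ¬ isPt PA hA c t := by
  obtain ⟨j', rfl⟩ : ∃ j', j = j' + 1 := ⟨j - 1, by omega⟩
  set j := j' + 1 with hjdef
  have hhj : (hA j : ℤ) < PA j' := by exact_mod_cast (hA_upper j').2
  have hPj : (PA j' : ℤ) ≤ PA j := by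
    exact_mod_cast Nat.le_of_dvd (PA_pos _) (PA_dvd (Nat.le_succ j'))
  have hPpos : (0:ℤ) < PA j := by exact_mod_cast PA_pos j
  refine ⟨?_, ?_, ?_⟩
  · intro i hi
    rcases le_or_gt i j with h | h
    · have := D_mono hc h hD
      rw [Int.emod_eq_zero_of_dvd this]
      omega
    · exact hs i h
  · intro i hi
    rcases lt_trichotomy i j with h | h | h
    · -- i < j
      have hDi := D_mono hc h.le hD
      obtain ⟨q, hq⟩ := hA_mod h
      obtain ⟨i', rfl⟩ : ∃ i', i = i' + 1 := ⟨i - 1, by omega⟩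
      have h1 := (hA_upper i').2
      have h2 := two_PA_le i'
      have h3 := PA_HP (i' + 1)
      have : (c (i' + 1) + (s + hA j)) % PA (i' + 1) = hA (i' + 1) + HP (i' + 1) := by
        apply emod_eq_of
        · positivity
        · have : hA (i' + 1) + HP (i' + 1) < PA (i' + 1) := by omega
          exact_mod_cast this
        · rw [hq]
          push_cast
          obtain ⟨w, hw⟩ := hDi
          exact ⟨w + q, by linear_combination hw⟩
      rw [this]
      have := HP_pos (i' + 1)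
      omega
    · subst h
      have : (c j + (s + hA j)) % PA j = hA j := by
        apply emod_eq_of
        · positivity
        · omega
        · obtain ⟨w, hw⟩ := hD
          exact ⟨w, by linear_combination hw⟩
      rw [this]
      omega
    · -- i > j
      have hPi : (0:ℤ) < PA i := by exact_mod_cast PA_pos i
      have hnDi : ¬ (PA i : ℤ) ∣ c i + s := fun h' => hnD (D_mono hc h h')
      set R := (c i + s) % PA i with hR
      have hR0 : 0 ≤ R := Int.emod_nonneg _ hPi.ne'
      have hR1 : R < PA i := Int.emod_lt_of_pos _ hPi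
      have hRne : R ≠ 0 := fun h' => hnDi (Int.dvd_of_emod_eq_zero h')
      have hji : (PA j : ℤ) ∣ PA i := by exact_mod_cast PA_dvd h.le
      have hdiv : (PA i : ℤ) ∣ c i + s - R := Int.dvd_self_sub_of_emod_eq rfl
      have hRdvd : (PA j : ℤ) ∣ R := by
        have h1 : (PA j : ℤ) ∣ c i + s := by
          have := dvd_add hD (hc j i h.le)
          have e : c j + s + (c i - c j) = c i + s := by ring
          rwa [e] at this
        have h2 := dvd_sub h1 (hji.trans hdiv)
        have e : c i + s - (c i + s - R) = R := by ring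
        rwa [e] at h2
      have hsi := hs i h
      have hRh : (hA i : ℤ) ≤ R := by
        by_contra hlt
        push Not at hlt
        exact hsi ⟨by omega, hlt⟩
      have hRu : R + PA j ≤ PA i := by
        obtain ⟨u, hu⟩ := hRdvd
        obtain ⟨v, hv⟩ := hji
        have : u < v := by
          by_contra hge
          push Not at hge
          have : (PA j : ℤ) * v ≤ PA j * u := mul_le_mul_of_nonneg_left hge hPpos.le
          omega
        have : (PA j : ℤ) * (u + 1) ≤ PA j * v := mul_le_mul_of_nonneg_left this hPpos.le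
        rw [hu, hv]
        linarith
      have : (c i + (s + hA j)) % PA i = R + hA j := by
        apply emod_eq_of
        · positivity
        · omega
        · have e : c i + (s + hA j) - (R + hA j) = c i + s - R := by ring
          rw [e]; exact hdiv
      rw [this]
      omega
  · intro t h1 h2 ht
    have h3 := ht j hj
    have : (c j + t) % PA j = t - s := by
      apply emod_eq_of
      · omega
      · omega
      · obtain ⟨w, hw⟩ := hD
        exact ⟨w, by linear_combination hw⟩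
    rw [this] at h3
    omega

/-- Claim 1 -/
lemma next_mult (hc : Compat PA c) (j : ℕ) (t : ℤ) (ht : isPt PA hA c t) :
    ∃ s, t ≤ s ∧ s < t + PA j ∧ (PA j : ℤ) ∣ c j + s ∧ isPt PA hA c s := by
  have hPj : (0:ℤ) < PA j := by exact_mod_cast PA_pos j
  set x := (-(c j + t)) % PA j with hx
  have hx0 : 0 ≤ x := Int.emod_nonneg _ hPj.ne'
  have hx1 : x < PA j := Int.emod_lt_of_pos _ hPj
  have hD : (PA j : ℤ) ∣ c j + (t + x) := by
    have h1 : (PA j : ℤ) ∣ -(c j + t) - x := Int.dvd_self_sub_of_emod_eq rfl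
    have h2 := (dvd_neg (a := (PA j : ℤ))).2 h1
    have e : -(-(c j + t) - x) = c j + (t + x) := by ring
    rwa [e] at h2
  refine ⟨t + x, by omega, by omega, hD, ?_⟩
  intro i hi
  rcases le_or_gt i j with h | h
  · have := D_mono hc h hD
    rw [Int.emod_eq_zero_of_dvd this]
    omega
  · rintro ⟨h1, h2⟩
    have hPi : (0:ℤ) < PA i := by exact_mod_cast PA_pos i
    set R := (c i + (t + x)) % PA i with hR
    have hR1 : R < PA i := Int.emod_lt_of_pos _ hPi
    have hji : (PA j : ℤ) ∣ PA i := by exact_mod_cast PA_dvd h.le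
    have hdiv : (PA i : ℤ) ∣ c i + (t + x) - R := Int.dvd_self_sub_of_emod_eq rfl
    have hRdvd : (PA j : ℤ) ∣ R := by
      have h1 : (PA j : ℤ) ∣ c i + (t + x) := by
        have := dvd_add hD (hc j i h.le)
        have e : c j + (t + x) + (c i - c j) = c i + (t + x) := by ring
        rwa [e] at this
      have h2 := dvd_sub h1 (hji.trans hdiv)
      have e : c i + (t + x) - (c i + (t + x) - R) = R := by ring
      rwa [e] at h2
    have hRge : (PA j : ℤ) ≤ R := Int.le_of_dvd (by omega) hRdvd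
    apply ht i hi
    have : (c i + t) % PA i = R - x := by
      apply emod_eq_of
      · omega
      · omega
      · have e : c i + t - (R - x) = c i + (t + x) - R := by ring
        rw [e]; exact hdiv
    rw [this]
    omega

lemma up_eq {a : ℤ → Bool} {s : ℤ} {k : ℕ} (hk : 0 < k) (h1 : a (s + k) = true)
    (h2 : ∀ t, s < t → t < s + k → ¬ a t = true) : up a s = k := by
  unfold up
  have hmem : k ∈ {k : ℕ | 0 < k ∧ a (s + k) = true} := ⟨hk, h1⟩
  apply le_antisymm (Nat.sInf_le hmem)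
  obtain ⟨hm, hm2⟩ := Nat.sInf_mem ⟨k, hmem⟩
  by_contra hlt
  push Not at hlt
  exact h2 _ (by omega) (by omega) hm2

lemma cnt_le {a : ℤ → Bool} {x y : ℤ} {n : ℕ} (h : y ≤ x + n) : cnt a x y ≤ n := by
  unfold cnt
  refine (Finset.card_filter_le _ _).trans ?_
  rw [Int.card_Ioc]
  omega

lemma cnt_add {a : ℤ → Bool} {x y z : ℤ} : cnt a x z ≤ cnt a x y + cnt a y z := by
  unfold cnt
  refine le_trans ?_ (Finset.card_union_le _ _)
  apply Finset.card_le_card
  intro t
  simp only [Finset.mem_filter, Finset.mem_Ioc, Finset.mem_union]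
  rintro ⟨⟨h1, h2⟩, h3⟩
  rcases le_or_gt t y with h | h
  · left; exact ⟨⟨h1, h⟩, h3⟩
  · right; exact ⟨⟨h, h2⟩, h3⟩

lemma cnt_gap {a : ℤ → Bool} {s : ℤ} {k : ℕ}
    (h2 : ∀ t, s < t → t < s + k → ¬ a t = true) : cnt a s (s + k) ≤ 1 := by
  unfold cnt
  apply Finset.card_le_one.2
  intro x hx y hy
  simp only [Finset.mem_filter, Finset.mem_Ioc] at hx hy
  have e1 : x = s + k := by
    by_contra hne
    exact h2 x hx.1.1 (by omega) hx.2
  have e2 : y = s + k := by
    by_contra hne
    exact h2 y hy.1.1 (by omega) hy.2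
  rw [e1, e2]

/-- F5 -/
lemma good_gap (hc : Compat PA c) (hn : NonInt PA c) {a : ℤ → Bool}
    (ha : ∀ s, a s = true ↔ isPt PA hA c s) (t : ℤ) (ht : a t = true) (j : ℕ) (hj : 1 ≤ j) :
    ∃ s, t ≤ s ∧ a s = true ∧ a (s + hA j) = true ∧ up a s = hA j ∧ cnt a t s ≤ 2 * PA j := by
  obtain ⟨s1, h1, h2, h3, h4⟩ := next_mult hc j t ((ha t).1 ht)
  have hhj : 0 < hA j := by
    obtain ⟨j', rfl⟩ : ∃ j', j = j' + 1 := ⟨j - 1, by omega⟩
    exact hA_pos j'
  by_cases hD : (PA (j + 1) : ℤ) ∣ c (j + 1) + s1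
  · -- divisible: find the maximal level
    classical
    have hex := hn s1
    set l := Nat.find hex with hl
    have hl1 : ¬ (PA l : ℤ) ∣ c l + s1 := Nat.find_spec hex
    have hlj : j + 1 < l := by
      by_contra hle
      push Not at hle
      exact hl1 (D_mono hc hle hD)
    obtain ⟨i, hi⟩ : ∃ i, l = i + 1 := ⟨l - 1, by omega⟩
    have hDi : (PA i : ℤ) ∣ c i + s1 := by
      by_contra hcon
      have : l ≤ i := Nat.find_min' hex hcon
      omega
    rw [hi] at hl1
    obtain ⟨g1, g2, g3⟩ := gap_of hc i (by omega) s1 hDi hl1 (fun k hk => h4 k (by omega))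
    obtain ⟨s2, k1, k2, k3, k4⟩ := next_mult hc j (s1 + hA i) g2
    have hPj : (0:ℤ) < PA j := by exact_mod_cast PA_pos j
    have hnD : ¬ (PA (j + 1) : ℤ) ∣ c (j + 1) + s2 := by
      intro hcon
      have hdiff := dvd_sub hcon hD
      have e : c (j + 1) + s2 - (c (j + 1) + s1) = hA i + (s2 - (s1 + hA i)) := by ring
      rw [e] at hdiff
      have hup := (hA_upper j).2
      have htwo := two_PA_le j
      have hHP := PA_HP (j + 1)
      have hpos := hA_pos j
      rcases (show j + 1 = i ∨ j + 1 < i by omega) with hji | hji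
      · rw [← hji] at hdiff k1 k2
        have hle := Int.le_of_dvd (by omega) hdiff
        omega
      · obtain ⟨q, hq⟩ := hA_mod hji
        have hdiff2 : (PA (j + 1) : ℤ) ∣ (hA (j + 1) + HP (j + 1) : ℤ) + (s2 - (s1 + hA i)) := by
          have e2 : (hA (j + 1) + HP (j + 1) : ℤ) + (s2 - (s1 + hA i)) =
              hA i + (s2 - (s1 + hA i)) - PA (j + 1) * q := by
            have : (hA i : ℤ) = hA (j + 1) + HP (j + 1) + q * PA (j + 1) := by exact_mod_cast hq
            linear_combination (-1 : ℤ) * this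
          rw [e2]
          exact dvd_sub hdiff (dvd_mul_right _ _)
        have hle := Int.le_of_dvd (by omega) hdiff2
        omega
    obtain ⟨p1, p2, p3⟩ := gap_of hc j hj s2 k3 hnD (fun k hk => k4 k (by omega))
    refine ⟨s2, by omega, (ha _).2 p1, (ha _).2 p2, ?_, ?_⟩
    · exact up_eq hhj ((ha _).2 p2) (fun t ht1 ht2 h => p3 t ht1 ht2 ((ha t).1 h))
    · have c1 : cnt a t s1 ≤ PA j - 1 := cnt_le (by omega)
      have c2 : cnt a s1 (s1 + hA i) ≤ 1 :=
        cnt_gap (fun t ht1 ht2 h => g3 t ht1 ht2 ((ha t).1 h))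
      have c3 : cnt a (s1 + hA i) s2 ≤ PA j - 1 := cnt_le (by omega)
      have c4 := cnt_add (a := a) (x := t) (y := s1) (z := s2)
      have c5 := cnt_add (a := a) (x := s1) (y := s1 + hA i) (z := s2)
      omega
  · obtain ⟨p1, p2, p3⟩ := gap_of hc j hj s1 h3 hD (fun k hk => h4 k (by omega))
    refine ⟨s1, h1, (ha _).2 p1, (ha _).2 p2, ?_, ?_⟩
    · exact up_eq hhj ((ha _).2 p2) (fun t ht1 ht2 h => p3 t ht1 ht2 ((ha t).1 h))
    · have c1 : cnt a t s1 ≤ PA j := cnt_le (by omega)
      omega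

end Pool.Agent.R294.DPP
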