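import Pool.Agent.R294.DPP4

/-!
# The odometer and its environments
-/

set_option autoImplicit false

namespace Pool.Agent.R294.DPP

open MeasureTheory ProbabilityTheory Set Filter Topology

noncomputable section

/-- the Borel sets of the dyadic integers -/
instance instMZ : MeasurableSpace ℤ_[2] := borel _
instance instBZ : BorelSpace ℤ_[2] := ⟨rfl⟩

/-- the Haar probability of the dyadic integers -/
def haar : Measure ℤ_[2] := Measure.addHaarMeasure ⊤

instance : IsProbabilityMeasure haar := ⟨by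
  have := Measure.addHaarMeasure_self (K₀ := (⊤ : TopologicalSpace.PositiveCompacts ℤ_[2]))
  simpa [haar] using this⟩

instance : haar.IsAddHaarMeasure := by unfold haar; infer_instance

lemma erg_add : Ergodic (fun θ : ℤ_[2] => (1 : ℤ_[2]) + θ) haar := by
  have : DenseRange (fun n : ℤ => n • (1 : ℤ_[2])) := by
    have h := PadicInt.denseRange_intCast (p := 2)
    have e : (fun n : ℤ => n • (1 : ℤ_[2])) = (Int.cast : ℤ → ℤ_[2]) := by
      funext n; simp
    rw [e]; exact h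
  exact ergodic_add_left_of_denseRange_zsmul this haar

/-- the residue -/
def res (k : ℕ) (θ : ℤ_[2]) : ℕ := (PadicInt.toZModPow k θ).val

lemma res_lt (k : ℕ) (θ : ℤ_[2]) : res k θ < 2 ^ k := ZMod.val_lt _

lemma measurable_class (k : ℕ) (x : ZMod (2 ^ k)) :
    MeasurableSet {θ : ℤ_[2] | PadicInt.toZModPow k θ = x} := by
  have h1 : {θ : ℤ_[2] | PadicInt.toZModPow k θ = x} =
      (fun θ : ℤ_[2] => θ - (x.val : ℤ_[2])) ⁻¹' {z | ‖z‖ ≤ (2 : ℝ) ^ (-(k : ℤ))} := by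
    ext θ
    show PadicInt.toZModPow k θ = x ↔ ‖θ - (x.val : ℤ_[2])‖ ≤ (2 : ℝ) ^ (-(k : ℤ))
    have h2 := PadicInt.norm_le_pow_iff_mem_span_pow (p := 2) (θ - (x.val : ℤ_[2])) k
    have h3 : (θ - (x.val : ℤ_[2])) ∈ RingHom.ker (PadicInt.toZModPow (p := 2) k) ↔
        PadicInt.toZModPow k θ = x := by
      rw [RingHom.mem_ker, map_sub, sub_eq_zero, map_natCast, ZMod.natCast_zmod_val]
    rw [PadicInt.ker_toZModPow] at h3
    rw [← h3, ← h2]
    simp
  rw [h1]
  apply IsClosed.measurableSet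
  exact (isClosed_le continuous_norm continuous_const).preimage (by fun_prop)

lemma haar_class_eq (k : ℕ) (x : ZMod (2 ^ k)) :
    haar {θ : ℤ_[2] | PadicInt.toZModPow k θ = x} = haar {θ : ℤ_[2] | PadicInt.toZModPow k θ = 0} := by
  have := measure_preimage_add haar (x.val : ℤ_[2]) {θ : ℤ_[2] | PadicInt.toZModPow k θ = x}
  rw [← this]
  congr 1
  ext θ
  show PadicInt.toZModPow k ((x.val : ℤ_[2]) + θ) = x ↔ PadicInt.toZModPow k θ = 0
  rw [map_add, map_natCast, ZMod.natCast_zmod_val]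
  constructor
  · intro h; simpa using h
  · intro h; rw [h, add_zero]

lemma haar_class (k : ℕ) (x : ZMod (2 ^ k)) :
    haar {θ : ℤ_[2] | PadicInt.toZModPow k θ = x} = 1 / 2 ^ k := by
  have h1 : haar (⋃ y ∈ (Finset.univ : Finset (ZMod (2 ^ k))),
      {θ : ℤ_[2] | PadicInt.toZModPow k θ = y}) =
      ∑ y : ZMod (2 ^ k), haar {θ : ℤ_[2] | PadicInt.toZModPow k θ = y} := by
    apply measure_biUnion_finset
    · intro y _ z _ hyz
      rw [Function.onFun, Set.disjoint_left]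
      intro θ h1 h2
      exact hyz (h1.symm.trans h2)
    · intro y _
      exact measurable_class k y
  have h2 : (⋃ y ∈ (Finset.univ : Finset (ZMod (2 ^ k))),
      {θ : ℤ_[2] | PadicInt.toZModPow k θ = y}) = univ := by
    ext θ
    simp
  rw [h2, measure_univ, Finset.sum_congr rfl (fun y _ => haar_class_eq k y), Finset.sum_const,
    Finset.card_univ, ZMod.card] at h1
  rw [haar_class_eq, ENNReal.eq_div_iff (by positivity) (by simp)]
  rw [nsmul_eq_mul] at h1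
  push_cast at h1
  exact h1.symm

lemma haar_finset (k : ℕ) (A : Finset (ZMod (2 ^ k))) :
    haar {θ : ℤ_[2] | PadicInt.toZModPow k θ ∈ A} ≤ A.card / 2 ^ k := by
  have h1 : {θ : ℤ_[2] | PadicInt.toZModPow k θ ∈ A} ⊆
      ⋃ y ∈ A, {θ : ℤ_[2] | PadicInt.toZModPow k θ = y} := by
    intro θ hθ
    simp only [mem_iUnion]
    exact ⟨_, hθ, rfl⟩
  calc haar {θ : ℤ_[2] | PadicInt.toZModPow k θ ∈ A}
      ≤ haar (⋃ y ∈ A, {θ : ℤ_[2] | PadicInt.toZModPow k θ = y}) := measure_mono h1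
    _ ≤ ∑ y ∈ A, haar {θ : ℤ_[2] | PadicInt.toZModPow k θ = y} := measure_biUnion_finset_le _ _
    _ = A.card / 2 ^ k := by
      rw [Finset.sum_congr rfl (fun y _ => haar_class k y), Finset.sum_const, nsmul_eq_mul,
        mul_one_div]

/-- the residues of the shifted point -/
lemma res_add (k : ℕ) (θ : ℤ_[2]) (s : ℤ) :
    (res k (θ + (s : ℤ_[2])) : ℤ) = ((res k θ : ℤ) + s) % ((2 ^ k : ℕ) : ℤ) := by
  unfold res
  rw [map_add, map_intCast]
  have h : PadicInt.toZModPow k θ + (s : ZMod (2 ^ k)) =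
      ((((PadicInt.toZModPow k θ).val : ℤ) + s : ℤ) : ZMod (2 ^ k)) := by
    push_cast
    rw [ZMod.natCast_zmod_val]
  rw [h, ZMod.val_intCast]

lemma res_compat {k l : ℕ} (h : k ≤ l) (θ : ℤ_[2]) :
    ((2 ^ k : ℕ) : ℤ) ∣ (res l θ : ℤ) - res k θ := by
  unfold res
  rw [← PadicInt.cast_toZModPow k l h θ]
  rw [← ZMod.intCast_zmod_eq_zero_iff_dvd]
  push_cast
  rw [ZMod.natCast_zmod_val, ZMod.natCast_val, sub_self]

/-- the event that a hole of length `L` touches the window `[-w, w]` -/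
def touch (k L w : ℕ) : Set ℤ_[2] :=
  {θ | ∃ s : ℤ, |s| ≤ w ∧ ((res k θ : ℤ) + s) % ((2 ^ k : ℕ) : ℤ) < L}

lemma haar_touch (k L w : ℕ) : haar (touch k L w) ≤ ((2 * w + L : ℕ) : ENNReal) / 2 ^ k := by
  classical
  set A : Finset (ZMod (2 ^ k)) := (Finset.Ico (-(w : ℤ)) (L + w)).image (fun z : ℤ => ((z : ℤ) : ZMod (2 ^ k)))
    with hA
  have h1 : touch k L w ⊆ {θ : ℤ_[2] | PadicInt.toZModPow k θ ∈ A} := by
    rintro θ ⟨s, hs, h⟩
    rw [abs_le] at hs
    show PadicInt.toZModPow k θ ∈ A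
    rw [Finset.mem_image]
    set q := ((res k θ : ℤ) + s) % ((2 ^ k : ℕ) : ℤ) with hq
    have hpos : (0 : ℤ) < ((2 ^ k : ℕ) : ℤ) := by positivity
    have hq0 : 0 ≤ q := Int.emod_nonneg _ hpos.ne'
    refine ⟨q - s, ?_, ?_⟩
    · rw [Finset.mem_Ico]
      omega
    · rw [hq]
      push_cast
      have e : (((((res k θ : ℤ) + s) % ((2 ^ k : ℕ) : ℤ) : ℤ)) : ZMod (2 ^ k)) =
          (((res k θ : ℤ) + s : ℤ) : ZMod (2 ^ k)) := ZMod.intCast_mod _ _
      push_cast at e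
      rw [e]
      unfold res
      rw [ZMod.natCast_zmod_val]
      ring
  refine (measure_mono h1).trans ((haar_finset k A).trans ?_)
  apply ENNReal.div_le_div_right
  have : A.card ≤ 2 * w + L := by
    refine Finset.card_image_le.trans ?_
    rw [Int.card_Ico]
    omega
  exact_mod_cast this

/-- the base set of the odometer set -/
def ptSet (k L : ℕ → ℕ) : Set ℤ_[2] :=
  {θ | ∀ j, 1 ≤ j → ¬ (1 ≤ res (k j) θ ∧ res (k j) θ < L j)}

lemma measurable_res (k : ℕ) : Measurable (res k) := by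
  have h : Measurable (fun θ : ℤ_[2] => PadicInt.toZModPow k θ) := by
    apply measurable_to_countable'
    intro x
    exact measurable_class k x
  exact (measurable_from_top (f := fun z : ZMod (2 ^ k) => z.val)).comp h

lemma measurable_ptSet (k L : ℕ → ℕ) : MeasurableSet (ptSet k L) := by
  have : ptSet k L = ⋂ j, ⋂ (_ : 1 ≤ j), (res (k j) ⁻¹' {r | 1 ≤ r ∧ r < L j})ᶜ := by
    ext θ
    simp only [ptSet, mem_iInter]
    rfl
  rw [this]
  refine MeasurableSet.iInter fun j => MeasurableSet.iInter fun _ => ?_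
  exact ((measurable_res _) (MeasurableSet.of_discrete)).compl

open Classical in
/-- the environment -/
def env (k L : ℕ → ℕ) (θ : ℤ_[2]) : Env :=
  fun x => decide (θ + ((x.1 + x.2 : ℤ) : ℤ_[2]) ∈ ptSet k L)

open Classical in
lemma env_iff (k L : ℕ → ℕ) (θ : ℤ_[2]) (x : ℤ × ℤ) :
    env k L θ x = true ↔ θ + ((x.1 + x.2 : ℤ) : ℤ_[2]) ∈ ptSet k L := by
  unfold env
  exact decide_eq_true_iff

lemma measurable_env (k L : ℕ → ℕ) : Measurable (env k L) := by
  apply measurable_pi_lambda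
  intro x
  apply measurable_to_bool
  have : (fun θ => env k L θ x) ⁻¹' {true} =
      (fun θ : ℤ_[2] => θ + ((x.1 + x.2 : ℤ) : ℤ_[2])) ⁻¹' ptSet k L := by
    ext θ
    exact env_iff k L θ x
  rw [this]
  exact (measurable_add_const _) (measurable_ptSet k L)

lemma env_shift (k L : ℕ → ℕ) (θ : ℤ_[2]) (v : ℤ × ℤ) (hv : v.1 + v.2 = 1) :
    shift v (env k L θ) = env k L (1 + θ) := by
  funext x
  apply Bool.eq_iff_iff.2
  show env k L θ (v + x) = true ↔ env k L (1 + θ) x = true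
  rw [env_iff, env_iff]
  have : θ + (((v + x).1 + (v + x).2 : ℤ) : ℤ_[2]) = 1 + θ + ((x.1 + x.2 : ℤ) : ℤ_[2]) := by
    have : (v + x).1 + (v + x).2 = 1 + (x.1 + x.2) := by
      simp only [Prod.fst_add, Prod.snd_add]
      omega
    rw [this]
    push_cast
    ring
  rw [this]

lemma measurable_shift (v : ℤ × ℤ) : Measurable (shift v) :=
  measurable_pi_lambda _ fun _ => measurable_pi_apply _

/-- the law of the odometer environment -/
def QQ (k L : ℕ → ℕ) : Measure Env := haar.map (env k L)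

lemma mp_env (k L : ℕ → ℕ) : MeasurePreserving (env k L) haar (QQ k L) :=
  ⟨measurable_env k L, rfl⟩

instance (k L : ℕ → ℕ) : IsProbabilityMeasure (QQ k L) :=
  Measure.isProbabilityMeasure_map (measurable_env k L).aemeasurable

lemma erg_shift (k L : ℕ → ℕ) (v : ℤ × ℤ) (hv : v.1 + v.2 = 1) :
    Ergodic (shift v) (QQ k L) := by
  have hcomm : shift v ∘ env k L = env k L ∘ (fun θ : ℤ_[2] => (1 : ℤ_[2]) + θ) := by
    funext θ
    exact env_shift k L θ v hv
  exact (mp_env k L).ergodic_of_ergodic_semiconj erg_add (measurable_shift v)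
    (fun θ => (congrFun hcomm θ).symm)

lemma hole_measure (k L : ℕ) :
    haar {θ | 1 ≤ res k θ ∧ res k θ < L} ≤ ((L - 1 : ℕ) : ENNReal) / 2 ^ k := by
  classical
  set A : Finset (ZMod (2 ^ k)) := (Finset.Ico 1 L).image (fun z : ℕ => (z : ZMod (2 ^ k)))
  have h1 : {θ | 1 ≤ res k θ ∧ res k θ < L} ⊆ {θ : ℤ_[2] | PadicInt.toZModPow k θ ∈ A} := by
    rintro θ ⟨h1, h2⟩
    show PadicInt.toZModPow k θ ∈ A
    rw [Finset.mem_image]
    refine ⟨res k θ, Finset.mem_Ico.2 ⟨h1, h2⟩, ?_⟩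
    unfold res
    rw [ZMod.natCast_zmod_val]
  refine (measure_mono h1).trans ((haar_finset k A).trans ?_)
  apply ENNReal.div_le_div_right
  have : A.card ≤ L - 1 := by
    refine Finset.card_image_le.trans ?_
    rw [Nat.card_Ico]
  exact_mod_cast this

lemma ptSet_compl (k L : ℕ → ℕ) :
    haar (ptSet k L)ᶜ ≤ ∑' j : ℕ, ((L (j + 1) - 1 : ℕ) : ENNReal) / 2 ^ (k (j + 1)) := by
  have h1 : (ptSet k L)ᶜ ⊆ ⋃ j : ℕ, {θ | 1 ≤ res (k (j + 1)) θ ∧ res (k (j + 1)) θ < L (j + 1)} := by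
    intro θ hθ
    have hθ' : ¬ ∀ j, 1 ≤ j → ¬ (1 ≤ res (k j) θ ∧ res (k j) θ < L j) := hθ
    push Not at hθ'
    obtain ⟨j, hj, h1, h2⟩ := hθ'
    obtain ⟨j', rfl⟩ : ∃ j', j = j' + 1 := ⟨j - 1, by omega⟩
    rw [mem_iUnion]
    exact ⟨j', h1, h2⟩
  refine (measure_mono h1).trans ((measure_iUnion_le _).trans ?_)
  exact ENNReal.tsum_le_tsum fun j => hole_measure _ _

lemma measurable_O0 : MeasurableSet O0 := by
  have : O0 = (fun ω : Env => ω 0) ⁻¹' {true} := rfl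
  rw [this]
  exact measurable_pi_apply (0 : ℤ × ℤ) (MeasurableSet.singleton true)

lemma QQ_O0 (k L : ℕ → ℕ) : QQ k L O0 = haar (ptSet k L) := by
  unfold QQ
  rw [Measure.map_apply (measurable_env k L)]
  · congr 1
    ext θ
    show env k L θ 0 = true ↔ θ ∈ ptSet k L
    rw [env_iff]
    simp
  · exact measurable_O0

theorem isDPP_QQ (k L : ℕ → ℕ)
    (h : ∑' j : ℕ, ((L (j + 1) - 1 : ℕ) : ENNReal) / 2 ^ (k (j + 1)) < 1) : IsDPP (QQ k L) where
  prob := inferInstance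
  erg1 := erg_shift k L _ (by norm_num)
  erg2 := erg_shift k L _ (by norm_num)
  nonempty := by
    have h1 : haar (ptSet k L)ᶜ < 1 := (ptSet_compl k L).trans_lt h
    have h2 : {ω : Env | ∀ x, ω x = false} ⊆ O0ᶜ := by
      intro ω hω h0
      have h0' : ω 0 = true := h0
      have := hω 0
      rw [this] at h0'
      exact Bool.noConfusion h0'
    refine (measure_mono h2).trans_lt ?_
    have h3 : MeasurableSet (O0 : Set Env) := measurable_O0
    rw [prob_compl_eq_one_sub h3, QQ_O0, ← prob_compl_eq_one_sub (measurable_ptSet k L)]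
    exact h1

/-- transfer of almost sure statements to the Palm measure -/
lemma ae_palm (k L : ℕ → ℕ) (p : Env → Prop) (S : Set Env) (hS : MeasurableSet S)
    (hSp : ∀ ω ∈ S, ω 0 = true → p ω) (hae : ∀ᵐ θ ∂haar, env k L θ ∈ S) :
    ∀ᵐ ω ∂(palm (QQ k L)), p ω := by
  have h1 : ∀ᵐ ω ∂(QQ k L), ω ∈ S := by
    exact (ae_map_iff (p := fun ω => ω ∈ S) (measurable_env k L).aemeasurable hS).2 hae
  have h3 : MeasurableSet (O0 : Set Env) := measurable_O0
  unfold palm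
  have h4 : ∀ᵐ ω ∂(ProbabilityTheory.cond (QQ k L) O0), ω ∈ O0 := ae_cond_mem h3
  have h5 : ∀ᵐ ω ∂(ProbabilityTheory.cond (QQ k L) O0), ω ∈ S :=
    (cond_absolutelyContinuous).ae_le h1
  filter_upwards [h4, h5] with ω hω1 hω2
  exact hSp ω hω2 hω1

/-- residues as an integer sequence -/
def cc (k : ℕ → ℕ) (θ : ℤ_[2]) (j : ℕ) : ℤ := (res (k j) θ : ℤ)

lemma cc_compat (k : ℕ → ℕ) (hk : Monotone k) (θ : ℤ_[2]) (i j : ℕ) (h : i ≤ j) :
    ((2 ^ k i : ℕ) : ℤ) ∣ cc k θ j - cc k θ i := res_compat (hk h) θ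

lemma env_isPt (k L : ℕ → ℕ) (θ : ℤ_[2]) (s : ℤ) :
    env k L θ (s, 0) = true ↔ isPt (fun j => 2 ^ k j) L (cc k θ) s := by
  rw [env_iff]
  simp only [add_zero]
  unfold ptSet isPt cc
  apply forall_congr'
  intro j
  apply imp_congr_right
  intro _
  rw [← res_add]
  apply not_congr
  apply and_congr
  · exact_mod_cast Iff.rfl
  · exact_mod_cast Iff.rfl

lemma env_diag (k L : ℕ → ℕ) (θ : ℤ_[2]) : IsDiag (fun s => env k L θ (s, 0)) (env k L θ) := by
  intro x y
  apply Bool.eq_iff_iff.2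
  rw [env_iff, env_iff]
  simp

lemma ae_not_touch (k L w : ℕ → ℕ)
    (h : ∑' j : ℕ, ((2 * w j + L j : ℕ) : ENNReal) / 2 ^ (k j) ≠ ⊤) :
    ∀ᵐ θ ∂haar, ∃ J, ∀ j, J ≤ j → θ ∉ touch (k j) (L j) (w j) := by
  have h1 : ∑' j, haar (touch (k j) (L j) (w j)) ≠ ⊤ :=
    ne_top_of_le_ne_top h (ENNReal.tsum_le_tsum fun j => haar_touch _ _ _)
  have h2 := ae_eventually_notMem h1
  filter_upwards [h2] with θ hθ
  exact eventually_atTop.1 hθ

/-- two-sidedness from the absence of large holes near the origin -/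
lemma twoSided_of {k L w : ℕ → ℕ} (hk : StrictMono k) {θ : ℤ_[2]} {J : ℕ}
    (hw : ∀ j, J ≤ j → 2 * 2 ^ k j ≤ w (j + 1))
    (hJ : ∀ j, J ≤ j → θ ∉ touch (k j) (L j) (w j)) :
    TwoSided (fun s => env k L θ (s, 0)) := by
  have hdvd : ∀ i j, i ≤ j → ((2 ^ k i : ℕ) : ℤ) ∣ ((2 ^ k j : ℕ) : ℤ) := by
    intro i j hij
    have : (2 : ℕ) ^ k i ∣ 2 ^ k j := pow_dvd_pow 2 (hk.monotone hij)
    exact_mod_cast this
  -- multiples of the level `m` period in the window are points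
  have key : ∀ m, J ≤ m → ∀ t : ℤ, |t| ≤ 2 * 2 ^ k m → ((2 ^ k m : ℕ) : ℤ) ∣ cc k θ m + t →
      env k L θ (t, 0) = true := by
    intro m hm t ht hD
    rw [env_isPt]
    intro i hi
    rcases le_or_gt i m with h | h
    · have h1 := dvd_sub ((hdvd i m h).trans hD) (cc_compat k hk.monotone θ i m h)
      have e : cc k θ m + t - (cc k θ m - cc k θ i) = cc k θ i + t := by ring
      rw [e] at h1
      simp only
      rw [Int.emod_eq_zero_of_dvd h1]
      omega
    · obtain ⟨i', rfl⟩ : ∃ i', i = i' + 1 := ⟨i - 1, by omega⟩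
      have h1 := hJ (i' + 1) (by omega)
      rintro ⟨_, h2⟩
      apply h1
      refine ⟨t, ?_, h2⟩
      have h3 := hw i' (by omega)
      have h4 : (2 : ℕ) ^ k m ≤ 2 ^ k i' := Nat.pow_le_pow_right (by norm_num)
        (hk.monotone (by omega))
      have h5 : ((2 * 2 ^ k m : ℕ) : ℤ) ≤ w (i' + 1) := by
        have : 2 * 2 ^ k m ≤ w (i' + 1) := by omega
        exact_mod_cast this
      push_cast at h5
      omega
  have hex : ∀ m, ∀ b : ℤ, ∃ t : ℤ, b < t ∧ t ≤ b + 2 ^ k m ∧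
      ((2 ^ k m : ℕ) : ℤ) ∣ cc k θ m + t := by
    intro m b
    have hpos : (0 : ℤ) < ((2 ^ k m : ℕ) : ℤ) := by positivity
    set x := (-(cc k θ m + b + 1)) % ((2 ^ k m : ℕ) : ℤ) with hx
    have hx0 : 0 ≤ x := Int.emod_nonneg _ hpos.ne'
    have hx1 : x < ((2 ^ k m : ℕ) : ℤ) := Int.emod_lt_of_pos _ hpos
    refine ⟨b + 1 + x, by omega, ?_, ?_⟩
    · push_cast at hx1; omega
    · have h1 : ((2 ^ k m : ℕ) : ℤ) ∣ -(cc k θ m + b + 1) - x := Int.dvd_self_sub_of_emod_eq rfl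
      have h2 := (dvd_neg (a := ((2 ^ k m : ℕ) : ℤ))).2 h1
      have e : -(-(cc k θ m + b + 1) - x) = cc k θ m + (b + 1 + x) := by ring
      rwa [e] at h2
  intro s
  obtain ⟨m, hm1, hm2⟩ : ∃ m, J ≤ m ∧ |s| ≤ 2 ^ k m := by
    refine ⟨max J s.natAbs, le_max_left _ _, ?_⟩
    have h1 : s.natAbs ≤ k (max J s.natAbs) := (le_max_right _ _).trans (hk.id_le _)
    have h2 : s.natAbs < 2 ^ k (max J s.natAbs) := lt_of_le_of_lt h1 Nat.lt_two_pow_self
    have h3 : (s.natAbs : ℤ) < ((2 ^ k (max J s.natAbs) : ℕ) : ℤ) := by exact_mod_cast h2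
    push_cast at h3
    exact h3.le
  rw [abs_le] at hm2
  constructor
  · obtain ⟨t, h1, h2, h3⟩ := hex m (2 ^ k m)
    refine ⟨t, by omega, key m hm1 t ?_ h3⟩
    rw [abs_le]; constructor <;> omega
  · obtain ⟨t, h1, h2, h3⟩ := hex m (-(2 * 2 ^ k m) - 1)
    have hpos : (1 : ℤ) ≤ 2 ^ k m := by
      have : (0 : ℤ) < 2 ^ k m := by positivity
      omega
    refine ⟨t, by omega, key m hm1 t ?_ h3⟩
    rw [abs_le]; constructor <;> omega

end

end Pool.Agent.R294.DPP
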