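import Pool.Agent.R294.DPP5

/-!
# A transient planar random walk on a discrete point process
-/

set_option autoImplicit false

namespace Pool.Agent.R294.DPP

open MeasureTheory ProbabilityTheory Set Filter Topology

lemma meas_pt (p : ℤ × ℤ) : Measurable (fun ω : Env => ω p = true) := by
  rw [← measurableSet_setOfPred]
  have h : Measurable (fun ω : Env => ω p) := measurable_pi_apply p
  exact h (MeasurableSet.singleton true)

lemma meas_prop (p : Prop) : Measurable (fun _ : Env => p) := measurable_const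

/-- the line of the configuration -/
def line (ω : Env) : ℤ → Bool := fun s => ω (s, 0)

lemma meas_line (s : ℤ) : Measurable (fun ω : Env => line ω s = true) := meas_pt _

lemma meas_diag : Measurable (fun ω : Env => IsDiag (line ω) ω) := by
  unfold IsDiag
  refine Measurable.forall fun x => Measurable.forall fun y => ?_
  have : (fun ω : Env => ω (x, y) = line ω (x + y)) =
      (fun ω : Env => (ω (x, y) = true → line ω (x + y) = true) ∧
        (line ω (x + y) = true → ω (x, y) = true)) := by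
    funext ω
    apply propext
    constructor
    · intro h
      rw [h]
      exact ⟨id, id⟩
    · rintro ⟨h1, h2⟩
      exact Bool.eq_iff_iff.2 ⟨h1, h2⟩
  rw [this]
  exact ((meas_pt _).imp (meas_line _)).and ((meas_line _).imp (meas_pt _))

lemma meas_two : Measurable (fun ω : Env => TwoSided (line ω)) := by
  unfold TwoSided
  refine Measurable.forall fun s => ?_
  refine Measurable.and ?_ ?_
  · exact Measurable.exists fun t => (meas_prop _).and (meas_line t)
  · exact Measurable.exists fun t => (meas_prop _).and (meas_line t)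

lemma meas_cnt (x y : ℤ) (n : ℕ) : Measurable (fun ω : Env => cnt (line ω) x y ≤ n) := by
  have h : Measurable (fun ω : Env => cnt (line ω) x y) := by
    unfold cnt
    simp only [Finset.card_filter]
    apply Finset.measurable_fun_sum
    intro t _
    exact Measurable.ite (measurableSet_setOfPred.2 (meas_line t)) measurable_const measurable_const
  rw [← measurableSet_setOfPred]
  exact h (measurableSet_Iic (a := n))

/-- the good gaps, in a measurable form -/
def GoodLevels' (a : ℤ → Bool) : Prop :=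
  ∀ j : ℕ, 1 ≤ j → ∃ t : ℤ, 0 ≤ t ∧ a t = true ∧ a (t + hA j) = true ∧
    (∀ s, t < s → s < t + hA j → ¬ a s = true) ∧ cnt a 0 t ≤ 2 * PA j

lemma meas_good : Measurable (fun ω : Env => GoodLevels' (line ω)) := by
  unfold GoodLevels'
  refine Measurable.forall fun j => Measurable.imp (meas_prop _) ?_
  refine Measurable.exists fun t => (meas_prop _).and ((meas_line _).and ((meas_line _).and
    (Measurable.and ?_ (meas_cnt _ _ _))))
  exact Measurable.forall fun s => (meas_prop _).imp ((meas_prop _).imp (meas_line s).not)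

lemma good_of {a : ℤ → Bool} (h : GoodLevels' a) : GoodLevels a := by
  intro j hj
  obtain ⟨t, h1, h2, h3, h4, h5⟩ := h j hj
  have hhj : 0 < hA j := by
    obtain ⟨j', rfl⟩ : ∃ j', j = j' + 1 := ⟨j - 1, by omega⟩
    exact hA_pos j'
  exact ⟨t, h1, h2, up_eq hhj h3 h4, h5⟩

lemma kA_strictMono : StrictMono kA := by
  intro i j h
  unfold kA
  have : i ^ 2 < j ^ 2 := Nat.pow_lt_pow_left h (by norm_num)
  omega

lemma kA_succ (j : ℕ) : kA (j + 1) = kA j + (4 * j + 2) := by unfold kA; ring

/-- the windows -/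
def wA : ℕ → ℕ
  | 0 => 0
  | j + 1 => 2 * PA j

/-- a criterion for summability -/
lemma tsum_le_of (x k : ℕ → ℕ) (C : ℕ) (h : ∀ j, x j * 2 ^ j ≤ C * 2 ^ k j) :
    ∑' j : ℕ, ((x j : ℕ) : ENNReal) / 2 ^ (k j) ≤ C * 2 := by
  have h1 : ∀ j : ℕ, ((x j : ℕ) : ENNReal) / 2 ^ (k j) ≤ C * (2⁻¹ : ENNReal) ^ j := by
    intro j
    rw [ENNReal.div_le_iff (by positivity) (by simp)]
    have h5 : ((x j : ℕ) : ENNReal) * 2 ^ j ≤ C * 2 ^ k j := by exact_mod_cast h j
    calc ((x j : ℕ) : ENNReal) = (x j : ENNReal) * 2 ^ j * (2⁻¹) ^ j := by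
          rw [mul_assoc, ← mul_pow, ENNReal.mul_inv_cancel (by norm_num) (by norm_num), one_pow,
            mul_one]
      _ ≤ C * 2 ^ k j * (2⁻¹) ^ j := by gcongr
      _ = _ := by ring
  refine (ENNReal.tsum_le_tsum h1).trans ?_
  rw [ENNReal.tsum_mul_left, ENNReal.tsum_geometric, ENNReal.one_sub_inv_two, inv_inv]

lemma touchA_ne_top : ∑' j : ℕ, ((2 * wA j + hA j : ℕ) : ENNReal) / 2 ^ (kA j) ≠ ⊤ := by
  refine ne_top_of_le_ne_top ?_ (tsum_le_of _ kA 10 ?_)
  · norm_num
  · intro j
    rcases j with _ | j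
    · simp [wA, hA]
    · have h2 := (hA_upper j).1
      have h3 : 2 * wA (j + 1) + hA (j + 1) ≤ 5 * 2 ^ kA j := by
        have : wA (j + 1) = 2 * PA j := rfl
        have : PA j = 2 ^ kA j := rfl
        omega
      calc (2 * wA (j + 1) + hA (j + 1)) * 2 ^ (j + 1) ≤ 5 * 2 ^ kA j * 2 ^ (j + 1) :=
            Nat.mul_le_mul_right _ h3
        _ = 10 * 2 ^ (kA j + j) := by rw [pow_add, pow_succ]; ring
        _ ≤ 10 * 2 ^ kA (j + 1) := by
            apply Nat.mul_le_mul_left
            apply Nat.pow_le_pow_right (by norm_num)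
            rw [kA_succ]
            omega

lemma densA : ∑' j : ℕ, ((hA (j + 1) - 1 : ℕ) : ENNReal) / 2 ^ (kA (j + 1)) < 1 := by
  have h := tsum_le_of (fun j => 4 * (hA (j + 1) - 1)) (fun j => kA (j + 1)) 1 ?_
  · have e : ∑' j : ℕ, ((4 * (hA (j + 1) - 1) : ℕ) : ENNReal) / 2 ^ (kA (j + 1)) =
        4 * ∑' j : ℕ, ((hA (j + 1) - 1 : ℕ) : ENNReal) / 2 ^ (kA (j + 1)) := by
      rw [← ENNReal.tsum_mul_left]
      congr 1
      funext j
      push_cast
      rw [mul_div_assoc]
    rw [e] at h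
    by_contra hge
    push Not at hge
    have : (4 : ENNReal) * 1 ≤ (1 : ℕ) * 2 := (mul_le_mul_right hge 4).trans h
    norm_num at this
  · intro j
    have h2 := (hA_upper j).1
    rcases j with _ | j
    · simp [hA]
    · have : PA (j + 1) = 2 ^ kA (j + 1) := rfl
      calc 4 * (hA (j + 1 + 1) - 1) * 2 ^ (j + 1) ≤ 4 * 2 ^ kA (j + 1) * 2 ^ (j + 1) := by
            apply Nat.mul_le_mul_right
            omega
        _ = 2 ^ (kA (j + 1) + (j + 3)) := by rw [pow_add, pow_add]; ring
        _ ≤ 1 * 2 ^ kA (j + 1 + 1) := by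
            rw [one_mul]
            apply Nat.pow_le_pow_right (by norm_num)
            rw [kA_succ (j + 1)]
            omega

lemma QQ_pos (k L : ℕ → ℕ)
    (h : ∑' j : ℕ, ((L (j + 1) - 1 : ℕ) : ENNReal) / 2 ^ (k (j + 1)) < 1) :
    0 < QQ k L O0 := by
  rw [QQ_O0]
  by_contra hcon
  push Not at hcon
  have h0 : haar (ptSet k L) = 0 := le_antisymm hcon (zero_le)
  have h1 : haar (ptSet k L)ᶜ < 1 := (ptSet_compl k L).trans_lt h
  rw [prob_compl_eq_one_sub (measurable_ptSet k L), h0] at h1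
  simp at h1

theorem main : ∃ Q : Measure Env, IsDPP Q ∧ 0 < Q O0 ∧
    ∀ᵐ ω ∂(palm Q), ∀ᵐ ξ ∂dirLaw, {n : ℕ | walk ω ξ n = 0}.Finite := by
  refine ⟨QQ kA hA, isDPP_QQ kA hA densA, QQ_pos kA hA densA, ?_⟩
  apply ae_palm kA hA _ {ω : Env | IsDiag (line ω) ω ∧ TwoSided (line ω) ∧
    (line ω 0 = true → GoodLevels' (line ω))}
  · exact measurableSet_setOfPred.2 (meas_diag.and (meas_two.and ((meas_line 0).imp meas_good)))
  · rintro ω ⟨h1, h2, h3⟩ h0
    exact transient_of_good h1 h2 h0 (good_of (h3 h0))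
  · have hw : ∀ j, 2 * 2 ^ kA j ≤ wA (j + 1) := fun j => le_rfl
    filter_upwards [ae_not_touch kA hA wA touchA_ne_top] with θ hθ
    obtain ⟨J, hJ⟩ := hθ
    have htwo : TwoSided (line (env kA hA θ)) :=
      twoSided_of kA_strictMono (fun j _ => hw j) hJ
    refine ⟨env_diag kA hA θ, htwo, ?_⟩
    intro h0 j hj
    have hcompat : Compat PA (cc kA θ) := fun i j h =>
      cc_compat kA kA_strictMono.monotone θ i j h
    have hnon : NonInt PA (cc kA θ) := by
      intro s
      obtain ⟨m, hm1, hm2⟩ : ∃ m, J ≤ m ∧ |s| ≤ 2 ^ kA m := by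
        refine ⟨max J s.natAbs, le_max_left _ _, ?_⟩
        have h1 : s.natAbs ≤ kA (max J s.natAbs) :=
          (le_max_right _ _).trans (kA_strictMono.id_le _)
        have h2 : s.natAbs < 2 ^ kA (max J s.natAbs) := lt_of_le_of_lt h1 Nat.lt_two_pow_self
        have h3 : (s.natAbs : ℤ) < ((2 ^ kA (max J s.natAbs) : ℕ) : ℤ) := by exact_mod_cast h2
        push_cast at h3
        exact h3.le
      refine ⟨m + 1, fun hD => ?_⟩
      apply hJ (m + 1) (by omega)
      refine ⟨s, ?_, ?_⟩
      · have h5 := hw m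
        have : ((2 * 2 ^ kA m : ℕ) : ℤ) ≤ wA (m + 1) := by exact_mod_cast h5
        push_cast at this
        have hpos : (0 : ℤ) < 2 ^ kA m := by positivity
        omega
      · have h6 : ((2 ^ kA (m + 1) : ℕ) : ℤ) ∣ (res (kA (m + 1)) θ : ℤ) + s := hD
        rw [Int.emod_eq_zero_of_dvd h6]
        exact_mod_cast hA_pos m
    obtain ⟨t, t1, t2, t3, t4, t5⟩ := good_gap hcompat hnon (a := line (env kA hA θ))
      (fun s => env_isPt kA hA θ s) 0 h0 j hj
    refine ⟨t, t1, t2, t3, ?_, t5⟩
    intro s hs1 hs2 has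
    have := (up_spec htwo t).2.2 s hs1 has
    rw [t4] at this
    omega

end Pool.Agent.R294.DPP
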