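import Pool.Agent.R294.DPP2

/-!
# Lower bounds for return probabilities
-/

set_option autoImplicit false

namespace Pool.Agent.R294.DPP

open MeasureTheory ProbabilityTheory Set Filter Topology

variable {a : ℤ → Bool} {ω : Env}

/-! ### Indicators -/

open Classical in
/-- indicator of a proposition -/
noncomputable def I (p : Prop) : ℝ := if p then 1 else 0

lemma I_pos {p : Prop} (h : p) : I p = 1 := by unfold I; rw [if_pos h]
lemma I_neg {p : Prop} (h : ¬ p) : I p = 0 := by unfold I; rw [if_neg h]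
lemma I_nonneg (p : Prop) : 0 ≤ I p := by
  by_cases h : p
  · rw [I_pos h]; norm_num
  · rw [I_neg h]
lemma I_le_one (p : Prop) : I p ≤ 1 := by
  by_cases h : p
  · rw [I_pos h]
  · rw [I_neg h]; norm_num

lemma Av_sum {ι : Type} (B : Finset ι) (n : ℕ) (F : ι → List Dir → ℝ) :
    Av n (fun l => ∑ w ∈ B, F w l) = ∑ w ∈ B, Av n (F w) := by
  classical
  induction B using Finset.induction_on with
  | empty =>
    simp only [Finset.sum_empty]
    exact Av_const n 0
  | insert x s hx ih =>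
    simp only [Finset.sum_insert hx]
    rw [Av_add, ih]

lemma Av_congr (n : ℕ) (Φ Ψ : List Dir → ℝ) (h : ∀ l, l.length = n → Φ l = Ψ l) :
    Av n Φ = Av n Ψ :=
  le_antisymm (Av_mono n _ _ fun l hl => (h l hl).le) (Av_mono n _ _ fun l hl => (h l hl).ge)

/-! ### Reversal -/

/-- the opposite direction -/
def flip (d : Dir) : Dir := (d.1, !d.2)

lemma flip_flip (d : Dir) : flip (flip d) = d := by
  unfold flip; simp

/-- sum of the coordinates -/
def sm (v : ℤ × ℤ) : ℤ := v.1 + v.2

lemma step_pt (h : IsDiag a ω) (h2 : TwoSided a) (v : ℤ × ℤ) (d : Dir) :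
    a (sm (step ω v d)) = true := by
  obtain ⟨e1, e2, e3, e4⟩ := step_diag h v
  obtain ⟨u1, u2, u3⟩ := up_spec h2 (v.1 + v.2)
  obtain ⟨d1, d2, d3⟩ := dn_spec h2 (v.1 + v.2)
  unfold sm
  obtain ⟨x, y⟩ := d
  cases x <;> cases y
  · rw [e2]; simp only
    rw [show v.1 - (dn a (v.1 + v.2) : ℤ) + v.2 = v.1 + v.2 - dn a (v.1 + v.2) by ring]
    exact d2
  · rw [e1]; simp only
    rw [show v.1 + (up a (v.1 + v.2) : ℤ) + v.2 = v.1 + v.2 + up a (v.1 + v.2) by ring]
    exact u2
  · rw [e4]; simp only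
    rw [show v.1 + (v.2 - (dn a (v.1 + v.2) : ℤ)) = v.1 + v.2 - dn a (v.1 + v.2) by ring]
    exact d2
  · rw [e3]; simp only
    rw [show v.1 + (v.2 + (up a (v.1 + v.2) : ℤ)) = v.1 + v.2 + up a (v.1 + v.2) by ring]
    exact u2

lemma step_flip (h : IsDiag a ω) (h2 : TwoSided a) (v : ℤ × ℤ) (hv : a (sm v) = true) (d : Dir) :
    step ω (step ω v d) (flip d) = v := by
  obtain ⟨e1, e2, e3, e4⟩ := step_diag h v
  have hv' : a (v.1 + v.2) = true := hv
  have hup := dn_up h2 _ hv'
  have hdn := up_dn h2 _ hv'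
  obtain ⟨x, y⟩ := d
  cases x <;> cases y
  · rw [e2]
    have := (step_diag h (v.1 - (dn a (v.1 + v.2) : ℤ), v.2)).1
    simp only [flip, Bool.not_false]
    rw [this]
    simp only
    rw [show v.1 - (dn a (v.1 + v.2) : ℤ) + v.2 = v.1 + v.2 - dn a (v.1 + v.2) by ring, hdn]
    ext
    · simp
    · rfl
  · rw [e1]
    have := (step_diag h (v.1 + (up a (v.1 + v.2) : ℤ), v.2)).2.1
    simp only [flip, Bool.not_true]
    rw [this]
    simp only
    rw [show v.1 + (up a (v.1 + v.2) : ℤ) + v.2 = v.1 + v.2 + up a (v.1 + v.2) by ring, hup]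
    ext
    · simp
    · rfl
  · rw [e4]
    have := (step_diag h (v.1, v.2 - (dn a (v.1 + v.2) : ℤ))).2.2.1
    simp only [flip, Bool.not_false]
    rw [this]
    simp only
    rw [show v.1 + (v.2 - (dn a (v.1 + v.2) : ℤ)) = v.1 + v.2 - dn a (v.1 + v.2) by ring, hdn]
    ext
    · rfl
    · simp
  · rw [e3]
    have := (step_diag h (v.1, v.2 + (up a (v.1 + v.2) : ℤ))).2.2.2
    simp only [flip, Bool.not_true]
    rw [this]
    simp only
    rw [show v.1 + (v.2 + (up a (v.1 + v.2) : ℤ)) = v.1 + v.2 + up a (v.1 + v.2) by ring, hup]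
    ext
    · rfl
    · simp

/-- the reversed word -/
def rf (l : List Dir) : List Dir := (l.map flip).reverse

lemma rf_cons (d : Dir) (l : List Dir) : rf (d :: l) = rf l ++ [flip d] := by
  unfold rf; simp

lemma rf_rf (l : List Dir) : rf (rf l) = l := by
  unfold rf
  rw [← List.map_reverse, List.reverse_reverse, List.map_map]
  have : flip ∘ flip = id := by funext d; exact flip_flip d
  rw [this, List.map_id]

lemma pos_pt (h : IsDiag a ω) (h2 : TwoSided a) (l : List Dir) :
    ∀ v : ℤ × ℤ, a (sm v) = true → a (sm (pos ω v l)) = true := by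
  induction l with
  | nil => intro v hv; exact hv
  | cons d l ih => intro v _; exact ih _ (step_pt h h2 v d)

lemma pos_rf (h : IsDiag a ω) (h2 : TwoSided a) (l : List Dir) :
    ∀ v : ℤ × ℤ, a (sm v) = true → pos ω (pos ω v l) (rf l) = v := by
  induction l with
  | nil => intro v _; rfl
  | cons d l ih =>
    intro v hv
    rw [pos_cons, rf_cons, pos_append, ih _ (step_pt h h2 v d)]
    exact step_flip h h2 v hv d

lemma pos_rf_iff (h : IsDiag a ω) (h2 : TwoSided a) (l : List Dir) (v w : ℤ × ℤ)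
    (hv : a (sm v) = true) (hw : a (sm w) = true) :
    pos ω v l = w ↔ pos ω w (rf l) = v := by
  constructor
  · rintro rfl
    exact pos_rf h h2 l v hv
  · intro e
    have := pos_rf h h2 (rf l) w hw
    rw [e, rf_rf] at this
    exact this

lemma sum_flip (F : Dir → ℝ) : ∑ d : Dir, F (flip d) = ∑ d : Dir, F d := by
  rw [sum_dir, sum_dir]
  unfold flip
  simp only [Bool.not_true, Bool.not_false]
  ring

lemma Av_snoc (n : ℕ) (Φ : List Dir → ℝ) :
    Av (n + 1) Φ = Av n (fun l => (∑ d : Dir, Φ (l ++ [d])) / 4) := by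
  rw [Av_append]
  rfl

lemma Av_div_sum (n : ℕ) (F : Dir → List Dir → ℝ) :
    Av n (fun l => (∑ d : Dir, F d l) / 4) = (∑ d : Dir, Av n (F d)) / 4 := by
  have : (fun l => (∑ d : Dir, F d l) / 4) = fun l => (1 / 4) * (∑ d : Dir, F d l) := by
    funext l; ring
  rw [this, Av_mul, Av_sum]
  ring

lemma Av_rf (n : ℕ) : ∀ Φ : List Dir → ℝ, Av n (fun l => Φ (rf l)) = Av n Φ := by
  induction n with
  | zero => intro Φ; rfl
  | succ n ih =>
    intro Φ
    rw [Av_snoc n Φ, Av_div_sum]
    simp only [Av]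
    congr 1
    rw [← sum_flip (fun d => Av n (fun l => Φ (l ++ [d])))]
    apply Finset.sum_congr rfl
    intro d _
    simp only [rf_cons]
    exact ih (fun l => Φ (l ++ [flip d]))

lemma Av_sym (h : IsDiag a ω) (h2 : TwoSided a) (n : ℕ) (v w : ℤ × ℤ)
    (hv : a (sm v) = true) (hw : a (sm w) = true) :
    Av n (fun l => I (pos ω v l = w)) = Av n (fun l => I (pos ω w l = v)) := by
  rw [← Av_rf n (fun l => I (pos ω w l = v))]
  congr 1
  funext l
  rw [pos_rf_iff h h2 l v w hv hw]

/-- The collision bound. -/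
lemma collision (h : IsDiag a ω) (h2 : TwoSided a) (h0 : a 0 = true) (n : ℕ)
    (Box : Finset (ℤ × ℤ)) :
    (Av n (fun l => I (pos ω 0 l ∈ Box))) ^ 2 ≤
      Box.card * Av (n + n) (fun l => I (pos ω 0 l = 0)) := by
  set p : ℤ × ℤ → ℝ := fun w => Av n (fun l => I (pos ω 0 l = w)) with hp
  have h0' : a (sm (0 : ℤ × ℤ)) = true := h0
  have hp0 : ∀ w, 0 ≤ p w := fun w => by
    have := Av_mono n (fun _ => 0) (fun l => I (pos ω 0 l = w)) (fun l _ => I_nonneg _)
    rwa [Av_const] at this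
  have e1 : Av (n + n) (fun l => I (pos ω 0 l = 0)) = Av n (fun l => p (pos ω 0 l)) := by
    rw [Av_append]
    congr 1
    funext l
    have := Av_sym h h2 n (pos ω 0 l) 0 (pos_pt h h2 l 0 h0') h0'
    simp only [pos_append]
    rw [this]
  have e2 : ∑ w ∈ Box, p w ^ 2 ≤ Av n (fun l => p (pos ω 0 l)) := by
    have e3 : ∑ w ∈ Box, p w ^ 2 = Av n (fun l => ∑ w ∈ Box, p w * I (pos ω 0 l = w)) := by
      rw [Av_sum]
      apply Finset.sum_congr rfl
      intro w _
      rw [Av_mul, sq]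
    rw [e3]
    apply Av_mono
    intro l _
    by_cases hb : pos ω 0 l ∈ Box
    · rw [Finset.sum_eq_single (pos ω 0 l)]
      · rw [I_pos rfl, mul_one]
      · intro w _ hw
        rw [I_neg (fun e => hw e.symm), mul_zero]
      · intro hb'; exact absurd hb hb'
    · rw [Finset.sum_eq_zero]
      · exact hp0 _
      · intro w hw
        rw [I_neg, mul_zero]
        intro e
        rw [e] at hb
        exact hb hw
  have e4 : Av n (fun l => I (pos ω 0 l ∈ Box)) = ∑ w ∈ Box, p w := by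
    rw [hp]
    simp only
    rw [← Av_sum]
    congr 1
    funext l
    by_cases hb : pos ω 0 l ∈ Box
    · rw [I_pos hb, Finset.sum_eq_single (pos ω 0 l)]
      · rw [I_pos rfl]
      · intro w _ hw
        rw [I_neg (fun e => hw e.symm)]
      · intro hb'; exact absurd hb hb'
    · rw [I_neg hb, Finset.sum_eq_zero]
      intro w hw
      rw [I_neg]
      intro e
      rw [e] at hb
      exact hb hw
  rw [e4, e1]
  calc (∑ w ∈ Box, p w) ^ 2 ≤ Box.card * ∑ w ∈ Box, p w ^ 2 := sq_sum_le_card_mul_sum_sq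
    _ ≤ _ := mul_le_mul_of_nonneg_left e2 (by positivity)

/-! ### Index function -/

/-- the signed number of points between the origin and `s` -/
noncomputable def idx (a : ℤ → Bool) (s : ℤ) : ℤ := (cnt a 0 s : ℤ) - cnt a s 0

lemma cnt_of_le {x y : ℤ} (h : y ≤ x) : cnt a x y = 0 := by
  unfold cnt
  rw [Finset.Ioc_eq_empty (by omega)]
  simp

lemma cnt_mono {x y x' y' : ℤ} (h1 : x' ≤ x) (h2 : y ≤ y') : cnt a x y ≤ cnt a x' y' := by
  unfold cnt
  apply Finset.card_le_card
  intro t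
  simp only [Finset.mem_filter, Finset.mem_Ioc]
  rintro ⟨⟨h3, h4⟩, h5⟩
  exact ⟨⟨by omega, by omega⟩, h5⟩

lemma cnt_next' (h : TwoSided a) (x s : ℤ) (hx : x ≤ s) :
    cnt a x (s + up a s) = cnt a x s + 1 := by
  obtain ⟨u1, u2, u3⟩ := up_spec h s
  unfold cnt
  have : (Finset.Ioc x (s + (up a s : ℤ))).filter (fun t => a t = true) =
      insert (s + (up a s : ℤ)) ((Finset.Ioc x s).filter (fun t => a t = true)) := by
    ext t
    simp only [Finset.mem_filter, Finset.mem_Ioc, Finset.mem_insert]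
    constructor
    · rintro ⟨⟨h1, h2⟩, h3⟩
      rcases le_or_gt t s with hts | hts
      · right; exact ⟨⟨h1, hts⟩, h3⟩
      · left
        have := u3 t hts h3
        omega
    · rintro (rfl | ⟨⟨h1, h2⟩, h3⟩)
      · exact ⟨⟨by omega, le_rfl⟩, u2⟩
      · exact ⟨⟨h1, by omega⟩, h3⟩
  rw [this, Finset.card_insert_of_notMem]
  simp only [Finset.mem_filter, Finset.mem_Ioc]
  omega

lemma idx_zero : idx a 0 = 0 := by
  unfold idx; rw [cnt_self]; simp

lemma idx_up (h : TwoSided a) (h0 : a 0 = true) (s : ℤ) : idx a (s + up a s) = idx a s + 1 := by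
  obtain ⟨u1, u2, u3⟩ := up_spec h s
  unfold idx
  rcases le_or_gt 0 s with hs | hs
  · rw [cnt_next' h 0 s hs, cnt_of_le (a := a) (x := s) (y := 0) hs,
      cnt_of_le (a := a) (x := s + up a s) (y := 0) (by omega)]
    push_cast; ring
  · have hle := u3 0 hs h0
    rw [cnt_next h s 0 hle, cnt_of_le (a := a) (x := 0) (y := s) hs.le,
      cnt_of_le (a := a) (x := 0) (y := s + up a s) hle]
    push_cast; ring

lemma idx_dn (h : TwoSided a) (h0 : a 0 = true) (s : ℤ) (hs : a s = true) :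
    idx a (s - dn a s) = idx a s - 1 := by
  have h1 := idx_up h h0 (s - dn a s)
  have : s - (dn a s : ℤ) + up a (s - dn a s) = s := by rw [up_dn h s hs]; ring
  rw [this] at h1
  omega

/-! ### Exit from the window -/

/-- the walk stays in the window -/
def alive (ω : Env) (L : ℤ) : ℤ × ℤ → List Dir → Prop
  | v, [] => |sm v| ≤ L
  | v, d :: l => |sm v| ≤ L ∧ alive ω L (step ω v d) l

lemma alive_end (L : ℤ) (l : List Dir) : ∀ v, alive ω L v l → |sm (pos ω v l)| ≤ L := by
  induction l with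
  | nil => intro v h; exact h
  | cons d l ih => intro v h; exact ih _ h.2

lemma sm_step (h : IsDiag a ω) (v : ℤ × ℤ) :
    sm (step ω v (false, true)) = sm v + up a (sm v) ∧
    sm (step ω v (false, false)) = sm v - dn a (sm v) ∧
    sm (step ω v (true, true)) = sm v + up a (sm v) ∧
    sm (step ω v (true, false)) = sm v - dn a (sm v) := by
  obtain ⟨e1, e2, e3, e4⟩ := step_diag h v
  unfold sm
  rw [e1, e2, e3, e4]
  refine ⟨?_, ?_, ?_, ?_⟩ <;> simp only <;> ring

/-- difference of the coordinates -/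
def df (v : ℤ × ℤ) : ℤ := v.1 - v.2

lemma df_step (h : IsDiag a ω) (v : ℤ × ℤ) :
    df (step ω v (false, true)) = df v + up a (sm v) ∧
    df (step ω v (false, false)) = df v - dn a (sm v) ∧
    df (step ω v (true, true)) = df v - up a (sm v) ∧
    df (step ω v (true, false)) = df v + dn a (sm v) := by
  obtain ⟨e1, e2, e3, e4⟩ := step_diag h v
  unfold sm df
  rw [e1, e2, e3, e4]
  refine ⟨?_, ?_, ?_, ?_⟩ <;> simp only <;> ring

lemma exit_bound (h : IsDiag a ω) (h2 : TwoSided a) (h0 : a 0 = true) (L : ℤ) (W : ℝ)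
    (hW0 : 0 < W) (hW : ∀ s, a s = true → L < |s| → W ≤ |(idx a s : ℝ)|) (n : ℕ) :
    ∀ v, a (sm v) = true →
      Av n (fun l => I (¬ alive ω L v l)) ≤ ((idx a (sm v) : ℝ) ^ 2 + n) / W ^ 2 := by
  have hout : ∀ (n : ℕ) (v : ℤ × ℤ), a (sm v) = true → L < |sm v| →
      Av n (fun l => I (¬ alive ω L v l)) ≤ ((idx a (sm v) : ℝ) ^ 2 + n) / W ^ 2 := by
    intro n v hv hL
    have h1 : Av n (fun l => I (¬ alive ω L v l)) ≤ 1 := by
      have := Av_mono n (fun l => I (¬ alive ω L v l)) (fun _ => 1) (fun l _ => I_le_one _)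
      rwa [Av_const] at this
    refine h1.trans ?_
    rw [le_div_iff₀ (by positivity), one_mul]
    have h3 := hW _ hv hL
    have h4 : W ^ 2 ≤ (idx a (sm v) : ℝ) ^ 2 := by
      rw [← sq_abs (idx a (sm v) : ℝ)]
      exact pow_le_pow_left₀ hW0.le h3 2
    have : (0:ℝ) ≤ n := by positivity
    linarith
  induction n with
  | zero =>
    intro v hv
    rcases le_or_gt |sm v| L with hL | hL
    · have e : Av 0 (fun l => I (¬ alive ω L v l)) = 0 := by
        show I (¬ alive ω L v []) = 0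
        rw [I_neg]
        intro h'
        exact h' hL
      rw [e]
      positivity
    · exact hout 0 v hv hL
  | succ n ih =>
    intro v hv
    rcases le_or_gt |sm v| L with hL | hL
    · have e : Av (n + 1) (fun l => I (¬ alive ω L v l)) =
          (∑ d : Dir, Av n (fun l => I (¬ alive ω L (step ω v d) l))) / 4 := by
        simp only [Av]
        congr 1
        apply Finset.sum_congr rfl
        intro d _
        congr 1
        funext l
        congr 1
        apply propext
        constructor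
        · intro h1 h3; exact h1 ⟨hL, h3⟩
        · intro h1 h3; exact h1 h3.2
      rw [e, sum_dir]
      have i1 := ih _ (step_pt h h2 v (false, true))
      have i2 := ih _ (step_pt h h2 v (false, false))
      have i3 := ih _ (step_pt h h2 v (true, true))
      have i4 := ih _ (step_pt h h2 v (true, false))
      obtain ⟨s1, s2, s3, s4⟩ := sm_step h v
      rw [s1, idx_up h2 h0] at i1
      rw [s2, idx_dn h2 h0 _ hv] at i2
      rw [s3, idx_up h2 h0] at i3
      rw [s4, idx_dn h2 h0 _ hv] at i4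
      push_cast at i1 i2 i3 i4 ⊢
      have key : ((idx a (sm v) : ℝ) ^ 2 + (n + 1)) / W ^ 2 =
          ((((idx a (sm v) : ℝ) + 1) ^ 2 + n) / W ^ 2 + (((idx a (sm v) : ℝ) - 1) ^ 2 + n) / W ^ 2 +
          (((idx a (sm v) : ℝ) + 1) ^ 2 + n) / W ^ 2 +
          (((idx a (sm v) : ℝ) - 1) ^ 2 + n) / W ^ 2) / 4 := by
        field_simp
        ring
      rw [key]
      linarith
    · exact hout (n + 1) v hv hL

/-! ### The second moment -/

/-- the potential -/
noncomputable def ff (n : ℕ) (z : ℤ) : ℝ := Real.sqrt ((z : ℝ) ^ 2 + n) - |(z : ℝ)|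

lemma ff_nonneg (n : ℕ) (z : ℤ) : 0 ≤ ff n z := by
  unfold ff
  have : |(z : ℝ)| ≤ Real.sqrt ((z : ℝ) ^ 2 + n) := by
    apply Real.abs_le_sqrt
    have : (0:ℝ) ≤ n := by positivity
    linarith
  linarith

lemma ff_le (n : ℕ) (z : ℤ) : ff n z ≤ Real.sqrt n := by
  unfold ff
  have : Real.sqrt ((z : ℝ) ^ 2 + n) ≤ Real.sqrt n + |(z : ℝ)| := by
    rw [Real.sqrt_le_left (by positivity)]
    have h1 := Real.sq_sqrt (show (0:ℝ) ≤ n by positivity)
    have h2 := sq_abs (z : ℝ)
    have h3 : 0 ≤ Real.sqrt n * |(z : ℝ)| := by positivity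
    nlinarith
  linarith

lemma ff_zero (z : ℤ) : ff 0 z = 0 := by
  unfold ff
  simp [Real.sqrt_sq_eq_abs]

lemma ff_succ (n : ℕ) (z : ℤ) :
    (ff n (z + 1) + ff n (z - 1)) / 2 + I (z = 0) ≤ ff (n + 1) z := by
  unfold ff
  push_cast
  have h1 : (Real.sqrt (((z : ℝ) + 1) ^ 2 + n) + Real.sqrt (((z : ℝ) - 1) ^ 2 + n)) / 2 ≤
      Real.sqrt ((z : ℝ) ^ 2 + (n + 1)) := by
    apply Real.le_sqrt_of_sq_le
    have e1 := Real.sq_sqrt (show (0:ℝ) ≤ ((z : ℝ) + 1) ^ 2 + n by positivity)
    have e2 := Real.sq_sqrt (show (0:ℝ) ≤ ((z : ℝ) - 1) ^ 2 + n by positivity)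
    nlinarith [sq_nonneg (Real.sqrt (((z : ℝ) + 1) ^ 2 + n) - Real.sqrt (((z : ℝ) - 1) ^ 2 + n))]
  have h2 : (|(z : ℝ) + 1| + |(z : ℝ) - 1|) / 2 = |(z : ℝ)| + I (z = 0) := by
    rcases lt_trichotomy z 0 with hz | hz | hz
    · rw [I_neg (by omega)]
      have : (z : ℝ) ≤ -1 := by
        have : z ≤ -1 := by omega
        exact_mod_cast this
      rw [abs_of_nonpos (show (z : ℝ) + 1 ≤ 0 by linarith),
        abs_of_nonpos (show (z : ℝ) - 1 ≤ 0 by linarith), abs_of_nonpos (show (z : ℝ) ≤ 0 by linarith)]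
      ring
    · subst hz
      rw [I_pos rfl]
      simp
    · rw [I_neg (by omega)]
      have : (1 : ℝ) ≤ z := by
        have : 1 ≤ z := by omega
        exact_mod_cast this
      rw [abs_of_nonneg (show 0 ≤ (z : ℝ) + 1 by linarith),
        abs_of_nonneg (show 0 ≤ (z : ℝ) - 1 by linarith), abs_of_nonneg (show 0 ≤ (z : ℝ) by linarith)]
      ring
  linarith

/-- half of the sum of the squares of the two adjacent gaps -/
noncomputable def ww (a : ℤ → Bool) (p : ℤ) : ℝ := ((up a p : ℝ) ^ 2 + (dn a p : ℝ) ^ 2) / 2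

/-- the points of the window -/
noncomputable def Win (a : ℤ → Bool) (L : ℤ) : Finset ℤ :=
  (Finset.Icc (-L) L).filter (fun t => a t = true)

lemma ww_nonneg (p : ℤ) : 0 ≤ ww a p := by unfold ww; positivity

lemma var_bound (h : IsDiag a ω) (h2 : TwoSided a) (h0 : a 0 = true) (L : ℤ) (n : ℕ) :
    ∀ v, a (sm v) = true →
      Av n (fun l => I (alive ω L v l) * (df (pos ω v l) : ℝ) ^ 2) ≤
        (df v : ℝ) ^ 2 + ∑ p ∈ Win a L, ww a p * ff n (idx a (sm v) - idx a p) := by
  induction n with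
  | zero =>
    intro v _
    show I (alive ω L v []) * (df v : ℝ) ^ 2 ≤ _
    have h1 : I (alive ω L v []) * (df v : ℝ) ^ 2 ≤ (df v : ℝ) ^ 2 :=
      mul_le_of_le_one_left (by positivity) (I_le_one _)
    have h3 : ∑ p ∈ Win a L, ww a p * ff 0 (idx a (sm v) - idx a p) = 0 :=
      Finset.sum_eq_zero fun p _ => by rw [ff_zero, mul_zero]
    rw [h3]
    linarith
  | succ n ih =>
    intro v hv
    rcases le_or_gt |sm v| L with hL | hL
    · have e : Av (n + 1) (fun l => I (alive ω L v l) * (df (pos ω v l) : ℝ) ^ 2) =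
          (∑ d : Dir, Av n (fun l => I (alive ω L (step ω v d) l) *
            (df (pos ω (step ω v d) l) : ℝ) ^ 2)) / 4 := by
        simp only [Av]
        congr 1
        apply Finset.sum_congr rfl
        intro d _
        congr 1
        funext l
        rw [pos_cons]
        congr 2
        apply propext
        constructor
        · intro h1; exact h1.2
        · intro h1; exact ⟨hL, h1⟩
      rw [e, sum_dir]
      have i1 := ih _ (step_pt h h2 v (false, true))
      have i2 := ih _ (step_pt h h2 v (false, false))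
      have i3 := ih _ (step_pt h h2 v (true, true))
      have i4 := ih _ (step_pt h h2 v (true, false))
      obtain ⟨s1, s2, s3, s4⟩ := sm_step h v
      obtain ⟨t1, t2, t3, t4⟩ := df_step h v
      rw [s1, t1, idx_up h2 h0] at i1
      rw [s2, t2, idx_dn h2 h0 _ hv] at i2
      rw [s3, t3, idx_up h2 h0] at i3
      rw [s4, t4, idx_dn h2 h0 _ hv] at i4
      have hmem : sm v ∈ Win a L := by
        unfold Win
        rw [Finset.mem_filter, Finset.mem_Icc]
        rw [abs_le] at hL
        exact ⟨hL, hv⟩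
      have hsum : ∑ p ∈ Win a L, (ww a p * ff n (idx a (sm v) + 1 - idx a p) +
          ww a p * ff n (idx a (sm v) - 1 - idx a p)) / 2 + ww a (sm v) ≤
          ∑ p ∈ Win a L, ww a p * ff (n + 1) (idx a (sm v) - idx a p) := by
        have hpt : ∀ p ∈ Win a L, (ww a p * ff n (idx a (sm v) + 1 - idx a p) +
            ww a p * ff n (idx a (sm v) - 1 - idx a p)) / 2 +
              ww a p * I (idx a (sm v) - idx a p = 0) ≤
            ww a p * ff (n + 1) (idx a (sm v) - idx a p) := by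
          intro p _
          have := mul_le_mul_of_nonneg_left (ff_succ n (idx a (sm v) - idx a p))
            (ww_nonneg (a := a) p)
          rw [show idx a (sm v) - idx a p + 1 = idx a (sm v) + 1 - idx a p by ring,
            show idx a (sm v) - idx a p - 1 = idx a (sm v) - 1 - idx a p by ring] at this
          linarith
        have h3 := Finset.sum_le_sum hpt
        rw [Finset.sum_add_distrib] at h3
        have h4 : ww a (sm v) ≤ ∑ p ∈ Win a L, ww a p * I (idx a (sm v) - idx a p = 0) := by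
          have := Finset.single_le_sum (f := fun p => ww a p * I (idx a (sm v) - idx a p = 0))
            (fun p _ => mul_nonneg (ww_nonneg p) (I_nonneg _)) hmem
          simp only [sub_self] at this
          rw [I_pos trivial, mul_one] at this
          exact this
        linarith
      rw [← Finset.sum_div, Finset.sum_add_distrib] at hsum
      push_cast at i1 i2 i3 i4
      unfold ww at hsum ⊢
      unfold ww at i1 i2 i3 i4
      nlinarith [i1, i2, i3, i4, hsum]
    · have e : Av (n + 1) (fun l => I (alive ω L v l) * (df (pos ω v l) : ℝ) ^ 2) = 0 := by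
        have : (fun l => I (alive ω L v l) * (df (pos ω v l) : ℝ) ^ 2) = fun _ => 0 := by
          funext l
          rw [I_neg, zero_mul]
          intro hal
          cases l with
          | nil => exact absurd hal (not_le.2 hL)
          | cons d l => exact absurd hal.1 (not_le.2 hL)
        rw [this, Av_const]
      rw [e]
      have : 0 ≤ ∑ p ∈ Win a L, ww a p * ff (n + 1) (idx a (sm v) - idx a p) :=
        Finset.sum_nonneg fun p _ => mul_nonneg (ww_nonneg p) (ff_nonneg _ _)
      positivity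

/-- the box -/
noncomputable def box (L B : ℤ) : Finset (ℤ × ℤ) :=
  (Finset.Icc (-(L + B)) (L + B) ×ˢ Finset.Icc (-(L + B)) (L + B)).filter
    (fun v => |sm v| ≤ L ∧ |df v| ≤ B)

lemma mem_box {L B : ℤ} {v : ℤ × ℤ} (h1 : |sm v| ≤ L) (h2 : |df v| ≤ B) : v ∈ box L B := by
  unfold box
  rw [Finset.mem_filter, Finset.mem_product, Finset.mem_Icc, Finset.mem_Icc]
  refine ⟨?_, h1, h2⟩
  unfold sm at h1
  unfold df at h2
  rw [abs_le] at h1 h2
  omega

lemma card_box (L B : ℕ) : (box L B).card ≤ (2 * L + 1) * (2 * B + 1) := by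
  have h1 : ((Finset.Icc (-(L:ℤ)) L) ×ˢ (Finset.Icc (-(B:ℤ)) B)).card =
      (2 * L + 1) * (2 * B + 1) := by
    rw [Finset.card_product, Int.card_Icc, Int.card_Icc]
    congr 1 <;> omega
  rw [← h1]
  apply Finset.card_le_card_of_injOn (fun v => (sm v, df v))
  · intro v hv
    have hv' : v ∈ box L B := hv
    unfold box at hv'
    rw [Finset.mem_filter] at hv'
    show (sm v, df v) ∈ _
    rw [Finset.mem_coe, Finset.mem_product, Finset.mem_Icc, Finset.mem_Icc]
    exact ⟨abs_le.1 hv'.2.1, abs_le.1 hv'.2.2⟩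
  · intro v _ w _ hvw
    unfold sm df at hvw
    simp only [Prod.mk.injEq] at hvw
    ext
    · omega
    · omega

/-- the probability of being in the box -/
lemma in_box (h : IsDiag a ω) (h2 : TwoSided a) (h0 : a 0 = true) (L B : ℕ) (W M : ℝ)
    (hB : 0 < B) (hW0 : 0 < W) (hW : ∀ s, a s = true → (L : ℤ) < |s| → W ≤ |(idx a s : ℝ)|)
    (hM : ∑ p ∈ Win a L, ww a p ≤ M) (n : ℕ) :
    1 - n / W ^ 2 - Real.sqrt n * M / B ^ 2 ≤ Av n (fun l => I (pos ω 0 l ∈ box L B)) := by
  have h0' : a (sm (0 : ℤ × ℤ)) = true := h0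
  have hBr : (0:ℝ) < B := by exact_mod_cast hB
  have e1 := exit_bound h h2 h0 L W hW0 hW n 0 h0'
  have e2 := var_bound h h2 h0 L n 0 h0'
  have hz : idx a (sm (0 : ℤ × ℤ)) = 0 := idx_zero
  have hd : df (0 : ℤ × ℤ) = 0 := rfl
  rw [hz] at e1 e2
  rw [hd] at e2
  have e3 : ∑ p ∈ Win a L, ww a p * ff n (0 - idx a p) ≤ Real.sqrt n * M := by
    calc ∑ p ∈ Win a L, ww a p * ff n (0 - idx a p) ≤ ∑ p ∈ Win a L, ww a p * Real.sqrt n :=
          Finset.sum_le_sum fun p _ => mul_le_mul_of_nonneg_left (ff_le _ _) (ww_nonneg p)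
      _ = Real.sqrt n * ∑ p ∈ Win a L, ww a p := by rw [← Finset.sum_mul, mul_comm]
      _ ≤ _ := mul_le_mul_of_nonneg_left hM (Real.sqrt_nonneg _)
  have e4 : Av n (fun l => 1 + ((-1) * I (¬ alive ω L 0 l) +
      (-(1 / (B:ℝ) ^ 2)) * (I (alive ω L 0 l) * (df (pos ω 0 l) : ℝ) ^ 2))) ≤
      Av n (fun l => I (pos ω 0 l ∈ box L B)) := by
    apply Av_mono
    intro l _
    by_cases hal : alive ω L 0 l
    · rw [I_pos hal, I_neg (p := ¬ alive ω L 0 l) (fun h' => h' hal)]
      have hs := alive_end L l 0 hal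
      by_cases hdf : |df (pos ω 0 l)| ≤ B
      · rw [I_pos (mem_box hs hdf)]
        have : 0 ≤ 1 / (B:ℝ) ^ 2 * (1 * (df (pos ω 0 l) : ℝ) ^ 2) := by positivity
        linarith
      · have h5 := I_nonneg (pos ω 0 l ∈ box L B)
        push Not at hdf
        have h6 : (B:ℝ) < |(df (pos ω 0 l) : ℝ)| := by exact_mod_cast hdf
        have h7 : (B:ℝ) ^ 2 ≤ (df (pos ω 0 l) : ℝ) ^ 2 := by
          rw [← sq_abs (df (pos ω 0 l) : ℝ)]
          exact pow_le_pow_left₀ hBr.le h6.le 2
        have h8 : 1 ≤ 1 / (B:ℝ) ^ 2 * (1 * (df (pos ω 0 l) : ℝ) ^ 2) := by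
          rw [one_mul, one_div, ← div_eq_inv_mul, le_div_iff₀ (by positivity)]
          linarith
        linarith
    · rw [I_neg hal, I_pos (p := ¬ alive ω L 0 l) hal]
      have h5 := I_nonneg (pos ω 0 l ∈ box L B)
      linarith
  rw [Av_add, Av_add, Av_mul, Av_mul, Av_const] at e4
  have e5 : Av n (fun l => I (alive ω L 0 l) * (df (pos ω 0 l) : ℝ) ^ 2) ≤ Real.sqrt n * M := by
    refine e2.trans ?_
    push_cast
    simpa using e3
  have e6 : 1 / (B:ℝ) ^ 2 * Av n (fun l => I (alive ω L 0 l) * (df (pos ω 0 l) : ℝ) ^ 2) ≤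
      Real.sqrt n * M / B ^ 2 := by
    rw [one_div, ← div_eq_inv_mul]
    exact div_le_div_of_nonneg_right e5 (by positivity)
  push_cast at e1
  have e7 : ((0:ℝ) ^ 2 + n) / W ^ 2 = n / W ^ 2 := by ring
  rw [e7] at e1
  linarith

/-- the lower bound of the return probability -/
theorem ret_bound (h : IsDiag a ω) (h2 : TwoSided a) (h0 : a 0 = true) (L B : ℕ) (W M : ℝ)
    (hB : 0 < B) (hW0 : 0 < W) (hW : ∀ s, a s = true → (L : ℤ) < |s| → W ≤ |(idx a s : ℝ)|)
    (hM : ∑ p ∈ Win a L, ww a p ≤ M) (n : ℕ) (h1 : n / W ^ 2 ≤ 1 / 4)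
    (h3 : Real.sqrt n * M / B ^ 2 ≤ 1 / 4) :
    1 / (4 * ((2 * L + 1) * (2 * B + 1))) ≤ Av (n + n) (fun l => I (pos ω 0 l = 0)) := by
  have e1 := in_box h h2 h0 L B W M hB hW0 hW hM n
  have e2 := collision h h2 h0 n (box L B)
  have e3 : (1 / 2 : ℝ) ^ 2 ≤ (Av n (fun l => I (pos ω 0 l ∈ box L B))) ^ 2 :=
    pow_le_pow_left₀ (by norm_num) (by linarith) 2
  have e4 : ((box L B).card : ℝ) ≤ (2 * L + 1) * (2 * B + 1) := by exact_mod_cast card_box L B
  have e5 : 0 ≤ Av (n + n) (fun l => I (pos ω 0 l = 0)) := by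
    have := Av_mono (n + n) (fun _ => 0) (fun l => I (pos ω 0 l = 0)) (fun l _ => I_nonneg _)
    rwa [Av_const] at this
  rw [div_le_iff₀ (by positivity)]
  nlinarith [mul_le_mul_of_nonneg_right e4 e5]

end Pool.Agent.R294.DPP
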