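import Pool.Agent.R294.DPR1

/-!
# Recurrence from the divergence of the Green function
-/

set_option autoImplicit false

namespace Pool.Agent.R294.DPP

open MeasureTheory ProbabilityTheory Set Filter Topology

variable {a : ℤ → Bool} {ω : Env}

lemma take_pre (i m : ℕ) (h : i ≤ m) (ξ : ℕ → Dir) : (pre m ξ).take i = pre i ξ := by
  apply List.ext_getElem
  · simp [pre, h]
  · intro k h1 h2
    simp [pre]

lemma walk_take (ω : Env) (i m : ℕ) (h : i ≤ m) (ξ : ℕ → Dir) :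
    walk ω ξ i = pos ω 0 ((pre m ξ).take i) := by
  rw [walk_eq, take_pre i m h]

/-- no return during `M` steps -/
def noRet (ω : Env) (M : ℕ) (l : List Dir) : Prop :=
  ∀ j, 1 ≤ j → j ≤ M → pos ω 0 (l.take j) ≠ 0

lemma last_visit (ω : Env) (n M : ℕ) :
    MeasurableSet {ξ | walk ω ξ n = 0 ∧ ∀ j, 1 ≤ j → j ≤ M → walk ω ξ (n + j) ≠ 0} ∧
    dirLaw.real {ξ | walk ω ξ n = 0 ∧ ∀ j, 1 ≤ j → j ≤ M → walk ω ξ (n + j) ≠ 0} =
      Av n (fun l => I (pos ω 0 l = 0)) * Av M (fun l => I (noRet ω M l)) := by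
  set S : Set (List Dir) := {l | pos ω 0 (l.take n) = 0 ∧
    ∀ j, 1 ≤ j → j ≤ M → pos ω 0 (l.take (n + j)) ≠ 0} with hS
  have e1 : {ξ | walk ω ξ n = 0 ∧ ∀ j, 1 ≤ j → j ≤ M → walk ω ξ (n + j) ≠ 0} =
      {ξ : ℕ → Dir | pre (n + M) ξ ∈ S} := by
    ext ξ
    show (walk ω ξ n = 0 ∧ ∀ j, 1 ≤ j → j ≤ M → walk ω ξ (n + j) ≠ 0) ↔
      (pos ω 0 ((pre (n + M) ξ).take n) = 0 ∧
        ∀ j, 1 ≤ j → j ≤ M → pos ω 0 ((pre (n + M) ξ).take (n + j)) ≠ 0)
    rw [walk_take ω n (n + M) (by omega)]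
    apply and_congr Iff.rfl
    constructor
    · intro h j h1 h2
      rw [← walk_take ω (n + j) (n + M) (by omega)]
      exact h j h1 h2
    · intro h j h1 h2
      rw [walk_take ω (n + j) (n + M) (by omega)]
      exact h j h1 h2
  rw [e1]
  refine ⟨measurable_pre_pred _ _, ?_⟩
  rw [dirLaw_pre, Av_append]
  have e2 : Av n (fun l => I (pos ω 0 l = 0)) * Av M (fun l => I (noRet ω M l)) =
      Av n (fun l => Av M (fun l => I (noRet ω M l)) * I (pos ω 0 l = 0)) := by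
    rw [Av_mul, mul_comm]
  rw [e2]
  apply Av_congr
  intro l hl
  rw [mul_comm, ← Av_mul]
  congr 1
  funext l'
  have h1 : (l ++ l').take n = l := by
    rw [List.take_append_of_le_length (by omega), List.take_of_length_le (by omega)]
  have h2 : ∀ j, (l ++ l').take (n + j) = l ++ l'.take j := by
    intro j
    rw [← hl, List.take_length_add_append]
  have h3 : (l ++ l' ∈ S) ↔ (pos ω 0 l = 0 ∧ noRet ω M l') := by
    show (pos ω 0 ((l ++ l').take n) = 0 ∧
      ∀ j, 1 ≤ j → j ≤ M → pos ω 0 ((l ++ l').take (n + j)) ≠ 0) ↔ _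
    rw [h1]
    constructor
    · rintro ⟨h4, h5⟩
      refine ⟨h4, fun j hj1 hj2 => ?_⟩
      have := h5 j hj1 hj2
      rw [h2, pos_append, h4] at this
      exact this
    · rintro ⟨h4, h5⟩
      refine ⟨h4, fun j hj1 hj2 => ?_⟩
      rw [h2, pos_append, h4]
      exact h5 j hj1 hj2
  by_cases hA : pos ω 0 l = 0
  · by_cases hB : noRet ω M l'
    · rw [if_pos (h3.2 ⟨hA, hB⟩), I_pos hA, I_pos hB]; norm_num
    · rw [if_neg (fun h => hB (h3.1 h).2), I_pos hA, I_neg hB]; norm_num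
  · rw [if_neg (fun h => hA (h3.1 h).1), I_neg hA]; norm_num

theorem recurrent_of_div (ω : Env)
    (hdiv : ∀ K : ℝ, ∃ M : ℕ, K ≤ ∑ n ∈ Finset.range (M + 1), Av n (fun l => I (pos ω 0 l = 0))) :
    ∀ᵐ ξ ∂dirLaw, ∃ n : ℕ, 1 ≤ n ∧ walk ω ξ n = 0 := by
  have hb : ∀ M : ℕ, (∑ n ∈ Finset.range (M + 1), Av n (fun l => I (pos ω 0 l = 0))) *
      Av M (fun l => I (noRet ω M l)) ≤ 1 := by
    intro M
    have h1 : dirLaw.real (⋃ n ∈ Finset.range (M + 1),
        {ξ | walk ω ξ n = 0 ∧ ∀ j, 1 ≤ j → j ≤ M → walk ω ξ (n + j) ≠ 0}) =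
        ∑ n ∈ Finset.range (M + 1),
          dirLaw.real {ξ | walk ω ξ n = 0 ∧ ∀ j, 1 ≤ j → j ≤ M → walk ω ξ (n + j) ≠ 0} := by
      apply measureReal_biUnion_finset
      · intro n hn m hm hnm
        rw [Function.onFun, Set.disjoint_left]
        have hn' : n < M + 1 := Finset.mem_range.1 hn
        have hm' : m < M + 1 := Finset.mem_range.1 hm
        rintro ξ ⟨k1, k2⟩ ⟨k3, k4⟩
        rcases Nat.lt_or_gt_of_ne hnm with h | h
        · apply k2 (m - n) (by omega) (by omega)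
          rw [show n + (m - n) = m by omega]
          exact k3
        · apply k4 (n - m) (by omega) (by omega)
          rw [show m + (n - m) = n by omega]
          exact k1
      · intro n _
        exact (last_visit ω n M).1
      · intro _ _
        exact measure_ne_top _ _
    have h2 : ∑ n ∈ Finset.range (M + 1),
          dirLaw.real {ξ | walk ω ξ n = 0 ∧ ∀ j, 1 ≤ j → j ≤ M → walk ω ξ (n + j) ≠ 0} =
        (∑ n ∈ Finset.range (M + 1), Av n (fun l => I (pos ω 0 l = 0))) *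
          Av M (fun l => I (noRet ω M l)) := by
      rw [Finset.sum_mul]
      exact Finset.sum_congr rfl fun n _ => (last_visit ω n M).2
    rw [← h2, ← h1]
    exact measureReal_le_one
  have hq : ∀ M : ℕ, dirLaw.real {ξ | ∀ n, 1 ≤ n → walk ω ξ n ≠ 0} ≤
      Av M (fun l => I (noRet ω M l)) := by
    intro M
    have h1 := (last_visit ω 0 M).2
    have h2 : Av 0 (fun l => I (pos ω 0 l = 0)) = 1 := I_pos rfl
    rw [h2, one_mul] at h1
    rw [← h1]
    apply measureReal_mono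
    · intro ξ hξ
      refine ⟨rfl, fun j h3 _ => ?_⟩
      rw [zero_add]
      exact hξ j h3
    · exact measure_ne_top _ _
  have hzero : dirLaw.real {ξ | ∀ n, 1 ≤ n → walk ω ξ n ≠ 0} = 0 := by
    apply le_antisymm _ measureReal_nonneg
    by_contra hpos
    push Not at hpos
    set x := dirLaw.real {ξ | ∀ n, 1 ≤ n → walk ω ξ n ≠ 0} with hx
    obtain ⟨M, hM⟩ := hdiv (2 / x)
    have h1 := hb M
    have h2 := hq M
    have h3 : 2 / x * x ≤ 1 := by
      calc 2 / x * x ≤ (∑ n ∈ Finset.range (M + 1), Av n (fun l => I (pos ω 0 l = 0))) *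
            Av M (fun l => I (noRet ω M l)) :=
            mul_le_mul hM h2 hpos.le (le_trans (by positivity) hM)
        _ ≤ 1 := h1
    rw [div_mul_cancel₀ _ hpos.ne'] at h3
    norm_num at h3
  rw [ae_iff]
  have e : {ξ | ¬ ∃ n : ℕ, 1 ≤ n ∧ walk ω ξ n = 0} = {ξ | ∀ n, 1 ≤ n → walk ω ξ n ≠ 0} := by
    ext ξ
    show (¬ ∃ n : ℕ, 1 ≤ n ∧ walk ω ξ n = 0) ↔ ∀ n, 1 ≤ n → walk ω ξ n ≠ 0
    push Not
    rfl
  rw [e]
  rwa [measureReal_eq_zero_iff] at hzero

end Pool.Agent.R294.DPP
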