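import Pool.Agent.R294.DPR2
import Pool.Agent.R294.DPP6

/-!
# The recurrent environments: arithmetic
-/

set_option autoImplicit false

namespace Pool.Agent.R294.DPP

open MeasureTheory ProbabilityTheory Set Filter Topology

/-- exponents of the periods -/
def kB : ℕ → ℕ
  | 0 => 0
  | j + 1 => 2 * 4 ^ (j + 1) - (j + 1)

/-- the periods -/
def PB (j : ℕ) : ℕ := 2 ^ kB j

/-- the large gaps -/
def NB : ℕ → ℕ
  | 0 => 1
  | j + 1 => 2 ^ 4 ^ (j + 1)

lemma lt_four_pow (j : ℕ) : j < 4 ^ j := Nat.lt_pow_self (by norm_num)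

lemma kB_add (j : ℕ) : kB (j + 1) + (j + 1) = 2 * 4 ^ (j + 1) := by
  have h := lt_four_pow (j + 1)
  have e : kB (j + 1) = 2 * 4 ^ (j + 1) - (j + 1) := rfl
  omega

lemma kB_strictMono : StrictMono kB := by
  apply strictMono_nat_of_lt_succ
  intro j
  rcases j with _ | j
  · norm_num [kB]
  · have h1 := kB_add j
    have h2 := kB_add (j + 1)
    have h3 : 4 ^ (j + 1 + 1) = 4 * 4 ^ (j + 1) := by rw [pow_succ]; ring
    have h4 := lt_four_pow (j + 1)
    omega

lemma PB_pos (j : ℕ) : 0 < PB j := by unfold PB; positivity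

lemma NB_pos (j : ℕ) : 0 < NB j := by
  cases j with
  | zero => exact Nat.one_pos
  | succ j => unfold NB; positivity

lemma PB_zero : PB 0 = 1 := rfl
lemma NB_zero : NB 0 = 1 := rfl

lemma NB_sq (j : ℕ) : NB j ^ 2 = 2 ^ j * PB j := by
  cases j with
  | zero => rfl
  | succ j =>
    unfold NB PB
    rw [← pow_mul, ← pow_add]
    congr 1
    have := kB_add j
    omega

lemma PB_dvd {i j : ℕ} (h : i ≤ j) : PB i ∣ PB j := pow_dvd_pow 2 (kB_strictMono.monotone h)

lemma PB_dvd_NB {i j : ℕ} (h : i < j) : PB i ∣ NB j := by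
  obtain ⟨j', rfl⟩ : ∃ j', j = j' + 1 := ⟨j - 1, by omega⟩
  unfold PB NB
  apply pow_dvd_pow
  rcases i with _ | i
  · exact Nat.zero_le _
  · have h1 := kB_add i
    have h2 : 4 ^ (i + 2) ≤ 4 ^ (j' + 1) := Nat.pow_le_pow_right (by norm_num) (by omega)
    have h3 : 4 ^ (i + 2) = 4 * 4 ^ (i + 1) := by rw [pow_succ]; ring
    omega

/-- the holes are sparse -/
lemma NB_small (j : ℕ) (hj : 1 ≤ j) : NB j * 2 ^ (j + 2) ≤ PB j := by
  obtain ⟨j', rfl⟩ : ∃ j', j = j' + 1 := ⟨j - 1, by omega⟩
  unfold PB NB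
  rw [← pow_add]
  apply Nat.pow_le_pow_right (by norm_num)
  have h1 := kB_add j'
  have h2 : 2 * (j' + 1) + 2 ≤ 4 ^ (j' + 1) := by
    clear h1
    induction j' with
    | zero => norm_num
    | succ n ih =>
      have ih := ih (by omega)
      have : 4 ^ (n + 1 + 1) = 4 * 4 ^ (n + 1) := by rw [pow_succ]; ring
      omega
  omega

lemma NB_lt_PB (j : ℕ) (hj : 1 ≤ j) : NB j < PB j := by
  have h1 := NB_small j hj
  have h2 := NB_pos j
  have h3 : 1 < 2 ^ (j + 2) := Nat.one_lt_two_pow (by omega)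
  nlinarith

lemma NB_le_PB (j : ℕ) : NB j ≤ PB j := by
  rcases Nat.eq_zero_or_pos j with h | h
  · subst h; exact le_rfl
  · exact (NB_lt_PB j h).le

lemma PB_le_NB {i j : ℕ} (h : i < j) : PB i ≤ NB j := Nat.le_of_dvd (NB_pos j) (PB_dvd_NB h)

lemma NB_mono {i j : ℕ} (h : i ≤ j) : NB i ≤ NB j := by
  rcases h.eq_or_lt with h' | h'
  · rw [h']
  · exact (NB_le_PB i).trans (PB_le_NB h')

attribute [local irreducible] PB NB

variable {c : ℕ → ℤ}

lemma D_monoB (hc : Compat PB c) {i j : ℕ} (h : i ≤ j) {s : ℤ} (hD : (PB j : ℤ) ∣ c j + s) :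
    (PB i : ℤ) ∣ c i + s := by
  have h1 := hc i j h
  have h2 : (PB i : ℤ) ∣ PB j := by exact_mod_cast PB_dvd h
  have h3 := dvd_sub (h2.trans hD) h1
  have : c j + s - (c j - c i) = c i + s := by ring
  rwa [this] at h3

/-- the gap after a point -/
lemma gapB (hc : Compat PB c) (hn : NonInt PB c) (t : ℤ) (ht : isPt PB NB c t) :
    ∃ i, (PB i : ℤ) ∣ c i + t ∧ isPt PB NB c (t + NB i) ∧
      ∀ s, t < s → s < t + NB i → ¬ isPt PB NB c s := by
  classical
  have hex := hn t
  set l := Nat.find hex with hl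
  have hl1 : ¬ (PB l : ℤ) ∣ c l + t := Nat.find_spec hex
  have hlpos : 0 < l := by
    rcases Nat.eq_zero_or_pos l with h | h
    · exfalso
      rw [h] at hl1
      apply hl1
      rw [PB_zero]
      exact one_dvd _
    · exact h
  obtain ⟨i, hi⟩ : ∃ i, l = i + 1 := ⟨l - 1, by omega⟩
  have hD : (PB i : ℤ) ∣ c i + t := by
    by_contra hcon
    have : l ≤ i := Nat.find_min' hex hcon
    omega
  rw [hi] at hl1
  have hPi0 : (0:ℤ) < PB i := by exact_mod_cast PB_pos i
  refine ⟨i, hD, ?_, ?_⟩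
  · intro k hk
    rcases lt_trichotomy k i with h | h | h
    · have h1 := D_monoB hc h.le hD
      have h2 : (PB k : ℤ) ∣ NB i := by exact_mod_cast PB_dvd_NB h
      have h3 : (PB k : ℤ) ∣ c k + (t + NB i) := by
        have := dvd_add h1 h2
        rwa [add_assoc] at this
      rw [Int.emod_eq_zero_of_dvd h3]
      omega
    · subst h
      have hlt := NB_lt_PB k hk
      have : (c k + (t + NB k)) % PB k = NB k := by
        apply emod_eq_of
        · positivity
        · exact_mod_cast hlt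
        · obtain ⟨w, hw⟩ := hD
          exact ⟨w, by linear_combination hw⟩
      rw [this]
      omega
    · have hPk : (0:ℤ) < PB k := by exact_mod_cast PB_pos k
      have hnDk : ¬ (PB k : ℤ) ∣ c k + t := fun h' => hl1 (D_monoB hc h h')
      set R := (c k + t) % PB k with hR
      have hR0 : 0 ≤ R := Int.emod_nonneg _ hPk.ne'
      have hR1 : R < PB k := Int.emod_lt_of_pos _ hPk
      have hRne : R ≠ 0 := fun h' => hnDk (Int.dvd_of_emod_eq_zero h')
      have hik : (PB i : ℤ) ∣ PB k := by exact_mod_cast PB_dvd h.le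
      have hdiv : (PB k : ℤ) ∣ c k + t - R := Int.dvd_self_sub_of_emod_eq rfl
      have hRdvd : (PB i : ℤ) ∣ R := by
        have h1 : (PB i : ℤ) ∣ c k + t := by
          have := dvd_add hD (hc i k h.le)
          have e : c i + t + (c k - c i) = c k + t := by ring
          rwa [e] at this
        have h2 := dvd_sub h1 (hik.trans hdiv)
        have e : c k + t - (c k + t - R) = R := by ring
        rwa [e] at h2
      have hRh : (NB k : ℤ) ≤ R := by
        by_contra hlt
        push Not at hlt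
        exact ht k hk ⟨by omega, hlt⟩
      have hRu : R + PB i ≤ PB k := by
        obtain ⟨u, hu⟩ := hRdvd
        obtain ⟨v, hv⟩ := hik
        have : u < v := by
          by_contra hge
          push Not at hge
          have : (PB i : ℤ) * v ≤ PB i * u := mul_le_mul_of_nonneg_left hge hPi0.le
          omega
        have : (PB i : ℤ) * (u + 1) ≤ PB i * v := mul_le_mul_of_nonneg_left this hPi0.le
        rw [hu, hv]
        linarith
      have hNi : (NB i : ℤ) ≤ PB i := by exact_mod_cast NB_le_PB i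
      have hNi0 : (0:ℤ) < NB i := by exact_mod_cast NB_pos i
      rcases (show R + NB i < PB k ∨ R + NB i = PB k by omega) with h5 | h5
      · have : (c k + (t + NB i)) % PB k = R + NB i := by
          apply emod_eq_of
          · omega
          · exact h5
          · have e : c k + (t + NB i) - (R + NB i) = c k + t - R := by ring
            rw [e]; exact hdiv
        rw [this]
        omega
      · have h6 : (PB k : ℤ) ∣ c k + (t + NB i) := by
          have := dvd_add hdiv (dvd_refl (PB k : ℤ))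
          have e : c k + t - R + PB k = c k + (t + NB i) := by rw [← h5]; ring
          rwa [e] at this
        rw [Int.emod_eq_zero_of_dvd h6]
        omega
  · intro s h1 h2 hs
    rcases Nat.eq_zero_or_pos i with h | h
    · rw [h, NB_zero] at h2
      push_cast at h2
      omega
    · have hlt : (NB i : ℤ) < PB i := by exact_mod_cast NB_lt_PB i h
      have h3 := hs i h
      have : (c i + s) % PB i = s - t := by
        apply emod_eq_of
        · omega
        · omega
        · obtain ⟨w, hw⟩ := hD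
          exact ⟨w, by linear_combination hw⟩
      rw [this] at h3
      omega

/-! ### Counting -/

lemma count_dvd (P : ℕ) (hP : 0 < P) (z x : ℤ) (len : ℕ) :
    (((Finset.Ioc x (x + len)).filter (fun s => (P : ℤ) ∣ z + s)).card : ℝ) ≤ len / P + 1 := by
  have hPz : (0:ℤ) < P := by exact_mod_cast hP
  set q1 := (x + z) / (P : ℤ) with hq1
  set q2 := (x + z + len) / (P : ℤ) with hq2
  have h1 : ((Finset.Ioc x (x + len)).filter (fun s => (P : ℤ) ∣ z + s)).card ≤
      (Finset.Ioc q1 q2).card := by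
    apply Finset.card_le_card_of_injOn (fun s => (z + s) / P)
    · intro s hs
      have hs' : s ∈ (Finset.Ioc x (x + len)).filter (fun s => (P : ℤ) ∣ z + s) := hs
      rw [Finset.mem_filter, Finset.mem_Ioc] at hs'
      obtain ⟨⟨h2, h3⟩, k, hk⟩ := hs'
      show (z + s) / (P : ℤ) ∈ ((Finset.Ioc q1 q2 : Finset ℤ) : Set ℤ)
      rw [Finset.mem_coe, Finset.mem_Ioc, hk, Int.mul_ediv_cancel_left _ hPz.ne']
      constructor
      · rw [hq1]
        apply Int.ediv_lt_of_lt_mul hPz
        nlinarith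
      · rw [hq2]
        apply Int.le_ediv_of_mul_le hPz
        nlinarith
    · intro s hs t ht hst
      have hs' : s ∈ (Finset.Ioc x (x + len)).filter (fun s => (P : ℤ) ∣ z + s) := hs
      have ht' : t ∈ (Finset.Ioc x (x + len)).filter (fun s => (P : ℤ) ∣ z + s) := ht
      rw [Finset.mem_filter] at hs' ht'
      obtain ⟨_, k, hk⟩ := hs'
      obtain ⟨_, m, hm⟩ := ht'
      simp only at hst
      rw [hk, hm, Int.mul_ediv_cancel_left _ hPz.ne', Int.mul_ediv_cancel_left _ hPz.ne'] at hst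
      rw [hst] at hk
      omega
  have h2 : q1 ≤ q2 := Int.ediv_le_ediv hPz (by omega)
  have h3 : ((Finset.Ioc q1 q2).card : ℤ) = q2 - q1 := by
    rw [Int.card_Ioc]; omega
  have h4 : q2 * P ≤ x + z + len := Int.ediv_mul_le _ hPz.ne'
  have h5 : x + z < (q1 + 1) * P := Int.lt_ediv_add_one_mul_self _ hPz
  have h6 : ((q2 - q1 : ℤ) : ℝ) ≤ len / P + 1 := by
    have hPr : (0:ℝ) < P := by exact_mod_cast hP
    rw [div_add_one hPr.ne', le_div_iff₀ hPr]
    have : (q2 - q1) * P ≤ len + P := by nlinarith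
    exact_mod_cast this
  refine le_trans ?_ h6
  rw [← h3]
  exact_mod_cast h1

lemma count_hole (P N : ℕ) (hP : 0 < P) (z x : ℤ) (len : ℕ) :
    (((Finset.Ioc x (x + len)).filter
      (fun s => 1 ≤ (z + s) % P ∧ (z + s) % P < N)).card : ℝ) ≤ N * (len / P + 1) := by
  classical
  have h1 : (Finset.Ioc x (x + len)).filter (fun s => 1 ≤ (z + s) % P ∧ (z + s) % P < N) ⊆
      (Finset.range N).biUnion (fun r =>
        (Finset.Ioc x (x + len)).filter (fun s => (P : ℤ) ∣ (z - r) + s)) := by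
    intro s hs
    rw [Finset.mem_filter] at hs
    obtain ⟨h2, h3, h4⟩ := hs
    rw [Finset.mem_biUnion]
    refine ⟨((z + s) % P).toNat, ?_, ?_⟩
    · rw [Finset.mem_range]; omega
    · rw [Finset.mem_filter]
      refine ⟨h2, ?_⟩
      rw [Int.toNat_of_nonneg (by omega)]
      have : z - (z + s) % P + s = z + s - (z + s) % P := by ring
      rw [this]
      exact Int.dvd_self_sub_of_emod_eq rfl
  have h2 := (Finset.card_le_card h1).trans Finset.card_biUnion_le
  calc (((Finset.Ioc x (x + len)).filter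
      (fun s => 1 ≤ (z + s) % P ∧ (z + s) % P < N)).card : ℝ) ≤
      ∑ r ∈ Finset.range N, (((Finset.Ioc x (x + len)).filter
        (fun s => (P : ℤ) ∣ (z - r) + s)).card : ℝ) := by exact_mod_cast h2
    _ ≤ ∑ r ∈ Finset.range N, ((len : ℝ) / P + 1) :=
        Finset.sum_le_sum fun r _ => count_dvd P hP _ _ _
    _ = N * (len / P + 1) := by rw [Finset.sum_const, Finset.card_range, nsmul_eq_mul]

lemma sum_half (J : ℕ) : ∑ i ∈ Finset.range J, (1 / 2 : ℝ) ^ (i + 3) ≤ 1 / 4 := by
  have h1 : ∑ i ∈ Finset.range J, (1 / 2 : ℝ) ^ (i + 3) =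
      (1 / 8) * ∑ i ∈ Finset.range J, (1 / 2 : ℝ) ^ i := by
    rw [Finset.mul_sum]
    apply Finset.sum_congr rfl
    intro i _
    rw [pow_add]; ring
  rw [h1, geom_sum_eq (by norm_num)]
  have : (0:ℝ) < (1 / 2) ^ J := by positivity
  have : ((1 / 2 : ℝ) ^ J - 1) / (1 / 2 - 1) ≤ 2 := by
    rw [div_le_iff_of_neg (by norm_num)]
    linarith
  linarith

/-- no holes of the levels above `J` in the window -/
def NoTouch (c : ℕ → ℤ) (J : ℕ) (R : ℤ) : Prop :=
  ∀ j, J < j → ∀ s : ℤ, |s| ≤ R → (NB j : ℤ) ≤ (c j + s) % PB j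

/-- number of points in an interval -/
lemma cnt_lower {a : ℤ → Bool} (ha : ∀ s, a s = true ↔ isPt PB NB c s) (J : ℕ) (R : ℤ)
    (hR : NoTouch c J R) (x : ℤ) (len : ℕ) (h1 : -R ≤ x) (h2 : x + len ≤ R) (m : ℕ)
    (hm : PB J ≤ m) : (len : ℝ) - (len + m) / 4 ≤ cnt a x (x + len) := by
  classical
  set F : ℕ → Finset ℤ := fun i => (Finset.Ioc x (x + len)).filter
    (fun s => 1 ≤ (c (i + 1) + s) % PB (i + 1) ∧ (c (i + 1) + s) % PB (i + 1) < NB (i + 1)) with hF
  have hcov : Finset.Ioc x (x + len) ⊆ (Finset.Ioc x (x + len)).filter (fun t => a t = true) ∪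
      (Finset.range J).biUnion F := by
    intro s hs
    rw [Finset.mem_union]
    by_cases has : a s = true
    · left
      rw [Finset.mem_filter]; exact ⟨hs, has⟩
    · right
      rw [ha] at has
      unfold isPt at has
      push Not at has
      obtain ⟨j, hj, h3, h4⟩ := has
      obtain ⟨j', rfl⟩ : ∃ j', j = j' + 1 := ⟨j - 1, by omega⟩
      rw [Finset.mem_biUnion]
      have hjJ : j' < J := by
        by_contra hge
        push Not at hge
        rw [Finset.mem_Ioc] at hs
        have := hR (j' + 1) (by omega) s (by rw [abs_le]; constructor <;> omega)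
        omega
      refine ⟨j', Finset.mem_range.2 hjJ, ?_⟩
      rw [hF]
      simp only
      rw [Finset.mem_filter]
      exact ⟨hs, h3, h4⟩
  have h3 := (Finset.card_le_card hcov).trans (Finset.card_union_le _ _)
  rw [Int.card_Ioc] at h3
  have h4 : (x + len - x).toNat = len := by omega
  rw [h4] at h3
  have h5 := Finset.card_biUnion_le (s := Finset.range J) (t := F)
  have h6 : ((∑ i ∈ Finset.range J, (F i).card : ℕ) : ℝ) ≤ (len + m) / 4 := by
    push_cast
    calc ∑ i ∈ Finset.range J, ((F i).card : ℝ) ≤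
        ∑ i ∈ Finset.range J, ((len : ℝ) + m) * (1 / 2 : ℝ) ^ (i + 3) := by
          apply Finset.sum_le_sum
          intro i hi
          have hP := PB_pos (i + 1)
          have hPr : (0:ℝ) < PB (i + 1) := by exact_mod_cast hP
          refine (count_hole (PB (i + 1)) (NB (i + 1)) hP _ _ _).trans ?_
          have h7 := NB_small (i + 1) (by omega)
          have h8 : (NB (i + 1) : ℝ) ≤ PB (i + 1) * (1 / 2 : ℝ) ^ (i + 3) := by
            rw [one_div, inv_pow, ← div_eq_mul_inv, le_div_iff₀ (by positivity)]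
            exact_mod_cast h7
          have h9 : (PB (i + 1) : ℝ) ≤ m := by
            have h10 : PB (i + 1) ≤ PB J :=
              Nat.le_of_dvd (PB_pos J) (PB_dvd (by have := Finset.mem_range.1 hi; omega))
            exact_mod_cast h10.trans hm
          have h11 : (0:ℝ) ≤ (1 / 2 : ℝ) ^ (i + 3) := by positivity
          calc (NB (i + 1) : ℝ) * (len / PB (i + 1) + 1) ≤
              PB (i + 1) * (1 / 2 : ℝ) ^ (i + 3) * (len / PB (i + 1) + 1) :=
                mul_le_mul_of_nonneg_right h8 (by positivity)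
            _ = ((len : ℝ) + PB (i + 1)) * (1 / 2 : ℝ) ^ (i + 3) := by field_simp
            _ ≤ ((len : ℝ) + m) * (1 / 2 : ℝ) ^ (i + 3) :=
                mul_le_mul_of_nonneg_right (by linarith) h11
      _ = ((len : ℝ) + m) * ∑ i ∈ Finset.range J, (1 / 2 : ℝ) ^ (i + 3) := by
          rw [Finset.mul_sum]
      _ ≤ ((len : ℝ) + m) * (1 / 4) :=
          mul_le_mul_of_nonneg_left (sum_half J) (by positivity)
      _ = _ := by ring
  have h7 : (len : ℝ) ≤ cnt a x (x + len) + ((∑ i ∈ Finset.range J, (F i).card : ℕ) : ℝ) := by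
    have : len ≤ cnt a x (x + len) + ∑ i ∈ Finset.range J, (F i).card := by
      unfold cnt
      omega
    exact_mod_cast this
  linarith

/-- the sum of the squares of the gaps in the window -/
lemma ww_sum {a : ℤ → Bool} (hc : Compat PB c) (hn : NonInt PB c)
    (ha : ∀ s, a s = true ↔ isPt PB NB c s) (htwo : TwoSided a) (J : ℕ) (L : ℕ)
    (hR : NoTouch c J (L + 1)) (m : ℕ) (hm : PB J ≤ m) :
    ∑ p ∈ Win a L, ww a p ≤ 2 ^ J * ((J + 1) * (2 * L + 1 + m)) := by
  classical
  -- the gaps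
  have hup : ∀ t, a t = true → ∃ i, (PB i : ℤ) ∣ c i + t ∧ up a t = NB i := by
    intro t ht
    obtain ⟨i, h1, h2, h3⟩ := gapB hc hn t ((ha t).1 ht)
    exact ⟨i, h1, up_eq (NB_pos i) ((ha _).2 h2) (fun s hs1 hs2 h => h3 s hs1 hs2 ((ha s).1 h))⟩
  have hsq : ∀ i, i ≤ J → (NB i : ℝ) ^ 2 ≤ 2 ^ J * PB i := by
    intro i hi
    have h1 := NB_sq i
    have h2 : (NB i : ℝ) ^ 2 = 2 ^ i * PB i := by exact_mod_cast h1
    rw [h2]
    apply mul_le_mul_of_nonneg_right _ (by positivity)
    exact pow_le_pow_right₀ (by norm_num) hi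
  have hpt : ∀ p ∈ Win a L, ww a p ≤ 2 ^ J * ∑ i ∈ Finset.range (J + 1), (PB i : ℝ) *
      ((I ((PB i : ℤ) ∣ c i + p) + I ((PB i : ℤ) ∣ (c i - NB i) + p)) / 2) := by
    intro p hp
    unfold Win at hp
    rw [Finset.mem_filter, Finset.mem_Icc] at hp
    obtain ⟨⟨hp1, hp2⟩, hp3⟩ := hp
    -- the gap after
    obtain ⟨i, hi1, hi2⟩ := hup p hp3
    have hiJ : i ≤ J := by
      by_contra hlt
      push Not at hlt
      have := hR i hlt p (by rw [abs_le]; constructor <;> omega)
      rw [Int.emod_eq_zero_of_dvd hi1] at this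
      have := NB_pos i
      omega
    -- the gap before
    obtain ⟨d1, d2, d3⟩ := dn_spec htwo p
    obtain ⟨i', hi1', hi2'⟩ := hup _ d2
    have hdn : dn a p = NB i' := by
      have := up_dn htwo p hp3
      rw [hi2'] at this
      exact_mod_cast this.symm
    rw [hdn] at hi1'
    have hiJ' : i' ≤ J := by
      by_contra hlt
      push Not at hlt
      have h1 := hR i' hlt (p - 1) (by rw [abs_le]; constructor <;> omega)
      have hlt2 : (NB i' : ℤ) < PB i' := by exact_mod_cast NB_lt_PB i' (by omega)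
      have hNpos : (0:ℤ) < NB i' := by exact_mod_cast NB_pos i'
      have h2 : (c i' + (p - 1)) % PB i' = NB i' - 1 := by
        apply emod_eq_of
        · omega
        · omega
        · have e : c i' + (p - 1) - (NB i' - 1) = c i' + (p - NB i') := by ring
          rw [e]; exact hi1'
      rw [h2] at h1
      omega
    have hD' : (PB i' : ℤ) ∣ (c i' - NB i') + p := by
      have e : (c i' - NB i') + p = c i' + (p - NB i') := by ring
      rw [e]; exact hi1'
    unfold ww
    rw [hi2, hdn]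
    have f1 : (PB i : ℝ) ≤ ∑ j ∈ Finset.range (J + 1), (PB j : ℝ) * I ((PB j : ℤ) ∣ c j + p) := by
      have := Finset.single_le_sum (f := fun j => (PB j : ℝ) * I ((PB j : ℤ) ∣ c j + p))
        (fun j _ => mul_nonneg (by positivity) (I_nonneg _))
        (Finset.mem_range.2 (show i < J + 1 by omega))
      rwa [I_pos hi1, mul_one] at this
    have f2 : (PB i' : ℝ) ≤ ∑ j ∈ Finset.range (J + 1), (PB j : ℝ) *
        I ((PB j : ℤ) ∣ (c j - NB j) + p) := by
      have := Finset.single_le_sum (f := fun j => (PB j : ℝ) * I ((PB j : ℤ) ∣ (c j - NB j) + p))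
        (fun j _ => mul_nonneg (by positivity) (I_nonneg _))
        (Finset.mem_range.2 (show i' < J + 1 by omega))
      rwa [I_pos hD', mul_one] at this
    have f3 : ∑ j ∈ Finset.range (J + 1), (PB j : ℝ) *
        ((I ((PB j : ℤ) ∣ c j + p) + I ((PB j : ℤ) ∣ (c j - NB j) + p)) / 2) =
        (∑ j ∈ Finset.range (J + 1), (PB j : ℝ) * I ((PB j : ℤ) ∣ c j + p) +
        ∑ j ∈ Finset.range (J + 1), (PB j : ℝ) * I ((PB j : ℤ) ∣ (c j - NB j) + p)) / 2 := by
      rw [← Finset.sum_add_distrib, Finset.sum_div]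
      apply Finset.sum_congr rfl
      intro j _
      ring
    rw [f3]
    have g1 := hsq i hiJ
    have g2 := hsq i' hiJ'
    have g3 : (2:ℝ) ^ J * PB i ≤ 2 ^ J * ∑ j ∈ Finset.range (J + 1), (PB j : ℝ) *
      I ((PB j : ℤ) ∣ c j + p) := mul_le_mul_of_nonneg_left f1 (by positivity)
    have g4 : (2:ℝ) ^ J * PB i' ≤ 2 ^ J * ∑ j ∈ Finset.range (J + 1), (PB j : ℝ) *
      I ((PB j : ℤ) ∣ (c j - NB j) + p) := mul_le_mul_of_nonneg_left f2 (by positivity)
    linarith
  have hcount : ∀ (P : ℕ), 0 < P → ∀ z : ℤ, ∑ p ∈ Win a L, I ((P : ℤ) ∣ z + p) ≤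
      (2 * L + 1) / P + 1 := by
    intro P hP z
    have h1 : ∑ p ∈ Win a L, I ((P : ℤ) ∣ z + p) ≤
        ∑ p ∈ Finset.Ioc (-(L:ℤ) - 1) (-(L:ℤ) - 1 + (2 * L + 1 : ℕ)), I ((P : ℤ) ∣ z + p) := by
      apply Finset.sum_le_sum_of_subset_of_nonneg
      · intro p hp
        unfold Win at hp
        rw [Finset.mem_filter, Finset.mem_Icc] at hp
        rw [Finset.mem_Ioc]
        push_cast
        omega
      · intro p _ _; exact I_nonneg _
    have h2 : ∑ p ∈ Finset.Ioc (-(L:ℤ) - 1) (-(L:ℤ) - 1 + (2 * L + 1 : ℕ)),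
        I ((P : ℤ) ∣ z + p) = (((Finset.Ioc (-(L:ℤ) - 1) (-(L:ℤ) - 1 + (2 * L + 1 : ℕ))).filter
          (fun s => (P : ℤ) ∣ z + s)).card : ℝ) := by
      rw [Finset.card_filter]
      push_cast
      apply Finset.sum_congr rfl
      intro p _
      by_cases h : (P : ℤ) ∣ z + p
      · rw [I_pos h, if_pos h]
      · rw [I_neg h, if_neg h]
    rw [h2] at h1
    have h3 := count_dvd P hP z (-(L:ℤ) - 1) (2 * L + 1)
    push_cast at h3 h1
    linarith
  calc ∑ p ∈ Win a L, ww a p ≤ ∑ p ∈ Win a L, 2 ^ J * ∑ i ∈ Finset.range (J + 1), (PB i : ℝ) *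
      ((I ((PB i : ℤ) ∣ c i + p) + I ((PB i : ℤ) ∣ (c i - NB i) + p)) / 2) :=
        Finset.sum_le_sum hpt
    _ = 2 ^ J * ∑ i ∈ Finset.range (J + 1), (PB i : ℝ) * ((∑ p ∈ Win a L,
        I ((PB i : ℤ) ∣ c i + p) + ∑ p ∈ Win a L, I ((PB i : ℤ) ∣ (c i - NB i) + p)) / 2) := by
      rw [← Finset.mul_sum, Finset.sum_comm]
      congr 1
      apply Finset.sum_congr rfl
      intro i _
      rw [← Finset.mul_sum, ← Finset.sum_add_distrib, Finset.sum_div]
    _ ≤ 2 ^ J * ∑ i ∈ Finset.range (J + 1), (2 * (L:ℝ) + 1 + m) := by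
      apply mul_le_mul_of_nonneg_left _ (by positivity)
      apply Finset.sum_le_sum
      intro i hi
      have hP := PB_pos i
      have hPr : (0:ℝ) < PB i := by exact_mod_cast hP
      have k1 := hcount (PB i) hP (c i)
      have k2 := hcount (PB i) hP (c i - NB i)
      have k3 : (PB i : ℝ) ≤ m := by
        have h10 : PB i ≤ PB J :=
          Nat.le_of_dvd (PB_pos J) (PB_dvd (by have := Finset.mem_range.1 hi; omega))
        exact_mod_cast h10.trans hm
      calc (PB i : ℝ) * ((∑ p ∈ Win a L, I ((PB i : ℤ) ∣ c i + p) +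
          ∑ p ∈ Win a L, I ((PB i : ℤ) ∣ (c i - NB i) + p)) / 2) ≤
          PB i * ((2 * L + 1) / PB i + 1) :=
            mul_le_mul_of_nonneg_left (by linarith) hPr.le
        _ = 2 * L + 1 + PB i := by field_simp
        _ ≤ _ := by linarith
    _ = _ := by
      rw [Finset.sum_const, Finset.card_range, nsmul_eq_mul]
      push_cast
      ring

end Pool.Agent.R294.DPP
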