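import Pool.Agent.R294.DPR3

/-!
# Divergence of the Green function of the recurrent environments
-/

set_option autoImplicit false

namespace Pool.Agent.R294.DPP

open MeasureTheory ProbabilityTheory Set Filter Topology

variable {c : ℕ → ℤ} {a : ℤ → Bool} {ω : Env}

lemma block_bound (h : IsDiag a ω) (htwo : TwoSided a) (h0 : a 0 = true)
    (hc : Compat PB c) (hn : NonInt PB c) (ha : ∀ s, a s = true ↔ isPt PB NB c s) (J b : ℕ)
    (hb : kB J ≤ b) (hR : NoTouch c J (8 * 2 ^ b + 1)) (n : ℕ) (hnb : n < 4 * 4 ^ b) :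
    1 / (1700 * (4:ℝ) ^ b * 2 ^ J) ≤ Av (n + n) (fun l => I (pos ω 0 l = 0)) := by
  set m : ℕ := 2 ^ b with hm
  have hmpos : 0 < m := by positivity
  have hmr : (1:ℝ) ≤ m := by exact_mod_cast hmpos
  have hPm : PB J ≤ m := Nat.pow_le_pow_right (by norm_num) hb
  have hm4 : (4:ℝ) ^ b = (m:ℝ) ^ 2 := by
    rw [hm]; push_cast
    rw [← pow_mul, mul_comm, pow_mul]; norm_num
  have hJ1 : (1:ℝ) ≤ 2 ^ J := one_le_pow₀ (by norm_num)
  have hR' : NoTouch c J (((8 * m : ℕ) : ℤ) + 1) := by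
    have : (((8 * m : ℕ) : ℤ) + 1) = 8 * 2 ^ b + 1 := by rw [hm]; push_cast; ring
    rw [this]; exact hR
  have hcard : ∀ x : ℤ, -((8 * m : ℕ) : ℤ) ≤ x → x + ((8 * m : ℕ) : ℤ) ≤ ((8 * m : ℕ) : ℤ) →
      4 * (m:ℝ) ≤ cnt a x (x + ((8 * m : ℕ) : ℤ)) := by
    intro x hx1 hx2
    have := cnt_lower ha J _ hR' x (8 * m) (by omega) (by omega) m hPm
    push_cast at this ⊢
    linarith
  have hW : ∀ s, a s = true → (((8 * m : ℕ)) : ℤ) < |s| → 4 * (m:ℝ) ≤ |(idx a s : ℝ)| := by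
    intro s _ hs
    rw [lt_abs] at hs
    rcases hs with hs | hs
    · have h1 := hcard 0 (by omega) (by omega)
      rw [zero_add] at h1
      have h2 : cnt a 0 ((8 * m : ℕ) : ℤ) ≤ cnt a 0 s := cnt_mono le_rfl hs.le
      have h3 : cnt a s 0 = 0 := cnt_of_le (by omega)
      unfold idx
      rw [h3]
      push_cast
      rw [sub_zero, abs_of_nonneg (by positivity)]
      have h4 : (cnt a 0 ((8 * m : ℕ) : ℤ) : ℝ) ≤ cnt a 0 s := by exact_mod_cast h2
      linarith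
    · have h1 := hcard (-((8 * m : ℕ) : ℤ)) le_rfl (by omega)
      rw [neg_add_cancel] at h1
      have h2 : cnt a (-((8 * m : ℕ) : ℤ)) 0 ≤ cnt a s 0 := cnt_mono (by omega) le_rfl
      have h3 : cnt a 0 s = 0 := cnt_of_le (by omega)
      unfold idx
      rw [h3]
      push_cast
      rw [zero_sub, abs_neg, abs_of_nonneg (by positivity)]
      have h4 : (cnt a (-((8 * m : ℕ) : ℤ)) 0 : ℝ) ≤ cnt a s 0 := by exact_mod_cast h2
      linarith
  have hM : ∑ p ∈ Win a ((8 * m : ℕ) : ℤ), ww a p ≤ 18 * m * (2 ^ J * 2 ^ J) := by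
    refine (ww_sum hc hn ha htwo J (8 * m) hR' m hPm).trans ?_
    have h1 : ((J : ℝ) + 1) ≤ 2 ^ J := by
      have : J + 1 ≤ 2 ^ J := Nat.lt_two_pow_self
      exact_mod_cast this
    have h2 : (2 * ((8 * m : ℕ) : ℝ) + 1 + m) ≤ 18 * m := by push_cast; linarith
    calc (2:ℝ) ^ J * ((J + 1) * (2 * ((8 * m : ℕ) : ℝ) + 1 + m)) ≤ 2 ^ J * (2 ^ J * (18 * m)) := by
          apply mul_le_mul_of_nonneg_left _ (by positivity)
          exact mul_le_mul h1 h2 (by positivity) (by positivity)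
      _ = _ := by ring
  have hnr : (n:ℝ) ≤ 4 * (m:ℝ) ^ 2 := by
    rw [← hm4]; exact_mod_cast hnb.le
  have key := ret_bound h htwo h0 (8 * m) (12 * m * 2 ^ J) (4 * (m:ℝ)) (18 * m * (2 ^ J * 2 ^ J))
    (by positivity) (by positivity) hW hM n (by
      rw [div_le_iff₀ (by positivity)]
      nlinarith) (by
      rw [div_le_iff₀ (by positivity)]
      have h1 : Real.sqrt n ≤ 2 * m := by
        rw [Real.sqrt_le_left (by positivity)]
        nlinarith
      push_cast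
      calc Real.sqrt n * (18 * m * (2 ^ J * 2 ^ J)) ≤ 2 * m * (18 * m * (2 ^ J * 2 ^ J)) :=
            mul_le_mul_of_nonneg_right h1 (by positivity)
        _ = 1 / 4 * (12 * (m:ℝ) * 2 ^ J) ^ 2 := by ring)
  refine le_trans ?_ key
  apply one_div_le_one_div_of_le (by positivity)
  rw [hm4]
  push_cast
  have h1 : 2 * (8 * (m:ℝ)) + 1 ≤ 17 * m := by linarith
  have h2 : 2 * (12 * (m:ℝ) * 2 ^ J) + 1 ≤ 25 * m * 2 ^ J := by nlinarith
  calc 4 * ((2 * (8 * (m:ℝ)) + 1) * (2 * (12 * (m:ℝ) * 2 ^ J) + 1)) ≤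
      4 * ((17 * m) * (25 * m * 2 ^ J)) := by
        apply mul_le_mul_of_nonneg_left _ (by norm_num)
        exact mul_le_mul h1 h2 (by positivity) (by positivity)
    _ = 1700 * (m:ℝ) ^ 2 * 2 ^ J := by ring

lemma sum_even (f : ℕ → ℝ) (hf : ∀ n, 0 ≤ f n) (K : ℕ) :
    ∑ n ∈ Finset.range K, f (n + n) ≤ ∑ n ∈ Finset.range (2 * K), f n := by
  induction K with
  | zero => simp
  | succ K ih =>
    rw [Finset.sum_range_succ]
    rw [show 2 * (K + 1) = 2 * K + 1 + 1 by ring, Finset.sum_range_succ,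
      Finset.sum_range_succ]
    have h1 := hf (2 * K + 1)
    rw [show K + K = 2 * K by ring]
    linarith

lemma Av_I_nonneg (n : ℕ) (p : List Dir → Prop) : 0 ≤ Av n (fun l => I (p l)) := by
  have := Av_mono n (fun _ => 0) (fun l => I (p l)) (fun l _ => I_nonneg _)
  rwa [Av_const] at this

lemma NoTouch_mono {J : ℕ} {R R' : ℤ} (h : R' ≤ R) (hR : NoTouch c J R) : NoTouch c J R' :=
  fun j hj s hs => hR j hj s (hs.trans h)

lemma two_pow_le_NB (J b : ℕ) (hb : b ≤ 4 ^ (J + 1)) : 2 ^ b ≤ NB (J + 1) :=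
  Nat.pow_le_pow_right (by norm_num) hb

lemma blocks (h : IsDiag a ω) (htwo : TwoSided a) (h0 : a 0 = true)
    (hc : Compat PB c) (hn : NonInt PB c) (ha : ∀ s, a s = true ↔ isPt PB NB c s) (J : ℕ)
    (hR : NoTouch c J (9 * NB (J + 1))) (r : ℕ) (hr : kB J + r ≤ 4 ^ (J + 1)) :
    (r : ℝ) * (3 / (1700 * 2 ^ J)) ≤
      ∑ n ∈ Finset.range (4 ^ (kB J + r)), Av (n + n) (fun l => I (pos ω 0 l = 0)) := by
  induction r with
  | zero =>
    simp only [Nat.cast_zero, zero_mul]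
    exact Finset.sum_nonneg fun n _ => Av_I_nonneg _ _
  | succ r ih =>
    have ih := ih (by omega)
    set b := kB J + r with hb
    have hNT : NoTouch c J (8 * 2 ^ b + 1) := by
      apply NoTouch_mono _ hR
      have h1 : 2 ^ b ≤ NB (J + 1) := two_pow_le_NB J b (by omega)
      have h2 : ((2 ^ b : ℕ) : ℤ) ≤ NB (J + 1) := by exact_mod_cast h1
      have h3 : (0:ℤ) < NB (J + 1) := by exact_mod_cast NB_pos _
      push_cast at h2
      linarith
    have e1 : 4 ^ (kB J + (r + 1)) = 4 ^ b + 3 * 4 ^ b := by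
      rw [hb, ← add_assoc, pow_succ]; ring
    rw [e1, Finset.sum_range_add]
    have h1 : 3 / (1700 * 2 ^ J) ≤ ∑ x ∈ Finset.range (3 * 4 ^ b),
        Av (4 ^ b + x + (4 ^ b + x)) (fun l => I (pos ω 0 l = 0)) := by
      calc (3:ℝ) / (1700 * 2 ^ J) = ∑ x ∈ Finset.range (3 * 4 ^ b),
          1 / (1700 * (4:ℝ) ^ b * 2 ^ J) := by
            rw [Finset.sum_const, Finset.card_range, nsmul_eq_mul]
            push_cast
            field_simp
        _ ≤ _ := by
            apply Finset.sum_le_sum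
            intro x hx
            have := Finset.mem_range.1 hx
            exact block_bound h htwo h0 hc hn ha J b (by omega) hNT (4 ^ b + x) (by omega)
    push_cast
    rw [add_mul, one_mul]
    linarith

theorem divergence (h : IsDiag a ω) (htwo : TwoSided a) (h0 : a 0 = true)
    (hc : Compat PB c) (hn : NonInt PB c) (ha : ∀ s, a s = true ↔ isPt PB NB c s) (J0 : ℕ)
    (hR : ∀ J, J0 ≤ J → NoTouch c J (9 * NB (J + 1))) :
    ∀ K : ℕ, ∃ M : ℕ, (K : ℝ) ≤
      ∑ n ∈ Finset.range (M + 1), Av n (fun l => I (pos ω 0 l = 0)) := by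
  intro K
  set J := max J0 (1700 * K) with hJ
  have hkB : kB J ≤ 2 * 4 ^ J := by
    rcases Nat.eq_zero_or_pos J with h' | h'
    · rw [h']; norm_num [kB]
    · obtain ⟨j', hj'⟩ : ∃ j', J = j' + 1 := ⟨J - 1, by omega⟩
      rw [hj']
      have := kB_add j'
      omega
  have e4 : 4 ^ (J + 1) = 4 * 4 ^ J := by rw [pow_succ]; ring
  have h1 := blocks h htwo h0 hc hn ha J (hR J (le_max_left _ _)) (2 * 4 ^ J) (by omega)
  have h2 := sum_even (fun n => Av n (fun l => I (pos ω 0 l = 0)))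
    (fun n => Av_I_nonneg _ _) (4 ^ (kB J + 2 * 4 ^ J))
  have h3 : (K : ℝ) ≤ ((2 * 4 ^ J : ℕ) : ℝ) * (3 / (1700 * 2 ^ J)) := by
    push_cast
    rw [show (2 * (4:ℝ) ^ J) * (3 / (1700 * 2 ^ J)) = 6 * 2 ^ J / 1700 by
      have : (4:ℝ) ^ J = 2 ^ J * 2 ^ J := by rw [← mul_pow]; norm_num
      rw [this]
      field_simp
      norm_num]
    rw [le_div_iff₀ (by norm_num)]
    have h4 : 1700 * K ≤ 2 ^ J := (le_max_right _ _).trans Nat.lt_two_pow_self.le
    have h5 : (1700:ℝ) * K ≤ 2 ^ J := by exact_mod_cast h4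
    have h6 : (0:ℝ) < 2 ^ J := by positivity
    linarith
  refine ⟨2 * 4 ^ (kB J + 2 * 4 ^ J), ?_⟩
  rw [Finset.sum_range_succ]
  have h7 := Av_I_nonneg (2 * 4 ^ (kB J + 2 * 4 ^ J)) (fun l => pos ω 0 l = 0)
  linarith

end Pool.Agent.R294.DPP
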