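import Pool.Agent.R294.DPR4

/-!
# The recurrent environments: measure theory and the failure of the tail condition
-/

set_option autoImplicit false

namespace Pool.Agent.R294.DPP

open MeasureTheory ProbabilityTheory Set Filter Topology

/-- condition (T) -/
def CondT (Q : Measure Env) : Prop :=
  ∃ C : ℝ, 0 < C ∧ ∀ e : ℤ × ℤ, e = (1, 0) ∨ e = (0, 1) → ∀ N : ℕ, 1 ≤ N →
    (∑' k : ℕ, if N ≤ k then (k : ENNReal) * palm Q {ω | gap ω e = k} else 0) /
      (∫⁻ ω, (gap ω e : ENNReal) ∂(palm Q)) ≤ ENNReal.ofReal (C / N)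

/-! ### Measurability -/

lemma meas_gap (e : ℤ × ℤ) : Measurable (fun ω : Env => gap ω e) := by
  have hlt : ∀ k : ℕ, MeasurableSet {ω : Env | k < gap ω e} := by
    intro k
    have : {ω : Env | k < gap ω e} = {ω : Env | (∃ j : ℕ, 0 < j ∧ ω ((j : ℤ) • e) = true) ∧
        ∀ j : ℕ, 0 < j → j ≤ k → ¬ ω ((j : ℤ) • e) = true} := by
      ext ω
      show k < gap ω e ↔ ((∃ j : ℕ, 0 < j ∧ ω ((j : ℤ) • e) = true) ∧
        ∀ j : ℕ, 0 < j → j ≤ k → ¬ ω ((j : ℤ) • e) = true)
      unfold gap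
      constructor
      · intro h
        have hne : {k : ℕ | 0 < k ∧ ω ((k : ℤ) • e) = true}.Nonempty := by
          apply Nat.nonempty_of_pos_sInf
          omega
        refine ⟨hne, fun j hj hjk hω => ?_⟩
        have : sInf {k : ℕ | 0 < k ∧ ω ((k : ℤ) • e) = true} ≤ j := Nat.sInf_le ⟨hj, hω⟩
        omega
      · rintro ⟨hne, h2⟩
        have hmem := Nat.sInf_mem (s := {k : ℕ | 0 < k ∧ ω ((k : ℤ) • e) = true}) hne
        by_contra hle
        push Not at hle
        exact h2 _ hmem.1 hle hmem.2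
    rw [this]
    apply measurableSet_setOfPred.2
    refine Measurable.and ?_ ?_
    · exact Measurable.exists fun j => (meas_prop _).and (meas_pt _)
    · exact Measurable.forall fun j => (meas_prop _).imp ((meas_prop _).imp (meas_pt _).not)
  apply measurable_of_Ioi
  exact hlt

lemma meas_step (v : ℤ × ℤ) (d : Dir) : Measurable (fun ω : Env => step ω v d) := by
  unfold step
  have h1 : Measurable (fun ω : Env => gap (shift v ω) (dir d)) :=
    (meas_gap (dir d)).comp (measurable_shift v)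
  exact (measurable_from_top (f := fun g : ℕ => v + (g : ℤ) • dir d)).comp h1

lemma meas_pos (l : List Dir) : ∀ v w : ℤ × ℤ, MeasurableSet {ω : Env | pos ω v l = w} := by
  induction l with
  | nil =>
    intro v w
    exact MeasurableSet.const (v = w)
  | cons d l ih =>
    intro v w
    have : {ω : Env | pos ω v (d :: l) = w} =
        ⋃ u : ℤ × ℤ, ({ω : Env | step ω v d = u} ∩ {ω : Env | pos ω u l = w}) := by
      ext ω
      rw [mem_iUnion]
      constructor
      · intro h
        exact ⟨step ω v d, rfl, h⟩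
      · rintro ⟨u, h1, h2⟩
        have h1' : step ω v d = u := h1
        have h2' : pos ω u l = w := h2
        show pos ω (step ω v d) l = w
        rw [h1']
        exact h2'
    rw [this]
    refine MeasurableSet.iUnion fun u => MeasurableSet.inter ?_ (ih u w)
    exact meas_step v d (MeasurableSet.singleton u)

lemma meas_Av (n : ℕ) : Measurable (fun ω : Env => Av n (fun l => I (pos ω 0 l = 0))) := by
  have : (fun ω : Env => Av n (fun l => I (pos ω 0 l = 0))) =
      fun ω : Env => ∑ w : Fin n → Dir, (1 / 4 : ℝ) ^ n * I (pos ω 0 (List.ofFn w) = 0) := by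
    funext ω
    exact Av_eq_sum n _
  rw [this]
  apply Finset.measurable_fun_sum
  intro w _
  apply Measurable.const_mul
  unfold I
  exact Measurable.ite (meas_pos _ _ _) measurable_const measurable_const

lemma meas_div : Measurable (fun ω : Env => ∀ K : ℕ, ∃ M : ℕ, (K : ℝ) ≤
    ∑ n ∈ Finset.range (M + 1), Av n (fun l => I (pos ω 0 l = 0))) := by
  refine Measurable.forall fun K => Measurable.exists fun M => ?_
  rw [← measurableSet_setOfPred]
  exact measurableSet_le measurable_const (Finset.measurable_fun_sum _ fun n _ => meas_Av n)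

/-! ### Non-integrality -/

lemma nonint_of {k L w : ℕ → ℕ} (hk : StrictMono k) {θ : ℤ_[2]} {J : ℕ}
    (hL : ∀ j, 1 ≤ j → 1 ≤ L j) (hw : ∀ j, J ≤ j → 2 * 2 ^ k j ≤ w (j + 1))
    (hJ : ∀ j, J ≤ j → θ ∉ touch (k j) (L j) (w j)) :
    NonInt (fun j => 2 ^ k j) (cc k θ) := by
  intro s
  obtain ⟨m, hm1, hm2⟩ : ∃ m, J ≤ m ∧ |s| ≤ 2 ^ k m := by
    refine ⟨max J s.natAbs, le_max_left _ _, ?_⟩
    have h1 : s.natAbs ≤ k (max J s.natAbs) := (le_max_right _ _).trans (hk.id_le _)
    have h2 : s.natAbs < 2 ^ k (max J s.natAbs) := lt_of_le_of_lt h1 Nat.lt_two_pow_self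
    have h3 : (s.natAbs : ℤ) < ((2 ^ k (max J s.natAbs) : ℕ) : ℤ) := by exact_mod_cast h2
    push_cast at h3
    exact h3.le
  refine ⟨m + 1, fun hD => ?_⟩
  apply hJ (m + 1) (by omega)
  refine ⟨s, ?_, ?_⟩
  · have h5 := hw m hm1
    have : ((2 * 2 ^ k m : ℕ) : ℤ) ≤ w (m + 1) := by exact_mod_cast h5
    push_cast at this
    have hpos : (0 : ℤ) < 2 ^ k m := by positivity
    omega
  · have h6 : ((2 ^ k (m + 1) : ℕ) : ℤ) ∣ (res (k (m + 1)) θ : ℤ) + s := hD
    rw [Int.emod_eq_zero_of_dvd h6]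
    exact_mod_cast hL (m + 1) (by omega)

/-! ### The environments are good -/

/-- the windows -/
def wB (j : ℕ) : ℕ := 9 * NB j

lemma NB_pow_le (j : ℕ) : NB j * 2 ^ j ≤ 2 ^ kB j := by
  rcases Nat.eq_zero_or_pos j with h | h
  · subst h
    rw [NB_zero]
    exact Nat.one_le_two_pow
  · have h1 := NB_small j h
    have h2 : 2 ^ j ≤ 2 ^ (j + 2) := Nat.pow_le_pow_right (by norm_num) (by omega)
    calc NB j * 2 ^ j ≤ NB j * 2 ^ (j + 2) := Nat.mul_le_mul_left _ h2
      _ ≤ _ := h1

lemma touchB_ne_top : ∑' j : ℕ, ((2 * wB j + NB j : ℕ) : ENNReal) / 2 ^ (kB j) ≠ ⊤ := by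
  refine ne_top_of_le_ne_top ?_ (tsum_le_of _ kB 19 ?_)
  · norm_num
  · intro j
    have := NB_pow_le j
    unfold wB
    calc (2 * (9 * NB j) + NB j) * 2 ^ j = 19 * (NB j * 2 ^ j) := by ring
      _ ≤ _ := Nat.mul_le_mul_left _ this

lemma densB : ∑' j : ℕ, ((NB (j + 1) - 1 : ℕ) : ENNReal) / 2 ^ (kB (j + 1)) < 1 := by
  have h := tsum_le_of (fun j => 4 * (NB (j + 1) - 1)) (fun j => kB (j + 1)) 1 ?_
  · have e : ∑' j : ℕ, ((4 * (NB (j + 1) - 1) : ℕ) : ENNReal) / 2 ^ (kB (j + 1)) =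
        4 * ∑' j : ℕ, ((NB (j + 1) - 1 : ℕ) : ENNReal) / 2 ^ (kB (j + 1)) := by
      rw [← ENNReal.tsum_mul_left]
      congr 1
      funext j
      push_cast
      rw [mul_div_assoc]
    rw [e] at h
    by_contra hge
    push Not at hge
    have : (4 : ENNReal) * 1 ≤ (1 : ℕ) * 2 := (mul_le_mul_right hge 4).trans h
    norm_num at this
  · intro j
    have h1 := NB_small (j + 1) (by omega)
    have h2 : PB (j + 1) = 2 ^ kB (j + 1) := rfl
    calc 4 * (NB (j + 1) - 1) * 2 ^ j ≤ 4 * NB (j + 1) * 2 ^ j := by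
          apply Nat.mul_le_mul_right
          omega
      _ ≤ NB (j + 1) * 2 ^ (j + 1 + 2) := by
          rw [show j + 1 + 2 = j + 3 by ring, pow_add]
          have : 0 ≤ NB (j + 1) * 2 ^ j := Nat.zero_le _
          nlinarith
      _ ≤ 1 * 2 ^ kB (j + 1) := by rw [one_mul]; exact h1

lemma envB_ae : ∀ᵐ θ ∂haar, TwoSided (line (env kB NB θ)) ∧ (line (env kB NB θ) 0 = true →
    ∀ K : ℕ, ∃ M : ℕ, (K : ℝ) ≤
      ∑ n ∈ Finset.range (M + 1), Av n (fun l => I (pos (env kB NB θ) 0 l = 0))) := by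
  have hw : ∀ j, 2 * 2 ^ kB j ≤ wB (j + 1) := by
    intro j
    have h1 : PB j ≤ NB (j + 1) := PB_le_NB (Nat.lt_succ_self j)
    have h2 : PB j = 2 ^ kB j := rfl
    unfold wB
    omega
  filter_upwards [ae_not_touch kB NB wB touchB_ne_top] with θ hθ
  obtain ⟨J, hJ⟩ := hθ
  have htwo : TwoSided (line (env kB NB θ)) :=
    twoSided_of kB_strictMono (fun j _ => hw j) hJ
  refine ⟨htwo, fun h0 => ?_⟩
  have hcompat : Compat PB (cc kB θ) := fun i j h =>
    cc_compat kB kB_strictMono.monotone θ i j h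
  have hnon : NonInt PB (cc kB θ) :=
    nonint_of kB_strictMono (fun j _ => NB_pos j) (fun j _ => hw j) hJ
  apply divergence (env_diag kB NB θ) htwo h0 hcompat hnon (fun s => env_isPt kB NB θ s) J
  intro J' hJ' j hj s hs
  have h1 := hJ j (by omega)
  by_contra hlt
  push Not at hlt
  apply h1
  refine ⟨s, ?_, hlt⟩
  have h2 : NB (J' + 1) ≤ NB j := NB_mono (by omega)
  have h3 : (NB (J' + 1) : ℤ) ≤ NB j := by exact_mod_cast h2
  unfold wB
  push_cast
  omega

/-! ### Kac -/

lemma shift_iter (e : ℤ × ℤ) (k : ℕ) (ω : Env) (x : ℤ × ℤ) :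
    (shift e)^[k] ω x = ω ((k : ℤ) • e + x) := by
  induction k generalizing ω with
  | zero => simp
  | succ k ih =>
    rw [Function.iterate_succ_apply, ih]
    unfold shift
    congr 1
    push_cast
    rw [add_smul, one_smul]
    abel

lemma kac (Q : Measure Env) [IsProbabilityMeasure Q] (e : ℤ × ℤ)
    (hQ : MeasurePreserving (shift e) Q Q) :
    ∫⁻ ω in O0, (gap ω e : ENNReal) ∂Q ≤ 1 := by
  set B : ℕ → Set Env := fun k => {ω | ω 0 = true ∧
    ∀ i : ℕ, 0 < i → i ≤ k → ¬ ω ((i : ℤ) • e) = true} with hB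
  set B' : ℕ → Set Env := fun k => {ω | ω (-((k : ℤ) • e)) = true ∧
    ∀ i : ℕ, 0 < i → i ≤ k → ¬ ω (-((k : ℤ) • e) + (i : ℤ) • e) = true} with hB'
  have hB'm : ∀ k, MeasurableSet (B' k) := by
    intro k
    apply measurableSet_setOfPred.2
    exact (meas_pt _).and (Measurable.forall fun j =>
      (meas_prop _).imp ((meas_prop _).imp (meas_pt _).not))
  have h1 : ∀ k, Q (B k) = Q (B' k) := by
    intro k
    have h2 : B k = (shift e)^[k] ⁻¹' (B' k) := by
      ext ω
      show (ω 0 = true ∧ ∀ i : ℕ, 0 < i → i ≤ k → ¬ ω ((i : ℤ) • e) = true) ↔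
        ((shift e)^[k] ω (-((k : ℤ) • e)) = true ∧ ∀ i : ℕ, 0 < i → i ≤ k →
          ¬ (shift e)^[k] ω (-((k : ℤ) • e) + (i : ℤ) • e) = true)
      rw [shift_iter, add_neg_cancel]
      apply and_congr Iff.rfl
      apply forall_congr'
      intro i
      rw [shift_iter, add_neg_cancel_left]
    rw [h2]
    exact (hQ.iterate k).measure_preimage (hB'm k).nullMeasurableSet
  have hdisj : Pairwise (Function.onFun Disjoint B') := by
    intro k k' hkk'
    rw [Function.onFun, Set.disjoint_left]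
    rintro ω ⟨h2, h3⟩ ⟨h4, h5⟩
    rcases Nat.lt_or_gt_of_ne hkk' with h | h
    · apply h5 (k' - k) (by omega) (by omega)
      have : -((k' : ℤ) • e) + ((k' - k : ℕ) : ℤ) • e = -((k : ℤ) • e) := by
        rw [Nat.cast_sub h.le, sub_smul]; abel
      rw [this]; exact h2
    · apply h3 (k - k') (by omega) (by omega)
      have : -((k : ℤ) • e) + ((k - k' : ℕ) : ℤ) • e = -((k' : ℤ) • e) := by
        rw [Nat.cast_sub h.le, sub_smul]; abel
      rw [this]; exact h4
  have h2 : ∑' k, Q (B' k) ≤ 1 := by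
    rw [← measure_iUnion hdisj hB'm]
    exact prob_le_one
  have h3 : ∀ ω : Env, (gap ω e : ENNReal) =
      ∑' k : ℕ, ({ω : Env | k < gap ω e}.indicator (fun _ => (1 : ENNReal)) ω) := by
    intro ω
    rw [tsum_eq_sum (s := Finset.range (gap ω e))]
    · rw [Finset.sum_congr rfl (g := fun _ => (1 : ENNReal))]
      · simp
      · intro k hk
        exact indicator_of_mem (show ω ∈ {ω : Env | k < gap ω e} from Finset.mem_range.1 hk) _
    · intro k hk
      apply indicator_of_notMem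
      intro h'
      exact hk (Finset.mem_range.2 h')
  have hgm : ∀ k : ℕ, MeasurableSet {ω : Env | k < gap ω e} := fun k =>
    (meas_gap e) (measurableSet_Ioi (a := k))
  calc ∫⁻ ω in O0, (gap ω e : ENNReal) ∂Q = ∫⁻ ω in O0, ∑' k : ℕ,
        ({ω : Env | k < gap ω e}.indicator (fun _ => (1 : ENNReal)) ω) ∂Q := by
        apply lintegral_congr; exact h3
    _ = ∑' k : ℕ, ∫⁻ ω in O0, ({ω : Env | k < gap ω e}.indicator (fun _ => (1 : ENNReal)) ω) ∂Q := by
        apply lintegral_tsum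
        intro k
        exact (measurable_const.indicator (hgm k)).aemeasurable
    _ ≤ ∑' k : ℕ, Q (B k) := by
        apply ENNReal.tsum_le_tsum
        intro k
        rw [lintegral_indicator_const (hgm k), one_mul, Measure.restrict_apply (hgm k)]
        apply measure_mono
        rintro ω ⟨h4, h5⟩
        refine ⟨h5, fun i hi hik hω => ?_⟩
        have h4' : k < gap ω e := h4
        have : gap ω e ≤ i := Nat.sInf_le ⟨hi, hω⟩
        omega
    _ = ∑' k : ℕ, Q (B' k) := by
        congr 1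
        funext k
        exact h1 k
    _ ≤ 1 := h2

end Pool.Agent.R294.DPP
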