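import Pool.Agent.R294.DPR5

/-!
# The failure of the tail condition and the main theorem
-/

set_option autoImplicit false

namespace Pool.Agent.R294.DPP

open MeasureTheory ProbabilityTheory Set Filter Topology

/-- the origin is a point followed by a long gap -/
def GB (j : ℕ) : Set ℤ_[2] := {θ | θ ∈ ptSet kB NB ∧ res (kB j) θ = 0}

lemma meas_GB (j : ℕ) : MeasurableSet (GB j) := by
  have : GB j = ptSet kB NB ∩ (res (kB j)) ⁻¹' {0} := rfl
  rw [this]
  exact (measurable_ptSet _ _).inter ((measurable_res _) (MeasurableSet.singleton 0))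

lemma res_zero_measure (k : ℕ) : haar {θ | res k θ = 0} = 1 / 2 ^ k := by
  have : {θ : ℤ_[2] | res k θ = 0} = {θ : ℤ_[2] | PadicInt.toZModPow k θ = 0} := by
    ext θ
    show (PadicInt.toZModPow k θ).val = 0 ↔ _
    rw [ZMod.val_eq_zero]
    rfl
  rw [this, haar_class]

lemma hole_mult (j i : ℕ) (hji : j < i) :
    haar {θ | res (kB j) θ = 0 ∧ 1 ≤ res (kB i) θ ∧ res (kB i) θ < NB i} ≤
      ((NB i / PB j : ℕ) : ENNReal) / 2 ^ kB i := by
  classical
  set A : Finset (ZMod (2 ^ kB i)) :=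
    (Finset.range (NB i / PB j)).image (fun l : ℕ => ((l * PB j : ℕ) : ZMod (2 ^ kB i))) with hA
  have h1 : {θ | res (kB j) θ = 0 ∧ 1 ≤ res (kB i) θ ∧ res (kB i) θ < NB i} ⊆
      {θ : ℤ_[2] | PadicInt.toZModPow (kB i) θ ∈ A} := by
    rintro θ ⟨h1, _, h2⟩
    show PadicInt.toZModPow (kB i) θ ∈ A
    have h3 := res_compat (kB_strictMono.monotone hji.le) θ
    rw [h1] at h3
    have h4 : PB j ∣ res (kB i) θ := by
      have : ((2 ^ kB j : ℕ) : ℤ) ∣ (res (kB i) θ : ℤ) := by simpa using h3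
      exact_mod_cast this
    obtain ⟨l, hl⟩ := h4
    obtain ⟨q, hq⟩ := PB_dvd_NB hji
    rw [hA, Finset.mem_image]
    refine ⟨l, ?_, ?_⟩
    · rw [Finset.mem_range, hq, Nat.mul_div_cancel_left _ (PB_pos j)]
      rw [hl, hq] at h2
      exact Nat.lt_of_mul_lt_mul_left h2
    · rw [mul_comm, ← hl]
      unfold res
      rw [ZMod.natCast_zmod_val]
  refine (measure_mono h1).trans ((haar_finset _ A).trans ?_)
  apply ENNReal.div_le_div_right
  have : A.card ≤ NB i / PB j := by
    refine Finset.card_image_le.trans ?_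
    rw [Finset.card_range]
  exact_mod_cast this

lemma GB_lower (j : ℕ) : 1 / 2 ≤ (2 : ENNReal) ^ kB j * haar (GB j) := by
  set H : ℕ → Set ℤ_[2] := fun i => {θ | res (kB j) θ = 0 ∧ 1 ≤ res (kB (j + 1 + i)) θ ∧
    res (kB (j + 1 + i)) θ < NB (j + 1 + i)} with hH
  have hcov : {θ | res (kB j) θ = 0} ⊆ GB j ∪ ⋃ i, H i := by
    intro θ hθ
    have hθ' : res (kB j) θ = 0 := hθ
    by_cases hp : θ ∈ ptSet kB NB
    · left; exact ⟨hp, hθ⟩
    · right
      have hp' : ¬ ∀ j, 1 ≤ j → ¬ (1 ≤ res (kB j) θ ∧ res (kB j) θ < NB j) := hp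
      push Not at hp'
      obtain ⟨i, hi, h1, h2⟩ := hp'
      have hij : j < i := by
        by_contra hle
        push Not at hle
        have h3 := res_compat (kB_strictMono.monotone hle) θ
        rw [hθ'] at h3
        have h4 : ((2 ^ kB i : ℕ) : ℤ) ∣ (res (kB i) θ : ℤ) := by
          have := (dvd_neg (a := ((2 ^ kB i : ℕ) : ℤ))).2 h3
          simpa using this
        have h5 : 2 ^ kB i ∣ res (kB i) θ := by exact_mod_cast h4
        have h6 := Nat.le_of_dvd (by omega) h5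
        have h7 := res_lt (kB i) θ
        omega
      rw [mem_iUnion]
      refine ⟨i - (j + 1), ?_⟩
      have e : j + 1 + (i - (j + 1)) = i := by omega
      show res (kB j) θ = 0 ∧ 1 ≤ res (kB (j + 1 + (i - (j + 1)))) θ ∧
        res (kB (j + 1 + (i - (j + 1)))) θ < NB (j + 1 + (i - (j + 1)))
      rw [e]
      exact ⟨hθ', h1, h2⟩
  have h1 : 1 / 2 ^ kB j ≤ haar (GB j) + ∑' i, haar (H i) := by
    rw [← res_zero_measure]
    exact (measure_mono hcov).trans ((measure_union_le _ _).trans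
      (add_le_add le_rfl (measure_iUnion_le _)))
  have h2 : (2 : ENNReal) ^ kB j * ∑' i, haar (H i) ≤ 1 / 4 := by
    have h3 := tsum_le_of (fun i => 8 * NB (j + 1 + i)) (fun i => kB (j + 1 + i)) 1 ?_
    · have h4 : 8 * ((2 : ENNReal) ^ kB j * ∑' i, haar (H i)) ≤
          ∑' i : ℕ, ((8 * NB (j + 1 + i) : ℕ) : ENNReal) / 2 ^ (kB (j + 1 + i)) := by
        rw [← mul_assoc, ← ENNReal.tsum_mul_left]
        apply ENNReal.tsum_le_tsum
        intro i
        have h5 := hole_mult j (j + 1 + i) (by omega)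
        calc 8 * (2 : ENNReal) ^ kB j * haar (H i) ≤
            8 * (2 : ENNReal) ^ kB j * (((NB (j + 1 + i) / PB j : ℕ) : ENNReal) /
              2 ^ kB (j + 1 + i)) := by gcongr
          _ = ((8 * (2 ^ kB j * (NB (j + 1 + i) / PB j)) : ℕ) : ENNReal) /
              2 ^ kB (j + 1 + i) := by
              push_cast
              rw [← mul_div_assoc]
              ring_nf
          _ ≤ _ := by
              apply ENNReal.div_le_div_right
              have : 2 ^ kB j * (NB (j + 1 + i) / PB j) ≤ NB (j + 1 + i) :=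
                Nat.mul_div_le _ (PB j)
              have : 8 * (2 ^ kB j * (NB (j + 1 + i) / PB j)) ≤ 8 * NB (j + 1 + i) := by omega
              exact_mod_cast this
      have h6 := h4.trans h3
      have h7 : (8 : ENNReal) * (1 / 4) = 2 := by
        rw [one_div, show (8 : ENNReal) = 2 * 4 by norm_num, mul_assoc,
          ENNReal.mul_inv_cancel (by norm_num) (by norm_num), mul_one]
      have h8 : (8 : ENNReal) * ((2 : ENNReal) ^ kB j * ∑' i, haar (H i)) ≤ 8 * (1 / 4) := by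
        rw [h7]; simpa using h6
      exact (ENNReal.mul_le_mul_iff_right (by norm_num) (by norm_num)).1 h8
    · intro i
      have h4 := NB_small (j + 1 + i) (by omega)
      have h5 : PB (j + 1 + i) = 2 ^ kB (j + 1 + i) := rfl
      calc 8 * NB (j + 1 + i) * 2 ^ i = NB (j + 1 + i) * 2 ^ (i + 3) := by
            rw [pow_add]; ring
        _ ≤ NB (j + 1 + i) * 2 ^ (j + 1 + i + 2) := by
            apply Nat.mul_le_mul_left
            exact Nat.pow_le_pow_right (by norm_num) (by omega)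
        _ ≤ 1 * 2 ^ kB (j + 1 + i) := by rw [one_mul]; exact h4
  have h3 : 1 ≤ (2 : ENNReal) ^ kB j * haar (GB j) + 1 / 4 := by
    calc (1 : ENNReal) = 2 ^ kB j * (1 / 2 ^ kB j) := by
          rw [one_div, ENNReal.mul_inv_cancel (by positivity) (by simp)]
      _ ≤ 2 ^ kB j * (haar (GB j) + ∑' i, haar (H i)) := by gcongr
      _ = 2 ^ kB j * haar (GB j) + 2 ^ kB j * ∑' i, haar (H i) := by rw [mul_add]
      _ ≤ _ := by gcongr
  by_contra hlt
  push Not at hlt
  have h4 : (2 : ENNReal) ^ kB j * haar (GB j) + 1 / 4 < 1 / 2 + 1 / 2 := by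
    apply ENNReal.add_lt_add_of_lt_of_le _ hlt
    · rw [one_div, one_div]
      exact ENNReal.inv_le_inv.2 (by norm_num)
    · norm_num
  have h5 : (1 / 2 : ENNReal) + 1 / 2 = 1 := by
    rw [one_div]; exact ENNReal.inv_two_add_inv_two
  rw [h5] at h4
  exact absurd h3 (not_le.2 h4)

/-- the gap is long on the event `GB` -/
lemma gap_GB (j : ℕ) (hj : 1 ≤ j) (θ : ℤ_[2]) (hθ : θ ∈ GB j) (e : ℤ × ℤ)
    (he : e = (1, 0) ∨ e = (0, 1)) (htwo : TwoSided (line (env kB NB θ))) :
    NB j ≤ gap (env kB NB θ) e := by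
  have hval : ∀ i : ℕ, env kB NB θ ((i : ℤ) • e) = line (env kB NB θ) i := by
    intro i
    have hd := env_diag kB NB θ
    have : ((i : ℤ) • e).1 + ((i : ℤ) • e).2 = i := by
      rcases he with he | he <;> subst he <;> simp
    have h1 := hd ((i : ℤ) • e).1 ((i : ℤ) • e).2
    rw [this] at h1
    exact h1
  have hne : {k : ℕ | 0 < k ∧ env kB NB θ ((k : ℤ) • e) = true}.Nonempty := by
    obtain ⟨t, ht, hat⟩ := (htwo 0).1
    refine ⟨t.toNat, ?_, ?_⟩
    · omega
    · rw [hval, Int.toNat_of_nonneg ht.le]; exact hat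
  obtain ⟨h1, h2⟩ := Nat.sInf_mem hne
  set g := sInf {k : ℕ | 0 < k ∧ env kB NB θ ((k : ℤ) • e) = true} with hg
  show NB j ≤ g
  rw [hval] at h2
  by_contra hlt
  push Not at hlt
  have h3 := (env_isPt kB NB θ g).1 h2 j hj
  apply h3
  have h4 : cc kB θ j = 0 := by
    unfold cc
    rw [hθ.2]; rfl
  have h5 := NB_lt_PB j hj
  have h6 : PB j = 2 ^ kB j := rfl
  have h7 : (cc kB θ j + (g : ℤ)) % ((2 ^ kB j : ℕ) : ℤ) = g := by
    rw [h4, zero_add]
    apply Int.emod_eq_of_lt
    · positivity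
    · have : g < 2 ^ kB j := by omega
      exact_mod_cast this
  rw [h7]
  constructor
  · exact_mod_cast h1
  · exact_mod_cast hlt

lemma tail_lower (μ : Measure Env) (e : ℤ × ℤ) (N : ℕ) :
    (N : ENNReal) * μ {ω | N ≤ gap ω e} ≤
      ∑' k : ℕ, if N ≤ k then (k : ENNReal) * μ {ω | gap ω e = k} else 0 := by
  have h1 : μ {ω | N ≤ gap ω e} ≤ ∑' k : ℕ, if N ≤ k then μ {ω | gap ω e = k} else 0 := by
    have h2 : {ω | N ≤ gap ω e} ⊆ ⋃ k : ℕ, {ω | N ≤ k ∧ gap ω e = k} := by
      intro ω hω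
      rw [mem_iUnion]
      exact ⟨gap ω e, hω, rfl⟩
    refine (measure_mono h2).trans ((measure_iUnion_le _).trans ?_)
    apply ENNReal.tsum_le_tsum
    intro k
    split_ifs with h
    · apply measure_mono
      rintro ω ⟨_, h3⟩
      exact h3
    · have : {ω | N ≤ k ∧ gap ω e = k} = ∅ := by
        ext ω
        constructor
        · rintro ⟨h3, _⟩; exact absurd h3 h
        · intro h3; exact absurd h3 (Set.notMem_empty _)
      rw [this]
      simp
  calc (N : ENNReal) * μ {ω | N ≤ gap ω e} ≤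
      (N : ENNReal) * ∑' k : ℕ, if N ≤ k then μ {ω | gap ω e = k} else 0 := by gcongr
    _ = ∑' k : ℕ, (N : ENNReal) * (if N ≤ k then μ {ω | gap ω e = k} else 0) := by
        rw [ENNReal.tsum_mul_left]
    _ ≤ _ := by
        apply ENNReal.tsum_le_tsum
        intro k
        split_ifs with h
        · gcongr
        · simp

theorem not_condT : ¬ CondT (QQ kB NB) := by
  rintro ⟨C, hC, hT⟩
  set Q := QQ kB NB with hQ
  set e : ℤ × ℤ := (1, 0) with he
  have hO0 : 0 < Q O0 := QQ_pos kB NB densB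
  set E := ∫⁻ ω, (gap ω e : ENNReal) ∂(palm Q) with hE
  have hEtop : E ≠ ⊤ := by
    have h1 : E = (Q O0)⁻¹ * ∫⁻ ω in O0, (gap ω e : ENNReal) ∂Q := by
      rw [hE]
      unfold palm ProbabilityTheory.cond
      rw [lintegral_smul_measure, smul_eq_mul]
    rw [h1]
    apply ENNReal.mul_ne_top
    · exact ENNReal.inv_ne_top.2 hO0.ne'
    · have := kac Q e (isDPP_QQ kB NB densB).erg1.toMeasurePreserving
      exact ne_top_of_le_ne_top ENNReal.one_ne_top this
  have hmain : ∀ j, 1 ≤ j → (2 : ENNReal) ^ j * (1 / 2) ≤ ENNReal.ofReal C * E := by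
    intro j hj
    have h1 := hT e (Or.inl rfl) (NB j) (NB_pos j)
    rw [ENNReal.div_le_iff_le_mul (Or.inr ENNReal.ofReal_ne_top) (Or.inl hEtop)] at h1
    have h2 := (tail_lower (palm Q) e (NB j)).trans h1
    -- lower bound of the probability
    have h3 : haar (GB j) ≤ palm Q {ω | NB j ≤ gap ω e} := by
      have hgm : MeasurableSet {ω : Env | NB j ≤ gap ω e} :=
        (meas_gap e) (measurableSet_Ici (a := NB j))
      have h4 : haar (GB j) ≤ Q (O0 ∩ {ω | NB j ≤ gap ω e}) := by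
        rw [hQ]
        unfold QQ
        rw [Measure.map_apply (measurable_env kB NB) (measurable_O0.inter hgm)]
        apply measure_mono_ae
        filter_upwards [envB_ae] with θ hθ hG
        refine ⟨?_, gap_GB j hj θ hG e (Or.inl rfl) hθ.1⟩
        show env kB NB θ 0 = true
        rw [env_iff]
        simpa using hG.1
      refine h4.trans ?_
      unfold palm
      rw [ProbabilityTheory.cond_apply measurable_O0]
      have h5 : 1 ≤ (Q O0)⁻¹ := ENNReal.one_le_inv.2 prob_le_one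
      calc Q (O0 ∩ {ω | NB j ≤ gap ω e}) = 1 * Q (O0 ∩ {ω | NB j ≤ gap ω e}) := (one_mul _).symm
        _ ≤ _ := by gcongr
    have hN0 : (0:ℝ) < NB j := by exact_mod_cast NB_pos j
    have h6 : (NB j : ENNReal) * ENNReal.ofReal (C / NB j) = ENNReal.ofReal C := by
      rw [← ENNReal.ofReal_natCast, ← ENNReal.ofReal_mul hN0.le]
      congr 1
      field_simp
    calc (2 : ENNReal) ^ j * (1 / 2) ≤ (2 : ENNReal) ^ j * (2 ^ kB j * haar (GB j)) := by
          gcongr; exact GB_lower j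
      _ = ((NB j ^ 2 : ℕ) : ENNReal) * haar (GB j) := by
          rw [NB_sq, ← mul_assoc]
          have : PB j = 2 ^ kB j := rfl
          rw [this]
          push_cast
          rfl
      _ = NB j * (NB j * haar (GB j)) := by push_cast; rw [sq, mul_assoc]
      _ ≤ NB j * (NB j * palm Q {ω | NB j ≤ gap ω e}) := by gcongr
      _ ≤ NB j * (ENNReal.ofReal (C / NB j) * E) := by gcongr
      _ = ENNReal.ofReal C * E := by rw [← mul_assoc, h6]
  have hfin : ENNReal.ofReal C * E ≠ ⊤ := ENNReal.mul_ne_top ENNReal.ofReal_ne_top hEtop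
  obtain ⟨n, hn⟩ := ENNReal.exists_nat_gt hfin
  have h1 := hmain (2 * n + 1) (by omega)
  have h2 : (n : ENNReal) ≤ (2 : ENNReal) ^ (2 * n + 1) * (1 / 2) := by
    have h3 : n ≤ 2 ^ (2 * n) := by
      calc n ≤ 2 ^ n := Nat.lt_two_pow_self.le
        _ ≤ 2 ^ (2 * n) := Nat.pow_le_pow_right (by norm_num) (by omega)
    have h4 : (2 : ENNReal) ^ (2 * n + 1) * (1 / 2) = 2 ^ (2 * n) := by
      rw [pow_succ, mul_assoc, one_div, ENNReal.mul_inv_cancel (by norm_num) (by norm_num), mul_one]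
    rw [h4]
    exact_mod_cast h3
  exact absurd (h2.trans h1) (not_le.2 hn)

theorem mainB : ∃ Q : Measure Env, IsDPP Q ∧ 0 < Q O0 ∧
    (∀ᵐ ω ∂(palm Q), ∀ᵐ ξ ∂dirLaw, ∃ n : ℕ, 1 ≤ n ∧ walk ω ξ n = 0) ∧ ¬ CondT Q := by
  refine ⟨QQ kB NB, isDPP_QQ kB NB densB, QQ_pos kB NB densB, ?_, not_condT⟩
  apply ae_palm kB NB _ {ω : Env | line ω 0 = true → ∀ K : ℕ, ∃ M : ℕ, (K : ℝ) ≤
    ∑ n ∈ Finset.range (M + 1), Av n (fun l => I (pos ω 0 l = 0))}
  · exact measurableSet_setOfPred.2 ((meas_line 0).imp meas_div)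
  · intro ω hω h0
    have hω' := hω h0
    apply recurrent_of_div
    intro K
    obtain ⟨M, hM⟩ := hω' (Nat.ceil K)
    exact ⟨M, (Nat.le_ceil K).trans hM⟩
  · filter_upwards [envB_ae] with θ hθ
    exact hθ.2

end Pool.Agent.R294.DPP
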