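import Mathlib

/-! Two contracting Möbius maps `x ↦ 1/(x+a)` and words in them: contraction, unique coding,
the self-similar palindromic words and their limit points. -/

namespace Pool.Agent.R294.IFS

open Set

/-- The two translation parameters. -/
noncomputable def aa (A : ℝ) (t : Bool) : ℝ := if t then A + 2 else A

lemma aa_ge (A : ℝ) (t : Bool) : A ≤ aa A t := by
  unfold aa; split_ifs <;> linarith

/-- The base maps. -/
noncomputable def F (A : ℝ) (t : Bool) (x : ℝ) : ℝ := 1 / (x + aa A t)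

/-- Words in the base maps. -/
noncomputable def Fw (A : ℝ) (w : List Bool) (x : ℝ) : ℝ := w.foldr (fun t y => F A t y) x

@[simp] lemma Fw_nil (A x : ℝ) : Fw A [] x = x := rfl
@[simp] lemma Fw_cons (A : ℝ) (t : Bool) (w : List Bool) (x : ℝ) :
    Fw A (t :: w) x = F A t (Fw A w x) := rfl
lemma Fw_append (A : ℝ) (u v : List Bool) (x : ℝ) :
    Fw A (u ++ v) x = Fw A u (Fw A v x) := by
  simp [Fw, List.foldr_append]

variable {A : ℝ}

lemma F_mem (hA : 2 ≤ A) (t : Bool) {x : ℝ} (hx : x ∈ Icc (0:ℝ) 1) : F A t x ∈ Icc (0:ℝ) 1 := by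
  have h1 := aa_ge A t
  have h2 := hx.1
  unfold F
  constructor
  · exact div_nonneg zero_le_one (by linarith)
  · rw [div_le_one (by linarith)]; linarith

lemma F_mem_Ioo (hA : 2 ≤ A) (t : Bool) {x : ℝ} (hx : x ∈ Icc (0:ℝ) 1) :
    F A t x ∈ Ioo (0:ℝ) 1 := by
  have h1 := aa_ge A t
  have h2 := hx.1
  unfold F
  constructor
  · exact div_pos one_pos (by linarith)
  · rw [div_lt_one (by linarith)]; linarith

lemma Fw_mem (hA : 2 ≤ A) (w : List Bool) {x : ℝ} (hx : x ∈ Icc (0:ℝ) 1) :
    Fw A w x ∈ Icc (0:ℝ) 1 := by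
  induction w with
  | nil => simpa using hx
  | cons t w ih => rw [Fw_cons]; exact F_mem hA t ih

lemma F_contr (hA : 2 ≤ A) (t : Bool) {x y : ℝ} (hx : 0 ≤ x) (hy : 0 ≤ y) :
    |F A t x - F A t y| ≤ (1/4) * |x - y| := by
  have h1 := aa_ge A t
  have h3 : 0 < x + aa A t := by linarith
  have h4 : 0 < y + aa A t := by linarith
  have h5 : F A t x - F A t y = (y - x) / ((x + aa A t) * (y + aa A t)) := by
    unfold F; field_simp; ring
  rw [h5, abs_div, abs_of_pos (mul_pos h3 h4), div_le_iff₀ (mul_pos h3 h4), abs_sub_comm]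
  have h6 : (4:ℝ) ≤ (x + aa A t) * (y + aa A t) := by nlinarith
  nlinarith [abs_nonneg (x - y)]

lemma Fw_contr (hA : 2 ≤ A) (w : List Bool) {x y : ℝ} (hx : x ∈ Icc (0:ℝ) 1)
    (hy : y ∈ Icc (0:ℝ) 1) :
    |Fw A w x - Fw A w y| ≤ (1/4) ^ w.length * |x - y| := by
  induction w with
  | nil => simp
  | cons t w ih =>
    rw [Fw_cons, Fw_cons]
    refine (F_contr hA t (Fw_mem hA w hx).1 (Fw_mem hA w hy).1).trans ?_
    rw [List.length_cons, pow_succ']
    nlinarith [ih]

lemma F_inj (hA : 2 ≤ A) {t t' : Bool} {x y : ℝ} (hx : x ∈ Icc (0:ℝ) 1) (hy : y ∈ Icc (0:ℝ) 1)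
    (h : F A t x = F A t' y) : t = t' ∧ x = y := by
  have h1 := aa_ge A t
  have h2 := aa_ge A t'
  have hx0 := hx.1
  have hy0 := hy.1
  have hx1 := hx.2
  have hy1 := hy.2
  unfold F at h
  rw [div_eq_div_iff (by linarith) (by linarith)] at h
  have h3 : y + aa A t' = x + aa A t := by linarith
  have h4 : t = t' := by
    unfold aa at h3
    cases t <;> cases t' <;> simp at h3 ⊢ <;> linarith
  subst h4
  exact ⟨rfl, by linarith⟩

/-- Unique coding. -/
lemma Fw_inj (hA : 2 ≤ A) : ∀ {u v : List Bool} {x y : ℝ}, u.length = v.length →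
    x ∈ Icc (0:ℝ) 1 → y ∈ Icc (0:ℝ) 1 → Fw A u x = Fw A v y → u = v ∧ x = y := by
  intro u
  induction u with
  | nil =>
    intro v x y hl hx hy h
    have : v = [] := List.length_eq_zero_iff.1 (by simpa using hl.symm)
    subst this
    exact ⟨rfl, by simpa using h⟩
  | cons t u ih =>
    intro v x y hl hx hy h
    cases v with
    | nil => simp at hl
    | cons t' v =>
      rw [Fw_cons, Fw_cons] at h
      obtain ⟨h1, h2⟩ := F_inj hA (Fw_mem hA u hx) (Fw_mem hA v hy) h
      obtain ⟨h3, h4⟩ := ih (by simpa using hl) hx hy h2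
      exact ⟨by rw [h1, h3], h4⟩

/-- Comparing prefixes. -/
lemma Fw_cancel (hA : 2 ≤ A) {u v : List Bool} {x y : ℝ} (hl : u.length ≤ v.length)
    (hx : x ∈ Icc (0:ℝ) 1) (hy : y ∈ Icc (0:ℝ) 1) (h : Fw A u x = Fw A v y) :
    ∃ v', v = u ++ v' ∧ x = Fw A v' y := by
  have h1 : v = v.take u.length ++ v.drop u.length := (List.take_append_drop _ _).symm
  rw [h1, Fw_append] at h
  obtain ⟨h2, h3⟩ := Fw_inj hA (by simp [hl]) hx (Fw_mem hA _ hy) h
  refine ⟨v.drop u.length, ?_, h3⟩
  conv_lhs => rw [h1]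
  rw [← h2]

lemma F_continuousOn (hA : 2 ≤ A) (t : Bool) : ContinuousOn (F A t) (Icc 0 1) := by
  unfold F
  refine ContinuousOn.div continuousOn_const (by fun_prop) ?_
  intro x hx
  have := aa_ge A t
  have := hx.1
  linarith

lemma Fw_continuousOn (hA : 2 ≤ A) (w : List Bool) : ContinuousOn (Fw A w) (Icc 0 1) := by
  induction w with
  | nil => exact continuousOn_id
  | cons t w ih =>
    exact (F_continuousOn hA t).comp ih (fun x hx => Fw_mem hA w hx)

/-- Repetition of a word. -/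
def rep (w : List Bool) (m : ℕ) : List Bool := (List.replicate m w).flatten

@[simp] lemma rep_zero (w : List Bool) : rep w 0 = [] := rfl
lemma rep_succ (w : List Bool) (m : ℕ) : rep w (m+1) = w ++ rep w m := by
  simp [rep, List.replicate_succ]
lemma rep_add (w : List Bool) (m n : ℕ) : rep w (m+n) = rep w m ++ rep w n := by
  induction m with
  | zero => simp
  | succ m ih => rw [Nat.succ_add, rep_succ, rep_succ, ih, List.append_assoc]
lemma rep_one (w : List Bool) : rep w 1 = w := by simp [rep_succ]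
lemma rep_succ' (w : List Bool) (m : ℕ) : rep w (m+1) = rep w m ++ w := by
  rw [rep_add, rep_one]
@[simp] lemma rep_length (w : List Bool) (m : ℕ) : (rep w m).length = m * w.length := by
  simp [rep]
lemma rep_reverse (w : List Bool) (m : ℕ) : (rep w m).reverse = rep w.reverse m := by
  induction m with
  | zero => simp
  | succ m ih => rw [rep_succ', List.reverse_append, ih, rep_succ]

lemma Fw_rep_fixed {u : List Bool} {x : ℝ} (h : Fw A u x = x) (m : ℕ) :
    Fw A (rep u m) x = x := by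
  induction m with
  | zero => simp
  | succ m ih => rw [rep_succ, Fw_append, ih, h]

/-- The two families of self-similar words. -/
def seqW : ℕ → List Bool × List Bool
  | 0 => ([false], [true])
  | k+1 =>
    (rep (seqW k).1 ((k+1)*((seqW k).2.length+1)) ++ ([true] ++
        rep (seqW k).1 ((k+1)*((seqW k).2.length+1))),
     rep (seqW k).2 ((k+1)*((rep (seqW k).1 ((k+1)*((seqW k).2.length+1)) ++ ([true] ++
        rep (seqW k).1 ((k+1)*((seqW k).2.length+1)))).length+1)) ++ ([false] ++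
      rep (seqW k).2 ((k+1)*((rep (seqW k).1 ((k+1)*((seqW k).2.length+1)) ++ ([true] ++
        rep (seqW k).1 ((k+1)*((seqW k).2.length+1)))).length+1))))

/-- The word number `k` of channel `t`. -/
def W (t : Bool) (k : ℕ) : List Bool := if t then (seqW k).2 else (seqW k).1

/-- The multiplicities. -/
def mm (t : Bool) (k : ℕ) : ℕ :=
  if t then (k+1)*((W false (k+1)).length+1) else (k+1)*((W true k).length+1)

lemma W_zero (t : Bool) : W t 0 = [t] := by cases t <;> rfl

lemma W_succ (t : Bool) (k : ℕ) :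
    W t (k+1) = rep (W t k) (mm t k) ++ ([!t] ++ rep (W t k) (mm t k)) := by
  cases t
  · rfl
  · rfl

lemma mm_ge (t : Bool) (k : ℕ) : k + 1 ≤ mm t k := by
  unfold mm
  split_ifs
  · exact Nat.le_mul_of_pos_right _ (Nat.succ_pos _)
  · exact Nat.le_mul_of_pos_right _ (Nat.succ_pos _)

lemma mm_pos (t : Bool) (k : ℕ) : 0 < mm t k := lt_of_lt_of_le (Nat.succ_pos k) (mm_ge t k)

/-- Every word of channel `t` begins with `t`. -/
lemma W_head (t : Bool) (k : ℕ) : ∃ b, W t k = t :: b := by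
  induction k with
  | zero => exact ⟨[], W_zero t⟩
  | succ k ih =>
    obtain ⟨b, hb⟩ := ih
    obtain ⟨m, hm⟩ := Nat.exists_eq_add_of_lt (mm_pos t k)
    rw [W_succ, show mm t k = m + 1 by omega, rep_succ]
    rw [hb]
    exact ⟨_, rfl⟩

lemma W_palin (t : Bool) (k : ℕ) : (W t k).reverse = W t k := by
  induction k with
  | zero => simp [W_zero]
  | succ k ih =>
    rw [W_succ]
    simp only [List.reverse_append, rep_reverse, ih, List.reverse_cons, List.reverse_nil,
      List.nil_append, List.append_assoc]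

/-- Every word of channel `t` ends with `t`. -/
lemma W_last (t : Bool) (k : ℕ) : ∃ b, W t k = b ++ [t] := by
  obtain ⟨b, hb⟩ := W_head t k
  refine ⟨b.reverse, ?_⟩
  rw [← W_palin, hb]; simp

lemma W_length_pos (t : Bool) (k : ℕ) : 0 < (W t k).length := by
  obtain ⟨b, hb⟩ := W_head t k
  rw [hb]; simp

lemma W_length_succ (t : Bool) (k : ℕ) :
    (W t (k+1)).length = 2 * (mm t k * (W t k).length) + 1 := by
  rw [W_succ]; simp; ring

lemma W_length_ge (t : Bool) (k : ℕ) : k + 1 ≤ (W t k).length := by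
  induction k with
  | zero => exact W_length_pos t 0
  | succ k ih =>
    rw [W_length_succ]
    have h1 := mm_pos t k
    have h2 : (W t k).length ≤ mm t k * (W t k).length := Nat.le_mul_of_pos_left _ h1
    omega

/-- No two consecutive letters `!t`. -/
def NoSq (t : Bool) (a b : Bool) : Prop := ¬ (a = !t ∧ b = !t)

lemma rep_chain {t : Bool} {w : List Bool} (hw : List.IsChain (NoSq t) w)
    (hlast : ∃ b, w = b ++ [t]) (m : ℕ) : List.IsChain (NoSq t) (rep w m) := by
  induction m with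
  | zero => simp
  | succ m ih =>
    rw [rep_succ, List.isChain_append]
    refine ⟨hw, ih, ?_⟩
    obtain ⟨b, hb⟩ := hlast
    intro x hx y hy h
    rw [hb] at hx
    simp at hx
    obtain ⟨h1, h2⟩ := h
    subst hx
    cases t <;> simp at h1

lemma W_chain (t : Bool) (k : ℕ) : List.IsChain (NoSq t) (W t k) := by
  induction k with
  | zero => rw [W_zero]; simp
  | succ k ih =>
    have h1 := rep_chain ih (W_last t k) (mm t k)
    obtain ⟨m, hm⟩ := Nat.exists_eq_add_of_lt (mm_pos t k)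
    have hm' : mm t k = m + 1 := by omega
    rw [W_succ, List.isChain_append]
    refine ⟨h1, ?_, ?_⟩
    · rw [List.isChain_append]
      refine ⟨by simp, h1, ?_⟩
      intro x hx y hy h
      obtain ⟨b, hb⟩ := W_head t k
      rw [hm', rep_succ, hb] at hy
      simp at hy
      obtain ⟨h1, h2⟩ := h
      subst hy
      cases t <;> simp at h2
    · intro x hx y hy h
      obtain ⟨b, hb⟩ := W_last t k
      rw [hm', rep_succ', hb] at hx
      simp only [← List.append_assoc] at hx
      simp at hx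
      obtain ⟨h1, h2⟩ := h
      subst hx
      cases t <;> simp at h1


/-! ### The limit points -/

/-- The nested images. -/
def K (A : ℝ) (t : Bool) (k : ℕ) : Set ℝ := Fw A (W t k) '' Icc 0 1

lemma K_succ_subset (hA : 2 ≤ A) (t : Bool) (k : ℕ) : K A t (k+1) ⊆ K A t k := by
  rintro _ ⟨y, hy, rfl⟩
  obtain ⟨m, hm⟩ := Nat.exists_eq_add_of_lt (mm_pos t k)
  have hm' : mm t k = m + 1 := by omega
  rw [W_succ, hm', rep_succ, List.append_assoc, Fw_append]
  exact ⟨_, Fw_mem hA _ hy, rfl⟩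

lemma exists_P (hA : 2 ≤ A) (t : Bool) : ∃ P : ℝ, ∀ k, P ∈ K A t k := by
  have h := IsCompact.nonempty_iInter_of_sequence_nonempty_isCompact_isClosed (K A t)
    (K_succ_subset hA t) (fun k => ⟨_, mem_image_of_mem _ (left_mem_Icc.2 zero_le_one)⟩)
    (isCompact_Icc.image_of_continuousOn (Fw_continuousOn hA _))
    (fun k => (isCompact_Icc.image_of_continuousOn (Fw_continuousOn hA _)).isClosed)
  obtain ⟨P, hP⟩ := h
  exact ⟨P, fun k => mem_iInter.1 hP k⟩

/-- The defining property of the limit point of channel `t`. -/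
def IsP (A : ℝ) (t : Bool) (P : ℝ) : Prop := ∀ k, P ∈ K A t k

lemma IsP.mem (hA : 2 ≤ A) {t : Bool} {P : ℝ} (h : IsP A t P) : P ∈ Icc (0:ℝ) 1 := by
  obtain ⟨y, hy, rfl⟩ := h 0
  exact Fw_mem hA _ hy

lemma IsP.rep (hA : 2 ≤ A) {t : Bool} {P : ℝ} (h : IsP A t P) (k : ℕ) :
    ∃ y ∈ Icc (0:ℝ) 1, P = Fw A (rep (W t k) (mm t k)) y := by
  obtain ⟨y, hy, h1⟩ := h (k+1)
  rw [W_succ, Fw_append] at h1
  exact ⟨_, Fw_mem hA _ hy, h1.symm⟩

lemma IsP.ne_cross (hA : 2 ≤ A) {t : Bool} {P P' : ℝ} (h : IsP A t P) (h' : IsP A (!t) P')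
    (u : List Bool) : P ≠ Fw A u P' := by
  intro he
  -- the code of `P'` starts with two letters `!t`
  obtain ⟨y, hy, h1⟩ := h'.rep hA 0
  have h2 : 2 ≤ mm (!t) 0 := by
    have h3 : ∀ b, 2 ≤ mm b 0 := by
      intro b
      unfold mm
      split_ifs
      · have := W_length_pos false (0+1); omega
      · have := W_length_pos true 0; omega
    exact h3 _
  obtain ⟨m, hm⟩ : ∃ m, mm (!t) 0 = m + 1 + 1 := ⟨mm (!t) 0 - 2, by omega⟩
  rw [hm, W_zero, rep_succ, rep_succ] at h1
  rw [h1, ← Fw_append] at he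
  set N := (u ++ ([!t] ++ ([!t] ++ Pool.Agent.R294.IFS.rep [!t] m))).length with hN
  obtain ⟨z, hz, h4⟩ := h N
  have h5 := W_length_ge t N
  obtain ⟨v', hv', -⟩ := Fw_cancel hA (by omega) hy hz (he.symm.trans h4.symm)
  have h6 := W_chain t N
  rw [hv'] at h6
  have h7 : List.IsChain (NoSq t) ([!t] ++ ([!t] ++ Pool.Agent.R294.IFS.rep [!t] m)) := by
    have := (List.isChain_append.1 h6).1
    exact (List.isChain_append.1 this).2.1
  simp only [List.cons_append, List.nil_append, List.isChain_cons_cons] at h7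
  exact h7.1 ⟨rfl, rfl⟩

lemma IsP.ne_self (hA : 2 ≤ A) {t : Bool} {P : ℝ} (h : IsP A t P)
    {u : List Bool} (hu : u ≠ []) : P ≠ Fw A u P := by
  intro he
  have hP := h.mem hA
  set k := u.length with hk
  have hk0 : 0 < k := List.length_pos_iff.2 hu
  set L := (W t k).length with hL
  have hLpos := W_length_pos t k
  have h1 := Fw_rep_fixed he.symm L
  obtain ⟨y, hy, h2⟩ := h (k+1)
  rw [W_succ] at h2
  obtain ⟨m, hm⟩ : ∃ m, mm t k = k + m + 1 := by
    have := mm_ge t k
    exact ⟨mm t k - k - 1, by omega⟩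
  -- first representation of `P`
  have h3 : Fw A (Pool.Agent.R294.IFS.rep u L) P =
      Fw A (Pool.Agent.R294.IFS.rep (W t k) k)
        (Fw A (Pool.Agent.R294.IFS.rep (W t k) (m+1) ++
          ([!t] ++ Pool.Agent.R294.IFS.rep (W t k) (mm t k))) y) := by
    rw [h1, ← Fw_append, ← List.append_assoc, ← rep_add, show k + (m+1) = mm t k by omega]
    exact h2.symm
  obtain ⟨-, h4⟩ := Fw_inj hA (by simp only [rep_length]; rw [← hk, ← hL, mul_comm]) hP
    (Fw_mem hA _ hy) h3
  have h5 : Fw A (Pool.Agent.R294.IFS.rep (W t k) (m+1) ++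
          ([!t] ++ Pool.Agent.R294.IFS.rep (W t k) (mm t k))) y =
      Fw A (Pool.Agent.R294.IFS.rep (W t k) (m+1)) (Fw A (Pool.Agent.R294.IFS.rep (W t k) k ++
          ([!t] ++ Pool.Agent.R294.IFS.rep (W t k) (mm t k))) y) := by
    rw [← h4, ← Fw_append, ← List.append_assoc, ← rep_add, show m + 1 + k = mm t k by omega]
    exact h2.symm
  rw [Fw_append] at h5
  obtain ⟨-, h6⟩ := Fw_inj hA rfl (Fw_mem hA _ hy) (Fw_mem hA _ hy) h5
  obtain ⟨j, hj⟩ : ∃ j, k = j + 1 := ⟨k - 1, by omega⟩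
  obtain ⟨b, hb⟩ := W_head t k
  rw [show Pool.Agent.R294.IFS.rep (W t k) k =
    (t :: b) ++ Pool.Agent.R294.IFS.rep (W t k) j from by
      conv_lhs => rw [show k = j + 1 from hj]
      rw [rep_succ, ← hj, hb]] at h6
  simp only [List.cons_append, List.nil_append, Fw_cons] at h6
  obtain ⟨h7, -⟩ := F_inj hA (Fw_mem hA _ hy) (Fw_mem hA _ hy) h6
  cases t <;> simp at h7

end Pool.Agent.R294.IFS
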