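import Pool.Agent.R294.IFS1

/-! The perturbed maps, their matrices, and the near-commutation estimate. -/

namespace Pool.Agent.R294.IFS

open Set Matrix

/-- The perturbing Möbius map `x ↦ D x` with `D = 1 + s (P,1)(P,1)ᵀ`. -/
noncomputable def D (P s x : ℝ) : ℝ := ((1 + s * P^2) * x + s * P) / (s * P * x + (1 + s))

lemma D_mem {P s x : ℝ} (hP : P ∈ Icc (0:ℝ) 1) (hs : 0 ≤ s) (hx : x ∈ Icc (0:ℝ) 1) :
    D P s x ∈ Icc (0:ℝ) 1 := by
  obtain ⟨hP0, hP1⟩ := hP
  obtain ⟨hx0, hx1⟩ := hx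
  have h1 : 0 < s * P * x + (1 + s) := by positivity
  unfold D
  constructor
  · positivity
  · rw [div_le_one h1]
    have h2 : s * P^2 * x + s * P ≤ s * P * x + s := by
      have : s * (P^2 * x + P) ≤ s * (P * x + 1) := by
        apply mul_le_mul_of_nonneg_left _ hs
        nlinarith [mul_nonneg hP0 hx0, mul_nonneg (sub_nonneg.2 hP1) (mul_nonneg hP0 hx0)]
      nlinarith
    nlinarith

lemma D_sub {P s x : ℝ} (hP : P ∈ Icc (0:ℝ) 1) (hs : 0 ≤ s) (hx : x ∈ Icc (0:ℝ) 1) :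
    |D P s x - P| ≤ 1 / (1 + s) := by
  obtain ⟨hP0, hP1⟩ := hP
  obtain ⟨hx0, hx1⟩ := hx
  have h1 : 0 < s * P * x + (1 + s) := by positivity
  have h2 : D P s x - P = (x - P) / (s * P * x + (1 + s)) := by
    unfold D; field_simp; ring
  rw [h2, abs_div, abs_of_pos h1]
  apply div_le_div₀ zero_le_one (by rw [abs_le]; constructor <;> linarith) (by linarith)
  have : 0 ≤ s * P * x := by positivity
  linarith

lemma D_zero {P x : ℝ} : D P 0 x = x := by simp [D]

lemma D_inj {P s x y : ℝ} (hP : P ∈ Icc (0:ℝ) 1) (hs : 0 ≤ s) (hx : x ∈ Icc (0:ℝ) 1)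
    (hy : y ∈ Icc (0:ℝ) 1) (h : D P s x = D P s y) : x = y := by
  obtain ⟨hP0, hP1⟩ := hP
  obtain ⟨hx0, hx1⟩ := hx
  obtain ⟨hy0, hy1⟩ := hy
  have h1 : 0 < s * P * x + (1 + s) := by positivity
  have h2 : 0 < s * P * y + (1 + s) := by positivity
  unfold D at h
  rw [div_eq_div_iff h1.ne' h2.ne'] at h
  have h3 : (1 + s * (1 + P^2)) * (x - y) = 0 := by linear_combination h
  rcases mul_eq_zero.1 h3 with h4 | h4
  · have : 0 < 1 + s * (1 + P^2) := by positivity
    linarith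
  · linarith

lemma D_lip {P s x y : ℝ} (hP : P ∈ Icc (0:ℝ) 1) (hs : 0 ≤ s) (hx : x ∈ Icc (0:ℝ) 1)
    (hy : y ∈ Icc (0:ℝ) 1) : |D P s x - D P s y| ≤ |x - y| := by
  obtain ⟨hP0, hP1⟩ := hP
  obtain ⟨hx0, hx1⟩ := hx
  obtain ⟨hy0, hy1⟩ := hy
  have h1 : 0 < s * P * x + (1 + s) := by positivity
  have h2 : 0 < s * P * y + (1 + s) := by positivity
  have h3 : D P s x - D P s y = (1 + s * (1 + P^2)) * (x - y) /
      ((s * P * x + (1 + s)) * (s * P * y + (1 + s))) := by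
    unfold D; field_simp; ring
  rw [h3, abs_div, abs_mul, abs_of_pos (mul_pos h1 h2), div_le_iff₀ (mul_pos h1 h2),
    abs_of_pos (by positivity : 0 < 1 + s * (1 + P^2)), mul_comm]
  apply mul_le_mul_of_nonneg_left _ (abs_nonneg _)
  have h4 : 1 + s ≤ s * P * x + (1 + s) := by have : 0 ≤ s * P * x := by positivity
                                              linarith
  have h5 : 1 + s ≤ s * P * y + (1 + s) := by have : 0 ≤ s * P * y := by positivity
                                              linarith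
  have h6 : (1+s) * (1+s) ≤ (s * P * x + (1 + s)) * (s * P * y + (1 + s)) :=
    mul_le_mul h4 h5 (by positivity) (by positivity)
  have h7 : P^2 ≤ 1 := by nlinarith
  nlinarith [mul_le_mul_of_nonneg_left h7 hs, sq_nonneg s]

/-- The near-commutation estimate. -/
lemma comm_bound {α β δ P s x : ℝ} (h0 : 0 ≤ α) (h1 : α ≤ β) (h2 : β ≤ δ) (h3 : 0 < β)
    (hP : P ∈ Icc (0:ℝ) 1) (hs : 0 ≤ s) (hx : x ∈ Icc (0:ℝ) 1) :
    |(α * D P s x + β) / (β * D P s x + δ) - D P s ((α * x + β) / (β * x + δ))| ≤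
      4 * s * |(α * P + β) / (β * P + δ) - P| := by
  have hP' := hP
  have hx' := hx
  obtain ⟨hP0, hP1⟩ := hP
  obtain ⟨hx0, hx1⟩ := hx
  have hδ : 0 < δ := by linarith
  have hY : 0 < β * x + δ := by positivity
  have hYP : 0 < β * P + δ := by positivity
  have hg : (α * x + β) / (β * x + δ) ∈ Icc (0:ℝ) 1 := by
    constructor
    · positivity
    · rw [div_le_one hY]; nlinarith
  have hD := D_mem hP' hs hg
  set T := D P s ((α * x + β) / (β * x + δ)) with hT
  have hd : 0 < s * P * x + (1 + s) := by positivity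
  -- second coordinate of `G D (x,1)`
  have hY' : 0 < β * ((1 + s * P^2) * x + s * P) + δ * (s * P * x + (1 + s)) := by positivity
  set Y' := β * ((1 + s * P^2) * x + s * P) + δ * (s * P * x + (1 + s)) with hY'def
  have hDG : 0 < s * P * (α * x + β) + (1 + s) * (β * x + δ) := by positivity
  have e1 : (α * D P s x + β) / (β * D P s x + δ) =
      (α * ((1 + s * P^2) * x + s * P) + β * (s * P * x + (1 + s))) / Y' := by
    have : 0 < β * D P s x + δ := by
      have := (D_mem hP' hs hx').1; positivity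
    rw [hY'def]
    unfold D at this ⊢
    rw [div_eq_div_iff this.ne' hY'.ne']
    field_simp
    rw [hY'def]; ring
  have e2 : T = ((1 + s * P^2) * (α * x + β) + s * P * (β * x + δ)) /
      (s * P * (α * x + β) + (1 + s) * (β * x + δ)) := by
    rw [hT]
    unfold D
    have : 0 < s * P * ((α * x + β) / (β * x + δ)) + (1 + s) := by positivity
    rw [div_eq_div_iff this.ne' hDG.ne']
    field_simp
    try ring
  have e3 : (α * D P s x + β) / (β * D P s x + δ) - T =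
      s * ((α * P + β) - P * (β * P + δ)) * (1 + x * T) / Y' := by
    rw [e1]
    have e4 : T * (s * P * (α * x + β) + (1 + s) * (β * x + δ)) =
      ((1 + s * P^2) * (α * x + β) + s * P * (β * x + δ)) := by
      rw [e2]; field_simp
    rw [eq_div_iff hY'.ne', sub_mul, div_mul_cancel₀ _ hY'.ne']
    rw [hY'def]
    linear_combination (-1) * e4
  rw [e3]
  have e5 : (α * P + β) - P * (β * P + δ) =
      ((α * P + β) / (β * P + δ) - P) * (β * P + δ) := by
    field_simp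
  rw [e5, abs_div, abs_of_pos hY', div_le_iff₀ hY', abs_mul, abs_mul, abs_mul,
    abs_of_nonneg hs, abs_of_pos hYP, abs_of_nonneg (by have := hD.1; positivity : 0 ≤ 1 + x * T)]
  have e6 : 1 + x * T ≤ 2 := by
    have := mul_le_mul hx1 hD.2 hD.1 zero_le_one
    linarith
  have e7 : β * P + δ ≤ 2 * Y' := by
    have h8 : δ ≤ Y' := by
      rw [hY'def]
      have a1 : 0 ≤ β * ((1 + s * P^2) * x + s * P) := by positivity
      have a2 : 0 ≤ δ * (s * P * x + s) := by positivity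
      nlinarith
    have h9 : β * P ≤ δ := by nlinarith
    linarith
  set E := |(α * P + β) / (β * P + δ) - P| with hE
  have hE0 : 0 ≤ E := abs_nonneg _
  have hT1 : 0 ≤ 1 + x * T := by have := hD.1; positivity
  have b1 : s * (E * (β * P + δ)) * (1 + x * T) ≤ s * (E * (2 * Y')) * 2 := by
    apply mul_le_mul _ e6 hT1 (by positivity)
    apply mul_le_mul_of_nonneg_left _ hs
    exact mul_le_mul_of_nonneg_left e7 hE0
  linarith

/-! ### Matrices -/

/-- The Möbius map of a matrix. -/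
noncomputable def mob (M : Matrix (Fin 2) (Fin 2) ℝ) (x : ℝ) : ℝ :=
  (M 0 0 * x + M 0 1) / (M 1 0 * x + M 1 1)

lemma mob_one (x : ℝ) : mob 1 x = x := by simp [mob]

lemma aux_div (a b p u : ℝ) (h : u ≠ 0) : a * (p / u) + b = (a * p + b * u) / u := by
  field_simp

lemma mob_mul {M N : Matrix (Fin 2) (Fin 2) ℝ} {x : ℝ} (h : N 1 0 * x + N 1 1 ≠ 0) :
    mob (M * N) x = mob M (mob N x) := by
  unfold mob
  simp only [Matrix.mul_apply, Fin.sum_univ_two]
  have h1 : M 0 0 * ((N 0 0 * x + N 0 1) / (N 1 0 * x + N 1 1)) + M 0 1 =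
    ((M 0 0 * N 0 0 + M 0 1 * N 1 0) * x + (M 0 0 * N 0 1 + M 0 1 * N 1 1)) /
      (N 1 0 * x + N 1 1) := by
    rw [aux_div _ _ _ _ h]; congr 1; ring
  have h2 : M 1 0 * ((N 0 0 * x + N 0 1) / (N 1 0 * x + N 1 1)) + M 1 1 =
    ((M 1 0 * N 0 0 + M 1 1 * N 1 0) * x + (M 1 0 * N 0 1 + M 1 1 * N 1 1)) /
      (N 1 0 * x + N 1 1) := by
    rw [aux_div _ _ _ _ h]; congr 1; ring
  rw [h1, h2, div_div_div_cancel_right₀ h]

/-- Positivity of a matrix (the upper left entry may vanish). -/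
structure Pos (M : Matrix (Fin 2) (Fin 2) ℝ) : Prop where
  h00 : 0 ≤ M 0 0
  h01 : 0 < M 0 1
  h10 : 0 < M 1 0
  h11 : 0 < M 1 1

lemma Pos.mul {M N : Matrix (Fin 2) (Fin 2) ℝ} (hM : Pos M) (hN : Pos N) : Pos (M * N) := by
  obtain ⟨a, b, c, d⟩ := hM
  obtain ⟨a', b', c', d'⟩ := hN
  constructor <;> simp only [Matrix.mul_apply, Fin.sum_univ_two] <;> positivity

lemma Pos.transpose {M : Matrix (Fin 2) (Fin 2) ℝ} (hM : Pos M) : Pos Mᵀ :=
  ⟨hM.h00, hM.h10, hM.h01, hM.h11⟩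

lemma Pos.den {M : Matrix (Fin 2) (Fin 2) ℝ} (hM : Pos M) {x : ℝ} (hx : 0 ≤ x) :
    0 < M 1 0 * x + M 1 1 := by
  have := hM.h10; have := hM.h11; positivity

/-- The matrix of the base maps. -/
noncomputable def BM (A : ℝ) (t : Bool) : Matrix (Fin 2) (Fin 2) ℝ := !![0, 1; 1, aa A t]

/-- The matrix of `D`. -/
noncomputable def DM (P s : ℝ) : Matrix (Fin 2) (Fin 2) ℝ :=
  !![1 + s * P^2, s * P; s * P, 1 + s]

lemma mob_BM (A : ℝ) (t : Bool) (x : ℝ) : mob (BM A t) x = F A t x := by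
  simp [mob, BM, F]

lemma mob_DM (P s x : ℝ) : mob (DM P s) x = D P s x := by
  simp [mob, DM, D]

lemma BM_transpose (A : ℝ) (t : Bool) : (BM A t)ᵀ = BM A t := by
  ext i j; fin_cases i <;> fin_cases j <;> rfl

lemma DM_transpose (P s : ℝ) : (DM P s)ᵀ = DM P s := by
  ext i j; fin_cases i <;> fin_cases j <;> rfl

/-- Letter matrices of the system; the letter `(t,d)` is `F_t` or `F_t D_t`. -/
noncomputable def LM (A : ℝ) (P : Bool → ℝ) (s : ℝ) (l : Bool × Bool) :
    Matrix (Fin 2) (Fin 2) ℝ := if l.2 then BM A l.1 * DM (P l.1) s else BM A l.1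

/-- Letter matrices of the reversed system. -/
noncomputable def GM (A : ℝ) (P : Bool → ℝ) (s : ℝ) (l : Bool × Bool) :
    Matrix (Fin 2) (Fin 2) ℝ := if l.2 then DM (P l.1) s * BM A l.1 else BM A l.1

lemma LM_transpose (A : ℝ) (P : Bool → ℝ) (s : ℝ) (l : Bool × Bool) :
    (LM A P s l)ᵀ = GM A P s l := by
  unfold LM GM
  split_ifs
  · rw [Matrix.transpose_mul, BM_transpose, DM_transpose]
  · rw [BM_transpose]

/-- The maps of the system. -/
noncomputable def ff (A : ℝ) (P : Bool → ℝ) (s : ℝ) (l : Bool × Bool) (x : ℝ) : ℝ :=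
  if l.2 then F A l.1 (D (P l.1) s x) else F A l.1 x

/-- The maps of the reversed system. -/
noncomputable def gg (A : ℝ) (P : Bool → ℝ) (s : ℝ) (l : Bool × Bool) (x : ℝ) : ℝ :=
  if l.2 then D (P l.1) s (F A l.1 x) else F A l.1 x

/-- Word maps. -/
noncomputable def fw (A : ℝ) (P : Bool → ℝ) (s : ℝ) (w : List (Bool × Bool)) (x : ℝ) : ℝ :=
  w.foldr (fun l y => ff A P s l y) x

/-- Word maps of the reversed system. -/
noncomputable def gw (A : ℝ) (P : Bool → ℝ) (s : ℝ) (w : List (Bool × Bool)) (x : ℝ) : ℝ :=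
  w.foldr (fun l y => gg A P s l y) x

/-- Word matrices. -/
noncomputable def LMw (A : ℝ) (P : Bool → ℝ) (s : ℝ) (w : List (Bool × Bool)) :
    Matrix (Fin 2) (Fin 2) ℝ := (w.map (LM A P s)).prod

/-- Word matrices of the reversed system. -/
noncomputable def GMw (A : ℝ) (P : Bool → ℝ) (s : ℝ) (w : List (Bool × Bool)) :
    Matrix (Fin 2) (Fin 2) ℝ := (w.map (GM A P s)).prod

lemma LMw_transpose (A : ℝ) (P : Bool → ℝ) (s : ℝ) (w : List (Bool × Bool)) :
    (LMw A P s w)ᵀ = GMw A P s w.reverse := by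
  unfold LMw GMw
  rw [Matrix.transpose_list_prod, List.map_map, List.map_reverse]
  congr 2
  apply List.map_congr_left
  intro l _
  exact LM_transpose A P s l

section
variable {A : ℝ} {P : Bool → ℝ} {s : ℝ}

lemma LM_pos (hA : 2 ≤ A) (hP : ∀ t, P t ∈ Icc (0:ℝ) 1) (hs : 0 ≤ s) (l : Bool × Bool) :
    Pos (LM A P s l) := by
  have h1 := aa_ge A l.1
  have h2 : 0 < aa A l.1 := by linarith
  have h3 := (hP l.1).1
  unfold LM
  split_ifs
  · constructor <;> simp [Matrix.mul_apply, Fin.sum_univ_two, BM, DM] <;> positivity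
  · constructor <;> simp [BM] <;> positivity

lemma GM_pos (hA : 2 ≤ A) (hP : ∀ t, P t ∈ Icc (0:ℝ) 1) (hs : 0 ≤ s) (l : Bool × Bool) :
    Pos (GM A P s l) := by
  rw [← LM_transpose]; exact (LM_pos hA hP hs l).transpose

lemma mob_LM (hP : ∀ t, P t ∈ Icc (0:ℝ) 1) (hs : 0 ≤ s) (l : Bool × Bool)
    {x : ℝ} (hx : 0 ≤ x) : mob (LM A P s l) x = ff A P s l x := by
  have h3 := (hP l.1).1
  unfold LM ff
  split_ifs
  · rw [mob_mul, mob_BM, mob_DM]
    simp only [DM, Matrix.cons_val', Matrix.cons_val_zero, Matrix.cons_val_one, Matrix.of_apply,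
      Matrix.cons_val_fin_one]
    positivity
  · rw [mob_BM]

lemma mob_GM (hA : 2 ≤ A) (l : Bool × Bool)
    {x : ℝ} (hx : 0 ≤ x) : mob (GM A P s l) x = gg A P s l x := by
  have h1 := aa_ge A l.1
  have h2 : 0 < aa A l.1 := by linarith
  unfold GM gg
  split_ifs
  · rw [mob_mul, mob_BM, mob_DM]
    simp only [BM, Matrix.cons_val', Matrix.cons_val_zero, Matrix.cons_val_one, Matrix.of_apply,
      Matrix.cons_val_fin_one]
    positivity
  · rw [mob_BM]

lemma ff_mem (hA : 2 ≤ A) (hP : ∀ t, P t ∈ Icc (0:ℝ) 1) (hs : 0 ≤ s) (l : Bool × Bool)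
    {x : ℝ} (hx : x ∈ Icc (0:ℝ) 1) : ff A P s l x ∈ Icc (0:ℝ) 1 := by
  unfold ff
  split_ifs
  · exact F_mem hA _ (D_mem (hP _) hs hx)
  · exact F_mem hA _ hx

lemma gg_mem (hA : 2 ≤ A) (hP : ∀ t, P t ∈ Icc (0:ℝ) 1) (hs : 0 ≤ s) (l : Bool × Bool)
    {x : ℝ} (hx : x ∈ Icc (0:ℝ) 1) : gg A P s l x ∈ Icc (0:ℝ) 1 := by
  unfold gg
  split_ifs
  · exact D_mem (hP _) hs (F_mem hA _ hx)
  · exact F_mem hA _ hx

lemma fw_mem (hA : 2 ≤ A) (hP : ∀ t, P t ∈ Icc (0:ℝ) 1) (hs : 0 ≤ s) (w : List (Bool × Bool))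
    {x : ℝ} (hx : x ∈ Icc (0:ℝ) 1) : fw A P s w x ∈ Icc (0:ℝ) 1 := by
  induction w with
  | nil => exact hx
  | cons l w ih => exact ff_mem hA hP hs l ih

lemma gw_mem (hA : 2 ≤ A) (hP : ∀ t, P t ∈ Icc (0:ℝ) 1) (hs : 0 ≤ s) (w : List (Bool × Bool))
    {x : ℝ} (hx : x ∈ Icc (0:ℝ) 1) : gw A P s w x ∈ Icc (0:ℝ) 1 := by
  induction w with
  | nil => exact hx
  | cons l w ih => exact gg_mem hA hP hs l ih

lemma LMw_pos (hA : 2 ≤ A) (hP : ∀ t, P t ∈ Icc (0:ℝ) 1) (hs : 0 ≤ s) :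
    ∀ {w : List (Bool × Bool)}, w ≠ [] → Pos (LMw A P s w) := by
  intro w
  induction w with
  | nil => intro h; exact absurd rfl h
  | cons l w ih =>
    intro _
    unfold LMw at ih ⊢
    rw [List.map_cons, List.prod_cons]
    by_cases hw : w = []
    · subst hw; simpa using LM_pos hA hP hs l
    · exact (LM_pos hA hP hs l).mul (ih hw)

lemma GMw_pos (hA : 2 ≤ A) (hP : ∀ t, P t ∈ Icc (0:ℝ) 1) (hs : 0 ≤ s)
    {w : List (Bool × Bool)} (hw : w ≠ []) : Pos (GMw A P s w) := by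
  have h := (LMw_pos hA hP hs (w := w.reverse) (by simpa using hw)).transpose
  rwa [LMw_transpose, List.reverse_reverse] at h

lemma mob_LMw (hA : 2 ≤ A) (hP : ∀ t, P t ∈ Icc (0:ℝ) 1) (hs : 0 ≤ s)
    (w : List (Bool × Bool)) {x : ℝ} (hx : x ∈ Icc (0:ℝ) 1) :
    mob (LMw A P s w) x = fw A P s w x := by
  induction w with
  | nil => exact mob_one x
  | cons l w ih =>
    have e : LMw A P s (l :: w) = LM A P s l * LMw A P s w := by
      simp [LMw]
    have h1 := fw_mem hA hP hs w hx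
    rw [e, mob_mul, ih, mob_LM hP hs l h1.1]
    · rfl
    · by_cases hw : w = []
      · subst hw; simp [LMw]
      · exact ((LMw_pos hA hP hs hw).den hx.1).ne'

lemma mob_GMw (hA : 2 ≤ A) (hP : ∀ t, P t ∈ Icc (0:ℝ) 1) (hs : 0 ≤ s)
    (w : List (Bool × Bool)) {x : ℝ} (hx : x ∈ Icc (0:ℝ) 1) :
    mob (GMw A P s w) x = gw A P s w x := by
  induction w with
  | nil => exact mob_one x
  | cons l w ih =>
    have e : GMw A P s (l :: w) = GM A P s l * GMw A P s w := by
      simp [GMw]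
    have h1 := gw_mem hA hP hs w hx
    rw [e, mob_mul, ih, mob_GM hA l h1.1]
    · rfl
    · by_cases hw : w = []
      · subst hw; simp [GMw]
      · exact ((GMw_pos hA hP hs hw).den hx.1).ne'

end

end Pool.Agent.R294.IFS
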