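import Pool.Agent.R294.IFS2

/-! Super-exponential condensation of the perturbed system. -/

namespace Pool.Agent.R294.IFS

open Set Matrix

/-- Words in the base letters as words in all letters. -/
def emb (w : List Bool) : List (Bool × Bool) := w.map (fun t => (t, false))

section
variable {A : ℝ} {P : Bool → ℝ} {s : ℝ}

lemma fw_append (u v : List (Bool × Bool)) (x : ℝ) :
    fw A P s (u ++ v) x = fw A P s u (fw A P s v x) := by
  simp [fw, List.foldr_append]

@[simp] lemma fw_cons (l : Bool × Bool) (v : List (Bool × Bool)) (x : ℝ) :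
    fw A P s (l :: v) x = ff A P s l (fw A P s v x) := rfl

@[simp] lemma fw_nil (x : ℝ) : fw A P s [] x = x := rfl

lemma fw_emb (w : List Bool) (x : ℝ) : fw A P s (emb w) x = Fw A w x := by
  induction w with
  | nil => rfl
  | cons t w ih =>
    have : emb (t :: w) = (t, false) :: emb w := rfl
    rw [this, fw_cons, ih, Fw_cons]
    simp [ff]

lemma LMw_cons (l : Bool × Bool) (w : List (Bool × Bool)) :
    LMw A P s (l :: w) = LM A P s l * LMw A P s w := by simp [LMw]

lemma emb_GM_eq (w : List Bool) : GMw A P s (emb w) = LMw A P s (emb w) := by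
  unfold GMw LMw emb
  rw [List.map_map, List.map_map]
  congr 1

lemma emb_reverse (w : List Bool) : (emb w).reverse = emb w.reverse := by
  simp [emb, List.map_reverse]

lemma emb_symm {w : List Bool} (hw : w.reverse = w) :
    (LMw A P s (emb w))ᵀ = LMw A P s (emb w) := by
  rw [LMw_transpose, emb_reverse, hw, emb_GM_eq]

lemma emb_mono (hA : 2 ≤ A) : ∀ {w : List Bool}, w ≠ [] →
    LMw A P s (emb w) 0 0 ≤ LMw A P s (emb w) 0 1 ∧
    LMw A P s (emb w) 1 0 ≤ LMw A P s (emb w) 1 1 := by
  intro w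
  induction w with
  | nil => intro h; exact absurd rfl h
  | cons t w ih =>
    intro _
    have h1 := aa_ge A t
    by_cases hw : w = []
    · subst hw
      simp [LMw, emb, LM, BM]
      linarith
    · obtain ⟨h2, h3⟩ := ih hw
      have e : LMw A P s (emb (t :: w)) = BM A t * LMw A P s (emb w) := by
        have : emb (t :: w) = (t, false) :: emb w := rfl
        rw [this, LMw_cons]; simp [LM]
      rw [e]
      simp only [Matrix.mul_apply, Fin.sum_univ_two, BM, Matrix.of_apply, Matrix.cons_val',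
        Matrix.cons_val_zero, Matrix.cons_val_one, Matrix.cons_val_fin_one]
      constructor
      · linarith
      · have : aa A t * LMw A P s (emb w) 1 0 ≤ aa A t * LMw A P s (emb w) 1 1 :=
          mul_le_mul_of_nonneg_left h3 (by linarith)
        linarith

end

/-- Near-commutation for palindromic words. -/
lemma palin_comm {A P s x : ℝ} (hA : 2 ≤ A) (hs : 0 ≤ s) (hP : P ∈ Icc (0:ℝ) 1)
    (hx : x ∈ Icc (0:ℝ) 1) {w : List Bool} (hw : w ≠ []) (hpal : w.reverse = w) :
    |Fw A w (D P s x) - D P s (Fw A w x)| ≤ 4 * s * |Fw A w P - P| := by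
  have hP' : ∀ t : Bool, (fun _ => P : Bool → ℝ) t ∈ Icc (0:ℝ) 1 := fun _ => hP
  set M := LMw A (fun _ => P) s (emb w) with hM
  have hne : emb w ≠ [] := by simpa [emb] using hw
  have hpos : Pos M := LMw_pos hA hP' hs hne
  have hsym : Mᵀ = M := emb_symm hpal
  have h01 : M 1 0 = M 0 1 := by
    conv_lhs => rw [← hsym]
    rfl
  obtain ⟨hm1, hm2⟩ := emb_mono (A := A) (P := fun _ => P) (s := s) hA hw
  rw [← hM] at hm1 hm2
  have key : ∀ y ∈ Icc (0:ℝ) 1, Fw A w y = (M 0 0 * y + M 0 1) / (M 0 1 * y + M 1 1) := by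
    intro y hy
    rw [← fw_emb (P := fun _ => P) (s := s), ← mob_LMw hA hP' hs _ hy, ← hM, mob, h01]
  rw [key _ (D_mem hP hs hx), key _ hx, key _ hP]
  exact comm_bound hpos.h00 hm1 (h01 ▸ hm2) hpos.h01 hP hs hx

section
variable {A : ℝ} {P : Bool → ℝ} {s : ℝ}

lemma channel (hA : 2 ≤ A) (hs : 0 ≤ s) (hs1 : s ≤ 1) (hP : ∀ t, IsP A t (P t)) (t : Bool)
    (k n : ℕ) (hn : (W t k).length + 1 ≤ n) :
    ∃ i j : List (Bool × Bool), i.length = n ∧ j.length = n ∧ i ≠ j ∧
      ∀ x ∈ Icc (0:ℝ) 1, |fw A P s i x - fw A P s j x| ≤ (1/4) ^ (mm t k * (W t k).length) := by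
  obtain ⟨b, hb⟩ := W_last t k
  have hlen : (W t k).length = b.length + 1 := by rw [hb]; simp
  have hPm := (hP t).mem hA
  have hPm' : ∀ t, P t ∈ Icc (0:ℝ) 1 := fun t => (hP t).mem hA
  set r := n - ((W t k).length + 1) with hr
  refine ⟨((t, false) :: (emb b ++ [(t, true)])) ++ List.replicate r (t, false),
    ((t, true) :: (emb b ++ [(t, false)])) ++ List.replicate r (t, false), ?_, ?_, ?_, ?_⟩
  · simp [emb]; omega
  · simp [emb]; omega
  · simp
  · intro x hx
    rw [fw_append, fw_append]
    set z := fw A P s (List.replicate r (t, false)) x with hz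
    have hzm : z ∈ Icc (0:ℝ) 1 := fw_mem hA hPm' hs _ hx
    have e1 : fw A P s ((t, false) :: (emb b ++ [(t, true)])) z =
        F A t (Fw A (W t k) (D (P t) s z)) := by
      rw [fw_cons, fw_append, fw_emb, hb, Fw_append]
      simp [ff]
    have e2 : fw A P s ((t, true) :: (emb b ++ [(t, false)])) z =
        F A t (D (P t) s (Fw A (W t k) z)) := by
      rw [fw_cons, fw_append, fw_emb, hb, Fw_append]
      simp [ff]
    rw [e1, e2]
    have hDz := D_mem hPm hs hzm
    have h1 := F_contr hA t (Fw_mem hA (W t k) hDz).1 (D_mem hPm hs (Fw_mem hA (W t k) hzm)).1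
    have hne : W t k ≠ [] := by
      have := W_length_pos t k
      exact List.length_pos_iff.1 this
    have h2 := palin_comm hA hs hPm hzm hne (W_palin t k)
    obtain ⟨y, hy, h3⟩ := (hP t).rep hA k
    have h4 : |Fw A (W t k) (P t) - P t| ≤ (1/4) ^ (mm t k * (W t k).length) := by
      have e3 : Fw A (W t k) (P t) = Fw A (rep (W t k) (mm t k)) (Fw A (W t k) y) := by
        conv_lhs => rw [h3]
        rw [← Fw_append, ← Fw_append, ← rep_succ, ← rep_succ']
      rw [e3]
      conv_lhs => rw [h3]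
      refine (Fw_contr hA _ (Fw_mem hA _ hy) hy).trans ?_
      rw [rep_length]
      have h5 : |Fw A (W t k) y - y| ≤ 1 := by
        have h6 := Fw_mem hA (W t k) hy
        rw [abs_le]; constructor <;> linarith [h6.1, h6.2, hy.1, hy.2]
      calc _ ≤ (1/4:ℝ) ^ (mm t k * (W t k).length) * 1 := by gcongr
        _ = _ := mul_one _
    have h0 : 0 ≤ |Fw A (W t k) (P t) - P t| := abs_nonneg _
    have h7 : s * |Fw A (W t k) (P t) - P t| ≤ 1 * |Fw A (W t k) (P t) - P t| :=
      mul_le_mul_of_nonneg_right hs1 h0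
    linarith

/-- The scales of the two channels cover all lengths. -/
lemma cover (k0 n : ℕ) (hn : (W false k0).length + 1 ≤ n) :
    ∃ (t : Bool) (k : ℕ), k0 ≤ k ∧ (W t k).length + 1 ≤ n ∧ (k+1) * n ≤ mm t k * (W t k).length := by
  classical
  have hex : ∃ k, n < (W false (k)).length + 1 := ⟨n, by have := W_length_ge false n; omega⟩
  set k' := Nat.find hex with hk'
  have h1 : n < (W false k').length + 1 := Nat.find_spec hex
  have hmono : ∀ a b, a ≤ b → (W false a).length ≤ (W false b).length := by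
    intro a b hab
    induction b, hab using Nat.le_induction with
    | base => exact le_rfl
    | succ b _ ih =>
      rw [W_length_succ]
      have h2 : (W false b).length ≤ mm false b * (W false b).length :=
        Nat.le_mul_of_pos_left _ (mm_pos false b)
      omega
  have h2 : k0 < k' := by
    by_contra h
    have := hmono k' k0 (not_lt.1 h)
    omega
  obtain ⟨k, hk⟩ : ∃ k, k' = k + 1 := ⟨k' - 1, by omega⟩
  have h3 : ¬ n < (W false k).length + 1 := Nat.find_min hex (by omega)
  rw [hk] at h1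
  by_cases h4 : n ≤ (W true k).length + 1
  · refine ⟨false, k, by omega, by omega, ?_⟩
    have h5 : mm false k = (k+1)*((W true k).length+1) := by simp [mm]
    have h6 : (k+1) * n ≤ mm false k := by rw [h5]; exact Nat.mul_le_mul_left _ h4
    exact h6.trans (Nat.le_mul_of_pos_right _ (W_length_pos false k))
  · refine ⟨true, k, by omega, by omega, ?_⟩
    have h5 : mm true k = (k+1)*((W false (k+1)).length+1) := by simp [mm]
    have h6 : (k+1) * n ≤ mm true k := by rw [h5]; exact Nat.mul_le_mul_left _ (by omega)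
    exact h6.trans (Nat.le_mul_of_pos_right _ (W_length_pos true k))

/-- Super-exponential condensation. -/
lemma condensation (hA : 2 ≤ A) (hs : 0 ≤ s) (hs1 : s ≤ 1) (hP : ∀ t, IsP A t (P t))
    {c : ℝ} (hc : 0 < c) :
    ∃ n0 : ℕ, ∀ n ≥ n0, ∃ i j : List (Bool × Bool), i.length = n ∧ j.length = n ∧ i ≠ j ∧
      ∃ B < c ^ n, ∀ x ∈ Icc (0:ℝ) 1, |fw A P s i x - fw A P s j x| ≤ B := by
  obtain ⟨k0, hk0⟩ := exists_pow_lt_of_lt_one hc (by norm_num : (1/4:ℝ) < 1)
  refine ⟨(W false k0).length + 1, fun n hn => ?_⟩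
  obtain ⟨t, k, hk, h1, h2⟩ := cover k0 n hn
  obtain ⟨i, j, hi, hj, hij, hB⟩ := channel hA hs hs1 hP t k n h1
  refine ⟨i, j, hi, hj, hij, (1/4) ^ (mm t k * (W t k).length), ?_, hB⟩
  have h3 : (1/4:ℝ) ^ (mm t k * (W t k).length) ≤ (1/4) ^ (k0 * n) := by
    apply pow_le_pow_of_le_one (by norm_num) (by norm_num)
    refine le_trans ?_ h2
    exact Nat.mul_le_mul_right _ (by omega)
  refine h3.trans_lt ?_
  rw [pow_mul]
  exact pow_lt_pow_left₀ hk0 (by positivity) (by omega)

end

end Pool.Agent.R294.IFS
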