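import Pool.Agent.R294.IFS3

/-! Generic parameters: no two words of the same length have the same repelling fixed point. -/

namespace Pool.Agent.R294.IFS

open Set Matrix Filter Topology

/-- The fixed point equation of a matrix. -/
def quad (M : Matrix (Fin 2) (Fin 2) ℝ) (x : ℝ) : ℝ := M 1 0 * x^2 + (M 1 1 - M 0 0) * x - M 0 1

/-- The attracting fixed point. -/
noncomputable def root (M : Matrix (Fin 2) (Fin 2) ℝ) : ℝ :=
  (-(M 1 1 - M 0 0) + Real.sqrt ((M 1 1 - M 0 0)^2 + 4 * (M 0 1 * M 1 0))) / (2 * M 1 0)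

lemma disc_pos {M : Matrix (Fin 2) (Fin 2) ℝ} (hM : Pos M) :
    0 < (M 1 1 - M 0 0)^2 + 4 * (M 0 1 * M 1 0) := by
  have := hM.h01; have := hM.h10; positivity

lemma root_pos {M : Matrix (Fin 2) (Fin 2) ℝ} (hM : Pos M) : 0 < root M := by
  have h1 := hM.h01
  have h2 := hM.h10
  unfold root
  apply div_pos _ (by positivity)
  have h3 : |M 1 1 - M 0 0| < Real.sqrt ((M 1 1 - M 0 0)^2 + 4 * (M 0 1 * M 1 0)) := by
    rw [← Real.sqrt_sq_eq_abs]
    apply Real.sqrt_lt_sqrt (sq_nonneg _)
    have : 0 < 4 * (M 0 1 * M 1 0) := by positivity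
    linarith
  have := le_abs_self (M 1 1 - M 0 0)
  linarith

lemma quad_root {M : Matrix (Fin 2) (Fin 2) ℝ} (hM : Pos M) : quad M (root M) = 0 := by
  have h2 := hM.h10
  have h3 := Real.sq_sqrt (disc_pos hM).le
  unfold quad root
  set S := Real.sqrt ((M 1 1 - M 0 0)^2 + 4 * (M 0 1 * M 1 0)) with hS
  generalize M 1 0 = c at *
  generalize M 0 1 = b at *
  generalize M 0 0 = a at *
  generalize M 1 1 = d at *
  field_simp
  linear_combination h3

lemma root_unique {M : Matrix (Fin 2) (Fin 2) ℝ} (hM : Pos M) {r : ℝ} (hr : 0 < r)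
    (h : quad M r = 0) : r = root M := by
  have h1 := quad_root hM
  have h2 := root_pos hM
  set R := root M
  have h3 : (M 1 0 * r * R + M 0 1) * (r - R) = 0 := by
    unfold quad at h h1
    linear_combination R * h - r * h1
  rcases mul_eq_zero.1 h3 with h4 | h4
  · have := hM.h01; have := hM.h10
    have : 0 < M 1 0 * r * R + M 0 1 := by positivity
    linarith
  · linarith

lemma mob_root {M : Matrix (Fin 2) (Fin 2) ℝ} (hM : Pos M) : mob M (root M) = root M := by
  have h1 := quad_root hM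
  have h2 := hM.den (root_pos hM).le
  unfold mob
  rw [div_eq_iff h2.ne']
  unfold quad at h1
  linear_combination (-1) * h1

lemma root_le_one {M : Matrix (Fin 2) (Fin 2) ℝ} (hM : Pos M) (h : mob M 1 ≤ 1) :
    root M ≤ 1 := by
  have h1 := quad_root hM
  have h2 := hM.den zero_le_one
  have h3 := hM.h01
  have h4 := hM.h10
  unfold mob at h
  rw [div_le_one h2] at h
  by_contra hR
  push Not at hR
  unfold quad at h1
  set R := root M
  have h5 : M 1 0 * R < M 1 0 * R^2 := by
    apply mul_lt_mul_of_pos_left _ h4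
    nlinarith
  have h6 : R * M 0 1 ≤ R * (M 1 0 + (M 1 1 - M 0 0)) :=
    mul_le_mul_of_nonneg_left (by linarith) (by linarith)
  have h7 : M 0 1 < R * M 0 1 := by nlinarith
  nlinarith

section
variable {A : ℝ} {P : Bool → ℝ} {s : ℝ}

lemma gw_append (u v : List (Bool × Bool)) (x : ℝ) :
    gw A P s (u ++ v) x = gw A P s u (gw A P s v x) := by
  simp [gw, List.foldr_append]

@[simp] lemma gw_cons (l : Bool × Bool) (v : List (Bool × Bool)) (x : ℝ) :
    gw A P s (l :: v) x = gg A P s l (gw A P s v x) := rfl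

@[simp] lemma gw_nil (x : ℝ) : gw A P s [] x = x := rfl

lemma gw_emb (w : List Bool) (x : ℝ) : gw A P s (emb w) x = Fw A w x := by
  induction w with
  | nil => rfl
  | cons t w ih =>
    have : emb (t :: w) = (t, false) :: emb w := rfl
    rw [this, gw_cons, ih, Fw_cons]
    simp [gg]

lemma gw_zero (w : List (Bool × Bool)) (x : ℝ) :
    gw A P 0 w x = Fw A (w.map Prod.fst) x := by
  induction w with
  | nil => rfl
  | cons l w ih =>
    rw [gw_cons, ih, List.map_cons, Fw_cons]
    unfold gg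
    split_ifs
    · rw [D_zero]
    · rfl

lemma gg_inj (hA : 2 ≤ A) (hP : ∀ t, P t ∈ Icc (0:ℝ) 1) (hs : 0 ≤ s) (l : Bool × Bool)
    {x y : ℝ} (hx : x ∈ Icc (0:ℝ) 1) (hy : y ∈ Icc (0:ℝ) 1)
    (h : gg A P s l x = gg A P s l y) : x = y := by
  unfold gg at h
  split_ifs at h
  · exact (F_inj hA hx hy (D_inj (hP _) hs (F_mem hA _ hx) (F_mem hA _ hy) h)).2
  · exact (F_inj hA hx hy h).2

lemma gw_inj (hA : 2 ≤ A) (hP : ∀ t, P t ∈ Icc (0:ℝ) 1) (hs : 0 ≤ s) (w : List (Bool × Bool))
    {x y : ℝ} (hx : x ∈ Icc (0:ℝ) 1) (hy : y ∈ Icc (0:ℝ) 1)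
    (h : gw A P s w x = gw A P s w y) : x = y := by
  induction w with
  | nil => exact h
  | cons l w ih =>
    exact ih (gg_inj hA hP hs l (gw_mem hA hP hs w hx) (gw_mem hA hP hs w hy) h)

/-- The attracting fixed point of a word of the reversed system, as a function of `s`. -/
noncomputable def R (A : ℝ) (P : Bool → ℝ) (w : List (Bool × Bool)) (s : ℝ) : ℝ :=
  root (GMw A P s w)

lemma R_mem (hA : 2 ≤ A) (hP : ∀ t, P t ∈ Icc (0:ℝ) 1) (hs : 0 ≤ s)
    {w : List (Bool × Bool)} (hw : w ≠ []) : R A P w s ∈ Icc (0:ℝ) 1 := by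
  have h1 := GMw_pos (A := A) (P := P) (s := s) hA hP hs hw
  refine ⟨(root_pos h1).le, root_le_one h1 ?_⟩
  rw [mob_GMw hA hP hs w (right_mem_Icc.2 zero_le_one)]
  exact (gw_mem hA hP hs w (right_mem_Icc.2 zero_le_one)).2

lemma gw_R (hA : 2 ≤ A) (hP : ∀ t, P t ∈ Icc (0:ℝ) 1) (hs : 0 ≤ s)
    {w : List (Bool × Bool)} (hw : w ≠ []) : gw A P s w (R A P w s) = R A P w s := by
  rw [← mob_GMw hA hP hs w (R_mem hA hP hs hw)]
  exact mob_root (GMw_pos (A := A) (P := P) (s := s) hA hP hs hw)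

end

lemma first_diff {α : Type*} : ∀ {i j : List α}, i.length = j.length → i ≠ j →
    ∃ w a b i' j', i = w ++ a :: i' ∧ j = w ++ b :: j' ∧ a ≠ b := by
  intro i
  induction i with
  | nil =>
    intro j h1 h2
    exact absurd (List.length_eq_zero_iff.1 h1.symm).symm h2
  | cons a i ih =>
    intro j h1 h2
    cases j with
    | nil => simp at h1
    | cons b j =>
      by_cases hab : a = b
      · subst hab
        obtain ⟨w, a', b', i', j', e1, e2, e3⟩ := ih (by simpa using h1) (fun h => h2 (by rw [h]))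
        exact ⟨a :: w, a', b', i', j', by rw [e1]; rfl, by rw [e2]; rfl, e3⟩
      · exact ⟨[], a, b, i, j, rfl, rfl, hab⟩

lemma split_word : ∀ v : List (Bool × Bool), ∃ u : List Bool,
    v = emb u ∨ ∃ t v', v = emb u ++ (t, true) :: v' := by
  intro v
  induction v with
  | nil => exact ⟨[], Or.inl rfl⟩
  | cons l v ih =>
    obtain ⟨t, d⟩ := l
    cases d with
    | true => exact ⟨[], Or.inr ⟨t, v, rfl⟩⟩
    | false =>
      obtain ⟨u, h⟩ := ih
      refine ⟨t :: u, ?_⟩
      rcases h with h | ⟨t', v', h⟩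
      · left; rw [h]; rfl
      · right; exact ⟨t', v', by rw [h]; rfl⟩

lemma eq_of_forall_le_div {x y : ℝ} (h : ∀ s : ℝ, 0 ≤ s → |x - y| ≤ 2 / (1 + s)) : x = y := by
  by_contra hne
  have h1 : 0 < |x - y| := abs_pos.2 (sub_ne_zero.2 hne)
  have h2 := h (4 / |x - y|) (by positivity)
  rw [le_div_iff₀ (by positivity), mul_add, mul_div_cancel₀ _ h1.ne'] at h2
  linarith

section
variable {A : ℝ} {P : Bool → ℝ}

lemma not_ident_aux (hA : 2 ≤ A) (hP : ∀ t, IsP A t (P t)) {w i' j' : List (Bool × Bool)}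
    {t : Bool}
    (h : ∀ s : ℝ, 0 ≤ s → R A P (w ++ (t, true) :: i') s = R A P (w ++ (t, false) :: j') s) :
    False := by
  have hP' : ∀ t, P t ∈ Icc (0:ℝ) 1 := fun t => (hP t).mem hA
  -- the splitting of the second word
  obtain ⟨u, hu⟩ := split_word (j' ++ w)
  set Y : ℝ → ℝ := fun s => gw A P s ((t, false) :: j') (R A P (w ++ (t, false) :: j') s) with hY
  have hYmem : ∀ s, 0 ≤ s → Y s ∈ Icc (0:ℝ) 1 := fun s hs =>
    gw_mem hA hP' hs _ (R_mem hA hP' hs (by simp))
  have hY1 : ∀ s, 0 ≤ s → gw A P s w (Y s) = R A P (w ++ (t, false) :: j') s := by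
    intro s hs
    rw [hY, ← gw_append]
    exact gw_R hA hP' hs (by simp)
  have hY2 : ∀ s, 0 ≤ s → |Y s - P t| ≤ 1 / (1 + s) := by
    intro s hs
    have hR : gw A P s w (gw A P s ((t, true) :: i') (R A P (w ++ (t, true) :: i') s)) =
        R A P (w ++ (t, true) :: i') s := by
      rw [← gw_append]; exact gw_R hA hP' hs (by simp)
    have hm : R A P (w ++ (t, true) :: i') s ∈ Icc (0:ℝ) 1 := R_mem hA hP' hs (by simp)
    have e : gw A P s ((t, true) :: i') (R A P (w ++ (t, true) :: i') s) = Y s := by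
      apply gw_inj hA hP' hs w (gw_mem hA hP' hs _ hm) (hYmem s hs)
      rw [hR, hY1 s hs, h s hs]
    rw [← e, gw_cons]
    have : gg A P s (t, true) (gw A P s i' (R A P (w ++ (t, true) :: i') s)) =
      D (P t) s (F A t (gw A P s i' (R A P (w ++ (t, true) :: i') s))) := by simp [gg]
    rw [this]
    exact D_sub (hP' t) hs (F_mem hA _ (gw_mem hA hP' hs _ hm))
  have hY3 : ∀ s, 0 ≤ s → Y s = F A t (gw A P s (j' ++ w) (Y s)) := by
    intro s hs
    rw [gw_append, hY1 s hs]
    simp [hY, gg]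
  have hcontr : ∀ {x y : ℝ}, x ∈ Icc (0:ℝ) 1 → y ∈ Icc (0:ℝ) 1 →
      |Fw A (t :: u) x - Fw A (t :: u) y| ≤ |x - y| := by
    intro x y hx hy
    refine (Fw_contr hA _ hx hy).trans ?_
    have : ((1:ℝ)/4) ^ (t :: u).length ≤ 1 := pow_le_one₀ (by norm_num) (by norm_num)
    calc _ ≤ 1 * |x - y| := mul_le_mul_of_nonneg_right this (abs_nonneg _)
      _ = _ := one_mul _
  rcases hu with hu | ⟨t', v', hu⟩
  · have h4 : P t = Fw A (t :: u) (P t) := by
      apply eq_of_forall_le_div
      intro s hs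
      have h5 : Y s = Fw A (t :: u) (Y s) := by
        conv_lhs => rw [hY3 s hs, hu, gw_emb]
        rfl
      have h6 := hcontr (hYmem s hs) (hP' t)
      have h7 := hY2 s hs
      rw [← h5] at h6
      have h8 : |P t - Fw A (t :: u) (P t)| ≤
          |P t - Y s| + |Y s - Fw A (t :: u) (P t)| := abs_sub_le _ _ _
      rw [abs_sub_comm (P t) (Y s)] at h8
      have : 2 / (1 + s) = 1 / (1 + s) + 1 / (1 + s) := by ring
      linarith
    exact (hP t).ne_self hA (by simp) h4
  · have h4 : P t = Fw A (t :: u) (P t') := by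
      apply eq_of_forall_le_div
      intro s hs
      set z := F A t' (gw A P s v' (Y s)) with hz
      have hzm : z ∈ Icc (0:ℝ) 1 := F_mem hA _ (gw_mem hA hP' hs _ (hYmem s hs))
      have h5 : Y s = Fw A (t :: u) (D (P t') s z) := by
        conv_lhs => rw [hY3 s hs, hu, gw_append, gw_emb]
        rw [gw_cons, Fw_cons]
        congr 2
      have h6 := hcontr (D_mem (hP' t') hs hzm) (hP' t')
      rw [← h5] at h6
      have h7 := hY2 s hs
      have h9 := D_sub (hP' t') hs hzm
      have h8 : |P t - Fw A (t :: u) (P t')| ≤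
          |P t - Y s| + |Y s - Fw A (t :: u) (P t')| := abs_sub_le _ _ _
      rw [abs_sub_comm (P t) (Y s)] at h8
      have : 2 / (1 + s) = 1 / (1 + s) + 1 / (1 + s) := by ring
      linarith
    by_cases htt : t' = t
    · subst htt; exact (hP t').ne_self hA (by simp) h4
    · have : t' = !t := by cases t <;> cases t' <;> simp_all
      subst this
      exact (hP t).ne_cross hA (hP _) _ h4

lemma not_ident (hA : 2 ≤ A) (hP : ∀ t, IsP A t (P t)) {i j : List (Bool × Bool)}
    (hl : i.length = j.length) (hij : i ≠ j)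
    (h : ∀ s : ℝ, 0 ≤ s → R A P i s = R A P j s) : False := by
  have hP' : ∀ t, P t ∈ Icc (0:ℝ) 1 := fun t => (hP t).mem hA
  have hi : i ≠ [] := by
    rintro rfl
    exact hij (List.length_eq_zero_iff.1 hl.symm).symm
  have hj : j ≠ [] := by
    rintro rfl
    exact hij (List.length_eq_zero_iff.1 hl)
  have h0 := h 0 le_rfl
  have h1 := gw_R (A := A) (P := P) (s := 0) hA hP' le_rfl hi
  have h2 := gw_R (A := A) (P := P) (s := 0) hA hP' le_rfl hj
  have h3 := R_mem (A := A) (P := P) (s := 0) hA hP' le_rfl hi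
  rw [← h0] at h2
  rw [gw_zero] at h1 h2
  obtain ⟨h4, -⟩ := Fw_inj hA (by simp [hl]) h3 h3 (h1.trans h2.symm)
  obtain ⟨w, a, b, i', j', e1, e2, hab⟩ := first_diff hl hij
  have h5 : a.1 = b.1 := by
    rw [e1, e2] at h4
    simp only [List.map_append, List.map_cons] at h4
    have h6 := List.append_cancel_left h4
    exact (List.cons_eq_cons.1 h6).1
  obtain ⟨t, d⟩ := a
  obtain ⟨t', d'⟩ := b
  simp only at h5
  subst h5
  have hd : d ≠ d' := fun h => hab (by rw [h])
  cases d <;> cases d'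
  · exact hd rfl
  · exact not_ident_aux hA hP (w := w) (i' := j') (j' := i') (t := t)
      (fun s hs => by rw [← e1, ← e2]; exact (h s hs).symm)
  · exact not_ident_aux hA hP (w := w) (i' := i') (j' := j') (t := t)
      (fun s hs => by rw [← e1, ← e2]; exact h s hs)
  · exact hd rfl

/-! ### Analyticity in the parameter -/

lemma GM_analytic (l : Bool × Bool) (a b : Fin 2) (s₀ : ℝ) :
    AnalyticAt ℝ (fun s => GM A P s l a b) s₀ := by
  unfold GM
  split_ifs
  · simp only [Matrix.mul_apply, Fin.sum_univ_two, DM, BM]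
    fin_cases a <;> fin_cases b <;>
      simp only [Fin.zero_eta, Fin.mk_one, Matrix.of_apply, Matrix.cons_val', Matrix.cons_val_zero,
        Matrix.cons_val_one, Matrix.cons_val_fin_one] <;> fun_prop
  · exact analyticAt_const

lemma GMw_analytic (w : List (Bool × Bool)) : ∀ (a b : Fin 2) (s₀ : ℝ),
    AnalyticAt ℝ (fun s => GMw A P s w a b) s₀ := by
  induction w with
  | nil => intro a b s₀; exact analyticAt_const
  | cons l w ih =>
    intro a b s₀
    have e : (fun s => GMw A P s (l :: w) a b) =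
        fun s => GM A P s l a 0 * GMw A P s w 0 b + GM A P s l a 1 * GMw A P s w 1 b := by
      funext s
      simp [GMw, Matrix.mul_apply, Fin.sum_univ_two]
    rw [e]
    exact ((GM_analytic l a 0 s₀).mul (ih 0 b s₀)).add ((GM_analytic l a 1 s₀).mul (ih 1 b s₀))

lemma R_analytic (hA : 2 ≤ A) (hP : ∀ t, P t ∈ Icc (0:ℝ) 1) {w : List (Bool × Bool)}
    (hw : w ≠ []) : AnalyticOnNhd ℝ (R A P w) (Ici 0) := by
  intro s hs
  have hpos := GMw_pos (A := A) (P := P) (s := s) hA hP hs hw
  have a00 := GMw_analytic (A := A) (P := P) w 0 0 s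
  have a01 := GMw_analytic (A := A) (P := P) w 0 1 s
  have a10 := GMw_analytic (A := A) (P := P) w 1 0 s
  have a11 := GMw_analytic (A := A) (P := P) w 1 1 s
  have hd := disc_pos hpos
  have hsq : AnalyticAt ℝ Real.sqrt
      ((GMw A P s w 1 1 - GMw A P s w 0 0)^2 + 4 * (GMw A P s w 0 1 * GMw A P s w 1 0)) := by
    have h0 : ContDiffAt ℝ ⊤ Real.sqrt
      ((GMw A P s w 1 1 - GMw A P s w 0 0)^2 + 4 * (GMw A P s w 0 1 * GMw A P s w 1 0)) :=
      Real.contDiffAt_sqrt hd.ne'
    rw [← contDiffWithinAt_univ, contDiffWithinAt_omega_iff_analyticWithinAt,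
      analyticWithinAt_univ] at h0
    exact h0
  have h1 : AnalyticAt ℝ (fun s => (GMw A P s w 1 1 - GMw A P s w 0 0)^2 +
      4 * (GMw A P s w 0 1 * GMw A P s w 1 0)) s :=
    ((a11.sub a00).pow 2).add (analyticAt_const.mul (a01.mul a10))
  have h2 : AnalyticAt ℝ (fun s => Real.sqrt ((GMw A P s w 1 1 - GMw A P s w 0 0)^2 +
      4 * (GMw A P s w 0 1 * GMw A P s w 1 0))) s :=
    AnalyticAt.fun_comp hsq h1
  have h3 : AnalyticAt ℝ (fun s => 2 * GMw A P s w 1 0) s := analyticAt_const.mul a10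
  unfold R root
  exact ((a11.sub a00).neg.add h2).div h3 (by have := hpos.h10; positivity)

/-- Generic parameters exist. -/
lemma exists_generic (hA : 2 ≤ A) (hP : ∀ t, IsP A t (P t)) {s₁ : ℝ} (hs₁ : 0 < s₁) :
    ∃ s, 0 < s ∧ s ≤ s₁ ∧ ∀ i j : List (Bool × Bool), i.length = j.length → i ≠ j →
      R A P i s ≠ R A P j s := by
  have hP' : ∀ t, P t ∈ Icc (0:ℝ) 1 := fun t => (hP t).mem hA
  by_contra hcon
  push Not at hcon
  set Z : List (Bool × Bool) × List (Bool × Bool) → Set ℝ := fun p =>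
    {s | s ∈ Icc (s₁/2) s₁ ∧ R A P p.1 s = R A P p.2 s} with hZ
  have hcover : Icc (s₁/2) s₁ ⊆ ⋃ p ∈ {p : List (Bool × Bool) × List (Bool × Bool) |
      p.1.length = p.2.length ∧ p.1 ≠ p.2}, Z p := by
    intro s hs
    obtain ⟨i, j, h1, h2, h3⟩ := hcon s (by linarith [hs.1]) hs.2
    simp only [mem_iUnion]
    exact ⟨(i, j), ⟨h1, h2⟩, hs, h3⟩
  have hfin : ∀ p ∈ {p : List (Bool × Bool) × List (Bool × Bool) |
      p.1.length = p.2.length ∧ p.1 ≠ p.2}, (Z p).Countable := by
    rintro ⟨i, j⟩ ⟨h1, h2⟩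
    simp only at h1 h2
    have hi : i ≠ [] := by
      rintro rfl
      exact h2 (List.length_eq_zero_iff.1 h1.symm).symm
    have hj : j ≠ [] := by
      rintro rfl
      exact h2 (List.length_eq_zero_iff.1 h1)
    apply Set.Finite.countable
    by_contra hinf
    have hinf' : (Z (i, j)).Infinite := hinf
    obtain ⟨x, hx, hacc⟩ := hinf'.exists_accPt_of_subset_isCompact isCompact_Icc
      (fun s hs => hs.1 : Z (i, j) ⊆ Icc (s₁/2) s₁)
    rw [accPt_iff_frequently_nhdsNE] at hacc
    have h5 : EqOn (R A P i) (R A P j) (Ici 0) :=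
      (R_analytic hA hP' hi).eqOn_of_preconnected_of_frequently_eq (R_analytic hA hP' hj)
        isPreconnected_Ici (show x ∈ Ici (0:ℝ) from by
          have := hx.1; simp only [mem_Ici]; linarith) (hacc.mono fun y hy => hy.2)
    exact not_ident hA hP h1 h2 (fun s hs => h5 hs)
  have hcount : (Icc (s₁/2) s₁).Countable :=
    (Set.Countable.biUnion (Set.to_countable _) hfin).mono hcover
  have := Cardinal.Real.Icc_countable_iff.1 hcount
  linarith

/-- Repelling fixed points of words of the same length differ. -/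
lemma no_common_quad (hA : 2 ≤ A) (hP : ∀ t, P t ∈ Icc (0:ℝ) 1) {s : ℝ} (hs : 0 ≤ s)
    (hgen : ∀ i j : List (Bool × Bool), i.length = j.length → i ≠ j → R A P i s ≠ R A P j s)
    {i j : List (Bool × Bool)} (hl : i.length = j.length) (hij : i ≠ j) {q : ℝ} (hq : q < 0)
    (h1 : quad (LMw A P s i) q = 0) (h2 : quad (LMw A P s j) q = 0) : False := by
  have hi : i ≠ [] := by
    rintro rfl
    exact hij (List.length_eq_zero_iff.1 hl.symm).symm
  have hj : j ≠ [] := by
    rintro rfl
    exact hij (List.length_eq_zero_iff.1 hl)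
  have key : ∀ {w : List (Bool × Bool)}, w ≠ [] → quad (LMw A P s w) q = 0 →
      -1 / q = R A P w.reverse s := by
    intro w hw h
    have hpos := (LMw_pos (A := A) (P := P) (s := s) hA hP hs hw).transpose
    have h5 : -1 / q = root ((LMw A P s w)ᵀ) := by
      apply root_unique hpos (div_pos_of_neg_of_neg (by norm_num) hq)
      unfold quad at h ⊢
      simp only [Matrix.transpose_apply]
      have hq' : q ≠ 0 := hq.ne
      have e : LMw A P s w 0 1 * (-1 / q)^2 + (LMw A P s w 1 1 - LMw A P s w 0 0) * (-1 / q) -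
          LMw A P s w 1 0 = - (LMw A P s w 1 0 * q^2 + (LMw A P s w 1 1 - LMw A P s w 0 0) * q -
            LMw A P s w 0 1) / q^2 := by
        field_simp
        ring
      rw [e, h]; simp
    rw [h5, LMw_transpose]; rfl
  refine hgen i.reverse j.reverse (by simp [hl]) (fun h => hij (List.reverse_injective h)) ?_
  rw [← key hi h1, ← key hj h2]

end

end Pool.Agent.R294.IFS
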