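import Pool.Agent.R294.IFS4

/-! Linearizers of Möbius contractions and the absence of a common linearizer. -/

namespace Pool.Agent.R294.IFS

open Set Matrix Filter Topology

/-- A linearizer of a Möbius contraction is a power of the Möbius linearizer. -/
lemma linearizer {f g : ℝ → ℝ} {p q μ l t : ℝ} (hp : p ∈ Ioo (0:ℝ) 1) (hq : q < 0)
    (hfp : f p = p)
    (hcontr : ∀ x ∈ Icc (0:ℝ) 1, |f x - p| ≤ (1/4) * |x - p|)
    (hφ : ∀ x ∈ Icc (0:ℝ) 1, (f x - p) / (f x - q) = μ * ((x - p) / (x - q)))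
    (hμ : μ ≠ 0)
    (hg : AnalyticOnNhd ℝ g (Ioo 0 1)) (hinj : InjOn g (Icc 0 1))
    (hfun : ∀ x ∈ Icc (0:ℝ) 1, g (f x) = l * g x + t) :
    ∃ c : ℝ, c ≠ 0 ∧ ∃ n : ℕ, n ≠ 0 ∧ ∀ x ∈ Ioo (0:ℝ) 1,
      g x = g p + c * ((x - p) / (x - q)) ^ n := by
  have hpI : p ∈ Icc (0:ℝ) 1 := Ioo_subset_Icc_self hp
  set G : ℝ → ℝ := fun x => g x - g p with hG
  have hGan : AnalyticAt ℝ G p := (hg p hp).sub analyticAt_const
  have hGne : ¬ ∀ᶠ z in 𝓝 p, G z = 0 := by
    intro h
    have h1 : ∀ᶠ z in 𝓝 p, z ∈ Ioo (0:ℝ) 1 := Ioo_mem_nhds hp.1 hp.2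
    obtain ⟨e, he, hb⟩ := Metric.eventually_nhds_iff.1 (h.and h1)
    have h2 := hb (y := p + e/2) (by
      rw [Real.dist_eq, add_sub_cancel_left, abs_of_pos (by linarith)]; linarith)
    have h3 := hinj (Ioo_subset_Icc_self h2.2) hpI (sub_eq_zero.1 h2.1)
    linarith
  obtain ⟨n, H, hH, hHp, hev⟩ := (hGan.exists_eventuallyEq_pow_smul_nonzero_iff).2 hGne
  have hn : n ≠ 0 := by
    rintro rfl
    have := hev.self_of_nhds
    simp [hG] at this
    exact hHp this.symm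
  set K : ℝ → ℝ := fun x => (x - q) ^ n * H x with hK
  have hKc : ContinuousAt K p := by
    apply ContinuousAt.mul (by fun_prop) hH.continuousAt
  have hpq : p - q ≠ 0 := by have := hp.1; linarith
  have hKp : K p ≠ 0 := mul_ne_zero (pow_ne_zero _ hpq) hHp
  -- the neighbourhood
  obtain ⟨e, he, hb⟩ := Metric.eventually_nhds_iff.1
    (hev.and (Ioo_mem_nhds hp.1 hp.2 : ∀ᶠ z in 𝓝 p, z ∈ Ioo (0:ℝ) 1))
  have hform : ∀ x, |x - p| < e → G x = ((x - p) / (x - q)) ^ n * K x ∧ x ∈ Ioo (0:ℝ) 1 := by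
    intro x hx
    obtain ⟨h1, h2⟩ := hb (y := x) (by rwa [Real.dist_eq])
    refine ⟨?_, h2⟩
    have hxq : x - q ≠ 0 := by have := h2.1; linarith
    rw [h1, hK]
    simp only [smul_eq_mul]
    rw [div_pow]
    field_simp
  have hstay : ∀ x, |x - p| < e → |f x - p| ≤ (1/4) * |x - p| ∧ |f x - p| < e := by
    intro x hx
    have h1 := hcontr x (Ioo_subset_Icc_self (hform x hx).2)
    exact ⟨h1, by have := abs_nonneg (x - p); linarith⟩
  have hGf : ∀ x ∈ Icc (0:ℝ) 1, G (f x) = l * G x := by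
    intro x hx
    have h1 := hfun x hx
    have h2 := hfun p hpI
    rw [hfp] at h2
    simp only [hG]
    rw [h1]
    linear_combination (-1) * h2
  have hKf : ∀ x, |x - p| < e → x ≠ p → μ ^ n * K (f x) = l * K x := by
    intro x hx hxp
    have h1 := hform x hx
    have h2 := hform (f x) (hstay x hx).2
    have h3 := hGf x (Ioo_subset_Icc_self h1.2)
    rw [h2.1, hφ x (Ioo_subset_Icc_self h1.2), h1.1, mul_pow] at h3
    have hxq : x - q ≠ 0 := by have := h1.2.1; linarith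
    have hne : ((x - p) / (x - q)) ^ n ≠ 0 :=
      pow_ne_zero _ (div_ne_zero (sub_ne_zero.2 hxp) hxq)
    apply mul_left_cancel₀ hne
    linear_combination h3
  have hftend : Tendsto f (𝓝[≠] p) (𝓝 p) := by
    rw [Metric.tendsto_nhds]
    intro ε hε
    have h1 : ∀ᶠ x in 𝓝[≠] p, |x - p| < min e ε := by
      apply eventually_nhdsWithin_of_eventually_nhds
      have := Metric.ball_mem_nhds p (lt_min he hε)
      filter_upwards [this] with x hx
      rwa [Metric.mem_ball, Real.dist_eq] at hx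
    filter_upwards [h1] with x hx
    rw [Real.dist_eq]
    have h2 := (hstay x (lt_of_lt_of_le hx (min_le_left _ _))).1
    have h3 := lt_of_lt_of_le hx (min_le_right _ _)
    have := abs_nonneg (x - p)
    linarith
  have hl : μ ^ n * K p = l * K p := by
    have h1 : Tendsto (fun x => μ ^ n * K (f x)) (𝓝[≠] p) (𝓝 (μ ^ n * K p)) :=
      (hKc.tendsto.comp hftend).const_mul _
    have h2 : Tendsto (fun x => l * K x) (𝓝[≠] p) (𝓝 (l * K p)) :=
      (hKc.tendsto.mono_left nhdsWithin_le_nhds).const_mul _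
    refine tendsto_nhds_unique_of_eventuallyEq h1 h2 ?_
    have h3 : ∀ᶠ x in 𝓝[≠] p, |x - p| < e := by
      apply eventually_nhdsWithin_of_eventually_nhds
      filter_upwards [Metric.ball_mem_nhds p he] with x hx
      rwa [Metric.mem_ball, Real.dist_eq] at hx
    filter_upwards [h3, self_mem_nhdsWithin] with x hx hxp
    exact hKf x hx hxp
  have hlμ : l = μ ^ n := (mul_right_cancel₀ hKp hl).symm
  have hKinv : ∀ x, |x - p| < e → K (f x) = K x := by
    intro x hx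
    by_cases hxp : x = p
    · rw [hxp, hfp]
    · have h1 := hKf x hx hxp
      rw [hlμ] at h1
      exact mul_left_cancel₀ (pow_ne_zero _ hμ) h1
  have hiter : ∀ (k : ℕ) x, |x - p| < e → |f^[k] x - p| ≤ (1/4)^k * e ∧ |f^[k] x - p| < e ∧
      K (f^[k] x) = K x := by
    intro k x hx
    induction k with
    | zero => exact ⟨by simpa using hx.le, hx, rfl⟩
    | succ k ih =>
      obtain ⟨h1, h2, h3⟩ := ih
      rw [Function.iterate_succ_apply']
      have h4 := hstay _ h2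
      refine ⟨?_, h4.2, (hKinv _ h2).trans h3⟩
      rw [pow_succ']
      linarith [h4.1]
  have hKconst : ∀ x, |x - p| < e → K x = K p := by
    intro x hx
    have h1 : Tendsto (fun k => f^[k] x) atTop (𝓝 p) := by
      rw [tendsto_iff_dist_tendsto_zero]
      have h2 : Tendsto (fun k : ℕ => ((1:ℝ)/4)^k * e) atTop (𝓝 0) := by
        have := (tendsto_pow_atTop_nhds_zero_of_lt_one (by norm_num : (0:ℝ) ≤ 1/4)
          (by norm_num)).mul_const e
        simpa using this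
      refine squeeze_zero (fun _ => dist_nonneg) (fun k => ?_) h2
      rw [Real.dist_eq]; exact (hiter k x hx).1
    have h3 : Tendsto (fun k => K (f^[k] x)) atTop (𝓝 (K p)) := hKc.tendsto.comp h1
    have h4 : (fun k => K (f^[k] x)) = fun _ => K x := funext fun k => (hiter k x hx).2.2
    rw [h4] at h3
    exact tendsto_nhds_unique tendsto_const_nhds h3
  refine ⟨K p, hKp, n, hn, ?_⟩
  have han2 : AnalyticOnNhd ℝ (fun x => g p + K p * ((x - p) / (x - q)) ^ n) (Ioo 0 1) := by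
    intro x hx
    have hxq : x - q ≠ 0 := by have := hx.1; linarith
    have h1 : AnalyticAt ℝ (fun x : ℝ => (x - p) / (x - q)) x :=
      (analyticAt_id.sub analyticAt_const).div (analyticAt_id.sub analyticAt_const) hxq
    exact analyticAt_const.add (analyticAt_const.mul (h1.pow n))
  have heq : g =ᶠ[𝓝 p] (fun x => g p + K p * ((x - p) / (x - q)) ^ n) := by
    filter_upwards [Metric.ball_mem_nhds p he] with x hx
    rw [Metric.mem_ball, Real.dist_eq] at hx
    have h1 := (hform x hx).1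
    rw [hKconst x hx] at h1
    simp only [hG] at h1
    linarith
  exact fun x hx => hg.eqOn_of_preconnected_of_eventuallyEq han2 isPreconnected_Ioo hp heq hx

/-- Comparing poles. -/
lemma poles_eq {p q p' q' c c' e e' : ℝ} {n n' : ℕ} (hp : 0 < p) (hq : q < 0)
    (hq' : q' < 0) (hc : c ≠ 0) (hn : n ≠ 0)
    (h : ∀ x ∈ Ioo (0:ℝ) 1, e + c * ((x - p) / (x - q)) ^ n =
      e' + c' * ((x - p') / (x - q')) ^ n') : q = q' := by
  by_contra hne
  open Polynomial in
  set Q : ℝ[X] := C c * (X - C p) ^ n * (X - C q') ^ n' -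
    C c' * (X - C p') ^ n' * (X - C q) ^ n -
    C (e' - e) * (X - C q) ^ n * (X - C q') ^ n' with hQ
  have hroot : ∀ x ∈ Ioo (0:ℝ) 1, Q.IsRoot x := by
    intro x hx
    have h1 : x - q ≠ 0 := by have := hx.1; linarith
    have h2 : x - q' ≠ 0 := by have := hx.1; linarith
    have h3 := h x hx
    rw [div_pow, div_pow] at h3
    rw [Polynomial.IsRoot.def, hQ]
    simp only [Polynomial.eval_sub, Polynomial.eval_mul, Polynomial.eval_pow, Polynomial.eval_C,
      Polynomial.eval_X]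
    have h4 : (x - q) ^ n ≠ 0 := pow_ne_zero _ h1
    have h5 : (x - q') ^ n' ≠ 0 := pow_ne_zero _ h2
    field_simp at h3
    linear_combination h3
  have hQ0 : Q = 0 := by
    apply Polynomial.eq_zero_of_infinite_isRoot
    exact (Ioo_infinite (zero_lt_one' ℝ)).mono hroot
  have h1 : Q.eval q = 0 := by rw [hQ0]; simp
  rw [hQ] at h1
  simp only [Polynomial.eval_sub, Polynomial.eval_mul, Polynomial.eval_pow, Polynomial.eval_C,
      Polynomial.eval_X, sub_self, zero_pow hn, mul_zero, zero_mul, sub_zero] at h1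
  have h2 : q - p ≠ 0 := by linarith
  have h3 : q - q' ≠ 0 := sub_ne_zero.2 hne
  exact mul_ne_zero (mul_ne_zero hc (pow_ne_zero _ h2)) (pow_ne_zero _ h3) h1

section
variable {A : ℝ} {P : Bool → ℝ} {s : ℝ}

lemma ff_contr (hA : 2 ≤ A) (hP : ∀ t, P t ∈ Icc (0:ℝ) 1) (hs : 0 ≤ s) (l : Bool × Bool)
    {x y : ℝ} (hx : x ∈ Icc (0:ℝ) 1) (hy : y ∈ Icc (0:ℝ) 1) :
    |ff A P s l x - ff A P s l y| ≤ (1/4) * |x - y| := by
  unfold ff
  split_ifs
  · refine (F_contr hA _ (D_mem (hP _) hs hx).1 (D_mem (hP _) hs hy).1).trans ?_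
    have := D_lip (hP l.1) hs hx hy
    linarith
  · exact F_contr hA _ hx.1 hy.1

lemma fw_contr (hA : 2 ≤ A) (hP : ∀ t, P t ∈ Icc (0:ℝ) 1) (hs : 0 ≤ s)
    (w : List (Bool × Bool)) {x y : ℝ} (hx : x ∈ Icc (0:ℝ) 1) (hy : y ∈ Icc (0:ℝ) 1) :
    |fw A P s w x - fw A P s w y| ≤ (1/4)^w.length * |x - y| := by
  induction w with
  | nil => simp
  | cons l w ih =>
    rw [fw_cons, fw_cons, List.length_cons, pow_succ']
    refine (ff_contr hA hP hs l (fw_mem hA hP hs w hx) (fw_mem hA hP hs w hy)).trans ?_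
    nlinarith [ih]

lemma fw_contr' (hA : 2 ≤ A) (hP : ∀ t, P t ∈ Icc (0:ℝ) 1) (hs : 0 ≤ s)
    {w : List (Bool × Bool)} (hw : w ≠ []) {x y : ℝ} (hx : x ∈ Icc (0:ℝ) 1)
    (hy : y ∈ Icc (0:ℝ) 1) :
    |fw A P s w x - fw A P s w y| ≤ (1/4) * |x - y| := by
  refine (fw_contr hA hP hs w hx hy).trans ?_
  have h1 : ((1:ℝ)/4)^w.length ≤ (1/4)^1 :=
    pow_le_pow_of_le_one (by norm_num) (by norm_num) (List.length_pos_iff.2 hw)
  rw [pow_one] at h1
  exact mul_le_mul_of_nonneg_right h1 (abs_nonneg _)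

lemma fw_mem_Ioo (hA : 2 ≤ A) (hP : ∀ t, P t ∈ Icc (0:ℝ) 1) (hs : 0 ≤ s)
    {w : List (Bool × Bool)} (hw : w ≠ []) {x : ℝ} (hx : x ∈ Icc (0:ℝ) 1) :
    fw A P s w x ∈ Ioo (0:ℝ) 1 := by
  cases w with
  | nil => exact absurd rfl hw
  | cons l w =>
    rw [fw_cons]
    unfold ff
    split_ifs
    · exact F_mem_Ioo hA _ (D_mem (hP _) hs (fw_mem hA hP hs w hx))
    · exact F_mem_Ioo hA _ (fw_mem hA hP hs w hx)

lemma det_LMw (hs : 0 ≤ s)
    (w : List (Bool × Bool)) : (LMw A P s w).det ≠ 0 := by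
  induction w with
  | nil => simp [LMw]
  | cons l w ih =>
    rw [LMw_cons, Matrix.det_mul]
    refine mul_ne_zero ?_ ih
    unfold LM
    have h1 : (BM A l.1).det = -1 := by simp [BM, Matrix.det_fin_two]
    have h2 : (DM (P l.1) s).det = 1 + s * (1 + (P l.1)^2) := by
      simp [DM, Matrix.det_fin_two]; ring
    split_ifs
    · rw [Matrix.det_mul, h1, h2]
      have : 0 < 1 + s * (1 + (P l.1)^2) := by positivity
      exact mul_ne_zero (by norm_num) this.ne'
    · rw [h1]; norm_num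

/-- The Möbius linearizer of a word of the system. -/
lemma word_mob (hA : 2 ≤ A) (hP : ∀ t, P t ∈ Icc (0:ℝ) 1) (hs : 0 ≤ s)
    {w : List (Bool × Bool)} (hw : w ≠ []) :
    ∃ p q μ : ℝ, p ∈ Ioo (0:ℝ) 1 ∧ q < 0 ∧ quad (LMw A P s w) q = 0 ∧ μ ≠ 0 ∧
      fw A P s w p = p ∧
      ∀ x ∈ Icc (0:ℝ) 1, (fw A P s w x - p) / (fw A P s w x - q) = μ * ((x - p) / (x - q)) := by
  have hM := LMw_pos (A := A) (P := P) (s := s) hA hP hs hw
  have hdet := det_LMw (A := A) (P := P) hs w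
  set M := LMw A P s w with hMdef
  have hp0 := root_pos hM
  have hquad := quad_root hM
  have h1I : (1:ℝ) ∈ Icc (0:ℝ) 1 := right_mem_Icc.2 zero_le_one
  have hp1 : root M ≤ 1 := root_le_one hM (by
    rw [hMdef, mob_LMw hA hP hs w h1I]; exact (fw_mem hA hP hs w h1I).2)
  set p := root M with hpdef
  have hpI : p ∈ Icc (0:ℝ) 1 := ⟨hp0.le, hp1⟩
  have hfp : fw A P s w p = p := by
    rw [← mob_LMw hA hP hs w hpI]; exact mob_root hM
  have hpIoo : p ∈ Ioo (0:ℝ) 1 := by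
    rw [← hfp]; exact fw_mem_Ioo hA hP hs hw hpI
  have hb := hM.h01
  have hc := hM.h10
  have ha := hM.h00
  have hd := hM.h11
  set q : ℝ := - M 0 1 / (M 1 0 * p) with hq
  have hq0 : q < 0 := by rw [hq]; exact div_neg_of_neg_of_pos (by linarith) (by positivity)
  have hqp : M 1 0 * p * q = - M 0 1 := by
    rw [hq]; field_simp
  have hquadq : quad M q = 0 := by
    unfold quad at hquad ⊢
    have h1 : (M 1 0 * p^2) * (M 1 0 * q^2 + (M 1 1 - M 0 0) * q - M 0 1) = 0 := by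
      have : (M 1 0 * p^2) * (M 1 0 * q^2 + (M 1 1 - M 0 0) * q - M 0 1) =
        (M 1 0 * p * q)^2 + (M 1 1 - M 0 0) * p * (M 1 0 * p * q) - M 1 0 * p^2 * M 0 1 := by ring
      rw [this, hqp]
      linear_combination (-M 0 1) * hquad
    rcases mul_eq_zero.1 h1 with h2 | h2
    · have : 0 < M 1 0 * p^2 := by positivity
      linarith
    · exact h2
  have hα : 0 < M 0 0 - M 1 0 * q := by nlinarith
  have hαp : M 0 0 - M 1 0 * p ≠ 0 := by
    intro h
    apply hdet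
    rw [Matrix.det_fin_two]
    unfold quad at hquad
    linear_combination (M 1 0) * hquad + (M 1 0 * p + M 1 1) * h
  refine ⟨p, q, (M 0 0 - M 1 0 * p) / (M 0 0 - M 1 0 * q), hpIoo, hq0, hquadq,
    div_ne_zero hαp hα.ne', hfp, ?_⟩
  intro x hx
  have hden := hM.den hx.1
  have e1 : fw A P s w x - p = (M 0 0 - M 1 0 * p) * (x - p) / (M 1 0 * x + M 1 1) := by
    rw [← mob_LMw hA hP hs w hx, ← hMdef, mob, eq_div_iff hden.ne', sub_mul,
      div_mul_cancel₀ _ hden.ne']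
    unfold quad at hquad
    linear_combination (-1) * hquad
  have e2 : fw A P s w x - q = (M 0 0 - M 1 0 * q) * (x - q) / (M 1 0 * x + M 1 1) := by
    rw [← mob_LMw hA hP hs w hx, ← hMdef, mob, eq_div_iff hden.ne', sub_mul,
      div_mul_cancel₀ _ hden.ne']
    unfold quad at hquadq
    linear_combination (-1) * hquadq
  rw [e1, e2, div_div_div_cancel_right₀ hden.ne', mul_div_mul_comm]

/-- The linearizer of a word of the system. -/
lemma word_linearizer (hA : 2 ≤ A) (hP : ∀ t, P t ∈ Icc (0:ℝ) 1) (hs : 0 ≤ s)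
    {w : List (Bool × Bool)} (hw : w ≠ []) {g : ℝ → ℝ} {l t : ℝ}
    (hg : AnalyticOnNhd ℝ g (Ioo 0 1)) (hinj : InjOn g (Icc 0 1))
    (hfun : ∀ x ∈ Icc (0:ℝ) 1, g (fw A P s w x) = l * g x + t) :
    ∃ p q : ℝ, 0 < p ∧ q < 0 ∧ quad (LMw A P s w) q = 0 ∧
    ∃ c : ℝ, c ≠ 0 ∧ ∃ n : ℕ, n ≠ 0 ∧ ∀ x ∈ Ioo (0:ℝ) 1,
      g x = g p + c * ((x - p) / (x - q)) ^ n := by
  obtain ⟨p, q, μ, hpI, hq0, hquadq, hμ, hfp, hφ⟩ := word_mob hA hP hs hw
  refine ⟨p, q, hpI.1, hq0, hquadq, ?_⟩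
  refine linearizer (f := fw A P s w) (μ := μ) hpI hq0 hfp ?_ hφ hμ hg hinj hfun
  intro x hx
  have := fw_contr' hA hP hs hw hx (Ioo_subset_Icc_self hpI)
  rwa [hfp] at this

/-- No sub-conjugacy. -/
lemma no_subconj (hA : 2 ≤ A) (hP : ∀ t, P t ∈ Icc (0:ℝ) 1) (hs : 0 ≤ s)
    (hgen : ∀ i j : List (Bool × Bool), i.length = j.length → i ≠ j → R A P i s ≠ R A P j s)
    {i j : List (Bool × Bool)} (hl : i.length = j.length) (hij : i ≠ j) {g : ℝ → ℝ}
    (hg : AnalyticOnNhd ℝ g (Ioo 0 1)) (hinj : InjOn g (Icc 0 1)) {l₁ l₂ t₁ t₂ : ℝ}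
    (h1 : ∀ x ∈ Icc (0:ℝ) 1, g (fw A P s i x) = l₁ * g x + t₁)
    (h2 : ∀ x ∈ Icc (0:ℝ) 1, g (fw A P s j x) = l₂ * g x + t₂) : False := by
  have hi : i ≠ [] := by
    rintro rfl
    exact hij (List.length_eq_zero_iff.1 hl.symm).symm
  have hj : j ≠ [] := by
    rintro rfl
    exact hij (List.length_eq_zero_iff.1 hl)
  obtain ⟨p, q, hp, hq, hqq, c, hc, n, hn, hf⟩ := word_linearizer hA hP hs hi hg hinj h1
  obtain ⟨p', q', hp', hq', hqq', c', hc', n', hn', hf'⟩ := word_linearizer hA hP hs hj hg hinj h2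
  have hqe : q = q' := poles_eq hp hq hq' hc hn
    (fun x hx => (hf x hx).symm.trans (hf' x hx))
  subst hqe
  exact no_common_quad hA hP hs hgen hl hij hq hqq hqq'

lemma ff_inj (hA : 2 ≤ A) (hP : ∀ t, P t ∈ Icc (0:ℝ) 1) (hs : 0 ≤ s) (l : Bool × Bool)
    {x y : ℝ} (hx : x ∈ Icc (0:ℝ) 1) (hy : y ∈ Icc (0:ℝ) 1)
    (h : ff A P s l x = ff A P s l y) : x = y := by
  unfold ff at h
  split_ifs at h
  · exact D_inj (hP _) hs hx hy (F_inj hA (D_mem (hP _) hs hx) (D_mem (hP _) hs hy) h).2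
  · exact (F_inj hA hx hy h).2

lemma fw_inj (hA : 2 ≤ A) (hP : ∀ t, P t ∈ Icc (0:ℝ) 1) (hs : 0 ≤ s) (w : List (Bool × Bool))
    {x y : ℝ} (hx : x ∈ Icc (0:ℝ) 1) (hy : y ∈ Icc (0:ℝ) 1)
    (h : fw A P s w x = fw A P s w y) : x = y := by
  induction w with
  | nil => exact h
  | cons l w ih =>
    exact ih (ff_inj hA hP hs l (fw_mem hA hP hs w hx) (fw_mem hA hP hs w hy) h)

lemma no_overlap_aux (hA : 2 ≤ A) (hP : ∀ t, P t ∈ Icc (0:ℝ) 1) (hs : 0 ≤ s)
    (hgen : ∀ i j : List (Bool × Bool), i.length = j.length → i ≠ j → R A P i s ≠ R A P j s)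
    {i j : List (Bool × Bool)} (hl : i.length = j.length) (hij : i ≠ j)
    (h : EqOn (fw A P s i) (fw A P s j) (Icc 0 1)) : False := by
  have hi : i ≠ [] := by
    rintro rfl
    exact hij (List.length_eq_zero_iff.1 hl.symm).symm
  obtain ⟨p, q, μ, hpI, hq0, hquadq, hμ, hfp, hφ⟩ := word_mob (s := s) hA hP hs hi
  refine no_subconj hA hP hs hgen hl hij (g := fun x => (x - p) / (x - q)) (l₁ := μ) (l₂ := μ)
    (t₁ := 0) (t₂ := 0) ?_ ?_ ?_ ?_
  · intro x hx
    have hxq : x - q ≠ 0 := by have := hx.1; linarith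
    exact (analyticAt_id.sub analyticAt_const).div (analyticAt_id.sub analyticAt_const) hxq
  · intro x hx y hy hxy
    have hxq : x - q ≠ 0 := by have := hx.1; linarith
    have hyq : y - q ≠ 0 := by have := hy.1; linarith
    simp only at hxy
    rw [div_eq_div_iff hxq hyq] at hxy
    have h1 : (p - q) * (x - y) = 0 := by linear_combination hxy
    rcases mul_eq_zero.1 h1 with h2 | h2
    · have := hpI.1; linarith
    · linarith
  · intro x hx
    simp only [add_zero]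
    exact hφ x hx
  · intro x hx
    simp only [add_zero]
    rw [← h hx]
    exact hφ x hx

/-- No exact overlap. -/
lemma no_overlap (hA : 2 ≤ A) (hP : ∀ t, P t ∈ Icc (0:ℝ) 1) (hs : 0 ≤ s)
    (hgen : ∀ i j : List (Bool × Bool), i.length = j.length → i ≠ j → R A P i s ≠ R A P j s)
    {i j : List (Bool × Bool)} (hij : i ≠ j)
    (h : EqOn (fw A P s i) (fw A P s j) (Icc 0 1)) : False := by
  wlog hle : i.length ≤ j.length generalizing i j
  · exact this hij.symm h.symm (by omega)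
  by_cases hc : i ++ j = j ++ i
  · have hpre : i <+: j := by
      apply List.prefix_of_prefix_length_le (l₃ := i ++ j) (List.prefix_append _ _) _ hle
      rw [hc]; exact List.prefix_append _ _
    obtain ⟨u, rfl⟩ := hpre
    have hu : u ≠ [] := by
      rintro rfl
      simp at hij
    have h1 : ∀ x ∈ Icc (0:ℝ) 1, fw A P s u x = x := by
      intro x hx
      have h2 := h hx
      rw [fw_append] at h2
      exact (fw_inj hA hP hs i hx (fw_mem hA hP hs u hx) h2).symm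
    have h0I : (0:ℝ) ∈ Icc (0:ℝ) 1 := left_mem_Icc.2 zero_le_one
    have h1I : (1:ℝ) ∈ Icc (0:ℝ) 1 := right_mem_Icc.2 zero_le_one
    have h3 := fw_contr' hA hP hs hu h1I h0I
    rw [h1 _ h1I, h1 _ h0I] at h3
    norm_num at h3
  · refine no_overlap_aux hA hP hs hgen (i := i ++ j) (j := j ++ i) (by simp [add_comm]) hc ?_
    intro x hx
    rw [fw_append, fw_append, ← h hx]
    exact h (fw_mem hA hP hs i hx)

end

end Pool.Agent.R294.IFS
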