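import Pool.Agent.R294.IFS5

/-! Complex extensions of the letter maps. -/

namespace Pool.Agent.R294.IFS

open Set Matrix Filter Topology

/-- The open neighbourhood of radius `δ` of `[0,1]` in the complex plane. -/
def Bc (δ : ℝ) : Set ℂ := Metric.thickening δ ((fun x : ℝ => (x : ℂ)) '' Icc 0 1)

lemma Bc_bounds {δ : ℝ} {z : ℂ} (hz : z ∈ Bc δ) : -δ ≤ z.re ∧ ‖z‖ ≤ 1 + δ := by
  obtain ⟨w, ⟨x, hx, rfl⟩, hd⟩ := Metric.mem_thickening_iff.1 hz
  rw [dist_eq_norm] at hd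
  simp only at hd
  constructor
  · have h1 := Complex.abs_re_le_norm (z - (x:ℂ))
    rw [Complex.sub_re, Complex.ofReal_re] at h1
    have h2 := abs_le.1 (h1.trans hd.le)
    linarith [h2.1, hx.1]
  · have h1 : ‖z‖ ≤ ‖z - (x:ℂ)‖ + ‖(x:ℂ)‖ := by
      have := norm_add_le (z - (x:ℂ)) (x:ℂ)
      simpa using this
    rw [Complex.norm_real, Real.norm_eq_abs, abs_of_nonneg hx.1] at h1
    linarith [hx.2]

lemma Bc_closure_bounds {δ : ℝ} {z : ℂ} (hz : z ∈ closure (Bc δ)) :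
    -δ ≤ z.re ∧ ‖z‖ ≤ 1 + δ := by
  have h1 : IsClosed {z : ℂ | -δ ≤ z.re ∧ ‖z‖ ≤ 1 + δ} :=
    (isClosed_le continuous_const Complex.continuous_re).inter
      (isClosed_le continuous_norm continuous_const)
  exact closure_minimal (fun z hz => Bc_bounds hz) h1 hz

lemma mem_Bc_of_norm_lt {δ : ℝ} {z : ℂ} (h : ‖z‖ < δ) : z ∈ Bc δ := by
  refine Metric.mem_thickening_iff.2 ⟨((0:ℝ):ℂ), ⟨0, by simp, rfl⟩, ?_⟩
  simpa [dist_eq_norm] using h

/-- The complex extension of the letter maps. -/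
noncomputable def Fc (a P σ : ℝ) (z : ℂ) : ℂ :=
  ((σ * P : ℝ) * z + (1 + σ : ℝ)) /
    ((1 + σ * P^2 + a * (σ * P) : ℝ) * z + (σ * P + a * (1 + σ) : ℝ))

lemma Fc_real {a P σ x : ℝ} (hQ : σ * P * x + (1 + σ) ≠ 0) :
    Fc a P σ (x : ℂ) = ((1 / (D P σ x + a) : ℝ) : ℂ) := by
  have e : 1 / (D P σ x + a) = (σ * P * x + (1 + σ)) /
      ((1 + σ * P^2 + a * (σ * P)) * x + (σ * P + a * (1 + σ))) := by
    unfold D
    rw [div_add' _ _ _ hQ, one_div_div]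
    congr 1
    ring
  rw [e]
  unfold Fc
  push_cast
  ring_nf

lemma Fc_den {a P σ ε : ℝ} (hε : 0 < ε) (hP : P ∈ Icc (0:ℝ) 1) (hσ : 0 ≤ σ)
    (hσa : σ * (1 + a) ≤ 1) (ha : 8 * ε + 4 ≤ a) {z : ℂ} (hz : -(2*ε) ≤ z.re) :
    a / 2 ≤ ‖((1 + σ * P^2 + a * (σ * P) : ℝ) : ℂ) * z + ((σ * P + a * (1 + σ) : ℝ) : ℂ)‖ := by
  obtain ⟨hP0, hP1⟩ := hP
  refine le_trans ?_ (Complex.re_le_norm _)
  rw [Complex.add_re, Complex.re_ofReal_mul, Complex.ofReal_re]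
  have ha0 : 0 < a := by linarith
  have hκ0 : 0 ≤ 1 + σ * P^2 + a * (σ * P) := by positivity
  have hκ : 1 + σ * P^2 + a * (σ * P) ≤ 2 := by
    have h1 : σ * P^2 ≤ σ * 1 := mul_le_mul_of_nonneg_left (by nlinarith) hσ
    have h2 : a * (σ * P) ≤ a * (σ * 1) :=
      mul_le_mul_of_nonneg_left (mul_le_mul_of_nonneg_left hP1 hσ) ha0.le
    nlinarith
  have h3 : -(4*ε) ≤ (1 + σ * P^2 + a * (σ * P)) * z.re := by
    have h4 : (1 + σ * P^2 + a * (σ * P)) * (-(2*ε)) ≤ (1 + σ * P^2 + a * (σ * P)) * z.re :=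
      mul_le_mul_of_nonneg_left hz hκ0
    nlinarith
  have h5 : 0 ≤ σ * P + a * σ := by positivity
  nlinarith

lemma Fc_num {P σ ε : ℝ} (hε : 0 ≤ ε) (hP : P ∈ Icc (0:ℝ) 1) (hσ : 0 ≤ σ)
    (hσε : σ * (2 * (1 + ε)) ≤ 1) {z : ℂ} (hz : ‖z‖ ≤ 1 + ε) :
    ‖((σ * P : ℝ) : ℂ) * z + ((1 + σ : ℝ) : ℂ)‖ ≤ 2 := by
  obtain ⟨hP0, hP1⟩ := hP
  refine (norm_add_le _ _).trans ?_
  rw [norm_mul, Complex.norm_real, Complex.norm_real, Real.norm_eq_abs, Real.norm_eq_abs,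
    abs_of_nonneg (by positivity), abs_of_nonneg (by positivity)]
  have h1 : σ * P * ‖z‖ ≤ σ * 1 * (1 + ε) :=
    mul_le_mul (mul_le_mul_of_nonneg_left hP1 hσ) hz (norm_nonneg _) (by positivity)
  have h2 : 0 ≤ σ * ε := by positivity
  nlinarith

lemma mobius_hasDerivAt {A B C E z : ℂ} (hne : C * z + E ≠ 0) :
    HasDerivAt (fun z : ℂ => (A * z + B) / (C * z + E)) ((A * E - B * C) / (C * z + E)^2) z := by
  have h1 : HasDerivAt (fun z : ℂ => A * z + B) A z := by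
    simpa using ((hasDerivAt_id z).const_mul A).add_const B
  have h2 : HasDerivAt (fun z : ℂ => C * z + E) C z := by
    simpa using ((hasDerivAt_id z).const_mul C).add_const E
  have e : A * E - B * C = A * (C * z + E) - (A * z + B) * C := by ring
  rw [e]
  exact h1.div h2 hne

lemma mobius_analyticAt {A B C E z : ℂ} (hne : C * z + E ≠ 0) :
    AnalyticAt ℂ (fun z : ℂ => (A * z + B) / (C * z + E)) z := by
  have h1 : AnalyticAt ℂ (fun z : ℂ => A * z + B) z :=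
    (analyticAt_const.mul analyticAt_id).add analyticAt_const
  have h2 : AnalyticAt ℂ (fun z : ℂ => C * z + E) z :=
    (analyticAt_const.mul analyticAt_id).add analyticAt_const
  exact h1.div h2 hne

lemma Fc_hasDerivAt {a P σ : ℝ} {z : ℂ}
    (hne : ((1 + σ * P^2 + a * (σ * P) : ℝ) : ℂ) * z + ((σ * P + a * (1 + σ) : ℝ) : ℂ) ≠ 0) :
    HasDerivAt (Fc a P σ) (((-(1 + σ * (1 + P^2)) : ℝ) : ℂ) /
      (((1 + σ * P^2 + a * (σ * P) : ℝ) : ℂ) * z + ((σ * P + a * (1 + σ) : ℝ) : ℂ))^2) z := by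
  have h := mobius_hasDerivAt (A := ((σ * P : ℝ) : ℂ)) (B := ((1 + σ : ℝ) : ℂ)) hne
  have e : ((-(1 + σ * (1 + P^2)) : ℝ) : ℂ) =
      ((σ * P : ℝ) : ℂ) * ((σ * P + a * (1 + σ) : ℝ) : ℂ) -
        ((1 + σ : ℝ) : ℂ) * ((1 + σ * P^2 + a * (σ * P) : ℝ) : ℂ) := by
    push_cast; ring
  rw [e]
  exact h

/-- All the complex conditions for one letter map. -/
lemma Fc_good {a P σ ε : ℝ} (hε : 0 < ε) (hP : P ∈ Icc (0:ℝ) 1) (hσ : 0 ≤ σ)
    (hσa : σ * (1 + a) ≤ 1) (hσε : σ * (2 * (1 + 2*ε)) ≤ 1) (ha : 8 * ε + 4 ≤ a)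
    (haε : 4 / ε < a) :
    AnalyticOnNhd ℂ (Fc a P σ) (Bc (2*ε)) ∧
    (∀ x : ℝ, (x:ℂ) ∈ Bc (2*ε) → Fc a P σ x = ((1 / (D P σ x + a) : ℝ) : ℂ)) ∧
    MapsTo (Fc a P σ) (closure (Bc ε)) (Bc ε) ∧
    ∀ z ∈ closure (Bc ε), 0 < ‖deriv (Fc a P σ) z‖ ∧ ‖deriv (Fc a P σ) z‖ < 1 := by
  have ha0 : 0 < a := by linarith
  have hden : ∀ z : ℂ, -(2*ε) ≤ z.re →
      ((1 + σ * P^2 + a * (σ * P) : ℝ) : ℂ) * z + ((σ * P + a * (1 + σ) : ℝ) : ℂ) ≠ 0 := by
    intro z hz h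
    have h1 := Fc_den hε hP hσ hσa ha hz
    rw [h, norm_zero] at h1
    linarith
  refine ⟨?_, ?_, ?_, ?_⟩
  · intro z hz
    have h1 := hden z (Bc_bounds hz).1
    exact mobius_analyticAt h1
  · intro x hx
    apply Fc_real
    have h1 := (Bc_bounds hx).1
    rw [Complex.ofReal_re] at h1
    obtain ⟨hP0, hP1⟩ := hP
    have h2 : σ * P * (-(2*ε)) ≤ σ * P * x := mul_le_mul_of_nonneg_left h1 (by positivity)
    have h3 : σ * P * (2*ε) ≤ σ * 1 * (2 * ε) :=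
      mul_le_mul_of_nonneg_right (mul_le_mul_of_nonneg_left hP1 hσ) (by positivity)
    have h4 : 0 < σ * P * x + (1 + σ) := by nlinarith
    exact h4.ne'
  · intro z hz
    obtain ⟨h1, h2⟩ := Bc_closure_bounds hz
    apply mem_Bc_of_norm_lt
    have h3 := Fc_den (z := z) hε hP hσ hσa ha (by linarith)
    have h4 := Fc_num (z := z) (ε := ε) hε.le hP hσ (by nlinarith) h2
    unfold Fc
    rw [norm_div]
    have h5 : 0 < a / 2 := by linarith
    calc _ ≤ 2 / (a / 2) := div_le_div₀ (by norm_num) h4 h5 h3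
      _ = 4 / a := by ring
      _ < ε := by
        rw [div_lt_iff₀ ha0]
        rw [div_lt_iff₀ hε] at haε
        linarith
  · intro z hz
    obtain ⟨h1, h2⟩ := Bc_closure_bounds hz
    have hne := hden z (by linarith)
    rw [(Fc_hasDerivAt hne).deriv, norm_div, norm_pow, Complex.norm_real, Real.norm_eq_abs,
      abs_neg, abs_of_pos (by positivity)]
    have h3 := Fc_den (z := z) hε hP hσ hσa ha (by linarith)
    have h5 : 0 < a / 2 := by linarith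
    set N := ‖((1 + σ * P^2 + a * (σ * P) : ℝ) : ℂ) * z + ((σ * P + a * (1 + σ) : ℝ) : ℂ)‖
      with hN
    have hN0 : 0 < N := by linarith
    constructor
    · positivity
    · rw [div_lt_one (by positivity)]
      have h6 : (a/2)^2 ≤ N^2 := by gcongr
      have h7 : σ * (1 + P^2) ≤ 2 := by
        obtain ⟨hP0, hP1⟩ := hP
        have : σ ≤ 1 := by nlinarith
        have : P^2 ≤ 1 := by nlinarith
        nlinarith
      nlinarith

end Pool.Agent.R294.IFS
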