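import Mathlib

/-! Gap systems: construction of non-expansive bijections of dense subgroups of the line that are
contained in a countable union of compact null sets. -/

namespace Pool.Agent.R294.Plastic

open Set MeasureTheory Topology

/-- A gap: the interval `(c, d)` with the translation by `h`. -/
structure Gap where
  c : ℝ
  d : ℝ
  h : ℝ

/-- `g` lies to the left of `g'` and the two translations fit together. -/
def R (g g' : Gap) : Prop :=
  g.c < g.d ∧ g'.c < g'.d ∧ 0 < g.h - g'.h ∧ g.h - g'.h < g'.c - g.d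

lemma R.trans {a b c : Gap} (h1 : R a b) (h2 : R b c) : R a c := by
  obtain ⟨h11, h12, h13, h14⟩ := h1
  obtain ⟨h21, h22, h23, h24⟩ := h2
  exact ⟨h11, h22, by linarith, by linarith⟩

lemma R.irrefl (a : Gap) : ¬ R a a := fun h => by
  have := h.2.2.1; linarith

lemma R.asymm {a b : Gap} (h1 : R a b) : ¬ R b a := fun h2 => R.irrefl a (h1.trans h2)

instance : IsTrans Gap R := ⟨fun _ _ _ h1 h2 => h1.trans h2⟩

/-! ### Covers of compact null sets by separated intervals -/

/-- Increasing lists of closed intervals inside `O`, with end points outside `E`, strictly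
between `a` and `b`. -/
def Good (O E : Set ℝ) (b : ℝ) : ℝ → List (ℝ × ℝ) → Prop
  | a, [] => a < b
  | a, p :: l => a < p.1 ∧ p.1 < p.2 ∧ p.1 ∉ E ∧ p.2 ∉ E ∧ Icc p.1 p.2 ⊆ O ∧ Good O E b p.2 l

/-- The union of the open intervals. -/
def cov (l : List (ℝ × ℝ)) : Set ℝ := {x | ∃ p ∈ l, p.1 < x ∧ x < p.2}

/-- The total length. -/
def total (l : List (ℝ × ℝ)) : ℝ := (l.map (fun p => p.2 - p.1)).sum

variable {O E : Set ℝ} {a b : ℝ}

lemma Good.mono {a' : ℝ} (h : a ≤ a') {l : List (ℝ × ℝ)} (hl : Good O E b a' l) :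
    Good O E b a l := by
  cases l with
  | nil => exact lt_of_le_of_lt h hl
  | cons p l =>
    obtain ⟨h1, h2⟩ := hl
    exact ⟨lt_of_le_of_lt h h1, h2⟩

lemma Good.total_lt : ∀ {l : List (ℝ × ℝ)} {a : ℝ}, Good O E b a l → total l < b - a := by
  intro l
  induction l with
  | nil => intro a h; simp only [total, List.map_nil, List.sum_nil]; exact sub_pos.2 h
  | cons p l ih =>
    intro a h
    obtain ⟨h1, h2, -, -, -, h3⟩ := h
    have h4 := ih h3
    simp only [total, List.map_cons, List.sum_cons] at h4 ⊢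
    linarith

lemma Good.total_nonneg : ∀ {l : List (ℝ × ℝ)} {a : ℝ}, Good O E b a l → 0 ≤ total l := by
  intro l
  induction l with
  | nil => intro a h; simp [total]
  | cons p l ih =>
    intro a h
    obtain ⟨h1, h2, -, -, -, h3⟩ := h
    have h4 := ih h3
    simp only [total, List.map_cons, List.sum_cons] at h4 ⊢
    linarith

lemma Good.total_le : ∀ {l : List (ℝ × ℝ)} {a : ℝ}, Good O E b a l →
    ENNReal.ofReal (total l) ≤ volume (O ∩ Ioi a) := by
  intro l
  induction l with
  | nil => intro a h; simp [total]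
  | cons p l ih =>
    intro a h
    obtain ⟨h1, h2, -, -, h5, h3⟩ := h
    have h4 := ih h3
    have e : total (p :: l) = (p.2 - p.1) + total l := by simp [total]
    rw [e, ENNReal.ofReal_add (by linarith) h3.total_nonneg]
    have h6 : Disjoint (Icc p.1 p.2) (O ∩ Ioi p.2) := by
      rw [Set.disjoint_left]
      rintro x hx ⟨-, hx'⟩
      exact absurd hx.2 (not_le.2 hx')
    calc ENNReal.ofReal (p.2 - p.1) + ENNReal.ofReal (total l)
        ≤ volume (Icc p.1 p.2) + volume (O ∩ Ioi p.2) := by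
          rw [Real.volume_Icc]; gcongr
      _ = volume (Icc p.1 p.2 ∪ (O ∩ Ioi p.2)) :=
          (measure_union' h6 measurableSet_Icc).symm
      _ ≤ volume (O ∩ Ioi a) := by
          apply measure_mono
          rintro x (hx | ⟨hx, hx'⟩)
          · exact ⟨h5 hx, lt_of_lt_of_le h1 hx.1⟩
          · exact ⟨hx, by simp only [mem_Ioi] at hx' ⊢; linarith⟩

/-- Inserting an interval. -/
lemma insert_interval : ∀ (l : List (ℝ × ℝ)) (a u v : ℝ), Good O E b a l → a < u → u < v →
    v < b → u ∉ E → v ∉ E → Icc u v ⊆ O →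
    ∃ l', Good O E b a l' ∧ cov l ⊆ cov l' ∧ Ioo u v ⊆ cov l' := by
  intro l
  induction l with
  | nil =>
    intro a u v _ hau huv hvb hu hv hO
    refine ⟨[(u, v)], ⟨hau, huv, hu, hv, hO, hvb⟩, ?_, ?_⟩
    · rintro x ⟨p, hp, -⟩; simp at hp
    · intro x hx; exact ⟨(u, v), by simp, hx.1, hx.2⟩
  | cons p l ih =>
    intro a u v hl hau huv hvb hu hv hO
    obtain ⟨h1, h2, h3, h4, h5, h6⟩ := hl
    by_cases hc : v < p.1
    · refine ⟨(u, v) :: p :: l, ⟨hau, huv, hu, hv, hO, hc, h2, h3, h4, h5, h6⟩, ?_, ?_⟩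
      · rintro x ⟨q, hq, hx⟩; exact ⟨q, List.mem_cons_of_mem _ hq, hx⟩
      · intro x hx; exact ⟨(u, v), by simp, hx.1, hx.2⟩
    · by_cases hd : p.2 < u
      · obtain ⟨l', hl', hc1, hc2⟩ := ih p.2 u v h6 hd huv hvb hu hv hO
        refine ⟨p :: l', ⟨h1, h2, h3, h4, h5, hl'⟩, ?_, ?_⟩
        · rintro x ⟨q, hq, hx⟩
          rcases List.mem_cons.1 hq with rfl | hq
          · exact ⟨q, by simp, hx⟩
          · obtain ⟨q', hq', hx'⟩ := hc1 ⟨q, hq, hx⟩
            exact ⟨q', List.mem_cons_of_mem _ hq', hx'⟩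
        · intro x hx
          obtain ⟨q', hq', hx'⟩ := hc2 hx
          exact ⟨q', List.mem_cons_of_mem _ hq', hx'⟩
      · push Not at hc hd
        have hpb : p.2 < b := by
          have := h6.total_lt; have := h6.total_nonneg; linarith
        have hO' : Icc (min u p.1) (max v p.2) ⊆ O := by
          intro x hx
          by_cases hx1 : x ∈ Icc u v
          · exact hO hx1
          · apply h5
            simp only [mem_Icc, not_and_or, not_le] at hx1
            rcases hx1 with hx1 | hx1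
            · refine ⟨?_, by linarith⟩
              rcases min_le_iff.1 hx.1 with h | h
              · linarith
              · exact h
            · refine ⟨by linarith, ?_⟩
              rcases le_max_iff.1 hx.2 with h | h
              · linarith
              · exact h
        have hmin : min u p.1 ∉ E := by rcases min_choice u p.1 with h | h <;> rw [h] <;> assumption
        have hmax : max v p.2 ∉ E := by rcases max_choice v p.2 with h | h <;> rw [h] <;> assumption
        have hlt : min u p.1 < max v p.2 := (min_le_left _ _).trans_lt (huv.trans_le (le_max_left _ _))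
        obtain ⟨l', hl', hc1, hc2⟩ := ih a (min u p.1) (max v p.2)
          (h6.mono (by linarith)) (lt_min hau h1) hlt (max_lt hvb hpb) hmin hmax hO'
        refine ⟨l', hl', ?_, ?_⟩
        · rintro x ⟨q, hq, hx⟩
          rcases List.mem_cons.1 hq with rfl | hq
          · exact hc2 ⟨lt_of_le_of_lt (min_le_right _ _) hx.1, lt_of_lt_of_le hx.2 (le_max_right _ _)⟩
          · exact hc1 ⟨q, hq, hx⟩
        · intro x hx
          exact hc2 ⟨lt_of_le_of_lt (min_le_left _ _) hx.1, lt_of_lt_of_le hx.2 (le_max_left _ _)⟩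

lemma exists_not_mem_of_null (hE : volume E = 0) {u v : ℝ} (huv : u < v) :
    ∃ x, u < x ∧ x < v ∧ x ∉ E := by
  by_contra h
  push Not at h
  have h1 : Ioo u v ⊆ E := fun x hx => h x hx.1 hx.2
  have h2 : volume (Ioo u v) ≤ 0 := hE ▸ measure_mono h1
  rw [Real.volume_Ioo, nonpos_iff_eq_zero, ENNReal.ofReal_eq_zero] at h2
  linarith

/-- Covering a compact set. -/
lemma exists_cover (hE : volume E = 0) (hO : IsOpen O) {Q : Set ℝ} (hQ : IsCompact Q)
    (hQO : Q ⊆ O) (hab : a < b) (ha : a ∉ Q) (hb : b ∉ Q) :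
    ∃ l, Good O E b a l ∧ Q ∩ Icc a b ⊆ cov l := by
  have key : ∀ l, Good O E b a l → ∃ l', Good O E b a l' ∧ cov l ⊆ cov l' ∧
      Q ∩ Icc a b ⊆ cov l' := by
    refine hQ.induction_on (p := fun S => ∀ l, Good O E b a l → ∃ l', Good O E b a l' ∧
      cov l ⊆ cov l' ∧ S ∩ Icc a b ⊆ cov l') ?_ ?_ ?_ ?_
    · intro l hl
      exact ⟨l, hl, Subset.rfl, by simp⟩
    · intro S T hST hT l hl
      obtain ⟨l', h1, h2, h3⟩ := hT l hl
      exact ⟨l', h1, h2, fun x hx => h3 ⟨hST hx.1, hx.2⟩⟩
    · intro S T hS hT l hl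
      obtain ⟨l', h1, h2, h3⟩ := hS l hl
      obtain ⟨l'', h4, h5, h6⟩ := hT l' h1
      refine ⟨l'', h4, h2.trans h5, ?_⟩
      rintro x ⟨hx | hx, hx'⟩
      · exact h5 (h3 ⟨hx, hx'⟩)
      · exact h6 ⟨hx, hx'⟩
    · intro x hx
      by_cases hxI : x ∈ Icc a b
      · have hxI' : x ∈ Ioo a b := by
          refine ⟨lt_of_le_of_ne hxI.1 ?_, lt_of_le_of_ne hxI.2 ?_⟩
          · rintro rfl; exact ha hx
          · rintro rfl; exact hb hx
        obtain ⟨e, he, hball⟩ := Metric.isOpen_iff.1 (hO.inter isOpen_Ioo) x ⟨hQO hx, hxI'⟩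
        obtain ⟨u, hu1, hu2, hu3⟩ := exists_not_mem_of_null hE (show x - e < x by linarith)
        obtain ⟨v, hv1, hv2, hv3⟩ := exists_not_mem_of_null hE (show x < x + e by linarith)
        have hsub : Icc u v ⊆ O ∩ Ioo a b := by
          intro y hy
          apply hball
          rw [Metric.mem_ball, Real.dist_eq, abs_lt]
          constructor <;> linarith [hy.1, hy.2]
        refine ⟨Ioo u v, mem_nhdsWithin_of_mem_nhds (Ioo_mem_nhds hu2 hv1), fun l hl => ?_⟩
        obtain ⟨l', h1, h2, h3⟩ := insert_interval l a u v hl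
          (hsub (left_mem_Icc.2 (by linarith))).2.1 (by linarith)
          (hsub (right_mem_Icc.2 (by linarith))).2.2 hu3 hv3 (fun y hy => (hsub hy).1)
        exact ⟨l', h1, h2, fun y hy => h3 hy.1⟩
      · refine ⟨(Icc a b)ᶜ, mem_nhdsWithin_of_mem_nhds (isClosed_Icc.isOpen_compl.mem_nhds hxI),
          fun l hl => ⟨l, hl, Subset.rfl, ?_⟩⟩
        rintro y ⟨hy, hy'⟩
        exact absurd hy' hy
  obtain ⟨l, h1, -, h2⟩ := key [] hab
  exact ⟨l, h1, h2⟩

/-! ### Refinements of gap systems -/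

/-- Membership of a point in a gap. -/
def InG (g : Gap) (x : ℝ) : Prop := g.c < x ∧ x < g.d

/-- Admissible gaps. -/
def Adm (E H : Set ℝ) (g : Gap) : Prop := g.h ∈ H ∧ g.c ∉ E ∧ g.d ∉ E

variable {H : Set ℝ}

/-- Choosing the translations for a list of intervals. -/
lemma assign (hH : Dense H) (g' : Gap) (hg' : g'.c < g'.d) :
    ∀ (l : List (ℝ × ℝ)) (g : Gap), g.c < g.d → Good O E g'.c g.d l → g'.h < g.h →
      total l < (g'.c - g.d) - (g.h - g'.h) →
      ∃ M : List Gap, List.IsChain R (g :: (M ++ [g'])) ∧ (∀ m ∈ M, Adm E H m) ∧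
        (∀ x ∈ cov l, ∃ m ∈ M, InG m x) := by
  intro l
  induction l with
  | nil =>
    intro g hg hl hh ht
    simp only [total, List.map_nil, List.sum_nil] at ht
    refine ⟨[], ?_, by simp, ?_⟩
    · simp only [List.nil_append, List.isChain_cons_cons, List.isChain_singleton, and_true]
      exact ⟨hg, hg', by linarith, by linarith⟩
    · rintro x ⟨p, hp, -⟩; simp at hp
  | cons p l ih =>
    intro g hg hl hh ht
    obtain ⟨h1, h2, h3, h4, h5, h6⟩ := hl
    have e : total (p :: l) = (p.2 - p.1) + total l := by simp [total]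
    rw [e] at ht
    have h7 := h6.total_lt
    have h8 := h6.total_nonneg
    obtain ⟨k, hk, hk1⟩ := hH.exists_mem_open isOpen_Ioo
      (show (Ioo (max g'.h (g.h - (p.1 - g.d))) (min g.h (g'.c - p.2 + g'.h - total l))).Nonempty by
        rw [nonempty_Ioo, max_lt_iff, lt_min_iff, lt_min_iff]
        exact ⟨⟨hh, by linarith⟩, by linarith, by linarith⟩)
    obtain ⟨hk2, hk3⟩ := hk1
    rw [max_lt_iff] at hk2
    rw [lt_min_iff] at hk3
    obtain ⟨M, hM1, hM2, hM3⟩ := ih ⟨p.1, p.2, k⟩ h2 h6 hk2.1 (by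
      show total l < (g'.c - p.2) - (k - g'.h)
      linarith [hk3.2])
    refine ⟨⟨p.1, p.2, k⟩ :: M, ?_, ?_, ?_⟩
    · rw [List.cons_append, List.isChain_cons_cons]
      exact ⟨⟨hg, h2, by simp only; linarith [hk3.1], by simp only; linarith [hk2.2]⟩, hM1⟩
    · intro m hm
      rcases List.mem_cons.1 hm with rfl | hm
      · exact ⟨hk, h3, h4⟩
      · exact hM2 m hm
    · rintro x ⟨q, hq, hx⟩
      rcases List.mem_cons.1 hq with rfl | hq
      · exact ⟨_, List.mem_cons_self, hx⟩
      · obtain ⟨m, hm, hm'⟩ := hM3 x ⟨q, hq, hx⟩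
        exact ⟨m, List.mem_cons_of_mem _ hm, hm'⟩

/-- Filling between two neighbouring gaps, in the domain. -/
lemma between_dom (hE : volume E = 0) (hH : Dense H) {Q : Set ℝ} (hQ : IsCompact Q)
    (hQE : Q ⊆ E) {g g' : Gap} (hR : R g g') (hg : g.d ∉ E) (hg' : g'.c ∉ E) :
    ∃ M : List Gap, List.IsChain R (g :: (M ++ [g'])) ∧ (∀ m ∈ M, Adm E H m) ∧
        (∀ x ∈ Q, g.d ≤ x → x ≤ g'.c → ∃ m ∈ M, InG m x) := by
  obtain ⟨h1, h2, h3, h4⟩ := hR
  set δ := (g'.c - g.d) - (g.h - g'.h) with hδ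
  have hδ0 : 0 < δ := by rw [hδ]; linarith
  have hQ0 : volume Q = 0 := measure_mono_null hQE hE
  obtain ⟨O, hQO, hO, hOm⟩ := Set.exists_isOpen_lt_of_lt Q (ENNReal.ofReal δ)
    (by rw [hQ0]; exact ENNReal.ofReal_pos.2 hδ0) (μ := volume)
  obtain ⟨l, hl1, hl2⟩ := exists_cover (E := E) hE hO hQ hQO (show g.d < g'.c by linarith)
    (fun h => hg (hQE h)) (fun h => hg' (hQE h))
  have ht : total l < δ := by
    have h5 := hl1.total_le.trans (measure_mono inter_subset_left)
    have h6 := h5.trans_lt hOm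
    exact (ENNReal.ofReal_lt_ofReal_iff hδ0).1 h6
  obtain ⟨M, hM1, hM2, hM3⟩ := assign hH g' h2 l g h1 hl1 (by linarith) ht
  exact ⟨M, hM1, hM2, fun x hx hx1 hx2 => hM3 x (hl2 ⟨hx, hx1, hx2⟩)⟩

/-- Filling between two neighbouring gaps, in the range. -/
lemma between_ran (hE : volume E = 0) (hH : Dense H) (hinv : ∀ x ∉ E, ∀ h ∈ H, x - h ∉ E)
    {Q : Set ℝ} (hQ : IsClosed Q) {g g' : Gap} (hR : R g g')
    (hg : g.d + g.h ∉ Q) (hg' : g'.c + g'.h ∉ Q) :
    ∃ M : List Gap, List.IsChain R (g :: (M ++ [g'])) ∧ (∀ m ∈ M, Adm E H m) ∧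
        (∀ y ∈ Q, g.d + g.h ≤ y → y ≤ g'.c + g'.h → ∃ m ∈ M, InG m (y - m.h)) := by
  obtain ⟨h1, h2, h3, h4⟩ := hR
  set lo := g.d + g.h with hlo
  set hi := g'.c + g'.h with hhi
  have hlt : lo < hi := by rw [hlo, hhi]; linarith
  obtain ⟨k, hk, hk1, hk2⟩ := hH.exists_mem_open isOpen_Ioo
    (show (Ioo g'.h g.h).Nonempty from nonempty_Ioo.2 (by linarith))
  obtain ⟨e, he, hb1⟩ := Metric.isOpen_iff.1 hQ.isOpen_compl lo hg
  obtain ⟨e', he', hb2⟩ := Metric.isOpen_iff.1 hQ.isOpen_compl hi hg'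
  obtain ⟨C, hC1, hC2, hC3⟩ := exists_not_mem_of_null hE
    (show lo < min (lo + e) ((lo + hi)/2) from lt_min (by linarith) (by linarith))
  obtain ⟨D, hD1, hD2, hD3⟩ := exists_not_mem_of_null hE
    (show max (hi - e') ((lo + hi)/2) < hi from max_lt (by linarith) (by linarith))
  rw [lt_min_iff] at hC2
  rw [max_lt_iff] at hD1
  refine ⟨[⟨C - k, D - k, k⟩], ?_, ?_, ?_⟩
  · simp only [List.cons_append, List.nil_append, List.isChain_cons_cons,
      List.isChain_singleton, and_true]
    refine ⟨⟨h1, by simp only; linarith, by simp only; linarith, by simp only; linarith⟩,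
      by simp only; linarith, h2, by simp only; linarith, by simp only; linarith⟩
  · intro m hm
    rw [List.mem_singleton] at hm
    subst hm
    exact ⟨hk, hinv C hC3 k hk, hinv D hD3 k hk⟩
  · intro y hy hy1 hy2
    refine ⟨⟨C - k, D - k, k⟩, by simp, ?_, ?_⟩
    · simp only
      have : ¬ y ≤ C := by
        intro hyC
        exact hb1 (show y ∈ Metric.ball lo e by
          rw [Metric.mem_ball, Real.dist_eq, abs_lt]; constructor <;> linarith) hy
      push Not at this
      linarith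
    · simp only
      have : ¬ D ≤ y := by
        intro hyD
        exact hb2 (show y ∈ Metric.ball hi e' by
          rw [Metric.mem_ball, Real.dist_eq, abs_lt]; constructor <;> linarith) hy
      push Not at this
      linarith

/-- The general refinement: `P x g₁` says that `x` is captured by `g₁`, and `lo`, `hi` are the
end points of the gaps seen from the relevant side. -/
lemma refine_list {P : ℝ → Gap → Prop} {lo hi : Gap → ℝ} {Q : Set ℝ}
    (hbet : ∀ g g' : Gap, Adm E H g → Adm E H g' → R g g' →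
      ∃ M : List Gap, List.IsChain R (g :: (M ++ [g'])) ∧ (∀ m ∈ M, Adm E H m) ∧
        (∀ x ∈ Q, hi g ≤ x → x ≤ lo g' → ∃ m ∈ M, P x m))
    (hP : ∀ g : Gap, Adm E H g → ∀ x ∈ Q, lo g < x → x < hi g → P x g) :
    ∀ (L : List Gap) (g : Gap), List.IsChain R (g :: L) → (∀ m ∈ g :: L, Adm E H m) →
      ∃ L' : List Gap, List.IsChain R (g :: L') ∧ (∀ m ∈ g :: L', Adm E H m) ∧
        (∀ m ∈ L, m ∈ L') ∧ (∀ m ∈ L', ∃ m₂ ∈ L, m = m₂ ∨ R m m₂) ∧
        (∀ x ∈ Q, hi g ≤ x → (∃ g₂ ∈ L, x ≤ lo g₂) → ∃ m ∈ L', P x m) := by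
  intro L
  induction L with
  | nil =>
    intro g h1 h2
    exact ⟨[], h1, h2, by simp, by simp, by simp⟩
  | cons g' L ih =>
    intro g h1 h2
    rw [List.isChain_cons_cons] at h1
    have hg := h2 g (by simp)
    have hg' := h2 g' (by simp)
    obtain ⟨M, hM1, hM2, hM3⟩ := hbet g g' hg hg' h1.1
    obtain ⟨L', hL1, hL2, hL3, hL4, hL5⟩ := ih g' h1.2 (fun m hm => h2 m (List.mem_cons_of_mem _ hm))
    refine ⟨M ++ g' :: L', ?_, ?_, ?_, ?_, ?_⟩
    · have := List.isChain_split (l₁ := g :: M) (l₂ := L') (c := g') (R := R)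
      rw [List.cons_append, List.cons_append] at this
      exact this.2 ⟨hM1, hL1⟩
    · intro m hm
      rcases List.mem_cons.1 hm with rfl | hm
      · exact hg
      · rcases List.mem_append.1 hm with hm | hm
        · exact hM2 m hm
        · exact hL2 m hm
    · intro m hm
      rcases List.mem_cons.1 hm with rfl | hm
      · exact List.mem_append_right _ List.mem_cons_self
      · exact List.mem_append_right _ (List.mem_cons_of_mem _ (hL3 m hm))
    · intro m hm
      rcases List.mem_append.1 hm with hm | hm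
      · refine ⟨g', by simp, Or.inr ?_⟩
        have h3 : List.Pairwise R (g :: (M ++ [g'])) := List.isChain_iff_pairwise.1 hM1
        have h4 := (List.pairwise_append.1 (List.pairwise_cons.1 h3).2).2.2
        exact h4 m hm g' (by simp)
      · rcases List.mem_cons.1 hm with rfl | hm
        · exact ⟨m, by simp, Or.inl rfl⟩
        · obtain ⟨m₂, h3, h4⟩ := hL4 m hm
          exact ⟨m₂, List.mem_cons_of_mem _ h3, h4⟩
    · rintro x hx hx1 ⟨g₂, hg₂, hx2⟩
      by_cases hx3 : x ≤ lo g'
      · obtain ⟨m, hm, hm'⟩ := hM3 x hx hx1 hx3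
        exact ⟨m, List.mem_append_left _ hm, hm'⟩
      · push Not at hx3
        by_cases hx4 : x < hi g'
        · exact ⟨g', List.mem_append_right _ List.mem_cons_self, hP g' hg' x hx hx3 hx4⟩
        · push Not at hx4
          have hg₂' : g₂ ∈ L := by
            rcases List.mem_cons.1 hg₂ with rfl | h
            · exact absurd hx2 (not_le.2 hx3)
            · exact h
          obtain ⟨m, hm, hm'⟩ := hL5 x hx hx4 ⟨g₂, hg₂', hx2⟩
          exact ⟨m, List.mem_append_right _ (List.mem_cons_of_mem _ hm), hm'⟩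

end Pool.Agent.R294.Plastic
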