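import Pool.Agent.R294.Plastic1

/-! Assembly of the non-expansive bijection. -/

namespace Pool.Agent.R294.Plastic

open Set MeasureTheory Topology

/-- One stage of the construction. -/
structure Step (E H : Set ℝ) (g₀ : Gap) (Q : Set ℝ) (T T' : List Gap) : Prop where
  chain : List.IsChain R (g₀ :: T')
  adm : ∀ m ∈ g₀ :: T', Adm E H m
  sub : ∀ m ∈ T, m ∈ T'
  bdd : ∀ m ∈ T', ∃ m₂ ∈ T, m = m₂ ∨ R m m₂
  dom : ∀ x ∈ Q, g₀.d ≤ x → (∃ g₂ ∈ T, x ≤ g₂.c) → ∃ m ∈ T', InG m x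
  ran : ∀ y ∈ Q, g₀.d + g₀.h ≤ y → (∃ g₂ ∈ T, y ≤ g₂.c + g₂.h) → ∃ m ∈ T', InG m (y - m.h)

lemma exists_step {E H : Set ℝ} (hE : volume E = 0) (hH : Dense H)
    (hinv : ∀ x ∉ E, ∀ h ∈ H, x - h ∉ E) (hinv' : ∀ x ∉ E, ∀ h ∈ H, x + h ∉ E)
    {Q : Set ℝ} (hQ : IsCompact Q) (hQE : Q ⊆ E) {g₀ : Gap} {T : List Gap}
    (h1 : List.IsChain R (g₀ :: T)) (h2 : ∀ m ∈ g₀ :: T, Adm E H m) :
    ∃ T', Step E H g₀ Q T T' := by
  obtain ⟨T₁, a1, a2, a3, a4, a5⟩ := refine_list (E := E) (H := H) (Q := Q)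
    (P := fun x g => InG g x) (lo := fun g => g.c) (hi := fun g => g.d)
    (fun g g' hg hg' hR => between_dom hE hH hQ hQE hR hg.2.2 hg'.2.1)
    (fun g _ x _ h3 h4 => ⟨h3, h4⟩) T g₀ h1 h2
  obtain ⟨T₂, b1, b2, b3, b4, b5⟩ := refine_list (E := E) (H := H) (Q := Q)
    (P := fun y g => InG g (y - g.h)) (lo := fun g => g.c + g.h) (hi := fun g => g.d + g.h)
    (fun g g' hg hg' hR => between_ran hE hH hinv hQ.isClosed hR
      (fun h => hinv' g.d hg.2.2 g.h hg.1 (hQE h)) (fun h => hinv' g'.c hg'.2.1 g'.h hg'.1 (hQE h)))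
    (fun g _ x _ h3 h4 => ⟨lt_sub_iff_add_lt.2 h3, sub_lt_iff_lt_add.2 h4⟩)
    T₁ g₀ a1 a2
  refine ⟨T₂, b1, b2, fun m hm => b3 m (a3 m hm), ?_, ?_, ?_⟩
  · intro m hm
    obtain ⟨m₂, hm₂, h3⟩ := b4 m hm
    obtain ⟨m₃, hm₃, h4⟩ := a4 m₂ hm₂
    refine ⟨m₃, hm₃, ?_⟩
    rcases h3 with rfl | h3
    · exact h4
    · rcases h4 with rfl | h4
      · exact Or.inr h3
      · exact Or.inr (h3.trans h4)
  · intro x hx h3 h4
    obtain ⟨m, hm, h5⟩ := a5 x hx h3 h4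
    exact ⟨m, b3 m hm, h5⟩
  · rintro y hy h3 ⟨g₂, hg₂, h4⟩
    exact b5 y hy h3 ⟨g₂, a3 g₂ hg₂, h4⟩

lemma pairwise_trich {L : List Gap} (h : List.Pairwise R L) :
    ∀ a ∈ L, ∀ b ∈ L, a = b ∨ R a b ∨ R b a := by
  induction L with
  | nil => simp
  | cons g L ih =>
    obtain ⟨h1, h2⟩ := List.pairwise_cons.1 h
    intro a ha b hb
    rcases List.mem_cons.1 ha with ha | ha <;> rcases List.mem_cons.1 hb with hb | hb
    · exact Or.inl (ha.trans hb.symm)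
    · rw [ha]; exact Or.inr (Or.inl (h1 b hb))
    · rw [hb]; exact Or.inr (Or.inr (h1 a ha))
    · exact ih h2 a ha b hb

/-- The sequence of stages. -/
lemma exists_stages {E H : Set ℝ} (hE : volume E = 0) (hH : Dense H)
    (hinv : ∀ x ∉ E, ∀ h ∈ H, x - h ∉ E) (hinv' : ∀ x ∉ E, ∀ h ∈ H, x + h ∉ E)
    {Q : ℕ → Set ℝ} (hQ : ∀ n, IsCompact (Q n)) (hQE : ∀ n, Q n ⊆ E) {g₀ g₁ : Gap}
    (hR : R g₀ g₁) (hg₀ : Adm E H g₀) (hg₁ : Adm E H g₁) :
    ∃ T : ℕ → List Gap, T 0 = [g₁] ∧ ∀ n, Step E H g₀ (Q n) (T n) (T (n+1)) := by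
  classical
  let Inv : List Gap → Prop := fun T => List.IsChain R (g₀ :: T) ∧ ∀ m ∈ g₀ :: T, Adm E H m
  have hstep : ∀ (n : ℕ) (T : {T : List Gap // Inv T}), ∃ T' : {T : List Gap // Inv T},
      Step E H g₀ (Q n) T.1 T'.1 := by
    rintro n ⟨T, h1, h2⟩
    obtain ⟨T', h3⟩ := exists_step hE hH hinv hinv' (hQ n) (hQE n) h1 h2
    exact ⟨⟨T', h3.chain, h3.adm⟩, h3⟩
  choose next hnext using hstep
  have h0 : Inv [g₁] := by
    refine ⟨by simpa using hR, ?_⟩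
    intro m hm
    simp only [List.mem_cons, List.not_mem_nil, or_false] at hm
    rcases hm with rfl | rfl
    · exact hg₀
    · exact hg₁
  let T : ℕ → {T : List Gap // Inv T} := fun n => Nat.rec ⟨[g₁], h0⟩ (fun n T => next n T) n
  exact ⟨fun n => (T n).1, rfl, fun n => hnext n (T n)⟩

/-- The bijection. -/
theorem exists_bijection {G : AddSubgroup ℝ} {H : AddSubgroup ℝ} (hHG : H ≤ G)
    (hHd : Dense (H : Set ℝ)) {Q : ℕ → Set ℝ} (hQ : ∀ n, IsCompact (Q n))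
    (hQ0 : volume (⋃ n, Q n) = 0) (hinv : ∀ x ∈ ⋃ n, Q n, ∀ h ∈ H, x + h ∈ ⋃ n, Q n)
    (hGQ : (G : Set ℝ) ⊆ ⋃ n, Q n) :
    ∃ f : G → G, Function.Bijective f ∧ (∀ x y, dist (f x) (f y) ≤ dist x y) ∧
      ∃ x y, dist (f x) (f y) ≠ dist x y := by
  set E : Set ℝ := ⋃ n, Q n with hEdef
  have hinv1 : ∀ x ∉ E, ∀ h ∈ (H : Set ℝ), x - h ∉ E := by
    intro x hx h hh hxh
    exact hx (by simpa using hinv _ hxh h hh)
  have hinv2 : ∀ x ∉ E, ∀ h ∈ (H : Set ℝ), x + h ∉ E := by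
    intro x hx h hh hxh
    exact hx (by simpa using hinv _ hxh (-h) (H.neg_mem hh))
  obtain ⟨am, ham1, ham2, ham3⟩ := exists_not_mem_of_null hQ0 (show (-1:ℝ) < 0 by norm_num)
  obtain ⟨a₀, ha1, ha2, ha3⟩ := exists_not_mem_of_null hQ0 (show (0:ℝ) < 1 by norm_num)
  obtain ⟨b₀, hb1, hb2, hb3⟩ := exists_not_mem_of_null hQ0 (show (2:ℝ) < 3 by norm_num)
  obtain ⟨bp, hbp1, hbp2, hbp3⟩ := exists_not_mem_of_null hQ0 (show (4:ℝ) < 5 by norm_num)
  obtain ⟨h₁, hh₁, hh₁1, hh₁2⟩ := hHd.exists_mem_open isOpen_Ioo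
    (show (Ioo (-1:ℝ) 0).Nonempty from nonempty_Ioo.2 (by norm_num))
  set g₀ : Gap := ⟨am, a₀, 0⟩ with hg₀
  set g₁ : Gap := ⟨b₀, bp, h₁⟩ with hg₁
  have hR : R g₀ g₁ := ⟨by simp only [hg₀]; linarith, by simp only [hg₁]; linarith,
    by simp only [hg₀, hg₁]; linarith, by simp only [hg₀, hg₁]; linarith⟩
  obtain ⟨T, hT0, hT⟩ := exists_stages hQ0 hHd hinv1 hinv2 hQ
    (fun n => subset_iUnion Q n) hR ⟨H.zero_mem, ham3, ha3⟩ ⟨hh₁, hb3, hbp3⟩
  -- the gap system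
  set S : Set Gap := {g | g = g₀ ∨ ∃ n, g ∈ T n} with hS
  have hmono : ∀ n m, n ≤ m → ∀ g ∈ T n, g ∈ T m := by
    intro n m hnm g hg
    induction m, hnm using Nat.le_induction with
    | base => exact hg
    | succ m _ ih => exact (hT m).sub g ih
  have hg₁T : ∀ n, g₁ ∈ T n := fun n => hmono 0 n (Nat.zero_le n) g₁ (by rw [hT0]; simp)
  have hbd : ∀ n, ∀ g ∈ T n, g = g₁ ∨ R g g₁ := by
    intro n
    induction n with
    | zero => intro g hg; rw [hT0] at hg; left; simpa using hg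
    | succ n ih =>
      intro g hg
      obtain ⟨g₂, hg₂, h⟩ := (hT n).bdd g hg
      rcases ih g₂ hg₂ with h' | h'
      · rw [h'] at h; exact h
      · rcases h with h | h
        · rw [h]; exact Or.inr h'
        · exact Or.inr (h.trans h')
  have hpair : ∀ n, List.Pairwise R (g₀ :: T n) := by
    intro n
    cases n with
    | zero => rw [hT0]; simpa using hR
    | succ n => exact List.isChain_iff_pairwise.1 (hT n).chain
  have htri : ∀ g ∈ S, ∀ g' ∈ S, g = g' ∨ R g g' ∨ R g' g := by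
    have key : ∀ g ∈ S, ∃ n, ∀ m, n ≤ m → g ∈ g₀ :: T m := by
      rintro g (rfl | ⟨n, hn⟩)
      · exact ⟨0, fun m _ => List.mem_cons_self⟩
      · exact ⟨n, fun m hm => List.mem_cons_of_mem _ (hmono n m hm g hn)⟩
    intro g hg g' hg'
    obtain ⟨n, hn⟩ := key g hg
    obtain ⟨n', hn'⟩ := key g' hg'
    exact pairwise_trich (hpair (max n n')) g (hn _ (le_max_left _ _)) g' (hn' _ (le_max_right _ _))
  have hfirst : ∀ g ∈ S, g = g₀ ∨ R g₀ g := by
    rintro g (h | ⟨n, hn⟩)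
    · exact Or.inl h
    · exact Or.inr ((List.pairwise_cons.1 (hpair n)).1 g hn)
  have hlast : ∀ g ∈ S, g = g₁ ∨ R g g₁ := by
    rintro g (rfl | ⟨n, hn⟩)
    · exact Or.inr hR
    · exact hbd n g hn
  have hadm : ∀ g ∈ S, g.h ∈ H := by
    rintro g (rfl | ⟨n, hn⟩)
    · exact H.zero_mem
    · exact ((hT n).adm g (List.mem_cons_of_mem _ ((hT n).sub g hn))).1
  -- points and their translations
  set V : ℝ → Gap → Prop := fun x g => g ∈ S ∧ (g.c < x ∨ g = g₀) ∧ (x < g.d ∨ g = g₁) with hV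
  have hcomp : ∀ {x x' : ℝ} {g g' : Gap}, V x g → V x' g' → R g g' →
      x < g.d ∧ g'.c < x' := by
    rintro x x' g g' ⟨hg, -, h1⟩ ⟨hg', h2, -⟩ hr
    constructor
    · rcases h1 with h1 | h1
      · exact h1
      · exfalso
        subst h1
        rcases hlast g' hg' with h | h
        · rw [h] at hr; exact R.irrefl _ hr
        · exact hr.asymm h
    · rcases h2 with h2 | h2
      · exact h2
      · exfalso
        subst h2
        rcases hfirst g hg with h | h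
        · rw [h] at hr; exact R.irrefl _ hr
        · exact hr.asymm h
  have hlip : ∀ {x x' : ℝ} {g g' : Gap}, V x g → V x' g' → x < x' →
      0 ≤ g.h - g'.h ∧ g.h - g'.h < x' - x := by
    intro x x' g g' hv hv' hxx
    rcases htri g hv.1 g' hv'.1 with h | h | h
    · rw [h]; constructor <;> linarith
    · obtain ⟨h1, h2⟩ := hcomp hv hv' h
      obtain ⟨-, -, h3, h4⟩ := h
      constructor <;> linarith
    · obtain ⟨h1, h2⟩ := hcomp hv' hv h
      obtain ⟨-, -, h3, h4⟩ := h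
      exfalso; linarith
  have huniq : ∀ {x : ℝ} {g g' : Gap}, V x g → V x g' → g = g' := by
    intro x g g' hv hv'
    rcases htri g hv.1 g' hv'.1 with h | h | h
    · exact h
    · obtain ⟨h1, h2⟩ := hcomp hv hv' h
      obtain ⟨-, -, h3, h4⟩ := h
      exfalso; linarith
    · obtain ⟨h1, h2⟩ := hcomp hv' hv h
      obtain ⟨-, -, h3, h4⟩ := h
      exfalso; linarith
  have hdom : ∀ x ∈ E, ∃ g, V x g := by
    intro x hx
    by_cases h1 : x < g₀.d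
    · exact ⟨g₀, Or.inl rfl, Or.inr rfl, Or.inl h1⟩
    · by_cases h2 : g₁.c < x
      · exact ⟨g₁, Or.inr ⟨0, hg₁T 0⟩, Or.inl h2, Or.inr rfl⟩
      · push Not at h1 h2
        obtain ⟨n, hn⟩ := mem_iUnion.1 hx
        obtain ⟨m, hm, hm'⟩ := (hT n).dom x hn h1 ⟨g₁, hg₁T n, h2⟩
        exact ⟨m, Or.inr ⟨_, hm⟩, Or.inl hm'.1, Or.inl hm'.2⟩
  have hran : ∀ y ∈ E, ∃ g, V (y - g.h) g := by
    intro y hy
    by_cases h1 : y < g₀.d + g₀.h
    · exact ⟨g₀, Or.inl rfl, Or.inr rfl, Or.inl (by linarith)⟩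
    · by_cases h2 : g₁.c + g₁.h < y
      · exact ⟨g₁, Or.inr ⟨0, hg₁T 0⟩, Or.inl (by linarith), Or.inr rfl⟩
      · push Not at h1 h2
        obtain ⟨n, hn⟩ := mem_iUnion.1 hy
        obtain ⟨m, hm, hm'⟩ := (hT n).ran y hn h1 ⟨g₁, hg₁T n, h2⟩
        exact ⟨m, Or.inr ⟨_, hm⟩, Or.inl hm'.1, Or.inl hm'.2⟩
  -- the map
  choose γ hγ using fun x : G => hdom x (hGQ x.2)
  have hmem : ∀ x : G, (x:ℝ) + (γ x).h ∈ G := fun x => G.add_mem x.2 (hHG (hadm _ (hγ x).1))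
  have hstrict : ∀ x y : G, (x:ℝ) < y → 0 < ((y:ℝ) + (γ y).h) - ((x:ℝ) + (γ x).h) ∧
      ((y:ℝ) + (γ y).h) - ((x:ℝ) + (γ x).h) ≤ y - x := by
    intro x y hxy
    obtain ⟨h1, h2⟩ := hlip (hγ x) (hγ y) hxy
    constructor <;> linarith
  refine ⟨fun x => ⟨(x:ℝ) + (γ x).h, hmem x⟩, ⟨?_, ?_⟩, ?_, ?_⟩
  · intro x y hxy
    have h1 : (x:ℝ) + (γ x).h = (y:ℝ) + (γ y).h := congrArg Subtype.val hxy
    rcases lt_trichotomy (x:ℝ) y with h | h | h
    · have := (hstrict x y h).1; linarith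
    · exact Subtype.ext h
    · have := (hstrict y x h).1; linarith
  · rintro ⟨y, hy⟩
    obtain ⟨g, hg⟩ := hran y (hGQ hy)
    have hx : y - g.h ∈ G := G.sub_mem hy (hHG (hadm _ hg.1))
    refine ⟨⟨y - g.h, hx⟩, Subtype.ext ?_⟩
    have : γ ⟨y - g.h, hx⟩ = g := huniq (hγ _) hg
    simp only [this]
    ring
  · intro x y
    rw [Subtype.dist_eq, Subtype.dist_eq, Real.dist_eq, Real.dist_eq]
    rcases lt_trichotomy (x:ℝ) y with h | h | h
    · obtain ⟨h1, h2⟩ := hstrict x y h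
      rw [abs_sub_comm, abs_sub_comm (x:ℝ) y, abs_of_pos h1, abs_of_pos (sub_pos.2 h)]
      exact h2
    · rw [Subtype.ext h]; simp
    · obtain ⟨h1, h2⟩ := hstrict y x h
      rw [abs_of_pos h1, abs_of_pos (sub_pos.2 h)]
      exact h2
  · have hGd : Dense (G : Set ℝ) := hHd.mono hHG
    obtain ⟨x, hx, hx1, hx2⟩ := hGd.exists_mem_open isOpen_Ioo
      (show (Ioo (a₀-1) a₀).Nonempty from nonempty_Ioo.2 (by linarith))
    obtain ⟨y, hy, hy1, hy2⟩ := hGd.exists_mem_open isOpen_Ioo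
      (show (Ioo b₀ (b₀+1)).Nonempty from nonempty_Ioo.2 (by linarith))
    refine ⟨⟨x, hx⟩, ⟨y, hy⟩, ?_⟩
    have e1 : γ ⟨x, hx⟩ = g₀ := huniq (hγ _) ⟨Or.inl rfl, Or.inr rfl, Or.inl hx2⟩
    have e2 : γ ⟨y, hy⟩ = g₁ := huniq (hγ _) ⟨Or.inr ⟨0, hg₁T 0⟩, Or.inl hy1, Or.inr rfl⟩
    rw [Subtype.dist_eq, Subtype.dist_eq, Real.dist_eq, Real.dist_eq]
    simp only [e1, e2, hg₀, hg₁]
    rw [abs_sub_comm, abs_of_pos (by linarith), abs_sub_comm, abs_of_pos (by linarith)]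
    intro h
    linarith

/-- Every dense subgroup of the line contained in a countable union of compact null sets has a
non-expansive bijection which is not an isometry. -/
theorem not_plastic {G : AddSubgroup ℝ} (hG : Dense (G : Set ℝ)) {N : ℕ → Set ℝ}
    (hN : ∀ n, IsCompact (N n)) (hN0 : ∀ n, volume (N n) = 0) (hGN : (G : Set ℝ) ⊆ ⋃ n, N n) :
    ∃ f : G → G, Function.Bijective f ∧ (∀ x y, dist (f x) (f y) ≤ dist x y) ∧
      ∃ x y, dist (f x) (f y) ≠ dist x y := by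
  obtain ⟨D, hDc, hDd⟩ := TopologicalSpace.exists_countable_dense G
  set D' : Set ℝ := (Subtype.val : G → ℝ) '' D with hD'
  have hD'c : D'.Countable := hDc.image _
  have hD'd : Dense D' := by
    have h1 : DenseRange (Subtype.val : G → ℝ) := by
      rw [DenseRange, Subtype.range_coe]; exact hG
    exact h1.dense_image continuous_subtype_val hDd
  set H : AddSubgroup ℝ := AddSubgroup.closure D' with hH
  have hHG : H ≤ G := by
    rw [hH, AddSubgroup.closure_le]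
    rintro _ ⟨x, -, rfl⟩
    exact x.2
  have hHd : Dense (H : Set ℝ) := hD'd.mono AddSubgroup.subset_closure
  have hHc : Countable H := by
    have h1 : (H : Set ℝ) = Set.range (Finsupp.linearCombination ℤ (Subtype.val : D' → ℝ)) := by
      rw [hH, ← Submodule.span_int_eq_addSubgroupClosure, Submodule.coe_toAddSubgroup,
        ← LinearMap.coe_range, Finsupp.range_linearCombination, Subtype.range_coe]
    have h2 : Countable D' := hD'c.to_subtype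
    have h3 : (Set.range (Finsupp.linearCombination ℤ (Subtype.val : D' → ℝ))).Countable :=
      Set.countable_range _
    rw [← h1] at h3
    exact h3.to_subtype
  obtain ⟨e, he⟩ := exists_surjective_nat (ℕ × H)
  set Q : ℕ → Set ℝ := fun k => (fun x => x + ((e k).2 : ℝ)) '' N (e k).1 with hQdef
  have hQ : ∀ k, IsCompact (Q k) := fun k => (hN _).image (by fun_prop)
  have hQ0 : volume (⋃ k, Q k) = 0 := by
    rw [measure_iUnion_null_iff]
    intro k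
    rw [hQdef]
    simp only [Set.image_add_right, measure_preimage_add_right]
    exact hN0 _
  have hmem : ∀ x, x ∈ ⋃ k, Q k ↔ ∃ n, ∃ h ∈ H, x - h ∈ N n := by
    intro x
    rw [mem_iUnion]
    constructor
    · rintro ⟨k, y, hy, rfl⟩
      exact ⟨(e k).1, (e k).2, (e k).2.2, by simpa using hy⟩
    · rintro ⟨n, h, hh, hx⟩
      obtain ⟨k, hk⟩ := he (n, ⟨h, hh⟩)
      refine ⟨k, x - h, ?_, ?_⟩
      · rw [hk]; exact hx
      · simp only [hk]; ring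
  refine exists_bijection hHG hHd hQ hQ0 ?_ ?_
  · intro x hx h hh
    rw [hmem] at hx ⊢
    obtain ⟨n, h', hh', hx⟩ := hx
    exact ⟨n, h' + h, H.add_mem hh' hh, by rwa [add_sub_add_right_eq_sub]⟩
  · intro x hx
    rw [hmem]
    obtain ⟨n, hn⟩ := mem_iUnion.1 (hGN hx)
    exact ⟨n, 0, H.zero_mem, by simpa using hn⟩

end Pool.Agent.R294.Plastic
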