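import Pool.Agent.R294.Plastic2
import Pool.Agent.H566W.Ana

/-! Dense sigma-compact and analytic subgroups of the line (a theorem of Laczkovich). -/

namespace Pool.Agent.R294.Plastic

open Set MeasureTheory Topology Filter Pointwise

/-! ### Open subgroups -/

lemma eq_top_of_mem_nhds {G : AddSubgroup ℝ} (h : (G : Set ℝ) ∈ 𝓝 (0:ℝ)) : G = ⊤ := by
  have h1 : IsOpen (G : Set ℝ) := G.isOpen_of_mem_nhds h
  have h2 : IsClosed (G : Set ℝ) := AddSubgroup.isClosed_of_isOpen G h1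
  have h3 : (G : Set ℝ) = univ := IsClopen.eq_univ ⟨h2, h1⟩ ⟨0, G.zero_mem⟩
  rw [eq_top_iff]
  intro x _
  have h4 : x ∈ (G : Set ℝ) := by rw [h3]; exact mem_univ x
  exact h4

lemma eq_top_of_pos {G : AddSubgroup ℝ} {K : Set ℝ} (hK : MeasurableSet K)
    (hKG : K ⊆ G) (h0 : volume K ≠ 0) : G = ⊤ := by
  apply eq_top_of_mem_nhds
  have h1 := MeasureTheory.Measure.sub_mem_nhds_zero_of_addHaar_pos (volume : Measure ℝ) K hK
    (pos_iff_ne_zero.2 h0)
  refine Filter.mem_of_superset h1 ?_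
  rintro _ ⟨x, hx, y, hy, rfl⟩
  exact G.sub_mem (hKG hx) (hKG hy)

/-- The whole line is not plastic. -/
lemma top_not_plastic {G : AddSubgroup ℝ} (hG : G = ⊤) :
    ∃ f : G → G, Function.Bijective f ∧ (∀ x y, dist (f x) (f y) ≤ dist x y) ∧
      ∃ x y, dist (f x) (f y) ≠ dist x y := by
  subst hG
  refine ⟨fun x => ⟨(x:ℝ)/2, AddSubgroup.mem_top _⟩, ⟨?_, ?_⟩, ?_, ?_⟩
  · intro x y h
    have h1 : (x:ℝ)/2 = (y:ℝ)/2 := congrArg Subtype.val h
    exact Subtype.ext (by linarith)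
  · intro y
    exact ⟨⟨2 * (y:ℝ), AddSubgroup.mem_top _⟩, Subtype.ext (by simp)⟩
  · intro x y
    rw [Subtype.dist_eq, Subtype.dist_eq, Real.dist_eq, Real.dist_eq]
    simp only
    rw [← sub_div, abs_div, abs_of_pos (two_pos : (0:ℝ) < 2)]
    have := abs_nonneg ((x:ℝ) - y)
    linarith
  · refine ⟨⟨0, AddSubgroup.mem_top _⟩, ⟨1, AddSubgroup.mem_top _⟩, ?_⟩
    rw [Subtype.dist_eq, Subtype.dist_eq, Real.dist_eq, Real.dist_eq]
    norm_num

/-- Dense sigma-compact subgroups of the line are not plastic. -/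
theorem sigmaCompact_not_plastic {G : AddSubgroup ℝ} (hG : Dense (G : Set ℝ))
    (hσ : IsSigmaCompact (G : Set ℝ)) :
    ∃ f : G → G, Function.Bijective f ∧ (∀ x y, dist (f x) (f y) ≤ dist x y) ∧
      ∃ x y, dist (f x) (f y) ≠ dist x y := by
  obtain ⟨K, hK, hKG⟩ := hσ
  by_cases h : ∀ n, volume (K n) = 0
  · exact not_plastic hG hK h hKG.symm.subset
  · push Not at h
    obtain ⟨n, hn⟩ := h
    exact top_not_plastic (eq_top_of_pos (hK n).measurableSet
      ((subset_iUnion K n).trans hKG.subset) hn)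

/-! ### Sums of sets of positive measure -/

lemma steinhaus_add {A B : Set ℝ} (hA : MeasurableSet A) (hB : MeasurableSet B)
    (hA0 : volume A ≠ 0) (hB0 : volume B ≠ 0) : ∃ t : ℝ, A + B ∈ 𝓝 t := by
  have key : ∃ t : ℝ, volume (A ∩ (fun x => t - x) ⁻¹' B) ≠ 0 := by
    by_contra hcon
    push Not at hcon
    set S : Set (ℝ × ℝ) := {p | p.1 ∈ A ∧ p.2 - p.1 ∈ B} with hS
    have hSm : MeasurableSet S :=
      (measurable_fst hA).inter ((measurable_snd.sub measurable_fst) hB)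
    have h1 : (volume.prod volume : Measure (ℝ × ℝ)) S = 0 := by
      rw [Measure.prod_apply_symm hSm]
      have : ∀ t : ℝ, volume ((fun x => (x, t)) ⁻¹' S) = 0 := fun t => hcon t
      simp [this]
    have h2 : (volume.prod volume : Measure (ℝ × ℝ)) S = volume A * volume B := by
      rw [Measure.prod_apply hSm]
      have h3 : ∀ x : ℝ, volume (Prod.mk x ⁻¹' S) = A.indicator (fun _ => volume B) x := by
        intro x
        by_cases hx : x ∈ A
        · rw [indicator_of_mem hx]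
          have : Prod.mk x ⁻¹' S = (fun t => t - x) ⁻¹' B := by
            ext t; simp [hS, hx]
          rw [this]
          simp only [sub_eq_add_neg]
          exact measure_preimage_add_right _ _ _
        · rw [indicator_of_notMem hx]
          have : Prod.mk x ⁻¹' S = ∅ := by
            ext t; simp [hS, hx]
          rw [this, measure_empty]
      simp only [h3]
      rw [lintegral_indicator_const hA, mul_comm]
    rw [h1] at h2
    exact mul_ne_zero hA0 hB0 h2.symm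
  obtain ⟨t, ht⟩ := key
  refine ⟨t, ?_⟩
  have hE : MeasurableSet (A ∩ (fun x => t - x) ⁻¹' B) :=
    hA.inter ((measurable_const.sub measurable_id) hB)
  have h1 := MeasureTheory.Measure.sub_mem_nhds_zero_of_addHaar_pos (volume : Measure ℝ) _ hE
    (pos_iff_ne_zero.2 ht)
  have h2 : (fun x : ℝ => x - t) ⁻¹' ((A ∩ (fun x => t - x) ⁻¹' B) -
      (A ∩ (fun x => t - x) ⁻¹' B)) ∈ 𝓝 t := by
    apply ContinuousAt.preimage_mem_nhds (by fun_prop)
    rwa [sub_self]
  refine Filter.mem_of_superset h2 ?_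
  rintro x ⟨y, ⟨hy1, -⟩, z, ⟨-, hz2⟩, hyz⟩
  refine ⟨y, hy1, t - z, hz2, ?_⟩
  simp only at hyz ⊢
  linarith

/-! ### Non-meagre analytic subgroups -/

/-- Analytic sets have the property of Baire. -/
lemma analytic_baire {X : Type*} [TopologicalSpace X] [SecondCountableTopology X] [T2Space X]
    {A : Set X} (hA : AnalyticSet A) :
    ∃ u : Set X, IsOpen u ∧ ∀ᶠ x in residual X, (x ∈ A ↔ x ∈ u) := by
  rw [AnalyticSet] at hA
  rcases hA with rfl | ⟨f, hf, hfr⟩
  · exact ⟨∅, isOpen_empty, Eventually.of_forall fun _ => Iff.rfl⟩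
  have h1 : IsMeagre (A \ H566W.Dn A) := H566W.sdiff_Dn A
  have h2 : IsMeagre (H566W.Dn A \ A) := by
    rw [← hfr]
    exact H566W.analytic_bp hf
  have h3 : BaireMeasurableSet (H566W.Dn A) :=
    ((H566W.Dn_closed A).isOpen_compl.baireMeasurableSet).of_compl
  have h4 : A =ᶠ[residual X] H566W.Dn A := by
    rw [Filter.eventuallyEq_set]
    have h1' : (A \ H566W.Dn A)ᶜ ∈ residual X := h1
    have h2' : (H566W.Dn A \ A)ᶜ ∈ residual X := h2
    filter_upwards [h1', h2'] with x hx1 hx2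
    constructor
    · intro hx
      by_contra hc
      exact hx1 ⟨hx, hc⟩
    · intro hx
      by_contra hc
      exact hx2 ⟨hx, hc⟩
  obtain ⟨u, hu, hAu⟩ := (h3.congr h4.symm).residualEq_isOpen
  exact ⟨u, hu, Filter.eventuallyEq_set.1 hAu⟩

lemma eq_top_of_not_meagre {G : AddSubgroup ℝ} (hA : AnalyticSet (G : Set ℝ))
    (hm : ¬ IsMeagre (G : Set ℝ)) : G = ⊤ := by
  obtain ⟨u, hu, hres⟩ := analytic_baire hA
  have hne : u.Nonempty := by
    by_contra h
    rw [not_nonempty_iff_eq_empty] at h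
    subst h
    apply hm
    rw [IsMeagre]
    filter_upwards [hres] with x hx
    simpa using hx
  obtain ⟨x₀, hx₀⟩ := hne
  obtain ⟨e, he, hball⟩ := Metric.isOpen_iff.1 hu x₀ hx₀
  apply eq_top_of_mem_nhds
  refine Filter.mem_of_superset (Metric.ball_mem_nhds 0 he) ?_
  intro t ht
  rw [mem_ball_zero_iff, Real.norm_eq_abs] at ht
  have hres2 : ∀ᶠ x in residual ℝ, (x + t ∈ (G : Set ℝ) ↔ x + t ∈ u) := by
    have h1 : IsMeagre {x | ¬ (x ∈ (G : Set ℝ) ↔ x ∈ u)} := by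
      rw [IsMeagre]
      filter_upwards [hres] with x hx
      simpa using hx
    have h2 := h1.preimage_of_isOpenMap (f := fun x => x + t) (by fun_prop)
      (Homeomorph.addRight t).isOpenMap
    rw [IsMeagre] at h2
    filter_upwards [h2] with x hx
    by_contra hc
    exact hx hc
  have h3 : Dense {x : ℝ | (x ∈ (G : Set ℝ) ↔ x ∈ u) ∧ (x + t ∈ (G : Set ℝ) ↔ x + t ∈ u)} :=
    dense_of_mem_residual (hres.and hres2)
  have h4 : IsOpen (u ∩ (fun x => x + t) ⁻¹' u) := hu.inter (hu.preimage (by fun_prop))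
  obtain ⟨x, hx, hxu, hxt⟩ := h3.exists_mem_open h4 ⟨x₀, hx₀, hball (by
    rw [Metric.mem_ball, Real.dist_eq, add_sub_cancel_left]; exact ht)⟩
  have h5 := hx.1.2 hxu
  have h6 := hx.2.2 hxt
  have h7 : (x + t) - x ∈ G := G.sub_mem h6 h5
  rwa [add_sub_cancel_left] at h7

/-! ### Laczkovich's theorem -/

/-- Sets covered by countably many compact null sets. -/
def Sm (S : Set ℝ) : Prop :=
  ∃ N : ℕ → Set ℝ, (∀ n, IsCompact (N n)) ∧ (∀ n, volume (N n) = 0) ∧ S ⊆ ⋃ n, N n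

lemma Sm.mono {S T : Set ℝ} (hT : Sm T) (h : S ⊆ T) : Sm S := by
  obtain ⟨N, h1, h2, h3⟩ := hT
  exact ⟨N, h1, h2, h.trans h3⟩

lemma Sm.iUnion {S : ℕ → Set ℝ} (h : ∀ n, Sm (S n)) : Sm (⋃ n, S n) := by
  choose N h1 h2 h3 using h
  refine ⟨fun k => N (Nat.unpair k).1 (Nat.unpair k).2, fun k => h1 _ _, fun k => h2 _ _, ?_⟩
  intro x hx
  obtain ⟨n, hn⟩ := mem_iUnion.1 hx
  obtain ⟨m, hm⟩ := mem_iUnion.1 (h3 n hn)
  exact mem_iUnion.2 ⟨Nat.pair n m, by simpa using hm⟩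

lemma Sm.biUnion {ι : Type*} {I : Set ι} (hI : I.Countable) {S : ι → Set ℝ}
    (h : ∀ i ∈ I, Sm (S i)) : Sm (⋃ i ∈ I, S i) := by
  rcases I.eq_empty_or_nonempty with rfl | hne
  · simp only [mem_empty_iff_false, iUnion_of_empty, iUnion_empty]
    exact ⟨fun _ => ∅, by simp, by simp, by simp⟩
  · obtain ⟨e, he⟩ := hI.exists_eq_range hne
    subst he
    rw [biUnion_range]
    exact Sm.iUnion (fun n => h _ (mem_range_self n))

lemma Sm.union {S T : Set ℝ} (hS : Sm S) (hT : Sm T) : Sm (S ∪ T) := by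
  have : S ∪ T ⊆ ⋃ n : ℕ, (if n = 0 then S else T) := by
    rintro x (hx | hx)
    · exact mem_iUnion.2 ⟨0, by simpa using hx⟩
    · exact mem_iUnion.2 ⟨1, by simpa using hx⟩
  refine (Sm.iUnion (fun n => ?_)).mono this
  split_ifs <;> assumption

lemma Sm_of_closed_null {S : Set ℝ} (hS : IsClosed S) (h0 : volume S = 0) : Sm S := by
  refine ⟨fun n => S ∩ Icc (-(n:ℝ)) n, fun n => isCompact_Icc.inter_left hS,
    fun n => measure_mono_null inter_subset_left h0, ?_⟩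
  intro x hx
  obtain ⟨n, hn⟩ := exists_nat_ge |x|
  exact mem_iUnion.2 ⟨n, hx, (abs_le.1 hn).1, (abs_le.1 hn).2⟩

/-- Laczkovich: a proper analytic subgroup of the line is covered by countably many compact
null sets. -/
theorem laczkovich {G : AddSubgroup ℝ} (hA : AnalyticSet (G : Set ℝ)) (hG : G ≠ ⊤) :
    Sm (G : Set ℝ) := by
  by_contra hSm
  apply hG
  apply eq_top_of_not_meagre hA
  intro hmeagre
  rw [AnalyticSet] at hA
  rcases hA with h | ⟨f, hf, hfr⟩
  · exact hSm (Sm.mono (T := ∅) ⟨fun _ => ∅, by simp, by simp, by simp⟩ h.subset)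
  -- the kernel
  set 𝒱 : Set (Set (ℕ → ℕ)) := {V | IsOpen V ∧ Sm (f '' V)} with h𝒱
  obtain ⟨T, hTc, hTsub, hTU⟩ := TopologicalSpace.isOpen_sUnion_countable 𝒱 (fun V hV => hV.1)
  have hU : Sm (f '' ⋃₀ 𝒱) := by
    rw [← hTU, sUnion_eq_biUnion, image_iUnion₂]
    exact Sm.biUnion hTc (fun V hV => (hTsub hV).2)
  set C : Set (ℕ → ℕ) := (⋃₀ 𝒱)ᶜ with hC
  have hCc : IsClosed C := (isOpen_sUnion fun V hV => hV.1).isClosed_compl
  have hloc : ∀ V : Set (ℕ → ℕ), IsOpen V → (V ∩ C).Nonempty →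
      volume (closure (f '' (V ∩ C))) ≠ 0 := by
    rintro V hV ⟨z, hzV, hzC⟩ h0
    have h1 : Sm (f '' (V ∩ C)) := (Sm_of_closed_null isClosed_closure h0).mono subset_closure
    have h2 : Sm (f '' V) := by
      refine (h1.union hU).mono ?_
      rintro _ ⟨x, hx, rfl⟩
      by_cases hxC : x ∈ C
      · exact Or.inl ⟨x, ⟨hx, hxC⟩, rfl⟩
      · exact Or.inr ⟨x, not_not.1 hxC, rfl⟩
    exact hzC ⟨V, ⟨hV, h2⟩, hzV⟩
  have hCne : C.Nonempty := by
    by_contra h
    rw [not_nonempty_iff_eq_empty, hC, compl_empty_iff] at h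
    apply hSm
    rw [← hfr, ← image_univ, ← h]
    exact hU
  -- Baire on `C × C`
  rw [isMeagre_iff_countable_union_isNowhereDense] at hmeagre
  obtain ⟨S, hS1, hS2, hS3⟩ := hmeagre
  let _ := TopologicalSpace.upgradeIsCompletelyMetrizable (ℕ → ℕ)
  have : CompleteSpace C := hCc.completeSpace_coe
  have : Nonempty C := hCne.to_subtype
  have hgc : Continuous (fun p : C × C => f p.1 + f p.2) := by fun_prop
  have hS2' : Countable S := hS2.to_subtype
  have hcov : ⋃ t : S, (fun p : C × C => f p.1 + f p.2) ⁻¹' closure (t : Set ℝ) = univ := by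
    rw [eq_univ_iff_forall]
    intro p
    have h1 : f p.1 + f p.2 ∈ (G : Set ℝ) := by
      apply G.add_mem
      · have : f p.1 ∈ (G : Set ℝ) := by rw [← hfr]; exact mem_range_self _
        exact this
      · have : f p.2 ∈ (G : Set ℝ) := by rw [← hfr]; exact mem_range_self _
        exact this
    obtain ⟨t, ht, hpt⟩ := hS3 h1
    exact mem_iUnion.2 ⟨⟨t, ht⟩, subset_closure hpt⟩
  obtain ⟨⟨t, ht⟩, hint⟩ := nonempty_interior_of_iUnion_of_closed
    (fun t : S => isClosed_closure.preimage hgc) hcov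
  obtain ⟨⟨x, y⟩, hxy⟩ := hint
  obtain ⟨V₁, V₂, hV₁, hV₂, hx, hy, hsub⟩ := isOpen_prod_iff.1 isOpen_interior x y hxy
  obtain ⟨W₁, hW₁, rfl⟩ := isOpen_induced_iff.1 hV₁
  obtain ⟨W₂, hW₂, rfl⟩ := isOpen_induced_iff.1 hV₂
  have hsum : closure (f '' (W₁ ∩ C)) + closure (f '' (W₂ ∩ C)) ⊆ closure t := by
    have h1 : f '' (W₁ ∩ C) + f '' (W₂ ∩ C) ⊆ closure t := by
      rintro _ ⟨_, ⟨a, ⟨ha, haC⟩, rfl⟩, _, ⟨b, ⟨hb, hbC⟩, rfl⟩, rfl⟩
      have h2 := hsub (show ((⟨a, haC⟩ : C), (⟨b, hbC⟩ : C)) ∈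
        (Subtype.val ⁻¹' W₁ : Set C) ×ˢ (Subtype.val ⁻¹' W₂ : Set C) from ⟨ha, hb⟩)
      have h3 := interior_subset h2
      exact h3
    rintro _ ⟨a, ha, b, hb, rfl⟩
    have h3 : (a, b) ∈ closure ((f '' (W₁ ∩ C)) ×ˢ (f '' (W₂ ∩ C))) := by
      rw [closure_prod_eq]; exact ⟨ha, hb⟩
    have h4 := map_mem_closure (f := fun p : ℝ × ℝ => p.1 + p.2) (by fun_prop) h3
      (t := closure t) (fun p hp => h1 ⟨p.1, hp.1, p.2, hp.2, rfl⟩)
    rwa [closure_closure] at h4
  obtain ⟨τ, hτ⟩ := steinhaus_add isClosed_closure.measurableSet isClosed_closure.measurableSet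
    (hloc W₁ hW₁ ⟨x, hx, x.2⟩) (hloc W₂ hW₂ ⟨y, hy, y.2⟩)
  have h5 : τ ∈ interior (closure t) := mem_interior_iff_mem_nhds.2 (Filter.mem_of_superset hτ hsum)
  have h6 : interior (closure t) = ∅ := hS1 t ht
  rw [h6] at h5
  exact h5

/-- Dense analytic subgroups of the line are not plastic. -/
theorem analytic_not_plastic {G : AddSubgroup ℝ} (hG : Dense (G : Set ℝ))
    (hA : AnalyticSet (G : Set ℝ)) :
    ∃ f : G → G, Function.Bijective f ∧ (∀ x y, dist (f x) (f y) ≤ dist x y) ∧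
      ∃ x y, dist (f x) (f y) ≠ dist x y := by
  by_cases hT : G = ⊤
  · exact top_not_plastic hT
  · obtain ⟨N, h1, h2, h3⟩ := laczkovich hA hT
    exact not_plastic hG h1 h2 h3

end Pool.Agent.R294.Plastic
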